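import Pool.Agent.Lib.SCN.Defs3

/-!
# Completeness theorem for the Set Cover Conjecture: the problems
-/

namespace SCM

open SCR SCN

/-- A decision problem: instances, their parameter `n`, their size, the list of words of the input, and the
question. -/
structure Problem where
  Inst : Type
  par : Inst → ℕ
  size : Inst → ℕ
  enc : Inst → List ℕ
  yes : Inst → Prop

open Classical in
/-- The program `P`, started with the words `l` at the beginning of the memory, answers the question `Y` in at
most `T` steps, for every word length `w` with `2^w ≥ W` and for every contents of the rest of the memory. -/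
def SolvesL (P : List Instr) (l : List ℕ) (Y : Prop) (W T : ℕ) : Prop :=
  ∀ (w : ℕ) (mem : ℕ → ℕ), W ≤ 2 ^ w → (∀ a, mem a < 2 ^ w) → (∀ i (h : i < l.length), mem i = l[i]) →
    Outputs w P mem T (if Y then 1 else 0)

/-- A program solves the problem `X` in `β^n` times a polynomial in `n` and the size. -/
def FastL (β : ℝ) (X : Problem) : Prop :=
  ∃ (P : List Instr) (C : ℕ), ∀ I : X.Inst,
    SolvesL P (X.enc I) (X.yes I) (C * (2 ^ X.par I * (X.par I + X.size I + 2)) ^ C)
      ⌊(C : ℝ) * β ^ X.par I * ((X.par I : ℝ) + X.size I + 2) ^ C⌋₊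

/-- The optimal base of the problem `X`. -/
noncomputable def baseL (X : Problem) : ℝ := sInf {β : ℝ | 1 ≤ β ∧ FastL β X}

/-! ### Steiner Tree -/

/-- A graph with vertices `0, …, N-1`, given by the list `E` of its edges; the terminals are `0, …, n-1`;
`j` is the number of edges allowed. -/
structure STInst where
  n : ℕ
  N : ℕ
  j : ℕ
  E : List (ℕ × ℕ)
  pos : 1 ≤ n
  le : n ≤ N
  lt : ∀ e ∈ E, e.1 < N ∧ e.2 < N

/-- Steiner Tree with unit weights: some set `F` of at most `j` edges connects the terminals. -/
def SteinerTree : Problem where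
  Inst := STInst
  par I := I.n
  size I := I.N + I.E.length
  enc I := [I.n, I.N, I.E.length, I.j] ++ I.E.flatMap fun e => [e.1, e.2]
  yes I := ∃ F : Finset (ℕ × ℕ), (∀ e ∈ F, e ∈ I.E) ∧ F.card ≤ I.j ∧
    ∀ s < I.n, ∀ t < I.n, Relation.EqvGen (fun u v => (u, v) ∈ F) s t

/-! ### Colourful Path -/

/-- A directed graph with vertices `0, …, N-1`, given by the list `E` of its edges; the colour of the vertex `v`
is `col v < n`. -/
structure CPInst where
  n : ℕ
  N : ℕ
  col : ℕ → ℕ
  E : List (ℕ × ℕ)
  pos : 1 ≤ n
  col_lt : ∀ v < N, col v < n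
  lt : ∀ e ∈ E, e.1 < N ∧ e.2 < N

/-- Colourful Path: some path `p 0 → p 1 → ⋯ → p (n-1)` has a vertex of every colour. -/
def ColourfulPath : Problem where
  Inst := CPInst
  par I := I.n
  size I := I.N + I.E.length
  enc I := [I.n, I.N, I.E.length] ++ ((List.range I.N).map I.col ++ I.E.flatMap fun e => [e.1, e.2])
  yes I := ∃ p : ℕ → ℕ, (∀ i < I.n, p i < I.N) ∧ (∀ i, i + 1 < I.n → (p i, p (i + 1)) ∈ I.E) ∧
    ∀ c < I.n, ∃ i < I.n, I.col (p i) = c

/-! ### Monotone circuits -/

/-- A monotone arithmetic circuit with gates `0, …, S-1`: gate `q < n` is the variable `x_q`, gate `n` is `1`, and to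
gate `q` one adds the products of the gates `x` and `y` for all `(q, x, y)` in the list `R`
(`x, y < q`). The output is the gate `o`. -/
structure MMInst where
  n : ℕ
  S : ℕ
  o : ℕ
  R : List (ℕ × ℕ × ℕ)
  hn : n < S
  ho : o < S
  hR : ∀ t ∈ R, t.1 < S ∧ t.2.1 < t.1 ∧ t.2.2 < t.1

/-- The polynomial of gate `q` contains the monomial `∏ x_a`, `a ∈ A`. -/
inductive Mono (n : ℕ) (R : List (ℕ × ℕ × ℕ)) : ℕ → Finset ℕ → Prop
  | var {a : ℕ} : a < n → Mono n R a {a}
  | one : Mono n R n ∅
  | mul {q x y : ℕ} {A B : Finset ℕ} : (q, x, y) ∈ R → Mono n R x A → Mono n R y B → Disjoint A B →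
      Mono n R q (A ∪ B)

/-- Full Monomial: does the output contain the monomial `x_0 x_1 ⋯ x_(n-1)`? -/
def FullMonomial : Problem where
  Inst := MMInst
  par I := I.n
  size I := I.S + I.R.length
  enc I := [I.n, I.S, I.R.length, I.o] ++ I.R.flatMap fun t => [t.1, t.2.1, t.2.2]
  yes I := Mono I.n I.R I.o (Finset.range I.n)

/-! ### Problems on families of sets -/

structure SetInst where
  n : ℕ
  k : ℕ
  L : List (Finset (Fin n))
  nodup : L.Nodup

/-- The problems of the hand-in on optimal bases. -/
def setProblem (Y : ∀ n : ℕ, ℕ → List (Finset (Fin n)) → Prop) : Problem where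
  Inst := SetInst
  par I := I.n
  size I := I.L.length
  enc I := [I.n, I.L.length, I.k] ++ I.L.map mask
  yes I := Y I.n I.k I.L

/-- The completeness theorem. -/
def Completeness : Prop :=
  baseL SteinerTree = base Coverable ∧ baseL ColourfulPath = base Coverable ∧ baseL FullMonomial = base Coverable

end SCM
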