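import Pool.Agent.Lib.SCM.Defs

/-!
# Two more problems: Graph Motif, and Set Cover with the parameter `n + k`
-/

namespace SCM

open SCR SCN

/-- A graph with vertices `0, …, N-1`, given by the list `E` of its edges; the colour of the vertex `v` is
`col v < n`. -/
structure GMInst where
  n : ℕ
  N : ℕ
  col : ℕ → ℕ
  E : List (ℕ × ℕ)
  pos : 1 ≤ n
  col_lt : ∀ v < N, col v < n
  lt : ∀ e ∈ E, e.1 < N ∧ e.2 < N

/-- The vertices of `V` are connected by the edges inside `V`. -/
def Conn (E : List (ℕ × ℕ)) (V : Finset ℕ) : Prop :=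
  ∀ u ∈ V, ∀ v ∈ V, Relation.EqvGen (fun a b => (a, b) ∈ E ∧ a ∈ V ∧ b ∈ V) u v

/-- Colourful Graph Motif: some connected set of `n` vertices has all `n` colours. -/
def GraphMotif : Problem where
  Inst := GMInst
  par I := I.n
  size I := I.N + I.E.length
  enc I := [I.n, I.N, I.E.length] ++ ((List.range I.N).map I.col ++ I.E.flatMap fun e => [e.1, e.2])
  yes I := ∃ V : Finset ℕ, (∀ v ∈ V, v < I.N) ∧ V.card = I.n ∧ (∀ c < I.n, ∃ v ∈ V, I.col v = c) ∧ Conn I.E V

/-- Set Cover with the parameter `n + k`. -/
def SetCoverNK : Problem where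
  Inst := SetInst
  par I := I.n + I.k
  size I := I.L.length
  enc I := [I.n, I.L.length, I.k] ++ I.L.map mask
  yes I := Coverable I.n I.k I.L

/-- The completeness theorem with five problems. -/
def Completeness2 : Prop :=
  baseL SteinerTree = base Coverable ∧ baseL GraphMotif = base Coverable ∧ baseL ColourfulPath = base Coverable ∧
    baseL FullMonomial = base Coverable ∧ baseL SetCoverNK = base Coverable

end SCM
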