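import Pool.Agent.Lib.SCM.Defs

/-!
# Monotone circuits: the polynomials
-/

namespace SCM

open SCR SCN

/-- The polynomial computed by gate `q`: `x_q` (if `q < n`) plus `1` (if `q = n`) plus the products of the gates `x`
and `y` for all `(q, x, y)` in the list (with `x, y < q`). -/
noncomputable def gate (n : ℕ) (R : List (ℕ × ℕ × ℕ)) (q : ℕ) : MvPolynomial ℕ ℕ :=
  (if q < n then MvPolynomial.X q else 0) + (if q = n then 1 else 0) +
    ((R.filter fun t => t.1 = q).map fun t =>
      (if t.2.1 < q then gate n R t.2.1 else 0) * (if t.2.2 < q then gate n R t.2.2 else 0)).sum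
termination_by q

/-- Monomial of a monotone circuit: does the polynomial of the output gate contain the monomial `x_0 x_1 ⋯ x_(n-1)`? -/
noncomputable def CircuitMonomial : Problem where
  Inst := MMInst
  par I := I.n
  size I := I.S + I.R.length
  enc I := [I.n, I.S, I.R.length, I.o] ++ I.R.flatMap fun t => [t.1, t.2.1, t.2.2]
  yes I := (gate I.n I.R I.o).coeff (∑ i ∈ Finset.range I.n, Finsupp.single i 1) ≠ 0

end SCM
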