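import Pool.Agent.Lib.SCM.Defs

/-!
# Set Cover with small sets
-/

namespace SCM

open SCR SCN

/-- A family `L` of sets whose members have at most `A` times as many elements as `|L|` has binary digits. -/
structure LogInst (A : ℕ) where
  n : ℕ
  k : ℕ
  L : List (Finset (Fin n))
  nodup : L.Nodup
  small : ∀ S ∈ L, S.card ≤ A * Nat.size L.length

/-- Set Cover, restricted to sets with at most `A` times as many elements as `|L|` has binary digits. -/
def LogSetCover (A : ℕ) : Problem where
  Inst := LogInst A
  par I := I.n
  size I := I.L.length
  enc I := [I.n, I.L.length, I.k] ++ I.L.map mask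
  yes I := Coverable I.n I.k I.L

end SCM
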