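import Pool.Agent.Lib.SCM.Progs

/-!
# T11: Full Monomial → Exact Cover
-/

set_option autoImplicit false

namespace SCM

open SCR SCN

namespace T11x

lemma length_le {n : ℕ} {L : List (Finset (Fin n))} (h : L.Nodup) : L.length ≤ 2 ^ n := by
  have h1 : L.length = L.toFinset.card := (List.toFinset_card_of_nodup h).symm
  rw [h1]
  calc L.toFinset.card ≤ (Finset.univ : Finset (Finset (Fin n))).card := Finset.card_le_card (Finset.subset_univ _)
    _ = 2 ^ n := by simp

end T11x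

open T11x

theorem t11 : T11 := by
  intro h8 h9 h10 β β' hβ hβ' ⟨P, C, hP⟩
  obtain ⟨K, hK, hKC⟩ := h10 β β' C hβ hβ'
  obtain ⟨D, C1, hD⟩ := h9 K C hK
  obtain ⟨C2, hC2⟩ := hKC D (top P)
  have hβp : 0 < β' := by linarith
  refine ⟨(main3 K D P).compile 0, max C1 C2, fun I => ?_⟩
  obtain ⟨hD1, hD2⟩ := hD I
  set n' := MMInst.n I + K + (K + 1) with hn'
  set T' : ℕ → ℕ := fun x => ⌊(C : ℝ) * β ^ n' * ((n' : ℝ) + x + 2) ^ C⌋₊ with hT'
  have hmono : Monotone T' := by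
    intro x y hxy
    refine Nat.floor_le_floor ?_
    have : (x : ℝ) ≤ y := by exact_mod_cast hxy
    have hb : 0 < β := by linarith
    refine mul_le_mul_of_nonneg_left (pow_le_pow_left₀ (by positivity) (by linarith) C) (by positivity)
  have hsub : Sub P n' (C * (2 ^ n' * (n' + 2 ^ n' + 2)) ^ C) T' := by
    intro L hL w mem hW hm he
    have h1 := hP ⟨n', 0, L, hL⟩ w mem ?_ hm he
    · exact h1
    · refine le_trans ?_ hW
      change C * (2 ^ n' * (n' + L.length + 2)) ^ C ≤ _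
      have := length_le hL
      gcongr
  have h1 := h8 K D _ T' P I hK hsub hmono hD1
    (max C1 C2 * (2 ^ MMInst.n I * (MMInst.n I + (MMInst.S I + (MMInst.R I).length) + 2)) ^ max C1 C2) ?_
  · intro w mem hW hm he
    obtain ⟨k, hk, h2⟩ := h1 w mem hW hm he
    refine ⟨k, hk.trans (Nat.le_floor ?_), h2⟩
    refine (hC2 I).trans ?_
    have hb : (1 : ℝ) ≤ (MMInst.n I : ℝ) + ((MMInst.S I + (MMInst.R I).length : ℕ) : ℝ) + 2 := by
      have e1 := Nat.cast_nonneg (α := ℝ) (MMInst.n I)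
      have e2 := Nat.cast_nonneg (α := ℝ) (MMInst.S I + (MMInst.R I).length)
      linarith
    change (C2 : ℝ) * β' ^ MMInst.n I * ((MMInst.n I : ℝ) + ((MMInst.S I + (MMInst.R I).length : ℕ) : ℝ) + 2) ^ C2 ≤
      ((max C1 C2 : ℕ) : ℝ) * β' ^ MMInst.n I *
        ((MMInst.n I : ℝ) + ((MMInst.S I + (MMInst.R I).length : ℕ) : ℝ) + 2) ^ max C1 C2
    have e3 : (C2 : ℝ) ≤ ((max C1 C2 : ℕ) : ℝ) := by exact_mod_cast le_max_right C1 C2
    have e4 : ((MMInst.n I : ℝ) + ((MMInst.S I + (MMInst.R I).length : ℕ) : ℝ) + 2) ^ C2 ≤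
        ((MMInst.n I : ℝ) + ((MMInst.S I + (MMInst.R I).length : ℕ) : ℝ) + 2) ^ max C1 C2 :=
      pow_le_pow_right₀ hb (le_max_right C1 C2)
    exact mul_le_mul (mul_le_mul_of_nonneg_right e3 (by positivity)) e4 (by positivity) (by positivity)
  · intro w hw
    refine hD2 w (le_trans ?_ hw)
    have h3 : 1 ≤ 2 ^ MMInst.n I * (MMInst.n I + (MMInst.S I + (MMInst.R I).length) + 2) :=
      Nat.one_le_iff_ne_zero.2 (by positivity)
    exact Nat.mul_le_mul (le_max_left _ _) (Nat.pow_le_pow_right h3 (le_max_left _ _))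

end SCM
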