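import Pool.Agent.Lib.SCM.Progs

/-!
# T8: the whole program
-/

set_option autoImplicit false

namespace SCM

open SCR SCN

namespace T8x

lemma monoH_congr {n K : ℕ} {u v : ℕ → ℕ} {R : List (ℕ × ℕ × ℕ)} (h : ∀ i < K, u i = v i) {z : ℕ}
    {A : Finset ℕ} (hz : MonoH n K u R z A) : MonoH n K v R z A := by
  induction hz with
  | var ha => exact .var ha
  | one => exact .one
  | hole hj =>
    rw [h _ hj]
    exact .hole hj
  | mul hR _ _ hd ih1 ih2 => exact .mul hR ih1 ih2 hd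

lemma monoH_iff {n K : ℕ} {u v : ℕ → ℕ} {R : List (ℕ × ℕ × ℕ)} (h : ∀ i < K, u i = v i) (z : ℕ)
    (A : Finset ℕ) : MonoH n K u R z A ↔ MonoH n K v R z A :=
  ⟨monoH_congr h, monoH_congr fun i hi => (h i hi).symm⟩

lemma sym_congr {K o : ℕ} {u v : ℕ → ℕ} (h : ∀ i < K, u i = v i) {i : ℕ} (hi : i < K + 1) :
    sym K o u i = sym K o v i := by
  unfold sym
  split_ifs with h1
  · rfl
  · exact h i (by omega)

lemma instE_congr {n K o s : ℕ} {R : List (ℕ × ℕ × ℕ)} {u v : ℕ → ℕ} (h : ∀ i < K, u i = v i) :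
    instE n K o s R u (K + 1) = instE n K o s R v (K + 1) := by
  unfold instE
  have : ∀ i ∈ List.range (K + 1), pieceL n K o s R u i = pieceL n K o s R v i := by
    intro i hi
    rw [List.mem_range] at hi
    unfold pieceL
    congr 1
    refine List.filter_congr fun Y _ => ?_
    rw [sym_congr h hi]
    exact decide_eq_decide.2 (and_congr_right fun _ => monoH_iff h _ _)
  rw [List.flatMap_congr this]

lemma env3_agree {K D : ℕ} {I : MMInst} {x s : Data} (h : Env3 K D I s) (h' : Agree x s) : Env3 K D I x where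
  r1 := (h'.reg 1 (by omega)).trans h.r1
  r3 := (h'.reg 3 (by omega)).trans h.r3
  r4 := (h'.reg 4 (by omega)).trans h.r4
  r5 := (h'.reg 5 (by omega)).trans h.r5
  r6 := (h'.reg 6 (by omega)).trans h.r6
  r7 := (h'.reg 7 (by omega)).trans h.r7
  r8 := (h'.reg 8 (by omega)).trans h.r8
  r9 := (h'.reg 9 (by omega)).trans h.r9
  r10 := (h'.reg 10 (by omega)).trans h.r10
  r11 := (h'.reg 11 (by omega)).trans h.r11
  r12 := (h'.reg 12 (by omega)).trans h.r12
  r13 := (h'.reg 13 (by omega)).trans h.r13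
  r14 := (h'.reg 14 (by omega)).trans h.r14
  r15 := (h'.reg 15 (by omega)).trans h.r15
  r16 := (h'.reg 16 (by omega)).trans h.r16
  inp := by rw [h'.mem]; exact h.inp
  row := by rw [h'.mem]; exact h.row

lemma el3_agree {K : ℕ} {I : MMInst} {x s : Data} (h : EL3 K I s) (h' : Agree x s) : EL3 K I x where
  r19 := (h'.reg 19 (by omega)).trans h.r19
  word := by rw [h'.mem]; exact h.word

lemma env3_upd {K D : ℕ} {I : MMInst} {x : Data} (h : Env3 K D I x) {i v : ℕ} (hi : i = 0 ∨ 50 ≤ i) :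
    Env3 K D I ⟨Function.update x.reg i v, x.mem⟩ := by
  have e : ∀ r, r ≠ i → Function.update x.reg i v r = x.reg r := fun r hr => Function.update_of_ne hr _ _
  constructor
  · exact (e 1 (by omega)).trans h.r1
  · exact (e 3 (by omega)).trans h.r3
  · exact (e 4 (by omega)).trans h.r4
  · exact (e 5 (by omega)).trans h.r5
  · exact (e 6 (by omega)).trans h.r6
  · exact (e 7 (by omega)).trans h.r7
  · exact (e 8 (by omega)).trans h.r8
  · exact (e 9 (by omega)).trans h.r9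
  · exact (e 10 (by omega)).trans h.r10
  · exact (e 11 (by omega)).trans h.r11
  · exact (e 12 (by omega)).trans h.r12
  · exact (e 13 (by omega)).trans h.r13
  · exact (e 14 (by omega)).trans h.r14
  · exact (e 15 (by omega)).trans h.r15
  · exact (e 16 (by omega)).trans h.r16
  · exact h.inp
  · exact h.row

lemma el3_upd {K : ℕ} {I : MMInst} {x : Data} (h : EL3 K I x) {i v : ℕ} (hi : i = 0 ∨ 50 ≤ i) :
    EL3 K I ⟨Function.update x.reg i v, x.mem⟩ :=
  ⟨(Function.update_of_ne (by omega) _ _).trans h.r19, h.word⟩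

lemma sz_spec (n K : ℕ) (hK : 1 ≤ K) : 1 ≤ sz n K ∧ 2 * n ≤ K * sz n K := by
  unfold sz
  refine ⟨Nat.le_add_left 1 _, ?_⟩
  have h1 := Nat.div_add_mod (2 * n + K - 1) K
  have h2 := Nat.mod_lt (2 * n + K - 1) (show 0 < K by omega)
  rw [Nat.mul_add]
  omega

/-- the question and the guesses -/
lemma yes_iff (h1 : Q1) (h2 : Q2) (h3 : Q3) (K : ℕ) (I : MMInst) (hK : 1 ≤ K) :
    (∃ v : ℕ → ℕ, (∀ i < K, v i ≤ I.S - 1) ∧ Exact (I.n + K + (K + 1)) 0
      (instE I.n K I.o (sz I.n K + K) I.R v (K + 1))) ↔ Mono I.n I.R I.o (Finset.range I.n) := by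
  obtain ⟨s1, s2⟩ := sz_spec I.n K hK
  constructor
  · rintro ⟨v, -, hv⟩
    obtain ⟨Y, hY⟩ := (h3 I.n K I.o (sz I.n K + K) I.R v).2.2.1 hv
    exact h2 I.n K I.o (sz I.n K + K) v I.R Y hY
  · intro h
    obtain ⟨q, Y, hq, hY⟩ := h1 I.n I.S I.o K (sz I.n K) I.R I.hn I.ho I.hR s1 s2 h
    refine ⟨q, fun i hi => ?_, (h3 I.n K I.o (sz I.n K + K) I.R q).2.2.2 ⟨Y, hY⟩⟩
    have := hq i hi
    omega

end T8x

open T8x

open Classical in
theorem t8 : T8 := by
  intro hPW h1 h2 h2' h4 h5 h6 h7 q1 q2 q3 hN K D W' T' P I hK hsub hT' hW' W hFit w mem hW hmem henc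
  have hF := hFit w hW
  have hS1 : 1 ≤ I.S := by
    have := I.hn
    omega
  set M := (sm K I).length with hM
  set TB := 60 * (I.S + K + 1) * (M + 1) + 100 * I.S * (I.R.length + 1) * (M + 1) ^ 2 +
    (60 * (K + 1) * (M + 1) + 60) + (3 * T' ((K + 1) * M) + top P) + 10 with hTB
  have hnm := hF.nm
  -- the nested loops
  have hnest : ∀ s : Data, Env3 K D I s → EL3 K I s → s.reg 0 = 0 →
      HT w (nest (body3 K P) K) s (I.S ^ K * (TB + 5 * K))
        (fun y => y.reg 0 = if FullMonomial.yes I then 1 else 0) := by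
    intro s hs1 hs2 hs3 x hx
    have hrun := hN w (I.S - 1) TB K (body3 K P) (fun x => Env3 K D I x ∧ EL3 K I x)
      (fun v => Exact (I.n + K + (K + 1)) 0 (instE I.n K I.o (sz I.n K + K) I.R v (K + 1)))
      (by omega) (fun x hx => ⟨hx.1.r9, hx.1.r4⟩)
      (fun x j c hx _ => ⟨env3_upd hx.1 (Or.inr (by omega)), el3_upd hx.2 (Or.inr (by omega))⟩)
      (fun u v huv hu => by rw [← instE_congr huv]; exact hu)
      (fun y hy hy0 hyg => by
        have h3 := h7 h2' h4 h5 h6 q3 w K D W' T' P I y hK hF hy.1 hy.2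
          (fun j hj => by have := hyg j hj; unfold gs; omega) hy0 hsub hT' hW'
        refine h3.runs.mono le_rfl ?_
        rintro z ⟨s', z1, z2, z3, z4, z5⟩
        refine ⟨⟨env3_agree z2 z1, el3_agree z3 z1⟩, fun i hi => ?_, ?_⟩
        · rw [z1.reg (50 + i) (Or.inr (by omega))]
          exact z4 i hi
        · rw [z1.reg 0 (Or.inl (by omega)), z5]
          rfl)
      x ⟨env3_agree hs1 hx, el3_agree hs2 hx⟩ ((hx.reg 0 (Or.inl (by omega))).trans hs3)
    rw [show I.S - 1 + 1 = I.S by omega] at hrun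
    refine hrun.mono le_rfl fun y hy => ⟨y, Agree.refl y, ?_⟩
    change y.reg 0 = if FullMonomial.yes I then 1 else 0
    rw [hy]
    have h3 := yes_iff q1 q2 q3 K I hK
    have h4 : FullMonomial.yes I ↔ Mono I.n I.R I.o (Finset.range I.n) := Iff.rfl
    by_cases hc : Mono I.n I.R I.o (Finset.range I.n)
    · rw [if_pos (h3.2 hc), if_pos (h4.2 hc)]
    · rw [if_neg (fun h => hc (h3.1 h)), if_neg (fun h => hc (h4.1 h))]
  refine HT.outputs ?_
  refine HT.seq (T2 := 60 * (I.n + K + 1) * (M + 1) + (2 + (I.S ^ K * (TB + 5 * K) + 0)))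
    (h1 hPW w K D I mem hK hF hmem henc) ?_ ?_
  · intro s hs
    refine HT.seq (h2 w K D I s hF hs) ?_ le_rfl
    rintro t ⟨t1, t2, -⟩
    refine HT.seq (T1 := 2) (T2 := I.S ^ K * (TB + 5 * K) + 0) (R := fun u => Env3 K D I u ∧ EL3 K I u ∧ u.reg 0 = 0) ?_ ?_ le_rfl
    · refine HT.set (by omega) rfl (by decide) ?_ ⟨env3_upd t1 (Or.inl rfl), el3_upd t2 (Or.inl rfl), upd_self _ _ _⟩
        (show 1 + 1 ≤ 2 by norm_num)
      exact Nat.pos_of_ne_zero (by positivity)
    · rintro u ⟨u1, u2, u3⟩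
      refine HT.seq (hnest u u1 u2 u3) ?_ le_rfl
      intro v hv
      exact HT.skip hv
  · unfold time3
    have e : TB + 5 * K = 60 * (I.S + K + 1) * (M + 1) + 100 * I.S * (I.R.length + 1) * (M + 1) ^ 2 +
        (60 * (K + 1) * (M + 1) + 60) + (3 * T' ((K + 1) * M) + top P) + 10 + 5 * K := by
      rw [hTB]
    rw [e]
    omega

end SCM
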