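import Pool.Agent.Lib.SCM.OC
import Pool.Agent.Lib.SCM.T8
import Pool.Agent.Lib.SCM.T11
import Pool.Agent.Lib.SCN.O3

/-!
# The completeness theorem from the rows
-/

set_option autoImplicit false

namespace SCM

open SCR SCN

lemma FastL.mono {β β' : ℝ} {X : Problem} (h0 : 0 ≤ β) (h : β ≤ β') (hX : FastL β X) : FastL β' X := by
  obtain ⟨P, C, hP⟩ := hX
  refine ⟨P, C, fun I w mem hW hm he => ?_⟩
  obtain ⟨k, hk, h1⟩ := hP I w mem hW hm he
  refine ⟨k, hk.trans (Nat.floor_le_floor ?_), h1⟩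
  gcongr

/-- `Y` is not harder than `X`. -/
def Leq (X Y : Problem) : Prop := ∀ β η : ℝ, 1 ≤ β → 0 < η → FastL β X → FastL (β + η) Y

lemma Leq.trans {X Y Z : Problem} (h : Leq X Y) (h' : Leq Y Z) : Leq X Z := by
  intro β η h1 h2 h3
  have h4 := h' (β + η / 2) (η / 2) (by linarith) (by linarith) (h β (η / 2) h1 (by linarith) h3)
  rwa [show β + η / 2 + η / 2 = β + η by ring] at h4

lemma Leq.of {X Y : Problem} (h : ∀ β : ℝ, 1 ≤ β → FastL β X → FastL β Y) : Leq X Y := fun β η h1 h2 h3 =>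
  (h β h1 h3).mono (by linarith) (by linarith)

lemma bddL (X : Problem) : BddBelow {β : ℝ | 1 ≤ β ∧ FastL β X} := ⟨1, fun _ h => h.1⟩

lemma Leq.nonempty {X Y : Problem} (h : Leq X Y) (hX : {β : ℝ | 1 ≤ β ∧ FastL β X}.Nonempty) :
    {β : ℝ | 1 ≤ β ∧ FastL β Y}.Nonempty := by
  obtain ⟨β, h1, h2⟩ := hX
  exact ⟨β + 1, by linarith, h β 1 h1 one_pos h2⟩

lemma Leq.le {X Y : Problem} (h : Leq X Y) (hX : {β : ℝ | 1 ≤ β ∧ FastL β X}.Nonempty) : baseL Y ≤ baseL X := by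
  refine le_csInf hX ?_
  rintro β ⟨h1, h2⟩
  refine le_of_forall_pos_le_add fun η hη => ?_
  exact csInf_le (bddL Y) ⟨by linarith, h β η h1 hη h2⟩

lemma baseL_eq {X Y : Problem} (h : Leq X Y) (h' : Leq Y X) (hX : {β : ℝ | 1 ≤ β ∧ FastL β X}.Nonempty) :
    baseL Y = baseL X :=
  le_antisymm (h.le hX) (h'.le (h.nonempty hX))

lemma base_set (h12 : T12) (Y : ∀ n : ℕ, ℕ → List (Finset (Fin n)) → Prop) : baseL (setProblem Y) = base Y := by
  unfold baseL base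
  simp only [h12 Y]

/-- The theorem from its rows. -/
theorem completenessOf (hPW : PowSet) (o1 : Ok1) (o2 : Ok2) (o4 : Ok4) (o5 : Ok5) (m1 : M1) (m2 : M2) (m4 : M4)
    (m5 : M5) (p1 : P1) (p2 : P2) (p4 : P4) (p5 : P5) (q1 : Q1) (q2 : Q2) (q3 : Q3) (r1 : T1) (r2 : T2)
    (r2' : T2') (r4 : T4) (r5 : T5) (r6 : T6) (r7 : T7) (hN : NestSpec) (r9 : T9) (r10 : T10) (r12 : T12) :
    Completeness := by
  have hOC := oneCallOf hPW
  have a1 : Leq SteinerTree (setProblem Coverable) := by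
    obtain ⟨c, hc⟩ := p1 o1 m1
    exact Leq.of fun β hβ h => hOC _ _ _ _ _ β hc hβ h
  have a2 : Leq FullMonomial SteinerTree := by
    obtain ⟨c, hc⟩ := p2 o2 m2
    exact Leq.of fun β hβ h => hOC _ _ _ _ _ β hc hβ h
  have a4 : Leq ColourfulPath (setProblem Exact) := by
    obtain ⟨c, hc⟩ := p4 o4 m4
    exact Leq.of fun β hβ h => hOC _ _ _ _ _ β hc hβ h
  have a5 : Leq FullMonomial ColourfulPath := by
    obtain ⟨c, hc⟩ := p5 o5 m5
    exact Leq.of fun β hβ h => hOC _ _ _ _ _ β hc hβ h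
  have a3 : Leq (setProblem Exact) FullMonomial := fun β η h1 h2 h3 =>
    t11 (t8 hPW r1 r2 r2' r4 r5 r6 r7 q1 q2 q3 hN) r9 r10 β (β + η) h1 (by linarith) h3
  have a6 : Leq (setProblem Coverable) (setProblem Exact) := fun β η h1 h2 h3 =>
    (r12 Exact (β + η)).1 (transfer good_cover good_exact h1 h2 ((r12 Coverable β).2 h3))
  have hne : {β : ℝ | 1 ≤ β ∧ FastL β (setProblem Coverable)}.Nonempty :=
    ⟨2, by norm_num, (r12 Coverable 2).1 fastAt_two⟩
  rw [Completeness, ← base_set r12 Coverable]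
  have b1 : Leq (setProblem Coverable) FullMonomial := a6.trans a3
  have b2 : Leq FullMonomial (setProblem Coverable) := a2.trans a1
  exact ⟨baseL_eq (b1.trans a2) a1 hne, baseL_eq (b1.trans a5) (a4.trans (a3.trans b2)) hne, baseL_eq b1 b2 hne⟩

end SCM
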