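import Pool.Agent.Lib.SCM.Progs
import Pool.Agent.Lib.SCM.Defs2

/-!
# Graph Motif: rows
-/

namespace SCM

open SCR SCN

/-! ### R6: Set Cover with parameter `n + k` → Graph Motif.
Vertices: the root 0; `1 + i (m + 1) + S` (choice number `i < k` is the set number `S < m`, or nothing if `S = m`);
the leaves `1 + k (m + 1) + S n + x` (element `x` of the set number `S`). Colours: `n + k` for the root, `n + i`, `x`. -/

open Classical in
noncomputable def edges6 {n : ℕ} (k : ℕ) (L : List (Finset (Fin n))) : List (ℕ × ℕ) :=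
  (List.range k).flatMap fun i =>
    ((List.range L.length).flatMap fun S => (0, 1 + i * (L.length + 1) + S) ::
      ((List.range n).flatMap fun x => if inn (nth L S) x then
        [(1 + i * (L.length + 1) + S, 1 + k * (L.length + 1) + S * n + x)] else [])) ++
    [(0, 1 + i * (L.length + 1) + L.length)]

/-- the colours -/
def col6 (n m k v : ℕ) : ℕ :=
  if v = 0 then n + k else if v - 1 < k * (m + 1) then n + (v - 1) / (m + 1) else (v - 1 - k * (m + 1)) % n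

def Ok6 : Prop := ∀ (n k : ℕ) (L : List (Finset (Fin n))),
  (∀ v < 1 + k * (L.length + 1) + L.length * n, col6 n L.length k v < n + k + 1) ∧
  ∀ e ∈ edges6 k L, e.1 < 1 + k * (L.length + 1) + L.length * n ∧ e.2 < 1 + k * (L.length + 1) + L.length * n

noncomputable def f6 (h : Ok6) (I : SetCoverNK.Inst) : GraphMotif.Inst where
  n := SetInst.n I + SetInst.k I + 1
  N := 1 + SetInst.k I * ((SetInst.L I).length + 1) + (SetInst.L I).length * SetInst.n I
  col := col6 (SetInst.n I) (SetInst.L I).length (SetInst.k I)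
  E := edges6 (SetInst.k I) (SetInst.L I)
  pos := Nat.succ_le_succ (Nat.zero_le _)
  col_lt := (h _ _ _).1
  lt := (h _ _ _).2

/-- M6 -/
def M6 : Prop := ∀ (h : Ok6) (I : SetCoverNK.Inst), GraphMotif.yes (f6 h I) ↔ SetCoverNK.yes I

/-- 1 `n + k`, 2 `m`, 3 `n`, 5 number of vertices, 6 `k`, 7 first leaf, 8 vertex `(i, S)`, 9 leaf `(S, x)` -/
def g6 : Stmt := blk [
  set 3 (.ld (.c 0)), set 2 (.ld (.c 1)), set 6 (.ld (.c 2)), set 1 (.add (.r 3) (.r 6)),
  set 15 (.add (.c 3) (.r 2)), set 17 (.add (.r 15) (.c 3)), set 18 (.c 0),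
  recd [.r 1],
  forr 20 21 (.r 6) (forr 22 23 (.add (.r 2) (.c 1)) (recd [.add (.r 3) (.r 20)])),
  set 7 (.r 18),
  forr 20 21 (.r 2) (forr 22 23 (.r 3) (recd [.r 22])),
  set 5 (.r 18), set 18 (.c 0), set 8 (.c 1),
  forr 20 21 (.r 6) (blk [
    set 9 (.r 7),
    forr 22 23 (.r 2) (blk [
      recd [.c 0, .r 8],
      set 10 (.ld (.add (.c 3) (.r 22))), set 11 (.c 1),
      forr 24 25 (.r 3) (blk [
        cond (.and (.r 10) (.r 11)) (recd [.r 8, .r 9]) .skip,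
        set 9 (.add (.r 9) (.c 1)), set 11 (.add (.r 11) (.r 11))]),
      set 8 (.add (.r 8) (.c 1))]),
    recd [.c 0, .r 8], set 8 (.add (.r 8) (.c 1))]),
  sto (.r 15) (.add (.r 1) (.c 1)), sto (.add (.r 15) (.c 1)) (.r 5), sto (.add (.r 15) (.c 2)) (.r 18)]

/-- P6 -/
def P6 : Prop := ∀ h : Ok6, M6 → ∃ c, Red SetCoverNK GraphMotif g6 c (f6 h)

/-! ### R7: Graph Motif → Full Monomial.
Gate `lv n N i v`: colours of the connected sets of `i + 1` vertices which contain `v`. -/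

def rules7i (n N : ℕ) (E : List (ℕ × ℕ)) (i : ℕ) : List (ℕ × ℕ × ℕ) :=
  (List.range (i + 1)).flatMap fun a => E.flatMap fun e => [(lv n N (i + 1) e.1, lv n N a e.1, lv n N (i - a) e.2),
    (lv n N (i + 1) e.2, lv n N a e.2, lv n N (i - a) e.1)]

def rules7 (n N : ℕ) (col : ℕ → ℕ) (E : List (ℕ × ℕ)) : List (ℕ × ℕ × ℕ) :=
  (List.range N).map (fun v => (lv n N 0 v, col v, n)) ++
  ((List.range (n - 1)).flatMap (rules7i n N E) ++
  (List.range N).map (fun v => (lv n N n 0, lv n N (n - 1) v, n)))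

def Ok7 : Prop := ∀ (n N : ℕ) (col : ℕ → ℕ) (E : List (ℕ × ℕ)), 1 ≤ n → (∀ v < N, col v < n) →
  (∀ e ∈ E, e.1 < N ∧ e.2 < N) →
  ∀ t ∈ rules7 n N col E, t.1 < lv n N n 0 + 1 ∧ t.2.1 < t.1 ∧ t.2.2 < t.1

def f7 (h : Ok7) (I : GraphMotif.Inst) : FullMonomial.Inst where
  n := GMInst.n I
  S := lv (GMInst.n I) (GMInst.N I) (GMInst.n I) 0 + 1
  o := lv (GMInst.n I) (GMInst.N I) (GMInst.n I) 0
  R := rules7 (GMInst.n I) (GMInst.N I) (GMInst.col I) (GMInst.E I)
  hn := by unfold lv; omega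
  ho := Nat.lt_succ_self _
  hR := h _ _ _ _ (GMInst.pos I) (GMInst.col_lt I) (GMInst.lt I)

/-- M7 -/
def M7 : Prop := ∀ (h : Ok7) (I : GraphMotif.Inst), FullMonomial.yes (f7 h I) ↔ GraphMotif.yes I

/-- 3 `N`, 5 `|E|`, 8 level 0, 9 level `i + 1`, 12 level `i`, 10 level `a`, 11 level `i - a` -/
def g7 : Stmt := blk [
  set 1 (.ld (.c 0)), set 3 (.ld (.c 1)), set 5 (.ld (.c 2)), set 2 (.add (.r 3) (.r 5)),
  set 15 (.add (.add (.add (.c 3) (.r 3)) (.r 5)) (.r 5)), set 17 (.add (.r 15) (.c 4)), set 18 (.c 0),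
  set 8 (.add (.r 1) (.c 1)),
  forr 20 21 (.r 3) (blk [set 22 (.ld (.add (.c 3) (.r 20))), recd [.add (.r 8) (.r 20), .r 22, .r 1]]),
  set 9 (.add (.r 8) (.r 3)), set 12 (.r 8),
  forr 20 21 (.sub (.r 1) (.c 1)) (blk [
    set 10 (.r 8), set 11 (.r 12),
    forr 22 23 (.add (.r 20) (.c 1)) (blk [
      set 24 (.add (.c 3) (.r 3)),
      forr 25 26 (.r 5) (blk [
        set 27 (.ld (.r 24)), set 28 (.ld (.add (.r 24) (.c 1))),
        recd [.add (.r 9) (.r 27), .add (.r 10) (.r 27), .add (.r 11) (.r 28)],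
        recd [.add (.r 9) (.r 28), .add (.r 10) (.r 28), .add (.r 11) (.r 27)],
        set 24 (.add (.r 24) (.c 2))]),
      set 10 (.add (.r 10) (.r 3)), set 11 (.sub (.r 11) (.r 3))]),
    set 12 (.r 9), set 9 (.add (.r 9) (.r 3))]),
  forr 20 21 (.r 3) (recd [.r 9, .add (.r 12) (.r 20), .r 1]),
  sto (.r 15) (.r 1), sto (.add (.r 15) (.c 1)) (.add (.r 9) (.c 1)), sto (.add (.r 15) (.c 2)) (.r 18),
  sto (.add (.r 15) (.c 3)) (.r 9)]

/-- P7 -/
def P7 : Prop := ∀ h : Ok7, M7 → ∃ c, Red GraphMotif FullMonomial g7 c (f7 h)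

/-- G5 (as SCN/O1 `fastToMatchingAt`) -/
def G5 : Prop := ∀ β0 β : ℝ, 1 ≤ β0 → β0 < β → FastL β0 SetCoverNK → ∃ K0 : ℕ, ∀ K, K0 ≤ K → FastMatching K β

end SCM
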