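import Pool.Agent.Lib.SCM.F
import Pool.Agent.Lib.SCM.Progs2

/-!
# The completeness theorem with Graph Motif from the rows
-/

set_option autoImplicit false

namespace SCM

open SCR SCN Filter

/-- Set Cover with parameter `n + k` → Set Cover -/
lemma coverNK_cover (g5 : G5) (r12 : T12) : Leq SetCoverNK (setProblem Coverable) := by
  intro β η hβ hη h
  obtain ⟨K0, hK0⟩ := g5 β (β + η / 2) hβ (by linarith) h
  obtain ⟨K1, hK1⟩ := eventually_atTop.1 (tendsto_entropyBase.eventually (gt_mem_nhds (show (1 : ℝ) < 1 + η / 2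
    by linarith)))
  set K := max (max K0 K1) 2 with hK
  have h1 : FastMatching K (β + η / 2) := hK0 K ((le_max_left _ _).trans (le_max_left _ _))
  have h2 : entropyBase K < 1 + η / 2 := hK1 K ((le_max_right _ _).trans (le_max_left _ _))
  have h3 := matchingToFastAt K (β + η / 2) (η / 2) coverMode (le_max_right _ _) (by linarith) (by linarith) h1
  rw [max_eq_left (by linarith), add_assoc, add_halves] at h3
  exact (r12 Coverable (β + η)).1 (h3.congr fun n k L => (modeSpec n k L).1)

/-- Set Cover → Set Cover with parameter `n + k` -/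
lemma cover_coverNK : Leq (setProblem Coverable) SetCoverNK := by
  refine Leq.of fun β hβ h => ?_
  obtain ⟨P, C, hP⟩ := h
  refine ⟨P, C, fun I w mem hW hm he => ?_⟩
  have hb : (0 : ℝ) ≤ β := by linarith
  have hW' : C * (2 ^ SetInst.n I * (SetInst.n I + (SetInst.L I).length + 2)) ^ C ≤ 2 ^ w := by
    refine le_trans ?_ hW
    change C * (2 ^ SetInst.n I * (SetInst.n I + (SetInst.L I).length + 2)) ^ C ≤
      C * (2 ^ (SetInst.n I + SetInst.k I) * (SetInst.n I + SetInst.k I + (SetInst.L I).length + 2)) ^ C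
    have e1 : 2 ^ SetInst.n I ≤ 2 ^ (SetInst.n I + SetInst.k I) := Nat.pow_le_pow_right (by norm_num) (by omega)
    have e2 : SetInst.n I + (SetInst.L I).length + 2 ≤ SetInst.n I + SetInst.k I + (SetInst.L I).length + 2 := by
      omega
    gcongr
  obtain ⟨t, ht, h1⟩ := hP I w mem hW' hm he
  refine ⟨t, ht.trans (Nat.floor_le_floor ?_), h1⟩
  change (C : ℝ) * β ^ SetInst.n I * ((SetInst.n I : ℝ) + (SetInst.L I).length + 2) ^ C ≤
    (C : ℝ) * β ^ (SetInst.n I + SetInst.k I) *
      (((SetInst.n I + SetInst.k I : ℕ) : ℝ) + (SetInst.L I).length + 2) ^ C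
  have e1 : β ^ SetInst.n I ≤ β ^ (SetInst.n I + SetInst.k I) := pow_le_pow_right₀ hβ (by omega)
  have e2 : (SetInst.n I : ℝ) ≤ ((SetInst.n I + SetInst.k I : ℕ) : ℝ) := by
    exact_mod_cast (show SetInst.n I ≤ SetInst.n I + SetInst.k I by omega)
  gcongr

/-- The theorem from its rows. -/
theorem completeness2Of (hPW : PowSet) (h : Completeness) (b1 : Leq (setProblem Coverable) FullMonomial)
    (o6 : Ok6) (o7 : Ok7) (m6 : M6) (m7 : M7) (p6 : P6) (p7 : P7) (g5 : G5) (r12 : T12) : Completeness2 := by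
  have hOC := oneCallOf hPW
  have a6 : Leq GraphMotif SetCoverNK := by
    obtain ⟨c, hc⟩ := p6 o6 m6
    exact Leq.of fun β hβ h => hOC _ _ _ _ _ β hc hβ h
  have a7 : Leq FullMonomial GraphMotif := by
    obtain ⟨c, hc⟩ := p7 o7 m7
    exact Leq.of fun β hβ h => hOC _ _ _ _ _ β hc hβ h
  have c1 := coverNK_cover g5 r12
  have c2 := cover_coverNK
  have hne : {β : ℝ | 1 ≤ β ∧ FastL β (setProblem Coverable)}.Nonempty :=
    ⟨2, by norm_num, (r12 Coverable 2).1 fastAt_two⟩
  refine ⟨h.1, ?_, h.2.1, h.2.2, ?_⟩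
  · rw [← base_set r12 Coverable]
    exact baseL_eq (b1.trans a7) (a6.trans c1) hne
  · rw [← base_set r12 Coverable]
    exact baseL_eq c2 c1 hne

end SCM
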