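import Pool.Agent.Lib.SCM.Progs2
import Pool.Agent.Lib.SCM.Defs4

/-!
# Small sets: rows

An instance of the matching problem (`K` slots, all sets with `n / K` elements) becomes an instance with small sets:
every set is cut into blocks of `A b` elements (`b` bits are enough for the numbers of the sets); block `j` in slot
`i` has a marker, and consecutive blocks of a slot are linked: the link `(i, j)` consists of `b` pairs of elements,
block `j` covers in pair `t` the element `bit t` of the number of its set, block `j + 1` the other one.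
-/

namespace SCM

open SCR SCN

structure UniInst where
  n : ℕ
  K : ℕ
  L : List (Finset (Fin n))
  uni : Uniform K n L

/-- the matching problem with the parameter `n + K` -/
def UniformNK : Problem where
  Inst := UniInst
  par I := I.n + I.K
  size I := I.L.length
  enc I := [I.n, I.L.length, I.K] ++ I.L.map mask
  yes I := Coverable I.n I.K I.L

/-- As `Red`, but the parameter may grow by the factor `1 + 3 / A`. -/
structure RedA (X Y : Problem) (g : Stmt) (c A : ℕ) (f : X.Inst → Y.Inst) : Prop where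
  par : ∀ I, A * Y.par (f I) ≤ (A + 3) * X.par I
  size : ∀ I, Y.size (f I) ≤ (X.par I + X.size I + 2) ^ c
  len : ∀ I, (Y.enc (f I)).length ≤ (X.par I + X.size I + 2) ^ c
  val : ∀ I, ∀ v ∈ Y.enc (f I), v < (2 ^ X.par I * (X.par I + X.size I + 2)) ^ c
  yes : ∀ I, Y.yes (f I) ↔ X.yes I
  gen : ∀ (I : X.Inst) (w : ℕ) (mem : ℕ → ℕ), (2 ^ X.par I * (X.par I + X.size I + 2)) ^ c ≤ 2 ^ w →
    (∀ a, mem a < 2 ^ w) → (∀ i (h : i < (X.enc I).length), mem i = (X.enc I)[i]) →
    HT w g ⟨fun _ => 0, mem⟩ ((X.par I + X.size I + 2) ^ c) (fun t => t.reg 1 = X.par I ∧ t.reg 2 = X.size I ∧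
      t.reg 15 ≤ (X.par I + X.size I + 2) ^ c ∧ Wr t (t.reg 15) (Y.enc (f I)))

/-- L1 -/
def L1 : Prop := ∀ (X Y : Problem) (g : Stmt) (c A : ℕ) (f : X.Inst → Y.Inst) (β : ℝ), 1 ≤ A → RedA X Y g c A f →
  1 ≤ β → FastL β Y → FastL (β ^ (((A : ℝ) + 3) / A)) X

/-- number of bits -/
def bb (m : ℕ) : ℕ := max 1 (Nat.size m)

/-- number of blocks of a set -/
def jj (A n K m : ℕ) : ℕ := (n / K + A * bb m - 1) / (A * bb m)

/-- position of the link `(i, j)` -/
def lk (A n K m i j : ℕ) : ℕ := n + K * jj A n K m + (i * (jj A n K m - 1) + j) * (2 * bb m)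

/-- number of elements of the new instance -/
def nn (A n K m : ℕ) : ℕ := lk A n K m K 0

open Classical in
/-- the number of elements of `S` below `x` -/
noncomputable def rank {n : ℕ} (S : Finset (Fin n)) (x : ℕ) : ℕ := ((Finset.range x).filter (inn S)).card

/-- `x` lies in block `j` of the set `S` with number `s`, in slot `i` -/
def zin {n : ℕ} (A K m : ℕ) (S : Finset (Fin n)) (i j s x : ℕ) : Prop :=
  (inn S x ∧ j * (A * bb m) ≤ rank S x ∧ rank S x < (j + 1) * (A * bb m)) ∨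
  x = n + i * jj A n K m + j ∨
  (j + 1 < jj A n K m ∧ ∃ t < bb m, x = lk A n K m i j + 2 * t + (if s.testBit t then 1 else 0)) ∨
  (0 < j ∧ ∃ t < bb m, x = lk A n K m i (j - 1) + 2 * t + (if s.testBit t then 0 else 1))

open Classical in
noncomputable def zset {n : ℕ} (A K : ℕ) (L : List (Finset (Fin n))) (i j s : ℕ) :
    Finset (Fin (nn A n K L.length)) :=
  Finset.univ.filter fun x => zin A K L.length (nth L s) i j s (x : ℕ)

/-- the new family -/
noncomputable def fam8 {n : ℕ} (A K : ℕ) (L : List (Finset (Fin n))) : List (Finset (Fin (nn A n K L.length))) :=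
  (List.range K).flatMap fun i => (List.range (jj A n K L.length)).flatMap fun j =>
    (List.range L.length).map fun s => zset A K L i j s

/-- L2 -/
def L2 : Prop := ∀ (A n K : ℕ) (L : List (Finset (Fin n))), 1 ≤ A → Uniform K n L →
  (fam8 A K L).Nodup ∧ (∀ S ∈ fam8 A K L, S.card ≤ (A + 3) * Nat.size (fam8 A K L).length) ∧
  (fam8 A K L).length = K * jj A n K L.length * L.length ∧
  A * nn A n K L.length ≤ (A + 3) * n + A * K

/-- L3 -/
def L3 : Prop := ∀ (A n K : ℕ) (L : List (Finset (Fin n))), 1 ≤ A → Uniform K n L →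
  (Coverable (nn A n K L.length) (K * jj A n K L.length) (fam8 A K L) ↔ Coverable n K L)

noncomputable def f8 (A : ℕ) (hA : 1 ≤ A) (h : L2) (I : UniformNK.Inst) : (LogSetCover (A + 3)).Inst where
  n := nn A (UniInst.n I) (UniInst.K I) (UniInst.L I).length
  k := UniInst.K I * jj A (UniInst.n I) (UniInst.K I) (UniInst.L I).length
  L := fam8 A (UniInst.K I) (UniInst.L I)
  nodup := (h A (UniInst.n I) (UniInst.K I) (UniInst.L I) hA (UniInst.uni I)).1
  small := (h A (UniInst.n I) (UniInst.K I) (UniInst.L I) hA (UniInst.uni I)).2.1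

/-- 32 := 32 + the word of the link at the position `e`; 30 power of 2, 36 power of 2 for the bit `t` of the
number 24 of the set; `r` is the bit for which the second element of the pair is taken -/
def link8 (e : E) (r : Bool) : Stmt := blk [
  pow 30 e, set 36 (.c 1),
  forr 29 31 (.r 7) (blk [
    cond (.and (.r 24) (.r 36))
      (if r then set 32 (.add (.r 32) (.add (.r 30) (.r 30))) else set 32 (.add (.r 32) (.r 30)))
      (if r then set 32 (.add (.r 32) (.r 30)) else set 32 (.add (.r 32) (.add (.r 30) (.r 30)))),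
    set 30 (.add (.r 30) (.r 30)), set 30 (.add (.r 30) (.r 30)), set 36 (.add (.r 36) (.r 36))])]

/-- one set: 24 its number `s`, 22 `j`, 12 `J`, 26 the marker, 19 position of the link `(i, j)`, 27 and 28 bounds
for the rank -/
def set8 : Stmt := blk [
  set 32 (.c 0), set 33 (.c 0), set 34 (.c 1), set 35 (.ld (.add (.c 3) (.r 24))),
  forr 29 31 (.r 3) (blk [
    cond (.and (.r 35) (.r 34)) (blk [
      cond (.sub (.r 27) (.r 33)) .skip (cond (.sub (.r 28) (.r 33)) (set 32 (.add (.r 32) (.r 34))) .skip),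
      set 33 (.add (.r 33) (.c 1))]) .skip,
    set 34 (.add (.r 34) (.r 34))]),
  pow 30 (.r 26), set 32 (.add (.r 32) (.r 30)),
  cond (.sub (.r 12) (.add (.r 22) (.c 1))) (link8 (.r 19) true) .skip,
  cond (.r 22) (link8 (.sub (.r 19) (.add (.r 7) (.r 7))) false) .skip,
  recd [.r 32]]

/-- 1 `n + K`, 2 `m`, 3 `n`, 6 `K`, 7 `b`, 8 `2^b`, 9 `A b`, 10 `n / K`, 12 `J`, 14 `K J` -/
def g8 (A : ℕ) : Stmt := blk [
  set 3 (.ld (.c 0)), set 2 (.ld (.c 1)), set 6 (.ld (.c 2)), set 1 (.add (.r 3) (.r 6)),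
  set 15 (.add (.c 3) (.r 2)), set 17 (.add (.r 15) (.c 3)), set 18 (.c 0),
  set 7 (.c 1), set 8 (.c 2),
  forr 20 21 (.r 2) (cond (.sub (.add (.r 2) (.c 1)) (.r 8))
    (blk [set 8 (.add (.r 8) (.r 8)), set 7 (.add (.r 7) (.c 1))]) .skip),
  set 9 (.c 0), forr 20 21 (.c A) (set 9 (.add (.r 9) (.r 7))),
  set 10 (.c 0), set 11 (.c 0),
  forr 20 21 (.r 3) (cond (.sub (.add (.r 3) (.c 1)) (.add (.r 11) (.r 6)))
    (blk [set 10 (.add (.r 10) (.c 1)), set 11 (.add (.r 11) (.r 6))]) .skip),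
  set 12 (.c 0), set 13 (.c 0),
  forr 20 21 (.r 10) (cond (.sub (.r 10) (.r 13))
    (blk [set 12 (.add (.r 12) (.c 1)), set 13 (.add (.r 13) (.r 9))]) .skip),
  set 14 (.c 0), forr 20 21 (.r 6) (set 14 (.add (.r 14) (.r 12))),
  set 19 (.add (.r 3) (.r 14)), set 26 (.r 3),
  forr 20 21 (.r 6) (blk [
    set 27 (.c 0), set 28 (.r 9),
    forr 22 23 (.r 12) (blk [
      forr 24 25 (.r 2) set8,
      set 26 (.add (.r 26) (.c 1)), set 27 (.r 28), set 28 (.add (.r 28) (.r 9)),
      cond (.sub (.r 12) (.add (.r 22) (.c 1))) (set 19 (.add (.r 19) (.add (.r 7) (.r 7)))) .skip])]),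
  sto (.r 15) (.r 19), sto (.add (.r 15) (.c 1)) (.r 18), sto (.add (.r 15) (.c 2)) (.r 14)]

/-- L4a: one set (the machine part of L4) -/
def L4a : Prop := ∀ (w A n K i j s : ℕ) (L : List (Finset (Fin n))) (x : Data), 1 ≤ A → Uniform K n L →
  i < K → j < jj A n K L.length → s < L.length →
  x.reg 3 = n → x.reg 7 = bb L.length → x.reg 12 = jj A n K L.length → x.reg 22 = j → x.reg 24 = s →
  x.reg 26 = n + i * jj A n K L.length + j → x.reg 19 = lk A n K L.length i j →
  x.reg 27 = j * (A * bb L.length) → x.reg 28 = (j + 1) * (A * bb L.length) →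
  x.mem (3 + s) = mask (nth L s) → 3 + s < x.reg 17 → x.reg 17 + 1 < 2 ^ w → x.reg 18 + 1 < 2 ^ w →
  2 ^ (nn A n K L.length + 4) < 2 ^ w → 2 ^ (bb L.length + 1) < 2 ^ w → (j + 1) * (A * bb L.length) < 2 ^ w →
  n + 4 < 2 ^ w →
  HT w set8 x (100 * (nn A n K L.length + bb L.length + 4)) (fun t => App [29, 30, 31, 32, 33, 34, 35, 36, 37, 38, 39] x t
    [[mask (zset A K L i j s)]])

/-- L4 -/
def L4 : Prop := ∀ (A : ℕ) (hA : 1 ≤ A) (h2 : L2), L3 → L4a →
  ∃ c, RedA UniformNK (LogSetCover (A + 3)) (g8 A) c A (f8 A hA h2)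

/-- L5 -/
def L5 : Prop := ∀ β0 β : ℝ, 1 ≤ β0 → β0 < β → FastL β0 UniformNK → ∃ K0 : ℕ, ∀ K, K0 ≤ K → FastMatching K β

/-- The theorem: `c^(1 - 3/A) ≤ c_A ≤ c`. -/
def SmallSets : Prop := ∀ A : ℕ, 4 ≤ A → base Coverable ^ (1 - 3 / (A : ℝ)) ≤ baseL (LogSetCover A) ∧
  baseL (LogSetCover A) ≤ base Coverable

end SCM
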