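import Pool.Agent.Lib.SCM.F2
import Pool.Agent.Lib.SCM.Progs3

/-!
# The theorem on small sets from its rows
-/

set_option autoImplicit false

namespace SCM

open SCR SCN Filter

/-- Matching problem with parameter `n + K` → Set Cover -/
lemma uniform_cover (r5 : L5) (β : ℝ) (hβ : 1 ≤ β) (h : FastL β UniformNK) : base Coverable ≤ β := by
  refine le_of_forall_pos_le_add fun η hη => ?_
  obtain ⟨K0, hK0⟩ := r5 β (β + η / 2) hβ (by linarith) h
  obtain ⟨K1, hK1⟩ := eventually_atTop.1 (tendsto_entropyBase.eventually (gt_mem_nhds (show (1 : ℝ) < 1 + η / 2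
    by linarith)))
  set K := max (max K0 K1) 2 with hK
  have h1 : FastMatching K (β + η / 2) := hK0 K ((le_max_left _ _).trans (le_max_left _ _))
  have h2 : entropyBase K < 1 + η / 2 := hK1 K ((le_max_right _ _).trans (le_max_left _ _))
  have h3 := matchingToFastAt K (β + η / 2) (η / 2) coverMode (le_max_right _ _) (by linarith) (by linarith) h1
  rw [max_eq_left (by linarith), add_assoc, add_halves] at h3
  refine csInf_le ⟨1, fun x hx => hx.1⟩ ⟨by linarith, h3.congr fun n k L => (modeSpec n k L).1⟩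

/-- the set with the same data -/
def toSet {A : ℕ} (I : (LogSetCover A).Inst) : (setProblem Coverable).Inst :=
  ⟨LogInst.n I, LogInst.k I, LogInst.L I, LogInst.nodup I⟩

/-- The restriction of Set Cover. -/
lemma log_of_cover (A : ℕ) (β : ℝ) (h : FastL β (setProblem Coverable)) : FastL β (LogSetCover A) := by
  obtain ⟨P, C, hP⟩ := h
  exact ⟨P, C, fun I w mem hW hm he => hP (toSet I) w mem hW hm he⟩

/-- The theorem from its rows. -/
theorem smallSetsOf (r1 : L1) (r2 : L2) (r3 : L3) (r4a : L4a) (r4 : L4) (r5 : L5) (r12 : T12) : SmallSets := by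
  intro A hA
  obtain ⟨A0, rfl⟩ : ∃ A0, A = A0 + 3 := ⟨A - 3, by omega⟩
  have hA0 : 1 ≤ A0 := by omega
  have hA0r : (0 : ℝ) < A0 := by exact_mod_cast hA0
  have hne : {β : ℝ | 1 ≤ β ∧ FastL β (setProblem Coverable)}.Nonempty :=
    ⟨2, by norm_num, (r12 Coverable 2).1 fastAt_two⟩
  have hb : 0 ≤ base Coverable := by
    refine Real.sInf_nonneg fun x hx => ?_
    have := hx.1
    linarith
  have hex : (1 - 3 / (((A0 + 3 : ℕ) : ℝ))) = ((A0 : ℝ) / (A0 + 3)) := by
    push_cast
    field_simp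
    ring
  constructor
  · rw [hex]
    refine le_csInf ?_ ?_
    · obtain ⟨β, h1, h2⟩ := hne
      exact ⟨β, h1, log_of_cover _ _ h2⟩
    · rintro β ⟨h1, h2⟩
      obtain ⟨c, hc⟩ := r4 A0 hA0 r2 r3 r4a
      have h3 := r1 _ _ _ c A0 _ β hA0 hc h1 h2
      have h4 : (1 : ℝ) ≤ β ^ (((A0 : ℝ) + 3) / A0) := Real.one_le_rpow h1 (by positivity)
      have h5 := uniform_cover r5 _ h4 h3
      calc base Coverable ^ ((A0 : ℝ) / (A0 + 3)) ≤ (β ^ (((A0 : ℝ) + 3) / A0)) ^ ((A0 : ℝ) / (A0 + 3)) :=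
            Real.rpow_le_rpow hb h5 (by positivity)
        _ = β := by
            rw [← Real.rpow_mul (by linarith)]
            rw [div_mul_div_comm, mul_comm ((A0 : ℝ) + 3) A0, div_self (by positivity), Real.rpow_one]
  · rw [← base_set r12 Coverable]
    exact csInf_le_csInf ⟨1, fun x hx => hx.1⟩ hne fun β hβ => ⟨hβ.1, log_of_cover _ _ hβ.2⟩

end SCM
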