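import Pool.Agent.Lib.SCM.Progs
import Pool.Agent.Lib.SCN.MB

/-!
# Set cover: rows T2', T12
-/

set_option autoImplicit false

namespace SCM

open SCR SCN

theorem t2x : T2' := by
  intro K I
  classical
  have h := (elistFacts (I.n + K) (sz I.n K + K) (I.n + K) le_rfl).1
  have h1 : (sm K I).length = (sm K I).toFinset.card := (List.toFinset_card_of_nodup h).symm
  rw [h1]
  refine (Finset.card_le_univ _).trans ?_
  rw [Fintype.card_finset, Fintype.card_fin]

theorem holds_iff (w : ℕ) (I : SetInst) (mem : ℕ → ℕ) :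
    Holds w I.n I.k I.L mem ↔ (∀ a, mem a < 2 ^ w) ∧
      ∀ i (h : i < ([I.n, I.L.length, I.k] ++ I.L.map mask).length),
        mem i = ([I.n, I.L.length, I.k] ++ I.L.map mask)[i] := by
  constructor
  · intro h
    refine ⟨h.word, fun i hi => ?_⟩
    match i, hi with
    | 0, _ => exact h.zero
    | 1, _ => exact h.one
    | 2, _ => exact h.two
    | i + 3, hi =>
      have hi' : i < I.L.length := by simpa using hi
      have e1 : mem (i + 3) = mask I.L[i] := by rw [add_comm]; exact h.set i hi'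
      rw [e1]
      simp
  · rintro ⟨h1, h2⟩
    refine ⟨h1, h2 0 (by simp), h2 1 (by simp), h2 2 (by simp), fun i hi => ?_⟩
    have h3 := h2 (i + 3) (by simpa using hi)
    rw [add_comm 3 i, h3]
    simp

theorem t12 : T12 := by
  intro Y β
  constructor
  · rintro ⟨P, C, h⟩
    refine ⟨P, C, fun I w mem h1 h2 h3 => ?_⟩
    exact h I.n I.k I.L I.nodup w mem h1 ((holds_iff w I mem).2 ⟨h2, h3⟩)
  · rintro ⟨P, C, h⟩
    refine ⟨P, C, fun n k L hL w mem h1 h2 => ?_⟩
    obtain ⟨h3, h4⟩ := (holds_iff w ⟨n, k, L, hL⟩ mem).1 h2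
    exact h ⟨n, k, L, hL⟩ w mem h1 h3 h4

end SCM
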