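import Pool.Agent.Lib.SCM.Lang
import Pool.Agent.Lib.SCM.Defs

/-!
# Writing lists of records

Register 17 is the pointer, register 18 counts the records.
-/

set_option autoImplicit false

namespace SCM

open SCR SCN

/-- No memory access, the registers 17 and 18 are not read. -/
def E.pure : E → Bool
  | .r i => decide (i ≠ 17) && decide (i ≠ 18)
  | .c _ => true
  | .add a b => a.pure && b.pure
  | .sub a b => a.pure && b.pure
  | .and a b => a.pure && b.pure
  | .or a b => a.pure && b.pure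
  | .ld _ => false

lemma E.congr {w : ℕ} {s t : Data} (h : ∀ r, r ≠ 17 → r ≠ 18 → t.reg r = s.reg r) (e : E) (he : e.pure = true) :
    e.val t = e.val s ∧ (e.ok w s → e.ok w t) := by
  induction e with
  | r i =>
    simp only [E.pure, Bool.and_eq_true, decide_eq_true_eq] at he
    exact ⟨h i he.1 he.2, fun _ => trivial⟩
  | c v => exact ⟨rfl, fun h => h⟩
  | add a b iha ihb =>
    simp only [E.pure, Bool.and_eq_true] at he
    have h1 := iha he.1
    have h2 := ihb he.2
    refine ⟨by simp only [E.val, h1.1, h2.1], fun h3 => ⟨h1.2 h3.1, h2.2 h3.2.1, ?_⟩⟩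
    rw [h1.1, h2.1]
    exact h3.2.2
  | sub a b iha ihb =>
    simp only [E.pure, Bool.and_eq_true] at he
    have h1 := iha he.1
    have h2 := ihb he.2
    exact ⟨by simp only [E.val, h1.1, h2.1], fun h3 => ⟨h1.2 h3.1, h2.2 h3.2⟩⟩
  | and a b iha ihb =>
    simp only [E.pure, Bool.and_eq_true] at he
    have h1 := iha he.1
    have h2 := ihb he.2
    exact ⟨by simp only [E.val, h1.1, h2.1], fun h3 => ⟨h1.2 h3.1, h2.2 h3.2⟩⟩
  | or a b iha ihb =>
    simp only [E.pure, Bool.and_eq_true] at he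
    have h1 := iha he.1
    have h2 := ihb he.2
    exact ⟨by simp only [E.val, h1.1, h2.1], fun h3 => ⟨h1.2 h3.1, h2.2 h3.2⟩⟩
  | ld a _ => simp [E.pure] at he

/-- Write the values of the expressions at the pointer. -/
def emit : List E → Stmt
  | [] => .skip
  | e :: l => Stmt.seq (sto (.r 17) e) (Stmt.seq (set 17 (.add (.r 17) (.c 1))) (emit l))

/-- Append a record. -/
def recd (l : List E) : Stmt := Stmt.seq (emit l) (set 18 (.add (.r 18) (.c 1)))

/-- `t` is `s` after the records `L` have been appended; only the registers in `F` have changed. -/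
structure App (F : List ℕ) (s t : Data) (L : List (List ℕ)) : Prop where
  ptr : t.reg 17 = s.reg 17 + L.flatten.length
  cnt : t.reg 18 = s.reg 18 + L.length
  new : ∀ i < L.flatten.length, t.mem (s.reg 17 + i) = L.flatten.getD i 0
  old : ∀ a, a < s.reg 17 → t.mem a = s.mem a
  reg : ∀ r, r ∉ F → r ≠ 17 → r ≠ 18 → t.reg r = s.reg r

lemma App.refl (F : List ℕ) (s : Data) : App F s s [] :=
  ⟨rfl, rfl, fun i hi => absurd hi (Nat.not_lt_zero _), fun _ _ => rfl, fun _ _ _ _ => rfl⟩

lemma App.trans {F : List ℕ} {s t u : Data} {L L' : List (List ℕ)} (h : App F s t L) (h' : App F t u L') :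
    App F s u (L ++ L') := by
  refine ⟨?_, ?_, fun i hi => ?_, fun a ha => ?_, fun r h1 h2 h3 => ?_⟩
  · rw [h'.ptr, h.ptr, List.flatten_append, List.length_append]
    ring
  · rw [h'.cnt, h.cnt, List.length_append]
    ring
  · rw [List.flatten_append, List.length_append] at hi
    rw [List.flatten_append]
    rcases Nat.lt_or_ge i L.flatten.length with h1 | h1
    · rw [List.getD_append _ _ _ _ h1, h'.old _ (by rw [h.ptr]; omega)]
      exact h.new i h1
    · rw [List.getD_append_right _ _ _ _ h1]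
      have h2 := h'.new (i - L.flatten.length) (by omega)
      rw [h.ptr] at h2
      rw [← h2]
      congr 1
      omega
  · rw [h'.old a (by rw [h.ptr]; omega), h.old a ha]
  · rw [h'.reg r h1 h2 h3, h.reg r h1 h2 h3]

lemma App.wk {F F' : List ℕ} {s t : Data} {L : List (List ℕ)} (h : App F s t L) (hF : ∀ r ∈ F, r ∈ F') :
    App F' s t L :=
  ⟨h.ptr, h.cnt, h.new, h.old, fun r h1 => h.reg r fun h2 => h1 (hF r h2)⟩

lemma App.upd {F : List ℕ} {s t : Data} {L : List (List ℕ)} {i : ℕ} (v : ℕ) (h : App F s t L) (hi : i ∈ F)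
    (h17 : i ≠ 17) (h18 : i ≠ 18) : App F s (SCM.upd t i v) L := by
  refine ⟨?_, ?_, h.new, h.old, fun r h1 h2 h3 => ?_⟩
  · rw [upd_ne _ _ h17.symm]
    exact h.ptr
  · rw [upd_ne _ _ h18.symm]
    exact h.cnt
  · have h4 : r ≠ i := by
      rintro rfl
      exact h1 hi
    rw [upd_ne _ _ h4]
    exact h.reg r h1 h2 h3

lemma App.upd0 {F : List ℕ} {s t : Data} {L : List (List ℕ)} {i v : ℕ} (h : App F (SCM.upd s i v) t L)
    (hi : i ∈ F) (h17 : i ≠ 17) (h18 : i ≠ 18) : App F s t L := by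
  have e17 : (SCM.upd s i v).reg 17 = s.reg 17 := upd_ne _ _ h17.symm
  have e18 : (SCM.upd s i v).reg 18 = s.reg 18 := upd_ne _ _ h18.symm
  refine ⟨by rw [← e17]; exact h.ptr, by rw [← e18]; exact h.cnt, by rw [← e17]; exact h.new, ?_,
    fun r h1 h2 h3 => ?_⟩
  · rw [← e17]
    exact h.old
  · have h4 : r ≠ i := by
      rintro rfl
      exact h1 hi
    rw [h.reg r h1 h2 h3, upd_ne _ _ h4]

lemma App.succ {F : List ℕ} {s t u : Data} {f : ℕ → List (List ℕ)} {j : ℕ}
    (h : App F s t ((List.range j).flatMap f)) (h' : App F t u (f j)) :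
    App F s u ((List.range (j + 1)).flatMap f) := by
  rw [List.range_succ, List.flatMap_append]
  simpa using h.trans h'

/-- the time of `recd` -/
def E.cost (l : List E) : ℕ := (l.map fun e => e.size + 6).sum + 4

lemma HT.emit {w : ℕ} : ∀ (l : List E) {s : Data} {Q : Data → Prop} {T : ℕ},
    (∀ e ∈ l, e.pure = true ∧ e.wf = true ∧ e.depth ≤ 8 ∧ e.ok w s) → s.reg 17 + l.length < 2 ^ w →
    (∀ t, t.reg 17 = s.reg 17 + l.length → (∀ i < l.length, t.mem (s.reg 17 + i) = (l.map (E.val s)).getD i 0) →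
      (∀ a, a < s.reg 17 → t.mem a = s.mem a) → (∀ r, r ≠ 17 → t.reg r = s.reg r) → Q t) →
    (l.map fun e => e.size + 6).sum ≤ T → HT w (emit l) s T Q
  | [], s, Q, T, _, _, hQ, _ => HT.skip (hQ s rfl (fun i hi => absurd hi (Nat.not_lt_zero _)) (fun _ _ => rfl)
      fun _ _ => rfl)
  | e :: l, s, Q, T, hl, hw, hQ, hT => by
    simp only [List.length_cons] at hw
    simp only [List.map_cons, List.sum_cons] at hT
    obtain ⟨he1, he2, he3, he4⟩ := hl e List.mem_cons_self
    refine HT.seq (R := fun s' => s' = updm s (s.reg 17) (e.val s)) (T1 := e.size + 2)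
      (T2 := (l.map fun e => e.size + 6).sum + 4)
      (HT.sto rfl (by decide) trivial he2 he3 he4 rfl (by simp only [E.size]; omega)) ?_ (by omega)
    rintro _ rfl
    refine HT.seq (R := fun s' => s' = SCM.upd (updm s (s.reg 17) (e.val s)) 17 (s.reg 17 + 1)) (T1 := 4)
      (T2 := (l.map fun e => e.size + 6).sum)
      (HT.set (by omega) rfl (by decide) ?_ rfl (show 4 ≤ 4 by norm_num)) ?_ (by omega)
    · refine ⟨trivial, ?_, ?_⟩
      · simp only [E.ok]
        omega
      · simp only [E.val, updm_reg]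
        omega
    rintro _ rfl
    have hr : ∀ r, r ≠ 17 → r ≠ 18 →
        (SCM.upd (updm s (s.reg 17) (e.val s)) 17 (s.reg 17 + 1)).reg r = s.reg r := fun r h1 _ => by
      rw [upd_ne _ _ h1]
      rfl
    have h17 : (SCM.upd (updm s (s.reg 17) (e.val s)) 17 (s.reg 17 + 1)).reg 17 = s.reg 17 + 1 := upd_self _ _ _
    refine HT.emit l (fun a ha => ?_) (by rw [h17]; omega) (fun t t1 t2 t3 t4 => ?_) le_rfl
    · obtain ⟨b1, b2, b3, b4⟩ := hl a (List.mem_cons_of_mem _ ha)
      exact ⟨b1, b2, b3, (E.congr hr a b1).2 b4⟩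
    · rw [h17] at t1 t2 t3
      refine hQ t (by rw [t1, List.length_cons]; ring) (fun i hi => ?_) (fun a ha => ?_) (fun r h1 => ?_)
      · rcases i with _ | i
        · rw [Nat.add_zero, t3 _ (Nat.lt_succ_self _)]
          change (updm s (s.reg 17) (e.val s)).mem (s.reg 17) = _
          rw [updm_self]
          rfl
        · have h1 := t2 i (by simpa using hi)
          rw [show s.reg 17 + (i + 1) = s.reg 17 + 1 + i by ring, h1]
          simp only [List.map_cons, List.getD_cons_succ]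
          congr 1
          refine List.map_congr_left fun a ha => ?_
          exact (E.congr (w := w) hr a (hl a (List.mem_cons_of_mem _ ha)).1).1
      · rw [t3 a (by omega)]
        change (updm s (s.reg 17) (e.val s)).mem a = _
        rw [updm_ne _ _ (by omega)]
      · rw [t4 r h1, upd_ne _ _ h1]
        rfl

/-- the rule for one record -/
lemma HT.recd {w : ℕ} {l : List E} {s : Data} {Q : Data → Prop} {T : ℕ}
    (hl : ∀ e ∈ l, e.pure = true ∧ e.wf = true ∧ e.depth ≤ 8 ∧ e.ok w s) (hw : s.reg 17 + l.length < 2 ^ w)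
    (hw' : s.reg 18 + 1 < 2 ^ w) (hQ : ∀ t, App [] s t [l.map (E.val s)] → Q t) (hT : E.cost l ≤ T) :
    HT w (recd l) s T Q := by
  refine HT.seq (R := fun t => t.reg 17 = s.reg 17 + l.length ∧
    (∀ i < l.length, t.mem (s.reg 17 + i) = (l.map (E.val s)).getD i 0) ∧
      (∀ a, a < s.reg 17 → t.mem a = s.mem a) ∧ (∀ r, r ≠ 17 → t.reg r = s.reg r)) (T2 := 4)
    (HT.emit l hl hw (fun t h1 h2 h3 h4 => ⟨h1, h2, h3, h4⟩) le_rfl) ?_ hT
  rintro t ⟨t1, t2, t3, t4⟩
  have h18 := t4 18 (by decide)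
  refine HT.set (by omega) rfl (by decide) ?_ ?_ (show 4 ≤ 4 by norm_num)
  · refine ⟨trivial, ?_, ?_⟩
    · simp only [E.ok]
      omega
    · simp only [E.val]
      omega
  · refine hQ _ ⟨?_, ?_, fun i hi => ?_, t3, fun r _ h2 h3 => ?_⟩
    · rw [upd_ne _ _ (by decide), t1]
      simp
    · rw [upd_self]
      simp only [E.val, h18]
      rfl
    · simp only [List.flatten_cons, List.flatten_nil, List.append_nil, List.length_map] at hi ⊢
      exact t2 i hi
    · rw [upd_ne _ _ h3]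
      exact t4 r h2

/-- The rule for a loop which appends `f j` in pass `j`. -/
lemma HT.forApp {w i b : ℕ} {e : E} {p : Stmt} {s : Data} {T : ℕ} {Q : Data → Prop} (N B : ℕ) (F : List ℕ)
    (f : ℕ → List (List ℕ)) (I : ℕ → Data → Prop) (hi : i < 40) (hb : b < 40) (hib : i ≠ b)
    (hiF : i ∈ F) (hbF : b ∈ F) (hi1 : i ≠ 17) (hi2 : i ≠ 18) (hb1 : b ≠ 17) (hb2 : b ≠ 18)
    (he : e.wf = true) (hd : e.depth ≤ 9) (ho : e.ok w s) (hN : e.val s = N) (hw : N < 2 ^ w)
    (h0 : I 0 (SCM.upd (SCM.upd s b N) i 0))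
    (hp : ∀ j, j < N → ∀ s', App F s s' ((List.range j).flatMap f) → I j s' → s'.reg i = j → s'.reg b = N - j →
      HT w p s' B (fun t => App F s' t (f j) ∧ t.reg i = j ∧ t.reg b = N - j ∧
        I (j + 1) (SCM.upd (SCM.upd t i (j + 1)) b (N - (j + 1)))))
    (hT : N * (B + 10) + e.size + 5 ≤ T)
    (hQ : ∀ s', App F s s' ((List.range N).flatMap f) → I N s' → Q s') :
    HT w (SCM.forr i b e p) s T Q := by
  refine HT.forr N B (fun j t => App F s t ((List.range j).flatMap f) ∧ I j t) hi hb hib he hd ho hN hw ⟨?_, h0⟩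
    ?_ hT fun s' h1 _ _ => hQ s' h1.1 h1.2
  · exact ((App.refl F s).upd N hbF hb1 hb2).upd 0 hiF hi1 hi2
  · rintro j hj s' ⟨h1, h2⟩ h3 h4
    refine (hp j hj s' h1 h2 h3 h4).mono le_rfl ?_
    rintro t ⟨t1, t2, t3, t4⟩
    exact ⟨t2, t3, (((h1.succ t1).upd _ hiF hi1 hi2).upd _ hbF hb1 hb2), t4⟩

/-- The words `l` stand in the memory at address `a`. -/
def Wr (t : Data) (a : ℕ) (l : List ℕ) : Prop := ∀ i < l.length, t.mem (a + i) = l.getD i 0

lemma flatMap_range_getD {α β : Type} (L : List α) (d : α) (g : α → List β) :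
    (List.range L.length).flatMap (fun t => g (L.getD t d)) = L.flatMap g := by
  induction L with
  | nil => rfl
  | cons a L ih =>
    rw [List.length_cons, List.range_succ_eq_map, List.flatMap_cons, List.flatMap_map, List.flatMap_cons]
    simp only [List.getD_cons_zero, List.getD_cons_succ]
    rw [ih]

/-! ### The word length of the subroutine -/

/-- the word length of the subroutine -/
def wl (D n m : ℕ) : ℕ := D * (n + Nat.clog 2 (n + m + 2))

/-- `R_16 := 2^(wl D n m) - 1`, where `R_1 = n`, `R_2 = m`. -/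
def powset (D : ℕ) : Stmt :=
  Stmt.seq (set 16 (.c 1)) <|
  Stmt.seq (forr 20 21 (.r 1) (forr 22 23 (.c D) (set 16 (.add (.r 16) (.r 16))))) <|
  Stmt.seq (set 24 (.c 1)) <|
  Stmt.seq (set 25 (.add (.add (.r 1) (.r 2)) (.c 2))) <|
  Stmt.seq (forr 20 21 (.r 25) (cond (.sub (.r 25) (.r 24))
     (Stmt.seq (set 24 (.add (.r 24) (.r 24))) (forr 22 23 (.c D) (set 16 (.add (.r 16) (.r 16))))) .skip)) <|
  set 16 (.sub (.r 16) (.c 1))

/-- PW -/
def PowSet : Prop := ∀ (w D n m : ℕ) (s : Data), s.reg 1 = n → s.reg 2 = m → 2 * (n + m + 2) < 2 ^ w → D < 2 ^ w →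
  wl D n m < w →
  HT w (powset D) s (40 * (D + 1) * (2 * n + m + 3)) (fun t => t.reg 16 = 2 ^ wl D n m - 1 ∧
    (∀ r, r ∉ [16, 20, 21, 22, 23, 24, 25] → t.reg r = s.reg r) ∧ t.mem = s.mem)

/-! ### Reductions with one call -/

/-- The program `g` turns the input of the instance `I` of `X` into the input of the instance `f I` of `Y`, in
polynomial time. -/
structure Red (X Y : Problem) (g : Stmt) (c : ℕ) (f : X.Inst → Y.Inst) : Prop where
  par : ∀ I, Y.par (f I) ≤ X.par I + c
  size : ∀ I, Y.size (f I) ≤ (X.par I + X.size I + 2) ^ c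
  len : ∀ I, (Y.enc (f I)).length ≤ (X.par I + X.size I + 2) ^ c
  val : ∀ I, ∀ v ∈ Y.enc (f I), v < (2 ^ X.par I * (X.par I + X.size I + 2)) ^ c
  yes : ∀ I, Y.yes (f I) ↔ X.yes I
  gen : ∀ (I : X.Inst) (w : ℕ) (mem : ℕ → ℕ), (2 ^ X.par I * (X.par I + X.size I + 2)) ^ c ≤ 2 ^ w →
    (∀ a, mem a < 2 ^ w) → (∀ i (h : i < (X.enc I).length), mem i = (X.enc I)[i]) →
    HT w g ⟨fun _ => 0, mem⟩ ((X.par I + X.size I + 2) ^ c) (fun t => t.reg 1 = X.par I ∧ t.reg 2 = X.size I ∧
      t.reg 15 ≤ (X.par I + X.size I + 2) ^ c ∧ Wr t (t.reg 15) (Y.enc (f I)))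

/-- the program with one call -/
def oneCall (g : Stmt) (D : ℕ) (P : List Instr) : Stmt :=
  Stmt.seq g <| Stmt.seq (powset D) <| Stmt.seq (call 50 P) <| set 0 (.r 50)

/-- OC -/
def OneCall : Prop := ∀ (X Y : Problem) (g : Stmt) (c : ℕ) (f : X.Inst → Y.Inst) (β : ℝ), Red X Y g c f → 1 ≤ β →
  FastL β Y → FastL β X

end SCM
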