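import Pool.Agent.Lib.SCM.Gen

/-!
# OC: the frame of the reductions with one call
-/

set_option autoImplicit false

namespace SCM

open SCR SCN

namespace OCx

lemma clog_pos {B : ℕ} (hB : 2 ≤ B) : 1 ≤ Nat.clog 2 B := Nat.clog_pos (by norm_num) hB

lemma le_pow_clog (B : ℕ) : B ≤ 2 ^ Nat.clog 2 B := Nat.le_pow_clog (by norm_num) B

lemma pow_clog_le {B : ℕ} (hB : 2 ≤ B) : 2 ^ Nat.clog 2 B ≤ 2 * B := by
  have h1 := Nat.pow_pred_clog_lt_self (b := 2) (by norm_num) (show 1 < B by omega)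
  have h2 := clog_pos hB
  obtain ⟨l, hl⟩ : ∃ l, Nat.clog 2 B = l + 1 := ⟨Nat.clog 2 B - 1, by omega⟩
  rw [hl] at h1 ⊢
  simp only [Nat.pred_eq_sub_one, Nat.add_sub_cancel] at h1
  rw [pow_succ]
  omega

/-- the word length is large enough -/
lemma words (C c n m B l D : ℕ) (hl1 : 1 ≤ l) (hB : B ≤ 2 ^ l) (hn : n + 2 ≤ B) (hD : C * (2 * c + 4) + c ≤ D)
    (n' m' : ℕ) (hn' : n' ≤ n + c) (hm' : m' ≤ B ^ c) :
    C * (2 ^ n' * (n' + m' + 2)) ^ C ≤ 2 ^ (D * (n + l)) := by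
  have h1 : B ^ c ≤ 2 ^ (l * c) := by
    rw [pow_mul]
    exact Nat.pow_le_pow_left hB c
  have h2 : c ≤ 2 ^ c := Nat.lt_two_pow_self.le
  have h3 : n' + m' + 2 ≤ 2 ^ (l * (c + 3)) := by
    have e1 : 2 ^ l ≤ 2 ^ (l * (c + 1)) := Nat.pow_le_pow_right (by norm_num) (Nat.le_mul_of_pos_right _ (by omega))
    have e2 : 2 ^ c ≤ 2 ^ (l * (c + 1)) := Nat.pow_le_pow_right (by norm_num) (by nlinarith)
    have e3 : 2 ^ (l * c) ≤ 2 ^ (l * (c + 1)) := Nat.pow_le_pow_right (by norm_num) (by nlinarith)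
    have e4 : 2 ^ (l * (c + 1)) * 4 ≤ 2 ^ (l * (c + 3)) := by
      rw [show (4 : ℕ) = 2 ^ 2 by norm_num, ← pow_add]
      exact Nat.pow_le_pow_right (by norm_num) (by nlinarith)
    omega
  have h4 : 2 ^ n' ≤ 2 ^ (n + l * c) := Nat.pow_le_pow_right (by norm_num) (by nlinarith)
  have h5 : C ≤ 2 ^ (C * l) := by
    calc C ≤ 2 ^ C := Nat.lt_two_pow_self.le
      _ ≤ 2 ^ (C * l) := Nat.pow_le_pow_right (by norm_num) (by nlinarith)
  calc C * (2 ^ n' * (n' + m' + 2)) ^ C ≤ 2 ^ (C * l) * (2 ^ (n + l * c) * 2 ^ (l * (c + 3))) ^ C :=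
        Nat.mul_le_mul h5 (Nat.pow_le_pow_left (Nat.mul_le_mul h4 h3) C)
    _ = 2 ^ (C * l + (n + l * c + l * (c + 3)) * C) := by
        rw [← pow_add, ← pow_mul, ← pow_add]
    _ ≤ 2 ^ (D * (n + l)) := by
        refine Nat.pow_le_pow_right (by norm_num) ?_
        have e1 : C * l + (n + l * c + l * (c + 3)) * C ≤ (C * (2 * c + 4) + c) * (n + l) := by
          have : C * l + (n + l * c + l * (c + 3)) * C = C * n + C * (2 * c + 4) * l := by ring
          rw [this]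
          have e2 : C * n ≤ C * (2 * c + 4) * n := by
            rw [mul_assoc]
            exact Nat.mul_le_mul_left C (by nlinarith)
          nlinarith [Nat.zero_le (c * (n + l))]
        exact e1.trans (Nat.mul_le_mul_right _ hD)

end OCx

open OCx

open Classical in
theorem oneCallOf (hPW : PowSet) : OneCall := by
  intro X Y g c f β hR hβ ⟨P, C, hP⟩
  have hβ0 : 0 < β := by linarith
  set D : ℕ := C * (2 * c + 4) + c with hD
  set A : ℝ := 1 + 80 * ((D : ℝ) + 1) + 3 * (C * β ^ c * ((c : ℝ) + 2) ^ C) + top P + 2 with hA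
  set C'' : ℕ := ⌈A⌉₊ + (c + 2 * D + 4) + (c + 1 + (c + 1) * C) with hC
  refine ⟨(oneCall g D P).compile 0, C'', fun I => ?_⟩
  set n := X.par I with hn
  set m := X.size I with hm
  set B := n + m + 2 with hB
  have hB2 : 2 ≤ B := by omega
  set l := Nat.clog 2 B with hl
  have hl1 : 1 ≤ l := clog_pos hB2
  have hBl : B ≤ 2 ^ l := le_pow_clog B
  have hlB : 2 ^ l ≤ 2 * B := pow_clog_le hB2
  set G := 2 ^ n * B with hG
  have hBG : B ≤ G := Nat.le_mul_of_pos_left _ (by positivity)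
  have hG2 : 2 ≤ G := hB2.trans hBG
  intro w mem hW hmem henc
  have hC1 : 1 ≤ C'' := by omega
  -- the words
  have hW' : G ^ (c + 2 * D + 4) ≤ 2 ^ w := by
    calc G ^ (c + 2 * D + 4) ≤ G ^ C'' := Nat.pow_le_pow_right (by omega) (by omega)
      _ ≤ C'' * G ^ C'' := Nat.le_mul_of_pos_left _ (by omega)
      _ ≤ 2 ^ w := hW
  have hwl : 2 ^ (D * (n + l)) ≤ G ^ (2 * D) := by
    calc 2 ^ (D * (n + l)) = (2 ^ n) ^ D * (2 ^ l) ^ D := by
          rw [← pow_mul, ← pow_mul, ← pow_add]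
          congr 1
          ring
      _ ≤ (2 ^ n) ^ D * (2 * B) ^ D := Nat.mul_le_mul_left _ (Nat.pow_le_pow_left hlB D)
      _ = 2 ^ D * G ^ D := by
          rw [hG, mul_pow, mul_pow]
          ring
      _ ≤ G ^ D * G ^ D := Nat.mul_le_mul_right _ (Nat.pow_le_pow_left hG2 D)
      _ = G ^ (2 * D) := by rw [← pow_add]; congr 1; ring
  have hG1 : ∀ a b : ℕ, a ≤ b → G ^ a ≤ G ^ b := fun a b h => Nat.pow_le_pow_right (by omega) h
  have hsum : B ^ c + 2 ^ (D * (n + l)) < 2 ^ w := by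
    have e1 : B ^ c ≤ G ^ (c + 2 * D + 1) := (Nat.pow_le_pow_left hBG c).trans (hG1 _ _ (by omega))
    have e2 : 2 ^ (D * (n + l)) ≤ G ^ (c + 2 * D + 1) := hwl.trans (hG1 _ _ (by omega))
    have e3 : G ^ (c + 2 * D + 1) * 8 ≤ G ^ (c + 2 * D + 4) := by
      rw [show c + 2 * D + 4 = c + 2 * D + 1 + 3 by ring, pow_add G (c + 2 * D + 1) 3]
      exact Nat.mul_le_mul_left _ (by
        calc 8 = 2 ^ 3 := by norm_num
          _ ≤ G ^ 3 := Nat.pow_le_pow_left hG2 3)
    have e4 : 0 < G ^ (c + 2 * D + 1) := by positivity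
    omega
  have hwlt : D * (n + l) < w := by
    refine (Nat.pow_lt_pow_iff_right (a := 2) (by norm_num)).1 ?_
    omega
  have hDw : D < 2 ^ w := by
    calc D < 2 ^ D := Nat.lt_two_pow_self
      _ ≤ G ^ D := Nat.pow_le_pow_left hG2 D
      _ ≤ G ^ (c + 2 * D + 4) := hG1 _ _ (by omega)
      _ ≤ 2 ^ w := hW'
  have hB2w : 2 * (n + m + 2) < 2 ^ w := by
    have e1 : 2 * B < G ^ 3 := by
      have : G ^ 3 = G * G * G := by ring
      rw [this]
      nlinarith [Nat.mul_le_mul hG2 hG2]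
    exact e1.trans_le ((hG1 _ _ (by omega)).trans hW')
  -- the subroutine
  have hsub := hP (f I)
  set n' := Y.par (f I) with hn'
  set m' := Y.size (f I) with hm'
  have hn'le : n' ≤ n + c := hR.par I
  have hm'le : m' ≤ B ^ c := hR.size I
  have hval : ∀ v ∈ Y.enc (f I), v < 2 ^ (D * (n + l)) := by
    intro v hv
    refine (hR.val I v hv).trans_le ?_
    calc (2 ^ n * B) ^ c ≤ (2 ^ n * 2 ^ l) ^ c := Nat.pow_le_pow_left (Nat.mul_le_mul_left _ hBl) c
      _ = 2 ^ (c * (n + l)) := by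
          rw [← pow_add, ← pow_mul]
          congr 1
          ring
      _ ≤ 2 ^ (D * (n + l)) := Nat.pow_le_pow_right (by norm_num) (Nat.mul_le_mul_right _ (by omega))
  have hlen : (Y.enc (f I)).length ≤ 2 ^ (D * (n + l)) := by
    refine (hR.len I).trans ?_
    calc B ^ c ≤ (2 ^ l) ^ c := Nat.pow_le_pow_left hBl c
      _ = 2 ^ (c * l) := by rw [← pow_mul]; congr 1; ring
      _ ≤ 2 ^ (D * (n + l)) := Nat.pow_le_pow_right (by norm_num) (Nat.mul_le_mul (by omega) (by omega))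
  set T' := ⌊(C : ℝ) * β ^ n' * ((n' : ℝ) + m' + 2) ^ C⌋₊ with hT'
  have hyes : (if Y.yes (f I) then 1 else 0 : ℕ) = (if X.yes I then 1 else 0 : ℕ) := by
    simp only [hR.yes I]
  -- the run
  have hrun : HT w (oneCall g D P) ⟨fun _ => 0, mem⟩
      (B ^ c + (40 * (D + 1) * (2 * n + m + 3) + ((3 * T' + top P) + 2)))
      (fun y => y.reg 0 = if X.yes I then 1 else 0) := by
    refine HT.seq (hR.gen I w mem ?_ hmem henc) ?_ le_rfl
    · exact (hG1 c _ (by omega)).trans hW'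
    rintro s ⟨s1, s2, s15, sW⟩
    refine HT.seq (hPW w D n m s s1 s2 hB2w hDw hwlt) ?_ le_rfl
    rintro t ⟨t16, treg, tmem⟩
    have t15 : t.reg 15 = s.reg 15 := treg 15 (by decide)
    refine HT.seq (T1 := 3 * T' + top P) (T2 := 2) (R := fun y => y.reg 50 = if X.yes I then 1 else 0) ?_ ?_ le_rfl
    · refine HT.call (w' := D * (n + l)) (T := T') (out := if X.yes I then 1 else 0) le_rfl hwlt.le ?_ t16 ?_
        (fun y h _ _ => h) le_rfl
      · rw [t15]
        have : s.reg 15 ≤ B ^ c := s15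
        omega
      · rw [← hyes]
        refine hsub _ _ (words C c n m B l D hl1 hBl (by omega) hD.ge n' m' hn'le hm'le) (fun a => ?_)
          fun i hi => ?_
        · unfold regionMem
          split_ifs
          · exact Nat.mod_lt _ (by positivity)
          · positivity
        · unfold regionMem
          rw [if_pos (lt_of_lt_of_le hi hlen), t15, tmem, sW i hi,
            List.getD_eq_getElem (hn := hi)]
          exact Nat.mod_eq_of_lt (hval _ (List.getElem_mem hi))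
    · intro y hy
      refine HT.set (by omega) rfl (by decide) trivial ?_ (show 1 + 1 ≤ 2 by norm_num)
      rw [upd_self]
      exact hy
  have hout := hrun.outputs
  obtain ⟨k, hk, h1, h2⟩ := hout
  refine ⟨k, hk.trans (Nat.le_floor ?_), h1, ?_⟩
  · -- the time
    have hb : (2 : ℝ) ≤ (n : ℝ) + m + 2 := by
      have := Nat.cast_nonneg (α := ℝ) n
      have := Nat.cast_nonneg (α := ℝ) m
      linarith
    have hcast : (((B ^ c + (40 * (D + 1) * (2 * n + m + 3) + ((3 * T' + top P) + 2)) : ℕ)) : ℝ) =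
        ((n : ℝ) + m + 2) ^ c + (40 * ((D : ℝ) + 1) * (2 * n + m + 3) + ((3 * (T' : ℝ) + top P) + 2)) := by
      rw [hB]
      push_cast
      ring
    rw [hcast]
    set b : ℝ := (n : ℝ) + m + 2 with hbdef
    have hb1 : (1 : ℝ) ≤ b := by linarith
    have hcn : (0 : ℝ) ≤ c := Nat.cast_nonneg c
    have hT1 : (T' : ℝ) ≤ (C : ℝ) * β ^ n' * ((n' : ℝ) + m' + 2) ^ C := Nat.floor_le (by positivity)
    have hT2 : (n' : ℝ) + m' + 2 ≤ ((c : ℝ) + 2) * b ^ (c + 1) := by
      have e1 : (n' : ℝ) ≤ n + c := by exact_mod_cast hn'le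
      have e2 : (m' : ℝ) ≤ b ^ c := by
        have : ((B ^ c : ℕ) : ℝ) = b ^ c := by
          rw [hbdef, hB]
          push_cast
          ring
        rw [← this]
        exact_mod_cast hm'le
      have e3 : b ^ c ≤ b ^ (c + 1) := pow_le_pow_right₀ hb1 (Nat.le_succ _)
      have e4 : b ≤ b ^ (c + 1) := le_self_pow₀ hb1 (Nat.succ_ne_zero _)
      have e5 : (n : ℝ) + 2 ≤ b := by
        have := Nat.cast_nonneg (α := ℝ) m
        linarith
      have e6 : (c : ℝ) ≤ c * b ^ (c + 1) := le_mul_of_one_le_right hcn (one_le_pow₀ hb1)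
      nlinarith
    have hT3 : β ^ n' ≤ β ^ c * β ^ n := by
      rw [← pow_add]
      exact pow_le_pow_right₀ hβ (by omega)
    have hT4 : (T' : ℝ) ≤ (C * β ^ c * ((c : ℝ) + 2) ^ C) * (β ^ n * b ^ ((c + 1) * C)) := by
      calc (T' : ℝ) ≤ (C : ℝ) * β ^ n' * ((n' : ℝ) + m' + 2) ^ C := hT1
        _ ≤ (C : ℝ) * (β ^ c * β ^ n) * (((c : ℝ) + 2) * b ^ (c + 1)) ^ C := by
            refine mul_le_mul (mul_le_mul_of_nonneg_left hT3 (Nat.cast_nonneg C))
              (pow_le_pow_left₀ (by positivity) hT2 C) (by positivity) (by positivity)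
        _ = (C * β ^ c * ((c : ℝ) + 2) ^ C) * (β ^ n * b ^ ((c + 1) * C)) := by
            rw [mul_pow, ← pow_mul]
            ring
    have hβn : (1 : ℝ) ≤ β ^ n := one_le_pow₀ hβ
    set Ee := c + 1 + (c + 1) * C with hEe
    set Z : ℝ := β ^ n * b ^ Ee with hZ
    have z0 : b ^ Ee ≤ Z := le_mul_of_one_le_left (by positivity) hβn
    have z1 : b ^ c ≤ Z := (pow_le_pow_right₀ hb1 (by omega)).trans z0
    have z2 : b ≤ Z := (le_self_pow₀ hb1 (by omega)).trans z0
    have z3 : β ^ n * b ^ ((c + 1) * C) ≤ Z :=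
      mul_le_mul_of_nonneg_left (pow_le_pow_right₀ hb1 (by omega)) (by positivity)
    have z4 : (1 : ℝ) ≤ Z := hb1.trans z2
    have z5 : (2 : ℝ) * n + m + 3 ≤ 2 * b := by
      have := Nat.cast_nonneg (α := ℝ) m
      linarith
    have hDn : (0 : ℝ) ≤ D := Nat.cast_nonneg D
    have hK : (0 : ℝ) ≤ C * β ^ c * ((c : ℝ) + 2) ^ C := by positivity
    have htp : (0 : ℝ) ≤ top P := Nat.cast_nonneg _
    have hmain : b ^ c + (40 * ((D : ℝ) + 1) * (2 * n + m + 3) + ((3 * (T' : ℝ) + top P) + 2)) ≤ A * Z := by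
      have y1 : 40 * ((D : ℝ) + 1) * (2 * n + m + 3) ≤ 80 * ((D : ℝ) + 1) * Z := by
        have : 40 * ((D : ℝ) + 1) * (2 * n + m + 3) ≤ 40 * ((D : ℝ) + 1) * (2 * b) :=
          mul_le_mul_of_nonneg_left z5 (by positivity)
        have h' : 40 * ((D : ℝ) + 1) * (2 * b) ≤ 40 * ((D : ℝ) + 1) * (2 * Z) :=
          mul_le_mul_of_nonneg_left (by linarith) (by positivity)
        linarith
      have y2 : (T' : ℝ) ≤ (C * β ^ c * ((c : ℝ) + 2) ^ C) * Z :=
        hT4.trans (mul_le_mul_of_nonneg_left z3 hK)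
      have y3 : (top P : ℝ) + 2 ≤ (top P + 2) * Z := le_mul_of_one_le_right (by positivity) z4
      have y4 : A * Z = Z + 80 * ((D : ℝ) + 1) * Z + 3 * ((C * β ^ c * ((c : ℝ) + 2) ^ C) * Z) + (top P + 2) * Z := by
        rw [hA]
        ring
      rw [y4]
      linarith
    refine hmain.trans ?_
    have hAC : A ≤ (C'' : ℝ) := by
      have e1 : A ≤ (⌈A⌉₊ : ℝ) := Nat.le_ceil A
      have e2 : (⌈A⌉₊ : ℝ) ≤ (C'' : ℝ) := by
        exact_mod_cast (show ⌈A⌉₊ ≤ C'' by omega)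
      exact e1.trans e2
    calc A * Z ≤ (C'' : ℝ) * Z := mul_le_mul_of_nonneg_right hAC (by positivity)
      _ = (C'' : ℝ) * β ^ n * b ^ Ee := by rw [hZ]; ring
      _ ≤ (C'' : ℝ) * β ^ n * b ^ C'' :=
          mul_le_mul_of_nonneg_left (pow_le_pow_right₀ hb1 (by omega)) (by positivity)
  · exact h2

end SCM
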