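import Pool.Agent.Lib.SCM.Gen

/-!
# Row PW: the word length of the subroutine.  (helper21)
-/

set_option autoImplicit false

namespace SCM

open SCR SCN

namespace PWx

/-- doubling `D` times -/
lemma dbl {w D a : ℕ} {s : Data} {Q : Data → Prop} (hD : D < 2 ^ w) (ha : a + D < w)
    (h16 : s.reg 16 = 2 ^ a)
    (hQ : ∀ t : Data, t.reg 16 = 2 ^ (a + D) → (∀ r, r ≠ 16 → r ≠ 22 → r ≠ 23 → t.reg r = s.reg r) →
      t.mem = s.mem → Q t) {T : ℕ} (hT : 14 * D + 6 ≤ T) :
    HT w (forr 22 23 (.c D) (set 16 (.add (.r 16) (.r 16)))) s T Q := by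
  refine HT.forr D 4 (fun j t => t.reg 16 = 2 ^ (a + j) ∧
    (∀ r, r ≠ 16 → r ≠ 22 → r ≠ 23 → t.reg r = s.reg r) ∧ t.mem = s.mem)
    (by decide) (by decide) (by decide) rfl (show 1 ≤ 9 by norm_num) hD rfl hD ?_ ?_ ?_ ?_
  · refine ⟨?_, fun r h1 h2 h3 => ?_, rfl⟩
    · rw [upd_ne _ _ (by decide), upd_ne _ _ (by decide), h16, Nat.add_zero]
    · rw [upd_ne _ _ h2, upd_ne _ _ h3]
  · rintro j hj t ⟨t1, t2, t3⟩ t4 t5
    have h5 : (E.add (.r 16) (.r 16)).val t = 2 ^ (a + (j + 1)) := by
      simp only [E.val, t1]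
      rw [← Nat.add_assoc, Nat.pow_succ]
      ring
    have h6 : 2 ^ (a + (j + 1)) < 2 ^ w := Nat.pow_lt_pow_right (by norm_num) (by omega)
    refine HT.set (by omega) rfl (by decide) ?_ ?_ (show 4 ≤ 4 by norm_num)
    · refine ⟨trivial, trivial, ?_⟩
      rw [← h5] at h6
      exact h6
    · rw [h5]
      refine ⟨?_, ?_, ?_, fun r h1 h2 h3 => ?_, t3⟩
      · rw [upd_ne _ _ (by decide), t4]
      · rw [upd_ne _ _ (by decide), t5]
      · rw [upd_ne _ _ (by decide), upd_ne _ _ (by decide), upd_self]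
      · rw [upd_ne _ _ h3, upd_ne _ _ h2, upd_ne _ _ h1]
        exact t2 r h1 h2 h3
  · simp only [E.size]
    omega
  · rintro t ⟨t1, t2, t3⟩ - -
    exact hQ t t1 t2 t3

end PWx

open PWx in
/-- Row PW. -/
theorem powSet : PowSet := by
  intro w D n m s h1 h2 hw hD hwl
  set N₀ : ℕ := n + m + 2 with hN₀
  set l : ℕ := Nat.clog 2 N₀ with hl
  have hwl' : D * (n + l) < w := hwl
  have hDn : D * n ≤ D * (n + l) := Nat.mul_le_mul_left D (Nat.le_add_right n l)
  have h1w : 1 < 2 ^ w := by omega
  have hl2 : 2 ^ l < 2 * N₀ := by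
    rcases Nat.eq_zero_or_pos l with h | h
    · rw [h]; omega
    · have h3 : 2 ^ (l - 1) < N₀ := by
        refine Nat.pow_lt_of_lt_clog ?_
        omega
      have h4 : 2 ^ l = 2 * 2 ^ (l - 1) := by
        rw [← Nat.pow_succ', Nat.succ_eq_add_one, Nat.sub_add_cancel h]
      omega
  have hpl : N₀ ≤ 2 ^ l := Nat.le_pow_clog (by norm_num) N₀
  have hlN : l ≤ N₀ := by
    rw [hl]
    exact Nat.clog_le_of_le_pow (Nat.lt_two_pow_self).le
  -- first command
  refine HT.seq (R := fun t => t = upd s 16 1) (T1 := 2)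
    (T2 := n * (14 * D + 16) + 6 + (2 + (6 + (N₀ * (14 * D + 25) + 6 + 4))))
    (HT.set (by omega) rfl (by decide) h1w rfl (by decide)) ?_ ?_
  swap
  · have : 40 * (D + 1) * (2 * n + m + 3) = 40 * D * (2 * n + m + 3) + 40 * (2 * n + m + 3) := by ring
    have e2 : N₀ * (14 * D + 25) = 14 * D * (n + m + 2) + 25 * (n + m + 2) := by rw [hN₀]; ring
    have e3 : n * (14 * D + 16) = 14 * D * n + 16 * n := by ring
    have e4 : 40 * D * (2 * n + m + 3) = 14 * D * n + 14 * D * (n + m + 2) +
        (D * (52 * n + 26 * m + 92)) := by ring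
    omega
  rintro _ rfl
  -- first loop
  refine HT.seq (R := fun t => t.reg 16 = 2 ^ (D * n) ∧
    (∀ r, r ∉ [16, 20, 21, 22, 23, 24, 25] → t.reg r = s.reg r) ∧ t.mem = s.mem)
    (T1 := n * (14 * D + 16) + 6) (T2 := 2 + (6 + (N₀ * (14 * D + 25) + 6 + 4))) ?_ ?_ le_rfl
  · refine HT.forr n (14 * D + 6) (fun j t => t.reg 16 = 2 ^ (D * j) ∧
      (∀ r, r ∉ [16, 20, 21, 22, 23, 24, 25] → t.reg r = s.reg r) ∧ t.mem = s.mem)
      (by decide) (by decide) (by decide) rfl (by decide) trivial ?_ (by omega) ?_ ?_ ?_ ?_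
    · simp only [E.val]
      rw [upd_ne _ _ (by decide), h1]
    · refine ⟨?_, fun r hr => ?_, rfl⟩
      · rw [upd_ne _ _ (by decide), upd_ne _ _ (by decide), upd_self, Nat.mul_zero, Nat.pow_zero]
      · simp only [List.mem_cons, List.not_mem_nil, or_false, not_or] at hr
        rw [upd_ne _ _ (by omega), upd_ne _ _ (by omega), upd_ne _ _ (by omega)]
    · rintro j hj t ⟨t1, t2, t3⟩ t4 t5
      have hb : D * j + D ≤ D * n := by
        rw [← Nat.mul_succ]
        exact Nat.mul_le_mul_left D hj
      refine dbl hD (by omega) t1 (fun u u1 u2 u3 => ?_) le_rfl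
      refine ⟨by rw [u2 20 (by decide) (by decide) (by decide), t4],
        by rw [u2 21 (by decide) (by decide) (by decide), t5], ?_, fun r hr => ?_, u3.trans t3⟩
      · rw [upd_ne _ _ (by decide), upd_ne _ _ (by decide), u1, Nat.mul_succ]
      · have hr' := hr
        simp only [List.mem_cons, List.not_mem_nil, or_false, not_or] at hr
        rw [upd_ne _ _ (by omega), upd_ne _ _ (by omega), u2 r (by omega) (by omega) (by omega)]
        exact t2 r hr'
    · have e5 : n * (14 * D + 6 + 10) = n * (14 * D + 16) := by ring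
      simp only [E.size]
      omega
    · rintro t ht - -
      exact ht
  rintro t ⟨t1, t2, t3⟩
  have t1' : t.reg 1 = n := by rw [t2 1 (by decide), h1]
  have t2' : t.reg 2 = m := by rw [t2 2 (by decide), h2]
  refine HT.seq (R := fun u => u = upd t 24 1) (T1 := 2) (T2 := 6 + (N₀ * (14 * D + 25) + 6 + 4))
    (HT.set (by omega) rfl (by decide) h1w rfl (by decide)) ?_ le_rfl
  rintro _ rfl
  refine HT.seq (R := fun u => u = upd (upd t 24 1) 25 N₀) (T1 := 6) (T2 := N₀ * (14 * D + 25) + 6 + 4)
    (HT.set (by omega) rfl (by decide) ?_ ?_ (by decide)) ?_ le_rfl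
  · simp only [E.ok, E.val, true_and]
    rw [upd_ne _ _ (by decide), upd_ne _ _ (by decide), t1', t2']
    omega
  · simp only [E.val]
    rw [upd_ne _ _ (by decide : (1 : ℕ) ≠ 24), upd_ne _ _ (by decide : (2 : ℕ) ≠ 24), t1', t2']
  rintro _ rfl
  -- second loop
  refine HT.seq (R := fun u => u.reg 16 = 2 ^ (D * (n + l)) ∧
    (∀ r, r ∉ [16, 20, 21, 22, 23, 24, 25] → u.reg r = s.reg r) ∧ u.mem = s.mem)
    (T1 := N₀ * (14 * D + 25) + 6) (T2 := 4) ?_ ?_ le_rfl
  · refine HT.forr N₀ (14 * D + 15) (fun j u => u.reg 16 = 2 ^ (D * (n + min j l)) ∧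
      u.reg 24 = 2 ^ min j l ∧ u.reg 25 = N₀ ∧
      (∀ r, r ∉ [16, 20, 21, 22, 23, 24, 25] → u.reg r = s.reg r) ∧ u.mem = s.mem)
      (by decide) (by decide) (by decide) rfl (by decide) trivial ?_ (by omega) ?_ ?_ ?_ ?_
    · simp only [E.val]
      rw [upd_self]
    · refine ⟨?_, ?_, ?_, fun r hr => ?_, t3⟩
      · rw [upd_ne _ _ (by decide), upd_ne _ _ (by decide), upd_ne _ _ (by decide),
          upd_ne _ _ (by decide), t1, Nat.zero_min, Nat.add_zero]
      · rw [upd_ne _ _ (by decide), upd_ne _ _ (by decide), upd_ne _ _ (by decide), upd_self,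
          Nat.zero_min, Nat.pow_zero]
      · rw [upd_ne _ _ (by decide), upd_ne _ _ (by decide), upd_self]
      · have hr' := hr
        simp only [List.mem_cons, List.not_mem_nil, or_false, not_or] at hr
        rw [upd_ne _ _ (by omega), upd_ne _ _ (by omega), upd_ne _ _ (by omega),
          upd_ne _ _ (by omega)]
        exact t2 r hr'
    · rintro j hj u ⟨u1, u2, u3, u4, u5⟩ u6 u7
      have hval : (E.sub (.r 25) (.r 24)).val u = N₀ - 2 ^ min j l := by
        simp only [E.val, u2, u3]
      refine HT.cond (T1 := 14 * D + 10) rfl (by decide) ⟨trivial, trivial⟩ (fun hne => ?_)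
        (fun he => ?_) (by simp only [E.size]; omega)
      · rw [hval] at hne
        have hjl : j < l := by
          by_contra hh
          rw [Nat.min_eq_right (by omega)] at hne
          omega
        rw [Nat.min_eq_left hjl.le] at u1 u2
        have hmin : min (j + 1) l = j + 1 := Nat.min_eq_left hjl
        have h24 : (E.add (.r 24) (.r 24)).val u = 2 ^ (j + 1) := by
          simp only [E.val, u2]
          rw [Nat.pow_succ]
          ring
        have hle : 2 ^ (j + 1) ≤ 2 ^ l := Nat.pow_le_pow_right (by norm_num) hjl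
        refine HT.seq (R := fun v => v = upd u 24 (2 ^ (j + 1))) (T1 := 4) (T2 := 14 * D + 6)
          (HT.set (by omega) rfl (by decide) ?_ (by rw [h24]) (by decide)) ?_ (by omega)
        · refine ⟨trivial, trivial, ?_⟩
          have : (E.r 24).val u + (E.r 24).val u = 2 ^ (j + 1) := h24
          rw [this]
          omega
        rintro _ rfl
        have hb : D * (n + j) + D ≤ D * (n + l) := by
          rw [← Nat.mul_succ]
          exact Nat.mul_le_mul_left D (by omega)
        refine dbl (a := D * (n + j)) hD (by omega) ?_ (fun v v1 v2 v3 => ?_) le_rfl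
        · rw [upd_ne _ _ (by decide), u1]
        · refine ⟨?_, ?_, ?_, ?_, ?_, fun r hr => ?_, ?_⟩
          · rw [v2 20 (by decide) (by decide) (by decide), upd_ne _ _ (by decide), u6]
          · rw [v2 21 (by decide) (by decide) (by decide), upd_ne _ _ (by decide), u7]
          · rw [upd_ne _ _ (by decide), upd_ne _ _ (by decide), v1, hmin, ← Nat.mul_succ]
            rfl
          · rw [upd_ne _ _ (by decide), upd_ne _ _ (by decide),
              v2 24 (by decide) (by decide) (by decide), upd_self, hmin]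
          · rw [upd_ne _ _ (by decide), upd_ne _ _ (by decide),
              v2 25 (by decide) (by decide) (by decide), upd_ne _ _ (by decide), u3]
          · have hr' := hr
            simp only [List.mem_cons, List.not_mem_nil, or_false, not_or] at hr
            rw [upd_ne _ _ (by omega), upd_ne _ _ (by omega), v2 r (by omega) (by omega) (by omega),
              upd_ne _ _ (by omega)]
            exact u4 r hr'
          · exact v3.trans u5
      · rw [hval] at he
        have hjl : l ≤ j := by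
          by_contra hh
          rw [Nat.min_eq_left (by omega)] at he
          have : 2 ^ j < N₀ := Nat.pow_lt_of_lt_clog (by omega)
          omega
        rw [Nat.min_eq_right hjl] at u1 u2
        have hmin : min (j + 1) l = l := Nat.min_eq_right (by omega)
        refine HT.skip ⟨u6, u7, ?_, ?_, ?_, fun r hr => ?_, u5⟩
        · rw [upd_ne _ _ (by decide), upd_ne _ _ (by decide), u1, hmin]
        · rw [upd_ne _ _ (by decide), upd_ne _ _ (by decide), u2, hmin]
        · rw [upd_ne _ _ (by decide), upd_ne _ _ (by decide), u3]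
        · have hr' := hr
          simp only [List.mem_cons, List.not_mem_nil, or_false, not_or] at hr
          rw [upd_ne _ _ (by omega), upd_ne _ _ (by omega)]
          exact u4 r hr'
    · have e5 : N₀ * (14 * D + 15 + 10) = N₀ * (14 * D + 25) := by ring
      simp only [E.size]
      omega
    · rintro u ⟨u1, -, -, u4, u5⟩ - -
      rw [Nat.min_eq_right hlN] at u1
      exact ⟨u1, u4, u5⟩
  rintro u ⟨u1, u2, u3⟩
  refine HT.set (by omega) rfl (by decide) ⟨trivial, h1w⟩ ⟨?_, fun r hr => ?_, u3⟩ (by decide)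
  · rw [upd_self]
    simp only [E.val, u1]
    rfl
  · have hr' := hr
    simp only [List.mem_cons, List.not_mem_nil, or_false, not_or] at hr
    rw [upd_ne _ _ (by omega)]
    exact u2 r hr'

end SCM
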