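import Pool.Agent.Lib.SCM.Progs3

/-!
# Small sets: the new family
-/

set_option autoImplicit false

namespace SCM

open SCR SCN

namespace L2x

theorem uniq {c a r a' r' : ℕ} (h : a * c + r = a' * c + r') (hr : r < c) (hr' : r' < c) :
    a = a' ∧ r = r' := by
  rcases lt_trichotomy a a' with h1 | h1 | h1
  · have h2 : (a + 1) * c ≤ a' * c := Nat.mul_le_mul_right _ h1
    rw [Nat.add_mul, Nat.one_mul] at h2
    omega
  · subst h1
    exact ⟨rfl, by omega⟩
  · have h2 : (a' + 1) * c ≤ a * c := Nat.mul_le_mul_right _ h1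
    rw [Nat.add_mul, Nat.one_mul] at h2
    omega

theorem bb_pos (m : ℕ) : 1 ≤ bb m := le_max_left _ _

theorem lt_two_pow_bb {s m : ℕ} (h : s < m) : s < 2 ^ bb m :=
  h.trans ((Nat.lt_size_self m).trans_le (Nat.pow_le_pow_right (by norm_num) (le_max_right _ _)))

theorem bits {s s' m : ℕ} (h : s < m) (h' : s' < m)
    (hb : ∀ t < bb m, s.testBit t = s'.testBit t) : s = s' := by
  refine Nat.eq_of_testBit_eq fun t => ?_
  by_cases ht : t < bb m
  · exact hb t ht
  · have h1 : 2 ^ bb m ≤ 2 ^ t := Nat.pow_le_pow_right (by norm_num) (by omega)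
    rw [Nat.testBit_lt_two_pow ((lt_two_pow_bb h).trans_le h1),
      Nat.testBit_lt_two_pow ((lt_two_pow_bb h').trans_le h1)]

variable {A n K m : ℕ}

theorem d_pos (hA : 1 ≤ A) (m : ℕ) : 1 ≤ A * bb m := Nat.mul_le_mul hA (bb_pos m)

theorem jj_ge (hA : 1 ≤ A) : n / K ≤ jj A n K m * (A * bb m) := by
  have hD := d_pos hA m
  unfold jj
  generalize A * bb m = D at hD ⊢
  have h1 := Nat.div_add_mod (n / K + D - 1) D
  have h2 := Nat.mod_lt (n / K + D - 1) (show 0 < D by omega)
  rw [Nat.mul_comm] at h1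
  omega

theorem jj_le (hA : 1 ≤ A) (hn : 0 < n / K) :
    1 ≤ jj A n K m ∧ (jj A n K m - 1) * (A * bb m) ≤ n / K := by
  have hD := d_pos hA m
  unfold jj
  generalize A * bb m = D at hD ⊢
  have h1 : D * ((n / K + D - 1) / D) ≤ n / K + D - 1 := Nat.mul_div_le _ _
  have h2 : 1 ≤ (n / K + D - 1) / D := by
    rw [Nat.le_div_iff_mul_le (by omega)]
    omega
  refine ⟨h2, ?_⟩
  generalize (n / K + D - 1) / D = q at h1 h2 ⊢
  rw [Nat.sub_mul, Nat.one_mul, Nat.mul_comm q D]
  omega

theorem mark_lt {i j J : ℕ} (hi : i < K) (hj : j < J) : n + i * J + j < n + K * J := by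
  have h2 : (i + 1) * J ≤ K * J := Nat.mul_le_mul_right _ hi
  rw [Nat.add_mul, Nat.one_mul] at h2
  omega

theorem le_lk (i j : ℕ) : n + K * jj A n K m ≤ lk A n K m i j := by
  unfold lk
  omega

/-- the marker decides the slot and the block -/
theorem inv_mark {S : Finset (Fin n)} {i j i' j' s' : ℕ} (hi : i < K) (hj : j < jj A n K m)
    (hj' : j' < jj A n K m) (h : zin A K m S i' j' s' (n + i * jj A n K m + j)) :
    i' = i ∧ j' = j := by
  have h0 := mark_lt (n := n) hi hj
  rcases h with ⟨⟨h1, -⟩, -⟩ | h1 | ⟨-, t, -, h1⟩ | ⟨-, t, -, h1⟩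
  · omega
  · have h2 : i * jj A n K m + j = i' * jj A n K m + j' := by omega
    obtain ⟨h3, h4⟩ := uniq h2 hj hj'
    exact ⟨h3.symm, h4.symm⟩
  · have h2 := le_lk (A := A) (n := n) (K := K) (m := m) i' j'
    omega
  · have h2 := le_lk (A := A) (n := n) (K := K) (m := m) i' (j' - 1)
    omega

theorem lk_uniq {i j t e i' j' t' e' : ℕ} (hj : j + 1 < jj A n K m) (hj' : j' + 1 < jj A n K m)
    (ht : t < bb m) (ht' : t' < bb m) (he : e ≤ 1) (he' : e' ≤ 1)
    (h : lk A n K m i j + 2 * t + e = lk A n K m i' j' + 2 * t' + e') :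
    i = i' ∧ j = j' ∧ t = t' ∧ e = e' := by
  unfold lk at h
  have h1 : (i * (jj A n K m - 1) + j) * (2 * bb m) + (2 * t + e) =
      (i' * (jj A n K m - 1) + j') * (2 * bb m) + (2 * t' + e') := by omega
  obtain ⟨h2, h3⟩ := uniq h1 (by omega) (by omega)
  obtain ⟨h4, h5⟩ := uniq h2 (by omega) (by omega)
  exact ⟨h4, h5, by omega, by omega⟩

/-- the elements of the link `(i, j)` -/
theorem inv_link {S : Finset (Fin n)} {i j t e i' j' s' : ℕ} (hj : j + 1 < jj A n K m)
    (ht : t < bb m) (he : e ≤ 1) (hi' : i' < K) (hj' : j' < jj A n K m)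
    (h : zin A K m S i' j' s' (lk A n K m i j + 2 * t + e)) :
    (i' = i ∧ j' = j ∧ e = if s'.testBit t then 1 else 0) ∨
    (i' = i ∧ j' = j + 1 ∧ e = if s'.testBit t then 0 else 1) := by
  have h0 := mark_lt (n := n) hi' hj'
  have h00 := le_lk (A := A) (n := n) (K := K) (m := m) i j
  rcases h with ⟨⟨h1, -⟩, -⟩ | h1 | ⟨h2, t', ht', h1⟩ | ⟨h2, t', ht', h1⟩
  · omega
  · omega
  · left
    obtain ⟨h3, h4, h5, h6⟩ := lk_uniq hj h2 ht ht' he (by split_ifs <;> omega) h1
    subst h5
    exact ⟨h3.symm, h4.symm, h6⟩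
  · right
    obtain ⟨h3, h4, h5, h6⟩ := lk_uniq hj (j' := j' - 1) (by omega) ht ht' he
      (by split_ifs <;> omega) h1
    subst h5
    exact ⟨h3.symm, by omega, h6⟩

theorem inv_small {S : Finset (Fin n)} {i' j' s' x : ℕ} (hx : x < n)
    (h : zin A K m S i' j' s' x) :
    inn S x ∧ j' * (A * bb m) ≤ rank S x ∧ rank S x < (j' + 1) * (A * bb m) := by
  rcases h with h1 | h1 | ⟨-, t, -, h1⟩ | ⟨-, t, -, h1⟩
  · exact h1
  · omega
  · have h2 := le_lk (A := A) (n := n) (K := K) (m := m) i' j'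
    omega
  · have h2 := le_lk (A := A) (n := n) (K := K) (m := m) i' (j' - 1)
    omega

theorem mem_z {L : List (Finset (Fin n))} {i j s : ℕ} {x : Fin (nn A n K L.length)} :
    x ∈ zset A K L i j s ↔ zin A K L.length (nth L s) i j s (x : ℕ) := by
  unfold zset
  simp

theorem le_nn : n + K * jj A n K m ≤ nn A n K m := le_lk K 0

theorem lk_lt {i j t e : ℕ} (hi : i < K) (hj : j + 1 < jj A n K m) (ht : t < bb m) (he : e ≤ 1) :
    lk A n K m i j + 2 * t + e < nn A n K m := by
  unfold nn lk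
  have h1 : (i + 1) * (jj A n K m - 1) ≤ K * (jj A n K m - 1) := Nat.mul_le_mul_right _ hi
  have h2 : (i * (jj A n K m - 1) + j + 1) * (2 * bb m) ≤ (K * (jj A n K m - 1) + 0) * (2 * bb m) := by
    refine Nat.mul_le_mul_right _ ?_
    rw [Nat.add_mul, Nat.one_mul] at h1
    omega
  rw [Nat.add_mul (i * (jj A n K m - 1) + j) 1, Nat.one_mul] at h2
  omega

theorem rank_lt {S : Finset (Fin n)} {x : ℕ} (h : inn S x) : rank S x < S.card := by
  classical
  unfold rank
  obtain ⟨hx, hm⟩ := h
  have h1 : (Finset.range x).filter (inn S) ⊂ S.image (fun y : Fin n => (y : ℕ)) := by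
    rw [Finset.ssubset_iff_of_subset]
    · refine ⟨x, Finset.mem_image.2 ⟨⟨x, hx⟩, hm, rfl⟩, ?_⟩
      simp
    · intro y hy
      obtain ⟨h2, h3, h4⟩ := Finset.mem_filter.1 hy
      exact Finset.mem_image.2 ⟨⟨y, h3⟩, h4, rfl⟩
  have h2 := Finset.card_lt_card h1
  have h3 : (S.image (fun y : Fin n => (y : ℕ))).card ≤ S.card := Finset.card_image_le
  refine lt_of_lt_of_le ?_ h3
  convert h2

theorem rank_mono {S : Finset (Fin n)} {x y : ℕ} (h : inn S x) (hxy : x < y) : rank S x < rank S y := by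
  classical
  unfold rank
  refine Finset.card_lt_card ?_
  rw [Finset.ssubset_iff_of_subset]
  · refine ⟨x, Finset.mem_filter.2 ⟨Finset.mem_range.2 hxy, h⟩, ?_⟩
    simp
  · intro z hz
    obtain ⟨h2, h3⟩ := Finset.mem_filter.1 hz
    exact Finset.mem_filter.2 ⟨Finset.mem_range.2 ((Finset.mem_range.1 h2).trans hxy), h3⟩

theorem rank_inj {S : Finset (Fin n)} {x y : ℕ} (hx : inn S x) (hy : inn S y)
    (h : rank S x = rank S y) : x = y := by
  rcases lt_trichotomy x y with h1 | h1 | h1
  · have := rank_mono hx h1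
    omega
  · exact h1
  · have := rank_mono hy h1
    omega

theorem nth_mem {L : List (Finset (Fin n))} {i : ℕ} (hi : i < L.length) : nth L i ∈ L := by
  unfold nth
  rw [List.getD_eq_getElem _ _ hi]
  exact List.getElem_mem hi

theorem nth_inj {L : List (Finset (Fin n))} (hL : L.Nodup) {i j : ℕ} (hi : i < L.length)
    (hj : j < L.length) (h : nth L i = nth L j) : i = j := by
  unfold nth at h
  rw [List.getD_eq_getElem _ _ hi, List.getD_eq_getElem _ _ hj] at h
  exact (List.Nodup.getElem_inj_iff hL).1 h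

theorem mark_mem {L : List (Finset (Fin n))} {i j s : ℕ} (hi : i < K)
    (hj : j < jj A n K L.length) :
    ∃ h : n + i * jj A n K L.length + j < nn A n K L.length,
      (⟨_, h⟩ : Fin (nn A n K L.length)) ∈ zset A K L i j s :=
  ⟨(mark_lt hi hj).trans_le le_nn, mem_z.2 (Or.inr (Or.inl rfl))⟩

/-- equal sets belong to the same slot and block -/
theorem slot_inj {L : List (Finset (Fin n))} {i j s i' j' s' : ℕ} (hi : i < K)
    (hj : j < jj A n K L.length) (hj' : j' < jj A n K L.length)
    (h : zset A K L i j s = zset A K L i' j' s') : i = i' ∧ j = j' := by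
  obtain ⟨h1, h2⟩ := mark_mem (s := s) hi hj
  rw [h] at h2
  obtain ⟨h3, h4⟩ := inv_mark hi hj hj' (mem_z.1 h2)
  exact ⟨h3.symm, h4.symm⟩

theorem set_inj {L : List (Finset (Fin n))} (hA : 1 ≤ A) (hU : Uniform K n L) {i j s s' : ℕ}
    (hi : i < K) (hj : j < jj A n K L.length) (hs : s < L.length) (hs' : s' < L.length)
    (h : zset A K L i j s = zset A K L i j s') : s = s' := by
  by_cases h1 : j + 1 < jj A n K L.length
  · refine bits hs hs' fun t ht => ?_
    have he : (if s.testBit t then 1 else 0) ≤ 1 := by split_ifs <;> omega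
    have h2 : (⟨_, lk_lt hi h1 ht he⟩ : Fin (nn A n K L.length)) ∈ zset A K L i j s :=
      mem_z.2 (Or.inr (Or.inr (Or.inl ⟨h1, t, ht, rfl⟩)))
    rw [h] at h2
    rcases inv_link h1 ht he hi hj (mem_z.1 h2) with ⟨-, -, h3⟩ | ⟨-, h3, -⟩
    · cases h4 : s.testBit t <;> cases h5 : s'.testBit t <;> simp [h4, h5] at h3 ⊢
    · omega
  by_cases h2 : 0 < j
  · refine bits hs hs' fun t ht => ?_
    have he : (if s.testBit t then 0 else 1) ≤ 1 := by split_ifs <;> omega
    have hj1 : j - 1 + 1 < jj A n K L.length := by omega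
    have h3 : (⟨_, lk_lt hi hj1 ht he⟩ : Fin (nn A n K L.length)) ∈ zset A K L i j s :=
      mem_z.2 (Or.inr (Or.inr (Or.inr ⟨h2, t, ht, rfl⟩)))
    rw [h] at h3
    rcases inv_link hj1 ht he hi hj (mem_z.1 h3) with ⟨-, h4, -⟩ | ⟨-, -, h4⟩
    · omega
    · cases h5 : s.testBit t <;> cases h6 : s'.testBit t <;> simp [h5, h6] at h4 ⊢
  -- one block
  have hj0 : j = 0 := by omega
  have hJ : jj A n K L.length = 1 := by omega
  subst hj0
  have hD : n / K ≤ A * bb L.length := by
    have h3 := jj_ge (n := n) (K := K) (m := L.length) hA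
    rw [hJ, Nat.one_mul] at h3
    exact h3
  have hcard : ∀ r < L.length, (nth L r).card = n / K := by
    intro r hr
    have h3 := hU.card _ (nth_mem hr)
    exact (Nat.div_eq_of_eq_mul_right (by omega) h3.symm).symm
  have key : ∀ r < L.length, ∀ x : Fin n, x ∈ nth L r ↔
      ∃ h : (x : ℕ) < nn A n K L.length, (⟨(x : ℕ), h⟩ : Fin (nn A n K L.length)) ∈ zset A K L i 0 r := by
    intro r hr x
    constructor
    · intro hx
      refine ⟨lt_of_lt_of_le x.2 (le_trans (Nat.le_add_right _ _) le_nn), mem_z.2 (Or.inl ?_)⟩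
      have h3 : inn (nth L r) (x : ℕ) := ⟨x.2, hx⟩
      have h4 := rank_lt h3
      rw [hcard r hr] at h4
      refine ⟨h3, by omega, ?_⟩
      rw [Nat.zero_add, Nat.one_mul]
      exact h4.trans_le hD
    · rintro ⟨h3, h4⟩
      obtain ⟨⟨_, h5⟩, -⟩ := inv_small x.2 (mem_z.1 h4)
      exact h5
  refine nth_inj hU.nodup hs hs' ?_
  ext x
  rw [key s hs, key s' hs', h]

theorem mem_fam {L : List (Finset (Fin n))} {S : Finset (Fin (nn A n K L.length))} :
    S ∈ fam8 A K L ↔ ∃ i < K, ∃ j < jj A n K L.length, ∃ s < L.length, S = zset A K L i j s := by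
  unfold fam8
  simp only [List.mem_flatMap, List.mem_range, List.mem_map]
  constructor
  · rintro ⟨i, hi, j, hj, s, hs, rfl⟩
    exact ⟨i, hi, j, hj, s, hs, rfl⟩
  · rintro ⟨i, hi, j, hj, s, hs, rfl⟩
    exact ⟨i, hi, j, hj, s, hs, rfl⟩

theorem len_fam (L : List (Finset (Fin n))) :
    (fam8 A K L).length = K * jj A n K L.length * L.length := by
  unfold fam8
  simp [List.length_flatMap, Nat.mul_assoc]

theorem nodup_fam {L : List (Finset (Fin n))} (hA : 1 ≤ A) (hU : Uniform K n L) :
    (fam8 A K L).Nodup := by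
  unfold fam8
  rw [List.nodup_flatMap]
  refine ⟨fun i hi => ?_, ?_⟩
  · rw [List.mem_range] at hi
    rw [List.nodup_flatMap]
    refine ⟨fun j hj => ?_, ?_⟩
    · rw [List.mem_range] at hj
      refine List.Nodup.map_on (fun s hs s' hs' h => ?_) List.nodup_range
      rw [List.mem_range] at hs hs'
      exact set_inj hA hU hi hj hs hs' h
    · refine List.Pairwise.imp_of_mem ?_ List.nodup_range
      intro j j' hj hj' hne
      rw [List.mem_range] at hj hj'
      rw [Function.onFun, List.disjoint_left]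
      intro S hS hS'
      obtain ⟨s, -, rfl⟩ := List.mem_map.1 hS
      obtain ⟨s', -, h⟩ := List.mem_map.1 hS'
      exact hne (slot_inj hi hj hj' h.symm).2
  · refine List.Pairwise.imp_of_mem ?_ List.nodup_range
    intro i i' hi hi' hne
    rw [List.mem_range] at hi hi'
    rw [Function.onFun, List.disjoint_left]
    intro S hS hS'
    obtain ⟨j, hj, hS⟩ := List.mem_flatMap.1 hS
    obtain ⟨j', hj', hS'⟩ := List.mem_flatMap.1 hS'
    rw [List.mem_range] at hj hj'
    obtain ⟨s, -, rfl⟩ := List.mem_map.1 hS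
    obtain ⟨s', -, h⟩ := List.mem_map.1 hS'
    exact hne (slot_inj hi hj hj' h.symm).1

theorem card_z (L : List (Finset (Fin n))) (i j s : ℕ) :
    (zset A K L i j s).card ≤ A * bb L.length + 1 + bb L.length + bb L.length := by
  classical
  obtain ⟨b, hb⟩ : ∃ b, b = bb L.length := ⟨_, rfl⟩
  obtain ⟨B, hB⟩ : ∃ B, B = (Finset.range n).filter fun x => inn (nth L s) x ∧
    j * (A * b) ≤ rank (nth L s) x ∧ rank (nth L s) x < (j + 1) * (A * b) := ⟨_, rfl⟩
  have hBc : B.card ≤ A * b := by
    have h1 : B.card ≤ (Finset.Ico (j * (A * b)) ((j + 1) * (A * b))).card := by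
      refine Finset.card_le_card_of_injOn (rank (nth L s)) ?_ ?_
      · intro x hx
        rw [hB] at hx
        obtain ⟨-, -, h2, h3⟩ := Finset.mem_filter.1 (Finset.mem_coe.1 hx)
        exact Finset.mem_coe.2 (Finset.mem_Ico.2 ⟨h2, h3⟩)
      · intro x hx y hy h
        rw [hB] at hx hy
        obtain ⟨-, h2, -⟩ := Finset.mem_filter.1 (Finset.mem_coe.1 hx)
        obtain ⟨-, h3, -⟩ := Finset.mem_filter.1 (Finset.mem_coe.1 hy)
        exact rank_inj h2 h3 h
    rw [Nat.card_Ico, Nat.add_mul, Nat.one_mul] at h1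
    omega
  have h1 : (zset A K L i j s).image (fun x : Fin (nn A n K L.length) => (x : ℕ)) ⊆
      ((B ∪ {n + i * jj A n K L.length + j}) ∪
        (Finset.range b).image (fun t => lk A n K L.length i j + 2 * t +
          (if s.testBit t then 1 else 0))) ∪
        (Finset.range b).image (fun t => lk A n K L.length i (j - 1) + 2 * t +
          (if s.testBit t then 0 else 1)) := by
    intro y hy
    obtain ⟨x, hx, rfl⟩ := Finset.mem_image.1 hy
    rw [mem_z] at hx
    rcases hx with h1 | h1 | ⟨-, t, ht, h1⟩ | ⟨-, t, ht, h1⟩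
    · refine Finset.mem_union_left _ (Finset.mem_union_left _ (Finset.mem_union_left _ ?_))
      rw [hB, hb]
      exact Finset.mem_filter.2 ⟨Finset.mem_range.2 h1.1.1, h1⟩
    · refine Finset.mem_union_left _ (Finset.mem_union_left _ (Finset.mem_union_right _ ?_))
      exact Finset.mem_singleton.2 h1
    · refine Finset.mem_union_left _ (Finset.mem_union_right _ ?_)
      rw [hb]
      exact Finset.mem_image.2 ⟨t, Finset.mem_range.2 ht, h1.symm⟩
    · refine Finset.mem_union_right _ ?_
      rw [hb]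
      exact Finset.mem_image.2 ⟨t, Finset.mem_range.2 ht, h1.symm⟩
  have h2 : ((zset A K L i j s).image (fun x : Fin (nn A n K L.length) => (x : ℕ))).card =
      (zset A K L i j s).card :=
    Finset.card_image_of_injective _ Fin.val_injective
  rw [← h2, ← hb]
  refine (Finset.card_le_card h1).trans ((Finset.card_union_le _ _).trans ?_)
  refine Nat.add_le_add ((Finset.card_union_le _ _).trans (Nat.add_le_add
    ((Finset.card_union_le _ _).trans (Nat.add_le_add hBc ?_)) ?_)) ?_
  · rw [Finset.card_singleton]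
  · exact Finset.card_image_le.trans (by rw [Finset.card_range])
  · exact Finset.card_image_le.trans (by rw [Finset.card_range])

end L2x

theorem l2 : L2 := by
  intro A n K L hA hU
  have hK : 0 < K := by
    rcases Nat.eq_zero_or_pos K with h | h
    · exfalso
      have h1 := hU.dvd
      rw [h, zero_dvd_iff] at h1
      have h2 := hU.pos
      omega
    · exact h
  have hKn : K * (n / K) = n := Nat.mul_div_cancel' hU.dvd
  have hu : 0 < n / K := Nat.div_pos (Nat.le_of_dvd hU.pos hU.dvd) hK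
  obtain ⟨hJ1, hJ2⟩ := L2x.jj_le (m := L.length) hA hu
  refine ⟨L2x.nodup_fam hA hU, ?_, L2x.len_fam L, ?_⟩
  · intro S hS
    obtain ⟨i, hi, j, hj, s, hs, rfl⟩ := L2x.mem_fam.1 hS
    have h1 := L2x.card_z (A := A) (K := K) L i j s
    have h2 : bb L.length ≤ Nat.size (fam8 A K L).length := by
      rw [L2x.len_fam]
      have h3 : L.length ≤ K * jj A n K L.length * L.length := by
        have h4 : 1 * L.length ≤ K * jj A n K L.length * L.length :=
          Nat.mul_le_mul_right _ (Nat.mul_pos hK hJ1)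
        rwa [Nat.one_mul] at h4
      unfold bb
      refine max_le ?_ (Nat.size_le_size h3)
      have h5 : Nat.size 1 ≤ Nat.size (K * jj A n K L.length * L.length) :=
        Nat.size_le_size (by omega)
      rwa [Nat.size_one] at h5
    have h3 := L2x.bb_pos L.length
    have h4 : (A + 3) * bb L.length ≤ (A + 3) * Nat.size (fam8 A K L).length :=
      Nat.mul_le_mul_left _ h2
    have h5 : (A + 3) * bb L.length = A * bb L.length + 3 * bb L.length := Nat.add_mul _ _ _
    omega
  · unfold nn lk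
    generalize jj A n K L.length = J at hJ1 hJ2 ⊢
    obtain ⟨I, rfl⟩ : ∃ I, J = I + 1 := ⟨J - 1, by omega⟩
    rw [Nat.add_sub_cancel] at hJ2 ⊢
    have hb := L2x.bb_pos L.length
    generalize bb L.length = b at hJ2 hb ⊢
    generalize n / K = u at hKn hJ2
    have h1 : K * (I * (A * b)) ≤ n := by
      rw [← hKn]
      exact Nat.mul_le_mul_left _ hJ2
    have h2 : A * (K * I) * 1 ≤ A * (K * I) * b := Nat.mul_le_mul_left _ hb
    have h3 : A * (n + K * (I + 1) + (K * I + 0) * (2 * b)) =
        A * n + A * K + (A * (K * I) * 1 + 2 * (K * (I * (A * b)))) := by ring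
    have h4 : A * (K * I) * b = K * (I * (A * b)) := by ring
    have h5 : (A + 3) * n + A * K = A * n + A * K + 3 * n := by ring
    rw [h3, h5]
    omega

end SCM
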