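import Pool.Agent.Lib.SCM.L2

/-!
# Small sets: covers of the new family
-/

set_option autoImplicit false

namespace SCM

open SCR SCN

namespace L3x

open L2x

variable {A n K : ℕ}

theorem forth {L : List (Finset (Fin n))} (hA : 1 ≤ A) (hU : Uniform K n L) (hK : 0 < K)
    (hu : 0 < n / K) (h : Coverable n K L) :
    Coverable (nn A n K L.length) (K * jj A n K L.length) (fam8 A K L) := by
  classical
  obtain ⟨C, hC, hCc, hCx⟩ := h
  obtain ⟨J, hJ⟩ : ∃ J, J = jj A n K L.length := ⟨_, rfl⟩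
  obtain ⟨b, hb⟩ : ∃ b, b = bb L.length := ⟨_, rfl⟩
  have hb1 : 1 ≤ b := hb ▸ bb_pos _
  have hJ1 : 1 ≤ J := hJ ▸ (jj_le (m := L.length) hA hu).1
  -- the sets of the cover, with repetition
  obtain ⟨A0, hA0, -⟩ := hCx ⟨0, hU.pos⟩
  have hidx : ∀ B : Finset (Fin n), B ∈ L → ∃ s < L.length, nth L s = B := by
    intro B hB
    obtain ⟨s, hs, h1⟩ := List.mem_iff_getElem.1 hB
    refine ⟨s, hs, ?_⟩
    unfold nth
    rw [List.getD_eq_getElem _ _ hs]
    exact h1
  choose! ix hix1 hix2 using hidx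
  obtain ⟨l, hl⟩ : ∃ l, l = C.toList := ⟨_, rfl⟩
  obtain ⟨σ, hσ⟩ : ∃ σ : ℕ → ℕ, σ = fun i => ix (l.getD i A0) := ⟨_, rfl⟩
  have hlC : ∀ B, B ∈ l ↔ B ∈ C := by
    intro B
    rw [hl]
    exact Finset.mem_toList
  have hlm : ∀ i, l.getD i A0 ∈ C := by
    intro i
    by_cases h1 : i < l.length
    · rw [List.getD_eq_getElem _ _ h1]
      exact (hlC _).1 (List.getElem_mem h1)
    · rw [List.getD_eq_default _ _ (by omega)]
      exact hA0
  have hσ1 : ∀ i, σ i < L.length := by
    intro i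
    rw [hσ]
    exact hix1 _ (hC _ (hlm i))
  have hσ2 : ∀ B ∈ C, ∃ i < K, nth L (σ i) = B := by
    intro B hB
    have h1 : B ∈ l := (hlC B).2 hB
    obtain ⟨i, hi, h2⟩ := List.mem_iff_getElem.1 h1
    refine ⟨i, ?_, ?_⟩
    · have h3 : l.length = C.card := by
        rw [hl]
        exact Finset.length_toList C
      omega
    · rw [hσ]
      change nth L (ix (l.getD i A0)) = B
      rw [List.getD_eq_getElem _ _ hi, h2]
      exact hix2 _ (hC _ hB)
  refine ⟨((Finset.range K) ×ˢ (Finset.range J)).image (fun p => zset A K L p.1 p.2 (σ p.1)),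
    ?_, ?_, ?_⟩
  · intro S hS
    obtain ⟨⟨i, j⟩, hp, rfl⟩ := Finset.mem_image.1 hS
    obtain ⟨hi, hj⟩ := Finset.mem_product.1 hp
    rw [Finset.mem_range] at hi hj
    exact mem_fam.2 ⟨i, hi, j, hJ ▸ hj, σ i, hσ1 i, rfl⟩
  · refine Finset.card_image_le.trans ?_
    rw [Finset.card_product, Finset.card_range, Finset.card_range, hJ]
  · intro x
    -- enough: a slot and a block
    suffices h1 : ∃ i < K, ∃ j < J, zin A K L.length (nth L (σ i)) i j (σ i) (x : ℕ) by
      obtain ⟨i, hi, j, hj, h2⟩ := h1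
      exact ⟨_, Finset.mem_image.2 ⟨(i, j), Finset.mem_product.2
        ⟨Finset.mem_range.2 hi, Finset.mem_range.2 hj⟩, rfl⟩, mem_z.2 h2⟩
    obtain ⟨x, hx⟩ := x
    change ∃ i < K, ∃ j < J, zin A K L.length (nth L (σ i)) i j (σ i) x
    by_cases h1 : x < n
    · obtain ⟨B, hB, hxB⟩ := hCx ⟨x, h1⟩
      obtain ⟨i, hi, h2⟩ := hσ2 B hB
      have h3 : inn (nth L (σ i)) x := by
        rw [h2]
        exact ⟨h1, hxB⟩
      have h4 := rank_lt h3
      have h5 : (nth L (σ i)).card = n / K := by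
        have h6 := hU.card _ (nth_mem (hσ1 i))
        exact (Nat.div_eq_of_eq_mul_right hK h6.symm).symm
      have h6 := jj_ge (n := n) (K := K) (m := L.length) hA
      have hD := d_pos hA L.length
      rw [h5] at h4
      rw [← hJ] at h6
      obtain ⟨D, hDD⟩ : ∃ D, D = A * bb L.length := ⟨_, rfl⟩
      rw [← hDD] at h6 hD
      refine ⟨i, hi, rank (nth L (σ i)) x / D, ?_, Or.inl ⟨h3, ?_, ?_⟩⟩
      · exact Nat.div_lt_of_lt_mul (by rw [Nat.mul_comm]; exact h4.trans_le h6)
      · rw [← hDD]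
        exact Nat.div_mul_le_self _ _
      · rw [← hDD]
        exact Nat.lt_mul_of_div_lt (Nat.lt_succ_self _) (by omega)
    by_cases h2 : x < n + K * J
    · have h3 : (x - n) / J < K := Nat.div_lt_of_lt_mul (by rw [Nat.mul_comm]; omega)
      refine ⟨(x - n) / J, h3, (x - n) % J, Nat.mod_lt _ (by omega), Or.inr (Or.inl ?_)⟩
      rw [← hJ]
      have h4 := Nat.div_add_mod (x - n) J
      rw [Nat.mul_comm] at h4
      omega
    · have hnn : nn A n K L.length = n + K * J + K * (J - 1) * (2 * b) := by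
        unfold nn lk
        rw [← hJ, ← hb, Nat.add_zero]
      obtain ⟨y, hy⟩ : ∃ y, y = x - (n + K * J) := ⟨_, rfl⟩
      have hy1 : y < K * (J - 1) * (2 * b) := by omega
      obtain ⟨q, hq⟩ : ∃ q, q = y / (2 * b) := ⟨_, rfl⟩
      have hq1 : q < K * (J - 1) := by
        rw [hq]
        exact Nat.div_lt_of_lt_mul (by rw [Nat.mul_comm]; exact hy1)
      have hJ2 : 0 < J - 1 := by
        rcases Nat.eq_zero_or_pos (J - 1) with h3 | h3
        · rw [h3] at hq1
          simp at hq1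
        · exact h3
      have hyq : q * (2 * b) + y % (2 * b) = y := by
        rw [hq, Nat.mul_comm]
        exact Nat.div_add_mod _ _
      have hqi : q / (J - 1) * (J - 1) + q % (J - 1) = q := by
        rw [Nat.mul_comm]
        exact Nat.div_add_mod _ _
      have hi : q / (J - 1) < K := Nat.div_lt_of_lt_mul (by rw [Nat.mul_comm]; exact hq1)
      have hj := Nat.mod_lt q hJ2
      have hr := Nat.mod_lt y (show 0 < 2 * b by omega)
      generalize q / (J - 1) = i at hqi hi
      generalize q % (J - 1) = j at hqi hj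
      generalize y % (2 * b) = r at hyq hr
      have hlk : lk A n K L.length i j = n + K * J + q * (2 * b) := by
        unfold lk
        rw [← hJ, ← hb, hqi]
      have hx2 : x = lk A n K L.length i j + 2 * (r / 2) + r % 2 := by
        rw [hlk]
        omega
      have ht : r / 2 < b := by omega
      by_cases h4 : r % 2 = if (σ i).testBit (r / 2) then 1 else 0
      · refine ⟨i, hi, j, by omega, Or.inr (Or.inr (Or.inl ⟨?_, r / 2, ?_, ?_⟩))⟩
        · rw [← hJ]
          omega
        · rw [← hb]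
          exact ht
        · rw [← h4]
          exact hx2
      · refine ⟨i, hi, j + 1, by omega, Or.inr (Or.inr (Or.inr ⟨?_, r / 2, ?_, ?_⟩))⟩
        · omega
        · rw [← hb]
          exact ht
        · have h5 : r % 2 = if (σ i).testBit (r / 2) then 0 else 1 := by
            split_ifs at h4 ⊢ <;> omega
          rw [← h5]
          exact hx2

theorem back {L : List (Finset (Fin n))} (hA : 1 ≤ A) (hu : 0 < n / K)
    (h : Coverable (nn A n K L.length) (K * jj A n K L.length) (fam8 A K L)) :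
    Coverable n K L := by
  classical
  obtain ⟨C, hC, hCc, hCx⟩ := h
  obtain ⟨J, hJ⟩ : ∃ J, J = jj A n K L.length := ⟨_, rfl⟩
  have hJ1 : 1 ≤ J := hJ ▸ (jj_le (m := L.length) hA hu).1
  -- every slot and block has a set of the cover
  have h1 : ∀ i j, i < K → j < J → ∃ s < L.length, zset A K L i j s ∈ C := by
    intro i j hi hj
    rw [hJ] at hj
    have hx : n + i * jj A n K L.length + j < nn A n K L.length := (mark_lt hi hj).trans_le le_nn
    obtain ⟨S, hS, hxS⟩ := hCx ⟨_, hx⟩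
    obtain ⟨i', hi', j', hj', s, hs, rfl⟩ := mem_fam.1 (hC S hS)
    obtain ⟨h2, h3⟩ := inv_mark hi hj hj' (mem_z.1 hxS)
    subst h2 h3
    exact ⟨s, hs, hS⟩
  choose! s hs1 hs2 using h1
  -- no other sets
  have h2 : ∀ S ∈ C, ∃ i < K, ∃ j < J, S = zset A K L i j (s i j) := by
    have h3 : ((Finset.range K) ×ˢ (Finset.range J)).image (fun p => zset A K L p.1 p.2 (s p.1 p.2)) ⊆ C := by
      intro S hS
      obtain ⟨⟨i, j⟩, hp, rfl⟩ := Finset.mem_image.1 hS
      obtain ⟨hi, hj⟩ := Finset.mem_product.1 hp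
      rw [Finset.mem_range] at hi hj
      exact hs2 i j hi hj
    have h4 : (((Finset.range K) ×ˢ (Finset.range J)).image
        (fun p => zset A K L p.1 p.2 (s p.1 p.2))).card = K * J := by
      rw [Finset.card_image_of_injOn, Finset.card_product, Finset.card_range, Finset.card_range]
      rintro ⟨i, j⟩ hp ⟨i', j'⟩ hp' h5
      obtain ⟨hi, hj⟩ := Finset.mem_product.1 (Finset.mem_coe.1 hp)
      obtain ⟨hi', hj'⟩ := Finset.mem_product.1 (Finset.mem_coe.1 hp')
      rw [Finset.mem_range] at hi hj hi' hj'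
      obtain ⟨h6, h7⟩ := slot_inj hi (hJ ▸ hj) (hJ ▸ hj') h5
      exact Prod.ext h6 h7
    have h5 := Finset.eq_of_subset_of_card_le h3 (by rw [h4, hJ]; exact hCc)
    intro S hS
    rw [← h5] at hS
    obtain ⟨⟨i, j⟩, hp, h6⟩ := Finset.mem_image.1 hS
    obtain ⟨hi, hj⟩ := Finset.mem_product.1 hp
    rw [Finset.mem_range] at hi hj
    exact ⟨i, hi, j, hj, h6.symm⟩
  have h3 : ∀ x < nn A n K L.length, ∃ i < K, ∃ j < J,
      zin A K L.length (nth L (s i j)) i j (s i j) x := by
    intro x hx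
    obtain ⟨S, hS, hxS⟩ := hCx ⟨x, hx⟩
    obtain ⟨i, hi, j, hj, rfl⟩ := h2 S hS
    exact ⟨i, hi, j, hj, mem_z.1 hxS⟩
  -- the links
  have h4 : ∀ i < K, ∀ j, j + 1 < J → s i (j + 1) = s i j := by
    intro i hi j hj
    refine bits (hs1 i (j + 1) hi hj) (hs1 i j hi (by omega)) fun t ht => ?_
    have hjJ : j + 1 < jj A n K L.length := hJ ▸ hj
    have h5 : ∀ e ≤ 1, (e = if (s i j).testBit t then 1 else 0) ∨
        (e = if (s i (j + 1)).testBit t then 0 else 1) := by
      intro e he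
      obtain ⟨i', hi', j', hj', h6⟩ := h3 _ (lk_lt hi hjJ ht he)
      rcases inv_link hjJ ht he hi' (hJ ▸ hj') h6 with ⟨h7, h8, h9⟩ | ⟨h7, h8, h9⟩
      · rw [h7, h8] at h9
        exact Or.inl h9
      · rw [h7, h8] at h9
        exact Or.inr h9
    have h6 := h5 0 (by omega)
    have h7 := h5 1 le_rfl
    cases h8 : (s i j).testBit t <;> cases h9 : (s i (j + 1)).testBit t <;>
      simp [h8, h9] at h6 h7 ⊢
  have h5 : ∀ i < K, ∀ j < J, s i j = s i 0 := by
    intro i hi j
    induction j with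
    | zero => exact fun _ => rfl
    | succ j ih =>
      intro hj
      rw [h4 i hi j hj, ih (by omega)]
  refine ⟨(Finset.range K).image (fun i => nth L (s i 0)), ?_, ?_, ?_⟩
  · intro B hB
    obtain ⟨i, hi, rfl⟩ := Finset.mem_image.1 hB
    rw [Finset.mem_range] at hi
    exact nth_mem (hs1 i 0 hi hJ1)
  · refine Finset.card_image_le.trans ?_
    rw [Finset.card_range]
  · intro x
    have hx : (x : ℕ) < nn A n K L.length :=
      lt_of_lt_of_le x.2 (le_trans (Nat.le_add_right _ _) le_nn)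
    obtain ⟨i, hi, j, hj, h6⟩ := h3 _ hx
    rw [h5 i hi j hj] at h6
    obtain ⟨⟨_, h7⟩, -⟩ := inv_small x.2 h6
    exact ⟨_, Finset.mem_image.2 ⟨i, Finset.mem_range.2 hi, rfl⟩, h7⟩

end L3x

theorem l3 : L3 := by
  intro A n K L hA hU
  have hK : 0 < K := by
    rcases Nat.eq_zero_or_pos K with h | h
    · exfalso
      have h1 := hU.dvd
      rw [h, zero_dvd_iff] at h1
      have h2 := hU.pos
      omega
    · exact h
  have hu : 0 < n / K := Nat.div_pos (Nat.le_of_dvd hU.pos hU.dvd) hK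
  exact ⟨L3x.back hA hu, L3x.forth hA hU hK hu⟩

end SCM
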