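import Pool.Agent.Lib.SCM.Progs
import Pool.Agent.Lib.SCN.MA

/-!
# Row P4: Exact Cover → Colourful Path, the program.  (helper21)
-/

set_option autoImplicit false

namespace SCM

open SCR SCN

namespace P4x

/-! ### Bits -/

lemma bit_iff {n : ℕ} (A : Finset (Fin n)) (x : ℕ) : mask A &&& 2 ^ x ≠ 0 ↔ inn A x := by
  rw [Nat.and_two_pow, show inn A x ↔ (mask A).testBit x = true from (testBit_mask A x).symm]
  cases h : (mask A).testBit x <;> simp

lemma tb_false {n : ℕ} (A : Finset (Fin n)) (x : ℕ) (h : ¬ inn A x) : (mask A).testBit x = false := by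
  rw [← Bool.not_eq_true, testBit_mask]
  exact h

lemma mn_iff {n : ℕ} (A : Finset (Fin n)) (x : ℕ) : mask A &&& (2 ^ x - 1) = 0 ↔ mn A x := by
  constructor
  · intro h z hz hin
    have h1 : (mask A &&& (2 ^ x - 1)).testBit z = true := by
      rw [Nat.testBit_and, Nat.testBit_two_pow_sub_one, (testBit_mask A z).2 hin]
      simp [hz]
    rw [h] at h1
    simp at h1
  · intro h
    apply Nat.eq_of_testBit_eq
    intro z
    rw [Nat.testBit_and, Nat.testBit_two_pow_sub_one, Nat.zero_testBit]
    by_cases hz : z < x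
    · rw [tb_false A z (h z hz)]
      rfl
    · simp [hz]

lemma mx_iff {n : ℕ} (A : Finset (Fin n)) (x : ℕ) : mask A - (2 ^ x + 2 ^ x - 1) = 0 ↔ mx A x := by
  have h0 : 2 ^ x + 2 ^ x = 2 ^ (x + 1) := by rw [Nat.pow_succ]; ring
  have hp : 0 < 2 ^ (x + 1) := by positivity
  rw [h0]
  constructor
  · intro h z hz hin
    have h1 : mask A < 2 ^ (x + 1) := by omega
    have h2 := (testBit_mask A z).2 hin
    rw [Nat.testBit_lt_two_pow (lt_of_lt_of_le h1 (Nat.pow_le_pow_right (by norm_num) hz))] at h2
    simp at h2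
  · intro h
    have h1 : mask A < 2 ^ (x + 1) := by
      apply Nat.lt_pow_two_of_testBit
      intro z hz
      exact tb_false A z (h z (by omega))
    omega

lemma nx_iff {n : ℕ} (A : Finset (Fin n)) (x y : ℕ) :
    x + 1 - y + (mask A &&& (2 ^ y - (2 ^ x + 2 ^ x))) = 0 ↔ nx A x y := by
  have h0 : 2 ^ x + 2 ^ x = 2 ^ (x + 1) := by rw [Nat.pow_succ]; ring
  rw [h0]
  have hb : x < y → ∀ z, (2 ^ y - 2 ^ (x + 1)).testBit z = decide (x < z ∧ z < y) := by
    intro hxy z
    have h1 : 2 ^ y - 2 ^ (x + 1) = 2 ^ (x + 1) * (2 ^ (y - (x + 1)) - 1) := by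
      rw [Nat.mul_sub, Nat.mul_one, ← Nat.pow_add]
      congr 2
      omega
    rw [h1, Nat.testBit_two_pow_mul, Nat.testBit_two_pow_sub_one]
    rw [← Bool.decide_and]
    apply decide_eq_decide.2
    omega
  constructor
  · intro h
    have hxy : x < y := by omega
    refine ⟨hxy, fun z h1 h2 hin => ?_⟩
    have h3 : mask A &&& (2 ^ y - 2 ^ (x + 1)) = 0 := by omega
    have h4 : (mask A &&& (2 ^ y - 2 ^ (x + 1))).testBit z = true := by
      rw [Nat.testBit_and, hb hxy, (testBit_mask A z).2 hin]
      simp [h1, h2]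
    rw [h3] at h4
    simp at h4
  · rintro ⟨hxy, h⟩
    have h3 : mask A &&& (2 ^ y - 2 ^ (x + 1)) = 0 := by
      apply Nat.eq_of_testBit_eq
      intro z
      rw [Nat.testBit_and, hb hxy, Nat.zero_testBit]
      by_cases hz : x < z ∧ z < y
      · rw [tb_false A z (h z hz.1 hz.2)]
        rfl
      · simp [hz]
    omega

/-! ### Records -/

/-- the record of an edge -/
def pr (e : ℕ × ℕ) : List ℕ := [e.1, e.2]

/-- at most `M` records, of length at most two -/
def Two (L : List (List ℕ)) (M : ℕ) : Prop := L.length ≤ M ∧ L.flatten.length ≤ 2 * M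

lemma Two.nil (M : ℕ) : Two [] M := ⟨Nat.zero_le _, Nat.zero_le _⟩

lemma Two.mono {L : List (List ℕ)} {M M' : ℕ} (h : Two L M) (hM : M ≤ M') : Two L M' :=
  ⟨h.1.trans hM, h.2.trans (Nat.mul_le_mul_left 2 hM)⟩

lemma Two.append {L L' : List (List ℕ)} {M M' : ℕ} (h : Two L M) (h' : Two L' M') : Two (L ++ L') (M + M') := by
  refine ⟨?_, ?_⟩
  · rw [List.length_append]
    have := h.1
    have := h'.1
    omega
  · rw [List.flatten_append, List.length_append]
    have := h.2
    have := h'.2
    omega

lemma Two.flatMap {f : ℕ → List (List ℕ)} {M : ℕ} (h : ∀ j, Two (f j) M) (j : ℕ) :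
    Two ((List.range j).flatMap f) (j * M) := by
  induction j with
  | zero => exact Two.nil _
  | succ j ih =>
    rw [List.range_succ, List.flatMap_append, Nat.succ_mul]
    refine ih.append ?_
    simpa using h j

lemma Two.pr (e : ℕ × ℕ) : Two [pr e] 1 := ⟨le_rfl, le_rfl⟩

/-! ### The edges -/

open Classical in
/-- the edges from `(i, x)` to `(i', y)` -/
noncomputable def ey {n : ℕ} (L : List (Finset (Fin n))) (i x i' y : ℕ) : List (ℕ × ℕ) :=
  if inn (nth L i') y ∧ ((mx (nth L i) x ∧ mn (nth L i') y) ∨ (i = i' ∧ nx (nth L i) x y)) then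
        [(i * n + x, i' * n + y)] else []

lemma ey_two {n : ℕ} (L : List (Finset (Fin n))) (i x i' y : ℕ) : Two ((ey L i x i' y).map pr) 1 := by
  unfold ey
  split_ifs
  · exact Two.pr _
  · exact Two.nil _

/-- the state during the inner loops -/
structure Ctx {n : ℕ} (L : List (Finset (Fin n))) (i x i' : ℕ) (s : Data) : Prop where
  r1 : s.reg 1 = n
  r9 : s.reg 9 = mask (nth L i)
  r10 : s.reg 10 = 2 ^ x
  r11 : s.reg 11 = i' * n
  r12 : s.reg 12 = mask (nth L i')
  r20 : s.reg 20 = i
  r22 : s.reg 22 = x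
  r24 : s.reg 24 = i * n + x
  r25 : s.reg 25 = i'

/-- the tests for one `y` -/
def ytest : Stmt := cond (.and (.r 12) (.r 13)) (
      cond (.add (.sub (.r 9) (.sub (.add (.r 10) (.r 10)) (.c 1))) (.and (.r 12) (.sub (.r 13) (.c 1))))
        (cond (.add (.add (.sub (.r 20) (.r 25)) (.sub (.r 25) (.r 20)))
            (.add (.sub (.add (.r 22) (.c 1)) (.r 27)) (.and (.r 9) (.sub (.r 13) (.add (.r 10) (.r 10))))))
          .skip (recd [.r 24, .add (.r 11) (.r 27)]))
        (recd [.r 24, .add (.r 11) (.r 27)])) .skip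

lemma mul_lt {i m n x : ℕ} (hi : i < m) (hx : x < n) : i * n + x < m * n := by
  have h1 : (i + 1) * n ≤ m * n := Nat.mul_le_mul_right n hi
  rw [Nat.succ_mul] at h1
  omega

lemma ypass {w n m : ℕ} {L : List (Finset (Fin n))} {i x i' y : ℕ} {s : Data} (hc : Ctx L i x i' s)
    (h27 : s.reg 27 = y) (h13 : s.reg 13 = 2 ^ y) (hy : y < n) (hx : x < n) (hi : i < m) (hi' : i' < m)
    (hW : 4 * 2 ^ n + m * n + n + m + 10 < 2 ^ w) (hp : s.reg 17 + 2 < 2 ^ w) (hq : s.reg 18 + 1 < 2 ^ w) :
    HT w ytest s 63 (fun t => App [] s t ((ey L i x i' y).map pr)) := by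
  have hyn : 2 ^ (y + 1) ≤ 2 ^ n := Nat.pow_le_pow_right (by norm_num) hy
  have hxn : 2 ^ (x + 1) ≤ 2 ^ n := Nat.pow_le_pow_right (by norm_num) hx
  rw [Nat.pow_succ] at hyn hxn
  have ha := maskLt n (nth L i)
  have hb := maskLt n (nth L i')
  have hlt := mul_lt hi' hy
  have hrec : HT w (recd [.r 24, .add (.r 11) (.r 27)]) s 20
      (fun t => App [] s t ([(i * n + x, i' * n + y)].map pr)) := by
    refine HT.recd ?_ hp hq ?_ (by decide)
    · intro e he
      simp only [List.mem_cons, List.not_mem_nil, or_false] at he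
      rcases he with rfl | rfl
      · exact ⟨rfl, rfl, by decide, trivial⟩
      · refine ⟨rfl, rfl, by decide, trivial, trivial, ?_⟩
        simp only [E.val, hc.r11, h27]
        omega
    · intro t ht
      have : [E.r 24, E.add (.r 11) (.r 27)].map (E.val s) = pr (i * n + x, i' * n + y) := by
        simp only [List.map_cons, List.map_nil, E.val, hc.r24, hc.r11, h27, pr]
      rw [this] at ht
      exact ht
  refine HT.cond (T1 := 58) rfl (by decide) ⟨trivial, trivial⟩ (fun hne => ?_) (fun he => ?_) (by decide)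
  · -- y in B
    have hv : (E.and (.r 12) (.r 13)).val s = mask (nth L i') &&& 2 ^ y := by
      simp only [E.val, hc.r12, h13]
    rw [hv, bit_iff] at hne
    have hv2 : (E.add (.sub (.r 9) (.sub (.add (.r 10) (.r 10)) (.c 1)))
        (.and (.r 12) (.sub (.r 13) (.c 1)))).val s =
        (mask (nth L i) - (2 ^ x + 2 ^ x - 1)) + (mask (nth L i') &&& (2 ^ y - 1)) := by
      simp only [E.val, hc.r9, hc.r10, hc.r12, h13]
    have hl2 : mask (nth L i') &&& (2 ^ y - 1) ≤ mask (nth L i') := Nat.and_le_left
    refine HT.cond (T1 := 43) rfl (by decide) ?_ (fun hne2 => ?_) (fun he2 => ?_) (by decide)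
    · refine ⟨⟨trivial, ⟨trivial, trivial, ?_⟩, ?_⟩, ⟨trivial, trivial, ?_⟩, ?_⟩
      · simp only [E.val, hc.r10]
        omega
      · simp only [E.ok]
        omega
      · simp only [E.ok]
        omega
      · have hv2' : (E.add (.sub (.r 9) (.sub (.add (.r 10) (.r 10)) (.c 1)))
          (.and (.r 12) (.sub (.r 13) (.c 1)))).val s < 2 ^ w := by
          rw [hv2]
          omega
        exact hv2'
    · rw [hv2] at hne2
      have hno : ¬ (mx (nth L i) x ∧ mn (nth L i') y) := by
        rintro ⟨h1, h2⟩
        rw [← mx_iff] at h1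
        rw [← mn_iff] at h2
        omega
      have hv3 : (E.add (.add (.sub (.r 20) (.r 25)) (.sub (.r 25) (.r 20)))
            (.add (.sub (.add (.r 22) (.c 1)) (.r 27)) (.and (.r 9) (.sub (.r 13) (.add (.r 10) (.r 10)))))).val s =
          ((i - i') + (i' - i)) + (x + 1 - y + (mask (nth L i) &&& (2 ^ y - (2 ^ x + 2 ^ x)))) := by
        simp only [E.val, hc.r9, hc.r10, hc.r20, hc.r25, hc.r22, h27, h13]
      have hl3 : mask (nth L i) &&& (2 ^ y - (2 ^ x + 2 ^ x)) ≤ mask (nth L i) := Nat.and_le_left
      refine HT.cond (T1 := 20) rfl (by decide) ?_ (fun hne3 => ?_) (fun he3 => ?_) (by decide)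
      · refine ⟨⟨⟨trivial, trivial⟩, ⟨trivial, trivial⟩, ?_⟩,
          ⟨⟨⟨trivial, ?_, ?_⟩, trivial⟩, ⟨trivial, ⟨trivial, trivial, trivial, ?_⟩⟩, ?_⟩, ?_⟩
        · simp only [E.val, hc.r20, hc.r25]
          omega
        · simp only [E.ok]
          omega
        · simp only [E.val, hc.r22]
          omega
        · simp only [E.val, hc.r10]
          omega
        · simp only [E.val, hc.r9, hc.r10, hc.r22, h27, h13]
          omega
        · have hv3' : (E.add (.add (.sub (.r 20) (.r 25)) (.sub (.r 25) (.r 20)))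
            (.add (.sub (.add (.r 22) (.c 1)) (.r 27)) (.and (.r 9) (.sub (.r 13)
              (.add (.r 10) (.r 10)))))).val s < 2 ^ w := by
            rw [hv3]
            omega
          exact hv3'
      · rw [hv3] at hne3
        have hno2 : ¬ (i = i' ∧ nx (nth L i) x y) := by
          rintro ⟨h1, h2⟩
          rw [← nx_iff] at h2
          omega
        have e : ey L i x i' y = [] := by
          unfold ey
          rw [if_neg]
          rintro ⟨-, h | h⟩
          · exact hno h
          · exact hno2 h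
        rw [e]
        exact HT.skip (App.refl _ _)
      · rw [hv3] at he3
        have e : ey L i x i' y = [(i * n + x, i' * n + y)] := by
          unfold ey
          rw [if_pos]
          refine ⟨hne, Or.inr ⟨by omega, ?_⟩⟩
          rw [← nx_iff]
          omega
        rw [e]
        exact hrec
    · rw [hv2] at he2
      have e : ey L i x i' y = [(i * n + x, i' * n + y)] := by
        unfold ey
        rw [if_pos]
        refine ⟨hne, Or.inl ⟨?_, ?_⟩⟩
        · rw [← mx_iff]
          omega
        · rw [← mn_iff]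
          omega
      rw [e]
      exact hrec.mono (by decide) fun _ h => h
  · have hv : (E.and (.r 12) (.r 13)).val s = mask (nth L i') &&& 2 ^ y := by
      simp only [E.val, hc.r12, h13]
    rw [hv] at he
    have e : ey L i x i' y = [] := by
      unfold ey
      rw [if_neg]
      rintro ⟨h, -⟩
      rw [← bit_iff] at h
      exact h he
    rw [e]
    exact HT.skip (App.refl _ _)

lemma Ctx.app {n : ℕ} {L : List (Finset (Fin n))} {i x i' : ℕ} {F : List ℕ} {s t : Data} {R : List (List ℕ)}
    (h : Ctx L i x i' s) (hA : App F s t R)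
    (hF : ∀ r ∈ [1, 9, 10, 11, 12, 20, 22, 24, 25], r ∉ F) : Ctx L i x i' t where
  r1 := (hA.reg 1 (hF 1 (by simp)) (by decide) (by decide)).trans h.r1
  r9 := (hA.reg 9 (hF 9 (by simp)) (by decide) (by decide)).trans h.r9
  r10 := (hA.reg 10 (hF 10 (by simp)) (by decide) (by decide)).trans h.r10
  r11 := (hA.reg 11 (hF 11 (by simp)) (by decide) (by decide)).trans h.r11
  r12 := (hA.reg 12 (hF 12 (by simp)) (by decide) (by decide)).trans h.r12
  r20 := (hA.reg 20 (hF 20 (by simp)) (by decide) (by decide)).trans h.r20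
  r22 := (hA.reg 22 (hF 22 (by simp)) (by decide) (by decide)).trans h.r22
  r24 := (hA.reg 24 (hF 24 (by simp)) (by decide) (by decide)).trans h.r24
  r25 := (hA.reg 25 (hF 25 (by simp)) (by decide) (by decide)).trans h.r25

def yloop : Stmt := forr 27 28 (.r 1) (blk [ytest, set 13 (.add (.r 13) (.r 13))])

lemma yl {w n m : ℕ} {L : List (Finset (Fin n))} {i x i' : ℕ} {s : Data} (hc : Ctx L i x i' s)
    (h13 : s.reg 13 = 1) (hx : x < n) (hi : i < m) (hi' : i' < m)
    (hW : 4 * 2 ^ n + m * n + n + m + 10 < 2 ^ w) (hp : s.reg 17 + 2 * n + 2 < 2 ^ w)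
    (hq : s.reg 18 + n + 1 < 2 ^ w) :
    HT w yloop s (77 * n + 6) (fun t => App [13, 27, 28] s t
      ((List.range n).flatMap fun y => (ey L i x i' y).map pr)) := by
  refine HT.forApp n 67 [13, 27, 28] (fun y => (ey L i x i' y).map pr) (fun j t => t.reg 13 = 2 ^ j)
    (by decide) (by decide) (by decide) (by decide) (by decide) (by decide) (by decide) (by decide)
    (by decide) rfl (by decide) trivial hc.r1 (by omega) ?_ ?_ (by simp only [E.size]; omega)
    (fun t h _ => h)
  · change (upd (upd s 28 n) 27 0).reg 13 = 2 ^ 0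
    rw [upd_ne _ _ (by decide), upd_ne _ _ (by decide), h13, Nat.pow_zero]
  · intro j hj s' hA h13' h27 h28
    have hc' := hc.app hA (by decide)
    have hT2 := Two.flatMap (f := fun y => (ey L i x i' y).map pr) (fun y => ey_two L i x i' y) j
    have hp1 := hA.ptr
    have hq1 := hA.cnt
    have hT21 := hT2.1
    have hT22 := hT2.2
    refine HT.seq (R := fun t => App [] s' t ((ey L i x i' j).map pr)) (T1 := 63) (T2 := 4)
      (ypass hc' h27 h13' hj hx hi hi' hW (by omega) (by omega)) ?_ (by omega)
    intro t ht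
    have t13 : t.reg 13 = 2 ^ j := (ht.reg 13 (by decide) (by decide) (by decide)).trans h13'
    have hjn : 2 ^ (j + 1) ≤ 2 ^ n := Nat.pow_le_pow_right (by norm_num) hj
    have hdd : 2 ^ j + 2 ^ j = 2 ^ (j + 1) := by rw [Nat.pow_succ]; ring
    refine HT.seq (R := fun u => u = upd t 13 (2 ^ (j + 1))) (T1 := 4) (T2 := 0)
      (HT.set (by omega) rfl (by decide) ⟨trivial, trivial, ?_⟩ ?_ (by decide)) ?_ (by omega)
    · simp only [E.val, t13]
      omega
    · simp only [E.val, t13, hdd]
    rintro _ rfl
    refine HT.skip ⟨(ht.wk (by simp)).upd _ (by decide) (by decide) (by decide), ?_, ?_, ?_⟩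
    · rw [upd_ne _ _ (by decide), ht.reg 27 (by decide) (by decide) (by decide), h27]
    · rw [upd_ne _ _ (by decide), ht.reg 28 (by decide) (by decide) (by decide), h28]
    · rw [upd_ne _ _ (by decide), upd_ne _ _ (by decide), upd_self]

/-- the state during the middle loops -/
structure Cx {n : ℕ} (L : List (Finset (Fin n))) (i x : ℕ) (s : Data) : Prop where
  r1 : s.reg 1 = n
  r2 : s.reg 2 = L.length
  r9 : s.reg 9 = mask (nth L i)
  r10 : s.reg 10 = 2 ^ x
  r20 : s.reg 20 = i
  r22 : s.reg 22 = x
  r24 : s.reg 24 = i * n + x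
  inp : ∀ t < L.length, s.mem (3 + t) = mask (nth L t)
  ptr : 3 + L.length ≤ s.reg 17

lemma Cx.app {n : ℕ} {L : List (Finset (Fin n))} {i x : ℕ} {F : List ℕ} {s t : Data} {R : List (List ℕ)}
    (h : Cx L i x s) (hA : App F s t R)
    (hF : ∀ r ∈ [1, 2, 9, 10, 20, 22, 24], r ∉ F) : Cx L i x t where
  r1 := (hA.reg 1 (hF 1 (by simp)) (by decide) (by decide)).trans h.r1
  r2 := (hA.reg 2 (hF 2 (by simp)) (by decide) (by decide)).trans h.r2
  r9 := (hA.reg 9 (hF 9 (by simp)) (by decide) (by decide)).trans h.r9
  r10 := (hA.reg 10 (hF 10 (by simp)) (by decide) (by decide)).trans h.r10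
  r20 := (hA.reg 20 (hF 20 (by simp)) (by decide) (by decide)).trans h.r20
  r22 := (hA.reg 22 (hF 22 (by simp)) (by decide) (by decide)).trans h.r22
  r24 := (hA.reg 24 (hF 24 (by simp)) (by decide) (by decide)).trans h.r24
  inp := fun k hk => by
    have := h.ptr
    rw [hA.old _ (by omega)]
    exact h.inp k hk
  ptr := by
    have := h.ptr
    have := hA.ptr
    omega

/-- the edges from `(i, x)` to `i'` -/
noncomputable def ei {n : ℕ} (L : List (Finset (Fin n))) (i x i' : ℕ) : List (List ℕ) :=
  (List.range n).flatMap fun y => (ey L i x i' y).map pr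

lemma ei_two {n : ℕ} (L : List (Finset (Fin n))) (i x i' : ℕ) : Two (ei L i x i') n := by
  have := Two.flatMap (f := fun y => (ey L i x i' y).map pr) (fun y => ey_two L i x i' y) n
  rwa [Nat.mul_one] at this

lemma ipl {w n m : ℕ} {L : List (Finset (Fin n))} {i x : ℕ} {s : Data} (hm : m = L.length) (hc : Cx L i x s)
    (h11 : s.reg 11 = 0) (hx : x < n) (hi : i < m)
    (hW : 4 * 2 ^ n + m * n + n + m + 10 < 2 ^ w) (hp : s.reg 17 + 2 * (m * n) + 2 < 2 ^ w)
    (hq : s.reg 18 + m * n + 1 < 2 ^ w) :
    HT w g4in s (m * (77 * n + 27) + 6) (fun t => App [11, 12, 13, 25, 26, 27, 28] s t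
      ((List.range m).flatMap (ei L i x))) := by
  refine HT.forApp m (77 * n + 17) [11, 12, 13, 25, 26, 27, 28] (ei L i x) (fun j t => t.reg 11 = j * n)
    (by decide) (by decide) (by decide) (by decide) (by decide) (by decide) (by decide) (by decide)
    (by decide) rfl (by decide) trivial (hc.r2.trans hm.symm) (by omega) ?_ ?_
    (by simp only [E.size]; have : m * (77 * n + 17 + 10) = m * (77 * n + 27) := by ring
        omega)
    (fun t h _ => h)
  · change (upd (upd s 26 m) 25 0).reg 11 = 0 * n
    rw [upd_ne _ _ (by decide), upd_ne _ _ (by decide), h11, Nat.zero_mul]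
  · intro j hj s' hA h11' h25 h26
    have hc' := hc.app hA (by decide)
    have hT2 := Two.flatMap (f := ei L i x) (ei_two L i x) j
    have hp1 := hA.ptr
    have hq1 := hA.cnt
    have hT21 := hT2.1
    have hT22 := hT2.2
    have hjm : j * n + n ≤ m * n := by
      rw [← Nat.succ_mul]
      exact Nat.mul_le_mul_right n hj
    have hinp := hc'.inp j (hm ▸ hj)
    have hptr := hc'.ptr
    have hmm : mask (nth L j) < 2 ^ n := maskLt n _
    -- set 12
    refine HT.seq (R := fun t => t = upd s' 12 (mask (nth L j))) (T1 := 5) (T2 := 2 + (77 * n + 6 + 4))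
      (HT.set (by omega) rfl (by decide) ?_ ?_ (by decide)) ?_ (by omega)
    · simp only [E.ok, E.val, h25, true_and, and_true]
      omega
    · simp only [E.val, h25, hinp]
    rintro _ rfl
    refine HT.seq (R := fun t => t = upd (upd s' 12 (mask (nth L j))) 13 1) (T1 := 2) (T2 := 77 * n + 6 + 4)
      (HT.set (by omega) rfl (by decide) (by simp only [E.ok]; omega) rfl (by decide)) ?_ (by omega)
    rintro _ rfl
    set u := upd (upd s' 12 (mask (nth L j))) 13 1 with hu
    have hcu : Ctx L i x j u := by
      constructor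
      · rw [hu, upd_ne _ _ (by decide), upd_ne _ _ (by decide)]; exact hc'.r1
      · rw [hu, upd_ne _ _ (by decide), upd_ne _ _ (by decide)]; exact hc'.r9
      · rw [hu, upd_ne _ _ (by decide), upd_ne _ _ (by decide)]; exact hc'.r10
      · rw [hu, upd_ne _ _ (by decide), upd_ne _ _ (by decide)]; exact h11'
      · rw [hu, upd_ne _ _ (by decide), upd_self]
      · rw [hu, upd_ne _ _ (by decide), upd_ne _ _ (by decide)]; exact hc'.r20
      · rw [hu, upd_ne _ _ (by decide), upd_ne _ _ (by decide)]; exact hc'.r22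
      · rw [hu, upd_ne _ _ (by decide), upd_ne _ _ (by decide)]; exact hc'.r24
      · rw [hu, upd_ne _ _ (by decide), upd_ne _ _ (by decide)]; exact h25
    have h17u : u.reg 17 = s'.reg 17 := by
      rw [hu, upd_ne _ _ (by decide), upd_ne _ _ (by decide)]
    have h18u : u.reg 18 = s'.reg 18 := by
      rw [hu, upd_ne _ _ (by decide), upd_ne _ _ (by decide)]
    refine HT.seq (R := fun t => App [13, 27, 28] u t (ei L i x j)) (T1 := 77 * n + 6) (T2 := 4)
      (yl hcu (by rw [hu, upd_self]) hx hi hj hW (by rw [h17u]; omega) (by rw [h18u]; omega)) ?_ (by omega)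
    intro t ht
    have hA' : App [11, 12, 13, 25, 26, 27, 28] s' t (ei L i x j) := by
      have h1 : App [11, 12, 13, 25, 26, 27, 28] u t (ei L i x j) := ht.wk (by decide)
      exact (h1.upd0 (by decide) (by decide) (by decide)).upd0 (by decide) (by decide) (by decide)
    have t11 : t.reg 11 = j * n := (ht.reg 11 (by decide) (by decide) (by decide)).trans hcu.r11
    have t1 : t.reg 1 = n := (ht.reg 1 (by decide) (by decide) (by decide)).trans hcu.r1
    refine HT.seq (R := fun v => v = upd t 11 ((j + 1) * n)) (T1 := 4) (T2 := 0)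
      (HT.set (by omega) rfl (by decide) ⟨trivial, trivial, ?_⟩ ?_ (by decide)) ?_ (by omega)
    · simp only [E.val, t11, t1]
      omega
    · simp only [E.val, t11, t1, Nat.succ_mul]
    rintro _ rfl
    refine HT.skip ⟨hA'.upd _ (by decide) (by decide) (by decide), ?_, ?_, ?_⟩
    · rw [upd_ne _ _ (by decide), ht.reg 25 (by decide) (by decide) (by decide), hcu.r25]
    · rw [upd_ne _ _ (by decide), ht.reg 26 (by decide) (by decide) (by decide), hu,
        upd_ne _ _ (by decide), upd_ne _ _ (by decide), h26]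
    · rw [upd_ne _ _ (by decide), upd_ne _ _ (by decide), upd_self]

/-! ### The loop over `x` -/

/-- the state during the loop over `x` -/
structure Cy {n : ℕ} (L : List (Finset (Fin n))) (i : ℕ) (s : Data) : Prop where
  r1 : s.reg 1 = n
  r2 : s.reg 2 = L.length
  r6 : s.reg 6 = L.length * n
  r7 : s.reg 7 = L.length * n + 1
  r8 : s.reg 8 = i * n
  r9 : s.reg 9 = mask (nth L i)
  r20 : s.reg 20 = i
  inp : ∀ t < L.length, s.mem (3 + t) = mask (nth L t)
  ptr : 3 + L.length ≤ s.reg 17

lemma Cy.app {n : ℕ} {L : List (Finset (Fin n))} {i : ℕ} {F : List ℕ} {s t : Data} {R : List (List ℕ)}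
    (h : Cy L i s) (hA : App F s t R)
    (hF : ∀ r ∈ [1, 2, 6, 7, 8, 9, 20], r ∉ F) : Cy L i t where
  r1 := (hA.reg 1 (hF 1 (by simp)) (by decide) (by decide)).trans h.r1
  r2 := (hA.reg 2 (hF 2 (by simp)) (by decide) (by decide)).trans h.r2
  r6 := (hA.reg 6 (hF 6 (by simp)) (by decide) (by decide)).trans h.r6
  r7 := (hA.reg 7 (hF 7 (by simp)) (by decide) (by decide)).trans h.r7
  r8 := (hA.reg 8 (hF 8 (by simp)) (by decide) (by decide)).trans h.r8
  r9 := (hA.reg 9 (hF 9 (by simp)) (by decide) (by decide)).trans h.r9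
  r20 := (hA.reg 20 (hF 20 (by simp)) (by decide) (by decide)).trans h.r20
  inp := fun k hk => by
    have := h.ptr
    rw [hA.old _ (by omega)]
    exact h.inp k hk
  ptr := by
    have := h.ptr
    have := hA.ptr
    omega

open Classical in
/-- the edge from the start -/
noncomputable def ea {n : ℕ} (L : List (Finset (Fin n))) (i x : ℕ) : List (List ℕ) :=
  (if mn (nth L i) x then [(L.length * n, i * n + x)] else []).map pr

open Classical in
/-- the edge to the end -/
noncomputable def eb {n : ℕ} (L : List (Finset (Fin n))) (i x : ℕ) : List (List ℕ) :=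
  (if mx (nth L i) x then [(i * n + x, L.length * n + 1)] else []).map pr

lemma ea_two {n : ℕ} (L : List (Finset (Fin n))) (i x : ℕ) : Two (ea L i x) 1 := by
  unfold ea
  split_ifs
  · exact Two.pr _
  · exact Two.nil _

lemma eb_two {n : ℕ} (L : List (Finset (Fin n))) (i x : ℕ) : Two (eb L i x) 1 := by
  unfold eb
  split_ifs
  · exact Two.pr _
  · exact Two.nil _

lemma edges4x_map {n : ℕ} (L : List (Finset (Fin n))) (i x : ℕ) (h : inn (nth L i) x) :
    (edges4x L i x).map pr = ea L i x ++ (eb L i x ++ (List.range L.length).flatMap (ei L i x)) := by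
  unfold edges4x
  rw [if_pos h, List.map_append, List.map_append, List.map_flatMap]
  unfold ea eb ei
  congr 2
  refine congrArg (fun f => List.flatMap f (List.range L.length)) ?_
  funext i'
  rw [List.map_flatMap]
  rfl

lemma edges4x_two {n : ℕ} (L : List (Finset (Fin n))) (i x : ℕ) :
    Two ((edges4x L i x).map pr) (2 + L.length * n) := by
  by_cases h : inn (nth L i) x
  · rw [edges4x_map L i x h]
    have := (ea_two L i x).append ((eb_two L i x).append (Two.flatMap (ei_two L i x) L.length))
    refine this.mono (by omega)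
  · unfold edges4x
    rw [if_neg h]
    exact Two.nil _

def xtest : Stmt := cond (.and (.r 9) (.r 10)) (blk [
        set 24 (.add (.r 8) (.r 22)),
        cond (.and (.r 9) (.sub (.r 10) (.c 1))) .skip (recd [.r 6, .r 24]),
        cond (.sub (.r 9) (.sub (.add (.r 10) (.r 10)) (.c 1))) .skip (recd [.r 24, .r 7]),
        set 11 (.c 0), g4in]) .skip

lemma xpass {w n m : ℕ} {L : List (Finset (Fin n))} {i x : ℕ} {s : Data} (hm : m = L.length) (hc : Cy L i s)
    (h10 : s.reg 10 = 2 ^ x) (h22 : s.reg 22 = x) (hx : x < n) (hi : i < m)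
    (hW : 4 * 2 ^ n + m * n + n + m + 10 < 2 ^ w) (hp : s.reg 17 + 2 * (2 + m * n) + 2 < 2 ^ w)
    (hq : s.reg 18 + (2 + m * n) + 1 < 2 ^ w) :
    HT w xtest s (69 + m * (77 * n + 27)) (fun t => App [11, 12, 13, 24, 25, 26, 27, 28] s t
      ((edges4x L i x).map pr)) := by
  subst hm
  have hxn : 2 ^ (x + 1) ≤ 2 ^ n := Nat.pow_le_pow_right (by norm_num) hx
  rw [Nat.pow_succ] at hxn
  have ha := maskLt n (nth L i)
  have hlt := mul_lt hi hx
  have hv : (E.and (.r 9) (.r 10)).val s = mask (nth L i) &&& 2 ^ x := by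
    simp only [E.val, hc.r9, h10]
  refine HT.cond (T1 := 64 + L.length * (77 * n + 27)) rfl (by decide) ⟨trivial, trivial⟩ (fun hne => ?_)
    (fun he => ?_) (by simp only [E.size]; omega)
  swap
  · rw [hv] at he
    have e : edges4x L i x = [] := by
      unfold edges4x
      rw [if_neg]
      intro h
      rw [← bit_iff] at h
      exact h he
    rw [e]
    exact HT.skip (App.refl _ _)
  rw [hv, bit_iff] at hne
  rw [edges4x_map L i x hne]
  -- set 24
  refine HT.seq (R := fun t => t = upd s 24 (i * n + x)) (T1 := 4)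
    (T2 := 25 + (27 + (2 + (L.length * (77 * n + 27) + 6))))
    (HT.set (by omega) rfl (by decide) ⟨trivial, trivial, ?_⟩ ?_ (by decide)) ?_ (by omega)
  · simp only [E.val, hc.r8, h22]
    omega
  · simp only [E.val, hc.r8, h22]
  rintro _ rfl
  set s1 := upd s 24 (i * n + x) with hs1
  have hA1 : App [11, 12, 13, 24, 25, 26, 27, 28] s s1 [] :=
    (App.refl _ s).upd _ (by decide) (by decide) (by decide)
  have hc1 : Cy L i s1 := hc.app hA1 (by decide)
  have s10 : s1.reg 10 = 2 ^ x := by rw [hs1, upd_ne _ _ (by decide), h10]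
  have s24 : s1.reg 24 = i * n + x := by rw [hs1, upd_self]
  have s17 : s1.reg 17 = s.reg 17 := by rw [hs1, upd_ne _ _ (by decide)]
  have s18 : s1.reg 18 = s.reg 18 := by rw [hs1, upd_ne _ _ (by decide)]
  -- the edge from the start
  refine HT.seq (R := fun t => App [] s1 t (ea L i x)) (T1 := 25)
    (T2 := 27 + (2 + (L.length * (77 * n + 27) + 6))) ?_ ?_ le_rfl
  · have hv1 : (E.and (.r 9) (.sub (.r 10) (.c 1))).val s1 = mask (nth L i) &&& (2 ^ x - 1) := by
      simp only [E.val, hc1.r9, s10]
    refine HT.cond (T1 := 18) rfl (by decide) ?_ (fun hne1 => ?_) (fun he1 => ?_) (by decide)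
    · refine ⟨trivial, trivial, ?_⟩
      simp only [E.ok]
      omega
    · rw [hv1] at hne1
      have e : ea L i x = [] := by
        unfold ea
        rw [if_neg]
        · rfl
        · rw [← mn_iff]
          exact hne1
      rw [e]
      exact HT.skip (App.refl _ _)
    · rw [hv1] at he1
      have e : ea L i x = [pr (L.length * n, i * n + x)] := by
        unfold ea
        rw [if_pos ((mn_iff _ _).1 he1)]
        rfl
      rw [e]
      refine HT.recd ?_ (by rw [s17]; simp only [List.length_cons, List.length_nil]; omega)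
        (by rw [s18]; omega) ?_ (by decide)
      · intro a ha
        simp only [List.mem_cons, List.not_mem_nil, or_false] at ha
        rcases ha with rfl | rfl
        · exact ⟨rfl, rfl, by decide, trivial⟩
        · exact ⟨rfl, rfl, by decide, trivial⟩
      · intro t ht
        have : [E.r 6, E.r 24].map (E.val s1) = pr (L.length * n, i * n + x) := by
          simp only [List.map_cons, List.map_nil, E.val, hc1.r6, s24, pr]
        rw [this] at ht
        exact ht
  intro t1 ht1
  have hc2 : Cy L i t1 := hc1.app ht1 (by decide)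
  have u10 : t1.reg 10 = 2 ^ x := (ht1.reg 10 (by decide) (by decide) (by decide)).trans s10
  have u24 : t1.reg 24 = i * n + x := (ht1.reg 24 (by decide) (by decide) (by decide)).trans s24
  have u22 : t1.reg 22 = x := by
    rw [ht1.reg 22 (by decide) (by decide) (by decide), hs1, upd_ne _ _ (by decide), h22]
  have u17 : t1.reg 17 ≤ s.reg 17 + 2 := by
    have h1 := ht1.ptr
    have h2 := (ea_two L i x).2
    omega
  have u18 : t1.reg 18 ≤ s.reg 18 + 1 := by
    have h1 := ht1.cnt
    have h2 := (ea_two L i x).1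
    omega
  -- the edge to the end
  refine HT.seq (R := fun t => App [] t1 t (eb L i x)) (T1 := 27)
    (T2 := 2 + (L.length * (77 * n + 27) + 6)) ?_ ?_ le_rfl
  · have hv1 : (E.sub (.r 9) (.sub (.add (.r 10) (.r 10)) (.c 1))).val t1 =
        mask (nth L i) - (2 ^ x + 2 ^ x - 1) := by
      simp only [E.val, hc2.r9, u10]
    refine HT.cond (T1 := 18) rfl (by decide) ?_ (fun hne1 => ?_) (fun he1 => ?_) (by decide)
    · refine ⟨trivial, ⟨trivial, trivial, ?_⟩, ?_⟩
      · simp only [E.val, u10]
        omega
      · simp only [E.ok]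
        omega
    · rw [hv1] at hne1
      have e : eb L i x = [] := by
        unfold eb
        rw [if_neg]
        · rfl
        · rw [← mx_iff]
          exact hne1
      rw [e]
      exact HT.skip (App.refl _ _)
    · rw [hv1] at he1
      have e : eb L i x = [pr (i * n + x, L.length * n + 1)] := by
        unfold eb
        rw [if_pos ((mx_iff _ _).1 he1)]
        rfl
      rw [e]
      refine HT.recd ?_ (by simp only [List.length_cons, List.length_nil]; omega) (by omega) ?_ (by decide)
      · intro a ha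
        simp only [List.mem_cons, List.not_mem_nil, or_false] at ha
        rcases ha with rfl | rfl
        · exact ⟨rfl, rfl, by decide, trivial⟩
        · exact ⟨rfl, rfl, by decide, trivial⟩
      · intro t ht
        have : [E.r 24, E.r 7].map (E.val t1) = pr (i * n + x, L.length * n + 1) := by
          simp only [List.map_cons, List.map_nil, E.val, hc2.r7, u24, pr]
        rw [this] at ht
        exact ht
  intro t2 ht2
  have hc3 : Cy L i t2 := hc2.app ht2 (by decide)
  have v17 : t2.reg 17 ≤ s.reg 17 + 4 := by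
    have h1 := ht2.ptr
    have h2 := (eb_two L i x).2
    omega
  have v18 : t2.reg 18 ≤ s.reg 18 + 2 := by
    have h1 := ht2.cnt
    have h2 := (eb_two L i x).1
    omega
  refine HT.seq (R := fun t => t = upd t2 11 0) (T1 := 2) (T2 := L.length * (77 * n + 27) + 6)
    (HT.set (by omega) rfl (by decide) (by simp only [E.ok]; omega) rfl (by decide)) ?_ (by omega)
  rintro _ rfl
  set t3 := upd t2 11 0 with ht3
  have hcx : Cx L i x t3 := by
    constructor
    · rw [ht3, upd_ne _ _ (by decide)]; exact hc3.r1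
    · rw [ht3, upd_ne _ _ (by decide)]; exact hc3.r2
    · rw [ht3, upd_ne _ _ (by decide)]; exact hc3.r9
    · rw [ht3, upd_ne _ _ (by decide), ht2.reg 10 (by decide) (by decide) (by decide), u10]
    · rw [ht3, upd_ne _ _ (by decide)]; exact hc3.r20
    · rw [ht3, upd_ne _ _ (by decide), ht2.reg 22 (by decide) (by decide) (by decide), u22]
    · rw [ht3, upd_ne _ _ (by decide), ht2.reg 24 (by decide) (by decide) (by decide), u24]
    · exact hc3.inp
    · rw [ht3, upd_ne _ _ (by decide)]; exact hc3.ptr
  have w17 : t3.reg 17 = t2.reg 17 := by rw [ht3, upd_ne _ _ (by decide)]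
  have w18 : t3.reg 18 = t2.reg 18 := by rw [ht3, upd_ne _ _ (by decide)]
  refine HT.seq (R := fun t => App [11, 12, 13, 24, 25, 26, 27, 28] s t
      (ea L i x ++ (eb L i x ++ (List.range L.length).flatMap (ei L i x))))
    (T1 := L.length * (77 * n + 27) + 6) (T2 := 0) ?_ (fun t ht => HT.skip ht) (by omega)
  refine (ipl rfl hcx (by rw [ht3, upd_self]) hx hi hW (by rw [w17]; omega) (by rw [w18]; omega)).mono
    le_rfl fun t ht => ?_
  have b1 : App [11, 12, 13, 24, 25, 26, 27, 28] s t1 (ea L i x) := by
    have := hA1.trans (ht1.wk (by simp))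
    simpa using this
  have b2 : App [11, 12, 13, 24, 25, 26, 27, 28] t1 t2 (eb L i x) := ht2.wk (by simp)
  have b3 : App [11, 12, 13, 24, 25, 26, 27, 28] t2 t ((List.range L.length).flatMap (ei L i x)) :=
    (ht.wk (by decide)).upd0 (by decide) (by decide) (by decide)
  exact b1.trans (b2.trans b3)

def xloop : Stmt := forr 22 23 (.r 1) (blk [xtest, set 10 (.add (.r 10) (.r 10))])

/-- the edges of the set `i` -/
noncomputable def ex {n : ℕ} (L : List (Finset (Fin n))) (i : ℕ) : List (List ℕ) :=
  (List.range n).flatMap fun x => (edges4x L i x).map pr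

lemma ex_two {n : ℕ} (L : List (Finset (Fin n))) (i : ℕ) : Two (ex L i) (n * (2 + L.length * n)) :=
  Two.flatMap (f := fun x => (edges4x L i x).map pr) (edges4x_two L i) n

lemma xl {w n m : ℕ} {L : List (Finset (Fin n))} {i : ℕ} {s : Data} (hm : m = L.length) (hc : Cy L i s)
    (h10 : s.reg 10 = 1) (hi : i < m)
    (hW : 4 * 2 ^ n + m * n + n + m + 10 < 2 ^ w) (hp : s.reg 17 + 2 * (n * (2 + m * n)) + 2 < 2 ^ w)
    (hq : s.reg 18 + n * (2 + m * n) + 1 < 2 ^ w) :
    HT w xloop s (n * (83 + m * (77 * n + 27)) + 6)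
      (fun t => App [10, 11, 12, 13, 22, 23, 24, 25, 26, 27, 28] s t (ex L i)) := by
  refine HT.forApp n (73 + m * (77 * n + 27)) [10, 11, 12, 13, 22, 23, 24, 25, 26, 27, 28]
    (fun x => (edges4x L i x).map pr) (fun j t => t.reg 10 = 2 ^ j)
    (by decide) (by decide) (by decide) (by decide) (by decide) (by decide) (by decide) (by decide)
    (by decide) rfl (by decide) trivial hc.r1 (by omega) ?_ ?_
    (by simp only [E.size]
        have : n * (73 + m * (77 * n + 27) + 10) = n * (83 + m * (77 * n + 27)) := by ring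
        omega)
    (fun t h _ => h)
  · rw [upd_ne _ _ (by decide), upd_ne _ _ (by decide), h10, Nat.pow_zero]
  · intro j hj s' hA h10' h22 h23
    have hc' := hc.app hA (by decide)
    have hT2 := Two.flatMap (f := fun x => (edges4x L i x).map pr) (edges4x_two L i) j
    have hp1 := hA.ptr
    have hq1 := hA.cnt
    have hT21 := hT2.1
    have hT22 := hT2.2
    have hjn : j * (2 + m * n) + (2 + m * n) ≤ n * (2 + m * n) := by
      rw [← Nat.succ_mul]
      exact Nat.mul_le_mul_right _ hj
    rw [← hm] at hT21 hT22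
    refine HT.seq (R := fun t => App [11, 12, 13, 24, 25, 26, 27, 28] s' t ((edges4x L i j).map pr))
      (T1 := 69 + m * (77 * n + 27)) (T2 := 4)
      (xpass hm hc' h10' h22 hj hi hW (by omega) (by omega)) ?_ (by omega)
    intro t ht
    have t10 : t.reg 10 = 2 ^ j := (ht.reg 10 (by decide) (by decide) (by decide)).trans h10'
    have hjn2 : 2 ^ (j + 1) ≤ 2 ^ n := Nat.pow_le_pow_right (by norm_num) hj
    have hdd : 2 ^ j + 2 ^ j = 2 ^ (j + 1) := by rw [Nat.pow_succ]; ring
    refine HT.seq (R := fun u => u = upd t 10 (2 ^ (j + 1))) (T1 := 4) (T2 := 0)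
      (HT.set (by omega) rfl (by decide) ⟨trivial, trivial, ?_⟩ ?_ (by decide)) ?_ (by omega)
    · simp only [E.val, t10]
      omega
    · simp only [E.val, t10, hdd]
    rintro _ rfl
    refine HT.skip ⟨(ht.wk (by decide)).upd _ (by decide) (by decide) (by decide), ?_, ?_, ?_⟩
    · rw [upd_ne _ _ (by decide), ht.reg 22 (by decide) (by decide) (by decide), h22]
    · rw [upd_ne _ _ (by decide), ht.reg 23 (by decide) (by decide) (by decide), h23]
    · rw [upd_ne _ _ (by decide), upd_ne _ _ (by decide), upd_self]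

/-! ### The loop over `i` -/

/-- the state during the loop over `i` -/
structure Cz {n : ℕ} (L : List (Finset (Fin n))) (s : Data) : Prop where
  r1 : s.reg 1 = n
  r2 : s.reg 2 = L.length
  r6 : s.reg 6 = L.length * n
  r7 : s.reg 7 = L.length * n + 1
  inp : ∀ t < L.length, s.mem (3 + t) = mask (nth L t)
  ptr : 3 + L.length ≤ s.reg 17

lemma Cz.app {n : ℕ} {L : List (Finset (Fin n))} {F : List ℕ} {s t : Data} {R : List (List ℕ)}
    (h : Cz L s) (hA : App F s t R)
    (hF : ∀ r ∈ [1, 2, 6, 7], r ∉ F) : Cz L t where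
  r1 := (hA.reg 1 (hF 1 (by simp)) (by decide) (by decide)).trans h.r1
  r2 := (hA.reg 2 (hF 2 (by simp)) (by decide) (by decide)).trans h.r2
  r6 := (hA.reg 6 (hF 6 (by simp)) (by decide) (by decide)).trans h.r6
  r7 := (hA.reg 7 (hF 7 (by simp)) (by decide) (by decide)).trans h.r7
  inp := fun k hk => by
    have := h.ptr
    rw [hA.old _ (by omega)]
    exact h.inp k hk
  ptr := by
    have := h.ptr
    have := hA.ptr
    omega

def iloop : Stmt := forr 20 21 (.r 2) (blk [
    set 9 (.ld (.add (.c 3) (.r 20))), set 10 (.c 1), xloop, set 8 (.add (.r 8) (.r 1))])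

/-- the registers of the loop over `i` -/
def Fi : List ℕ := [8, 9, 10, 11, 12, 13, 20, 21, 22, 23, 24, 25, 26, 27, 28]

lemma il {w n m : ℕ} {L : List (Finset (Fin n))} {s : Data} (hm : m = L.length) (hc : Cz L s)
    (h8 : s.reg 8 = 0)
    (hW : 4 * 2 ^ n + m * n + n + m + 10 < 2 ^ w) (hp : s.reg 17 + 2 * (m * (n * (2 + m * n))) + 2 < 2 ^ w)
    (hq : s.reg 18 + m * (n * (2 + m * n)) + 1 < 2 ^ w) :
    HT w iloop s (m * (27 + n * (83 + m * (77 * n + 27))) + 6)
      (fun t => App Fi s t ((List.range m).flatMap (ex L))) := by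
  refine HT.forApp m (17 + n * (83 + m * (77 * n + 27))) Fi (ex L) (fun j t => t.reg 8 = j * n)
    (by decide) (by decide) (by decide) (by decide) (by decide) (by decide) (by decide) (by decide)
    (by decide) rfl (by decide) trivial (hc.r2.trans hm.symm) (by omega) ?_ ?_
    (by simp only [E.size]
        have : m * (17 + n * (83 + m * (77 * n + 27)) + 10) = m * (27 + n * (83 + m * (77 * n + 27))) := by ring
        omega)
    (fun t h _ => h)
  · rw [upd_ne _ _ (by decide), upd_ne _ _ (by decide), h8, Nat.zero_mul]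
  · intro j hj s' hA h8' h20 h21
    have hc' := hc.app hA (by decide)
    have hT2 := Two.flatMap (f := ex L) (ex_two L) j
    have hp1 := hA.ptr
    have hq1 := hA.cnt
    have hT21 := hT2.1
    have hT22 := hT2.2
    have hjm : j * (n * (2 + m * n)) + n * (2 + m * n) ≤ m * (n * (2 + m * n)) := by
      rw [← Nat.succ_mul]
      exact Nat.mul_le_mul_right _ hj
    have hjm' : j * n + n ≤ m * n := by
      rw [← Nat.succ_mul]
      exact Nat.mul_le_mul_right _ hj
    rw [← hm] at hT21 hT22
    have hinp := hc'.inp j (hm ▸ hj)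
    -- set 9
    refine HT.seq (R := fun t => t = upd s' 9 (mask (nth L j))) (T1 := 5)
      (T2 := 2 + (n * (83 + m * (77 * n + 27)) + 6 + 4))
      (HT.set (by omega) rfl (by decide) ?_ ?_ (by decide)) ?_ (by omega)
    · simp only [E.ok, E.val, h20, true_and]
      omega
    · simp only [E.val, h20, hinp]
    rintro _ rfl
    refine HT.seq (R := fun t => t = upd (upd s' 9 (mask (nth L j))) 10 1) (T1 := 2)
      (T2 := n * (83 + m * (77 * n + 27)) + 6 + 4)
      (HT.set (by omega) rfl (by decide) (by simp only [E.ok]; omega) rfl (by decide)) ?_ (by omega)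
    rintro _ rfl
    set u := upd (upd s' 9 (mask (nth L j))) 10 1 with hu
    have hcu : Cy L j u := by
      constructor
      · rw [hu, upd_ne _ _ (by decide), upd_ne _ _ (by decide)]; exact hc'.r1
      · rw [hu, upd_ne _ _ (by decide), upd_ne _ _ (by decide)]; exact hc'.r2
      · rw [hu, upd_ne _ _ (by decide), upd_ne _ _ (by decide)]; exact hc'.r6
      · rw [hu, upd_ne _ _ (by decide), upd_ne _ _ (by decide)]; exact hc'.r7
      · rw [hu, upd_ne _ _ (by decide), upd_ne _ _ (by decide)]; exact h8'
      · rw [hu, upd_ne _ _ (by decide), upd_self]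
      · rw [hu, upd_ne _ _ (by decide), upd_ne _ _ (by decide)]; exact h20
      · exact hc'.inp
      · rw [hu, upd_ne _ _ (by decide), upd_ne _ _ (by decide)]; exact hc'.ptr
    have h17u : u.reg 17 = s'.reg 17 := by
      rw [hu, upd_ne _ _ (by decide), upd_ne _ _ (by decide)]
    have h18u : u.reg 18 = s'.reg 18 := by
      rw [hu, upd_ne _ _ (by decide), upd_ne _ _ (by decide)]
    refine HT.seq (R := fun t => App [10, 11, 12, 13, 22, 23, 24, 25, 26, 27, 28] u t (ex L j))
      (T1 := n * (83 + m * (77 * n + 27)) + 6) (T2 := 4)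
      (xl hm hcu (by rw [hu, upd_self]) hj hW (by rw [h17u]; omega) (by rw [h18u]; omega)) ?_ (by omega)
    intro t ht
    have hA' : App Fi s' t (ex L j) := by
      have h1 : App Fi u t (ex L j) := ht.wk (by decide)
      exact (h1.upd0 (by decide) (by decide) (by decide)).upd0 (by decide) (by decide) (by decide)
    have t8 : t.reg 8 = j * n := (ht.reg 8 (by decide) (by decide) (by decide)).trans hcu.r8
    have t1 : t.reg 1 = n := (ht.reg 1 (by decide) (by decide) (by decide)).trans hcu.r1
    refine HT.seq (R := fun v => v = upd t 8 ((j + 1) * n)) (T1 := 4) (T2 := 0)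
      (HT.set (by omega) rfl (by decide) ⟨trivial, trivial, ?_⟩ ?_ (by decide)) ?_ (by omega)
    · simp only [E.val, t8, t1]
      omega
    · simp only [E.val, t8, t1, Nat.succ_mul]
    rintro _ rfl
    refine HT.skip ⟨hA'.upd _ (by decide) (by decide) (by decide), ?_, ?_, ?_⟩
    · rw [upd_ne _ _ (by decide), ht.reg 20 (by decide) (by decide) (by decide), hcu.r20]
    · rw [upd_ne _ _ (by decide), ht.reg 21 (by decide) (by decide) (by decide), hu,
        upd_ne _ _ (by decide), upd_ne _ _ (by decide), h21]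
    · rw [upd_ne _ _ (by decide), upd_ne _ _ (by decide), upd_self]

/-! ### The colours -/

/-- the colours of the elements -/
def crec (n : ℕ) : List (List ℕ) := (List.range n).flatMap fun x => [[x]]

lemma crec_two (n : ℕ) : Two (crec n) n := by
  have := Two.flatMap (f := fun x => [[x]]) (M := 1) (fun x => ⟨le_rfl, by simp⟩) n
  rwa [Nat.mul_one] at this

lemma crec_length (n : ℕ) : (crec n).length = n := by
  unfold crec
  induction n with
  | zero => rfl
  | succ n ih => rw [List.range_succ, List.flatMap_append, List.length_append, ih]; rfl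

lemma crec_flatten (n : ℕ) : (crec n).flatten = List.range n := by
  unfold crec
  induction n with
  | zero => rfl
  | succ n ih => rw [List.range_succ, List.flatMap_append, List.flatten_append, ih]; rfl

def Crec (n m : ℕ) : List (List ℕ) := (List.range m).flatMap fun _ => crec n

lemma Crec_length (n m : ℕ) : (Crec n m).length = m * n := by
  unfold Crec
  induction m with
  | zero => rw [Nat.zero_mul]; rfl
  | succ m ih =>
    rw [List.range_succ, List.flatMap_append, List.length_append, ih, Nat.succ_mul]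
    congr 1
    simpa using crec_length n

lemma Crec_flatten (n m : ℕ) : (Crec n m).flatten = (List.range m).flatMap fun _ => List.range n := by
  unfold Crec
  induction m with
  | zero => rfl
  | succ m ih =>
    rw [List.range_succ, List.flatMap_append, List.flatMap_append, List.flatten_append, ih]
    congr 1
    simpa using crec_flatten n

lemma colours (n m : ℕ) : (List.range (m * n + 2)).map (col4 n m) = (Crec n m).flatten ++ [n, n + 1] := by
  rw [Crec_flatten]
  have h1 : (List.range (m * n)).map (fun v => v % n) = (List.range m).flatMap fun _ => List.range n := by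
    induction m with
    | zero => rw [Nat.zero_mul]; rfl
    | succ m ih =>
      rw [Nat.succ_mul, List.range_add, List.map_append, ih, List.range_succ, List.flatMap_append]
      congr 1
      rw [List.map_map]
      have h2 : ∀ a ∈ List.range n, ((fun v => v % n) ∘ fun x => m * n + x) a = a := by
        intro a ha
        have ha' : a < n := List.mem_range.1 ha
        simp only [Function.comp]
        rw [Nat.add_comm, Nat.add_mul_mod_self_right, Nat.mod_eq_of_lt ha']
      rw [List.map_congr_left h2]
      simp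
  rw [show m * n + 2 = m * n + 1 + 1 from rfl, List.range_succ, List.range_succ, List.map_append,
    List.map_append, List.append_assoc]
  congr 1
  · rw [← h1]
    refine List.map_congr_left fun a ha => ?_
    have ha' : a < m * n := List.mem_range.1 ha
    unfold col4
    rw [if_pos ha']
  · simp [col4]

lemma edges4_map {n : ℕ} (L : List (Finset (Fin n))) :
    (edges4 L).map pr = [pr (L.length * n, L.length * n + 1)] ++ (List.range L.length).flatMap (ex L) := by
  unfold edges4
  rw [List.map_cons, List.map_flatMap]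
  unfold ex
  rw [List.singleton_append]
  congr 1
  refine congrArg (fun f => List.flatMap f (List.range L.length)) ?_
  funext i
  rw [List.map_flatMap]

lemma cl {w n m : ℕ} {s : Data} (h1 : s.reg 1 = n) (h2 : s.reg 2 = m) (hn : n < 2 ^ w) (hm : m < 2 ^ w)
    (hp : s.reg 17 + 2 * (m * n) + 2 < 2 ^ w) (hq : s.reg 18 + m * n + 1 < 2 ^ w) :
    HT w (forr 20 21 (.r 2) (forr 22 23 (.r 1) (recd [.r 22]))) s (m * (21 * n + 16) + 6)
      (fun t => App [20, 21, 22, 23] s t (Crec n m)) := by
  refine HT.forApp m (21 * n + 6) [20, 21, 22, 23] (fun _ => crec n) (fun _ _ => True)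
    (by decide) (by decide) (by decide) (by decide) (by decide) (by decide) (by decide) (by decide)
    (by decide) rfl (by decide) trivial h2 hm trivial ?_
    (by simp only [E.size]
        have : m * (21 * n + 6 + 10) = m * (21 * n + 16) := by ring
        omega)
    (fun t h _ => h)
  intro j hj s' hA _ h20 h21
  have hT2 := Two.flatMap (f := fun _ => crec n) (fun _ => crec_two n) j
  have hp1 := hA.ptr
  have hq1 := hA.cnt
  have hT21 := hT2.1
  have hT22 := hT2.2
  have hjm : j * n + n ≤ m * n := by
    rw [← Nat.succ_mul]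
    exact Nat.mul_le_mul_right _ hj
  have s1 : s'.reg 1 = n := (hA.reg 1 (by decide) (by decide) (by decide)).trans h1
  refine HT.forApp n 11 [22, 23] (fun x => [[x]]) (fun _ _ => True)
    (by decide) (by decide) (by decide) (by decide) (by decide) (by decide) (by decide) (by decide)
    (by decide) rfl (by decide) trivial s1 hn trivial ?_ (by simp only [E.size]; omega) ?_
  · intro k hk s2 hA2 _ h22 h23
    have hT3 := Two.flatMap (f := fun x => [[x]]) (M := 1) (fun x => ⟨le_rfl, by simp⟩) k
    have hp2 := hA2.ptr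
    have hq2 := hA2.cnt
    have hT31 := hT3.1
    have hT32 := hT3.2
    refine HT.recd ?_ (by simp only [List.length_cons, List.length_nil]; omega) (by omega) ?_ (by decide)
    · intro a ha
      rw [List.mem_singleton] at ha
      subst ha
      exact ⟨rfl, rfl, by decide, trivial⟩
    · intro t ht
      have : [E.r 22].map (E.val s2) = [k] := by
        simp only [List.map_cons, List.map_nil, E.val, h22]
      rw [this] at ht
      refine ⟨ht.wk (by simp), ?_, ?_, trivial⟩
      · rw [ht.reg 22 (by decide) (by decide) (by decide), h22]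
      · rw [ht.reg 23 (by decide) (by decide) (by decide), h23]
  · intro t ht _
    refine ⟨ht.wk (by decide), ?_, ?_, trivial⟩
    · rw [ht.reg 20 (by decide) (by decide) (by decide), h20]
    · rw [ht.reg 21 (by decide) (by decide) (by decide), h21]

/-! ### Numbers -/

lemma num (n m : ℕ) : n ≤ (n + m + 2) ^ 4 ∧ m ≤ (n + m + 2) ^ 4 ∧ m * n ≤ (n + m + 2) ^ 4 ∧
    m * n * m ≤ (n + m + 2) ^ 4 ∧ m * n * (m * n) ≤ (n + m + 2) ^ 4 ∧ 16 ≤ (n + m + 2) ^ 4 := by
  set B := n + m + 2 with hB
  have h1 : 1 ≤ B := by omega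
  have hn : n ≤ B := by omega
  have hm : m ≤ B := by omega
  have h2 : 2 ≤ B := by omega
  have hmn : m * n ≤ B * B := Nat.mul_le_mul hm hn
  have e1 : B ^ 4 = B * B * (B * B) := by ring
  have hBB : B ≤ B * B := Nat.le_mul_of_pos_left B h1
  have hBB4 : B * B ≤ B ^ 4 := by
    rw [e1]
    exact Nat.le_mul_of_pos_left _ (by positivity)
  refine ⟨hn.trans (hBB.trans hBB4), hm.trans (hBB.trans hBB4), hmn.trans hBB4, ?_, ?_, ?_⟩
  · rw [e1]
    exact Nat.mul_le_mul hmn (hm.trans hBB)
  · rw [e1]
    exact Nat.mul_le_mul hmn hmn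
  · calc 16 = 2 ^ 4 := by norm_num
      _ ≤ B ^ 4 := Nat.pow_le_pow_left h2 4

lemma pow20 (n m : ℕ) : 65536 * (n + m + 2) ^ 4 ≤ (n + m + 2) ^ 20 := by
  have h1 : 65536 ≤ (n + m + 2) ^ 16 := by
    calc 65536 = 2 ^ 16 := by norm_num
      _ ≤ (n + m + 2) ^ 16 := Nat.pow_le_pow_left (by omega) 16
  calc 65536 * (n + m + 2) ^ 4 ≤ (n + m + 2) ^ 16 * (n + m + 2) ^ 4 := Nat.mul_le_mul_right _ h1
    _ = (n + m + 2) ^ 20 := by ring

lemma big (n m : ℕ) : 4 * 2 ^ n + 1000 * (n + m + 2) ^ 4 < (2 ^ n * (n + m + 2)) ^ 20 := by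
  have h1 : 2 ^ n ≤ (2 ^ n) ^ 20 := Nat.le_self_pow (by norm_num) _
  have h2 := pow20 n m
  have h3 : 1 ≤ 2 ^ n := Nat.one_le_two_pow
  have h4 : 1 ≤ (n + m + 2) ^ 4 := Nat.one_le_pow _ _ (by omega)
  have h5 : 2 ^ n * (65536 * (n + m + 2) ^ 4) ≤ (2 ^ n * (n + m + 2)) ^ 20 := by
    rw [Nat.mul_pow]
    exact Nat.mul_le_mul h1 h2
  have h6 : 2 ^ n ≤ 2 ^ n * (n + m + 2) ^ 4 := Nat.le_mul_of_pos_right _ h4
  have h7 : (n + m + 2) ^ 4 ≤ 2 ^ n * (n + m + 2) ^ 4 := Nat.le_mul_of_pos_left _ h3
  have h8 : 2 ^ n * (65536 * (n + m + 2) ^ 4) = 65536 * (2 ^ n * (n + m + 2) ^ 4) := by ring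
  omega

lemma edges_le {n : ℕ} (L : List (Finset (Fin n))) :
    ((List.range L.length).flatMap (ex L)).length ≤ 3 * (n + L.length + 2) ^ 4 ∧
    ((List.range L.length).flatMap (ex L)).flatten.length ≤ 6 * (n + L.length + 2) ^ 4 := by
  have h1 := Two.flatMap (ex_two L) L.length
  obtain ⟨-, -, a3, -, a5, -⟩ := num n L.length
  have e1 : L.length * (n * (2 + L.length * n)) = 2 * (L.length * n) + L.length * n * (L.length * n) := by
    ring
  rw [e1] at h1
  have h2 := h1.1
  have h3 := h1.2
  constructor <;> omega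

lemma getD_enc {n k : ℕ} (L : List (Finset (Fin n))) {mem : ℕ → ℕ}
    (h : ∀ i (hi : i < ([n, L.length, k] ++ L.map mask).length), mem i = ([n, L.length, k] ++ L.map mask)[i]) :
    mem 0 = n ∧ mem 1 = L.length ∧ ∀ t < L.length, mem (3 + t) = mask (nth L t) := by
  refine ⟨h 0 (by simp), h 1 (by simp), fun t ht => ?_⟩
  rw [h (3 + t) (by simp only [List.length_append, List.length_map, List.length_cons, List.length_nil]; omega)]
  rw [List.getElem_append_right (by simp)]
  simp only [List.length_cons, List.length_nil, List.getElem_map]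
  unfold nth
  rw [List.getD_eq_getElem (hn := ht)]
  congr 2
  omega

lemma wr_append {t : Data} {a : ℕ} {l l' : List ℕ} (h : Wr t a l) (h' : Wr t (a + l.length) l') :
    Wr t a (l ++ l') := by
  intro i hi
  rw [List.length_append] at hi
  rcases Nat.lt_or_ge i l.length with h1 | h1
  · rw [List.getD_append _ _ _ _ h1]
    exact h i h1
  · rw [List.getD_append_right _ _ _ _ h1, ← h' (i - l.length) (by omega)]
    congr 1
    omega

lemma wr_congr {s t : Data} {a : ℕ} {l : List ℕ} (h : Wr s a l)
    (hm : ∀ b, a ≤ b → b < a + l.length → t.mem b = s.mem b) : Wr t a l := fun i hi => by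
  rw [hm (a + i) (by omega) (by omega)]
  exact h i hi

/-- the state before the edges are written -/
structure S2 {n : ℕ} (L : List (Finset (Fin n))) (t : Data) : Prop where
  r1 : t.reg 1 = n
  r2 : t.reg 2 = L.length
  r5 : t.reg 5 = L.length * n + 2
  r6 : t.reg 6 = L.length * n
  r7 : t.reg 7 = L.length * n + 1
  r15 : t.reg 15 = 3 + L.length
  r17 : t.reg 17 = 6 + L.length + (L.length * n + 2)
  inp : ∀ i < L.length, t.mem (3 + i) = mask (nth L i)
  col : Wr t (6 + L.length) ((Crec n L.length).flatten ++ [n, n + 1])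

/-- the first part of the program -/
lemma part1 {w n k : ℕ} {L : List (Finset (Fin n))} {mem : ℕ → ℕ} {p : Stmt} {T : ℕ} {Q : Data → Prop}
    (hbig : 4 * 2 ^ n + 1000 * (n + L.length + 2) ^ 4 < 2 ^ w)
    (hmem : ∀ i (hi : i < ([n, L.length, k] ++ L.map mask).length),
      mem i = ([n, L.length, k] ++ L.map mask)[i])
    (hp : ∀ t, S2 L t → t.reg 18 = L.length * n + 2 → HT w p t T Q) :
    HT w (Stmt.seq (set 1 (.ld (.c 0))) (Stmt.seq (set 2 (.ld (.c 1))) (Stmt.seq (set 15 (.add (.c 3) (.r 2)))
      (Stmt.seq (set 17 (.add (.r 15) (.c 3))) (Stmt.seq (set 18 (.c 0))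
      (Stmt.seq (forr 20 21 (.r 2) (forr 22 23 (.r 1) (recd [.r 22])))
      (Stmt.seq (set 6 (.r 18)) (Stmt.seq (recd [.r 1]) (Stmt.seq (recd [.add (.r 1) (.c 1)])
      (Stmt.seq (set 5 (.r 18)) (Stmt.seq (set 7 (.add (.r 6) (.c 1))) p))))))))))) ⟨fun _ => 0, mem⟩
      (3 + (3 + (4 + (4 + (2 + ((L.length * (21 * n + 16) + 6) + (2 + (11 + (13 + (2 + (4 + T))))))))))) Q := by
  obtain ⟨m0, m1, m3⟩ := getD_enc L hmem
  obtain ⟨k1, k2, k3, -, -, k6⟩ := num n L.length
  set K4 := (n + L.length + 2) ^ 4 with hK4
  have hpos : 0 < 2 ^ n := by positivity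
  refine HT.seq (R := fun t => t.reg 1 = n ∧ t.mem = mem)
    (HT.set (by omega) rfl (by decide) (by simp only [E.ok]; omega) ⟨?_, rfl⟩ (show 3 ≤ 3 by norm_num)) ?_ le_rfl
  · rw [upd_self]
    exact m0
  rintro t ⟨t1, tm⟩
  refine HT.seq (R := fun t => t.reg 1 = n ∧ t.reg 2 = L.length ∧ t.mem = mem)
    (HT.set (by omega) rfl (by decide) (by simp only [E.ok]; omega) ⟨?_, ?_, tm⟩ (show 3 ≤ 3 by norm_num)) ?_ le_rfl
  · rw [upd_ne _ _ (by decide), t1]
  · rw [upd_self]
    simp only [E.val, tm, m1]
  clear t1 tm t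
  rintro t ⟨t1, t2, tm⟩
  refine HT.seq (R := fun t => t.reg 1 = n ∧ t.reg 2 = L.length ∧ t.reg 15 = 3 + L.length ∧ t.mem = mem)
    (HT.set (by omega) rfl (by decide) ⟨?_, trivial, ?_⟩ ⟨?_, ?_, ?_, tm⟩ (show 4 ≤ 4 by norm_num)) ?_ le_rfl
  · simp only [E.ok]
    omega
  · simp only [E.val, t2]
    omega
  · rw [upd_ne _ _ (by decide), t1]
  · rw [upd_ne _ _ (by decide), t2]
  · rw [upd_self]
    simp only [E.val, t2]
  clear t1 t2 tm t
  rintro t ⟨t1, t2, t15, tm⟩
  refine HT.seq (R := fun t => t.reg 1 = n ∧ t.reg 2 = L.length ∧ t.reg 15 = 3 + L.length ∧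
      t.reg 17 = 6 + L.length ∧ t.mem = mem)
    (HT.set (by omega) rfl (by decide) ⟨trivial, ?_, ?_⟩ ⟨?_, ?_, ?_, ?_, tm⟩ (show 4 ≤ 4 by norm_num)) ?_ le_rfl
  · simp only [E.ok]
    omega
  · simp only [E.val, t15]
    omega
  · rw [upd_ne _ _ (by decide), t1]
  · rw [upd_ne _ _ (by decide), t2]
  · rw [upd_ne _ _ (by decide), t15]
  · rw [upd_self]
    simp only [E.val, t15]
    omega
  clear t1 t2 t15 tm t
  rintro t ⟨t1, t2, t15, t17, tm⟩
  refine HT.seq (R := fun t => t.reg 1 = n ∧ t.reg 2 = L.length ∧ t.reg 15 = 3 + L.length ∧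
      t.reg 17 = 6 + L.length ∧ t.reg 18 = 0 ∧ t.mem = mem)
    (HT.set (by omega) rfl (by decide) ?_ ⟨?_, ?_, ?_, ?_, ?_, tm⟩ (show 2 ≤ 2 by norm_num)) ?_ le_rfl
  · simp only [E.ok]
    omega
  · rw [upd_ne _ _ (by decide), t1]
  · rw [upd_ne _ _ (by decide), t2]
  · rw [upd_ne _ _ (by decide), t15]
  · rw [upd_ne _ _ (by decide), t17]
  · rw [upd_self]
    rfl
  clear t1 t2 t15 t17 tm t
  rintro s ⟨s1, s2, s15, s17, s18, sm⟩
  refine HT.seq (R := fun t => App [20, 21, 22, 23] s t (Crec n L.length))
    (cl s1 s2 (by omega) (by omega) (by omega) (by omega)) ?_ le_rfl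
  intro t hA
  have hlen := Crec_length n L.length
  have hflen : (Crec n L.length).flatten.length = L.length * n := by
    have := congrArg List.length (colours n L.length)
    simp only [List.length_map, List.length_range, List.length_append, List.length_cons,
      List.length_nil] at this
    omega
  have t18 : t.reg 18 = L.length * n := by
    rw [hA.cnt, s18, hlen, Nat.zero_add]
  have t17 : t.reg 17 = 6 + L.length + L.length * n := by
    rw [hA.ptr, s17, hflen]
  -- set 6
  refine HT.seq (R := fun u => u = upd t 6 (L.length * n))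
    (HT.set (by omega) rfl (by decide) trivial ?_ (show 2 ≤ 2 by norm_num)) ?_ le_rfl
  · simp only [E.val, t18]
  rintro _ rfl
  set t6 := upd t 6 (L.length * n) with ht6
  have a1 : t6.reg 1 = n := by
    rw [ht6, upd_ne _ _ (by decide), hA.reg 1 (by decide) (by decide) (by decide), s1]
  have a17 : t6.reg 17 = 6 + L.length + L.length * n := by
    rw [ht6, upd_ne _ _ (by decide), t17]
  have a18 : t6.reg 18 = L.length * n := by
    rw [ht6, upd_ne _ _ (by decide), t18]
  refine HT.seq (R := fun u => App [] t6 u [[n]]) (T1 := 11) ?_ ?_ le_rfl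
  · refine HT.recd ?_ (by rw [a17]; simp only [List.length_cons, List.length_nil]; omega)
      (by rw [a18]; omega) ?_ (by decide)
    · intro a ha
      rw [List.mem_singleton] at ha
      subst ha
      exact ⟨rfl, rfl, by decide, trivial⟩
    · intro u hu
      have : [E.r 1].map (E.val t6) = [n] := by
        simp only [List.map_cons, List.map_nil, E.val, a1]
      rw [this] at hu
      exact hu
  intro u hu
  have b1 : u.reg 1 = n := by rw [hu.reg 1 (by decide) (by decide) (by decide), a1]
  have b17 : u.reg 17 = 6 + L.length + L.length * n + 1 := by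
    rw [hu.ptr, a17]
    rfl
  have b18 : u.reg 18 = L.length * n + 1 := by
    rw [hu.cnt, a18]
    rfl
  refine HT.seq (R := fun v => App [] u v [[n + 1]]) (T1 := 13) ?_ ?_ le_rfl
  · refine HT.recd ?_ (by rw [b17]; simp only [List.length_cons, List.length_nil]; omega)
      (by rw [b18]; omega) ?_ (by decide)
    · intro a ha
      rw [List.mem_singleton] at ha
      subst ha
      refine ⟨rfl, rfl, by decide, trivial, ?_, ?_⟩
      · simp only [E.ok]
        omega
      · simp only [E.val, b1]
        omega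
    · intro v hv
      have : [E.add (.r 1) (.c 1)].map (E.val u) = [n + 1] := by
        simp only [List.map_cons, List.map_nil, E.val, b1]
      rw [this] at hv
      exact hv
  intro v hv
  have hAll : App [6, 20, 21, 22, 23] s v (Crec n L.length ++ ([[n]] ++ [[n + 1]])) := by
    have h1 : App [6, 20, 21, 22, 23] s t (Crec n L.length) := hA.wk (by decide)
    have h2 : App [6, 20, 21, 22, 23] s t6 (Crec n L.length) :=
      h1.upd _ (by decide) (by decide) (by decide)
    exact h2.trans ((hu.wk (by simp)).trans (hv.wk (by simp)))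
  have c18 : v.reg 18 = L.length * n + 2 := by
    rw [hv.cnt, b18]
    rfl
  have c17 : v.reg 17 = 6 + L.length + (L.length * n + 2) := by
    rw [hv.ptr, b17]
    rfl
  have c6 : v.reg 6 = L.length * n := by
    rw [hv.reg 6 (by decide) (by decide) (by decide), hu.reg 6 (by decide) (by decide) (by decide),
      ht6, upd_self]
  refine HT.seq (R := fun x => x = upd v 5 (L.length * n + 2))
    (HT.set (by omega) rfl (by decide) trivial ?_ (show 2 ≤ 2 by norm_num)) ?_ le_rfl
  · simp only [E.val, c18]
  rintro _ rfl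
  refine HT.seq (R := fun x => x = upd (upd v 5 (L.length * n + 2)) 7 (L.length * n + 1))
    (HT.set (by omega) rfl (by decide) ⟨trivial, ?_, ?_⟩ ?_ (show 4 ≤ 4 by norm_num)) ?_ le_rfl
  · simp only [E.ok]
    omega
  · simp only [E.val]
    rw [upd_ne _ _ (by decide), c6]
    omega
  · simp only [E.val]
    rw [upd_ne _ _ (by decide : (6 : ℕ) ≠ 5), c6]
  rintro _ rfl
  set z := upd (upd v 5 (L.length * n + 2)) 7 (L.length * n + 1) with hz
  refine hp z ?_ (by rw [hz, upd_ne _ _ (by decide), upd_ne _ _ (by decide), c18])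
  constructor
  · rw [hz, upd_ne _ _ (by decide), upd_ne _ _ (by decide),
      hAll.reg 1 (by decide) (by decide) (by decide), s1]
  · rw [hz, upd_ne _ _ (by decide), upd_ne _ _ (by decide),
      hAll.reg 2 (by decide) (by decide) (by decide), s2]
  · rw [hz, upd_ne _ _ (by decide), upd_self]
  · rw [hz, upd_ne _ _ (by decide), upd_ne _ _ (by decide), c6]
  · rw [hz, upd_self]
  · rw [hz, upd_ne _ _ (by decide), upd_ne _ _ (by decide),
      hAll.reg 15 (by decide) (by decide) (by decide), s15]
  · rw [hz, upd_ne _ _ (by decide), upd_ne _ _ (by decide), c17]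
  · intro i hi
    change v.mem (3 + i) = _
    rw [hAll.old _ (by rw [s17]; omega), sm]
    exact m3 i hi
  · have h1 : Wr v (s.reg 17) (Crec n L.length ++ ([[n]] ++ [[n + 1]])).flatten := hAll.new
    rw [s17] at h1
    have h2 : (Crec n L.length ++ ([[n]] ++ [[n + 1]])).flatten = (Crec n L.length).flatten ++ [n, n + 1] := by
      rw [List.flatten_append]
      rfl
    rw [h2] at h1
    exact h1

end P4x

open P4x in
/-- Row P4. -/
theorem p4 : P4 := by
  intro hok hM
  refine ⟨20, ?_⟩
  have hlenE : ∀ {n : ℕ} (L : List (Finset (Fin n))), (edges4 L).length =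
      1 + ((List.range L.length).flatMap (ex L)).length := by
    intro n L
    have := congrArg List.length (edges4_map L)
    rw [List.length_map, List.length_append] at this
    exact this
  have hflat : ∀ {n : ℕ} (L : List (Finset (Fin n))), ((edges4 L).flatMap fun e => [e.1, e.2]) =
      [L.length * n, L.length * n + 1] ++ ((List.range L.length).flatMap (ex L)).flatten := by
    intro n L
    have h1 : ((edges4 L).flatMap fun e => [e.1, e.2]) = ((edges4 L).map pr).flatten := by
      rw [List.flatMap_def]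
      rfl
    rw [h1, edges4_map, List.flatten_append]
    rfl
  constructor
  · rintro ⟨n, k, L, hL⟩
    change n + 2 ≤ n + 20
    omega
  · rintro ⟨n, k, L, hL⟩
    change L.length * n + 2 + (edges4 L).length ≤ (n + L.length + 2) ^ 20
    rw [hlenE L]
    obtain ⟨-, -, k3, -, -, k6⟩ := num n L.length
    have h1 := (edges_le L).1
    have h2 := pow20 n L.length
    omega
  · rintro ⟨n, k, L, hL⟩
    change ([n + 2, L.length * n + 2, (edges4 L).length] ++ ((List.range (L.length * n + 2)).map
      (col4 n L.length) ++ (edges4 L).flatMap fun e => [e.1, e.2])).length ≤ (n + L.length + 2) ^ 20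
    rw [hflat L]
    simp only [List.length_append, List.length_map, List.length_range, List.length_cons, List.length_nil]
    obtain ⟨-, -, k3, -, -, k6⟩ := num n L.length
    have h1 := (edges_le L).2
    have h2 := pow20 n L.length
    omega
  · rintro ⟨n, k, L, hL⟩ v hv
    change v ∈ ([n + 2, L.length * n + 2, (edges4 L).length] ++ ((List.range (L.length * n + 2)).map
      (col4 n L.length) ++ (edges4 L).flatMap fun e => [e.1, e.2])) at hv
    change v < (2 ^ n * (n + L.length + 2)) ^ 20
    obtain ⟨k1, k2, k3, -, -, k6⟩ := num n L.length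
    have h1 := (edges_le L).1
    have h2 := big n L.length
    have h3 := hlenE L
    obtain ⟨o1, o2⟩ := hok n L
    simp only [List.mem_append, List.mem_cons, List.not_mem_nil, or_false, List.mem_map, List.mem_range,
      List.mem_flatMap] at hv
    rcases hv with (rfl | rfl | rfl) | ⟨a, ha, rfl⟩ | ⟨e, he, rfl | rfl⟩
    · omega
    · omega
    · omega
    · have := o1 a ha
      omega
    · have := (o2 e he).1
      omega
    · have := (o2 e he).2
      omega
  · exact hM hok
  · rintro ⟨n, k, L, hL⟩ w mem hw hmw hmem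
    change HT w g4 ⟨fun _ => 0, mem⟩ ((n + L.length + 2) ^ 20) (fun t => t.reg 1 = n ∧ t.reg 2 = L.length ∧
      t.reg 15 ≤ (n + L.length + 2) ^ 20 ∧ Wr t (t.reg 15)
        ([n + 2, L.length * n + 2, (edges4 L).length] ++ ((List.range (L.length * n + 2)).map
          (col4 n L.length) ++ (edges4 L).flatMap fun e => [e.1, e.2])))
    have hbig : 4 * 2 ^ n + 1000 * (n + L.length + 2) ^ 4 < 2 ^ w := lt_of_lt_of_le (big n L.length) hw
    have hmem' : ∀ i (hi : i < ([n, L.length, k] ++ L.map mask).length),
      mem i = ([n, L.length, k] ++ L.map mask)[i] := hmem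
    obtain ⟨k1, k2, k3, k4, k5, k6⟩ := num n L.length
    have hE := edges_le L
    have hpow := pow20 n L.length
    rw [hflat L, colours, hlenE L]
    set m := L.length with hm
    set K4 := (n + m + 2) ^ 4 with hK4
    set Es := (List.range m).flatMap (ex L) with hEs
    have hE1 := hE.1
    have hE2 := hE.2
    have hpos : 0 < 2 ^ n := by positivity
    have hW : 4 * 2 ^ n + m * n + n + m + 10 < 2 ^ w := by omega
    have e1 : m * (n * (2 + m * n)) = 2 * (m * n) + m * n * (m * n) := by ring
    -- the time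
    refine HT.mono (part1 (T := 2 + (18 + (2 + ((m * (27 + n * (83 + m * (77 * n + 27))) + 6) +
      (5 + (5 + (5 + 0))))))) hbig hmem' (fun s hs s18 => ?_)) ?_ (fun _ h => h)
    swap
    · have e2 : m * (21 * n + 16) = 21 * (m * n) + 16 * m := by ring
      have e3 : m * (27 + n * (83 + m * (77 * n + 27))) = 27 * m + 83 * (m * n) +
        77 * (m * n * (m * n)) + 27 * (m * n * m) := by ring
      rw [← hm, e2, e3]
      omega
    have hs15 := hs.r15
    have hs17 := hs.r17
    rw [← hm] at hs15 hs17
    -- set 18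
    refine HT.seq (R := fun u => u = upd s 18 0)
      (HT.set (by omega) rfl (by decide) (by simp only [E.ok]; omega) rfl (show 2 ≤ 2 by norm_num)) ?_ le_rfl
    rintro _ rfl
    set s1 := upd s 18 0 with hs1
    have a6 : s1.reg 6 = m * n := by rw [hs1, upd_ne _ _ (by decide)]; exact hs.r6
    have a7 : s1.reg 7 = m * n + 1 := by rw [hs1, upd_ne _ _ (by decide)]; exact hs.r7
    have a17 : s1.reg 17 = 6 + m + (m * n + 2) := by rw [hs1, upd_ne _ _ (by decide)]; exact hs17
    have a18 : s1.reg 18 = 0 := by rw [hs1, upd_self]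
    refine HT.seq (R := fun u => App [] s1 u [pr (m * n, m * n + 1)]) (T1 := 18) ?_ ?_ le_rfl
    · refine HT.recd ?_ (by rw [a17]; simp only [List.length_cons, List.length_nil]; omega)
        (by rw [a18]; omega) ?_ (by decide)
      · intro a ha
        simp only [List.mem_cons, List.not_mem_nil, or_false] at ha
        rcases ha with rfl | rfl
        · exact ⟨rfl, rfl, by decide, trivial⟩
        · exact ⟨rfl, rfl, by decide, trivial⟩
      · intro u hu
        have : [E.r 6, E.r 7].map (E.val s1) = pr (m * n, m * n + 1) := by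
          simp only [List.map_cons, List.map_nil, E.val, a6, a7, pr]
        rw [this] at hu
        exact hu
    intro s2 hs2
    -- set 8
    refine HT.seq (R := fun u => u = upd s2 8 0)
      (HT.set (by omega) rfl (by decide) (by simp only [E.ok]; omega) rfl (show 2 ≤ 2 by norm_num)) ?_ le_rfl
    rintro _ rfl
    have b17 : s2.reg 17 = 6 + m + (m * n + 2) + 2 := by
      rw [hs2.ptr, a17]
      rfl
    have b18 : s2.reg 18 = 1 := by
      rw [hs2.cnt, a18]
      rfl
    set s3 := upd s2 8 0 with hs3
    have c17 : s3.reg 17 = 6 + m + (m * n + 2) + 2 := by rw [hs3, upd_ne _ _ (by decide), b17]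
    have c18 : s3.reg 18 = 1 := by rw [hs3, upd_ne _ _ (by decide), b18]
    have hreg : ∀ r, r ≠ 8 → r ≠ 17 → r ≠ 18 → s3.reg r = s.reg r := by
      intro r h1 h2 h3
      rw [hs3, upd_ne _ _ h1, hs2.reg r (by simp) h2 h3, hs1, upd_ne _ _ h3]
    have hcz : Cz L s3 := by
      constructor
      · rw [hreg 1 (by decide) (by decide) (by decide)]; exact hs.r1
      · rw [hreg 2 (by decide) (by decide) (by decide)]; exact hs.r2
      · rw [hreg 6 (by decide) (by decide) (by decide)]; exact hs.r6
      · rw [hreg 7 (by decide) (by decide) (by decide)]; exact hs.r7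
      · intro i hi
        change s2.mem (3 + i) = _
        rw [hs2.old _ (by rw [a17]; omega)]
        exact hs.inp i hi
      · rw [c17]
        omega
    refine HT.seq (R := fun u => App Fi s3 u Es) (T1 := m * (27 + n * (83 + m * (77 * n + 27))) + 6)
      (il rfl hcz (by rw [hs3, upd_self]) hW (by rw [c17, e1]; omega) (by rw [c18, e1]; omega)) ?_ le_rfl
    intro t ht
    have t15 : t.reg 15 = 3 + m := by
      rw [ht.reg 15 (by decide) (by decide) (by decide), hreg 15 (by decide) (by decide) (by decide), hs15]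
    have t1 : t.reg 1 = n := by
      rw [ht.reg 1 (by decide) (by decide) (by decide), hreg 1 (by decide) (by decide) (by decide), hs.r1]
    have t2 : t.reg 2 = m := by
      rw [ht.reg 2 (by decide) (by decide) (by decide), hreg 2 (by decide) (by decide) (by decide), hs.r2]
    have t5 : t.reg 5 = m * n + 2 := by
      rw [ht.reg 5 (by decide) (by decide) (by decide), hreg 5 (by decide) (by decide) (by decide), hs.r5]
    have t18 : t.reg 18 = 1 + Es.length := by
      rw [ht.cnt, c18]
    -- the three words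
    refine HT.seq (R := fun u => u = updm t (3 + m) (n + 2)) (T1 := 5)
      (HT.sto rfl (by decide) trivial rfl (by decide) ⟨trivial, ?_, ?_⟩ ?_ (by decide)) ?_ le_rfl
    · simp only [E.ok]
      omega
    · simp only [E.val, t1]
      omega
    · simp only [E.val, t1, t15]
    rintro _ rfl
    refine HT.seq (R := fun u => u = updm (updm t (3 + m) (n + 2)) (3 + m + 1) (m * n + 2)) (T1 := 5)
      (HT.sto rfl (by decide) ⟨trivial, ?_, ?_⟩ rfl (by decide) trivial ?_ (by decide)) ?_ le_rfl
    · simp only [E.ok]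
      omega
    · simp only [E.val, updm_reg, t15]
      omega
    · simp only [E.val, updm_reg, t15, t5]
    rintro _ rfl
    refine HT.seq (R := fun u => u = updm (updm (updm t (3 + m) (n + 2)) (3 + m + 1) (m * n + 2))
      (3 + m + 2) (1 + Es.length)) (T1 := 5)
      (HT.sto rfl (by decide) ⟨trivial, ?_, ?_⟩ rfl (by decide) trivial ?_ (by decide)) ?_ le_rfl
    · simp only [E.ok]
      omega
    · simp only [E.val, updm_reg, t15]
      omega
    · simp only [E.val, updm_reg, t15, t18]
    rintro _ rfl
    set z := updm (updm (updm t (3 + m) (n + 2)) (3 + m + 1) (m * n + 2)) (3 + m + 2) (1 + Es.length) with hz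
    have hzm : ∀ b, 6 + m ≤ b → z.mem b = t.mem b := by
      intro b hb
      rw [hz, updm_ne _ _ (by omega), updm_ne _ _ (by omega), updm_ne _ _ (by omega)]
    refine HT.skip ⟨t1, t2, ?_, ?_⟩
    · change t.reg 15 ≤ _
      rw [t15]
      omega
    change Wr z (t.reg 15) _
    rw [t15]
    have hcol : Wr t (6 + m) ((Crec n m).flatten ++ [n, n + 1]) := by
      have h1 : Wr s (6 + m) ((Crec n m).flatten ++ [n, n + 1]) := hs.col
      have hlen : ((Crec n m).flatten ++ [n, n + 1]).length = m * n + 2 := by
        rw [← colours, List.length_map, List.length_range]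
      refine wr_congr h1 fun b _ hb2 => ?_
      rw [hlen] at hb2
      rw [ht.old _ (by rw [c17]; omega)]
      change s2.mem b = _
      rw [hs2.old _ (by rw [a17]; omega)]
      rfl
    have hlen : ((Crec n m).flatten ++ [n, n + 1]).length = m * n + 2 := by
      rw [← colours, List.length_map, List.length_range]
    have he1 : Wr t (6 + m + (m * n + 2)) [m * n, m * n + 1] := by
      have h1 : Wr s2 (s1.reg 17) ([pr (m * n, m * n + 1)] : List (List ℕ)).flatten := hs2.new
      rw [a17] at h1
      have h2 : Wr s2 (6 + m + (m * n + 2)) [m * n, m * n + 1] := h1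
      refine wr_congr h2 fun b _ hb2 => ?_
      simp only [List.length_cons, List.length_nil] at hb2
      rw [ht.old _ (by rw [c17]; omega)]
      rfl
    have he2 : Wr t (6 + m + (m * n + 2) + 2) Es.flatten := by
      have h1 : Wr t (s3.reg 17) Es.flatten := ht.new
      rwa [c17] at h1
    refine wr_append ?_ (wr_append ?_ (wr_append ?_ ?_))
    · intro i hi
      simp only [List.length_cons, List.length_nil] at hi
      have hi' : i = 0 ∨ i = 1 ∨ i = 2 := by omega
      rcases hi' with rfl | rfl | rfl
      · rw [Nat.add_zero, hz, updm_ne _ _ (by omega), updm_ne _ _ (by omega), updm_self]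
        rfl
      · rw [hz, updm_ne _ _ (by omega), updm_self]
        rfl
      · rw [hz, updm_self]
        rfl
    · have h1 : Wr z (6 + m) ((Crec n m).flatten ++ [n, n + 1]) := wr_congr hcol fun b hb _ => hzm b hb
      have e : 3 + m + [n + 2, m * n + 2, 1 + Es.length].length = 6 + m := by
        simp only [List.length_cons, List.length_nil]
        omega
      rw [e]
      exact h1
    · have h1 : Wr z (6 + m + (m * n + 2)) [m * n, m * n + 1] := wr_congr he1 fun b hb _ => hzm b (by omega)
      have e : 3 + m + [n + 2, m * n + 2, 1 + Es.length].length +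
          ((Crec n m).flatten ++ [n, n + 1]).length = 6 + m + (m * n + 2) := by
        rw [hlen]
        simp only [List.length_cons, List.length_nil]
        omega
      rw [e]
      exact h1
    · have h1 : Wr z (6 + m + (m * n + 2) + 2) Es.flatten := wr_congr he2 fun b hb _ => hzm b (by omega)
      have e : 3 + m + [n + 2, m * n + 2, 1 + Es.length].length +
          ((Crec n m).flatten ++ [n, n + 1]).length + [m * n, m * n + 1].length =
          6 + m + (m * n + 2) + 2 := by
        rw [hlen]
        simp only [List.length_cons, List.length_nil]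
        omega
      rw [e]
      exact h1

end SCM
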