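import Pool.Agent.Lib.SCM.Progs2
import Pool.Agent.Lib.SCM.P4

/-!
# Row P6: Set Cover with parameter `n + k` → Graph Motif, the program.  (helper21)
-/

set_option autoImplicit false

namespace SCM

open SCR SCN

namespace P6x

open P4x

open Classical in
/-- the edge to the leaf `x` of the set `S` -/
noncomputable def el {n : ℕ} (k : ℕ) (L : List (Finset (Fin n))) (i S x : ℕ) : List (ℕ × ℕ) :=
  if inn (nth L S) x then [(1 + i * (L.length + 1) + S, 1 + k * (L.length + 1) + S * n + x)] else []

lemma el_two {n : ℕ} (k : ℕ) (L : List (Finset (Fin n))) (i S x : ℕ) : Two ((el k L i S x).map pr) 1 := by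
  unfold el
  split_ifs
  · exact Two.pr _
  · exact Two.nil _

/-- the records of the set `S` -/
noncomputable def es {n : ℕ} (k : ℕ) (L : List (Finset (Fin n))) (i S : ℕ) : List (List ℕ) :=
  [pr (0, 1 + i * (L.length + 1) + S)] ++ (List.range n).flatMap fun x => (el k L i S x).map pr

lemma es_two {n : ℕ} (k : ℕ) (L : List (Finset (Fin n))) (i S : ℕ) : Two (es k L i S) (1 + n) := by
  have h := Two.flatMap (f := fun x => (el k L i S x).map pr) (el_two k L i S) n
  rw [Nat.mul_one] at h
  exact (Two.pr _).append h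

/-- the records of the choice `i` -/
noncomputable def eI {n : ℕ} (k : ℕ) (L : List (Finset (Fin n))) (i : ℕ) : List (List ℕ) :=
  (List.range L.length).flatMap (es k L i) ++ [pr (0, 1 + i * (L.length + 1) + L.length)]

lemma eI_two {n : ℕ} (k : ℕ) (L : List (Finset (Fin n))) (i : ℕ) :
    Two (eI k L i) (L.length * (1 + n) + 1) :=
  (Two.flatMap (es_two k L i) L.length).append (Two.pr _)

lemma edges6_map {n : ℕ} (k : ℕ) (L : List (Finset (Fin n))) :
    (edges6 k L).map pr = (List.range k).flatMap (eI k L) := by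
  unfold edges6
  rw [List.map_flatMap]
  refine congrArg (fun f => List.flatMap f (List.range k)) ?_
  funext i
  rw [List.map_append, List.map_flatMap]
  unfold eI
  congr 1
  refine congrArg (fun f => List.flatMap f (List.range L.length)) ?_
  funext S
  rw [List.map_cons, List.map_flatMap]
  unfold es
  rw [List.singleton_append]
  rfl

/-- the program for the leaves -/
def lp : Stmt := forr 24 25 (.r 3) (blk [
        cond (.and (.r 10) (.r 11)) (recd [.r 8, .r 9]) .skip,
        set 9 (.add (.r 9) (.c 1)), set 11 (.add (.r 11) (.r 11))])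

lemma lfl {w n m k i S : ℕ} {L : List (Finset (Fin n))} {s : Data} (hm : m = L.length) (h3 : s.reg 3 = n)
    (h8 : s.reg 8 = 1 + i * (m + 1) + S) (h9 : s.reg 9 = 1 + k * (m + 1) + S * n)
    (h10 : s.reg 10 = mask (nth L S)) (h11 : s.reg 11 = 1) (hS : S < m)
    (hW : 4 * 2 ^ n + (1 + k * (m + 1) + m * n) + n + m + k + 10 < 2 ^ w)
    (hp : s.reg 17 + 2 * n + 2 < 2 ^ w) (hq : s.reg 18 + n + 1 < 2 ^ w) :
    HT w lp s (41 * n + 6) (fun t => App [9, 11, 24, 25] s t
      ((List.range n).flatMap fun x => (el k L i S x).map pr) ∧ t.reg 9 = 1 + k * (m + 1) + S * n + n) := by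
  have hSn : S * n + n ≤ m * n := by
    rw [← Nat.succ_mul]
    exact Nat.mul_le_mul_right _ hS
  refine HT.forApp n 31 [9, 11, 24, 25] (fun x => (el k L i S x).map pr)
    (fun j t => t.reg 9 = 1 + k * (m + 1) + S * n + j ∧ t.reg 11 = 2 ^ j)
    (by decide) (by decide) (by decide) (by decide) (by decide) (by decide) (by decide) (by decide)
    (by decide) rfl (by decide) trivial h3 (by omega) ?_ ?_ (by simp only [E.size]; omega)
    (fun t h h' => ⟨h, h'.1⟩)
  · constructor
    · rw [upd_ne _ _ (by decide), upd_ne _ _ (by decide), h9]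
      rfl
    · rw [upd_ne _ _ (by decide), upd_ne _ _ (by decide), h11, Nat.pow_zero]
  · rintro j hj s' hA ⟨h9', h11'⟩ h24 h25
    have hT2 := Two.flatMap (f := fun x => (el k L i S x).map pr) (el_two k L i S) j
    have hp1 := hA.ptr
    have hq1 := hA.cnt
    have hT21 := hT2.1
    have hT22 := hT2.2
    have s8 : s'.reg 8 = 1 + i * (m + 1) + S := (hA.reg 8 (by decide) (by decide) (by decide)).trans h8
    have s10 : s'.reg 10 = mask (nth L S) := (hA.reg 10 (by decide) (by decide) (by decide)).trans h10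
    refine HT.seq (R := fun t => App [] s' t ((el k L i S j).map pr)) (T1 := 23) (T2 := 8) ?_ ?_ (by omega)
    · have hv : (E.and (.r 10) (.r 11)).val s' = mask (nth L S) &&& 2 ^ j := by
        simp only [E.val, s10, h11']
      refine HT.cond (T1 := 18) rfl (by decide) ⟨trivial, trivial⟩ (fun hne => ?_) (fun he => ?_) (by decide)
      · rw [hv, bit_iff] at hne
        have e : (el k L i S j).map pr = [pr (1 + i * (m + 1) + S, 1 + k * (m + 1) + S * n + j)] := by
          unfold el
          rw [if_pos hne, ← hm]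
          rfl
        rw [e]
        refine HT.recd ?_ (by simp only [List.length_cons, List.length_nil]; omega) (by omega) ?_ (by decide)
        · intro a ha
          simp only [List.mem_cons, List.not_mem_nil, or_false] at ha
          rcases ha with rfl | rfl
          · exact ⟨rfl, rfl, by decide, trivial⟩
          · exact ⟨rfl, rfl, by decide, trivial⟩
        · intro t ht
          have : [E.r 8, E.r 9].map (E.val s') = pr (1 + i * (m + 1) + S, 1 + k * (m + 1) + S * n + j) := by
            simp only [List.map_cons, List.map_nil, E.val, s8, h9', pr]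
          rw [this] at ht
          exact ht
      · rw [hv] at he
        have e : el k L i S j = [] := by
          unfold el
          rw [if_neg]
          intro h
          rw [← bit_iff] at h
          exact h he
        rw [e]
        exact HT.skip (App.refl _ _)
    intro t ht
    have t9 : t.reg 9 = 1 + k * (m + 1) + S * n + j := (ht.reg 9 (by decide) (by decide) (by decide)).trans h9'
    have t11 : t.reg 11 = 2 ^ j := (ht.reg 11 (by decide) (by decide) (by decide)).trans h11'
    have hjn : 2 ^ (j + 1) ≤ 2 ^ n := Nat.pow_le_pow_right (by norm_num) hj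
    have hdd : 2 ^ j + 2 ^ j = 2 ^ (j + 1) := by rw [Nat.pow_succ]; ring
    refine HT.seq (R := fun u => u = upd t 9 (1 + k * (m + 1) + S * n + (j + 1))) (T1 := 4) (T2 := 4)
      (HT.set (by omega) rfl (by decide) ⟨trivial, ?_, ?_⟩ ?_ (by decide)) ?_ (by omega)
    · simp only [E.ok]
      omega
    · simp only [E.val, t9]
      omega
    · simp only [E.val, t9]
      rfl
    rintro _ rfl
    refine HT.seq (R := fun u => u = upd (upd t 9 (1 + k * (m + 1) + S * n + (j + 1))) 11 (2 ^ (j + 1)))
      (T1 := 4) (T2 := 0)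
      (HT.set (by omega) rfl (by decide) ⟨trivial, trivial, ?_⟩ ?_ (by decide)) ?_ (by omega)
    · simp only [E.val]
      rw [upd_ne _ _ (by decide), t11]
      omega
    · simp only [E.val]
      rw [upd_ne _ _ (by decide : (11 : ℕ) ≠ 9), t11, hdd]
    rintro _ rfl
    refine HT.skip ⟨((ht.wk (by simp)).upd _ (by decide) (by decide) (by decide)).upd _ (by decide) (by decide)
      (by decide), ?_, ?_, ?_, ?_⟩
    · rw [upd_ne _ _ (by decide), upd_ne _ _ (by decide), ht.reg 24 (by decide) (by decide) (by decide), h24]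
    · rw [upd_ne _ _ (by decide), upd_ne _ _ (by decide), ht.reg 25 (by decide) (by decide) (by decide), h25]
    · rw [upd_ne _ _ (by decide), upd_ne _ _ (by decide), upd_ne _ _ (by decide), upd_self]
    · rw [upd_ne _ _ (by decide), upd_ne _ _ (by decide), upd_self]

/-- the state during the loop over `S` -/
structure Ca {n : ℕ} (L : List (Finset (Fin n))) (k : ℕ) (s : Data) : Prop where
  r2 : s.reg 2 = L.length
  r3 : s.reg 3 = n
  r7 : s.reg 7 = 1 + k * (L.length + 1)
  inp : ∀ t < L.length, s.mem (3 + t) = mask (nth L t)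
  ptr : 3 + L.length ≤ s.reg 17

lemma Ca.app {n k : ℕ} {L : List (Finset (Fin n))} {F : List ℕ} {s t : Data} {R : List (List ℕ)}
    (h : Ca L k s) (hA : App F s t R) (hF : ∀ r ∈ [2, 3, 7], r ∉ F) : Ca L k t where
  r2 := (hA.reg 2 (hF 2 (by simp)) (by decide) (by decide)).trans h.r2
  r3 := (hA.reg 3 (hF 3 (by simp)) (by decide) (by decide)).trans h.r3
  r7 := (hA.reg 7 (hF 7 (by simp)) (by decide) (by decide)).trans h.r7
  inp := fun i hi => by
    have := h.ptr
    rw [hA.old _ (by omega)]
    exact h.inp i hi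
  ptr := by
    have := h.ptr
    have := hA.ptr
    omega

/-- the program for the sets -/
def sp : Stmt := forr 22 23 (.r 2) (blk [
      recd [.c 0, .r 8],
      set 10 (.ld (.add (.c 3) (.r 22))), set 11 (.c 1), lp,
      set 8 (.add (.r 8) (.c 1))])

/-- one record with the root -/
lemma rt {w v : ℕ} {s : Data} (h8 : s.reg 8 = v) (hw : 1 < 2 ^ w) (hp : s.reg 17 + 2 < 2 ^ w)
    (hq : s.reg 18 + 1 < 2 ^ w) : HT w (recd [.c 0, .r 8]) s 18 (fun t => App [] s t [pr (0, v)]) := by
  refine HT.recd ?_ (by simp only [List.length_cons, List.length_nil]; omega) (by omega) ?_ (by decide)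
  · intro a ha
    simp only [List.mem_cons, List.not_mem_nil, or_false] at ha
    rcases ha with rfl | rfl
    · refine ⟨rfl, rfl, by decide, ?_⟩
      simp only [E.ok]
      omega
    · exact ⟨rfl, rfl, by decide, trivial⟩
  · intro t ht
    have : [E.c 0, E.r 8].map (E.val s) = pr (0, v) := by
      simp only [List.map_cons, List.map_nil, E.val, h8, pr]
    rw [this] at ht
    exact ht

lemma sl {w n m k i : ℕ} {L : List (Finset (Fin n))} {s : Data} (hm : m = L.length) (hc : Ca L k s)
    (h8 : s.reg 8 = 1 + i * (m + 1)) (h9 : s.reg 9 = 1 + k * (m + 1)) (hi : i < k)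
    (hW : 4 * 2 ^ n + (1 + k * (m + 1) + m * n) + n + m + k + 10 < 2 ^ w)
    (hp : s.reg 17 + 2 * (m * (1 + n)) + 2 < 2 ^ w) (hq : s.reg 18 + m * (1 + n) + 1 < 2 ^ w) :
    HT w sp s (m * (41 * n + 45) + 6) (fun t => App [8, 9, 10, 11, 22, 23, 24, 25] s t
      ((List.range m).flatMap (es k L i)) ∧ t.reg 8 = 1 + i * (m + 1) + m) := by
  have him : i * (m + 1) + (m + 1) ≤ k * (m + 1) := by
    rw [← Nat.succ_mul]
    exact Nat.mul_le_mul_right _ hi
  refine HT.forApp m (41 * n + 35) [8, 9, 10, 11, 22, 23, 24, 25] (es k L i)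
    (fun j t => t.reg 8 = 1 + i * (m + 1) + j ∧ t.reg 9 = 1 + k * (m + 1) + j * n)
    (by decide) (by decide) (by decide) (by decide) (by decide) (by decide) (by decide) (by decide)
    (by decide) rfl (by decide) trivial (hc.r2.trans hm.symm) (by omega) ?_ ?_
    (by simp only [E.size]
        have : m * (41 * n + 35 + 10) = m * (41 * n + 45) := by ring
        omega)
    (fun t h h' => ⟨h, h'.1⟩)
  · constructor
    · rw [upd_ne _ _ (by decide), upd_ne _ _ (by decide), h8]
      rfl
    · rw [upd_ne _ _ (by decide), upd_ne _ _ (by decide), h9, Nat.zero_mul]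
      rfl
  · rintro j hj s' hA ⟨h8', h9'⟩ h22 h23
    have hc' := hc.app hA (by decide)
    have hT2 := Two.flatMap (f := es k L i) (es_two k L i) j
    have hp1 := hA.ptr
    have hq1 := hA.cnt
    have hT21 := hT2.1
    have hT22 := hT2.2
    have hjm : j * (1 + n) + (1 + n) ≤ m * (1 + n) := by
      rw [← Nat.succ_mul]
      exact Nat.mul_le_mul_right _ hj
    have hjm' : j * n + n ≤ m * n := by
      rw [← Nat.succ_mul]
      exact Nat.mul_le_mul_right _ hj
    refine HT.seq (R := fun t => App [] s' t [pr (0, 1 + i * (m + 1) + j)]) (T1 := 18)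
      (T2 := 5 + (2 + (41 * n + 6 + 4))) (rt h8' (by omega) (by omega) (by omega)) ?_ (by omega)
    intro t1 ht1
    have hc1 := hc'.app ht1 (by decide)
    have u22 : t1.reg 22 = j := (ht1.reg 22 (by decide) (by decide) (by decide)).trans h22
    have u23 : t1.reg 23 = m - j := (ht1.reg 23 (by decide) (by decide) (by decide)).trans h23
    have u8 : t1.reg 8 = 1 + i * (m + 1) + j := (ht1.reg 8 (by decide) (by decide) (by decide)).trans h8'
    have u9 : t1.reg 9 = 1 + k * (m + 1) + j * n := (ht1.reg 9 (by decide) (by decide) (by decide)).trans h9'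
    have u17 : t1.reg 17 = s'.reg 17 + 2 := ht1.ptr
    have u18 : t1.reg 18 = s'.reg 18 + 1 := ht1.cnt
    have hinp := hc1.inp j (hm ▸ hj)
    refine HT.seq (R := fun t => t = upd t1 10 (mask (nth L j))) (T1 := 5) (T2 := 2 + (41 * n + 6 + 4))
      (HT.set (by omega) rfl (by decide) ?_ ?_ (by decide)) ?_ (by omega)
    · simp only [E.ok, E.val, u22, true_and]
      omega
    · simp only [E.val, u22, hinp]
    rintro _ rfl
    refine HT.seq (R := fun t => t = upd (upd t1 10 (mask (nth L j))) 11 1) (T1 := 2) (T2 := 41 * n + 6 + 4)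
      (HT.set (by omega) rfl (by decide) (by simp only [E.ok]; omega) rfl (by decide)) ?_ (by omega)
    rintro _ rfl
    set u := upd (upd t1 10 (mask (nth L j))) 11 1 with hu
    have hreg : ∀ r, r ≠ 10 → r ≠ 11 → u.reg r = t1.reg r := by
      intro r h1 h2
      rw [hu, upd_ne _ _ h2, upd_ne _ _ h1]
    refine HT.seq (R := fun t => App [9, 11, 24, 25] u t
      ((List.range n).flatMap fun x => (el k L i j x).map pr) ∧ t.reg 9 = 1 + k * (m + 1) + j * n + n)
      (T1 := 41 * n + 6) (T2 := 4)
      (lfl hm ((hreg 3 (by decide) (by decide)).trans hc1.r3) ((hreg 8 (by decide) (by decide)).trans u8)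
        ((hreg 9 (by decide) (by decide)).trans u9) (by rw [hu, upd_ne _ _ (by decide), upd_self])
        (by rw [hu, upd_self]) hj hW (by rw [hreg 17 (by decide) (by decide)]; omega)
        (by rw [hreg 18 (by decide) (by decide)]; omega)) ?_ (by omega)
    rintro t ⟨ht, t9⟩
    have hA' : App [8, 9, 10, 11, 22, 23, 24, 25] s' t (es k L i j) := by
      have h1 : App [8, 9, 10, 11, 22, 23, 24, 25] u t
        ((List.range n).flatMap fun x => (el k L i j x).map pr) := ht.wk (by decide)
      have h2 := (h1.upd0 (i := 11) (by decide) (by decide) (by decide)).upd0 (i := 10) (by decide) (by decide)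
        (by decide)
      have h3 : App [8, 9, 10, 11, 22, 23, 24, 25] s' t1 [pr (0, 1 + i * (m + 1) + j)] := ht1.wk (by simp)
      have h4 := h3.trans h2
      unfold es
      rw [← hm]
      exact h4
    have t8 : t.reg 8 = 1 + i * (m + 1) + j := by
      rw [ht.reg 8 (by decide) (by decide) (by decide), hreg 8 (by decide) (by decide), u8]
    have t22 : t.reg 22 = j := by
      rw [ht.reg 22 (by decide) (by decide) (by decide), hreg 22 (by decide) (by decide), u22]
    have t23 : t.reg 23 = m - j := by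
      rw [ht.reg 23 (by decide) (by decide) (by decide), hreg 23 (by decide) (by decide), u23]
    refine HT.seq (R := fun v => v = upd t 8 (1 + i * (m + 1) + (j + 1))) (T1 := 4) (T2 := 0)
      (HT.set (by omega) rfl (by decide) ⟨trivial, ?_, ?_⟩ ?_ (by decide)) ?_ (by omega)
    · simp only [E.ok]
      omega
    · simp only [E.val, t8]
      omega
    · simp only [E.val, t8]
      rfl
    rintro _ rfl
    refine HT.skip ⟨hA'.upd _ (by decide) (by decide) (by decide), ?_, ?_, ?_, ?_⟩
    · rw [upd_ne _ _ (by decide), t22]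
    · rw [upd_ne _ _ (by decide), t23]
    · rw [upd_ne _ _ (by decide), upd_ne _ _ (by decide), upd_self]
    · rw [upd_ne _ _ (by decide), upd_ne _ _ (by decide), upd_ne _ _ (by decide), t9, Nat.succ_mul]
      ring

/-- the program for the choices -/
def ip : Stmt := forr 20 21 (.r 6) (blk [
    set 9 (.r 7), sp, recd [.c 0, .r 8], set 8 (.add (.r 8) (.c 1))])

/-- the registers of the loop -/
def Fj : List ℕ := [8, 9, 10, 11, 20, 21, 22, 23, 24, 25]

lemma il {w n m k : ℕ} {L : List (Finset (Fin n))} {s : Data} (hm : m = L.length) (hc : Ca L k s)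
    (h6 : s.reg 6 = k) (h8 : s.reg 8 = 1)
    (hW : 4 * 2 ^ n + (1 + k * (m + 1) + m * n) + n + m + k + 10 < 2 ^ w)
    (hp : s.reg 17 + 2 * (k * (m * (1 + n) + 1)) + 2 < 2 ^ w) (hq : s.reg 18 + k * (m * (1 + n) + 1) + 1 < 2 ^ w) :
    HT w ip s (k * (m * (41 * n + 45) + 40) + 6) (fun t => App Fj s t ((List.range k).flatMap (eI k L))) := by
  refine HT.forApp k (m * (41 * n + 45) + 30) Fj (eI k L)
    (fun j t => t.reg 8 = 1 + j * (m + 1))
    (by decide) (by decide) (by decide) (by decide) (by decide) (by decide) (by decide) (by decide)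
    (by decide) rfl (by decide) trivial h6 (by omega) ?_ ?_
    (by simp only [E.size]
        have : k * (m * (41 * n + 45) + 30 + 10) = k * (m * (41 * n + 45) + 40) := by ring
        omega)
    (fun t h _ => h)
  · rw [upd_ne _ _ (by decide), upd_ne _ _ (by decide), h8, Nat.zero_mul]
  · intro j hj s' hA h8' h20 h21
    have hc' := hc.app hA (by decide)
    have hT2 := Two.flatMap (f := eI k L) (eI_two k L) j
    have hp1 := hA.ptr
    have hq1 := hA.cnt
    have hT21 := hT2.1
    have hT22 := hT2.2
    rw [← hm] at hT21 hT22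
    have hjm : j * (m * (1 + n) + 1) + (m * (1 + n) + 1) ≤ k * (m * (1 + n) + 1) := by
      rw [← Nat.succ_mul]
      exact Nat.mul_le_mul_right _ hj
    have hjm' : j * (m + 1) + (m + 1) ≤ k * (m + 1) := by
      rw [← Nat.succ_mul]
      exact Nat.mul_le_mul_right _ hj
    have hr7 := hc'.r7
    rw [← hm] at hr7
    refine HT.seq (R := fun t => t = upd s' 9 (1 + k * (m + 1))) (T1 := 2)
      (T2 := (m * (41 * n + 45) + 6) + (18 + 4))
      (HT.set (by omega) rfl (by decide) trivial ?_ (by decide)) ?_ (by omega)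
    · simp only [E.val, hr7]
    rintro _ rfl
    set u := upd s' 9 (1 + k * (m + 1)) with hu
    have hreg : ∀ r, r ≠ 9 → u.reg r = s'.reg r := by
      intro r h1
      rw [hu, upd_ne _ _ h1]
    have hcu : Ca L k u := by
      constructor
      · rw [hreg 2 (by decide)]; exact hc'.r2
      · rw [hreg 3 (by decide)]; exact hc'.r3
      · rw [hreg 7 (by decide)]; exact hc'.r7
      · exact hc'.inp
      · rw [hreg 17 (by decide)]; exact hc'.ptr
    refine HT.seq (R := fun t => App [8, 9, 10, 11, 22, 23, 24, 25] u t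
      ((List.range m).flatMap (es k L j)) ∧ t.reg 8 = 1 + j * (m + 1) + m)
      (T1 := m * (41 * n + 45) + 6) (T2 := 18 + 4)
      (sl hm hcu ((hreg 8 (by decide)).trans h8') (by rw [hu, upd_self]) hj hW
        (by rw [hreg 17 (by decide)]; omega) (by rw [hreg 18 (by decide)]; omega)) ?_ (by omega)
    rintro t ⟨ht, t8⟩
    have hT3 := Two.flatMap (f := es k L j) (es_two k L j) m
    have hp2 := ht.ptr
    have hq2 := ht.cnt
    have hT31 := hT3.1
    have hT32 := hT3.2
    rw [hreg 17 (by decide)] at hp2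
    rw [hreg 18 (by decide)] at hq2
    refine HT.seq (R := fun v => App [] t v [pr (0, 1 + j * (m + 1) + m)]) (T1 := 18) (T2 := 4)
      (rt t8 (by omega) (by omega) (by omega)) ?_ (by omega)
    intro v hv
    have v8 : v.reg 8 = 1 + j * (m + 1) + m := (hv.reg 8 (by decide) (by decide) (by decide)).trans t8
    have hA' : App Fj s' v (eI k L j) := by
      have h1 : App Fj u t ((List.range m).flatMap (es k L j)) := ht.wk (by decide)
      have h2 := h1.upd0 (i := 9) (by decide) (by decide) (by decide)
      have h3 : App Fj t v [pr (0, 1 + j * (m + 1) + m)] := hv.wk (by simp)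
      have h4 := h2.trans h3
      unfold eI
      rw [← hm]
      exact h4
    have v20 : v.reg 20 = j := by
      rw [hv.reg 20 (by decide) (by decide) (by decide), ht.reg 20 (by decide) (by decide) (by decide),
        hreg 20 (by decide), h20]
    have v21 : v.reg 21 = k - j := by
      rw [hv.reg 21 (by decide) (by decide) (by decide), ht.reg 21 (by decide) (by decide) (by decide),
        hreg 21 (by decide), h21]
    refine HT.seq (R := fun x => x = upd v 8 (1 + (j + 1) * (m + 1))) (T1 := 4) (T2 := 0)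
      (HT.set (by omega) rfl (by decide) ⟨trivial, ?_, ?_⟩ ?_ (by decide)) ?_ (by omega)
    · simp only [E.ok]
      omega
    · simp only [E.val, v8]
      omega
    · have e : 1 + j * (m + 1) + m + 1 = 1 + (j + 1) * (m + 1) := by
        rw [Nat.succ_mul]
        omega
      simp only [E.val, v8]
      rw [e]
    rintro _ rfl
    refine HT.skip ⟨hA'.upd _ (by decide) (by decide) (by decide), ?_, ?_, ?_⟩
    · rw [upd_ne _ _ (by decide), v20]
    · rw [upd_ne _ _ (by decide), v21]
    · rw [upd_ne _ _ (by decide), upd_ne _ _ (by decide), upd_self]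

/-! ### The colours -/

/-- the colours of the choices -/
def C1 (n m k : ℕ) : List (List ℕ) :=
  (List.range k).flatMap fun i => (List.range (m + 1)).flatMap fun _ => [[n + i]]

lemma c1i_two (n m i : ℕ) : Two ((List.range (m + 1)).flatMap fun _ => [[n + i]]) (m + 1) := by
  have := Two.flatMap (f := fun _ => [[n + i]]) (M := 1) (fun _ => ⟨le_rfl, by simp⟩) (m + 1)
  rwa [Nat.mul_one] at this

lemma c1i_flatten (n i l : ℕ) : ((List.range l).flatMap fun _ => [[n + i]]).flatten =
    (List.range l).map fun _ => n + i := by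
  induction l with
  | zero => rfl
  | succ l ih =>
    rw [List.range_succ, List.flatMap_append, List.flatten_append, ih, List.map_append]
    rfl

lemma c1i_length (n i l : ℕ) : ((List.range l).flatMap fun _ => [[n + i]]).length = l := by
  induction l with
  | zero => rfl
  | succ l ih =>
    rw [List.range_succ, List.flatMap_append, List.length_append, ih]
    rfl

lemma C1_length' (n M k : ℕ) :
    ((List.range k).flatMap fun i => (List.range M).flatMap fun _ => [[n + i]]).length = k * M := by
  induction k with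
  | zero => rw [Nat.zero_mul]; rfl
  | succ k ih =>
    rw [List.range_succ, List.flatMap_append, List.length_append, ih, Nat.succ_mul]
    congr 1
    rw [List.flatMap_cons, List.flatMap_nil, List.append_nil, c1i_length]

lemma C1_length (n m k : ℕ) : (C1 n m k).length = k * (m + 1) := C1_length' n (m + 1) k

lemma C1_flatten' (n M k : ℕ) (hM : 0 < M) :
    ((List.range k).flatMap fun i => (List.range M).flatMap fun _ => [[n + i]]).flatten =
      (List.range (k * M)).map fun t => n + t / M := by
  induction k with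
  | zero => rw [Nat.zero_mul]; rfl
  | succ k ih =>
    rw [List.range_succ, List.flatMap_append, List.flatten_append, ih, Nat.succ_mul, List.range_add,
      List.map_append]
    congr 1
    rw [List.flatMap_cons, List.flatMap_nil, List.append_nil, c1i_flatten, List.map_map]
    refine List.map_congr_left fun a ha => ?_
    have ha' : a < M := List.mem_range.1 ha
    simp only [Function.comp]
    rw [Nat.add_comm (k * M) a, Nat.add_mul_div_right _ _ hM, Nat.div_eq_of_lt ha', Nat.zero_add]

lemma C1_flatten (n m k : ℕ) : (C1 n m k).flatten = (List.range (k * (m + 1))).map fun t => n + t / (m + 1) :=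
  C1_flatten' n (m + 1) k (Nat.succ_pos m)

lemma Crec_flatten' (n m : ℕ) : (Crec n m).flatten = (List.range (m * n)).map fun t => t % n := by
  rw [Crec_flatten]
  induction m with
  | zero => rw [Nat.zero_mul]; rfl
  | succ m ih =>
    have h1 : List.range ((m + 1) * n) = List.range (m * n) ++ (List.range n).map (fun x => m * n + x) := by
      rw [Nat.succ_mul, List.range_add]
    have h0 : List.range (m + 1) = List.range m ++ [m] := List.range_succ
    rw [h1, h0, List.map_append, ← ih, List.flatMap_append]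
    congr 1
    rw [List.map_map]
    have h2 : ∀ a ∈ List.range n, ((fun v => v % n) ∘ fun x => m * n + x) a = a := by
      intro a ha
      have ha' : a < n := List.mem_range.1 ha
      simp only [Function.comp]
      rw [Nat.add_comm, Nat.add_mul_mod_self_right, Nat.mod_eq_of_lt ha']
    rw [List.map_congr_left h2]
    simp

lemma colours6 (n m k : ℕ) : (List.range (1 + k * (m + 1) + m * n)).map (col6 n m k) =
    [n + k] ++ ((C1 n m k).flatten ++ (Crec n m).flatten) := by
  rw [List.range_add, List.range_add, List.map_append, List.map_append, List.append_assoc, C1_flatten,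
    Crec_flatten', List.map_map, List.map_map]
  congr 1
  congr 1
  · refine List.map_congr_left fun a ha => ?_
    have ha' : a < k * (m + 1) := List.mem_range.1 ha
    simp only [Function.comp, col6]
    rw [if_neg (by omega), if_pos (by omega), Nat.add_sub_cancel_left]
  · refine List.map_congr_left fun a _ => ?_
    simp only [Function.comp, col6]
    rw [if_neg (by omega), if_neg (by omega)]
    congr 1
    omega

lemma cl1 {w n m k : ℕ} {s : Data} (h2 : s.reg 2 = m) (h3 : s.reg 3 = n) (h6 : s.reg 6 = k)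
    (hW : n + m + k + 10 < 2 ^ w) (hp : s.reg 17 + 2 * (k * (m + 1)) + 2 < 2 ^ w)
    (hq : s.reg 18 + k * (m + 1) + 1 < 2 ^ w) :
    HT w (forr 20 21 (.r 6) (forr 22 23 (.add (.r 2) (.c 1)) (recd [.add (.r 3) (.r 20)]))) s
      (k * (23 * (m + 1) + 18) + 6) (fun t => App [20, 21, 22, 23] s t (C1 n m k)) := by
  refine HT.forApp k (23 * (m + 1) + 8) [20, 21, 22, 23]
    (fun i => (List.range (m + 1)).flatMap fun _ => [[n + i]]) (fun _ _ => True)
    (by decide) (by decide) (by decide) (by decide) (by decide) (by decide) (by decide) (by decide)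
    (by decide) rfl (by decide) trivial h6 (by omega) trivial ?_
    (by simp only [E.size]
        have : k * (23 * (m + 1) + 8 + 10) = k * (23 * (m + 1) + 18) := by ring
        omega)
    (fun t h _ => h)
  intro j hj s' hA _ h20 h21
  have hT2 := Two.flatMap (f := fun i => (List.range (m + 1)).flatMap fun _ => [[n + i]]) (c1i_two n m) j
  have hp1 := hA.ptr
  have hq1 := hA.cnt
  have hT21 := hT2.1
  have hT22 := hT2.2
  have hjm : j * (m + 1) + (m + 1) ≤ k * (m + 1) := by
    rw [← Nat.succ_mul]
    exact Nat.mul_le_mul_right _ hj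
  have s2 : s'.reg 2 = m := (hA.reg 2 (by decide) (by decide) (by decide)).trans h2
  have s3 : s'.reg 3 = n := (hA.reg 3 (by decide) (by decide) (by decide)).trans h3
  refine HT.forApp (m + 1) 13 [22, 23] (fun _ => [[n + j]]) (fun _ _ => True)
    (by decide) (by decide) (by decide) (by decide) (by decide) (by decide) (by decide) (by decide)
    (by decide) rfl (by decide) ⟨trivial, by simp only [E.ok]; omega, ?_⟩ ?_ (by omega) trivial ?_
    (by simp only [E.size]; omega) ?_
  · simp only [E.val, s2]
    omega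
  · simp only [E.val, s2]
  · intro i hi x hA2 _ h22 h23
    have hT3 := Two.flatMap (f := fun _ => [[n + j]]) (M := 1) (fun _ => ⟨le_rfl, by simp⟩) i
    have hp2 := hA2.ptr
    have hq2 := hA2.cnt
    have hT31 := hT3.1
    have hT32 := hT3.2
    have x3 : x.reg 3 = n := (hA2.reg 3 (by decide) (by decide) (by decide)).trans s3
    have x20 : x.reg 20 = j := (hA2.reg 20 (by decide) (by decide) (by decide)).trans h20
    refine HT.recd ?_ (by simp only [List.length_cons, List.length_nil]; omega) (by omega) ?_ (by decide)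
    · intro a ha
      rw [List.mem_singleton] at ha
      subst ha
      refine ⟨rfl, rfl, by decide, trivial, trivial, ?_⟩
      simp only [E.val, x3, x20]
      omega
    · intro t ht
      have : [E.add (.r 3) (.r 20)].map (E.val x) = [n + j] := by
        simp only [List.map_cons, List.map_nil, E.val, x3, x20]
      rw [this] at ht
      refine ⟨ht.wk (by simp), ?_, ?_, trivial⟩
      · rw [ht.reg 22 (by decide) (by decide) (by decide), h22]
      · rw [ht.reg 23 (by decide) (by decide) (by decide), h23]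
  · intro t ht _
    refine ⟨ht.wk (by decide), ?_, ?_, trivial⟩
    · rw [ht.reg 20 (by decide) (by decide) (by decide), h20]
    · rw [ht.reg 21 (by decide) (by decide) (by decide), h21]

lemma cl2 {w n m : ℕ} {s : Data} (h1 : s.reg 3 = n) (h2 : s.reg 2 = m) (hn : n < 2 ^ w) (hm : m < 2 ^ w)
    (hp : s.reg 17 + 2 * (m * n) + 2 < 2 ^ w) (hq : s.reg 18 + m * n + 1 < 2 ^ w) :
    HT w (forr 20 21 (.r 2) (forr 22 23 (.r 3) (recd [.r 22]))) s (m * (21 * n + 16) + 6)
      (fun t => App [20, 21, 22, 23] s t (Crec n m)) := by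
  refine HT.forApp m (21 * n + 6) [20, 21, 22, 23] (fun _ => crec n) (fun _ _ => True)
    (by decide) (by decide) (by decide) (by decide) (by decide) (by decide) (by decide) (by decide)
    (by decide) rfl (by decide) trivial h2 hm trivial ?_
    (by simp only [E.size]
        have : m * (21 * n + 6 + 10) = m * (21 * n + 16) := by ring
        omega)
    (fun t h _ => h)
  intro j hj s' hA _ h20 h21
  have hT2 := Two.flatMap (f := fun _ => crec n) (fun _ => crec_two n) j
  have hp1 := hA.ptr
  have hq1 := hA.cnt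
  have hT21 := hT2.1
  have hT22 := hT2.2
  have hjm : j * n + n ≤ m * n := by
    rw [← Nat.succ_mul]
    exact Nat.mul_le_mul_right _ hj
  have s1 : s'.reg 3 = n := (hA.reg 3 (by decide) (by decide) (by decide)).trans h1
  refine HT.forApp n 11 [22, 23] (fun x => [[x]]) (fun _ _ => True)
    (by decide) (by decide) (by decide) (by decide) (by decide) (by decide) (by decide) (by decide)
    (by decide) rfl (by decide) trivial s1 hn trivial ?_ (by simp only [E.size]; omega) ?_
  · intro k hk s2 hA2 _ h22 h23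
    have hT3 := Two.flatMap (f := fun x => [[x]]) (M := 1) (fun x => ⟨le_rfl, by simp⟩) k
    have hp2 := hA2.ptr
    have hq2 := hA2.cnt
    have hT31 := hT3.1
    have hT32 := hT3.2
    refine HT.recd ?_ (by simp only [List.length_cons, List.length_nil]; omega) (by omega) ?_ (by decide)
    · intro a ha
      rw [List.mem_singleton] at ha
      subst ha
      exact ⟨rfl, rfl, by decide, trivial⟩
    · intro t ht
      have : [E.r 22].map (E.val s2) = [k] := by
        simp only [List.map_cons, List.map_nil, E.val, h22]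
      rw [this] at ht
      refine ⟨ht.wk (by simp), ?_, ?_, trivial⟩
      · rw [ht.reg 22 (by decide) (by decide) (by decide), h22]
      · rw [ht.reg 23 (by decide) (by decide) (by decide), h23]
  · intro t ht _
    refine ⟨ht.wk (by decide), ?_, ?_, trivial⟩
    · rw [ht.reg 20 (by decide) (by decide) (by decide), h20]
    · rw [ht.reg 21 (by decide) (by decide) (by decide), h21]

/-! ### Numbers -/

lemma num6 (n k m : ℕ) : n ≤ (n + k + m + 2) ^ 4 ∧ k ≤ (n + k + m + 2) ^ 4 ∧ m ≤ (n + k + m + 2) ^ 4 ∧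
    m * n ≤ (n + k + m + 2) ^ 4 ∧ k * m ≤ (n + k + m + 2) ^ 4 ∧ k * m * n ≤ (n + k + m + 2) ^ 4 ∧
    16 ≤ (n + k + m + 2) ^ 4 := by
  set B := n + k + m + 2 with hB
  have h1 : 1 ≤ B := by omega
  have hn : n ≤ B := by omega
  have hk : k ≤ B := by omega
  have hm : m ≤ B := by omega
  have h2 : 2 ≤ B := by omega
  have hmn : m * n ≤ B * B := Nat.mul_le_mul hm hn
  have hkm : k * m ≤ B * B := Nat.mul_le_mul hk hm
  have e1 : B ^ 4 = B * B * (B * B) := by ring
  have hBB : B ≤ B * B := Nat.le_mul_of_pos_left B h1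
  have hBB4 : B * B ≤ B ^ 4 := by
    rw [e1]
    exact Nat.le_mul_of_pos_left _ (by positivity)
  refine ⟨hn.trans (hBB.trans hBB4), hk.trans (hBB.trans hBB4), hm.trans (hBB.trans hBB4), hmn.trans hBB4,
    hkm.trans hBB4, ?_, ?_⟩
  · rw [e1]
    exact Nat.mul_le_mul hkm (hn.trans hBB)
  · calc 16 = 2 ^ 4 := by norm_num
      _ ≤ B ^ 4 := Nat.pow_le_pow_left h2 4

lemma getD_enc6 {n k : ℕ} (L : List (Finset (Fin n))) {mem : ℕ → ℕ}
    (h : ∀ i (hi : i < ([n, L.length, k] ++ L.map mask).length), mem i = ([n, L.length, k] ++ L.map mask)[i]) :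
    mem 0 = n ∧ mem 1 = L.length ∧ mem 2 = k ∧ ∀ t < L.length, mem (3 + t) = mask (nth L t) :=
  ⟨(getD_enc L h).1, (getD_enc L h).2.1, h 2 (by simp), (getD_enc L h).2.2⟩

lemma time6 (n k m : ℕ) :
    3 + (3 + (3 + (4 + (4 + (4 + (2 + (11 + ((k * (23 * (m + 1) + 18) + 6) + (2 +
        ((m * (21 * n + 16) + 6) + (2 + (2 + (2 + ((k * (m * (41 * n + 45) + 40) + 6) +
          (5 + (5 + (5 + 0))))))))))))))))) ≤ (n + k + m + 2) ^ 20 := by
  obtain ⟨k1, k2, k3, k4, k5, k6, k7⟩ := num6 n k m
  have hpow := pow20 (n + k) m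
  have e2 : m * (21 * n + 16) = 21 * (m * n) + 16 * m := by ring
  have e3 : k * (m * (41 * n + 45) + 40) = 41 * (k * m * n) + 45 * (k * m) + 40 * k := by ring
  have e4 : k * (23 * (m + 1) + 18) = 23 * (k * m) + 41 * k := by ring
  rw [e2, e3, e4]
  generalize (n + k + m + 2) ^ 20 = P at hpow ⊢
  generalize (n + k + m + 2) ^ 4 = K4 at *
  generalize k * m * n = x1 at *
  generalize k * m = x2 at *
  generalize m * n = x3 at *
  omega

lemma time6' (n k m : ℕ) : 3 + m ≤ (n + k + m + 2) ^ 20 := by
  obtain ⟨k1, k2, k3, k4, k5, k6, k7⟩ := num6 n k m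
  have hpow := pow20 (n + k) m
  generalize (n + k + m + 2) ^ 20 = P at hpow ⊢
  generalize (n + k + m + 2) ^ 4 = K4 at *
  omega

/-- the state before the edges are written -/
structure D2 {n : ℕ} (L : List (Finset (Fin n))) (k : ℕ) (t : Data) : Prop where
  r1 : t.reg 1 = n + k
  r2 : t.reg 2 = L.length
  r3 : t.reg 3 = n
  r5 : t.reg 5 = 1 + k * (L.length + 1) + L.length * n
  r6 : t.reg 6 = k
  r7 : t.reg 7 = 1 + k * (L.length + 1)
  r15 : t.reg 15 = 3 + L.length
  r17 : t.reg 17 = 6 + L.length + (1 + k * (L.length + 1) + L.length * n)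
  inp : ∀ i < L.length, t.mem (3 + i) = mask (nth L i)
  col : Wr t (6 + L.length) ([n + k] ++ ((C1 n L.length k).flatten ++ (Crec n L.length).flatten))

lemma C1_flatten_length (n m k : ℕ) : (C1 n m k).flatten.length = k * (m + 1) := by
  rw [C1_flatten, List.length_map, List.length_range]

lemma Crec_flatten_length (n m : ℕ) : (Crec n m).flatten.length = m * n := by
  rw [Crec_flatten', List.length_map, List.length_range]

/-- the first part of the program -/
lemma part1 {w n k : ℕ} {L : List (Finset (Fin n))} {mem : ℕ → ℕ} {p : Stmt} {T : ℕ} {Q : Data → Prop}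
    (hbig : 4 * 2 ^ (n + k) + 1000 * (n + k + L.length + 2) ^ 4 < 2 ^ w)
    (hmem : ∀ i (hi : i < ([n, L.length, k] ++ L.map mask).length),
      mem i = ([n, L.length, k] ++ L.map mask)[i])
    (hp : ∀ t, D2 L k t → HT w p t T Q) :
    HT w (Stmt.seq (set 3 (.ld (.c 0))) (Stmt.seq (set 2 (.ld (.c 1))) (Stmt.seq (set 6 (.ld (.c 2)))
      (Stmt.seq (set 1 (.add (.r 3) (.r 6))) (Stmt.seq (set 15 (.add (.c 3) (.r 2)))
      (Stmt.seq (set 17 (.add (.r 15) (.c 3))) (Stmt.seq (set 18 (.c 0)) (Stmt.seq (recd [.r 1])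
      (Stmt.seq (forr 20 21 (.r 6) (forr 22 23 (.add (.r 2) (.c 1)) (recd [.add (.r 3) (.r 20)])))
      (Stmt.seq (set 7 (.r 18))
      (Stmt.seq (forr 20 21 (.r 2) (forr 22 23 (.r 3) (recd [.r 22])))
      (Stmt.seq (set 5 (.r 18)) p)))))))))))) ⟨fun _ => 0, mem⟩
      (3 + (3 + (3 + (4 + (4 + (4 + (2 + (11 + ((k * (23 * (L.length + 1) + 18) + 6) + (2 +
        ((L.length * (21 * n + 16) + 6) + (2 + T)))))))))))) Q := by
  obtain ⟨m0, m1, m2, m3⟩ := getD_enc6 L hmem
  obtain ⟨k1, k2, k3, k4, k5, -, k7⟩ := num6 n k L.length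
  set m := L.length with hm
  set K4 := (n + k + m + 2) ^ 4 with hK4
  have hpos : 0 < 2 ^ (n + k) := by positivity
  have e1 : k * (m + 1) = k * m + k := by ring
  refine HT.seq (R := fun t => t.reg 3 = n ∧ t.mem = mem)
    (HT.set (by omega) rfl (by decide) (by simp only [E.ok]; omega) ⟨?_, rfl⟩ (show 3 ≤ 3 by norm_num)) ?_ le_rfl
  · rw [upd_self]
    exact m0
  rintro t ⟨t3, tm⟩
  refine HT.seq (R := fun t => t.reg 3 = n ∧ t.reg 2 = m ∧ t.mem = mem)
    (HT.set (by omega) rfl (by decide) (by simp only [E.ok]; omega) ⟨?_, ?_, tm⟩ (show 3 ≤ 3 by norm_num)) ?_ le_rfl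
  · rw [upd_ne _ _ (by decide), t3]
  · rw [upd_self]
    simp only [E.val, tm, m1]
  clear t3 tm t
  rintro t ⟨t3, t2, tm⟩
  refine HT.seq (R := fun t => t.reg 3 = n ∧ t.reg 2 = m ∧ t.reg 6 = k ∧ t.mem = mem)
    (HT.set (by omega) rfl (by decide) (by simp only [E.ok]; omega) ⟨?_, ?_, ?_, tm⟩ (show 3 ≤ 3 by norm_num)) ?_
    le_rfl
  · rw [upd_ne _ _ (by decide), t3]
  · rw [upd_ne _ _ (by decide), t2]
  · rw [upd_self]
    simp only [E.val, tm, m2]
  clear t3 t2 tm t
  rintro t ⟨t3, t2, t6, tm⟩
  refine HT.seq (R := fun t => t.reg 3 = n ∧ t.reg 2 = m ∧ t.reg 6 = k ∧ t.reg 1 = n + k ∧ t.mem = mem)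
    (HT.set (by omega) rfl (by decide) ⟨trivial, trivial, ?_⟩ ⟨?_, ?_, ?_, ?_, tm⟩ (show 4 ≤ 4 by norm_num)) ?_
    le_rfl
  · simp only [E.val, t3, t6]
    omega
  · rw [upd_ne _ _ (by decide), t3]
  · rw [upd_ne _ _ (by decide), t2]
  · rw [upd_ne _ _ (by decide), t6]
  · rw [upd_self]
    simp only [E.val, t3, t6]
  clear t3 t2 t6 tm t
  rintro t ⟨t3, t2, t6, t1, tm⟩
  refine HT.seq (R := fun t => t.reg 3 = n ∧ t.reg 2 = m ∧ t.reg 6 = k ∧ t.reg 1 = n + k ∧ t.reg 15 = 3 + m ∧
      t.mem = mem)
    (HT.set (by omega) rfl (by decide) ⟨?_, trivial, ?_⟩ ⟨?_, ?_, ?_, ?_, ?_, tm⟩ (show 4 ≤ 4 by norm_num)) ?_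
    le_rfl
  · simp only [E.ok]
    omega
  · simp only [E.val, t2]
    omega
  · rw [upd_ne _ _ (by decide), t3]
  · rw [upd_ne _ _ (by decide), t2]
  · rw [upd_ne _ _ (by decide), t6]
  · rw [upd_ne _ _ (by decide), t1]
  · rw [upd_self]
    simp only [E.val, t2]
  clear t3 t2 t6 t1 tm t
  rintro t ⟨t3, t2, t6, t1, t15, tm⟩
  refine HT.seq (R := fun t => t.reg 3 = n ∧ t.reg 2 = m ∧ t.reg 6 = k ∧ t.reg 1 = n + k ∧ t.reg 15 = 3 + m ∧
      t.reg 17 = 6 + m ∧ t.mem = mem)
    (HT.set (by omega) rfl (by decide) ⟨trivial, ?_, ?_⟩ ⟨?_, ?_, ?_, ?_, ?_, ?_, tm⟩ (show 4 ≤ 4 by norm_num)) ?_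
    le_rfl
  · simp only [E.ok]
    omega
  · simp only [E.val, t15]
    omega
  · rw [upd_ne _ _ (by decide), t3]
  · rw [upd_ne _ _ (by decide), t2]
  · rw [upd_ne _ _ (by decide), t6]
  · rw [upd_ne _ _ (by decide), t1]
  · rw [upd_ne _ _ (by decide), t15]
  · rw [upd_self]
    simp only [E.val, t15]
    omega
  clear t3 t2 t6 t1 t15 tm t
  rintro t ⟨t3, t2, t6, t1, t15, t17, tm⟩
  refine HT.seq (R := fun t => t.reg 3 = n ∧ t.reg 2 = m ∧ t.reg 6 = k ∧ t.reg 1 = n + k ∧ t.reg 15 = 3 + m ∧
      t.reg 17 = 6 + m ∧ t.reg 18 = 0 ∧ t.mem = mem)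
    (HT.set (by omega) rfl (by decide) ?_ ⟨?_, ?_, ?_, ?_, ?_, ?_, ?_, tm⟩ (show 2 ≤ 2 by norm_num)) ?_ le_rfl
  · simp only [E.ok]
    omega
  · rw [upd_ne _ _ (by decide), t3]
  · rw [upd_ne _ _ (by decide), t2]
  · rw [upd_ne _ _ (by decide), t6]
  · rw [upd_ne _ _ (by decide), t1]
  · rw [upd_ne _ _ (by decide), t15]
  · rw [upd_ne _ _ (by decide), t17]
  · rw [upd_self]
    rfl
  clear t3 t2 t6 t1 t15 t17 tm t
  rintro s ⟨s3, s2, s6, s1, s15, s17, s18, sm⟩
  -- the root
  refine HT.seq (R := fun u => App [] s u [[n + k]]) (T1 := 11) ?_ ?_ le_rfl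
  · refine HT.recd ?_ (by rw [s17]; simp only [List.length_cons, List.length_nil]; omega)
      (by rw [s18]; omega) ?_ (by decide)
    · intro a ha
      rw [List.mem_singleton] at ha
      subst ha
      exact ⟨rfl, rfl, by decide, trivial⟩
    · intro u hu
      have : [E.r 1].map (E.val s) = [n + k] := by
        simp only [List.map_cons, List.map_nil, E.val, s1]
      rw [this] at hu
      exact hu
  intro a ha
  have a17 : a.reg 17 = 6 + m + 1 := by
    rw [ha.ptr, s17]
    rfl
  have a18 : a.reg 18 = 1 := by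
    rw [ha.cnt, s18]
    rfl
  -- the choices
  refine HT.seq (R := fun t => App [20, 21, 22, 23] a t (C1 n m k))
    (cl1 ((ha.reg 2 (by decide) (by decide) (by decide)).trans s2)
      ((ha.reg 3 (by decide) (by decide) (by decide)).trans s3)
      ((ha.reg 6 (by decide) (by decide) (by decide)).trans s6) (by omega) (by rw [a17, e1]; omega)
      (by rw [a18, e1]; omega)) ?_ le_rfl
  intro b hb
  have b17 : b.reg 17 = 6 + m + 1 + k * (m + 1) := by
    rw [hb.ptr, a17, C1_flatten_length]
  have b18 : b.reg 18 = 1 + k * (m + 1) := by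
    rw [hb.cnt, a18, C1_length]
  refine HT.seq (R := fun x => x = upd b 7 (1 + k * (m + 1)))
    (HT.set (by omega) rfl (by decide) trivial ?_ (show 2 ≤ 2 by norm_num)) ?_ le_rfl
  · simp only [E.val, b18]
  rintro _ rfl
  set c := upd b 7 (1 + k * (m + 1)) with hc
  have hreg : ∀ r, r ∉ [7, 20, 21, 22, 23] → r ≠ 17 → r ≠ 18 → c.reg r = s.reg r := by
    intro r h1 h2 h3
    simp only [List.mem_cons, List.not_mem_nil, or_false, not_or] at h1
    rw [hc, upd_ne _ _ h1.1, hb.reg r (by simp only [List.mem_cons, List.not_mem_nil, or_false]; omega) h2 h3,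
      ha.reg r (by simp) h2 h3]
  have c17 : c.reg 17 = 6 + m + 1 + k * (m + 1) := by rw [hc, upd_ne _ _ (by decide), b17]
  have c18 : c.reg 18 = 1 + k * (m + 1) := by rw [hc, upd_ne _ _ (by decide), b18]
  -- the leaves
  refine HT.seq (R := fun t => App [20, 21, 22, 23] c t (Crec n m))
    (cl2 ((hreg 3 (by decide) (by decide) (by decide)).trans s3)
      ((hreg 2 (by decide) (by decide) (by decide)).trans s2) (by omega) (by omega)
      (by rw [c17, e1]; omega) (by rw [c18, e1]; omega)) ?_ le_rfl
  intro d hd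
  have d17 : d.reg 17 = 6 + m + (1 + k * (m + 1) + m * n) := by
    rw [hd.ptr, c17, Crec_flatten_length]
    omega
  have d18 : d.reg 18 = 1 + k * (m + 1) + m * n := by
    rw [hd.cnt, c18, Crec_length]
  refine HT.seq (R := fun x => x = upd d 5 (1 + k * (m + 1) + m * n))
    (HT.set (by omega) rfl (by decide) trivial ?_ (show 2 ≤ 2 by norm_num)) ?_ le_rfl
  · simp only [E.val, d18]
  rintro _ rfl
  have hAll : App [7, 20, 21, 22, 23] s d ([[n + k]] ++ (C1 n m k ++ Crec n m)) := by
    have h1 : App [7, 20, 21, 22, 23] s a [[n + k]] := ha.wk (by simp)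
    have h2 : App [7, 20, 21, 22, 23] a b (C1 n m k) := hb.wk (by decide)
    have h3 : App [7, 20, 21, 22, 23] a c (C1 n m k) := h2.upd _ (by decide) (by decide) (by decide)
    exact h1.trans (h3.trans (hd.wk (by decide)))
  refine hp _ ?_
  constructor
  · rw [upd_ne _ _ (by decide), hAll.reg 1 (by decide) (by decide) (by decide), s1]
  · rw [upd_ne _ _ (by decide), hAll.reg 2 (by decide) (by decide) (by decide), s2]
  · rw [upd_ne _ _ (by decide), hAll.reg 3 (by decide) (by decide) (by decide), s3]
  · rw [upd_self]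
  · rw [upd_ne _ _ (by decide), hAll.reg 6 (by decide) (by decide) (by decide), s6]
  · rw [upd_ne _ _ (by decide), hd.reg 7 (by decide) (by decide) (by decide), hc, upd_self]
  · rw [upd_ne _ _ (by decide), hAll.reg 15 (by decide) (by decide) (by decide), s15]
  · rw [upd_ne _ _ (by decide), d17]
  · intro i hi
    change d.mem (3 + i) = _
    rw [hAll.old _ (by rw [s17]; omega), sm]
    exact m3 i hi
  · have h1 : Wr d (s.reg 17) ([[n + k]] ++ (C1 n m k ++ Crec n m)).flatten := hAll.new
    rw [s17] at h1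
    have h2 : ([[n + k]] ++ (C1 n m k ++ Crec n m)).flatten =
        [n + k] ++ ((C1 n m k).flatten ++ (Crec n m).flatten) := by
      rw [List.flatten_append, List.flatten_append]
      rfl
    rw [h2] at h1
    exact h1

/-- the last part of the program -/
lemma part2 {w n k : ℕ} {L : List (Finset (Fin n))} {s : Data}
    (hbig : 4 * 2 ^ (n + k) + 1000 * (n + k + L.length + 2) ^ 4 < 2 ^ w) (hs : D2 L k s) :
    HT w (Stmt.seq (set 18 (.c 0)) (Stmt.seq (set 8 (.c 1)) (Stmt.seq ip
      (Stmt.seq (sto (.r 15) (.add (.r 1) (.c 1))) (Stmt.seq (sto (.add (.r 15) (.c 1)) (.r 5))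
      (Stmt.seq (sto (.add (.r 15) (.c 2)) (.r 18)) Stmt.skip)))))) s
      (2 + (2 + ((k * (L.length * (41 * n + 45) + 40) + 6) + (5 + (5 + (5 + 0)))))) (fun t =>
        t.reg 1 = n + k ∧ t.reg 2 = L.length ∧ t.reg 15 = 3 + L.length ∧ Wr t (3 + L.length)
        ([n + k + 1, 1 + k * (L.length + 1) + L.length * n, ((List.range k).flatMap (eI k L)).length] ++
          (([n + k] ++ ((C1 n L.length k).flatten ++ (Crec n L.length).flatten)) ++
            ((List.range k).flatMap (eI k L)).flatten))) := by
  obtain ⟨k1, k2, k3, k4, k5, k6, k7⟩ := num6 n k L.length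
  have hE := Two.flatMap (eI_two k L) k
  have hnk : 2 ^ n ≤ 2 ^ (n + k) := Nat.pow_le_pow_right (by norm_num) (Nat.le_add_right n k)
  have hpos : 0 < 2 ^ n := by positivity
  have hE1 := hE.1
  have hs15 := hs.r15
  have hs17 := hs.r17
  have hs1 := hs.r1
  have hs2 := hs.r2
  have hs3 := hs.r3
  have hs5 := hs.r5
  have hs6 := hs.r6
  have hs7 := hs.r7
  have hsi := hs.inp
  have hsc := hs.col
  have hlen : ([n + k] ++ ((C1 n L.length k).flatten ++ (Crec n L.length).flatten)).length =
      1 + k * (L.length + 1) + L.length * n := by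
    rw [← colours6, List.length_map, List.length_range]
  clear hs hE
  obtain ⟨m, hm⟩ : ∃ m, m = L.length := ⟨_, rfl⟩
  obtain ⟨Es, hEs⟩ : ∃ Es, Es = (List.range k).flatMap (eI k L) := ⟨_, rfl⟩
  obtain ⟨K4, hK4⟩ : ∃ K4, K4 = (n + k + m + 2) ^ 4 := ⟨_, rfl⟩
  rw [← hEs, ← hm] at hE1
  rw [← hEs, ← hm]
  rw [← hm] at hs15 hs17 hs2 hs5 hs7 hsi hsc hlen k1 k2 k3 k4 k5 k6 k7 hbig
  rw [← hK4] at k1 k2 k3 k4 k5 k6 k7 hbig
  have e0 : k * (m + 1) = k * m + k := by ring
  have e1 : k * (m * (1 + n) + 1) = k * m + k * m * n + k := by ring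
  rw [e1] at hE1
  have hW : 4 * 2 ^ n + (1 + k * (m + 1) + m * n) + n + m + k + 10 < 2 ^ w := by
    rw [e0]
    omega
  -- set 18
  refine HT.seq (R := fun u => u = upd s 18 0) (T1 := 2)
    (HT.set (by omega) rfl (by decide) (by simp only [E.ok]; omega) rfl (by decide)) ?_ le_rfl
  rintro _ rfl
  refine HT.seq (R := fun u => u = upd (upd s 18 0) 8 1) (T1 := 2)
    (HT.set (by omega) rfl (by decide) (by simp only [E.ok]; omega) rfl (by decide)) ?_ le_rfl
  rintro _ rfl
  obtain ⟨s3, hs3'⟩ : ∃ s3, s3 = upd (upd s 18 0) 8 1 := ⟨_, rfl⟩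
  rw [← hs3']
  have hreg : ∀ r, r ≠ 8 → r ≠ 18 → s3.reg r = s.reg r := by
    intro r h1 h2
    rw [hs3', upd_ne _ _ h1, upd_ne _ _ h2]
  have hmemo : s3.mem = s.mem := by
    rw [hs3']
    rfl
  have c8 : s3.reg 8 = 1 := by rw [hs3', upd_self]
  have c17 : s3.reg 17 = 6 + m + (1 + k * (m + 1) + m * n) := by rw [hreg 17 (by decide) (by decide), hs17]
  have c18 : s3.reg 18 = 0 := by rw [hs3', upd_ne _ _ (by decide), upd_self]
  have hca : Ca L k s3 := by
    constructor
    · rw [hreg 2 (by decide) (by decide), hs2, hm]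
    · rw [hreg 3 (by decide) (by decide)]; exact hs3
    · rw [hreg 7 (by decide) (by decide), hs7, hm]
    · rw [hmemo, ← hm]; exact hsi
    · rw [c17, ← hm]
      omega
  refine HT.seq (R := fun u => App Fj s3 u Es) (T1 := k * (m * (41 * n + 45) + 40) + 6) ?_ ?_ le_rfl
  · rw [hEs]
    exact P6x.il hm hca ((hreg 6 (by decide) (by decide)).trans hs6) c8 hW
      (by rw [c17, e1, e0]; omega) (by rw [c18, e1]; omega)
  intro t ht
  have t15 : t.reg 15 = 3 + m := by
    rw [ht.reg 15 (by decide) (by decide) (by decide), hreg 15 (by decide) (by decide), hs15]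
  have t1 : t.reg 1 = n + k := by
    rw [ht.reg 1 (by decide) (by decide) (by decide), hreg 1 (by decide) (by decide), hs1]
  have t2 : t.reg 2 = m := by
    rw [ht.reg 2 (by decide) (by decide) (by decide), hreg 2 (by decide) (by decide), hs2]
  have t5 : t.reg 5 = 1 + k * (m + 1) + m * n := by
    rw [ht.reg 5 (by decide) (by decide) (by decide), hreg 5 (by decide) (by decide), hs5]
  have t18 : t.reg 18 = Es.length := by
    rw [ht.cnt, c18, Nat.zero_add]
  have hold : ∀ a, a < 6 + m + (1 + k * (m + 1) + m * n) → t.mem a = s.mem a := by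
    intro a ha
    rw [ht.old _ (by rw [c17]; exact ha), hmemo]
  have hnew : Wr t (6 + m + (1 + k * (m + 1) + m * n)) Es.flatten := by
    have h1 : Wr t (s3.reg 17) Es.flatten := ht.new
    rwa [c17] at h1
  clear ht hca hreg hmemo c8 c17 c18 hs3' s3
  -- the three words
  refine HT.seq (R := fun u => u = updm t (3 + m) (n + k + 1)) (T1 := 5)
    (HT.sto rfl (by decide) trivial rfl (by decide) ⟨trivial, ?_, ?_⟩ ?_ (by decide)) ?_ le_rfl
  · simp only [E.ok]
    omega
  · simp only [E.val, t1]
    omega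
  · simp only [E.val, t1, t15]
  rintro _ rfl
  refine HT.seq (R := fun u => u = updm (updm t (3 + m) (n + k + 1)) (3 + m + 1) (1 + k * (m + 1) + m * n))
    (T1 := 5) (HT.sto rfl (by decide) ⟨trivial, ?_, ?_⟩ rfl (by decide) trivial ?_ (by decide)) ?_ le_rfl
  · simp only [E.ok]
    omega
  · simp only [E.val, updm_reg, t15]
    omega
  · simp only [E.val, updm_reg, t15, t5]
  rintro _ rfl
  refine HT.seq (R := fun u => u = updm (updm (updm t (3 + m) (n + k + 1)) (3 + m + 1)
    (1 + k * (m + 1) + m * n)) (3 + m + 2) Es.length) (T1 := 5)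
    (HT.sto rfl (by decide) ⟨trivial, ?_, ?_⟩ rfl (by decide) trivial ?_ (by decide)) ?_ le_rfl
  · simp only [E.ok]
    omega
  · simp only [E.val, updm_reg, t15]
    omega
  · simp only [E.val, updm_reg, t15, t18]
  rintro _ rfl
  obtain ⟨z, hz⟩ : ∃ z, z = updm (updm (updm t (3 + m) (n + k + 1)) (3 + m + 1) (1 + k * (m + 1) + m * n))
    (3 + m + 2) Es.length := ⟨_, rfl⟩
  rw [← hz]
  have hzm : ∀ b, 6 + m ≤ b → z.mem b = t.mem b := by
    intro b hb
    rw [hz, updm_ne _ _ (by omega), updm_ne _ _ (by omega), updm_ne _ _ (by omega)]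
  have z1 : z.reg 1 = n + k := by rw [hz]; simp only [updm_reg, t1]
  have z2 : z.reg 2 = m := by rw [hz]; simp only [updm_reg, t2]
  have z15 : z.reg 15 = 3 + m := by rw [hz]; simp only [updm_reg, t15]
  refine HT.skip ⟨z1, z2, z15, ?_⟩
  have hcol : Wr t (6 + m) ([n + k] ++ ((C1 n m k).flatten ++ (Crec n m).flatten)) := by
    refine wr_congr hsc fun b _ hb2 => ?_
    rw [hlen] at hb2
    exact hold b (by omega)
  refine wr_append ?_ (wr_append ?_ ?_)
  · intro i hi
    simp only [List.length_cons, List.length_nil] at hi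
    have hi' : i = 0 ∨ i = 1 ∨ i = 2 := by omega
    rcases hi' with rfl | rfl | rfl
    · rw [Nat.add_zero, hz, updm_ne _ _ (by omega), updm_ne _ _ (by omega), updm_self]
      rfl
    · rw [hz, updm_ne _ _ (by omega), updm_self]
      rfl
    · rw [hz, updm_self]
      rfl
  · have h1 : Wr z (6 + m) ([n + k] ++ ((C1 n m k).flatten ++ (Crec n m).flatten)) :=
      wr_congr hcol fun b hb _ => hzm b hb
    have e : 3 + m + [n + k + 1, 1 + k * (m + 1) + m * n, Es.length].length = 6 + m := by
      simp only [List.length_cons, List.length_nil]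
      omega
    rw [e]
    exact h1
  · have h1 : Wr z (6 + m + (1 + k * (m + 1) + m * n)) Es.flatten :=
      wr_congr hnew fun b hb _ => hzm b (by omega)
    have e : 3 + m + [n + k + 1, 1 + k * (m + 1) + m * n, Es.length].length +
        ([n + k] ++ ((C1 n m k).flatten ++ (Crec n m).flatten)).length =
        6 + m + (1 + k * (m + 1) + m * n) := by
      rw [hlen]
      simp only [List.length_cons, List.length_nil]
      omega
    rw [e]
    exact h1

/-- the whole program -/
lemma fin6 {w n k : ℕ} {L : List (Finset (Fin n))} {mem : ℕ → ℕ}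
    (hbig : 4 * 2 ^ (n + k) + 1000 * (n + k + L.length + 2) ^ 4 < 2 ^ w)
    (hmem : ∀ i (hi : i < ([n, L.length, k] ++ L.map mask).length),
      mem i = ([n, L.length, k] ++ L.map mask)[i]) :
    HT w g6 ⟨fun _ => 0, mem⟩
      (3 + (3 + (3 + (4 + (4 + (4 + (2 + (11 + ((k * (23 * (L.length + 1) + 18) + 6) + (2 +
        ((L.length * (21 * n + 16) + 6) + (2 + (2 + (2 + ((k * (L.length * (41 * n + 45) + 40) + 6) +
          (5 + (5 + (5 + 0)))))))))))))))))) (fun t =>
        t.reg 1 = n + k ∧ t.reg 2 = L.length ∧ t.reg 15 = 3 + L.length ∧ Wr t (3 + L.length)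
        ([n + k + 1, 1 + k * (L.length + 1) + L.length * n, ((List.range k).flatMap (eI k L)).length] ++
          (([n + k] ++ ((C1 n L.length k).flatten ++ (Crec n L.length).flatten)) ++
            ((List.range k).flatMap (eI k L)).flatten))) :=
  part1 (w := w) (n := n) (k := k) (L := L) (mem := mem) hbig hmem
    (fun _ hs => part2 (w := w) (n := n) (k := k) (L := L) hbig hs)

end P6x

open P4x P6x in
/-- Row P6. -/
theorem p6 : P6 := by
  intro hok hM
  refine ⟨20, ?_⟩
  have hlenE : ∀ {n : ℕ} (k : ℕ) (L : List (Finset (Fin n))), (edges6 k L).length =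
      ((List.range k).flatMap (eI k L)).length := by
    intro n k L
    have := congrArg List.length (edges6_map k L)
    rwa [List.length_map] at this
  have hflat : ∀ {n : ℕ} (k : ℕ) (L : List (Finset (Fin n))), ((edges6 k L).flatMap fun e => [e.1, e.2]) =
      ((List.range k).flatMap (eI k L)).flatten := by
    intro n k L
    have h1 : ((edges6 k L).flatMap fun e => [e.1, e.2]) = ((edges6 k L).map pr).flatten := by
      rw [List.flatMap_def]
      rfl
    rw [h1, edges6_map]
  have hEle : ∀ {n : ℕ} (k : ℕ) (L : List (Finset (Fin n))),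
      ((List.range k).flatMap (eI k L)).length ≤ 3 * (n + k + L.length + 2) ^ 4 ∧
      ((List.range k).flatMap (eI k L)).flatten.length ≤ 6 * (n + k + L.length + 2) ^ 4 := by
    intro n k L
    have h1 := Two.flatMap (eI_two k L) k
    obtain ⟨-, k2, -, -, k5, k6, -⟩ := num6 n k L.length
    have e1 : k * (L.length * (1 + n) + 1) = k * L.length + k * L.length * n + k := by ring
    rw [e1] at h1
    have h2 := h1.1
    have h3 := h1.2
    constructor <;> omega
  constructor
  · rintro ⟨n, k, L, hL⟩
    change n + k + 1 ≤ n + k + 20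
    omega
  · rintro ⟨n, k, L, hL⟩
    change 1 + k * (L.length + 1) + L.length * n + (edges6 k L).length ≤ (n + k + L.length + 2) ^ 20
    rw [hlenE k L]
    obtain ⟨-, k2, -, k4, k5, -, k7⟩ := num6 n k L.length
    have h1 := (hEle k L).1
    have h2 := pow20 (n + k) L.length
    have e1 : k * (L.length + 1) = k * L.length + k := by ring
    omega
  · rintro ⟨n, k, L, hL⟩
    change ([n + k + 1, 1 + k * (L.length + 1) + L.length * n, (edges6 k L).length] ++
      ((List.range (1 + k * (L.length + 1) + L.length * n)).map (col6 n L.length k) ++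
        (edges6 k L).flatMap fun e => [e.1, e.2])).length ≤ (n + k + L.length + 2) ^ 20
    rw [hflat k L]
    simp only [List.length_append, List.length_map, List.length_range, List.length_cons, List.length_nil]
    obtain ⟨-, k2, -, k4, k5, -, k7⟩ := num6 n k L.length
    have h1 := (hEle k L).2
    have h2 := pow20 (n + k) L.length
    have e1 : k * (L.length + 1) = k * L.length + k := by ring
    omega
  · rintro ⟨n, k, L, hL⟩ v hv
    change v ∈ ([n + k + 1, 1 + k * (L.length + 1) + L.length * n, (edges6 k L).length] ++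
      ((List.range (1 + k * (L.length + 1) + L.length * n)).map (col6 n L.length k) ++
        (edges6 k L).flatMap fun e => [e.1, e.2])) at hv
    change v < (2 ^ (n + k) * (n + k + L.length + 2)) ^ 20
    obtain ⟨k1, k2, k3, k4, k5, -, k7⟩ := num6 n k L.length
    have h1 := (hEle k L).1
    have h2 := big (n + k) L.length
    have h3 := hlenE k L
    have e1 : k * (L.length + 1) = k * L.length + k := by ring
    obtain ⟨o1, o2⟩ := hok n k L
    simp only [List.mem_append, List.mem_cons, List.not_mem_nil, or_false, List.mem_map, List.mem_range,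
      List.mem_flatMap] at hv
    rcases hv with (rfl | rfl | rfl) | ⟨a, ha, rfl⟩ | ⟨e, he, rfl | rfl⟩
    · omega
    · omega
    · omega
    · have := o1 a ha
      omega
    · have := (o2 e he).1
      omega
    · have := (o2 e he).2
      omega
  · exact hM hok
  · rintro ⟨n, k, L, hL⟩ w mem hw hmw hmem
    change HT w g6 ⟨fun _ => 0, mem⟩ ((n + k + L.length + 2) ^ 20) (fun t => t.reg 1 = n + k ∧
      t.reg 2 = L.length ∧ t.reg 15 ≤ (n + k + L.length + 2) ^ 20 ∧ Wr t (t.reg 15)
        ([n + k + 1, 1 + k * (L.length + 1) + L.length * n, (edges6 k L).length] ++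
          ((List.range (1 + k * (L.length + 1) + L.length * n)).map (col6 n L.length k) ++
            (edges6 k L).flatMap fun e => [e.1, e.2])))
    have hbig : 4 * 2 ^ (n + k) + 1000 * (n + k + L.length + 2) ^ 4 < 2 ^ w :=
      lt_of_lt_of_le (big (n + k) L.length) hw
    have hmem' : ∀ i (hi : i < ([n, L.length, k] ++ L.map mask).length),
      mem i = ([n, L.length, k] ++ L.map mask)[i] := hmem
    rw [hflat k L, colours6, hlenE k L]
    have h0 := fin6 (w := w) (n := n) (k := k) (L := L) (mem := mem) hbig hmem'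
    refine HT.mono h0 (time6 n k L.length) ?_
    rintro t ⟨t1, t2, t15, tW⟩
    refine ⟨t1, t2, ?_, ?_⟩
    · rw [t15]
      exact time6' n k L.length
    · rw [t15]
      exact tW

end SCM
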