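import Pool.Agent.Lib.SCM.Progs3
import Pool.Agent.Lib.SCM.P6

/-!
# Row L4: the matching problem → Set Cover with small sets, the program.  (helper93)
-/

set_option autoImplicit false

namespace SCM

open SCR SCN

namespace L4x

open P4x P6x

/-- only the registers in `F` have changed -/
def Fm (F : List ℕ) (s t : Data) : Prop := (∀ r, r ∉ F → t.reg r = s.reg r) ∧ t.mem = s.mem

lemma fw {w i : ℕ} {e : E} {p : Stmt} {s : Data} {T : ℕ} {Q : Data → Prop} (hi : i < 40 ∨ 50 ≤ i)
    (he : e.wf = true) (hd : e.depth ≤ 9) (ho : e.ok w s) (h : HT w p (upd s i (e.val s)) T Q) :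
    HT w (Stmt.seq (set i e) p) s (e.size + 1 + T) Q :=
  HT.seq (R := fun t => t = upd s i (e.val s)) (HT.set hi he hd ho rfl le_rfl) (by rintro _ rfl; exact h) le_rfl

lemma fw' {w i : ℕ} {e : E} {p : Stmt} {s : Data} {T : ℕ} {Q : Data → Prop} (T1 : ℕ) (hi : i < 40 ∨ 50 ≤ i)
    (he : e.wf = true) (hd : e.depth ≤ 9) (ho : e.ok w s) (hT : e.size + 1 + T1 ≤ T)
    (h : HT w p (upd s i (e.val s)) T1 Q) : HT w (Stmt.seq (set i e) p) s T Q :=
  (fw hi he hd ho h).mono hT fun _ h => h

lemma fws {w : ℕ} {a e : E} {p : Stmt} {s : Data} {T : ℕ} {Q : Data → Prop}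
    (ha : a.wf = true) (hda : a.depth ≤ 9) (hoa : a.ok w s)
    (he : e.wf = true) (hd : e.depth ≤ 8) (ho : e.ok w s) (h : HT w p (updm s (a.val s) (e.val s)) T Q) :
    HT w (Stmt.seq (sto a e) p) s (a.size + e.size + 1 + T) Q :=
  HT.seq (R := fun t => t = updm s (a.val s) (e.val s)) (HT.sto ha hda hoa he hd ho rfl le_rfl)
    (by rintro _ rfl; exact h) le_rfl

/-! ### The loops of the first part -/

/-- `R_i := N v` -/
lemma mul_loop {w N v i k : ℕ} {e : E} {s : Data} {T : ℕ} {Q : Data → Prop} (he : e.wf = true)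
    (hd : e.depth ≤ 9) (ho : e.ok w s) (hN : e.val s = N) (hNw : N < 2 ^ w) (hi : i < 20) (hk : k < 20)
    (hik : k ≠ i) (h0 : s.reg i = 0) (hv : s.reg k = v) (hb : N * v < 2 ^ w)
    (h : ∀ t, t.reg i = N * v → Fm [i, 20, 21] s t → Q t) (hT : 14 * N + e.size + 5 ≤ T) :
    HT w (forr 20 21 e (set i (.add (.r i) (.r k)))) s T Q := by
  refine HT.forr N 4 (fun j t => t.reg i = j * v ∧ Fm [i, 20, 21] s t)
    (by decide) (by decide) (by decide) he hd ho hN hNw ?_ ?_ (by omega) ?_
  · refine ⟨?_, fun r hr => ?_, rfl⟩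
    · rw [upd_ne _ _ (by omega), upd_ne _ _ (by omega), h0, Nat.zero_mul]
    · simp only [List.mem_cons, List.not_mem_nil, or_false, not_or] at hr
      rw [upd_ne _ _ (by omega), upd_ne _ _ (by omega)]
  · rintro j hj t ⟨t1, t2, t3⟩ t4 t5
    have hkv : t.reg k = v := by
      rw [t2 k (by simp only [List.mem_cons, List.not_mem_nil, or_false, not_or]; omega), hv]
    have hjN : (j + 1) * v ≤ N * v := Nat.mul_le_mul_right _ hj
    have h5 : (E.add (.r i) (.r k)).val t = (j + 1) * v := by
      simp only [E.val, t1, hkv]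
      ring
    refine HT.set (by omega) ?_ (show 2 ≤ 9 by norm_num) ⟨trivial, trivial, ?_⟩ ?_ (show 4 ≤ 4 by norm_num)
    · simp only [E.wf, Bool.and_eq_true, Bool.or_eq_true, decide_eq_true_eq]
      omega
    · have h6 : (E.r i).val t + (E.r k).val t = (j + 1) * v := h5
      rw [h6]
      omega
    · rw [h5]
      refine ⟨?_, ?_, ?_, fun r hr => ?_, t3⟩
      · rw [upd_ne _ _ (by omega), t4]
      · rw [upd_ne _ _ (by omega), t5]
      · rw [upd_ne _ _ (by omega), upd_ne _ _ (by omega), upd_self]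
      · have hr' := hr
        simp only [List.mem_cons, List.not_mem_nil, or_false, not_or] at hr
        rw [upd_ne _ _ (by omega), upd_ne _ _ (by omega), upd_ne _ _ (by omega)]
        exact t2 r hr'
  · rintro t ⟨t1, t2⟩ - -
    exact h t t1 t2

lemma bb_pos (m : ℕ) : 1 ≤ bb m := le_max_left _ _

lemma bb_le (m : ℕ) : bb m ≤ m + 1 := by
  unfold bb
  have : Nat.size m ≤ m := Nat.size_le.2 Nat.lt_two_pow_self
  omega

lemma lt_bb (m : ℕ) : m < 2 ^ bb m :=
  lt_of_lt_of_le (Nat.lt_size_self m) (Nat.pow_le_pow_right (by norm_num) (le_max_right _ _))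

lemma lt_bb_of {m j : ℕ} (hj : 1 ≤ j) (h : j < bb m) : 2 ^ j ≤ m := by
  unfold bb at h
  have h1 : j < Nat.size m := by omega
  exact Nat.lt_size.1 h1

lemma pow_bb (m : ℕ) : 2 ^ bb m ≤ 2 * m + 2 := by
  rcases Nat.lt_or_ge 1 (bb m) with h | h
  · have h1 := lt_bb_of (m := m) (j := bb m - 1) (by omega) (by omega)
    have h2 : 2 ^ bb m = 2 * 2 ^ (bb m - 1) := by
      rw [← Nat.pow_succ', Nat.succ_eq_add_one, Nat.sub_add_cancel (by omega)]
    omega
  · have : bb m = 1 := le_antisymm h (bb_pos m)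
    rw [this]
    omega

/-- the number of bits -/
lemma bit_loop {w m : ℕ} {s : Data} {T : ℕ} {Q : Data → Prop} (h2 : s.reg 2 = m) (h7 : s.reg 7 = 1)
    (h8 : s.reg 8 = 2) (hw : 4 * m + 4 < 2 ^ w)
    (h : ∀ t, t.reg 7 = bb m → Fm [7, 8, 20, 21] s t → Q t) (hT : 26 * m + 6 ≤ T) :
    HT w (forr 20 21 (.r 2) (cond (.sub (.add (.r 2) (.c 1)) (.r 8))
      (blk [set 8 (.add (.r 8) (.r 8)), set 7 (.add (.r 7) (.c 1))]) .skip)) s T Q := by
  have hbb := bb_le m
  have hb1 := bb_pos m
  refine HT.forr m 16 (fun j t => t.reg 7 = min (j + 1) (bb m) ∧ t.reg 8 = 2 ^ min (j + 1) (bb m) ∧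
    Fm [7, 8, 20, 21] s t)
    (by decide) (by decide) (by decide) rfl (by decide) trivial h2 (by omega) ?_ ?_
    (by simp only [E.size]; omega) ?_
  · refine ⟨?_, ?_, fun r hr => ?_, rfl⟩
    · rw [upd_ne _ _ (by decide), upd_ne _ _ (by decide), h7, Nat.min_eq_left (by omega)]
    · rw [upd_ne _ _ (by decide), upd_ne _ _ (by decide), h8, Nat.min_eq_left (by omega)]
      rfl
    · simp only [List.mem_cons, List.not_mem_nil, or_false, not_or] at hr
      rw [upd_ne _ _ (by omega), upd_ne _ _ (by omega)]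
  · rintro j hj t ⟨t1, t2, t3, t4⟩ t5 t6
    have r2 : t.reg 2 = m := by rw [t3 2 (by decide), h2]
    refine HT.cond (T1 := 8) rfl (by decide) ⟨⟨trivial, ?_, ?_⟩, trivial⟩ (fun hne => ?_) (fun he => ?_)
      (by simp only [E.size]; omega)
    · simp only [E.ok]
      omega
    · simp only [E.val, r2]
      omega
    · simp only [E.val, r2, t2] at hne
      have hjb : j + 1 < bb m := by
        by_contra hc
        rw [Nat.min_eq_right (by omega)] at hne
        have := lt_bb m
        omega
      rw [Nat.min_eq_left (by omega)] at t1 t2 hne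
      have h2p : 2 ^ (j + 1) ≤ m := by omega
      have hdd : 2 ^ (j + 1) + 2 ^ (j + 1) = 2 ^ (j + 2) := by rw [Nat.pow_succ 2 (j + 1)]; ring
      refine fw' 4 (by omega) rfl (by decide) ⟨trivial, trivial, ?_⟩ (by simp only [E.size]; omega) ?_
      · simp only [E.val, t2]
        omega
      refine fw' 0 (by omega) rfl (by decide) ⟨trivial, ?_, ?_⟩ (by simp only [E.size]; omega) (HT.skip ?_)
      · simp only [E.ok]
        omega
      · simp only [E.val]
        rw [upd_ne _ _ (by decide : (7 : ℕ) ≠ 8), t1]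
        omega
      · simp only [E.val]
        rw [upd_ne _ _ (by decide : (7 : ℕ) ≠ 8), t1, t2, hdd, Nat.min_eq_left (by omega : j + 1 + 1 ≤ bb m)]
        refine ⟨?_, ?_, ?_, ?_, fun r hr => ?_, t4⟩
        · rw [upd_ne _ _ (by decide), upd_ne _ _ (by decide), t5]
        · rw [upd_ne _ _ (by decide), upd_ne _ _ (by decide), t6]
        · rw [upd_ne _ _ (by decide), upd_ne _ _ (by decide), upd_self]
        · rw [upd_ne _ _ (by decide), upd_ne _ _ (by decide), upd_ne _ _ (by decide), upd_self]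
        · have hr' := hr
          simp only [List.mem_cons, List.not_mem_nil, or_false, not_or] at hr
          rw [upd_ne _ _ (by omega), upd_ne _ _ (by omega), upd_ne _ _ (by omega), upd_ne _ _ (by omega)]
          exact t3 r hr'
    · simp only [E.val, r2, t2] at he
      have hjb : bb m ≤ j + 1 := by
        by_contra hc
        rw [Nat.min_eq_left (by omega)] at he
        have := lt_bb_of (m := m) (j := j + 1) (by omega) (by omega)
        omega
      rw [Nat.min_eq_right hjb] at t1 t2
      refine HT.skip ⟨t5, t6, ?_, ?_, fun r hr => ?_, t4⟩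
      · rw [upd_ne _ _ (by decide), upd_ne _ _ (by decide), t1, Nat.min_eq_right (by omega)]
      · rw [upd_ne _ _ (by decide), upd_ne _ _ (by decide), t2, Nat.min_eq_right (by omega)]
      · have hr' := hr
        simp only [List.mem_cons, List.not_mem_nil, or_false, not_or] at hr
        rw [upd_ne _ _ (by omega), upd_ne _ _ (by omega)]
        exact t3 r hr'
  · rintro t ⟨t1, -, t3⟩ - -
    rw [Nat.min_eq_right (by omega)] at t1
    exact h t t1 t3

/-- counting: `R_a := J`, `R_b := J D` where `J` is the number of the steps of size `D` that are made; the test is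
given by the value of `c` -/
lemma count_loop {w N J D a b d : ℕ} {e c : E} {s : Data} {T : ℕ} {Q : Data → Prop} (he : e.wf = true)
    (hd : e.depth ≤ 9) (ho : e.ok w s) (hN : e.val s = N) (hNw : N + 2 < 2 ^ w) (hJ : J ≤ N)
    (ha : a < 20) (hb : b < 20) (hdd : d < 20) (hab : a ≠ b) (hda : d ≠ a) (hdb : d ≠ b)
    (h0 : s.reg a = 0) (h0' : s.reg b = 0) (hD : s.reg d = D) (hw : (J + 1) * D < 2 ^ w)
    (hcw : c.wf = true) (hcd : c.depth ≤ 9) (hcs : c.size ≤ 10)
    (hc : ∀ t : Data, Fm [a, b, 20, 21] s t → ∀ j, t.reg a = min j J → t.reg b = min j J * D → c.ok w t ∧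
      (c.val t ≠ 0 ↔ min j J < J))
    (h : ∀ t, t.reg a = J → Fm [a, b, 20, 21] s t → Q t) (hT : 30 * N + e.size + 5 ≤ T) :
    HT w (forr 20 21 e (cond c
      (blk [set a (.add (.r a) (.c 1)), set b (.add (.r b) (.r d))]) .skip)) s T Q := by
  refine HT.forr N 20 (fun j t => t.reg a = min j J ∧ t.reg b = min j J * D ∧ Fm [a, b, 20, 21] s t)
    (by decide) (by decide) (by decide) he hd ho hN (by omega) ?_ ?_ (by omega) ?_
  · refine ⟨?_, ?_, fun r hr => ?_, rfl⟩
    · rw [upd_ne _ _ (by omega), upd_ne _ _ (by omega), h0, Nat.zero_min]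
    · rw [upd_ne _ _ (by omega), upd_ne _ _ (by omega), h0', Nat.zero_min, Nat.zero_mul]
    · simp only [List.mem_cons, List.not_mem_nil, or_false, not_or] at hr
      rw [upd_ne _ _ (by omega), upd_ne _ _ (by omega)]
  · rintro j hj t ⟨t1, t2, t3⟩ t5 t6
    obtain ⟨c1, c2⟩ := hc t t3 j t1 t2
    have rd : t.reg d = D := by
      rw [t3.1 d (by simp only [List.mem_cons, List.not_mem_nil, or_false, not_or]; omega), hD]
    refine HT.cond (T1 := 8) hcw hcd c1 (fun hne => ?_) (fun he => ?_) (by omega)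
    · rw [c2] at hne
      have hjJ : j < J := by omega
      rw [Nat.min_eq_left hjJ.le] at t1 t2
      have hmin : min (j + 1) J = j + 1 := Nat.min_eq_left hjJ
      have hle : (j + 1) * D ≤ (J + 1) * D := Nat.mul_le_mul_right _ (by omega)
      have hval : j * D + D = (j + 1) * D := by ring
      refine fw' 4 (by omega) ?_ (show 2 ≤ 9 by norm_num) ⟨trivial, ?_, ?_⟩ (show 4 + 4 ≤ 8 by norm_num) ?_
      · simp only [E.wf, Bool.and_true, Bool.or_eq_true, decide_eq_true_eq]
        omega
      · simp only [E.ok]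
        omega
      · simp only [E.val, t1]
        omega
      refine fw' 0 (by omega) ?_ (show 2 ≤ 9 by norm_num) ⟨trivial, trivial, ?_⟩ (show 4 + 0 ≤ 4 by norm_num)
        (HT.skip ?_)
      · simp only [E.wf, Bool.and_eq_true, Bool.or_eq_true, decide_eq_true_eq]
        omega
      · simp only [E.val]
        rw [upd_ne _ _ hab.symm, upd_ne _ _ hda, t2, rd]
        omega
      · simp only [E.val]
        rw [upd_ne _ _ hab.symm, upd_ne _ _ hda, t2, rd, t1, hmin, hval]
        refine ⟨?_, ?_, ?_, ?_, fun r hr => ?_, t3.2⟩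
        · rw [upd_ne _ _ (by omega), upd_ne _ _ (by omega), t5]
        · rw [upd_ne _ _ (by omega), upd_ne _ _ (by omega), t6]
        · rw [upd_ne _ _ (by omega), upd_ne _ _ (by omega), upd_ne _ _ hab, upd_self]
        · rw [upd_ne _ _ (by omega), upd_ne _ _ (by omega), upd_self]
        · have hr' := hr
          simp only [List.mem_cons, List.not_mem_nil, or_false, not_or] at hr
          rw [upd_ne _ _ (by omega), upd_ne _ _ (by omega), upd_ne _ _ (by omega), upd_ne _ _ (by omega)]
          exact t3.1 r hr'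
    · have hjJ : J ≤ j := by
        by_contra hcc
        exact c2.2 (by omega) he
      rw [Nat.min_eq_right hjJ] at t1 t2
      refine HT.skip ⟨t5, t6, ?_, ?_, fun r hr => ?_, t3.2⟩
      · rw [upd_ne _ _ (by omega), upd_ne _ _ (by omega), t1, Nat.min_eq_right (by omega)]
      · rw [upd_ne _ _ (by omega), upd_ne _ _ (by omega), t2, Nat.min_eq_right (by omega)]
      · have hr' := hr
        simp only [List.mem_cons, List.not_mem_nil, or_false, not_or] at hr
        rw [upd_ne _ _ (by omega), upd_ne _ _ (by omega)]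
        exact t3.1 r hr'
  · rintro t ⟨t1, -, t3⟩ - -
    rw [Nat.min_eq_right hJ] at t1
    exact h t t1 t3

lemma fx {w i : ℕ} {e : E} {p : Stmt} {s : Data} {T : ℕ} {Q : Data → Prop} (hi : i < 40 ∨ 50 ≤ i)
    (he : e.wf = true) (hd : e.depth ≤ 9) (ho : e.ok w s) (hT : e.size + 1 ≤ 10)
    (h : HT w p (upd s i (e.val s)) T Q) : HT w (Stmt.seq (set i e) p) s (10 + T) Q :=
  (fw hi he hd ho h).mono (Nat.add_le_add_right hT T) fun _ h => h

lemma fy {w : ℕ} {a e : E} {p : Stmt} {s : Data} {T : ℕ} {Q : Data → Prop}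
    (ha : a.wf = true) (hda : a.depth ≤ 9) (hoa : a.ok w s)
    (he : e.wf = true) (hd : e.depth ≤ 8) (ho : e.ok w s) (hT : a.size + e.size + 1 ≤ 10)
    (h : HT w p (updm s (a.val s) (e.val s)) T Q) : HT w (Stmt.seq (sto a e) p) s (10 + T) Q :=
  (fws ha hda hoa he hd ho h).mono (Nat.add_le_add_right hT T) fun _ h => h

/-! ### The number of the blocks -/

lemma lt_jj {A n K m j : ℕ} (hA : 1 ≤ A) : j < jj A n K m ↔ j * (A * bb m) < n / K := by
  have hD : 0 < A * bb m := Nat.mul_pos hA (bb_pos m)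
  unfold jj
  rw [← Nat.succ_le_iff, Nat.le_div_iff_mul_le hD, Nat.succ_mul]
  omega

lemma jj_le {A n K m : ℕ} (hA : 1 ≤ A) : jj A n K m ≤ n / K := by
  by_contra h
  have h1 := (lt_jj (A := A) (n := n) (K := K) (m := m) (j := n / K) hA).1 (by omega)
  have hD : 0 < A * bb m := Nat.mul_pos hA (bb_pos m)
  exact absurd h1 (not_lt.2 (Nat.le_mul_of_pos_right (n / K) hD))

lemma jj_mul {A n K m : ℕ} (hA : 1 ≤ A) : jj A n K m * (A * bb m) < n / K + A * bb m := by
  have hD : 0 < A * bb m := Nat.mul_pos hA (bb_pos m)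
  have h1 : jj A n K m * (A * bb m) ≤ n / K + A * bb m - 1 := Nat.div_mul_le_self _ _
  have h2 : 0 ≤ n / K := Nat.zero_le _
  omega

lemma kjj_le {A n K m : ℕ} (hA : 1 ≤ A) : K * jj A n K m ≤ n :=
  (Nat.mul_le_mul_left K (jj_le hA)).trans (Nat.mul_div_le n K)

/-- the numbers are words -/
structure W8 (w A n K m : ℕ) : Prop where
  w1 : 2 ^ (nn A n K m + 4) < 2 ^ w
  w2 : 2 ^ (bb m + 1) < 2 ^ w
  w3 : 4 * m + 4 < 2 ^ w
  w4 : n + 2 * (A * bb m) + K + 4 < 2 ^ w
  w5 : n * m + n + m + K + A + 20 < 2 ^ w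
  w6 : nn A n K m + 4 < 2 ^ w

/-- the state before the loops -/
structure S8 {n : ℕ} (A K : ℕ) (L : List (Finset (Fin n))) (t : Data) : Prop where
  r1 : t.reg 1 = n + K
  r2 : t.reg 2 = L.length
  r3 : t.reg 3 = n
  r6 : t.reg 6 = K
  r7 : t.reg 7 = bb L.length
  r9 : t.reg 9 = A * bb L.length
  r12 : t.reg 12 = jj A n K L.length
  r14 : t.reg 14 = K * jj A n K L.length
  r15 : t.reg 15 = 3 + L.length
  r17 : t.reg 17 = 6 + L.length
  r18 : t.reg 18 = 0
  r19 : t.reg 19 = lk A n K L.length 0 0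
  r26 : t.reg 26 = n
  inp : ∀ i < L.length, t.mem (3 + i) = mask (nth L i)

lemma lk_le {A n K m : ℕ} : n + K * jj A n K m ≤ nn A n K m := by
  unfold nn lk
  omega

lemma part1 {w A n K : ℕ} {L : List (Finset (Fin n))} {mem : ℕ → ℕ} {p : Stmt} {T : ℕ} {Q : Data → Prop}
    (hA : 1 ≤ A) (hK : 1 ≤ K) (hW : W8 w A n K L.length)
    (hmem : ∀ i (hi : i < ([n, L.length, K] ++ L.map mask).length),
      mem i = ([n, L.length, K] ++ L.map mask)[i])
    (hp : ∀ t, S8 A K L t → HT w p t T Q) :
    HT w (Stmt.seq (set 3 (.ld (.c 0))) (Stmt.seq (set 2 (.ld (.c 1))) (Stmt.seq (set 6 (.ld (.c 2)))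
      (Stmt.seq (set 1 (.add (.r 3) (.r 6))) (Stmt.seq (set 15 (.add (.c 3) (.r 2)))
      (Stmt.seq (set 17 (.add (.r 15) (.c 3))) (Stmt.seq (set 18 (.c 0)) (Stmt.seq (set 7 (.c 1))
      (Stmt.seq (set 8 (.c 2))
      (Stmt.seq (forr 20 21 (.r 2) (cond (.sub (.add (.r 2) (.c 1)) (.r 8))
        (blk [set 8 (.add (.r 8) (.r 8)), set 7 (.add (.r 7) (.c 1))]) .skip))
      (Stmt.seq (set 9 (.c 0)) (Stmt.seq (forr 20 21 (.c A) (set 9 (.add (.r 9) (.r 7))))
      (Stmt.seq (set 10 (.c 0)) (Stmt.seq (set 11 (.c 0))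
      (Stmt.seq (forr 20 21 (.r 3) (cond (.sub (.add (.r 3) (.c 1)) (.add (.r 11) (.r 6)))
        (blk [set 10 (.add (.r 10) (.c 1)), set 11 (.add (.r 11) (.r 6))]) .skip))
      (Stmt.seq (set 12 (.c 0)) (Stmt.seq (set 13 (.c 0))
      (Stmt.seq (forr 20 21 (.r 10) (cond (.sub (.r 10) (.r 13))
        (blk [set 12 (.add (.r 12) (.c 1)), set 13 (.add (.r 13) (.r 9))]) .skip))
      (Stmt.seq (set 14 (.c 0)) (Stmt.seq (forr 20 21 (.r 6) (set 14 (.add (.r 14) (.r 12))))
      (Stmt.seq (set 19 (.add (.r 3) (.r 14))) (Stmt.seq (set 26 (.r 3)) p))))))))))))))))))))))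
      ⟨fun _ => 0, mem⟩
      (10 + (10 + (10 + (10 + (10 + (10 + (10 + (10 + (10 + ((26 * L.length + 6) + (10 + ((14 * A + 6) +
        (10 + (10 + ((30 * n + 6) + (10 + (10 + ((30 * n + 6) + (10 + ((14 * K + 6) + (10 + (10 +
          T)))))))))))))))))))))) Q := by
  obtain ⟨m0, m1, m2, m3⟩ := getD_enc6 L hmem
  obtain ⟨m, hm⟩ : ∃ m, m = L.length := ⟨_, rfl⟩
  rw [← hm] at hW m1 m3 ⊢
  have hWm := hW.w3
  have hWd := hW.w4
  have hWc := hW.w5
  have hWl := hW.w6
  have hnm : 0 ≤ n * m := Nat.zero_le _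
  have hq : n / K ≤ n := Nat.div_le_self n K
  have hjl := jj_le (A := A) (n := n) (K := K) (m := m) hA
  have hjm := jj_mul (A := A) (n := n) (K := K) (m := m) hA
  have hkj := kjj_le (A := A) (n := n) (K := K) (m := m) hA
  have hqK : n / K * K ≤ n := Nat.div_mul_le_self n K
  have hlk := lk_le (A := A) (n := n) (K := K) (m := m)
  refine fx (by omega) rfl (by decide) (by simp only [E.ok]; omega) (by decide) ?_
  refine fx (by omega) rfl (by decide) (by simp only [E.ok]; omega) (by decide) ?_
  refine fx (by omega) rfl (by decide) (by simp only [E.ok]; omega) (by decide) ?_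
  simp only [E.val, upd_mem, m0, m1, m2]
  refine fx (by omega) rfl (by decide) ⟨trivial, trivial, by simp [E.val, upd_reg]; omega⟩ (by decide) ?_
  refine fx (by omega) rfl (by decide) ⟨by simp only [E.ok]; omega, trivial, by simp [E.val, upd_reg]; omega⟩
    (by decide) ?_
  refine fx (by omega) rfl (by decide) ⟨trivial, by simp only [E.ok]; omega, by simp [E.val, upd_reg]; omega⟩
    (by decide) ?_
  refine fx (by omega) rfl (by decide) (by simp only [E.ok]; omega) (by decide) ?_
  refine fx (by omega) rfl (by decide) (by simp only [E.ok]; omega) (by decide) ?_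
  refine fx (by omega) rfl (by decide) (by simp only [E.ok]; omega) (by decide) ?_
  simp only [E.val]
  generalize hs : upd _ 8 2 = s
  have a1 : s.reg 1 = n + K := by rw [← hs]; simp [upd_reg]
  have a2 : s.reg 2 = m := by rw [← hs]; simp [upd_reg]
  have a3 : s.reg 3 = n := by rw [← hs]; simp [upd_reg]
  have a6 : s.reg 6 = K := by rw [← hs]; simp [upd_reg]
  have a7 : s.reg 7 = 1 := by rw [← hs]; simp [upd_reg]
  have a8 : s.reg 8 = 2 := by rw [← hs]; simp [upd_reg]
  have a15 : s.reg 15 = 3 + m := by rw [← hs]; simp [upd_reg]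
  have a17 : s.reg 17 = 6 + m := by rw [← hs]; simp [upd_reg]; omega
  have a18 : s.reg 18 = 0 := by rw [← hs]; simp [upd_reg]
  have am : s.mem = mem := by rw [← hs]; rfl
  clear hs
  -- the number of bits
  refine HT.seq (R := fun t => t.reg 7 = bb m ∧ Fm [7, 8, 20, 21] s t)
    (bit_loop a2 a7 a8 hWm (fun t h h' => ⟨h, h'⟩) le_rfl) ?_ le_rfl
  rintro t ⟨t7, tf⟩
  refine fx (by omega) rfl (by decide) (by simp only [E.ok]; omega) (by decide) ?_
  have b7 : (upd t 9 0).reg 7 = bb m := by rw [upd_ne _ _ (by decide), t7]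
  refine HT.seq (R := fun u => u.reg 9 = A * bb m ∧ Fm [9, 20, 21] (upd t 9 0) u)
    (mul_loop (N := A) (v := bb m) rfl (show 1 ≤ 9 by norm_num) (by simp only [E.ok]; omega) rfl (by omega) (by decide)
      (by decide) (by decide) (upd_self _ _ _) b7 (by omega) (fun u h h' => ⟨h, h'⟩)
      (by simp only [E.size]; omega)) ?_ le_rfl
  rintro u ⟨u9, uf⟩
  have hu : ∀ r, r ∉ [7, 8, 9, 20, 21] → u.reg r = s.reg r := by
    intro r hr
    simp only [List.mem_cons, List.not_mem_nil, or_false, not_or] at hr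
    rw [uf.1 r (by simp only [List.mem_cons, List.not_mem_nil, or_false, not_or]; omega),
      upd_ne _ _ (by omega), tf.1 r (by simp only [List.mem_cons, List.not_mem_nil, or_false, not_or]; omega)]
  have um : u.mem = mem := by rw [uf.2, upd_mem, tf.2, am]
  have u7 : u.reg 7 = bb m := by rw [uf.1 7 (by decide), b7]
  clear uf tf b7 t7
  refine fx (by omega) rfl (by decide) (by simp only [E.ok]; omega) (by decide) ?_
  refine fx (by omega) rfl (by decide) (by simp only [E.ok]; omega) (by decide) ?_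
  simp only [E.val]
  generalize hv : upd _ 11 0 = v
  have hv' : ∀ r, r ∉ [10, 11] → v.reg r = u.reg r := by
    intro r hr
    simp only [List.mem_cons, List.not_mem_nil, or_false, not_or] at hr
    rw [← hv, upd_ne _ _ (by omega), upd_ne _ _ (by omega)]
  have v10 : v.reg 10 = 0 := by rw [← hv]; simp [upd_reg]
  have v11 : v.reg 11 = 0 := by rw [← hv]; simp [upd_reg]
  have v3 : v.reg 3 = n := by rw [hv' 3 (by decide), hu 3 (by decide), a3]
  have v6 : v.reg 6 = K := by rw [hv' 6 (by decide), hu 6 (by decide), a6]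
  have vm : v.mem = mem := by rw [← hv]; exact um
  clear hv
  have hKs : (n / K + 1) * K = n / K * K + K := by ring
  refine HT.seq (R := fun t => t.reg 10 = n / K ∧ Fm [10, 11, 20, 21] v t)
    (count_loop (N := n) (J := n / K) (D := K) rfl (by decide) trivial v3 (by omega) hq (by decide) (by decide)
      (by decide) (by decide) (by decide) (by decide) v10 v11 v6 (by omega) rfl (by decide) (by decide) ?_
      (fun t h h' => ⟨h, h'⟩) (by simp only [E.size]; omega)) ?_ le_rfl
  · intro t tf j t10 t11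
    have x3 : t.reg 3 = n := by rw [tf.1 3 (by decide), v3]
    have x6 : t.reg 6 = K := by rw [tf.1 6 (by decide), v6]
    have hle : min j (n / K) * K ≤ n / K * K := Nat.mul_le_mul_right _ (Nat.min_le_right _ _)
    refine ⟨⟨⟨trivial, ?_, ?_⟩, trivial, trivial, ?_⟩, ?_⟩
    · simp only [E.ok]
      omega
    · simp only [E.val, x3]
      omega
    · simp only [E.val, x6, t11]
      omega
    · simp only [E.val, x3, x6, t11]
      rw [← Nat.succ_le_iff, Nat.le_div_iff_mul_le hK, Nat.succ_mul]
      omega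
  rintro x ⟨x10, xf⟩
  refine fx (by omega) rfl (by decide) (by simp only [E.ok]; omega) (by decide) ?_
  refine fx (by omega) rfl (by decide) (by simp only [E.ok]; omega) (by decide) ?_
  simp only [E.val]
  generalize hy : upd _ 13 0 = y
  have hy' : ∀ r, r ∉ [10, 11, 12, 13, 20, 21] → y.reg r = u.reg r := by
    intro r hr
    simp only [List.mem_cons, List.not_mem_nil, or_false, not_or] at hr
    rw [← hy, upd_ne _ _ (by omega), upd_ne _ _ (by omega),
      xf.1 r (by simp only [List.mem_cons, List.not_mem_nil, or_false, not_or]; omega),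
      hv' r (by simp only [List.mem_cons, List.not_mem_nil, or_false, not_or]; omega)]
  have y10 : y.reg 10 = n / K := by rw [← hy, upd_ne _ _ (by decide), upd_ne _ _ (by decide), x10]
  have y12 : y.reg 12 = 0 := by rw [← hy]; simp [upd_reg]
  have y13 : y.reg 13 = 0 := by rw [← hy]; simp [upd_reg]
  have y9 : y.reg 9 = A * bb m := by rw [hy' 9 (by decide), u9]
  have ym : y.mem = mem := by rw [← hy]; exact xf.2.trans vm
  clear hy xf x10
  have hjs : (jj A n K m + 1) * (A * bb m) = jj A n K m * (A * bb m) + A * bb m := by ring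
  refine HT.seq (R := fun t => t.reg 12 = jj A n K m ∧ Fm [12, 13, 20, 21] y t)
    (count_loop (N := n / K) (J := jj A n K m) (D := A * bb m) rfl (by decide) trivial y10 (by omega) hjl
      (by decide) (by decide)
      (by decide) (by decide) (by decide) (by decide) y12 y13 y9 (by omega) rfl (by decide) (by decide) ?_
      (fun t h h' => ⟨h, h'⟩) (by simp only [E.size]; omega)) ?_ le_rfl
  · intro t tf j t12 t13
    have z10 : t.reg 10 = n / K := by rw [tf.1 10 (by decide), y10]
    refine ⟨⟨trivial, trivial⟩, ?_⟩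
    simp only [E.val, z10, t13]
    rw [lt_jj hA]
    omega
  rintro z ⟨z12, zf⟩
  refine fx (by omega) rfl (by decide) (by simp only [E.ok]; omega) (by decide) ?_
  simp only [E.val]
  have c6 : (upd z 14 0).reg 6 = K := by
    rw [upd_ne _ _ (by decide), zf.1 6 (by decide), hy' 6 (by decide), hu 6 (by decide), a6]
  have c12 : (upd z 14 0).reg 12 = jj A n K m := by rw [upd_ne _ _ (by decide), z12]
  refine HT.seq (R := fun t => t.reg 14 = K * jj A n K m ∧ Fm [14, 20, 21] (upd z 14 0) t)
    (mul_loop (N := K) (v := jj A n K m) rfl (by decide) trivial c6 (by omega) (by decide) (by decide)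
      (by decide) (upd_self _ _ _) c12 (by omega) (fun u h h' => ⟨h, h'⟩)
      (by simp only [E.size]; omega)) ?_ le_rfl
  rintro d ⟨d14, df⟩
  have hd' : ∀ r, r ∉ [10, 11, 12, 13, 14, 20, 21] → d.reg r = u.reg r := by
    intro r hr
    simp only [List.mem_cons, List.not_mem_nil, or_false, not_or] at hr
    rw [df.1 r (by simp only [List.mem_cons, List.not_mem_nil, or_false, not_or]; omega),
      upd_ne _ _ (by omega),
      zf.1 r (by simp only [List.mem_cons, List.not_mem_nil, or_false, not_or]; omega),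
      hy' r (by simp only [List.mem_cons, List.not_mem_nil, or_false, not_or]; omega)]
  have d3 : d.reg 3 = n := by rw [hd' 3 (by decide), hu 3 (by decide), a3]
  have dm : d.mem = mem := by rw [df.2, upd_mem, zf.2, ym]
  have d12 : d.reg 12 = jj A n K m := by rw [df.1 12 (by decide), c12]
  refine fx (by omega) rfl (by decide) ⟨trivial, trivial, by simp only [E.val, d3, d14]; omega⟩ (by decide) ?_
  refine fx (by omega) rfl (by decide) trivial (by decide) ?_
  simp only [E.val, d3, d14]
  rw [upd_ne _ _ (by decide : (3 : ℕ) ≠ 19), d3]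
  refine hp _ ?_
  have hg : ∀ r, r ∉ [7, 8, 9, 10, 11, 12, 13, 14, 19, 20, 21, 26] →
      (upd (upd d 19 (n + K * jj A n K m)) 26 n).reg r = s.reg r := by
    intro r hr
    simp only [List.mem_cons, List.not_mem_nil, or_false, not_or] at hr
    rw [upd_ne _ _ (by omega), upd_ne _ _ (by omega),
      hd' r (by simp only [List.mem_cons, List.not_mem_nil, or_false, not_or]; omega),
      hu r (by simp only [List.mem_cons, List.not_mem_nil, or_false, not_or]; omega)]
  constructor
  · rw [hg 1 (by decide), a1]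
  · rw [hg 2 (by decide), a2, hm]
  · rw [hg 3 (by decide), a3]
  · rw [hg 6 (by decide), a6]
  · rw [upd_ne _ _ (by decide), upd_ne _ _ (by decide), hd' 7 (by decide), u7, hm]
  · rw [upd_ne _ _ (by decide), upd_ne _ _ (by decide), hd' 9 (by decide), u9, hm]
  · rw [upd_ne _ _ (by decide), upd_ne _ _ (by decide), d12, hm]
  · rw [upd_ne _ _ (by decide), upd_ne _ _ (by decide), d14, hm]
  · rw [hg 15 (by decide), a15, hm]
  · rw [hg 17 (by decide), a17, hm]
  · rw [hg 18 (by decide), a18]
  · rw [upd_ne _ _ (by decide), upd_self, ← hm]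
    unfold lk
    omega
  · rw [upd_self]
  · intro i hi
    change d.mem (3 + i) = _
    rw [dm]
    exact m3 i (hm ▸ hi)

/-! ### The loops over the sets -/

/-- lists of one-word records -/
def One (L : List (List ℕ)) (M : ℕ) : Prop := L.length = M ∧ L.flatten.length = M

lemma One.flatMap {f : ℕ → List (List ℕ)} {M : ℕ} (h : ∀ j, One (f j) M) (j : ℕ) :
    One ((List.range j).flatMap f) (j * M) := by
  induction j with
  | zero => rw [Nat.zero_mul]; exact ⟨rfl, rfl⟩
  | succ j ih =>
    rw [List.range_succ, List.flatMap_append, List.flatMap_singleton, Nat.succ_mul]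
    refine ⟨?_, ?_⟩
    · rw [List.length_append, ih.1, (h j).1]
    · rw [List.flatten_append, List.length_append, ih.2, (h j).2]

/-- the records of the block `j` in slot `i` -/
noncomputable def q1 {n : ℕ} (A K : ℕ) (L : List (Finset (Fin n))) (i j : ℕ) : List (List ℕ) :=
  (List.range L.length).flatMap fun u => [[mask (zset A K L i j u)]]

noncomputable def q2 {n : ℕ} (A K : ℕ) (L : List (Finset (Fin n))) (i : ℕ) : List (List ℕ) :=
  (List.range (jj A n K L.length)).flatMap (q1 A K L i)

noncomputable def q3 {n : ℕ} (A K : ℕ) (L : List (Finset (Fin n))) : List (List ℕ) :=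
  (List.range K).flatMap (q2 A K L)

lemma q0_one {n : ℕ} (A K : ℕ) (L : List (Finset (Fin n))) (i j l : ℕ) :
    One ((List.range l).flatMap fun u => [[mask (zset A K L i j u)]]) l := by
  have := One.flatMap (f := fun u => [[mask (zset A K L i j u)]]) (M := 1) (fun _ => ⟨rfl, rfl⟩) l
  rwa [Nat.mul_one] at this

lemma q1_one {n : ℕ} (A K : ℕ) (L : List (Finset (Fin n))) (i j : ℕ) : One (q1 A K L i j) L.length :=
  q0_one A K L i j L.length

lemma q2_one {n : ℕ} (A K : ℕ) (L : List (Finset (Fin n))) (i : ℕ) :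
    One (q2 A K L i) (jj A n K L.length * L.length) := One.flatMap (q1_one A K L i) _

lemma q3_one {n : ℕ} (A K : ℕ) (L : List (Finset (Fin n))) :
    One (q3 A K L) (K * (jj A n K L.length * L.length)) := One.flatMap (q2_one A K L) _

lemma flatten_flatMap {α : Type} (l : List α) (f : α → List (List ℕ)) :
    (l.flatMap f).flatten = l.flatMap fun x => (f x).flatten := by
  induction l with
  | nil => rfl
  | cons a l ih => rw [List.flatMap_cons, List.flatten_append, ih, List.flatMap_cons]

lemma q3_flatten {n : ℕ} (A K : ℕ) (L : List (Finset (Fin n))) :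
    (q3 A K L).flatten = (fam8 A K L).map mask := by
  unfold q3 fam8
  rw [flatten_flatMap, List.map_flatMap]
  refine congrArg (fun f => List.flatMap f (List.range K)) ?_
  funext i
  unfold q2
  rw [flatten_flatMap, List.map_flatMap]
  refine congrArg (fun f => List.flatMap f (List.range (jj A n K L.length))) ?_
  funext j
  unfold q1
  rw [flatten_flatMap, List.map_map]
  rw [List.map_eq_flatMap]
  refine congrArg (fun f => List.flatMap f (List.range L.length)) ?_
  funext u
  rfl

/-- the state during the loops -/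
structure C8 {n : ℕ} (A K : ℕ) (L : List (Finset (Fin n))) (s : Data) : Prop where
  r2 : s.reg 2 = L.length
  r3 : s.reg 3 = n
  r7 : s.reg 7 = bb L.length
  r9 : s.reg 9 = A * bb L.length
  r12 : s.reg 12 = jj A n K L.length
  inp : ∀ t < L.length, s.mem (3 + t) = mask (nth L t)
  ptr : 3 + L.length ≤ s.reg 17

lemma C8.app {n A K : ℕ} {L : List (Finset (Fin n))} {F : List ℕ} {s t : Data} {R : List (List ℕ)}
    (h : C8 A K L s) (hA : App F s t R) (hF : ∀ r ∈ [2, 3, 7, 9, 12], r ∉ F) : C8 A K L t where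
  r2 := (hA.reg 2 (hF 2 (by simp)) (by decide) (by decide)).trans h.r2
  r3 := (hA.reg 3 (hF 3 (by simp)) (by decide) (by decide)).trans h.r3
  r7 := (hA.reg 7 (hF 7 (by simp)) (by decide) (by decide)).trans h.r7
  r9 := (hA.reg 9 (hF 9 (by simp)) (by decide) (by decide)).trans h.r9
  r12 := (hA.reg 12 (hF 12 (by simp)) (by decide) (by decide)).trans h.r12
  inp := fun i hi => by
    have := h.ptr
    rw [hA.old _ (by omega)]
    exact h.inp i hi
  ptr := by
    have := h.ptr
    have := hA.ptr
    omega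

lemma C8.upd {n A K : ℕ} {L : List (Finset (Fin n))} {s : Data} (h : C8 A K L s) (i v : ℕ)
    (hi : i ∉ [2, 3, 7, 9, 12, 17]) : C8 A K L (SCM.upd s i v) := by
  simp only [List.mem_cons, List.not_mem_nil, or_false, not_or] at hi
  constructor
  · rw [upd_ne _ _ (by omega)]; exact h.r2
  · rw [upd_ne _ _ (by omega)]; exact h.r3
  · rw [upd_ne _ _ (by omega)]; exact h.r7
  · rw [upd_ne _ _ (by omega)]; exact h.r9
  · rw [upd_ne _ _ (by omega)]; exact h.r12
  · exact h.inp
  · rw [upd_ne _ _ (by omega)]; exact h.ptr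

/-- the registers of the inner loop -/
def F1 : List ℕ := [24, 25, 29, 30, 31, 32, 33, 34, 35, 36, 37, 38, 39]

lemma loop1 {w A n K i j : ℕ} {L : List (Finset (Fin n))} {s : Data} (h4 : L4a) (hA : 1 ≤ A)
    (hU : Uniform K n L) (hi : i < K) (hj : j < jj A n K L.length) (hW : W8 w A n K L.length)
    (hc : C8 A K L s) (h22 : s.reg 22 = j) (h26 : s.reg 26 = n + i * jj A n K L.length + j)
    (h19 : s.reg 19 = lk A n K L.length i j) (h27 : s.reg 27 = j * (A * bb L.length))
    (h28 : s.reg 28 = (j + 1) * (A * bb L.length))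
    (hp : s.reg 17 + L.length + 1 < 2 ^ w) (hq : s.reg 18 + L.length + 1 < 2 ^ w) :
    HT w (forr 24 25 (.r 2) set8) s (L.length * (100 * (nn A n K L.length + bb L.length + 4) + 10) + 6)
      (fun t => App F1 s t (q1 A K L i j)) := by
  have hW3 := hW.w3
  have hW4 := hW.w4
  have hW5 := hW.w5
  have hptr := hc.ptr
  refine HT.forApp L.length (100 * (nn A n K L.length + bb L.length + 4)) F1
    (fun u => [[mask (zset A K L i j u)]]) (fun _ _ => True)
    (by decide) (by decide) (by decide) (by decide) (by decide) (by decide) (by decide) (by decide)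
    (by decide) rfl (by decide) trivial hc.r2 (by omega) trivial ?_
    (by simp only [E.size]; omega) (fun t h _ => h)
  intro u hu s' hA' _ h24 h25
  have hc' := hc.app hA' (by decide)
  have hO := q0_one A K L i j u
  have hp1 := hA'.ptr
  have hq1 := hA'.cnt
  rw [hO.2] at hp1
  rw [hO.1] at hq1
  have hjD : (j + 1) * (A * bb L.length) < n / K + A * bb L.length := by
    have h1 := jj_mul (A := A) (n := n) (K := K) (m := L.length) hA
    have h2 : (j + 1) * (A * bb L.length) ≤ jj A n K L.length * (A * bb L.length) :=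
      Nat.mul_le_mul_right _ hj
    omega
  have hnK := Nat.div_le_self n K
  refine (h4 w A n K i j u L s' hA hU hi hj hu hc'.r3 hc'.r7 hc'.r12
    ((hA'.reg 22 (by decide) (by decide) (by decide)).trans h22) h24
    ((hA'.reg 26 (by decide) (by decide) (by decide)).trans h26)
    ((hA'.reg 19 (by decide) (by decide) (by decide)).trans h19)
    ((hA'.reg 27 (by decide) (by decide) (by decide)).trans h27)
    ((hA'.reg 28 (by decide) (by decide) (by decide)).trans h28)
    (hc'.inp u hu) (by omega) (by omega) (by omega) hW.w1 hW.w2 (by omega) (by omega)).mono le_rfl ?_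
  intro t ht
  refine ⟨ht.wk (by decide), ?_, ?_, trivial⟩
  · rw [ht.reg 24 (by decide) (by decide) (by decide), h24]
  · rw [ht.reg 25 (by decide) (by decide) (by decide), h25]

/-- the registers of the middle loop -/
def F2 : List ℕ := [19, 22, 23, 24, 25, 26, 27, 28, 29, 30, 31, 32, 33, 34, 35, 36, 37, 38, 39]

/-- the time of the middle loop -/
def T2l (n A K m : ℕ) : ℕ := jj A n K m * (m * (100 * (nn A n K m + bb m + 4) + 10) + 70) + 6

lemma lk_succ {A n K m i j : ℕ} : lk A n K m i (j + 1) = lk A n K m i j + (bb m + bb m) := by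
  unfold lk
  ring

lemma lk_next {A n K m i : ℕ} : lk A n K m i (jj A n K m - 1) = lk A n K m (i + 1) 0 := by
  unfold lk
  ring

lemma lk_mono {A n K m i j : ℕ} (hi : i < K) (hj : j + 1 ≤ jj A n K m) :
    lk A n K m i j ≤ nn A n K m := by
  unfold nn lk
  have h1 : i * (jj A n K m - 1) + j ≤ K * (jj A n K m - 1) := by
    calc i * (jj A n K m - 1) + j ≤ i * (jj A n K m - 1) + (jj A n K m - 1) := by omega
      _ = (i + 1) * (jj A n K m - 1) := by ring
      _ ≤ K * (jj A n K m - 1) := Nat.mul_le_mul_right _ hi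
  have h2 := Nat.mul_le_mul_right (2 * bb m) h1
  rw [Nat.add_zero]
  omega

lemma loop2 {w A n K i : ℕ} {L : List (Finset (Fin n))} {s : Data} (h4 : L4a) (hA : 1 ≤ A)
    (hU : Uniform K n L) (hi : i < K) (hW : W8 w A n K L.length)
    (hc : C8 A K L s) (h26 : s.reg 26 = n + i * jj A n K L.length)
    (h19 : s.reg 19 = lk A n K L.length i 0) (h27 : s.reg 27 = 0)
    (h28 : s.reg 28 = A * bb L.length)
    (hp : s.reg 17 + jj A n K L.length * L.length + 1 < 2 ^ w)
    (hq : s.reg 18 + jj A n K L.length * L.length + 1 < 2 ^ w) :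
    HT w (forr 22 23 (.r 12) (blk [
      forr 24 25 (.r 2) set8,
      set 26 (.add (.r 26) (.c 1)), set 27 (.r 28), set 28 (.add (.r 28) (.r 9)),
      cond (.sub (.r 12) (.add (.r 22) (.c 1))) (set 19 (.add (.r 19) (.add (.r 7) (.r 7)))) .skip])) s
      (T2l n A K L.length)
      (fun t => App F2 s t (q2 A K L i) ∧ t.reg 26 = n + (i + 1) * jj A n K L.length ∧
        t.reg 19 = lk A n K L.length i (jj A n K L.length - 1)) := by
  have hW3 := hW.w3
  have hW4 := hW.w4
  have hW5 := hW.w5
  have hW6 := hW.w6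
  have hptr := hc.ptr
  obtain ⟨m, hm⟩ : ∃ m, m = L.length := ⟨_, rfl⟩
  have hlk := lk_le (A := A) (n := n) (K := K) (m := m)
  have hkj := kjj_le (A := A) (n := n) (K := K) (m := m) hA
  have hjq := jj_le (A := A) (n := n) (K := K) (m := m) hA
  have hnK := Nat.div_le_self n K
  rw [hm] at hlk hkj hjq
  refine HT.forApp (jj A n K L.length) (L.length * (100 * (nn A n K L.length + bb L.length + 4) + 10) + 60) F2
    (q1 A K L i) (fun j t => t.reg 26 = n + i * jj A n K L.length + j ∧
      t.reg 19 = lk A n K L.length i (min j (jj A n K L.length - 1)) ∧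
      t.reg 27 = j * (A * bb L.length) ∧ t.reg 28 = (j + 1) * (A * bb L.length))
    (by decide) (by decide) (by decide) (by decide) (by decide) (by decide) (by decide) (by decide)
    (by decide) rfl (by decide) trivial hc.r12 (by omega) ?_ ?_
    (by simp only [E.size, T2l]; exact le_of_eq (by ring)) ?_
  · refine ⟨?_, ?_, ?_, ?_⟩
    · rw [upd_ne _ _ (by decide), upd_ne _ _ (by decide), h26]
      rfl
    · rw [upd_ne _ _ (by decide), upd_ne _ _ (by decide), h19, Nat.zero_min]
    · rw [upd_ne _ _ (by decide), upd_ne _ _ (by decide), h27, Nat.zero_mul]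
    · rw [upd_ne _ _ (by decide), upd_ne _ _ (by decide), h28, Nat.zero_add, Nat.one_mul]
  · rintro j hj s' hA' ⟨h26', h19', h27', h28'⟩ h22 h23
    rw [Nat.min_eq_left (by omega)] at h19'
    have hc' := hc.app hA' (by decide)
    have hO := One.flatMap (q1_one A K L i) j
    have hp1 := hA'.ptr
    have hq1 := hA'.cnt
    rw [hO.2] at hp1
    rw [hO.1] at hq1
    have hjm : j * L.length + L.length ≤ jj A n K L.length * L.length := by
      rw [← Nat.succ_mul]
      exact Nat.mul_le_mul_right _ hj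
    have hijK : i * jj A n K L.length + jj A n K L.length ≤ K * jj A n K L.length := by
      rw [← Nat.succ_mul]
      exact Nat.mul_le_mul_right _ hi
    have hjD : (j + 1) * (A * bb L.length) < n / K + A * bb L.length := by
      have h1 := jj_mul (A := A) (n := n) (K := K) (m := L.length) hA
      have h2 : (j + 1) * (A * bb L.length) ≤ jj A n K L.length * (A * bb L.length) :=
        Nat.mul_le_mul_right _ hj
      omega
    have hjs : (j + 1 + 1) * (A * bb L.length) = (j + 1) * (A * bb L.length) + A * bb L.length := by ring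
    refine HT.seq (R := fun t => App F1 s' t (q1 A K L i j))
      (T2 := 50)
      (loop1 h4 hA hU hi hj hW hc' h22 h26' h19' h27' h28' (by omega) (by omega)) ?_ (by omega)
    intro t ht
    have hct := hc'.app ht (by decide)
    have t26 : t.reg 26 = n + i * jj A n K L.length + j := by
      rw [ht.reg 26 (by decide) (by decide) (by decide), h26']
    have t19 : t.reg 19 = lk A n K L.length i j := by
      rw [ht.reg 19 (by decide) (by decide) (by decide), h19']
    have t28 : t.reg 28 = (j + 1) * (A * bb L.length) := by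
      rw [ht.reg 28 (by decide) (by decide) (by decide), h28']
    have t22 : t.reg 22 = j := by rw [ht.reg 22 (by decide) (by decide) (by decide), h22]
    have t23 : t.reg 23 = jj A n K L.length - j := by
      rw [ht.reg 23 (by decide) (by decide) (by decide), h23]
    have t9 := hct.r9
    have t7 := hct.r7
    have t12 := hct.r12
    refine HT.mono (T := 10 + (10 + (10 + 20))) (Q := fun t =>
      App F2 s' t (q1 A K L i j) ∧
      t.reg 22 = j ∧
        t.reg 23 = jj A n K L.length - j ∧
          (SCM.upd (SCM.upd t 22 (j + 1)) 23 (jj A n K L.length - (j + 1))).reg 26 =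
              n + i * jj A n K L.length + (j + 1) ∧
            (SCM.upd (SCM.upd t 22 (j + 1)) 23 (jj A n K L.length - (j + 1))).reg 19 =
                lk A n K L.length i (min (j + 1) (jj A n K L.length - 1)) ∧
              (SCM.upd (SCM.upd t 22 (j + 1)) 23 (jj A n K L.length - (j + 1))).reg 27 =
                  (j + 1) * (A * bb L.length) ∧
                (SCM.upd (SCM.upd t 22 (j + 1)) 23 (jj A n K L.length - (j + 1))).reg 28 =
                  (j + 1 + 1) * (A * bb L.length)) ?_ (by norm_num) (fun _ h => h)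
    refine fx (by omega) rfl (by decide) ⟨trivial, by simp only [E.ok]; omega,
      by simp only [E.val, t26]; omega⟩ (by decide) ?_
    refine fx (by omega) rfl (by decide) trivial (by decide) ?_
    refine fx (by omega) rfl (by decide) ⟨trivial, trivial, by simp [E.val, upd_reg, t28, t9]; omega⟩
      (by decide) ?_
    simp only [E.val, t26]
    rw [upd_ne _ _ (by decide : (28 : ℕ) ≠ 27), upd_ne _ _ (by decide : (28 : ℕ) ≠ 26),
      upd_ne _ _ (by decide : (9 : ℕ) ≠ 27), upd_ne _ _ (by decide : (9 : ℕ) ≠ 26), t28, t9]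
    generalize hv : upd (upd (upd t 26 (n + i * jj A n K L.length + j + 1)) 27 ((j + 1) * (A * bb L.length)))
      28 ((j + 1) * (A * bb L.length) + A * bb L.length) = v
    have hAv : App F2 s' v (q1 A K L i j) := by
      rw [← hv]
      exact (((ht.wk (F' := F2) (by decide)).upd _ (by decide) (by decide) (by decide)).upd _ (by decide)
        (by decide) (by decide)).upd _ (by decide) (by decide) (by decide)
    have v26 : v.reg 26 = n + i * jj A n K L.length + (j + 1) := by
      rw [← hv, upd_ne _ _ (by decide), upd_ne _ _ (by decide), upd_self]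
      ring
    have v27 : v.reg 27 = (j + 1) * (A * bb L.length) := by
      rw [← hv, upd_ne _ _ (by decide), upd_self]
    have v28 : v.reg 28 = (j + 1 + 1) * (A * bb L.length) := by
      rw [← hv, upd_self]
      ring
    have hvr : ∀ r, r ∉ [26, 27, 28] → v.reg r = t.reg r := by
      intro r hr
      simp only [List.mem_cons, List.not_mem_nil, or_false, not_or] at hr
      rw [← hv, upd_ne _ _ (by omega), upd_ne _ _ (by omega), upd_ne _ _ (by omega)]
    have v19 : v.reg 19 = lk A n K L.length i j := by rw [hvr 19 (by decide), t19]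
    have v22 : v.reg 22 = j := by rw [hvr 22 (by decide), t22]
    have v23 : v.reg 23 = jj A n K L.length - j := by rw [hvr 23 (by decide), t23]
    have v12 : v.reg 12 = jj A n K L.length := by rw [hvr 12 (by decide), t12]
    have v7 : v.reg 7 = bb L.length := by rw [hvr 7 (by decide), t7]
    clear hv hvr
    refine HT.seq (T1 := 20) (T2 := 0) (R := fun x => App F2 s' x (q1 A K L i j) ∧
      x.reg 22 = j ∧ x.reg 23 = jj A n K L.length - j ∧
      x.reg 26 = n + i * jj A n K L.length + (j + 1) ∧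
      x.reg 19 = lk A n K L.length i (min (j + 1) (jj A n K L.length - 1)) ∧
      x.reg 27 = (j + 1) * (A * bb L.length) ∧ x.reg 28 = (j + 1 + 1) * (A * bb L.length)) ?_ ?_ le_rfl
    · refine HT.cond (T1 := 6) rfl (by decide) ⟨trivial, trivial, by simp only [E.ok]; omega,
        by simp only [E.val, v22]; omega⟩ (fun hne => ?_) (fun he => ?_) (by simp only [E.size]; norm_num)
      · simp only [E.val, v12, v22] at hne
        have hlt := lk_mono (A := A) (n := n) (m := L.length) (j := j + 1) hi (by omega)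
        rw [lk_succ] at hlt
        have hbb2 : bb L.length + bb L.length < 2 ^ w := by omega
        refine HT.set (by omega) rfl (by decide) ⟨trivial, ⟨trivial, trivial, ?_⟩, ?_⟩ ?_ (by decide)
        · simp only [E.val, v7]
          exact hbb2
        · simp only [E.val, v7, v19]
          omega
        · simp only [E.val, v7, v19]
          rw [← lk_succ, Nat.min_eq_left (by omega)]
          refine ⟨hAv.upd _ (by decide) (by decide) (by decide), ?_, ?_, ?_, ?_, ?_, ?_⟩
          · rw [upd_ne _ _ (by decide), v22]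
          · rw [upd_ne _ _ (by decide), v23]
          · rw [upd_ne _ _ (by decide), v26]
          · rw [upd_self]
          · rw [upd_ne _ _ (by decide), v27]
          · rw [upd_ne _ _ (by decide), v28]
      · simp only [E.val, v12, v22] at he
        have hje : j = jj A n K L.length - 1 := by omega
        refine HT.skip ⟨hAv, v22, v23, v26, ?_, v27, v28⟩
        rw [Nat.min_eq_right (by omega), v19, ← hje]
    · rintro x ⟨x1, x2, x3, x4, x5, x6, x7⟩
      refine HT.skip ⟨x1, x2, x3, ?_, ?_, ?_, ?_⟩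
      · rw [upd_ne _ _ (by decide), upd_ne _ _ (by decide), x4]
      · rw [upd_ne _ _ (by decide), upd_ne _ _ (by decide), x5]
      · rw [upd_ne _ _ (by decide), upd_ne _ _ (by decide), x6]
      · rw [upd_ne _ _ (by decide), upd_ne _ _ (by decide), x7]
  · rintro t ht ⟨t26, t19, -, -⟩
    refine ⟨ht, ?_, ?_⟩
    · rw [t26]
      ring
    · rw [t19, Nat.min_eq_right (by omega)]

/-- the middle loop -/
def mid : Stmt := forr 22 23 (.r 12) (blk [
      forr 24 25 (.r 2) set8,
      set 26 (.add (.r 26) (.c 1)), set 27 (.r 28), set 28 (.add (.r 28) (.r 9)),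
      cond (.sub (.r 12) (.add (.r 22) (.c 1))) (set 19 (.add (.r 19) (.add (.r 7) (.r 7)))) .skip])

/-- the registers of the outer loop -/
def F3 : List ℕ := [19, 20, 21, 22, 23, 24, 25, 26, 27, 28, 29, 30, 31, 32, 33, 34, 35, 36, 37, 38, 39]

lemma loop3 {w A n K : ℕ} {L : List (Finset (Fin n))} {s : Data} (h4 : L4a) (hA : 1 ≤ A)
    (hU : Uniform K n L) (hW : W8 w A n K L.length)
    (hc : C8 A K L s) (h6 : s.reg 6 = K) (h26 : s.reg 26 = n)
    (h19 : s.reg 19 = lk A n K L.length 0 0)
    (hp : s.reg 17 + K * (jj A n K L.length * L.length) + 1 < 2 ^ w)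
    (hq : s.reg 18 + K * (jj A n K L.length * L.length) + 1 < 2 ^ w) :
    HT w (forr 20 21 (.r 6) (blk [set 27 (.c 0), set 28 (.r 9), mid])) s
      (K * (T2l n A K L.length + 30) + 6)
      (fun t => App F3 s t (q3 A K L) ∧ t.reg 19 = nn A n K L.length) := by
  have hW5 := hW.w5
  refine HT.forApp K (T2l n A K L.length + 20) F3 (q2 A K L)
    (fun i t => t.reg 26 = n + i * jj A n K L.length ∧ t.reg 19 = lk A n K L.length i 0)
    (by decide) (by decide) (by decide) (by decide) (by decide) (by decide) (by decide) (by decide)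
    (by decide) rfl (by decide) trivial h6 (by omega) ?_ ?_
    (by
      have e : K * (T2l n A K L.length + 20 + 10) = K * (T2l n A K L.length + 30) := by ring
      simp only [E.size]
      omega) (fun t h h' => ⟨h, h'.2⟩)
  · refine ⟨?_, ?_⟩
    · rw [upd_ne _ _ (by decide), upd_ne _ _ (by decide), h26, Nat.zero_mul]
      rfl
    · rw [upd_ne _ _ (by decide), upd_ne _ _ (by decide), h19]
  · rintro i hi s' hA' ⟨h26', h19'⟩ h20 h21
    have hc' := hc.app hA' (by decide)
    have hO := One.flatMap (q2_one A K L) i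
    have hp1 := hA'.ptr
    have hq1 := hA'.cnt
    rw [hO.2] at hp1
    rw [hO.1] at hq1
    have him : i * (jj A n K L.length * L.length) + jj A n K L.length * L.length ≤
        K * (jj A n K L.length * L.length) := by
      rw [← Nat.succ_mul]
      exact Nat.mul_le_mul_right _ hi
    refine HT.mono (T := 10 + (10 + (T2l n A K L.length + 0))) (Q := fun t => App F3 s' t (q2 A K L i) ∧
      t.reg 20 = i ∧ t.reg 21 = K - i ∧
      (SCM.upd (SCM.upd t 20 (i + 1)) 21 (K - (i + 1))).reg 26 = n + (i + 1) * jj A n K L.length ∧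
      (SCM.upd (SCM.upd t 20 (i + 1)) 21 (K - (i + 1))).reg 19 = lk A n K L.length (i + 1) 0)
      ?_ (by omega) (fun _ h => h)
    refine fx (by omega) rfl (by decide) (by simp only [E.ok]; omega) (by decide) ?_
    refine fx (by omega) rfl (by decide) trivial (by decide) ?_
    simp only [E.val]
    rw [upd_ne _ _ (by decide : (9 : ℕ) ≠ 27), hc'.r9]
    generalize hu : SCM.upd (SCM.upd s' 27 0) 28 (A * bb L.length) = u
    have hcu : C8 A K L u := by
      rw [← hu]
      exact (hc'.upd 27 0 (by decide)).upd 28 _ (by decide)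
    have hur : ∀ r, r ≠ 27 → r ≠ 28 → u.reg r = s'.reg r := by
      intro r h1 h2
      rw [← hu, upd_ne _ _ h2, upd_ne _ _ h1]
    have u27 : u.reg 27 = 0 := by rw [← hu, upd_ne _ _ (by decide), upd_self]
    have u28 : u.reg 28 = A * bb L.length := by rw [← hu, upd_self]
    refine HT.seq (R := fun t => App F2 u t (q2 A K L i) ∧ t.reg 26 = n + (i + 1) * jj A n K L.length ∧
        t.reg 19 = lk A n K L.length i (jj A n K L.length - 1))
      (loop2 h4 hA hU hi hW hcu (by rw [hur 26 (by decide) (by decide), h26'])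
        (by rw [hur 19 (by decide) (by decide), h19']) u27 u28
        (by rw [hur 17 (by decide) (by decide)]; omega) (by rw [hur 18 (by decide) (by decide)]; omega))
      ?_ le_rfl
    rintro t ⟨ht, t26, t19⟩
    have hAt : App F3 s' t (q2 A K L i) := by
      have h1 : App F3 (SCM.upd (SCM.upd s' 27 0) 28 (A * bb L.length)) t (q2 A K L i) := by
        rw [hu]
        exact ht.wk (by decide)
      exact (h1.upd0 (i := 28) (by decide) (by decide) (by decide)).upd0 (i := 27) (by decide) (by decide)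
        (by decide)
    refine HT.skip ⟨hAt, ?_, ?_, ?_, ?_⟩
    · rw [ht.reg 20 (by decide) (by decide) (by decide), hur 20 (by decide) (by decide), h20]
    · rw [ht.reg 21 (by decide) (by decide) (by decide), hur 21 (by decide) (by decide), h21]
    · rw [upd_ne _ _ (by decide), upd_ne _ _ (by decide), t26]
    · rw [upd_ne _ _ (by decide), upd_ne _ _ (by decide), t19, lk_next]

/-- the last part of the program -/
lemma part2 {w A n K : ℕ} {L : List (Finset (Fin n))} {s : Data} (h4 : L4a) (hA : 1 ≤ A)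
    (hU : Uniform K n L) (hW : W8 w A n K L.length) (hs : S8 A K L s) :
    HT w (Stmt.seq (forr 20 21 (.r 6) (blk [set 27 (.c 0), set 28 (.r 9), mid]))
      (Stmt.seq (sto (.r 15) (.r 19)) (Stmt.seq (sto (.add (.r 15) (.c 1)) (.r 18))
      (Stmt.seq (sto (.add (.r 15) (.c 2)) (.r 14)) Stmt.skip)))) s
      ((K * (T2l n A K L.length + 30) + 6) + (10 + (10 + (10 + 0)))) (fun t =>
        t.reg 1 = n + K ∧ t.reg 2 = L.length ∧ t.reg 15 = 3 + L.length ∧ Wr t (3 + L.length)
        ([nn A n K L.length, (fam8 A K L).length, K * jj A n K L.length] ++ (fam8 A K L).map mask)) := by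
  have hW5 := hW.w5
  have hkj := kjj_le (A := A) (n := n) (K := K) (m := L.length) hA
  have hkjm : K * (jj A n K L.length * L.length) ≤ n * L.length := by
    rw [← Nat.mul_assoc]
    exact Nat.mul_le_mul_right _ hkj
  have hO := q3_one A K L
  have hfl := q3_flatten A K L
  have hlen : (fam8 A K L).length = (q3 A K L).length := by
    rw [hO.1, ← hO.2, hfl, List.length_map]
  have hc : C8 A K L s := ⟨hs.r2, hs.r3, hs.r7, hs.r9, hs.r12, hs.inp, by rw [hs.r17]; omega⟩
  have hs17 := hs.r17
  have hs18 := hs.r18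
  refine HT.seq (R := fun t => App F3 s t (q3 A K L) ∧ t.reg 19 = nn A n K L.length)
    (loop3 h4 hA hU hW hc hs.r6 hs.r26 hs.r19 (by omega) (by omega)) ?_ le_rfl
  rintro t ⟨ht, t19⟩
  have t1 : t.reg 1 = n + K := (ht.reg 1 (by decide) (by decide) (by decide)).trans hs.r1
  have t2 : t.reg 2 = L.length := (ht.reg 2 (by decide) (by decide) (by decide)).trans hs.r2
  have t14 : t.reg 14 = K * jj A n K L.length := (ht.reg 14 (by decide) (by decide) (by decide)).trans hs.r14
  have t15 : t.reg 15 = 3 + L.length := (ht.reg 15 (by decide) (by decide) (by decide)).trans hs.r15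
  have t18 : t.reg 18 = (fam8 A K L).length := by rw [ht.cnt, hs18, hlen, Nat.zero_add]
  have hnew : Wr t (6 + L.length) ((fam8 A K L).map mask) := by
    have h1 : Wr t (s.reg 17) (q3 A K L).flatten := ht.new
    rwa [hs17, hfl] at h1
  refine fy rfl (by decide) trivial rfl (by decide) trivial (by decide) ?_
  refine fy rfl (by decide) ⟨trivial, by simp only [E.ok]; omega, by simp only [E.val, updm_reg, t15]; omega⟩
    rfl (by decide) trivial (by decide) ?_
  refine fy rfl (by decide) ⟨trivial, by simp only [E.ok]; omega, by simp only [E.val, updm_reg, t15]; omega⟩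
    rfl (by decide) trivial (by decide) ?_
  simp only [E.val, updm_reg, t15, t19, t18, t14]
  refine HT.skip ⟨t1, t2, t15, wr_append ?_ ?_⟩
  · intro i hi
    simp only [List.length_cons, List.length_nil] at hi
    have hi' : i = 0 ∨ i = 1 ∨ i = 2 := by omega
    rcases hi' with rfl | rfl | rfl
    · simp only [Nat.add_zero]
      rw [updm_ne _ _ (by omega), updm_ne _ _ (by omega), updm_self]
      rfl
    · rw [updm_ne _ _ (by omega), updm_self]
      rfl
    · rw [updm_self]
      rfl
  · have e : 3 + L.length + [nn A n K L.length, (fam8 A K L).length, K * jj A n K L.length].length =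
        6 + L.length := by
      simp only [List.length_cons, List.length_nil]
      omega
    rw [e]
    refine wr_congr hnew fun b hb _ => ?_
    rw [updm_ne _ _ (by omega), updm_ne _ _ (by omega), updm_ne _ _ (by omega)]

/-- the whole program -/
lemma fin8 {w A n K : ℕ} {L : List (Finset (Fin n))} {mem : ℕ → ℕ} (h4 : L4a) (hA : 1 ≤ A) (hK : 1 ≤ K)
    (hU : Uniform K n L) (hW : W8 w A n K L.length)
    (hmem : ∀ i (hi : i < ([n, L.length, K] ++ L.map mask).length),
      mem i = ([n, L.length, K] ++ L.map mask)[i]) :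
    HT w (g8 A) ⟨fun _ => 0, mem⟩
      (10 + (10 + (10 + (10 + (10 + (10 + (10 + (10 + (10 + ((26 * L.length + 6) + (10 + ((14 * A + 6) +
        (10 + (10 + ((30 * n + 6) + (10 + (10 + ((30 * n + 6) + (10 + ((14 * K + 6) + (10 + (10 +
          ((K * (T2l n A K L.length + 30) + 6) + (10 + (10 + (10 + 0)))))))))))))))))))))))))) (fun t =>
        t.reg 1 = n + K ∧ t.reg 2 = L.length ∧ t.reg 15 = 3 + L.length ∧ Wr t (3 + L.length)
        ([nn A n K L.length, (fam8 A K L).length, K * jj A n K L.length] ++ (fam8 A K L).map mask)) :=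
  part1 hA hK hW hmem (fun _ hs => part2 h4 hA hU hW hs)

/-! ### Numbers -/

lemma mask_lt8 {n : ℕ} (A : Finset (Fin n)) : mask A < 2 ^ n := by
  unfold mask
  calc ∑ i ∈ A, 2 ^ (i : ℕ) ≤ ∑ i : Fin n, 2 ^ (i : ℕ) :=
        Finset.sum_le_sum_of_subset (Finset.subset_univ _)
    _ = ∑ i ∈ Finset.range n, 2 ^ i := Fin.sum_univ_eq_sum_range (fun i => 2 ^ i) n
    _ < 2 ^ n := Nat.geomSum_lt (le_refl 2) (fun k hk => Finset.mem_range.1 hk)

lemma nn_le {A n K m : ℕ} (hA : 1 ≤ A) (h : A * nn A n K m ≤ (A + 3) * n + A * K) :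
    nn A n K m ≤ 4 * n + K := by
  have h1 : A * nn A n K m ≤ A * (4 * n + K) := by
    calc A * nn A n K m ≤ (A + 3) * n + A * K := h
      _ ≤ (4 * A) * n + A * K := Nat.add_le_add_right (Nat.mul_le_mul_right _ (by omega)) _
      _ = A * (4 * n + K) := by ring
  exact Nat.le_of_mul_le_mul_left h1 hA

lemma pw (A B : ℕ) (hB : 2 ≤ B) : (A + 1) * 1000000 * B ^ 4 ≤ B ^ (A + 40) := by
  have h1 : A + 1 ≤ 2 ^ A := Nat.lt_two_pow_self
  have h2 : 2 ^ (A + 36) ≤ B ^ (A + 36) := Nat.pow_le_pow_left hB _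
  calc (A + 1) * 1000000 * B ^ 4 ≤ 2 ^ A * 2 ^ 36 * B ^ 4 :=
        Nat.mul_le_mul_right _ (Nat.mul_le_mul h1 (by norm_num))
    _ = 2 ^ (A + 36) * B ^ 4 := by rw [Nat.pow_add]
    _ ≤ B ^ (A + 36) * B ^ 4 := Nat.mul_le_mul_right _ h2
    _ = B ^ (A + 40) := by rw [← Nat.pow_add]

/-- all sizes are small compared with `2^w` -/
lemma bigA (A n K m : ℕ) : (A + 1) * (1000 * (16 * 2 ^ (4 * n + K) + (n + K + m + 2) ^ 4)) <
    (2 ^ (n + K) * (n + K + m + 2)) ^ (A + 40) := by
  set B := n + K + m + 2 with hB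
  have h1 := pw A B (by omega)
  have h2 : 2 ^ (4 * n + K) ≤ (2 ^ (n + K)) ^ (A + 40) := by
    rw [← Nat.pow_mul]
    exact Nat.pow_le_pow_right (by norm_num) (by nlinarith)
  have h3 : 1 ≤ 2 ^ (4 * n + K) := Nat.one_le_two_pow
  have h4 : 1 ≤ B ^ 4 := Nat.one_le_pow _ _ (by omega)
  set P := 2 ^ (4 * n + K) with hP
  have h5 : P * ((A + 1) * 1000000 * B ^ 4) ≤ (2 ^ (n + K) * B) ^ (A + 40) := by
    rw [Nat.mul_pow]
    exact Nat.mul_le_mul h2 h1
  have h6 : P ≤ P * B ^ 4 := Nat.le_mul_of_pos_right _ h4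
  have h7 : B ^ 4 ≤ P * B ^ 4 := Nat.le_mul_of_pos_left _ h3
  have h8 : P * ((A + 1) * 1000000 * B ^ 4) = (A + 1) * (1000000 * (P * B ^ 4)) := by ring
  have h9 : (A + 1) * (1000 * (16 * P + B ^ 4)) < (A + 1) * (1000000 * (P * B ^ 4)) := by
    refine Nat.mul_lt_mul_of_pos_left ?_ (Nat.succ_pos A)
    generalize P * B ^ 4 = Z at *
    generalize B ^ 4 = Y at *
    omega
  omega

/-- products -/
lemma prods {n K m : ℕ} : n ≤ (n + K + m + 2) ^ 4 ∧ K ≤ (n + K + m + 2) ^ 4 ∧ m ≤ (n + K + m + 2) ^ 4 ∧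
    n * m ≤ (n + K + m + 2) ^ 4 ∧ 16 ≤ (n + K + m + 2) ^ 4 := by
  obtain ⟨k1, k2, k3, k4, -, -, k7⟩ := num6 n K m
  exact ⟨k1, k2, k3, by rw [Nat.mul_comm]; exact k4, k7⟩

lemma w8_of {w A n K m : ℕ} (hA : 1 ≤ A) (h : nn A n K m ≤ 4 * n + K)
    (hw : (2 ^ (n + K) * (n + K + m + 2)) ^ (A + 40) ≤ 2 ^ w) : W8 w A n K m := by
  have h1 := (bigA A n K m).trans_le hw
  obtain ⟨k1, k2, k3, k4, k5⟩ := prods (n := n) (K := K) (m := m)
  have hb := pow_bb m
  have hb' := bb_le m
  have hB4 : n + K + m + 2 ≤ (n + K + m + 2) ^ 4 := Nat.le_self_pow (by norm_num) _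
  have hs : 2 ^ (bb m + 1) = 2 * 2 ^ bb m := by rw [Nat.pow_succ]; ring
  have hn : 2 ^ (nn A n K m + 4) ≤ 16 * 2 ^ (4 * n + K) := by
    rw [Nat.pow_add, Nat.mul_comm]
    exact Nat.mul_le_mul_left _ (Nat.pow_le_pow_right (by norm_num) h)
  have hnl : nn A n K m + 4 < 2 ^ (nn A n K m + 4) := Nat.lt_two_pow_self
  have h2 : 1000 * (16 * 2 ^ (4 * n + K) + (n + K + m + 2) ^ 4) ≤
      (A + 1) * (1000 * (16 * 2 ^ (4 * n + K) + (n + K + m + 2) ^ 4)) :=
    Nat.le_mul_of_pos_left _ (Nat.succ_pos A)
  have h3 : A * bb m ≤ A * (n + K + m + 2) ^ 4 := Nat.mul_le_mul_left _ (by omega)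
  have h4 : (A + 1) * (1000 * (16 * 2 ^ (4 * n + K) + (n + K + m + 2) ^ 4)) =
      1000 * (A * (16 * 2 ^ (4 * n + K))) + 1000 * (A * (n + K + m + 2) ^ 4) +
        1000 * (16 * 2 ^ (4 * n + K) + (n + K + m + 2) ^ 4) := by ring
  have h5 : A ≤ A * (n + K + m + 2) ^ 4 := Nat.le_mul_of_pos_right _ (by omega)
  generalize A * (16 * 2 ^ (4 * n + K)) = z1 at *
  generalize A * (n + K + m + 2) ^ 4 = z2 at *
  generalize (A + 1) * (1000 * (16 * 2 ^ (4 * n + K) + (n + K + m + 2) ^ 4)) = z3 at *
  generalize 16 * 2 ^ (4 * n + K) = z4 at *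
  generalize (n + K + m + 2) ^ 4 = z5 at *
  constructor <;> omega

lemma mid_time {A n K m B : ℕ} (hA : 1 ≤ A) (h : nn A n K m ≤ 4 * n + K) (hB : B = n + K + m + 2) :
    K * (T2l n A K m + 30) ≤ 3000 * B ^ 4 := by
  have hkj := kjj_le (A := A) (n := n) (K := K) (m := m) hA
  have hb := bb_le m
  have e1 : K * (T2l n A K m + 30) = K * jj A n K m * (m * (100 * (nn A n K m + bb m + 4) + 10) + 70) +
      36 * K := by
    unfold T2l
    ring
  have e2 : 100 * (nn A n K m + bb m + 4) + 10 ≤ 2000 * B := by omega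
  rw [e1]
  generalize 100 * (nn A n K m + bb m + 4) + 10 = X at e2 ⊢
  have hB2 : 2 ≤ B := by omega
  have h4 : 1 ≤ B * B := Nat.mul_pos (by omega) (by omega)
  have hX : m * X ≤ B * (2000 * B) := Nat.mul_le_mul (by omega) e2
  have h5 : B * (2000 * B) = 2000 * (B * B) := by ring
  have e3 : m * X + 70 ≤ 2100 * (B * B) := by omega
  have e4 : K * jj A n K m * (m * X + 70) ≤ B * (2100 * (B * B)) := Nat.mul_le_mul (by omega) e3
  have e5 : B * (2100 * (B * B)) ≤ 2100 * B ^ 4 := by
    calc B * (2100 * (B * B)) = B * (2100 * (B * B)) * 1 := by ring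
      _ ≤ B * (2100 * (B * B)) * B := Nat.mul_le_mul_left _ (by omega)
      _ = 2100 * B ^ 4 := by ring
  have e6 : K ≤ B ^ 4 := by
    have : B ≤ B ^ 4 := Nat.le_self_pow (by norm_num) _
    omega
  calc K * jj A n K m * (m * X + 70) + 36 * K ≤ 2100 * B ^ 4 + 36 * B ^ 4 :=
        Nat.add_le_add (e4.trans e5) (Nat.mul_le_mul_left _ e6)
    _ ≤ 3000 * B ^ 4 := by
        rw [← Nat.add_mul]
        exact Nat.mul_le_mul_right _ (by norm_num)

lemma sum_time (a b c d e z Y : ℕ) (h1 : a ≤ Y) (h2 : c ≤ Y) (h3 : d ≤ Y) (h4 : 16 ≤ Y) (h5 : e ≤ 3000 * Y)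
    (h6 : b ≤ z) :
    10 + (10 + (10 + (10 + (10 + (10 + (10 + (10 + (10 + ((26 * a + 6) + (10 + ((14 * b + 6) +
        (10 + (10 + ((30 * c + 6) + (10 + (10 + ((30 * c + 6) + (10 + ((14 * d + 6) + (10 + (10 +
          ((e + 6) + (10 + (10 + (10 + 0))))))))))))))))))))))))) ≤
      1000000 * z + 1000000 * Y := by
  have h7 : 10 + (10 + (10 + (10 + (10 + (10 + (10 + (10 + (10 + ((26 * a + 6) + (10 + ((14 * b + 6) +
        (10 + (10 + ((30 * c + 6) + (10 + (10 + ((30 * c + 6) + (10 + ((14 * d + 6) + (10 + (10 +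
          ((e + 6) + (10 + (10 + (10 + 0))))))))))))))))))))))))) =
      26 * a + 14 * b + 60 * c + 14 * d + e + 236 := by ring
  rw [h7]
  omega

lemma time8 {A n K m : ℕ} (hA : 1 ≤ A) (h : nn A n K m ≤ 4 * n + K) :
    10 + (10 + (10 + (10 + (10 + (10 + (10 + (10 + (10 + ((26 * m + 6) + (10 + ((14 * A + 6) +
        (10 + (10 + ((30 * n + 6) + (10 + (10 + ((30 * n + 6) + (10 + ((14 * K + 6) + (10 + (10 +
          ((K * (T2l n A K m + 30) + 6) + (10 + (10 + (10 + 0))))))))))))))))))))))))) ≤
      (n + K + m + 2) ^ (A + 40) := by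
  have h1 := pw A (n + K + m + 2) (by omega)
  obtain ⟨k1, k2, k3, k4, k5⟩ := prods (n := n) (K := K) (m := m)
  have h2 := mid_time hA h rfl
  have h3 : (A + 1) * 1000000 * (n + K + m + 2) ^ 4 =
      1000000 * (A * (n + K + m + 2) ^ 4) + 1000000 * (n + K + m + 2) ^ 4 := by ring
  have h5 : A ≤ A * (n + K + m + 2) ^ 4 := Nat.le_mul_of_pos_right _ (by omega)
  rw [h3] at h1
  exact (sum_time m A n K _ _ _ k3 k1 k2 k5 h2 h5).trans h1

end L4x

open P4x L4x in
/-- Row L4. -/
theorem l4 : L4 := by
  intro A hA h2 h3 h4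
  refine ⟨A + 40, ?_⟩
  have hnn : ∀ {n K : ℕ} (L : List (Finset (Fin n))), Uniform K n L → nn A n K L.length ≤ 4 * n + K :=
    fun {n K} L hU => nn_le hA (h2 A n K L hA hU).2.2.2
  have hlen : ∀ {n K : ℕ} (L : List (Finset (Fin n))), Uniform K n L →
      (fam8 A K L).length ≤ n * L.length := by
    intro n K L hU
    rw [(h2 A n K L hA hU).2.2.1]
    exact Nat.mul_le_mul_right _ (kjj_le hA)
  constructor
  · rintro ⟨n, K, L, hU⟩
    change A * nn A n K L.length ≤ (A + 3) * (n + K)
    have h5 := (h2 A n K L hA hU).2.2.2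
    have h6 : (A + 3) * (n + K) = (A + 3) * n + A * K + 3 * K := by ring
    omega
  · rintro ⟨n, K, L, hU⟩
    change (fam8 A K L).length ≤ (n + K + L.length + 2) ^ (A + 40)
    have h5 := hlen L hU
    have h6 := pw A (n + K + L.length + 2) (by omega)
    obtain ⟨-, -, -, k4, k5⟩ := prods (n := n) (K := K) (m := L.length)
    have h7 : (n + K + L.length + 2) ^ 4 ≤ (A + 1) * 1000000 * (n + K + L.length + 2) ^ 4 :=
      Nat.le_mul_of_pos_left _ (by positivity)
    omega
  · rintro ⟨n, K, L, hU⟩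
    change ([nn A n K L.length, (fam8 A K L).length, K * jj A n K L.length] ++
      (fam8 A K L).map mask).length ≤ (n + K + L.length + 2) ^ (A + 40)
    rw [List.length_append, List.length_map]
    simp only [List.length_cons, List.length_nil]
    have h5 := hlen L hU
    have h6 := pw A (n + K + L.length + 2) (by omega)
    obtain ⟨-, -, -, k4, k5⟩ := prods (n := n) (K := K) (m := L.length)
    have h7 : 1000000 * (n + K + L.length + 2) ^ 4 ≤ (A + 1) * 1000000 * (n + K + L.length + 2) ^ 4 := by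
      rw [Nat.mul_assoc]
      exact Nat.le_mul_of_pos_left _ (by positivity)
    omega
  · rintro ⟨n, K, L, hU⟩ v hv
    change v ∈ ([nn A n K L.length, (fam8 A K L).length, K * jj A n K L.length] ++
      (fam8 A K L).map mask) at hv
    change v < (2 ^ (n + K) * (n + K + L.length + 2)) ^ (A + 40)
    have h5 := hlen L hU
    have h6 := hnn L hU
    have h7 := bigA A n K L.length
    have h8 : 1000 * (16 * 2 ^ (4 * n + K) + (n + K + L.length + 2) ^ 4) ≤
      (A + 1) * (1000 * (16 * 2 ^ (4 * n + K) + (n + K + L.length + 2) ^ 4)) :=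
      Nat.le_mul_of_pos_left _ (Nat.succ_pos A)
    obtain ⟨k1, k2, k3, k4, k5⟩ := prods (n := n) (K := K) (m := L.length)
    have hkj := kjj_le (A := A) (n := n) (K := K) (m := L.length) hA
    simp only [List.mem_append, List.mem_cons, List.not_mem_nil, or_false, List.mem_map] at hv
    rcases hv with (rfl | rfl | rfl) | ⟨S, hS, rfl⟩
    · omega
    · omega
    · omega
    · have h9 : mask S < 2 ^ nn A n K L.length := mask_lt8 S
      have h10 : 2 ^ nn A n K L.length ≤ 2 ^ (4 * n + K) := Nat.pow_le_pow_right (by norm_num) h6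
      omega
  · rintro ⟨n, K, L, hU⟩
    exact h3 A n K L hA hU
  · rintro ⟨n, K, L, hU⟩ w mem hw hmw hmem
    change HT w (g8 A) ⟨fun _ => 0, mem⟩ ((n + K + L.length + 2) ^ (A + 40)) (fun t => t.reg 1 = n + K ∧
      t.reg 2 = L.length ∧ t.reg 15 ≤ (n + K + L.length + 2) ^ (A + 40) ∧ Wr t (t.reg 15)
        ([nn A n K L.length, (fam8 A K L).length, K * jj A n K L.length] ++ (fam8 A K L).map mask))
    have hK : 1 ≤ K := by
      rcases Nat.eq_zero_or_pos K with rfl | h
      · have := hU.dvd
        rw [zero_dvd_iff] at this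
        have := hU.pos
        omega
      · exact h
    have hW : W8 w A n K L.length := w8_of hA (hnn L hU) hw
    have hmem' : ∀ i (hi : i < ([n, L.length, K] ++ L.map mask).length),
      mem i = ([n, L.length, K] ++ L.map mask)[i] := hmem
    refine HT.mono (fin8 h4 hA hK hU hW hmem') (time8 hA (hnn L hU)) ?_
    rintro t ⟨t1, t2, t15, tw⟩
    refine ⟨t1, t2, ?_, by rw [t15]; exact tw⟩
    rw [t15]
    have h6 := pw A (n + K + L.length + 2) (by omega)
    obtain ⟨-, -, k3, k4, k5⟩ := prods (n := n) (K := K) (m := L.length)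
    have h7 : 1000000 * (n + K + L.length + 2) ^ 4 ≤ (A + 1) * 1000000 * (n + K + L.length + 2) ^ 4 := by
      rw [Nat.mul_assoc]
      exact Nat.le_mul_of_pos_left _ (by positivity)
    omega

end SCM
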