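import Pool.Agent.Lib.SCM.Progs
import Pool.Agent.Lib.SCN.MA

/-!
# Row P1: the reduction Set Cover → Steiner Tree
-/

set_option autoImplicit false

namespace SCM

open SCR SCN

namespace P1x

/-- a pair as a record -/
def pr (e : ℕ × ℕ) : List ℕ := [e.1, e.2]

open Classical in
/-- the inner part -/
noncomputable def fin' {n : ℕ} (L : List (Finset (Fin n))) (i x : ℕ) : List (List ℕ) :=
  if inn (nth L i) x then [[x, n + 1 + i]] else []

/-- the records of pass `i` -/
noncomputable def fout {n : ℕ} (L : List (Finset (Fin n))) (i : ℕ) : List (List ℕ) :=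
  [n, n + 1 + i] :: (List.range n).flatMap (fin' L i)

lemma fout_eq {n : ℕ} (L : List (Finset (Fin n))) :
    (List.range L.length).flatMap (fout L) = (edges1 L).map pr := by
  classical
  unfold edges1
  rw [List.map_flatMap]
  congr 1
  funext i
  unfold fout
  rw [List.map_cons, List.map_flatMap]
  simp only [pr]
  congr 2
  funext x
  unfold fin'
  by_cases h : inn (nth L i) x
  · simp [h, pr]
  · simp [h]

lemma flatten_pr (l : List (ℕ × ℕ)) : (l.map pr).flatten = l.flatMap fun e => [e.1, e.2] := rfl

lemma length_pr (l : List (ℕ × ℕ)) : (l.map pr).flatten.length = 2 * l.length := by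
  induction l with
  | nil => rfl
  | cons a l ih =>
    rw [List.map_cons, List.flatten_cons, List.length_append, ih, List.length_cons]
    simp only [pr, List.length_cons, List.length_nil]
    ring

lemma length_fin {n : ℕ} (L : List (Finset (Fin n))) (i : ℕ) (a : ℕ) :
    ((List.range a).flatMap (fin' L i)).length ≤ a ∧
      ((List.range a).flatMap (fin' L i)).flatten.length ≤ 2 * a := by
  classical
  induction a with
  | zero => simp
  | succ a ih =>
    rw [List.range_succ, List.flatMap_append, List.length_append, List.flatten_append, List.length_append]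
    have h : (fin' L i a).length ≤ 1 ∧ (fin' L i a).flatten.length ≤ 2 := by
      unfold fin'
      by_cases h : inn (nth L i) a <;> simp [h]
    simp only [List.flatMap_cons, List.flatMap_nil, List.append_nil]
    omega

lemma length_fout {n : ℕ} (L : List (Finset (Fin n))) (a : ℕ) :
    ((List.range a).flatMap (fout L)).length ≤ a * (n + 1) ∧
      ((List.range a).flatMap (fout L)).flatten.length ≤ 2 * (a * (n + 1)) := by
  induction a with
  | zero => simp
  | succ a ih =>
    rw [List.range_succ, List.flatMap_append, List.length_append, List.flatten_append, List.length_append]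
    have h : (fout L a).length ≤ n + 1 ∧ (fout L a).flatten.length ≤ 2 * (n + 1) := by
      unfold fout
      have := length_fin L a n
      rw [List.length_cons, List.flatten_cons, List.length_append]
      simp only [List.length_cons, List.length_nil]
      omega
    simp only [List.flatMap_cons, List.flatMap_nil, List.append_nil]
    have h2 : (a + 1) * (n + 1) = a * (n + 1) + (n + 1) := by ring
    omega

lemma and_pow {n : ℕ} (A : Finset (Fin n)) (x : ℕ) : mask A &&& 2 ^ x ≠ 0 ↔ inn A x := by
  have h : mask A &&& 2 ^ x ≠ 0 ↔ (mask A).testBit x = true := by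
    rw [Nat.and_two_pow]
    rcases (mask A).testBit x with _ | _ <;> simp
  rw [h, testBit_mask]
  rfl

/-- the environment -/
structure En (n m k : ℕ) (mem : ℕ → ℕ) (s : Data) : Prop where
  r1 : s.reg 1 = n
  r2 : s.reg 2 = m
  r3 : s.reg 3 = k
  r15 : s.reg 15 = 3 + m
  mem : ∀ a < 3 + m, s.mem a = mem a

/-- the inner loop -/
lemma inner {w n : ℕ} (L : List (Finset (Fin n))) (i : ℕ) (s : Data) (Q : Data → Prop) {T : ℕ}
    (h1 : s.reg 1 = n) (h22 : s.reg 22 = n + 1 + i) (h23 : s.reg 23 = mask (nth L i)) (h24 : s.reg 24 = 1)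
    (hw : 2 ^ n < 2 ^ w) (hp : s.reg 17 + 2 * n + 2 < 2 ^ w) (hc : s.reg 18 + n + 1 < 2 ^ w) (hnw : n < 2 ^ w)
    (hT : 40 * n + 6 ≤ T)
    (hQ : ∀ t, App [24, 25, 26] s t ((List.range n).flatMap (fin' L i)) → Q t) :
    HT w (forr 25 26 (.r 1) (blk [
      cond (.and (.r 23) (.r 24)) (recd [.r 25, .r 22]) .skip,
      set 24 (.add (.r 24) (.r 24))])) s T Q := by
  classical
  refine HT.forApp n 30 [24, 25, 26] (fin' L i) (fun j t => t.reg 24 = 2 ^ j) (by decide) (by decide) (by decide)
    (by decide) (by decide) (by decide) (by decide) (by decide) (by decide) rfl (by decide) trivial h1 hnw ?_ ?_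
    (by simp only [E.size]; omega) (fun t ht _ => hQ t ht)
  · rw [upd_ne _ _ (by decide), upd_ne _ _ (by decide), h24, Nat.pow_zero]
  · intro j hj u hu h5 h6 h7
    have u1 : u.reg 1 = n := by rw [hu.reg 1 (by decide) (by decide) (by decide), h1]
    have u22 : u.reg 22 = n + 1 + i := by rw [hu.reg 22 (by decide) (by decide) (by decide), h22]
    have u23 : u.reg 23 = mask (nth L i) := by rw [hu.reg 23 (by decide) (by decide) (by decide), h23]
    have u17 := hu.ptr
    have u18 := hu.cnt
    have hl := length_fin L i j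
    have hpow : 2 ^ (j + 1) ≤ 2 ^ n := Nat.pow_le_pow_right (by norm_num) hj
    have hpow' : 2 ^ (j + 1) = 2 ^ j + 2 ^ j := by rw [Nat.pow_succ]; ring
    refine HT.seq (T1 := 23) (T2 := 5) (R := fun t => App [24, 25, 26] u t (fin' L i j) ∧ t.reg 24 = 2 ^ j ∧
      t.reg 25 = j ∧ t.reg 26 = n - j) ?_ ?_ (by norm_num)
    · refine HT.cond (T1 := 18) rfl (by decide) ⟨trivial, trivial⟩ (fun hne => ?_) (fun hze => ?_)
        (by simp only [E.size]; norm_num)
      · refine HT.recd ?_ ?_ ?_ (fun t ht => ?_) (by simp [E.cost, E.size])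
        · intro e he
          simp only [List.mem_cons, List.not_mem_nil, or_false] at he
          rcases he with rfl | rfl
          · exact ⟨rfl, rfl, by decide, trivial⟩
          · exact ⟨rfl, rfl, by decide, trivial⟩
        · simp only [List.length_cons, List.length_nil]
          omega
        · omega
        · have hin : inn (nth L i) j := by
            rw [← and_pow]
            simpa only [E.val, u23, h5] using hne
          have e1 : fin' L i j = [[j, n + 1 + i]] := by
            unfold fin'
            rw [if_pos hin]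
          refine ⟨?_, ?_, ?_, ?_⟩
          · rw [e1]
            have := ht.wk (F' := [24, 25, 26]) (by simp)
            simpa only [List.map_cons, List.map_nil, E.val, h6, u22] using this
          · rw [ht.reg 24 (by simp) (by decide) (by decide), h5]
          · rw [ht.reg 25 (by simp) (by decide) (by decide), h6]
          · rw [ht.reg 26 (by simp) (by decide) (by decide), h7]
      · have hin : ¬ inn (nth L i) j := by
          rw [← and_pow, not_not]
          simpa only [E.val, u23, h5] using hze
        refine HT.skip ⟨?_, h5, h6, h7⟩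
        have e1 : fin' L i j = [] := by
          unfold fin'
          rw [if_neg hin]
        rw [e1]
        exact App.refl _ _
    · rintro t ⟨t1, t2, t3, t4⟩
      refine HT.seq (T1 := 4) (T2 := 0) (R := fun t' => t' = upd t 24 (2 ^ (j + 1))) ?_ ?_ (by norm_num)
      · refine HT.set (by omega) rfl (by decide) ?_ ?_ (show 4 ≤ 4 by norm_num)
        · refine ⟨trivial, trivial, ?_⟩
          simp only [E.val, t2]
          omega
        · simp only [E.val, t2, hpow']
      · rintro _ rfl
        refine HT.skip ⟨t1.upd _ (by decide) (by decide) (by decide), ?_, ?_, ?_⟩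
        · rw [upd_ne _ _ (by decide), t3]
        · rw [upd_ne _ _ (by decide), t4]
        · rw [upd_ne _ _ (by decide), upd_ne _ _ (by decide), upd_self]

/-- one pass of the outer loop -/
lemma pass {w n k i : ℕ} (L : List (Finset (Fin n))) (mem : ℕ → ℕ) (s : Data) (Q : Data → Prop) {T : ℕ}
    (hs : En n L.length k mem s) (hmem : ∀ i < L.length, mem (3 + i) = mask (nth L i)) (hi : i < L.length)
    (h20 : s.reg 20 = i) (hw : 2 ^ n < 2 ^ w) (hp : s.reg 17 + 2 * n + 4 < 2 ^ w)
    (hc : s.reg 18 + n + 2 < 2 ^ w) (hnw : n + 3 + L.length < 2 ^ w) (hT : 40 * n + 40 ≤ T)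
    (hQ : ∀ t, App [22, 23, 24, 25, 26] s t (fout L i) → Q t) :
    HT w (blk [
      set 22 (.add (.add (.r 1) (.c 1)) (.r 20)),
      set 23 (.ld (.add (.c 3) (.r 20))),
      recd [.r 1, .r 22],
      set 24 (.c 1),
      forr 25 26 (.r 1) (blk [
        cond (.and (.r 23) (.r 24)) (recd [.r 25, .r 22]) .skip,
        set 24 (.add (.r 24) (.r 24))])]) s T Q := by
  have h1w : 1 < 2 ^ w := by omega
  refine HT.seq (T1 := 6) (T2 := 40 * n + 34) (R := fun t => t = upd s 22 (n + 1 + i))
    (HT.set (by omega) rfl (by decide) ?_ ?_ (by simp only [E.size]; norm_num)) ?_ (by omega)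
  · refine ⟨⟨trivial, h1w, ?_⟩, trivial, ?_⟩
    · simp only [E.val, hs.r1]
      omega
    · simp only [E.val, hs.r1, h20]
      omega
  · simp only [E.val, hs.r1, h20]
  rintro _ rfl
  refine HT.seq (T1 := 5) (T2 := 40 * n + 29) (R := fun t => t = upd (upd s 22 (n + 1 + i)) 23 (mask (nth L i)))
    (HT.set (by omega) rfl (by decide) ?_ ?_ (by simp only [E.size]; norm_num)) ?_ (by omega)
  · refine ⟨?_, trivial, ?_⟩
    · simp only [E.ok]
      omega
    · simp only [E.val]
      rw [upd_ne _ _ (by decide), h20]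
      omega
  · simp only [E.val]
    rw [upd_ne _ _ (by decide), h20, upd_mem, hs.mem _ (by omega), hmem i hi]
  rintro _ rfl
  set a := upd (upd s 22 (n + 1 + i)) 23 (mask (nth L i)) with ha
  have ar : ∀ r, r ≠ 22 → r ≠ 23 → a.reg r = s.reg r := fun r h2 h3 => by
    rw [ha, upd_ne _ _ h3, upd_ne _ _ h2]
  have a22 : a.reg 22 = n + 1 + i := by rw [ha, upd_ne _ _ (by decide), upd_self]
  have a23 : a.reg 23 = mask (nth L i) := by rw [ha, upd_self]
  refine HT.seq (T1 := 18) (T2 := 40 * n + 11) (R := fun t => App [] a t [[n, n + 1 + i]])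
    (HT.recd ?_ ?_ ?_ (fun t ht => ?_) (by simp [E.cost, E.size])) ?_ (by omega)
  · intro e he
    simp only [List.mem_cons, List.not_mem_nil, or_false] at he
    rcases he with rfl | rfl
    · exact ⟨rfl, rfl, by decide, trivial⟩
    · exact ⟨rfl, rfl, by decide, trivial⟩
  · simp only [List.length_cons, List.length_nil]
    rw [ar 17 (by decide) (by decide)]
    omega
  · rw [ar 18 (by decide) (by decide)]
    omega
  · simpa only [List.map_cons, List.map_nil, E.val, ar 1 (by decide) (by decide), hs.r1, a22] using ht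
  intro t ht
  refine HT.seq (T1 := 2) (T2 := 40 * n + 9) (R := fun t' => t' = upd t 24 1)
    (HT.set (by omega) rfl (by decide) h1w rfl (by simp only [E.size]; norm_num)) ?_ (by omega)
  rintro _ rfl
  refine HT.seq (T1 := 40 * n + 6) (T2 := 0) (R := Q) ?_ (fun s' h => HT.skip h) (by omega)
  have t17 := ht.ptr
  have t18 := ht.cnt
  rw [ar 17 (by decide) (by decide)] at t17
  rw [ar 18 (by decide) (by decide)] at t18
  simp only [List.flatten_cons, List.flatten_nil, List.append_nil, List.length_cons, List.length_nil] at t17 t18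
  refine inner L i (upd t 24 1) Q ?_ ?_ ?_ ?_ hw ?_ ?_ (by omega) le_rfl (fun u hu => hQ u ?_)
  · rw [upd_ne _ _ (by decide), ht.reg 1 (by simp) (by decide) (by decide), ar 1 (by decide) (by decide), hs.r1]
  · rw [upd_ne _ _ (by decide), ht.reg 22 (by simp) (by decide) (by decide), a22]
  · rw [upd_ne _ _ (by decide), ht.reg 23 (by simp) (by decide) (by decide), a23]
  · rw [upd_self]
  · rw [upd_ne _ _ (by decide), t17]
    omega
  · rw [upd_ne _ _ (by decide), t18]
    omega
  · have e1 : fout L i = [[n, n + 1 + i]] ++ (List.range n).flatMap (fin' L i) := rfl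
    rw [e1]
    have h3 : App [22, 23, 24, 25, 26] s t [[n, n + 1 + i]] := by
      refine App.upd0 (i := 22) (v := n + 1 + i) (App.upd0 (i := 23) (v := mask (nth L i)) ?_ (by decide)
        (by decide) (by decide)) (by decide) (by decide) (by decide)
      exact ht.wk (by simp)
    refine h3.trans ?_
    refine App.upd0 (i := 24) (v := 1) ?_ (by decide) (by decide) (by decide)
    exact hu.wk (by
      intro r hr
      simp only [List.mem_cons, List.not_mem_nil, or_false] at hr ⊢
      tauto)

lemma En.app {n m k : ℕ} {mem : ℕ → ℕ} {s t : Data} {F : List ℕ} {l : List (List ℕ)} (hs : En n m k mem s)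
    (h : App F s t l) (hF : ∀ r ∈ F, 20 ≤ r) (h17 : 3 + m ≤ s.reg 17) : En n m k mem t where
  r1 := (h.reg 1 (fun h' => absurd (hF _ h') (by decide)) (by decide) (by decide)).trans hs.r1
  r2 := (h.reg 2 (fun h' => absurd (hF _ h') (by decide)) (by decide) (by decide)).trans hs.r2
  r3 := (h.reg 3 (fun h' => absurd (hF _ h') (by decide)) (by decide) (by decide)).trans hs.r3
  r15 := (h.reg 15 (fun h' => absurd (hF _ h') (by decide)) (by decide) (by decide)).trans hs.r15
  mem := fun a ha => by rw [h.old a (by omega), hs.mem a ha]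

/-- the outer loop -/
lemma outer {w n k : ℕ} (L : List (Finset (Fin n))) (mem : ℕ → ℕ) (s : Data) (Q : Data → Prop) {T : ℕ}
    (hs : En n L.length k mem s) (hmem : ∀ i < L.length, mem (3 + i) = mask (nth L i))
    (h17 : s.reg 17 = 7 + L.length) (h18 : s.reg 18 = 0)
    (hw : 2 ^ n < 2 ^ w) (hbig : 20 + 3 * L.length + 2 * (L.length * (n + 1)) + 2 * n < 2 ^ w)
    (hT : L.length * (40 * n + 50) + 6 ≤ T)
    (hQ : ∀ t, En n L.length k mem t → App [20, 21, 22, 23, 24, 25, 26] s t ((edges1 L).map pr) → Q t) :
    HT w (forr 20 21 (.r 2) (blk [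
      set 22 (.add (.add (.r 1) (.c 1)) (.r 20)),
      set 23 (.ld (.add (.c 3) (.r 20))),
      recd [.r 1, .r 22],
      set 24 (.c 1),
      forr 25 26 (.r 1) (blk [
        cond (.and (.r 23) (.r 24)) (recd [.r 25, .r 22]) .skip,
        set 24 (.add (.r 24) (.r 24))])])) s T Q := by
  refine HT.forApp L.length (40 * n + 40) [20, 21, 22, 23, 24, 25, 26] (fout L) (fun _ _ => True)
    (by decide) (by decide) (by decide)
    (by decide) (by decide) (by decide) (by decide) (by decide) (by decide) rfl (by decide) trivial hs.r2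
    (by omega) trivial ?_ (by simp only [E.size]; omega) (fun t ht _ => ?_)
  · intro j hj u hu _ h20 h21
    have hl := length_fout L j
    have hj' : j * (n + 1) ≤ L.length * (n + 1) := Nat.mul_le_mul_right _ hj.le
    have u17 := hu.ptr
    have u18 := hu.cnt
    have hu' : En n L.length k mem u := hs.app hu (by
      intro r hr
      simp only [List.mem_cons, List.not_mem_nil, or_false] at hr
      omega) (by omega)
    refine pass L mem u _ hu' hmem hj h20 hw (by omega) (by omega) (by omega) le_rfl (fun t ht => ⟨?_, ?_, ?_, trivial⟩)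
    · exact ht.wk (by
        intro r hr
        simp only [List.mem_cons, List.not_mem_nil, or_false] at hr ⊢
        tauto)
    · rw [ht.reg 20 (by decide) (by decide) (by decide), h20]
    · rw [ht.reg 21 (by decide) (by decide) (by decide), h21]
  · rw [fout_eq] at ht
    refine hQ t (hs.app ht (by
      intro r hr
      simp only [List.mem_cons, List.not_mem_nil, or_false] at hr
      omega) (by omega)) ht

lemma nth_getElem {n : ℕ} (L : List (Finset (Fin n))) {i : ℕ} (h : i < L.length) : nth L i = L[i] := by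
  unfold nth
  rw [List.getD_eq_getElem?_getD, List.getElem?_eq_getElem h]
  rfl

lemma enc_mem {n k : ℕ} (L : List (Finset (Fin n))) (mem : ℕ → ℕ)
    (h : ∀ i (hi : i < ([n, L.length, k] ++ L.map mask).length), mem i = ([n, L.length, k] ++ L.map mask)[i]) :
    mem 0 = n ∧ mem 1 = L.length ∧ mem 2 = k ∧ ∀ i < L.length, mem (3 + i) = mask (nth L i) := by
  have hlen : ([n, L.length, k] ++ L.map mask).length = 3 + L.length := by
    simp
    ring
  refine ⟨?_, ?_, ?_, fun i hi => ?_⟩
  · rw [h 0 (by omega)]
    rfl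
  · rw [h 1 (by omega)]
    rfl
  · rw [h 2 (by omega)]
    rfl
  · rw [h (3 + i) (by omega), List.getElem_append_right (by simp), nth_getElem L hi, List.getElem_map]
    congr 2
    simp

/-- the whole program -/
lemma prog {w n k : ℕ} (L : List (Finset (Fin n))) (mem : ℕ → ℕ) (hm0 : mem 0 = n) (hm1 : mem 1 = L.length)
    (hm2 : mem 2 = k) (hmem : ∀ i < L.length, mem (3 + i) = mask (nth L i)) (hk : k < 2 ^ w)
    (hw : 2 ^ n < 2 ^ w) (hbig : 20 + 3 * L.length + 2 * (L.length * (n + 1)) + 2 * n < 2 ^ w) {T : ℕ}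
    (hT : L.length * (40 * n + 50) + 100 ≤ T) :
    HT w g1 ⟨fun _ => 0, mem⟩ T (fun t => t.reg 1 = n ∧ t.reg 2 = L.length ∧ t.reg 15 = 3 + L.length ∧
      Wr t (3 + L.length) ([n + 1, n + 1 + L.length, (edges1 L).length, n + (k - (k - n))] ++
        (edges1 L).flatMap fun e => [e.1, e.2])) := by
  have h1w : 1 < 2 ^ w := by omega
  have hset : ∀ (i : ℕ) (e : E) (s : Data) (v T1 T2 : ℕ) (q : Stmt) (Q : Data → Prop), i < 40 → e.wf = true →
      e.depth ≤ 9 → e.ok w s → e.val s = v → e.size + 1 + T2 ≤ T1 → HT w q (upd s i v) T2 Q →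
      HT w (Stmt.seq (set i e) q) s T1 Q := by
    intro i e s v T1 T2 q Q hi he hd ho hv hT' hq
    refine HT.seq (T1 := e.size + 1) (T2 := T2) (R := fun t => t = upd s i v)
      (HT.set (Or.inl hi) he hd ho (by rw [hv]) le_rfl) ?_ hT'
    rintro _ rfl
    exact hq
  unfold g1
  simp only [blk]
  refine hset 1 _ _ n _ (T - 3) _ _ (by decide) rfl (by decide) ?_ ?_ ?_ ?_
  · simp only [E.ok]; omega
  · simp only [E.val]; exact hm0
  · simp only [E.size]; omega
  refine hset 2 _ _ L.length _ (T - 6) _ _ (by decide) rfl (by decide) ?_ ?_ ?_ ?_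
  · simp only [E.ok]; omega
  · simp only [E.val, upd_mem]; exact hm1
  · simp only [E.size]; omega
  refine hset 3 _ _ k _ (T - 9) _ _ (by decide) rfl (by decide) ?_ ?_ ?_ ?_
  · simp only [E.ok]; omega
  · simp only [E.val, upd_mem]; exact hm2
  · simp only [E.size]; omega
  refine hset 15 _ _ (3 + L.length) _ (T - 13) _ _ (by decide) rfl (by decide) ?_ ?_ ?_ ?_
  · refine ⟨?_, trivial, ?_⟩
    · simp only [E.ok]; omega
    · simp only [E.val, upd_reg]
      norm_num
      omega
  · simp only [E.val, upd_reg]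
    norm_num
  · simp only [E.size]; omega
  refine hset 17 _ _ (7 + L.length) _ (T - 17) _ _ (by decide) rfl (by decide) ?_ ?_ ?_ ?_
  · refine ⟨trivial, ?_, ?_⟩
    · simp only [E.ok]; omega
    · simp only [E.val, upd_reg]
      norm_num
      omega
  · simp only [E.val, upd_reg]
    norm_num
    omega
  · simp only [E.size]; omega
  refine hset 18 _ _ 0 _ (T - 19) _ _ (by decide) rfl (by decide) ?_ ?_ ?_ ?_
  · simp only [E.ok]; omega
  · rfl
  · simp only [E.size]; omega
  set s := upd (upd (upd (upd (upd (upd (⟨fun _ => 0, mem⟩ : Data) 1 n) 2 L.length) 3 k) 15 (3 + L.length)) 17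
    (7 + L.length)) 18 0 with hs
  have hE : En n L.length k mem s := by
    refine ⟨?_, ?_, ?_, ?_, fun a _ => rfl⟩ <;> simp only [hs, upd_reg] <;> norm_num
  have s17 : s.reg 17 = 7 + L.length := by
    simp only [hs, upd_reg]
    norm_num
  have s18 : s.reg 18 = 0 := by
    simp only [hs, upd_reg]
    norm_num
  have hlen := length_fout L L.length
  rw [fout_eq] at hlen
  have hE2 : ((edges1 L).map pr).length = (edges1 L).length := List.length_map _
  refine HT.seq (T1 := L.length * (40 * n + 50) + 6) (T2 := 70) (R := fun t => En n L.length k mem t ∧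
      App [20, 21, 22, 23, 24, 25, 26] s t ((edges1 L).map pr))
    (outer L mem s _ hE hmem s17 s18 hw hbig le_rfl (fun t h1 h2 => ⟨h1, h2⟩)) ?_ (by omega)
  rintro t ⟨ht, hA⟩
  have t17 := hA.ptr
  have t18 := hA.cnt
  rw [s17] at t17
  rw [s18, zero_add, hE2] at t18
  rw [hE2] at hlen
  have hsto : ∀ (a e : E) (s : Data) (u v T1 T2 : ℕ) (q : Stmt) (Q : Data → Prop), a.wf = true →
      a.depth ≤ 9 → a.ok w s → a.val s = u → e.wf = true → e.depth ≤ 8 → e.ok w s → e.val s = v →
      a.size + e.size + 1 + T2 ≤ T1 → HT w q (updm s u v) T2 Q → HT w (Stmt.seq (sto a e) q) s T1 Q := by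
    intro a e s u v T1 T2 q Q ha hda hoa hu he hd ho hv hT' hq
    refine HT.seq (T1 := a.size + e.size + 1) (T2 := T2) (R := fun t => t = updm s u v)
      (HT.sto ha hda hoa he hd ho (by rw [hu, hv]) le_rfl) ?_ hT'
    rintro _ rfl
    exact hq
  refine hsto _ _ _ (3 + L.length) (n + 1) _ 60 _ _ rfl (by decide) trivial ?_ rfl (by decide) ?_ ?_ ?_ ?_
  · simp only [E.val]; exact ht.r15
  · refine ⟨trivial, h1w, ?_⟩
    simp only [E.val, ht.r1]
    omega
  · simp only [E.val, ht.r1]
  · simp only [E.size]; norm_num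
  refine hsto _ _ _ (3 + L.length + 1) (n + 1 + L.length) _ 45 _ _ rfl (by decide) ?_ ?_ rfl (by decide) ?_ ?_ ?_ ?_
  · refine ⟨trivial, h1w, ?_⟩
    simp only [E.val, updm_reg, ht.r15]
    omega
  · simp only [E.val, updm_reg, ht.r15]
  · refine ⟨⟨trivial, h1w, ?_⟩, trivial, ?_⟩
    · simp only [E.val, updm_reg, ht.r1]
      omega
    · simp only [E.val, updm_reg, ht.r1, ht.r2]
      omega
  · simp only [E.val, updm_reg, ht.r1, ht.r2]
  · simp only [E.size]; norm_num
  refine hsto _ _ _ (3 + L.length + 2) ((edges1 L).length) _ 30 _ _ rfl (by decide) ?_ ?_ rfl (by decide) ?_ ?_ ?_ ?_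
  · refine ⟨trivial, ?_, ?_⟩
    · simp only [E.ok]; omega
    · simp only [E.val, updm_reg, ht.r15]
      omega
  · simp only [E.val, updm_reg, ht.r15]
  · trivial
  · simp only [E.val, updm_reg]; exact t18
  · simp only [E.size]; norm_num
  refine hsto _ _ _ (3 + L.length + 3) (n + (k - (k - n))) _ 10 _ _ rfl (by decide) ?_ ?_ rfl (by decide) ?_ ?_ ?_ ?_
  · refine ⟨trivial, ?_, ?_⟩
    · simp only [E.ok]; omega
    · simp only [E.val, updm_reg, ht.r15]
      omega
  · simp only [E.val, updm_reg, ht.r15]
  · refine ⟨trivial, ⟨trivial, trivial, trivial⟩, ?_⟩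
    simp only [E.val, updm_reg, ht.r1, ht.r3]
    omega
  · simp only [E.val, updm_reg, ht.r1, ht.r3]
  · simp only [E.size]; norm_num
  refine HT.skip ⟨?_, ?_, ?_, ?_⟩
  · simp only [updm_reg]; exact ht.r1
  · simp only [updm_reg]; exact ht.r2
  · simp only [updm_reg]; exact ht.r15
  · intro i hi
    rw [List.length_append] at hi
    simp only [List.length_cons, List.length_nil] at hi
    simp only [updm_mem]
    rcases Nat.lt_or_ge i 4 with h4 | h4
    · interval_cases i
      · simp
      · simp
      · simp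
      · simp
    · obtain ⟨j, rfl⟩ := Nat.exists_eq_add_of_le h4
      rw [if_neg (by omega), if_neg (by omega), if_neg (by omega), if_neg (by omega)]
      rw [List.getD_append_right _ _ _ _ (by simp)]
      have h5 := hA.new j (by rw [flatten_pr]; omega)
      rw [s17] at h5
      rw [show 3 + L.length + (4 + j) = 7 + L.length + j by ring, h5, flatten_pr]
      congr 1
      simp

/-- the bounds -/
lemma pow_big {B n m : ℕ} (hB : B = n + m + 2) : m * (40 * n + 50) + 100 ≤ B ^ 10 ∧
    20 + 3 * m + 2 * (m * (n + 1)) + 2 * n < B ^ 10 := by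
  have h2 : 2 ≤ B := by omega
  have h3 : 2 ^ 8 ≤ B ^ 8 := Nat.pow_le_pow_left h2 8
  have h4 : B ^ 10 = B ^ 8 * B ^ 2 := by rw [← Nat.pow_add]
  have h5 : 256 * B ^ 2 ≤ B ^ 10 := by
    rw [h4]
    exact Nat.mul_le_mul_right _ h3
  subst hB
  constructor
  · refine le_trans ?_ h5
    nlinarith [Nat.zero_le (n * m), Nat.zero_le (n * n), Nat.zero_le (m * m)]
  · refine lt_of_lt_of_le ?_ h5
    nlinarith [Nat.zero_le (n * m), Nat.zero_le (n * n), Nat.zero_le (m * m)]

end P1x

open P1x in
/-- P1 -/
theorem p1 : P1 := by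
  intro h hM
  have hE : ∀ (n : ℕ) (L : List (Finset (Fin n))), (edges1 L).length ≤ L.length * (n + 1) := fun n L => by
    have := (length_fout L L.length).1
    rwa [fout_eq, List.length_map] at this
  refine ⟨10, ⟨fun I => ?_, fun I => ?_, fun I => ?_, fun I v hv => ?_, fun I => hM h I, fun I w mem hw hmem henc => ?_⟩⟩
  · change I.n + 1 ≤ I.n + 10
    omega
  · change I.n + 1 + I.L.length + (edges1 I.L).length ≤ (I.n + I.L.length + 2) ^ 10
    have h1 := (pow_big (B := I.n + I.L.length + 2) rfl).2
    have h2 := hE I.n I.L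
    omega
  · change ([I.n + 1, I.n + 1 + I.L.length, (edges1 I.L).length, I.n + (I.k - (I.k - I.n))] ++
        (edges1 I.L).flatMap fun e => [e.1, e.2]).length ≤ (I.n + I.L.length + 2) ^ 10
    have h1 := (pow_big (B := I.n + I.L.length + 2) rfl).2
    have h2 := hE I.n I.L
    rw [← flatten_pr, List.length_append, length_pr]
    simp only [List.length_cons, List.length_nil]
    omega
  · have h1 := (pow_big (B := I.n + I.L.length + 2) rfl).2
    have h2 := hE I.n I.L
    have h3 : (I.n + I.L.length + 2) ^ 10 ≤ (2 ^ I.n * (I.n + I.L.length + 2)) ^ 10 :=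
      Nat.pow_le_pow_left (Nat.le_mul_of_pos_left _ (by positivity)) 10
    change v ∈ ([I.n + 1, I.n + 1 + I.L.length, (edges1 I.L).length, I.n + (I.k - (I.k - I.n))] ++
        (edges1 I.L).flatMap fun e => [e.1, e.2]) at hv
    change v < (2 ^ I.n * (I.n + I.L.length + 2)) ^ 10
    refine lt_of_lt_of_le ?_ h3
    rw [List.mem_append] at hv
    rcases hv with hv | hv
    · simp only [List.mem_cons, List.not_mem_nil, or_false] at hv
      rcases hv with rfl | rfl | rfl | rfl <;> omega
    · rw [List.mem_flatMap] at hv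
      obtain ⟨e, he, hv⟩ := hv
      have h4 := h I.n I.L e he
      simp only [List.mem_cons, List.not_mem_nil, or_false] at hv
      rcases hv with rfl | rfl <;> omega
  · obtain ⟨m0, m1, m2, m3⟩ := enc_mem (k := I.k) I.L mem henc
    have h1 := pow_big (B := I.n + I.L.length + 2) rfl
    have h3 : (I.n + I.L.length + 2) ^ 10 ≤ (2 ^ I.n * (I.n + I.L.length + 2)) ^ 10 :=
      Nat.pow_le_pow_left (Nat.le_mul_of_pos_left _ (by positivity)) 10
    have h5 : 2 ^ I.n < (2 ^ I.n * (I.n + I.L.length + 2)) ^ 10 := by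
      calc 2 ^ I.n < 2 ^ I.n * (I.n + I.L.length + 2) := by
            have : 0 < 2 ^ I.n := by positivity
            nlinarith
        _ ≤ (2 ^ I.n * (I.n + I.L.length + 2)) ^ 10 := Nat.le_self_pow (by norm_num) _
    change (2 ^ I.n * (I.n + I.L.length + 2)) ^ 10 ≤ 2 ^ w at hw
    refine (prog I.L mem m0 m1 m2 m3 (m2 ▸ hmem 2) (by omega) (by omega) h1.1).mono le_rfl ?_
    rintro t ⟨t1, t2, t3, t4⟩
    refine ⟨t1, t2, ?_, ?_⟩
    · rw [t3]
      change 3 + I.L.length ≤ (I.n + I.L.length + 2) ^ 10
      omega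
    · rw [t3]
      exact t4

end SCM
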