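import Pool.Agent.Lib.SCM.Progs3
import Pool.Agent.Lib.SCM.P1

/-!
# Row L4a: the machine part for one set of the reduction to small sets
-/

set_option autoImplicit false

namespace SCM

open SCR SCN

namespace L4ax

/-- one assignment -/
lemma hset {w i : ℕ} {e : E} {s : Data} {q : Stmt} {Q : Data → Prop} (v T1 T2 : ℕ) (hi : i < 40)
    (he : e.wf = true) (hd : e.depth ≤ 9) (ho : e.ok w s) (hv : e.val s = v) (hT : e.size + 1 + T2 ≤ T1)
    (hq : HT w q (upd s i v) T2 Q) : HT w (Stmt.seq (set i e) q) s T1 Q := by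
  refine HT.seq (T1 := e.size + 1) (T2 := T2) (R := fun t => t = upd s i v)
    (HT.set (Or.inl hi) he hd ho (by rw [hv]) le_rfl) ?_ hT
  rintro _ rfl
  exact hq

/-- the word of a link -/
def lnk (e s : ℕ) (r : Bool) (T : ℕ) : ℕ :=
  ∑ t ∈ Finset.range T, 2 ^ (e + 2 * t + (if s.testBit t = r then 1 else 0))

lemma lnk_zero (e s : ℕ) (r : Bool) : lnk e s r 0 = 0 := rfl

lemma lnk_succ (e s : ℕ) (r : Bool) (T : ℕ) :
    lnk e s r (T + 1) = lnk e s r T + 2 ^ (e + 2 * T + (if s.testBit T = r then 1 else 0)) := by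
  unfold lnk
  rw [Finset.sum_range_succ]

lemma lnk_lt (e s : ℕ) (r : Bool) (T : ℕ) : lnk e s r T < 2 ^ (e + 2 * T) := by
  induction T with
  | zero => rw [lnk_zero]; positivity
  | succ T ih =>
    rw [lnk_succ]
    have h1 : 2 ^ (e + 2 * T + (if s.testBit T = r then 1 else 0)) ≤ 2 ^ (e + 2 * T + 1) := by
      refine Nat.pow_le_pow_right (by norm_num) ?_
      split_ifs <;> omega
    have h2 : 2 ^ (e + 2 * T + 1) = 2 * 2 ^ (e + 2 * T) := by rw [pow_succ]; ring
    have h3 : 2 ^ (e + 2 * (T + 1)) = 4 * 2 ^ (e + 2 * T) := by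
      rw [show e + 2 * (T + 1) = e + 2 * T + 2 by ring, pow_add]; ring
    omega

lemma and_pow' (s t : ℕ) : s &&& 2 ^ t ≠ 0 ↔ s.testBit t = true := by
  rw [Nat.and_two_pow]
  rcases s.testBit t with _ | _ <;> simp

/-- the registers which a link changes -/
def FL : List ℕ := [29, 30, 31, 32, 36, 37, 38, 39]

/-- the program for one link -/
lemma hlink {w : ℕ} {e : E} {r : Bool} {s : Data} {Q : Data → Prop} (ev b sv base : ℕ) {T : ℕ}
    (he : e.wf = true) (hd : e.depth ≤ 9) (ho : e.ok w s) (hev : e.val s = ev) (h7 : s.reg 7 = b)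
    (h24 : s.reg 24 = sv) (h32 : s.reg 32 = base) (hw : base + 2 ^ (ev + 2 * b) < 2 ^ w)
    (hb : 2 ^ (b + 1) < 2 ^ w) (hT : 14 * ev + e.size + 35 * b + 30 ≤ T)
    (hQ : ∀ t : Data, t.reg 32 = base + lnk ev sv r b → (∀ q, q ∉ FL → t.reg q = s.reg q) →
      t.mem = s.mem → Q t) : HT w (link8 e r) s T Q := by
  have hbb : b < 2 ^ w := (Nat.lt_pow_self (by norm_num : 1 < 2)).trans (lt_trans (Nat.pow_lt_pow_right (by norm_num) (Nat.lt_succ_self b)) hb)
  have h1w : 1 < 2 ^ w := by
    have : 2 ^ 1 ≤ 2 ^ (b + 1) := Nat.pow_le_pow_right (by norm_num) (by omega)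
    omega
  have hew : 2 ^ ev < 2 ^ w := by
    have : 2 ^ ev ≤ 2 ^ (ev + 2 * b) := Nat.pow_le_pow_right (by norm_num) (by omega)
    omega
  unfold link8
  simp only [blk]
  refine HT.seq (T1 := 14 * ev + e.size + 9) (T2 := 35 * b + 20)
    (R := fun t => t.reg 30 = 2 ^ ev ∧ (∀ q, q ≠ 30 → q ≠ 37 → q ≠ 38 → q ≠ 39 → t.reg q = s.reg q) ∧
      t.mem = s.mem)
    (HT.pow (by norm_num) he hd ho (by rw [hev]; exact hew)
      (fun t t1 t2 t3 => ⟨by rw [t1, hev], t2, t3⟩) (by rw [hev])) ?_ (by omega)
  rintro s1 ⟨a1, a2, a3⟩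
  refine hset 1 _ (35 * b + 17) (by norm_num) rfl (by decide) h1w rfl (by simp only [E.size]; omega) ?_
  refine HT.seq (T1 := 35 * b + 6) (T2 := 0) (R := Q) ?_ (fun s' h => HT.skip h) (by omega)
  refine HT.forr b 25 (fun j t => t.reg 32 = base + lnk ev sv r j ∧ t.reg 30 = 2 ^ (ev + 2 * j) ∧
    t.reg 36 = 2 ^ j ∧ (∀ q, q ∉ FL → t.reg q = s.reg q) ∧ t.mem = s.mem)
    (by norm_num) (by norm_num) (by norm_num) rfl (by decide) trivial ?_ hbb ?_ ?_ ?_ ?_
  · simp only [E.val]
    rw [upd_ne _ _ (by decide), a2 7 (by decide) (by decide) (by decide) (by decide), h7]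
  · refine ⟨?_, ?_, ?_, fun q hq => ?_, a3⟩
    · rw [upd_ne _ _ (by decide), upd_ne _ _ (by decide), upd_ne _ _ (by decide),
        a2 32 (by decide) (by decide) (by decide) (by decide), h32, lnk_zero, add_zero]
    · rw [upd_ne _ _ (by decide), upd_ne _ _ (by decide), upd_ne _ _ (by decide), a1, mul_zero, add_zero]
    · rw [upd_ne _ _ (by decide), upd_ne _ _ (by decide), upd_self, pow_zero]
    · simp only [FL, List.mem_cons, List.not_mem_nil, or_false, not_or] at hq
      obtain ⟨q1, q2, q3, q4, q5, q6, q7, q8⟩ := hq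
      rw [upd_ne _ _ q1, upd_ne _ _ q3, upd_ne _ _ q5, a2 q q2 q6 q7 q8]
  · rintro j hj t ⟨t1, t2, t3, t4, t5⟩ t6 t7
    have t24 : t.reg 24 = sv := by rw [t4 24 (by decide), h24]
    have hp0 : 2 ^ (ev + 2 * (j + 1)) ≤ 2 ^ (ev + 2 * b) := Nat.pow_le_pow_right (by norm_num) (by omega)
    have hp1 : 2 ^ (ev + 2 * (j + 1)) = 4 * 2 ^ (ev + 2 * j) := by
      rw [show ev + 2 * (j + 1) = ev + 2 * j + 2 by ring, pow_add]; ring
    have hp2 : 2 ^ (ev + 2 * j + 1) = 2 * 2 ^ (ev + 2 * j) := by rw [pow_succ]; ring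
    have hp3 := lnk_lt ev sv r j
    have hp4 : 2 ^ (j + 1) = 2 * 2 ^ j := by rw [pow_succ]; ring
    have hp5 : 2 ^ (j + 1) ≤ 2 ^ b := Nat.pow_le_pow_right (by norm_num) (by omega)
    have hp6 : 2 ^ (b + 1) = 2 * 2 ^ b := by rw [pow_succ]; ring
    have hne : lnk ev sv r j + 2 ^ (ev + 2 * j + (if sv.testBit j = r then 1 else 0)) =
        lnk ev sv r (j + 1) := (lnk_succ ev sv r j).symm
    -- the addition
    have big : HT w (if r then set 32 (.add (.r 32) (.add (.r 30) (.r 30))) else set 32 (.add (.r 32) (.r 30))) t 6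
        (fun u => u = upd t 32 (base + lnk ev sv r j + 2 ^ (ev + 2 * j + (if r then 1 else 0)))) := by
      cases r
      · rw [if_neg (by decide), if_neg (by decide)]
        refine HT.set (by norm_num) rfl (by decide) ⟨trivial, trivial, ?_⟩ ?_ (by simp only [E.size]; norm_num)
        · simp only [E.val, t1, t2]; omega
        · simp only [E.val, t1, t2, add_zero]
      · rw [if_pos rfl, if_pos rfl]
        refine HT.set (by norm_num) rfl (by decide) ⟨trivial, ⟨trivial, trivial, ?_⟩, ?_⟩ ?_
          (by simp only [E.size]; norm_num)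
        · simp only [E.val, t2]; omega
        · simp only [E.val, t1, t2]; omega
        · simp only [E.val, t1, t2, hp2]
          congr 1
          ring
    have small : HT w (if r then set 32 (.add (.r 32) (.r 30)) else set 32 (.add (.r 32) (.add (.r 30) (.r 30)))) t 6
        (fun u => u = upd t 32 (base + lnk ev sv r j + 2 ^ (ev + 2 * j + (if r then 0 else 1)))) := by
      cases r
      · rw [if_neg (by decide), if_neg (by decide)]
        refine HT.set (by norm_num) rfl (by decide) ⟨trivial, ⟨trivial, trivial, ?_⟩, ?_⟩ ?_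
          (by simp only [E.size]; norm_num)
        · simp only [E.val, t2]; omega
        · simp only [E.val, t1, t2]; omega
        · simp only [E.val, t1, t2, hp2]
          congr 1
          ring
      · rw [if_pos rfl, if_pos rfl]
        refine HT.set (by norm_num) rfl (by decide) ⟨trivial, trivial, ?_⟩ ?_ (by simp only [E.size]; norm_num)
        · simp only [E.val, t1, t2]; omega
        · simp only [E.val, t1, t2, add_zero]
    refine HT.seq (T1 := 11) (T2 := 12) (R := fun u => u = upd t 32 (base + lnk ev sv r (j + 1))) ?_ ?_ (by norm_num)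
    · refine HT.cond (T1 := 6) rfl (by decide) ⟨trivial, trivial⟩ (fun hne' => ?_) (fun hze => ?_)
        (by simp only [E.size]; norm_num)
      · have hbit : sv.testBit j = true := by
          rw [← and_pow']
          simpa only [E.val, t24, t3] using hne'
        refine big.mono le_rfl ?_
        rintro u rfl
        rw [← hne, hbit]
        cases r <;> simp [add_assoc]
      · have hbit : sv.testBit j = false := by
          rw [← Bool.not_eq_true, ← and_pow', not_not]
          simpa only [E.val, t24, t3] using hze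
        refine small.mono le_rfl ?_
        rintro u rfl
        rw [← hne, hbit]
        cases r <;> simp [add_assoc]
    rintro _ rfl
    have v30 : (upd t 32 (base + lnk ev sv r (j + 1))).reg 30 = 2 ^ (ev + 2 * j) := by
      rw [upd_ne _ _ (by decide), t2]
    refine hset (2 ^ (ev + 2 * j + 1)) _ 8 (by norm_num) rfl (by decide) ⟨trivial, trivial, ?_⟩ ?_
      (by simp only [E.size]; norm_num) ?_
    · simp only [E.val, v30]; omega
    · simp only [E.val, v30, hp2]; ring
    refine hset (2 ^ (ev + 2 * (j + 1))) _ 4 (by norm_num) rfl (by decide) ⟨trivial, trivial, ?_⟩ ?_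
      (by simp only [E.size]; norm_num) ?_
    · simp only [E.val, upd_self]; omega
    · simp only [E.val, upd_self, hp2, hp1]; ring
    have v36 : (upd (upd (upd t 32 (base + lnk ev sv r (j + 1))) 30 (2 ^ (ev + 2 * j + 1))) 30
        (2 ^ (ev + 2 * (j + 1)))).reg 36 = 2 ^ j := by
      rw [upd_ne _ _ (by decide), upd_ne _ _ (by decide), upd_ne _ _ (by decide), t3]
    refine hset (2 ^ (j + 1)) _ 0 (by norm_num) rfl (by decide) ⟨trivial, trivial, ?_⟩ ?_
      (by simp only [E.size]; norm_num) ?_
    · simp only [E.val, v36]; omega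
    · simp only [E.val, v36, hp4]; ring
    refine HT.skip ⟨?_, ?_, ?_, ?_, ?_, fun q hq => ?_, t5⟩
    · simp only [upd_reg]; norm_num [t6]
    · simp only [upd_reg]; norm_num [t7]
    · simp only [upd_reg]; norm_num
    · simp only [upd_reg]; norm_num
    · simp only [upd_reg]; norm_num
    · have hq' := hq
      simp only [FL, List.mem_cons, List.not_mem_nil, or_false, not_or] at hq'
      obtain ⟨q1, q2, q3, q4, q5, q6, q7, q8⟩ := hq'
      rw [upd_ne _ _ q3, upd_ne _ _ q1, upd_ne _ _ q5, upd_ne _ _ q2, upd_ne _ _ q2, upd_ne _ _ q4, t4 q hq]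
  · simp only [E.size]; omega
  · rintro t ⟨t1, _, _, t4, t5⟩ _ _
    exact hQ t t1 t4 t5

/-! ### The block -/

open Classical in
/-- the word of the block -/
noncomputable def blkw {n : ℕ} (S : Finset (Fin n)) (lo hi x : ℕ) : ℕ :=
  ∑ y ∈ (Finset.range x).filter (fun y => inn S y ∧ lo ≤ rank S y ∧ rank S y < hi), 2 ^ y

lemma blkw_succ {n : ℕ} (S : Finset (Fin n)) (lo hi x : ℕ) :
    (inn S x ∧ lo ≤ rank S x ∧ rank S x < hi → blkw S lo hi (x + 1) = blkw S lo hi x + 2 ^ x) ∧
    (¬ (inn S x ∧ lo ≤ rank S x ∧ rank S x < hi) → blkw S lo hi (x + 1) = blkw S lo hi x) := by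
  classical
  unfold blkw
  constructor
  · intro h
    rw [Finset.range_add_one, Finset.filter_insert, if_pos h, Finset.sum_insert (by simp), add_comm]
  · intro h
    rw [Finset.range_add_one, Finset.filter_insert, if_neg h]

lemma blkw_lt {n : ℕ} (S : Finset (Fin n)) (lo hi x : ℕ) : blkw S lo hi x < 2 ^ x := by
  classical
  induction x with
  | zero => simp [blkw]
  | succ x ih =>
    have h := blkw_succ S lo hi x
    have h2 : 2 ^ (x + 1) = 2 * 2 ^ x := by rw [pow_succ]; ring
    by_cases hc : inn S x ∧ lo ≤ rank S x ∧ rank S x < hi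
    · rw [h.1 hc]; omega
    · rw [h.2 hc]; omega

lemma rank_succ {n : ℕ} (S : Finset (Fin n)) (x : ℕ) :
    (inn S x → rank S (x + 1) = rank S x + 1) ∧ (¬ inn S x → rank S (x + 1) = rank S x) := by
  classical
  unfold rank
  constructor
  · intro h
    rw [Finset.range_add_one, Finset.filter_insert, if_pos h, Finset.card_insert_of_notMem (by simp)]
  · intro h
    rw [Finset.range_add_one, Finset.filter_insert, if_neg h]

lemma rank_le {n : ℕ} (S : Finset (Fin n)) (x : ℕ) : rank S x ≤ x := by
  classical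
  unfold rank
  exact (Finset.card_filter_le _ _).trans (by simp)

/-- the loop over the elements -/
lemma hloop {w n : ℕ} (S : Finset (Fin n)) (lo hi : ℕ) (s : Data) (Q : Data → Prop) {T : ℕ}
    (h3 : s.reg 3 = n) (h27 : s.reg 27 = lo) (h28 : s.reg 28 = hi) (h32 : s.reg 32 = 0) (h33 : s.reg 33 = 0)
    (h34 : s.reg 34 = 1) (h35 : s.reg 35 = mask S) (hw : 2 ^ n < 2 ^ w) (hnw : n + 4 < 2 ^ w)
    (hT : 40 * n + 6 ≤ T)
    (hQ : ∀ t : Data, t.reg 32 = blkw S lo hi n → (∀ q, q ∉ [29, 31, 32, 33, 34] → t.reg q = s.reg q) →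
      t.mem = s.mem → Q t) :
    HT w (forr 29 31 (.r 3) (blk [
      cond (.and (.r 35) (.r 34)) (blk [
        cond (.sub (.r 27) (.r 33)) .skip (cond (.sub (.r 28) (.r 33)) (set 32 (.add (.r 32) (.r 34))) .skip),
        set 33 (.add (.r 33) (.c 1))]) .skip,
      set 34 (.add (.r 34) (.r 34))])) s T Q := by
  simp only [blk]
  refine HT.forr n 30 (fun x t => t.reg 32 = blkw S lo hi x ∧ t.reg 33 = rank S x ∧ t.reg 34 = 2 ^ x ∧
    (∀ q, q ∉ [29, 31, 32, 33, 34] → t.reg q = s.reg q) ∧ t.mem = s.mem)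
    (by norm_num) (by norm_num) (by norm_num) rfl (by decide) trivial h3 (by omega) ?_ ?_
    (by simp only [E.size]; omega) ?_
  · refine ⟨?_, ?_, ?_, fun q hq => ?_, rfl⟩
    · rw [upd_ne _ _ (by decide), upd_ne _ _ (by decide), h32]
      simp [blkw]
    · rw [upd_ne _ _ (by decide), upd_ne _ _ (by decide), h33]
      simp [rank]
    · rw [upd_ne _ _ (by decide), upd_ne _ _ (by decide), h34, pow_zero]
    · simp only [List.mem_cons, List.not_mem_nil, or_false, not_or] at hq
      rw [upd_ne _ _ hq.1, upd_ne _ _ hq.2.1]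
  · rintro x hx t ⟨t1, t2, t3, t4, t5⟩ t6 t7
    have t27 : t.reg 27 = lo := by rw [t4 27 (by decide), h27]
    have t28 : t.reg 28 = hi := by rw [t4 28 (by decide), h28]
    have t35 : t.reg 35 = mask S := by rw [t4 35 (by decide), h35]
    have hb := blkw_succ S lo hi x
    have hr := rank_succ S x
    have hrl := rank_le S x
    have hlt := blkw_lt S lo hi x
    have hp1 : 2 ^ (x + 1) = 2 * 2 ^ x := by rw [pow_succ]; ring
    have hp2 : 2 ^ (x + 1) ≤ 2 ^ n := Nat.pow_le_pow_right (by norm_num) (by omega)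
    refine HT.seq (T1 := 25) (T2 := 4) (R := fun u => u.reg 32 = blkw S lo hi (x + 1) ∧
      u.reg 33 = rank S (x + 1) ∧ u.reg 34 = 2 ^ x ∧ u.reg 29 = x ∧ u.reg 31 = n - x ∧
      (∀ q, q ∉ [29, 31, 32, 33, 34] → u.reg q = s.reg q) ∧ u.mem = s.mem) ?_ ?_ (by norm_num)
    · refine HT.cond (T1 := 20) rfl (by decide) ⟨trivial, trivial⟩ (fun hne => ?_) (fun hze => ?_)
        (by simp only [E.size]; norm_num)
      · have hin : inn S x := by
          rw [← P1x.and_pow]
          simpa only [E.val, t35, t3] using hne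
        refine HT.seq (T1 := 16) (T2 := 4) (R := fun u => u.reg 32 = blkw S lo hi (x + 1) ∧
          u.reg 33 = rank S x ∧ u.reg 34 = 2 ^ x ∧ u.reg 29 = x ∧ u.reg 31 = n - x ∧
          (∀ q, q ∉ [29, 31, 32, 33, 34] → u.reg q = s.reg q) ∧ u.mem = s.mem) ?_ ?_ (by norm_num)
        · refine HT.cond (T1 := 11) rfl (by decide) ⟨trivial, trivial⟩ (fun hne2 => ?_) (fun hze2 => ?_)
            (by simp only [E.size]; norm_num)
          · have h1 : ¬ (inn S x ∧ lo ≤ rank S x ∧ rank S x < hi) := by
              simp only [E.val, t27, t2] at hne2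
              intro h
              omega
            exact HT.skip ⟨by rw [t1, hb.2 h1], t2, t3, t6, t7, t4, t5⟩
          · refine HT.cond (T1 := 4) rfl (by decide) ⟨trivial, trivial⟩ (fun hne3 => ?_) (fun hze3 => ?_)
              (by simp only [E.size]; norm_num)
            · have h1 : inn S x ∧ lo ≤ rank S x ∧ rank S x < hi := by
                simp only [E.val, t27, t28, t2] at hze2 hne3
                exact ⟨hin, by omega, by omega⟩
              refine HT.set (by norm_num) rfl (by decide) ⟨trivial, trivial, ?_⟩ ?_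
                (by simp only [E.size]; norm_num)
              · simp only [E.val, t1, t3]; omega
              · refine ⟨?_, ?_, ?_, ?_, ?_, fun q hq => ?_, t5⟩
                · rw [upd_self]
                  simp only [E.val, t1, t3, hb.1 h1]
                · rw [upd_ne _ _ (by decide), t2]
                · rw [upd_ne _ _ (by decide), t3]
                · rw [upd_ne _ _ (by decide), t6]
                · rw [upd_ne _ _ (by decide), t7]
                · have hq' := hq
                  simp only [List.mem_cons, List.not_mem_nil, or_false, not_or] at hq'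
                  rw [upd_ne _ _ hq'.2.2.1, t4 q hq]
            · have h1 : ¬ (inn S x ∧ lo ≤ rank S x ∧ rank S x < hi) := by
                simp only [E.val, t28, t2] at hze3
                intro h
                omega
              exact HT.skip ⟨by rw [t1, hb.2 h1], t2, t3, t6, t7, t4, t5⟩
        · rintro u ⟨u1, u2, u3, u4, u5, u6, u7⟩
          refine HT.seq (T1 := 4) (T2 := 0) (R := fun v => v = upd u 33 (rank S (x + 1)))
            (HT.set (by norm_num) rfl (by decide) ⟨trivial, ?_, ?_⟩ ?_ (by simp only [E.size]; norm_num)) ?_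
            (by norm_num)
          · simp only [E.ok]; omega
          · simp only [E.val, u2]; omega
          · simp only [E.val, u2, hr.1 hin]
          · rintro _ rfl
            refine HT.skip ⟨?_, ?_, ?_, ?_, ?_, fun q hq => ?_, u7⟩
            · rw [upd_ne _ _ (by decide), u1]
            · rw [upd_self]
            · rw [upd_ne _ _ (by decide), u3]
            · rw [upd_ne _ _ (by decide), u4]
            · rw [upd_ne _ _ (by decide), u5]
            · have hq' := hq
              simp only [List.mem_cons, List.not_mem_nil, or_false, not_or] at hq'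
              rw [upd_ne _ _ hq'.2.2.2.1, u6 q hq]
      · have hin : ¬ inn S x := by
          rw [← P1x.and_pow, not_not]
          simpa only [E.val, t35, t3] using hze
        exact HT.skip ⟨by rw [t1, hb.2 (fun h => hin h.1)], by rw [t2, hr.2 hin], t3, t6, t7, t4, t5⟩
    · rintro u ⟨u1, u2, u3, u4, u5, u6, u7⟩
      refine hset (2 ^ (x + 1)) _ 0 (by norm_num) rfl (by decide) ⟨trivial, trivial, ?_⟩ ?_
        (by simp only [E.size]; norm_num) ?_
      · simp only [E.val, u3]; omega
      · simp only [E.val, u3, hp1]; ring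
      · refine HT.skip ⟨?_, ?_, ?_, ?_, ?_, fun q hq => ?_, u7⟩
        · rw [upd_ne _ _ (by decide), u4]
        · rw [upd_ne _ _ (by decide), u5]
        · rw [upd_ne _ _ (by decide), upd_ne _ _ (by decide), upd_ne _ _ (by decide), u1]
        · rw [upd_ne _ _ (by decide), upd_ne _ _ (by decide), upd_ne _ _ (by decide), u2]
        · rw [upd_ne _ _ (by decide), upd_ne _ _ (by decide), upd_self]
        · have hq' := hq
          simp only [List.mem_cons, List.not_mem_nil, or_false, not_or] at hq'
          rw [upd_ne _ _ hq'.2.1, upd_ne _ _ hq'.1, upd_ne _ _ hq'.2.2.2.2, u6 q hq]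
  · rintro t ⟨t1, _, _, t4, t5⟩ _ _
    exact hQ t t1 t4 t5

/-! ### The word of the new set -/

lemma lk_pos (A n K m i j : ℕ) : n + K * jj A n K m ≤ lk A n K m i j := by
  unfold lk
  omega

lemma lk_succ (A n K m i j : ℕ) : lk A n K m i (j + 1) = lk A n K m i j + 2 * bb m := by
  unfold lk
  ring

lemma lk_le (A n K m i j : ℕ) (hi : i < K) (hj : j + 1 < jj A n K m) :
    lk A n K m i j + 2 * bb m ≤ nn A n K m := by
  unfold nn lk
  have h1 : i * (jj A n K m - 1) + j + 1 ≤ K * (jj A n K m - 1) + 0 := by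
    calc i * (jj A n K m - 1) + j + 1 ≤ i * (jj A n K m - 1) + (jj A n K m - 1) := by omega
      _ = (i + 1) * (jj A n K m - 1) := by ring
      _ ≤ K * (jj A n K m - 1) := Nat.mul_le_mul_right _ hi
      _ = _ := by ring
  have h2 := Nat.mul_le_mul_right (2 * bb m) h1
  have h3 : (i * (jj A n K m - 1) + j + 1) * (2 * bb m) =
      (i * (jj A n K m - 1) + j) * (2 * bb m) + 2 * bb m := by ring
  omega

lemma pos_lt (A n K m i j : ℕ) (hi : i < K) (hj : j < jj A n K m) :
    n + i * jj A n K m + j < n + K * jj A n K m := by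
  have h1 : i * jj A n K m + j + 1 ≤ K * jj A n K m := by
    calc i * jj A n K m + j + 1 ≤ i * jj A n K m + jj A n K m := by omega
      _ = (i + 1) * jj A n K m := by ring
      _ ≤ _ := Nat.mul_le_mul_right _ hi
  omega

lemma nn_ge (A n K m : ℕ) : n + K * jj A n K m ≤ nn A n K m := lk_pos A n K m K 0

lemma sum_img (e b s : ℕ) (r : Bool) :
    ∑ x ∈ (Finset.range b).image (fun t => e + 2 * t + (if s.testBit t = r then 1 else 0)), 2 ^ x =
      lnk e s r b := by
  unfold lnk
  refine Finset.sum_image fun t _ t' _ h => ?_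
  split_ifs at h <;> omega

lemma mask_zset {n : ℕ} (A K i j s : ℕ) (L : List (Finset (Fin n))) (hi : i < K)
    (hj : j < jj A n K L.length) : mask (zset A K L i j s) =
      blkw (nth L s) (j * (A * bb L.length)) ((j + 1) * (A * bb L.length)) n +
      2 ^ (n + i * jj A n K L.length + j) +
      (if j + 1 < jj A n K L.length then lnk (lk A n K L.length i j) s true (bb L.length) else 0) +
      (if j ≠ 0 then lnk (lk A n K L.length i (j - 1)) s false (bb L.length) else 0) := by
  classical
  set m := L.length with hm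
  set J := jj A n K m with hJ
  set b := bb m with hb
  set D1 : Finset ℕ := (Finset.range n).filter fun y => inn (nth L s) y ∧
    j * (A * b) ≤ rank (nth L s) y ∧ rank (nth L s) y < (j + 1) * (A * b) with hD1
  set D2 : Finset ℕ := {n + i * J + j} with hD2
  set D3 : Finset ℕ := if j + 1 < J then (Finset.range b).image
    (fun t => lk A n K m i j + 2 * t + (if s.testBit t = true then 1 else 0)) else ∅ with hD3
  set D4 : Finset ℕ := if j ≠ 0 then (Finset.range b).image
    (fun t => lk A n K m i (j - 1) + 2 * t + (if s.testBit t = false then 1 else 0)) else ∅ with hD4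
  have hpos : n + i * J + j < n + K * J := pos_lt A n K m i j hi hj
  have hnn : n + K * J ≤ nn A n K m := nn_ge A n K m
  have m1 : ∀ x ∈ D1, x < n := fun x hx => Finset.mem_range.1 (Finset.mem_filter.1 hx).1
  have m3 : ∀ x ∈ D3, j + 1 < J ∧ lk A n K m i j ≤ x ∧ x < lk A n K m i j + 2 * b := by
    intro x hx
    rw [hD3] at hx
    split_ifs at hx with h
    · rw [Finset.mem_image] at hx
      obtain ⟨t, ht, rfl⟩ := hx
      rw [Finset.mem_range] at ht
      split_ifs <;> omega
    · simp at hx
  have m4 : ∀ x ∈ D4, j ≠ 0 ∧ lk A n K m i (j - 1) ≤ x ∧ x < lk A n K m i (j - 1) + 2 * b := by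
    intro x hx
    rw [hD4] at hx
    split_ifs at hx with h
    · rw [Finset.mem_image] at hx
      obtain ⟨t, ht, rfl⟩ := hx
      rw [Finset.mem_range] at ht
      split_ifs <;> omega
    · simp at hx
  have hmap : (zset A K L i j s).map Fin.valEmbedding = ((D1 ∪ D2) ∪ D3) ∪ D4 := by
    ext x
    have e1 : x ∈ (zset A K L i j s).map Fin.valEmbedding ↔ zin A K m (nth L s) i j s x := by
      simp only [zset, Finset.mem_map, Finset.mem_filter, Finset.mem_univ, true_and, Fin.valEmbedding_apply]
      constructor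
      · rintro ⟨a, ha, rfl⟩
        exact ha
      · intro h
        have hx : x < nn A n K m := by
          rcases h with h | h | h | h
          · obtain ⟨⟨h', _⟩, _⟩ := h
            omega
          · have h' : x = n + i * J + j := h
            omega
          · obtain ⟨h1, t, ht, h2⟩ := h
            have := lk_le A n K m i j hi h1
            split_ifs at h2 <;> omega
          · obtain ⟨h1, t, ht, h2⟩ := h
            have h3 : j - 1 + 1 < jj A n K m := by omega
            have := lk_le A n K m i (j - 1) hi h3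
            split_ifs at h2 <;> omega
        exact ⟨⟨x, hx⟩, h, rfl⟩
    rw [e1]
    unfold zin
    simp only [Finset.mem_union, hD1, hD2, Finset.mem_filter, Finset.mem_range, Finset.mem_singleton]
    have e3 : x ∈ D3 ↔ (j + 1 < J ∧ ∃ t < b, x = lk A n K m i j + 2 * t + (if s.testBit t then 1 else 0)) := by
      rw [hD3]
      split_ifs with h
      · simp only [Finset.mem_image, Finset.mem_range, h, true_and]
        constructor
        · rintro ⟨t, ht, rfl⟩
          exact ⟨t, ht, rfl⟩
        · rintro ⟨t, ht, rfl⟩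
          exact ⟨t, ht, rfl⟩
      · simp [h]
    have e4 : x ∈ D4 ↔ (0 < j ∧ ∃ t < b, x = lk A n K m i (j - 1) + 2 * t + (if s.testBit t then 0 else 1)) := by
      have h5 : ∀ t, (if s.testBit t = false then 1 else 0) = (if s.testBit t = true then 0 else 1) := by
        intro t
        cases s.testBit t <;> rfl
      rw [hD4]
      split_ifs with h
      · simp only [Finset.mem_image, Finset.mem_range, h5]
        constructor
        · rintro ⟨t, ht, rfl⟩
          exact ⟨by omega, t, ht, rfl⟩
        · rintro ⟨_, t, ht, rfl⟩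
          exact ⟨t, ht, rfl⟩
      · have : ¬ 0 < j := by omega
        simp [this]
    rw [e3, e4]
    constructor
    · rintro (⟨h1, h2, h3⟩ | h | h | h)
      · exact Or.inl (Or.inl (Or.inl ⟨h1.1, h1, h2, h3⟩))
      · exact Or.inl (Or.inl (Or.inr h))
      · exact Or.inl (Or.inr h)
      · exact Or.inr h
    · rintro (((h | h) | h) | h)
      · exact Or.inl h.2
      · exact Or.inr (Or.inl h)
      · exact Or.inr (Or.inr (Or.inl h))
      · exact Or.inr (Or.inr (Or.inr h))
  have k3 : n + K * J ≤ lk A n K m i j := lk_pos A n K m i j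
  have k4 : n + K * J ≤ lk A n K m i (j - 1) := lk_pos A n K m i (j - 1)
  rw [mask_eq, hmap, Finset.sum_union, Finset.sum_union, Finset.sum_union]
  · have s3 : ∑ x ∈ D3, 2 ^ x = if j + 1 < J then lnk (lk A n K m i j) s true b else 0 := by
      rw [hD3]
      split_ifs
      · exact sum_img _ _ _ _
      · rfl
    have s4 : ∑ x ∈ D4, 2 ^ x = if j ≠ 0 then lnk (lk A n K m i (j - 1)) s false b else 0 := by
      rw [hD4]
      split_ifs
      · exact sum_img _ _ _ _
      · rfl
    rw [s3, s4, hD2, Finset.sum_singleton]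
    rfl
  · rw [Finset.disjoint_left]
    intro x hx hx'
    rw [hD2, Finset.mem_singleton] at hx'
    have := m1 x hx
    omega
  · rw [Finset.disjoint_left]
    intro x hx hx'
    have h3 := m3 x hx'
    rw [Finset.mem_union, hD2, Finset.mem_singleton] at hx
    rcases hx with hx | hx
    · have := m1 x hx
      omega
    · omega
  · rw [Finset.disjoint_left]
    intro x hx hx'
    have h4 := m4 x hx'
    rw [Finset.mem_union, Finset.mem_union, hD2, Finset.mem_singleton] at hx
    rcases hx with (hx | hx) | hx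
    · have := m1 x hx
      omega
    · omega
    · have h3 := m3 x hx
      have h5 := lk_succ A n K m i (j - 1)
      rw [Nat.sub_add_cancel (by omega : 1 ≤ j)] at h5
      omega

lemma app_base {F : List ℕ} {x t u : Data} {L : List (List ℕ)} (h : App [] t u L)
    (hr : ∀ q, q ∉ F → t.reg q = x.reg q) (hm : t.mem = x.mem) (h17 : 17 ∉ F) (h18 : 18 ∉ F) :
    App F x u L := by
  have e17 := hr 17 h17
  have e18 := hr 18 h18
  refine ⟨by rw [h.ptr, e17], by rw [h.cnt, e18], by rw [← e17]; exact h.new, fun a ha => ?_,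
    fun r h1 h2 h3 => ?_⟩
  · rw [h.old a (by rw [e17]; exact ha), hm]
  · rw [h.reg r (by simp) h2 h3, hr r h1]

/-- the temporary registers -/
def FF : List ℕ := [29, 30, 31, 32, 33, 34, 35, 36, 37, 38, 39]

/-- the state between two parts of the program -/
structure Mid (x : Data) (v : ℕ) (t : Data) : Prop where
  r32 : t.reg 32 = v
  reg : ∀ q, q ∉ FF → t.reg q = x.reg q
  mem : t.mem = x.mem

end L4ax

open L4ax in
/-- L4a -/
theorem l4a : L4a := by
  intro w A n K i j s L x hA hU hi hj hs h3 h7 h12 h22 h24 h26 h19 h27 h28 hmem hlt h17 h18 hw hb hjb hn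
  have hmask := mask_zset A K i j s L hi hj
  have hlkl := fun j => lk_le A n K L.length i j hi
  have hlks := lk_succ A n K L.length i (j - 1)
  have hpos := pos_lt A n K L.length i j hi hj
  have hnn := nn_ge A n K L.length
  generalize mask (zset A K L i j s) = Z at hmask ⊢
  generalize hN : nn A n K L.length = N at *
  generalize hJ : jj A n K L.length = J at *
  generalize hb' : bb L.length = b at *
  generalize hlo : j * (A * b) = lo at *
  generalize hhi' : (j + 1) * (A * b) = hi' at *
  generalize hp : n + i * J + j = p at *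
  generalize hlk : lk A n K L.length i j = e at *
  have hjJ' : J ≤ N := by
    have h1 : 1 * J ≤ K * J := Nat.mul_le_mul_right _ (by omega)
    omega
  have hN4 : 2 ^ (N + 4) = 16 * 2 ^ N := by rw [pow_add]; ring
  have hpN : 2 ^ p ≤ 2 ^ N := Nat.pow_le_pow_right (by norm_num) (by omega)
  have hnN : 2 ^ n ≤ 2 ^ N := Nat.pow_le_pow_right (by norm_num) (by omega)
  have hNpos : 0 < 2 ^ N := by positivity
  have h1w : 1 < 2 ^ w := by omega
  have hblk := blkw_lt (nth L s) lo hi' n
  have hwk : ∀ q, q ∉ FF → q ∉ FL := by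
    intro q hq hq'
    apply hq
    simp only [FF, FL, List.mem_cons, List.not_mem_nil, or_false] at hq' ⊢
    tauto
  -- the time
  obtain ⟨T6, hT6⟩ : ∃ T6, T6 = 14 * N + 35 * b + 55 := ⟨_, rfl⟩
  obtain ⟨T5, hT5⟩ : ∃ T5, T5 = 14 * N + 35 * b + 40 + T6 := ⟨_, rfl⟩
  obtain ⟨T4, hT4⟩ : ∃ T4, T4 = T5 + 4 := ⟨_, rfl⟩
  obtain ⟨T3, hT3⟩ : ∃ T3, T3 = 14 * p + 10 + T4 := ⟨_, rfl⟩
  obtain ⟨T2, hT2⟩ : ∃ T2, T2 = 40 * n + 6 + T3 := ⟨_, rfl⟩
  obtain ⟨Ta, hTa⟩ : ∃ Ta, Ta = T2 + 5 := ⟨_, rfl⟩
  obtain ⟨Tb, hTb⟩ : ∃ Tb, Tb = Ta + 2 := ⟨_, rfl⟩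
  obtain ⟨Tc, hTc⟩ : ∃ Tc, Tc = Tb + 2 := ⟨_, rfl⟩
  obtain ⟨Td, hTd⟩ : ∃ Td, Td = Tc + 2 := ⟨_, rfl⟩
  refine HT.mono (T := Td) (Q := fun t => App [29, 30, 31, 32, 33, 34, 35, 36, 37, 38, 39] x t
    [[Z]]) ?_ (by omega) (fun _ h => h)
  unfold set8
  simp only [blk]
  refine hset 0 _ Tc (by norm_num) rfl (by decide) ?_ rfl (by simp only [E.size]; omega) ?_
  · simp only [E.ok]; omega
  refine hset 0 _ Tb (by norm_num) rfl (by decide) ?_ rfl (by simp only [E.size]; omega) ?_
  · simp only [E.ok]; omega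
  refine hset 1 _ Ta (by norm_num) rfl (by decide) h1w rfl (by simp only [E.size]; omega) ?_
  refine hset (mask (nth L s)) _ T2 (by norm_num) rfl (by decide) ?_ ?_
    (by simp only [E.size]; omega) ?_
  · refine ⟨?_, trivial, ?_⟩
    · simp only [E.ok]; omega
    · simp only [E.val, upd_reg]
      norm_num [h24]
      omega
  · simp only [E.val, upd_mem]
    rw [upd_ne _ _ (by decide), upd_ne _ _ (by decide), upd_ne _ _ (by decide), h24, hmem]
  generalize hs1 : upd (upd (upd (upd x 32 0) 33 0) 34 1) 35 (mask (nth L s)) = s1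
  have a1 : ∀ q, q ∉ FF → s1.reg q = x.reg q := by
    intro q hq
    simp only [FF, List.mem_cons, List.not_mem_nil, or_false, not_or] at hq
    rw [← hs1, upd_ne _ _ (by tauto), upd_ne _ _ (by tauto), upd_ne _ _ (by tauto), upd_ne _ _ (by tauto)]
  have a32 : s1.reg 32 = 0 := by simp only [← hs1, upd_reg]; norm_num
  have a33 : s1.reg 33 = 0 := by simp only [← hs1, upd_reg]; norm_num
  have a34 : s1.reg 34 = 1 := by simp only [← hs1, upd_reg]; norm_num
  have a35 : s1.reg 35 = mask (nth L s) := by simp only [← hs1, upd_reg]; norm_num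
  have am : s1.mem = x.mem := by rw [← hs1]; rfl
  obtain ⟨v0, hv0⟩ : ∃ v0, v0 = blkw (nth L s) lo hi' n := ⟨_, rfl⟩
  rw [← hv0] at hblk hmask
  refine HT.seq (T1 := 40 * n + 6) (T2 := T3) (R := Mid x v0) ?_ ?_ (by omega)
  · refine hloop (nth L s) lo hi' s1 _ ?_ ?_ ?_ a32 a33 a34 a35 (by omega) hn le_rfl (fun t t1 t2 t3 => ?_)
    · rw [a1 3 (by decide), h3]
    · rw [a1 27 (by decide), h27]
    · rw [a1 28 (by decide), h28]
    · refine ⟨by rw [t1, hv0], fun q hq => ?_, ?_⟩
      · rw [t2 q ?_, a1 q hq]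
        intro hq'
        apply hq
        simp only [FF, List.mem_cons, List.not_mem_nil, or_false] at hq' ⊢
        tauto
      · rw [t3, am]
  rintro s2 ⟨b1, b2, b3⟩
  refine HT.seq (T1 := 14 * p + 10) (T2 := T4) (R := fun t => Mid x v0 t ∧ t.reg 30 = 2 ^ p) ?_ ?_ (by omega)
  · have e26 : (E.r 26).val s2 = p := by
      simp only [E.val]
      rw [b2 26 (by decide), h26]
    refine HT.pow (by norm_num) rfl (by decide) trivial (by rw [e26]; omega) (fun t t1 t2 t3 => ?_)
      (by rw [e26]; simp only [E.size]; omega)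
    refine ⟨⟨?_, fun q hq => ?_, by rw [t3, b3]⟩, by rw [t1, e26]⟩
    · rw [t2 32 (by decide) (by decide) (by decide) (by decide), b1]
    · have hq' := hq
      simp only [FF, List.mem_cons, List.not_mem_nil, or_false, not_or] at hq'
      rw [t2 q (by tauto) (by tauto) (by tauto) (by tauto), b2 q hq]
  rintro s3 ⟨⟨c1, c2, c3⟩, c4⟩
  obtain ⟨v1, hv1⟩ : ∃ v1, v1 = v0 + 2 ^ p := ⟨_, rfl⟩
  rw [← hv1] at hmask
  refine hset v1 _ T5 (by norm_num) rfl (by decide) ⟨trivial, trivial, ?_⟩ ?_ (by simp only [E.size]; omega) ?_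
  · simp only [E.val, c1, c4]; omega
  · simp only [E.val, c1, c4, hv1]
  have d0 : Mid x v1 (upd s3 32 v1) := by
    refine ⟨upd_self _ _ _, fun q hq => ?_, c3⟩
    have hq' := hq
    simp only [FF, List.mem_cons, List.not_mem_nil, or_false, not_or] at hq'
    rw [upd_ne _ _ (by tauto), c2 q hq]
  generalize upd s3 32 v1 = s4 at d0 ⊢
  have hv1' : v1 < 2 * 2 ^ N := by omega
  -- the link to the next block
  obtain ⟨v2, hv2⟩ : ∃ v2, v2 = v1 + (if j + 1 < J then lnk e s true b else 0) := ⟨_, rfl⟩
  rw [← hv2] at hmask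
  have hv2' : v2 < 3 * 2 ^ N := by
    rw [hv2]
    split_ifs with h
    · have h1 := lnk_lt e s true b
      have hle : e + 2 * b ≤ N := by rw [← hlk]; exact hlkl j h
      have hpw : 2 ^ (e + 2 * b) ≤ 2 ^ N := Nat.pow_le_pow_right (by norm_num) hle
      omega
    · omega
  refine HT.seq (T1 := 14 * N + 35 * b + 40) (T2 := T6) (R := Mid x v2) ?_ ?_ (by omega)
  · have e1 : (E.sub (.r 12) (.add (.r 22) (.c 1))).val s4 = J - (j + 1) := by
      simp only [E.val]
      rw [d0.reg 12 (by decide), d0.reg 22 (by decide), h12, h22]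
    have e2 : s4.reg 22 = j := by rw [d0.reg 22 (by decide), h22]
    refine HT.cond (T1 := 14 * N + 35 * b + 33) rfl (by decide) ⟨trivial, trivial, h1w, ?_⟩ (fun hne => ?_)
      (fun hze => ?_) (by simp only [E.size]; omega)
    · simp only [E.val, e2]
      have := Nat.lt_two_pow_self (n := N)
      omega
    · rw [e1] at hne
      have hjJ : j + 1 < J := by omega
      have hle : e + 2 * b ≤ N := by rw [← hlk]; exact hlkl j hjJ
      have hpw : 2 ^ (e + 2 * b) ≤ 2 ^ N := Nat.pow_le_pow_right (by norm_num) hle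
      refine hlink e b s v1 rfl (by decide) trivial ?_ ?_ ?_ d0.r32 (by omega) hb
        (by simp only [E.size]; omega) (fun t t1 t2 t3 => ?_)
      · simp only [E.val]
        rw [d0.reg 19 (by decide), h19]
      · rw [d0.reg 7 (by decide), h7]
      · rw [d0.reg 24 (by decide), h24]
      · refine ⟨?_, fun q hq => by rw [t2 q (hwk q hq), d0.reg q hq], by rw [t3, d0.mem]⟩
        rw [t1, hv2, if_pos hjJ]
    · rw [e1] at hze
      refine HT.skip ⟨?_, d0.reg, d0.mem⟩
      rw [hv2, if_neg (by omega), add_zero]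
      exact d0.r32
  intro s5 g0
  -- the link to the block before
  obtain ⟨e', he'⟩ : ∃ e', e' = lk A n K L.length i (j - 1) := ⟨_, rfl⟩
  rw [← he'] at hmask hlks
  obtain ⟨v3, hv3⟩ : ∃ v3, v3 = v2 + (if j ≠ 0 then lnk e' s false b else 0) := ⟨_, rfl⟩
  rw [← hv3] at hmask
  refine HT.seq (T1 := 14 * N + 35 * b + 40) (T2 := 15) (R := Mid x v3) ?_ ?_ (by omega)
  · have e1 : (E.r 22).val s5 = j := by
      simp only [E.val]
      rw [g0.reg 22 (by decide), h22]
    refine HT.cond (T1 := 14 * N + 35 * b + 36) rfl (by decide) trivial (fun hne => ?_)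
      (fun hze => ?_) (by simp only [E.size]; omega)
    · rw [e1] at hne
      have hjJ : j - 1 + 1 < J := by omega
      have hle : e' + 2 * b ≤ N := by rw [he']; exact hlkl (j - 1) hjJ
      have hpw : 2 ^ (e' + 2 * b) ≤ 2 ^ N := Nat.pow_le_pow_right (by norm_num) hle
      rw [Nat.sub_add_cancel (by omega : 1 ≤ j), hlk] at hlks
      have hbp : b < 2 ^ b := Nat.lt_two_pow_self
      have hbp' : 2 ^ (b + 1) = 2 * 2 ^ b := by rw [pow_succ]; ring
      have g7 : s5.reg 7 = b := by rw [g0.reg 7 (by decide), h7]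
      have g19 : s5.reg 19 = e := by rw [g0.reg 19 (by decide), h19]
      refine hlink e' b s v2 rfl (by decide) ⟨trivial, trivial, trivial, ?_⟩ ?_ g7 ?_
        g0.r32 (by omega) hb (by simp only [E.size]; omega) (fun t t1 t2 t3 => ?_)
      · simp only [E.val, g7]
        omega
      · simp only [E.val, g7, g19]
        omega
      · rw [g0.reg 24 (by decide), h24]
      · refine ⟨?_, fun q hq => by rw [t2 q (hwk q hq), g0.reg q hq], by rw [t3, g0.mem]⟩
        rw [t1, hv3, if_pos hne]
    · rw [e1] at hze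
      refine HT.skip ⟨?_, g0.reg, g0.mem⟩
      rw [hv3, if_neg (by omega), add_zero]
      exact g0.r32
  intro s6 k0
  refine HT.seq (T1 := 15) (T2 := 0) (R := fun t => App [29, 30, 31, 32, 33, 34, 35, 36, 37, 38, 39] x t
    [[Z]]) (HT.recd ?_ ?_ ?_ (fun t ht => ?_) (by simp [E.cost, E.size]))
    (fun t ht => HT.skip ht) (by norm_num)
  · intro e he
    simp only [List.mem_cons, List.not_mem_nil, or_false] at he
    subst he
    exact ⟨rfl, rfl, by decide, trivial⟩
  · rw [k0.reg 17 (by decide)]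
    simp only [List.length_cons, List.length_nil]
    omega
  · rw [k0.reg 18 (by decide)]
    omega
  · refine app_base (F := FF) ?_ k0.reg k0.mem (by decide) (by decide)
    rw [hmask]
    simpa only [List.map_cons, List.map_nil, E.val, k0.r32] using ht

end SCM
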