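import Pool.Agent.Lib.SCN.NA
import Pool.Agent.Lib.SCN.NB

/-!
# Expressions and loops over the structured language

Registers 40, …, 48 are temporary (values of expressions), 49 is used by the call of a subroutine.
-/

set_option autoImplicit false

namespace SCM

open SCR SCN

/-- Expressions. -/
inductive E where
  | r (i : ℕ)          -- the register `R_i`
  | c (v : ℕ)          -- a constant
  | add (a b : E)
  | sub (a b : E)
  | and (a b : E)
  | or (a b : E)
  | ld (a : E)         -- the memory cell with address `a`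

/-- The value of an expression. -/
def E.val (s : Data) : E → ℕ
  | .r i => s.reg i
  | .c v => v
  | .add a b => a.val s + b.val s
  | .sub a b => a.val s - b.val s
  | .and a b => a.val s &&& b.val s
  | .or a b => a.val s ||| b.val s
  | .ld a => s.mem (a.val s)

/-- All values are words. -/
def E.ok (w : ℕ) (s : Data) : E → Prop
  | .r _ => True
  | .c v => v < 2 ^ w
  | .add a b => a.ok w s ∧ b.ok w s ∧ a.val s + b.val s < 2 ^ w
  | .sub a b => a.ok w s ∧ b.ok w s
  | .and a b => a.ok w s ∧ b.ok w s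
  | .or a b => a.ok w s ∧ b.ok w s
  | .ld a => a.ok w s

/-- No temporary register is read. -/
def E.wf : E → Bool
  | .r i => decide (i < 40) || decide (50 ≤ i)
  | .c _ => true
  | .add a b => a.wf && b.wf
  | .sub a b => a.wf && b.wf
  | .and a b => a.wf && b.wf
  | .or a b => a.wf && b.wf
  | .ld a => a.wf

/-- The number of temporary registers. -/
def E.depth : E → ℕ
  | .r _ => 1
  | .c _ => 1
  | .add a b => max a.depth (b.depth + 1)
  | .sub a b => max a.depth (b.depth + 1)
  | .and a b => max a.depth (b.depth + 1)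
  | .or a b => max a.depth (b.depth + 1)
  | .ld a => a.depth

/-- The number of operations. -/
def E.size : E → ℕ
  | .r _ => 1
  | .c _ => 1
  | .add a b => a.size + b.size + 1
  | .sub a b => a.size + b.size + 1
  | .and a b => a.size + b.size + 1
  | .or a b => a.size + b.size + 1
  | .ld a => a.size + 1

/-- `R_t := e`. -/
def E.code (t : ℕ) : E → List Op
  | .r i => [.or t i i]
  | .c v => [.const t v]
  | .add a b => a.code t ++ (b.code (t + 1) ++ [.add t t (t + 1)])
  | .sub a b => a.code t ++ (b.code (t + 1) ++ [.sub t t (t + 1)])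
  | .and a b => a.code t ++ (b.code (t + 1) ++ [.and t t (t + 1)])
  | .or a b => a.code t ++ (b.code (t + 1) ++ [.or t t (t + 1)])
  | .ld a => a.code t ++ [.load t t]

lemma E.length_code (e : E) : ∀ t, (e.code t).length = e.size := by
  induction e with
  | r i => intro t; rfl
  | c v => intro t; rfl
  | add a b ha hb => intro t; simp [E.code, E.size, ha, hb]; omega
  | sub a b ha hb => intro t; simp [E.code, E.size, ha, hb]; omega
  | and a b ha hb => intro t; simp [E.code, E.size, ha, hb]; omega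
  | or a b ha hb => intro t; simp [E.code, E.size, ha, hb]; omega
  | ld a ha => intro t; simp [E.code, E.size, ha]

/-- The same up to the registers `40, …, 49`. -/
structure Agree (x s : Data) : Prop where
  reg : ∀ r, r < 40 ∨ 50 ≤ r → x.reg r = s.reg r
  mem : x.mem = s.mem

lemma Agree.refl (x : Data) : Agree x x := ⟨fun _ _ => rfl, rfl⟩

lemma Agree.trans {x y z : Data} (h : Agree x y) (h' : Agree y z) : Agree x z :=
  ⟨fun r hr => (h.reg r hr).trans (h'.reg r hr), h.mem.trans h'.mem⟩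

lemma Agree.symm {x y : Data} (h : Agree x y) : Agree y x :=
  ⟨fun r hr => (h.reg r hr).symm, h.mem.symm⟩

/-- the effect of a list of operations -/
def runL (w : ℕ) (l : List Op) (x : Data) : Data := l.foldl (fun x o => o.run w x) x

lemma runL_append (w : ℕ) (l l' : List Op) (x : Data) : runL w (l ++ l') x = runL w l' (runL w l x) := by
  simp [runL]

lemma runL_one (w : ℕ) (o : Op) (x : Data) : runL w [o] x = o.run w x := rfl

lemma E.code_spec {w : ℕ} (e : E) : ∀ (t : ℕ) (x s : Data), e.wf = true → 40 ≤ t → t + e.depth ≤ 49 →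
    e.ok w s → (∀ r, r < 40 ∨ 50 ≤ r → x.reg r = s.reg r) → x.mem = s.mem →
    (runL w (e.code t) x).reg t = e.val s ∧
      (∀ r, r < t ∨ 49 ≤ r → (runL w (e.code t) x).reg r = x.reg r) ∧
      (runL w (e.code t) x).mem = x.mem := by
  have bin : ∀ (a b : E) (o : ℕ → ℕ → ℕ → Op) (f : ℕ → ℕ → ℕ),
      (∀ (t : ℕ) (x s : Data), a.wf = true → 40 ≤ t → t + a.depth ≤ 49 →
        a.ok w s → (∀ r, r < 40 ∨ 50 ≤ r → x.reg r = s.reg r) → x.mem = s.mem →
        (runL w (a.code t) x).reg t = a.val s ∧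
          (∀ r, r < t ∨ 49 ≤ r → (runL w (a.code t) x).reg r = x.reg r) ∧
          (runL w (a.code t) x).mem = x.mem) →
      (∀ (t : ℕ) (x s : Data), b.wf = true → 40 ≤ t → t + b.depth ≤ 49 →
        b.ok w s → (∀ r, r < 40 ∨ 50 ≤ r → x.reg r = s.reg r) → x.mem = s.mem →
        (runL w (b.code t) x).reg t = b.val s ∧
          (∀ r, r < t ∨ 49 ≤ r → (runL w (b.code t) x).reg r = x.reg r) ∧
          (runL w (b.code t) x).mem = x.mem) →
      ∀ (t : ℕ) (x s : Data), a.wf = true → b.wf = true → 40 ≤ t → t + max a.depth (b.depth + 1) ≤ 49 →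
        a.ok w s → b.ok w s → (∀ r, r < 40 ∨ 50 ≤ r → x.reg r = s.reg r) → x.mem = s.mem →
        (∀ y : Data, y.reg t = a.val s → y.reg (t + 1) = b.val s →
          ((o t t (t + 1)).run w y) = ⟨Function.update y.reg t (f (a.val s) (b.val s)), y.mem⟩) →
        (runL w (a.code t ++ (b.code (t + 1) ++ [o t t (t + 1)])) x).reg t = f (a.val s) (b.val s) ∧
          (∀ r, r < t ∨ 49 ≤ r → (runL w (a.code t ++ (b.code (t + 1) ++ [o t t (t + 1)])) x).reg r = x.reg r) ∧
          (runL w (a.code t ++ (b.code (t + 1) ++ [o t t (t + 1)])) x).mem = x.mem := by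
    intro a b o f iha ihb t x s hwa hwb ht hd oa ob hx hm ho
    have hda : t + a.depth ≤ 49 := le_trans (Nat.add_le_add_left (le_max_left _ _) t) hd
    have hdb : t + (b.depth + 1) ≤ 49 := le_trans (Nat.add_le_add_left (le_max_right _ _) t) hd
    obtain ⟨a1, a2, a3⟩ := iha t x s hwa ht hda oa hx hm
    rw [runL_append, runL_append, runL_one]
    set y := runL w (a.code t) x with hy
    have hy1 : ∀ r, r < 40 ∨ 50 ≤ r → y.reg r = s.reg r := fun r hr => by
      rw [a2 r (by omega)]
      exact hx r hr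
    obtain ⟨b1, b2, b3⟩ := ihb (t + 1) y s hwb (by omega) (by omega) ob hy1 (a3.trans hm)
    set z := runL w (b.code (t + 1)) y with hz
    have hz1 : z.reg t = a.val s := by rw [b2 t (by omega), a1]
    rw [ho z hz1 b1]
    refine ⟨Function.update_self _ _ _, fun r hr => ?_, b3.trans a3⟩
    have : r ≠ t := by omega
    change Function.update z.reg t _ r = _
    rw [Function.update_of_ne this, b2 r (by omega), a2 r hr]
  induction e with
  | r i =>
    intro t x s hw ht hd _ hx hm
    refine ⟨?_, fun r hr => ?_, rfl⟩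
    · simp only [E.wf, Bool.or_eq_true, decide_eq_true_eq] at hw
      simp only [E.code, runL_one, Op.run, Function.update_self, Nat.or_self, E.val]
      exact hx i hw
    · have hd' : t + 1 ≤ 49 := hd
      have : r ≠ t := by omega
      simp only [E.code, runL_one, Op.run, Function.update_of_ne this]
  | c v =>
    intro t x s hw ht hd ho hx hm
    refine ⟨?_, fun r hr => ?_, rfl⟩
    · simp only [E.code, runL_one, Op.run, Function.update_self, E.val]
      exact Nat.mod_eq_of_lt ho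
    · have hd' : t + 1 ≤ 49 := hd
      have : r ≠ t := by omega
      simp only [E.code, runL_one, Op.run, Function.update_of_ne this]
  | add a b iha ihb =>
    intro t x s hw ht hd ho hx hm
    simp only [E.wf, Bool.and_eq_true] at hw
    obtain ⟨oa, ob, oo⟩ := ho
    exact bin a b Op.add (· + ·) iha ihb t x s hw.1 hw.2 ht hd oa ob hx hm fun y h1 h2 => by
      simp only [Op.run, h1, h2, Nat.mod_eq_of_lt oo]
  | sub a b iha ihb =>
    intro t x s hw ht hd ho hx hm
    simp only [E.wf, Bool.and_eq_true] at hw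
    exact bin a b Op.sub (· - ·) iha ihb t x s hw.1 hw.2 ht hd ho.1 ho.2 hx hm fun y h1 h2 => by
      simp only [Op.run, h1, h2]
  | and a b iha ihb =>
    intro t x s hw ht hd ho hx hm
    simp only [E.wf, Bool.and_eq_true] at hw
    exact bin a b Op.and (· &&& ·) iha ihb t x s hw.1 hw.2 ht hd ho.1 ho.2 hx hm fun y h1 h2 => by
      simp only [Op.run, h1, h2]
  | or a b iha ihb =>
    intro t x s hw ht hd ho hx hm
    simp only [E.wf, Bool.and_eq_true] at hw
    exact bin a b Op.or (· ||| ·) iha ihb t x s hw.1 hw.2 ht hd ho.1 ho.2 hx hm fun y h1 h2 => by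
      simp only [Op.run, h1, h2]
  | ld a iha =>
    intro t x s hw ht hd ho hx hm
    obtain ⟨a1, a2, a3⟩ := iha t x s hw ht hd ho hx hm
    rw [E.code, runL_append, runL_one]
    refine ⟨?_, fun r hr => ?_, a3⟩
    · simp only [Op.run, Function.update_self, a1, a3, hm, E.val]
    · have hd' : t + a.depth ≤ 49 := hd
      have hd1 : 1 ≤ a.depth := by
        clear * -
        induction a <;> simp only [E.depth] <;> omega
      have : r ≠ t := by omega
      simp only [Op.run, Function.update_of_ne this]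
      exact a2 r hr

/-! ### Commands -/

/-- `R_i := e` -/
def set (i : ℕ) (e : E) : Stmt := block (e.code 40 ++ [.or i 40 40])

/-- `M[a] := e` -/
def sto (a e : E) : Stmt := block (a.code 40 ++ (e.code 41 ++ [.store 40 41]))

/-- if `e ≠ 0` then `p` else `q` -/
def cond (e : E) (p q : Stmt) : Stmt := Stmt.seq (block (e.code 40)) (Stmt.ite 40 p q)

/-- for `R_i = 0, …, e - 1` do `p`; the register `R_b` counts down -/
def forr (i b : ℕ) (e : E) (p : Stmt) : Stmt :=
  Stmt.seq (set b e) (Stmt.seq (set i (.c 0))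
    (Stmt.loop b (Stmt.seq p (Stmt.seq (set i (.add (.r i) (.c 1))) (set b (.sub (.r b) (.c 1)))))))

/-- `R_i := 2^e` (uses the registers 38, 39) -/
def pow (i : ℕ) (e : E) : Stmt := Stmt.seq (set 37 e) (Stmt.seq (set i (.c 1))
  (forr 38 39 (.r 37) (set i (.add (.r i) (.r i)))))

/-- The state with `R_i = v`. -/
def upd (s : Data) (i v : ℕ) : Data := ⟨Function.update s.reg i v, s.mem⟩

/-- The state with `M[a] = v`. -/
def updm (s : Data) (a v : ℕ) : Data := ⟨s.reg, Function.update s.mem a v⟩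

@[simp] lemma upd_mem (s : Data) (i v : ℕ) : (upd s i v).mem = s.mem := rfl
@[simp] lemma updm_reg (s : Data) (a v : ℕ) : (updm s a v).reg = s.reg := rfl
@[simp] lemma upd_self (s : Data) (i v : ℕ) : (upd s i v).reg i = v := Function.update_self _ _ _
lemma upd_ne (s : Data) {i j : ℕ} (v : ℕ) (h : j ≠ i) : (upd s i v).reg j = s.reg j :=
  Function.update_of_ne h _ _
lemma upd_reg (s : Data) (i v j : ℕ) : (upd s i v).reg j = if j = i then v else s.reg j := by
  simp only [upd, Function.update_apply]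
@[simp] lemma updm_self (s : Data) (a v : ℕ) : (updm s a v).mem a = v := Function.update_self _ _ _
lemma updm_ne (s : Data) {a b : ℕ} (v : ℕ) (h : b ≠ a) : (updm s a v).mem b = s.mem b :=
  Function.update_of_ne h _ _
lemma updm_mem (s : Data) (a v b : ℕ) : (updm s a v).mem b = if b = a then v else s.mem b := by
  simp only [updm, Function.update_apply]

/-! ### Total correctness up to temporary registers -/

/-- Started in a state which agrees with `s`, `p` halts after at most `T` steps, in a state which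
agrees with a state satisfying `Q`. -/
def HT (w : ℕ) (p : Stmt) (s : Data) (T : ℕ) (Q : Data → Prop) : Prop :=
  ∀ x, Agree x s → Runs w p x T (fun y => ∃ s', Agree y s' ∧ Q s')

lemma HT.mono {w : ℕ} {p : Stmt} {s : Data} {T T' : ℕ} {Q Q' : Data → Prop} (h : HT w p s T Q)
    (hT : T ≤ T') (hQ : ∀ y, Q y → Q' y) : HT w p s T' Q' := fun x hx =>
  (h x hx).mono hT fun _ ⟨s', h1, h2⟩ => ⟨s', h1, hQ s' h2⟩

lemma HT.skip {w : ℕ} {s : Data} {T : ℕ} {Q : Data → Prop} (hQ : Q s) : HT w .skip s T Q :=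
  fun _ hx => Runs.skip ⟨s, hx, hQ⟩

lemma HT.seq {w : ℕ} {p q : Stmt} {s : Data} {T T1 T2 : ℕ} {Q R : Data → Prop}
    (h1 : HT w p s T1 R) (h2 : ∀ s', R s' → HT w q s' T2 Q) (hT : T1 + T2 ≤ T) :
    HT w (.seq p q) s T Q := fun x hx =>
  Runs.seq (h1 x hx) (fun y ⟨s', h3, h4⟩ => h2 s' h4 y h3) hT

lemma HT.set {w : ℕ} {i : ℕ} {e : E} {s : Data} {T : ℕ} {Q : Data → Prop} (hi : i < 40 ∨ 50 ≤ i)
    (he : e.wf = true) (hd : e.depth ≤ 9) (ho : e.ok w s) (hQ : Q (upd s i (e.val s)))
    (hT : e.size + 1 ≤ T) : HT w (set i e) s T Q := fun x hx => by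
  refine Runs.block _ (by rw [List.length_append, E.length_code]; exact hT) ?_
  change ∃ s', Agree (runL w _ x) s' ∧ _
  obtain ⟨h1, h2, h3⟩ := e.code_spec 40 x s he le_rfl (by omega) ho hx.reg hx.mem
  refine ⟨_, ⟨fun r hr => ?_, ?_⟩, hQ⟩
  · rw [runL_append, runL_one]
    simp only [Op.run, upd, Function.update_apply, Nat.or_self, h1]
    split_ifs
    · rfl
    · rw [h2 r (by omega)]
      exact hx.reg r hr
  · rw [runL_append, runL_one]
    exact h3.trans hx.mem

lemma HT.sto {w : ℕ} {a e : E} {s : Data} {T : ℕ} {Q : Data → Prop}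
    (ha : a.wf = true) (hda : a.depth ≤ 9) (hoa : a.ok w s)
    (he : e.wf = true) (hd : e.depth ≤ 8) (ho : e.ok w s) (hQ : Q (updm s (a.val s) (e.val s)))
    (hT : a.size + e.size + 1 ≤ T) : HT w (sto a e) s T Q := fun x hx => by
  refine Runs.block _ (by simp only [List.length_append, E.length_code]; exact (by simpa [Nat.add_assoc] using hT)) ?_
  change ∃ s', Agree (runL w _ x) s' ∧ _
  obtain ⟨h1, h2, h3⟩ := a.code_spec 40 x s ha le_rfl (by omega) hoa hx.reg hx.mem
  obtain ⟨h1', h2', h3'⟩ := e.code_spec 41 (runL w (a.code 40) x) s he (by omega) (by omega) ho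
    (fun r hr => by rw [h2 r (by omega)]; exact hx.reg r hr) (h3.trans hx.mem)
  refine ⟨_, ⟨fun r hr => ?_, ?_⟩, hQ⟩
  · rw [runL_append, runL_append, runL_one]
    simp only [Op.run, updm]
    rw [h2' r (by omega), h2 r (by omega)]
    exact hx.reg r hr
  · rw [runL_append, runL_append, runL_one]
    simp only [Op.run, updm]
    rw [h2' 40 (by omega), h1, h1', h3', h3, hx.mem]

lemma HT.cond {w : ℕ} {e : E} {p q : Stmt} {s : Data} {T T1 : ℕ} {Q : Data → Prop}
    (he : e.wf = true) (hd : e.depth ≤ 9) (ho : e.ok w s)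
    (h1 : e.val s ≠ 0 → HT w p s T1 Q) (h2 : e.val s = 0 → HT w q s T1 Q)
    (hT : e.size + T1 + 2 ≤ T) : HT w (cond e p q) s T Q := fun x hx => by
  obtain ⟨c1, c2, c3⟩ := e.code_spec 40 x s he le_rfl (by omega) ho hx.reg hx.mem
  refine Runs.seq (T1 := e.size) (T2 := T1 + 2) (R := fun y => y.reg 40 = e.val s ∧ Agree y s)
    (Runs.block _ (by rw [E.length_code]) ⟨c1, fun r hr => ?_, c3.trans hx.mem⟩) ?_ (by omega)
  · change (runL w (e.code 40) x).reg r = _
    rw [c2 r (by omega)]
    exact hx.reg r hr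
  · rintro y ⟨hy, hys⟩
    exact Runs.ite (fun h => h1 (hy ▸ h) y hys) (fun h => h2 (hy ▸ h) y hys) le_rfl

/-- The rule for loops: `I j` is the invariant before pass `j` (with `R_i = j`). -/
lemma HT.forr {w : ℕ} {i b : ℕ} {e : E} {p : Stmt} {s : Data} {T : ℕ} {Q : Data → Prop} (N B : ℕ)
    (I : ℕ → Data → Prop) (hi : i < 40) (hb : b < 40) (hib : i ≠ b)
    (he : e.wf = true) (hd : e.depth ≤ 9) (ho : e.ok w s) (hN : e.val s = N) (hw : N < 2 ^ w)
    (h0 : I 0 (upd (upd s b N) i 0))
    (hp : ∀ j, j < N → ∀ s', I j s' → s'.reg i = j → s'.reg b = N - j →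
      HT w p s' B (fun t => t.reg i = j ∧ t.reg b = N - j ∧ I (j + 1) (upd (upd t i (j + 1)) b (N - (j + 1)))))
    (hT : N * (B + 10) + e.size + 5 ≤ T) (hQ : ∀ s', I N s' → s'.reg i = N → s'.reg b = 0 → Q s') :
    HT w (forr i b e p) s T Q := by
  have hw1 : 1 < 2 ^ w ∨ N = 0 := by
    rcases Nat.eq_zero_or_pos N with h | h
    · exact Or.inr h
    · left; omega
  refine HT.seq (R := fun s' => s' = upd s b N) (T1 := e.size + 1) (T2 := N * (B + 10) + 4)
    (HT.set (Or.inl hb) he hd ho (by rw [hN]) le_rfl) ?_ (by omega)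
  rintro _ rfl
  refine HT.seq (R := fun s' => s' = upd (upd s b N) i 0) (T1 := 2) (T2 := N * (B + 10) + 1)
    (HT.set (Or.inl hi) rfl (by decide) (by simp only [E.ok]; positivity) rfl (by decide)) ?_ (by omega)
  rintro _ rfl
  intro x hx
  refine Runs.loop N (B + 8) (fun j y => ∃ s', Agree y s' ∧ I j s' ∧ s'.reg i = j ∧ s'.reg b = N - j)
    ⟨_, hx, h0, upd_self _ _ _, ?_⟩ ?_ ?_ ?_ (by
      have : B + 8 + 2 = B + 10 := by ring
      rw [this]) ?_
  · rw [upd_ne _ _ hib.symm, upd_self, Nat.sub_zero]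
  · rintro j hj y ⟨s', h1, -, -, h4⟩
    rw [h1.reg b (Or.inl hb), h4]
    omega
  · rintro y ⟨s', h1, -, -, h4⟩
    rw [h1.reg b (Or.inl hb), h4, Nat.sub_self]
  · rintro j hj y ⟨s', h1, h2, h3, h4⟩
    have h1w : 1 < 2 ^ w := by omega
    refine HT.seq (T1 := B) (T2 := 8) (hp j hj s' h2 h3 h4) ?_ le_rfl y h1
    rintro t ⟨t1, t2, t3⟩
    refine HT.seq (R := fun s' => s' = upd t i (j + 1)) (T1 := 4) (T2 := 4)
      (HT.set (Or.inl hi) ?_ (show 2 ≤ 9 by norm_num) ?_ ?_ (show 4 ≤ 4 by norm_num)) ?_ le_rfl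
    · simp only [E.wf, Bool.and_true, Bool.or_eq_true, decide_eq_true_eq]
      exact Or.inl hi
    · simp only [E.ok, E.val, t1, true_and]
      omega
    · simp only [E.val, t1]
    rintro _ rfl
    refine HT.set (Or.inl hb) ?_ (show 2 ≤ 9 by norm_num) ?_ ?_ (show 4 ≤ 4 by norm_num)
    · simp only [E.wf, Bool.and_true, Bool.or_eq_true, decide_eq_true_eq]
      exact Or.inl hb
    · simp only [E.ok, true_and]
      exact h1w
    · have h5 : (E.sub (.r b) (.c 1)).val (upd t i (j + 1)) = N - (j + 1) := by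
        simp only [E.val]
        rw [upd_ne _ _ hib.symm, t2]
        omega
      rw [h5]
      refine ⟨t3, ?_, upd_self _ _ _⟩
      rw [upd_ne _ _ hib, upd_self]
  · rintro y ⟨s', h1, h2, h3, h4⟩
    exact ⟨s', h1, hQ s' h2 h3 (by rw [h4, Nat.sub_self])⟩

/-- the command `R_i := 2^e` -/
lemma HT.pow {w : ℕ} {i : ℕ} {e : E} {s : Data} {T : ℕ} {Q : Data → Prop} (hi : i < 37)
    (he : e.wf = true) (hd : e.depth ≤ 9) (ho : e.ok w s) (hw : 2 ^ e.val s < 2 ^ w)
    (hQ : ∀ t : Data, t.reg i = 2 ^ e.val s → (∀ r, r ≠ i → r ≠ 37 → r ≠ 38 → r ≠ 39 → t.reg r = s.reg r) →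
      t.mem = s.mem → Q t)
    (hT : 14 * e.val s + e.size + 9 ≤ T) : HT w (pow i e) s T Q := by
  have hlt : e.val s < w := (Nat.pow_lt_pow_iff_right (by norm_num)).1 hw
  have h1w : 1 < 2 ^ w := Nat.one_lt_two_pow (by omega)
  refine HT.seq (R := fun s' => s' = upd s 37 (e.val s)) (T1 := e.size + 1) (T2 := 14 * e.val s + 8)
    (HT.set (by omega) he hd ho rfl le_rfl) ?_ (by omega)
  rintro _ rfl
  refine HT.seq (R := fun s' => s' = upd (upd s 37 (e.val s)) i 1) (T1 := 2) (T2 := 14 * e.val s + 6)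
    (HT.set (by omega) rfl (by decide) h1w rfl (by decide)) ?_ (by omega)
  rintro _ rfl
  refine HT.forr (e.val s) 4 (fun j t => t.reg i = 2 ^ j ∧
    (∀ r, r ≠ i → r ≠ 37 → r ≠ 38 → r ≠ 39 → t.reg r = s.reg r) ∧ t.mem = s.mem)
    (by decide) (by decide) (by decide) rfl (by decide) trivial ?_ ?_ ?_ ?_ ?_ ?_
  · simp only [E.val]
    rw [upd_ne _ _ (by omega), upd_self]
  · exact hlt.trans Nat.lt_two_pow_self
  · refine ⟨?_, fun r h1 h2 h3 h4 => ?_, rfl⟩
    · rw [upd_ne _ _ (by omega), upd_ne _ _ (by omega), upd_self, Nat.pow_zero]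
    · rw [upd_ne _ _ h3, upd_ne _ _ h4, upd_ne _ _ h1, upd_ne _ _ h2]
  · rintro j hj t ⟨t1, t2, t3⟩ t4 t5
    have h5 : (E.add (.r i) (.r i)).val t = 2 ^ (j + 1) := by
      simp only [E.val, t1]
      rw [Nat.pow_succ]
      ring
    have h6 : 2 ^ (j + 1) < 2 ^ w := Nat.pow_lt_pow_right (by norm_num) (by omega)
    refine HT.set (by omega) ?_ (show 2 ≤ 9 by norm_num) ?_ ?_ (show 4 ≤ 4 by norm_num)
    · simp only [E.wf, Bool.and_self, Bool.or_eq_true, decide_eq_true_eq]
      omega
    · refine ⟨trivial, trivial, ?_⟩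
      rw [← h5] at h6
      exact h6
    · rw [h5]
      refine ⟨?_, ?_, ?_, fun r h1 h2 h3 h4 => ?_, t3⟩
      · rw [upd_ne _ _ (by omega), t4]
      · rw [upd_ne _ _ (by omega), t5]
      · rw [upd_ne _ _ (by omega), upd_ne _ _ (by omega), upd_self]
      · rw [upd_ne _ _ h4, upd_ne _ _ h3, upd_ne _ _ h1]
        exact t2 r h1 h2 h3 h4
  · simp only [E.size]
    omega
  · rintro t ⟨t1, t2, t3⟩ - -
    exact hQ t t1 t2 t3

/-- the call of a subroutine, `R_15` = address of its memory, `R_16 = 2^w' - 1` -/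
lemma HT.call {w w' R T T' out : ℕ} {P : List Instr} {s : Data} {Q : Data → Prop} (hR : 50 ≤ R)
    (hw : w' ≤ w) (h15 : s.reg 15 + 2 ^ w' ≤ 2 ^ w) (h16 : s.reg 16 = 2 ^ w' - 1)
    (hP : Outputs w' P (regionMem (s.reg 15) w' s.mem) T out)
    (hQ : ∀ t : Data, t.reg R = out → (∀ r, r < 40 ∨ (50 ≤ r ∧ r < R) → t.reg r = s.reg r) →
      (∀ a, a < s.reg 15 → t.mem a = s.mem a) → Q t)
    (hT : 3 * T + top P ≤ T') : HT w (call R P) s T' Q := fun x hx => by
  have h1 := hx.reg 15 (Or.inl (by decide))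
  have h2 := hx.reg 16 (Or.inl (by decide))
  refine (callSpec w w' R T out P x hR hw (h1 ▸ h15) (h2.trans h16) (by rw [h1, hx.mem]; exact hP)).mono hT ?_
  rintro y ⟨y1, y2, y3⟩
  refine ⟨y, Agree.refl y, hQ y y1 (fun r hr => ?_) fun a ha => ?_⟩
  · rw [y2 r (by omega) (by simp only [List.mem_singleton]; omega)]
    exact hx.reg r (by omega)
  · rw [y3 a (h1 ▸ ha), hx.mem]

lemma HT.runs {w : ℕ} {p : Stmt} {s : Data} {T : ℕ} {Q : Data → Prop} (h : HT w p s T Q) :
    Runs w p s T (fun y => ∃ s', Agree y s' ∧ Q s') := h s (Agree.refl s)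

/-- From the structured program to the machine. -/
theorem HT.outputs {w : ℕ} {p : Stmt} {mem : ℕ → ℕ} {T out : ℕ}
    (h : HT w p ⟨fun _ => 0, mem⟩ T (fun y => y.reg 0 = out)) : Outputs w (p.compile 0) mem T out :=
  Runs.outputs (h.runs.mono le_rfl fun y ⟨_, h1, h2⟩ => (h1.reg 0 (Or.inl (by decide))).trans h2)

end SCM
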