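import Pool.Agent.Lib.SCM.Pure

/-!
# Set Cover → Steiner Tree
-/

set_option autoImplicit false

namespace SCM

open SCR SCN

namespace M1x

open Relation

theorem inn_lt {n : ℕ} {A : Finset (Fin n)} {x : ℕ} (h : inn A x) : x < n := by
  obtain ⟨h, -⟩ := h
  exact h

/-- A connected set has at most one vertex more than edges. -/
theorem card_class (hS : Split) (hS0 : Split0) (m : ℕ) : ∀ (F : Finset (ℕ × ℕ)), F.card ≤ m →
    ∀ (v : ℕ) (V : Finset ℕ), (∀ t ∈ V, EqvGen (fun a b => (a, b) ∈ F) v t) →
      V.card ≤ F.card + 1 := by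
  induction m with
  | zero =>
    intro F hF v V hV
    have h1 : F = ∅ := Finset.card_eq_zero.1 (by omega)
    have h2 : V ⊆ {v} := by
      intro t ht
      rw [Finset.mem_singleton]
      refine hS0 F v (fun w => ?_) t (hV t ht)
      rw [h1]
      simp
    have h3 := Finset.card_le_card h2
    rw [Finset.card_singleton] at h3
    omega
  | succ m ih =>
    intro F hF v V hV
    by_cases h : ∃ w, (v, w) ∈ F ∨ (w, v) ∈ F
    · obtain ⟨w, hw⟩ := h
      obtain ⟨FA, FB, hA, hB, hc, hAB⟩ := hS F v w hw
      classical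
      have h1 := ih FA (by omega) v (V.filter fun t => EqvGen (fun a b => (a, b) ∈ FA) v t)
        (fun t ht => (Finset.mem_filter.1 ht).2)
      have h2 := ih FB (by omega) w (V.filter fun t => EqvGen (fun a b => (a, b) ∈ FB) w t)
        (fun t ht => (Finset.mem_filter.1 ht).2)
      have h3 : V ⊆ (V.filter fun t => EqvGen (fun a b => (a, b) ∈ FA) v t) ∪
          V.filter fun t => EqvGen (fun a b => (a, b) ∈ FB) w t := by
        intro t ht
        rw [Finset.mem_union, Finset.mem_filter, Finset.mem_filter]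
        rcases hAB t (hV t ht) with h4 | h4
        · exact Or.inl ⟨ht, h4⟩
        · exact Or.inr ⟨ht, h4⟩
      have h4 := (Finset.card_le_card h3).trans (Finset.card_union_le _ _)
      omega
    · have h2 : V ⊆ {v} := by
        intro t ht
        rw [Finset.mem_singleton]
        refine hS0 F v (fun w => ?_) t (hV t ht)
        push Not at h
        exact h w
      have h3 := Finset.card_le_card h2
      rw [Finset.card_singleton] at h3
      omega

theorem mem_edges {n : ℕ} {L : List (Finset (Fin n))} {e : ℕ × ℕ} :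
    e ∈ edges1 L ↔ ∃ i < L.length, e = (n, n + 1 + i) ∨
      ∃ x < n, inn (nth L i) x ∧ e = (x, n + 1 + i) := by
  unfold edges1
  simp only [List.mem_flatMap, List.mem_range, List.mem_cons]
  constructor
  · rintro ⟨i, hi, rfl | ⟨x, hx, he⟩⟩
    · exact ⟨i, hi, Or.inl rfl⟩
    · split_ifs at he with h1
      · rw [List.mem_singleton] at he
        exact ⟨i, hi, Or.inr ⟨x, hx, h1, he⟩⟩
      · simp at he
  · rintro ⟨i, hi, rfl | ⟨x, hx, h1, he⟩⟩
    · exact ⟨i, hi, Or.inl rfl⟩
    · refine ⟨i, hi, Or.inr ⟨x, hx, ?_⟩⟩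
      rw [if_pos h1, List.mem_singleton]
      exact he

theorem nth_mem {n : ℕ} {L : List (Finset (Fin n))} {i : ℕ} (hi : i < L.length) :
    nth L i ∈ L := by
  unfold nth
  rw [List.getD_eq_getElem _ _ hi]
  exact List.getElem_mem hi

theorem nth_inj {n : ℕ} {L : List (Finset (Fin n))} (hL : L.Nodup) {i j : ℕ} (hi : i < L.length)
    (hj : j < L.length) (h : nth L i = nth L j) : i = j := by
  unfold nth at h
  rw [List.getD_eq_getElem _ _ hi, List.getD_eq_getElem _ _ hj] at h
  exact (List.Nodup.getElem_inj_iff hL).1 h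

end M1x

open Relation in
theorem m1 (hS : Split) (hS0 : Split0) : M1 := by
  intro h I
  obtain ⟨n, k, L, hL⟩ := I
  change (∃ F : Finset (ℕ × ℕ), (∀ e ∈ F, e ∈ edges1 L) ∧ F.card ≤ n + (k - (k - n)) ∧
    ∀ s < n + 1, ∀ t < n + 1, EqvGen (fun u v => (u, v) ∈ F) s t) ↔ Coverable n k L
  classical
  constructor
  · rintro ⟨F, hF, hc, ht⟩
    obtain ⟨I, hI⟩ : ∃ I, I = (Finset.range L.length).filter
      fun i => EqvGen (fun u v => (u, v) ∈ F) n (n + 1 + i) := ⟨_, rfl⟩
    have h1 := M1x.card_class hS hS0 _ F le_rfl n (Finset.range (n + 1) ∪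
      I.image fun i => n + 1 + i) (fun t h1 => by
        rw [Finset.mem_union, Finset.mem_range, Finset.mem_image] at h1
        rcases h1 with h1 | ⟨i, hi, rfl⟩
        · exact ht n (Nat.lt_succ_self n) t h1
        · rw [hI, Finset.mem_filter] at hi
          exact hi.2)
    have h2 : Disjoint (Finset.range (n + 1)) (I.image fun i => n + 1 + i) := by
      rw [Finset.disjoint_left]
      intro t h1 h2
      rw [Finset.mem_range] at h1
      obtain ⟨i, -, rfl⟩ := Finset.mem_image.1 h2
      omega
    rw [Finset.card_union_of_disjoint h2, Finset.card_range,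
      Finset.card_image_of_injective _ (fun a b h => by
        simpa using h)] at h1
    refine ⟨I.image (nth L), fun A hA => ?_, ?_, fun x => ?_⟩
    · obtain ⟨i, hi, rfl⟩ := Finset.mem_image.1 hA
      rw [hI, Finset.mem_filter, Finset.mem_range] at hi
      exact M1x.nth_mem hi.1
    · have h3 : (I.image (nth L)).card ≤ I.card := Finset.card_image_le
      omega
    · -- an edge at `x`
      have hx := x.2
      have h3 : ∃ w, ((x : ℕ), w) ∈ F ∨ (w, (x : ℕ)) ∈ F := by
        by_contra hcon
        push Not at hcon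
        have := hS0 F x hcon n (ht x (by omega) n (by omega))
        omega
      obtain ⟨w, hw⟩ := h3
      have h4 : ∃ i < L.length, w = n + 1 + i ∧ inn (nth L i) x := by
        rcases hw with hw | hw
        · obtain ⟨i, hi, h5 | ⟨y, hy, h6, h5⟩⟩ := M1x.mem_edges.1 (hF _ hw)
          · rw [Prod.mk.injEq] at h5
            omega
          · rw [Prod.mk.injEq] at h5
            refine ⟨i, hi, h5.2, ?_⟩
            rw [h5.1]
            exact h6
        · obtain ⟨i, hi, h5 | ⟨y, hy, h6, h5⟩⟩ := M1x.mem_edges.1 (hF _ hw)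
          · rw [Prod.mk.injEq] at h5
            omega
          · rw [Prod.mk.injEq] at h5
            omega
      obtain ⟨i, hi, rfl, h5⟩ := h4
      refine ⟨nth L i, Finset.mem_image.2 ⟨i, ?_, rfl⟩, ?_⟩
      · rw [hI, Finset.mem_filter, Finset.mem_range]
        refine ⟨hi, (ht n (by omega) x (by omega)).trans _ _ _ ?_⟩
        rcases hw with hw | hw
        · exact EqvGen.rel _ _ hw
        · exact (EqvGen.rel _ _ hw).symm
      · obtain ⟨h6, h7⟩ := h5
        exact h7
  · rintro ⟨C, hC, hk, hcov⟩
    have h1 : ∀ x : ℕ, ∃ i, x < n → i < L.length ∧ inn (nth L i) x ∧ nth L i ∈ C := by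
      intro x
      by_cases hx : x < n
      · obtain ⟨A, hA, hxA⟩ := hcov ⟨x, hx⟩
        obtain ⟨i, hi, rfl⟩ := List.mem_iff_getElem.1 (hC A hA)
        refine ⟨i, fun _ => ⟨hi, ?_, ?_⟩⟩
        · unfold nth
          rw [List.getD_eq_getElem _ _ hi]
          exact ⟨hx, hxA⟩
        · unfold nth
          rw [List.getD_eq_getElem _ _ hi]
          exact hA
      · exact ⟨0, fun h => absurd h hx⟩
    choose f hf using h1
    obtain ⟨I, hI⟩ : ∃ I, I = (Finset.range n).image f := ⟨_, rfl⟩
    have hI1 : I.card ≤ n := by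
      rw [hI]
      exact Finset.card_image_le.trans (by rw [Finset.card_range])
    have hIl : ∀ i ∈ I, i < L.length ∧ nth L i ∈ C := by
      intro i hi
      rw [hI] at hi
      obtain ⟨x, hx, rfl⟩ := Finset.mem_image.1 hi
      have := hf x (Finset.mem_range.1 hx)
      exact ⟨this.1, this.2.2⟩
    have hI2 : I.card ≤ k := by
      refine le_trans ?_ hk
      refine Finset.card_le_card_of_injOn (nth L) (fun i hi => (hIl i hi).2) ?_
      intro i hi j hj hij
      exact M1x.nth_inj hL (hIl i hi).1 (hIl j hj).1 hij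
    refine ⟨(I.image fun i => (n, n + 1 + i)) ∪ (Finset.range n).image fun x => (x, n + 1 + f x),
      fun e he => ?_, ?_, ?_⟩
    · rw [M1x.mem_edges]
      rcases Finset.mem_union.1 he with he | he
      · obtain ⟨i, hi, rfl⟩ := Finset.mem_image.1 he
        exact ⟨i, (hIl i hi).1, Or.inl rfl⟩
      · obtain ⟨x, hx, rfl⟩ := Finset.mem_image.1 he
        have h2 := Finset.mem_range.1 hx
        exact ⟨f x, (hf x h2).1, Or.inr ⟨x, h2, (hf x h2).2.1, rfl⟩⟩
    · refine (Finset.card_union_le _ _).trans ?_
      have h2 : (I.image fun i => (n, n + 1 + i)).card ≤ I.card := Finset.card_image_le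
      have h3 : ((Finset.range n).image fun x => (x, n + 1 + f x)).card ≤ n :=
        Finset.card_image_le.trans (by rw [Finset.card_range])
      omega
    · have h2 : ∀ t < n + 1, EqvGen (fun u v => (u, v) ∈ (I.image fun i => (n, n + 1 + i)) ∪
          (Finset.range n).image fun x => (x, n + 1 + f x)) t n := by
        intro t ht
        rcases Nat.lt_or_ge t n with h3 | h3
        · refine EqvGen.trans _ (n + 1 + f t) _ (EqvGen.rel _ _ ?_) (EqvGen.symm _ _
            (EqvGen.rel _ _ ?_))
          · exact Finset.mem_union_right _ (Finset.mem_image.2 ⟨t, Finset.mem_range.2 h3, rfl⟩)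
          · refine Finset.mem_union_left _ (Finset.mem_image.2 ⟨f t, ?_, rfl⟩)
            rw [hI]
            exact Finset.mem_image.2 ⟨t, Finset.mem_range.2 h3, rfl⟩
        · obtain rfl : t = n := by omega
          exact EqvGen.refl _
      intro s hs t ht
      exact EqvGen.trans _ _ _ (h2 s hs) (EqvGen.symm _ _ (h2 t ht))

end SCM
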