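import Pool.Agent.Lib.SCM.SP

/-!
# Row M2: Steiner Tree → Full Monomial.  (helper42)
-/

namespace SCM

/-- the vertex `v` is connected to `t` by the edges `F` -/
def Cn (F : Finset (ℕ × ℕ)) (v t : ℕ) : Prop := Relation.EqvGen (fun a b => (a, b) ∈ F) v t

theorem lv_inj {n N i v i' v' : ℕ} (hv : v < N) (hv' : v' < N) (h : lv n N i v = lv n N i' v') :
    i = i' ∧ v = v' := by
  unfold lv at h
  have h1 : i * N + v = i' * N + v' := by omega
  have hN : 0 < N := by omega
  have h2 : (i * N + v) / N = i := by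
    rw [Nat.add_comm, Nat.add_mul_div_right _ _ hN, Nat.div_eq_of_lt hv, Nat.zero_add]
  have h3 : (i' * N + v') / N = i' := by
    rw [Nat.add_comm, Nat.add_mul_div_right _ _ hN, Nat.div_eq_of_lt hv', Nat.zero_add]
  have h4 : i = i' := by rw [← h2, ← h3, h1]
  subst h4
  exact ⟨rfl, by omega⟩

/-- the forms of the rules -/
theorem mem_rules2 {n N J : ℕ} {E : List (ℕ × ℕ)} {t : ℕ × ℕ × ℕ} :
    t ∈ rules2 n N J E ↔
      (∃ v < n, t = (lv n N 0 v, v, n)) ∨ (∃ v < N, t = (lv n N 0 v, n, n)) ∨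
      ∃ i < J, (∃ v < N, t = (lv n N (i + 1) v, lv n N i v, n)) ∨
        (∃ e ∈ E, t = (lv n N (i + 1) e.1, lv n N i e.2, lv n N 0 e.1) ∨
          t = (lv n N (i + 1) e.2, lv n N i e.1, lv n N 0 e.2)) ∨
        ∃ a < i, ∃ v < N, t = (lv n N (i + 1) v, lv n N (a + 1) v, lv n N (i - a) v) := by
  simp only [rules2, rules2i, List.mem_append, List.mem_map, List.mem_range, List.mem_flatMap,
    List.mem_cons, List.not_mem_nil, or_false]
  constructor
  · rintro (⟨v, hv, rfl⟩ | ⟨v, hv, rfl⟩ | ⟨i, hi, ⟨v, hv, rfl⟩ | ⟨e, he, h⟩ | ⟨a, ha, v, hv, rfl⟩⟩)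
    · exact Or.inl ⟨v, hv, rfl⟩
    · exact Or.inr (Or.inl ⟨v, hv, rfl⟩)
    · exact Or.inr (Or.inr ⟨i, hi, Or.inl ⟨v, hv, rfl⟩⟩)
    · exact Or.inr (Or.inr ⟨i, hi, Or.inr (Or.inl ⟨e, he, h⟩)⟩)
    · exact Or.inr (Or.inr ⟨i, hi, Or.inr (Or.inr ⟨a, ha, v, hv, rfl⟩)⟩)
  · rintro (⟨v, hv, rfl⟩ | ⟨v, hv, rfl⟩ | ⟨i, hi, ⟨v, hv, rfl⟩ | ⟨e, he, h⟩ | ⟨a, ha, v, hv, rfl⟩⟩)
    · exact Or.inl ⟨v, hv, rfl⟩
    · exact Or.inr (Or.inl ⟨v, hv, rfl⟩)
    · exact Or.inr (Or.inr ⟨i, hi, Or.inl ⟨v, hv, rfl⟩⟩)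
    · exact Or.inr (Or.inr ⟨i, hi, Or.inr (Or.inl ⟨e, he, h⟩)⟩)
    · exact Or.inr (Or.inr ⟨i, hi, Or.inr (Or.inr ⟨a, ha, v, hv, rfl⟩)⟩)

/-- the property of a gate -/
def Pr (n N : ℕ) (E : List (ℕ × ℕ)) (g : ℕ) (Y : Finset ℕ) : Prop :=
  (g < n → Y = {g}) ∧ (g = n → Y = ∅) ∧ ∀ i v, v < N → g = lv n N i v →
    ∃ F : Finset (ℕ × ℕ), (∀ e ∈ F, e ∈ E) ∧ F.card ≤ i ∧ ∀ t ∈ Y, Cn F v t

theorem pr_zero {n N : ℕ} {E : List (ℕ × ℕ)} {v : ℕ} {Y : Finset ℕ} (hv : v < N)
    (h : Pr n N E (lv n N 0 v) Y) : ∀ t ∈ Y, t = v := by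
  obtain ⟨F, _, h2, h3⟩ := h.2.2 0 v hv rfl
  have h4 : F = ∅ := Finset.card_eq_zero.1 (Nat.le_zero.1 h2)
  subst h4
  intro t ht
  exact split0 ∅ v (fun w => by simp) t (h3 t ht)

theorem mono_pr {n N J : ℕ} {E : List (ℕ × ℕ)} (hn : n ≤ N) (hE : ∀ e ∈ E, e.1 < N ∧ e.2 < N)
    {g : ℕ} {Y : Finset ℕ} (h : Mono n (rules2 n N J E) g Y) : Pr n N E g Y := by
  classical
  induction h with
  | var ha =>
    refine ⟨fun _ => rfl, fun h => by omega, fun i v _ h => ?_⟩
    unfold lv at h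
    omega
  | one =>
    refine ⟨fun h => by omega, fun _ => rfl, fun i v _ h => ?_⟩
    unfold lv at h
    omega
  | @mul q x y A B hq _ _ _ ihA ihB =>
    have hlv : ∀ i v, ¬ lv n N i v < n ∧ lv n N i v ≠ n := fun i v => by
      unfold lv
      omega
    have hq' := mem_rules2.1 hq
    have key : ∀ i0 v0, v0 < N → q = lv n N i0 v0 → (∃ F : Finset (ℕ × ℕ), (∀ e ∈ F, e ∈ E) ∧
        F.card ≤ i0 ∧ ∀ t ∈ A ∪ B, Cn F v0 t) → Pr n N E q (A ∪ B) := by
      intro i0 v0 hv0 hq0 hF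
      refine ⟨fun h => absurd (hq0 ▸ h) (hlv i0 v0).1, fun h => absurd (hq0.symm.trans h) (hlv i0 v0).2,
        fun i v hv h => ?_⟩
      obtain ⟨h1, h2⟩ := lv_inj hv hv0 (h.symm.trans hq0)
      rw [h1, h2]
      exact hF
    have hnn : ∀ Y, Pr n N E n Y → Y = ∅ := fun Y h => h.2.1 rfl
    rcases hq' with ⟨v, hv, h⟩ | ⟨v, hv, h⟩ | ⟨i, hi, ⟨v, hv, h⟩ | ⟨e, he, h⟩ | ⟨a, ha, v, hv, h⟩⟩
    · rw [Prod.mk.injEq, Prod.mk.injEq] at h
      obtain ⟨h1, h2, h3⟩ := h
      rw [h2] at ihA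
      rw [h3] at ihB
      refine key 0 v (by omega) h1 ⟨∅, by simp, by simp, ?_⟩
      rw [ihA.1 hv, hnn B ihB, Finset.union_empty]
      intro t ht
      rw [Finset.mem_singleton] at ht
      rw [ht]
      exact .refl _
    · rw [Prod.mk.injEq, Prod.mk.injEq] at h
      obtain ⟨h1, h2, h3⟩ := h
      rw [h2] at ihA
      rw [h3] at ihB
      refine key 0 v (by omega) h1 ⟨∅, by simp, by simp, ?_⟩
      rw [hnn A ihA, hnn B ihB, Finset.union_empty]
      intro t ht
      simp at ht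
    · rw [Prod.mk.injEq, Prod.mk.injEq] at h
      obtain ⟨h1, h2, h3⟩ := h
      rw [h2] at ihA
      rw [h3] at ihB
      obtain ⟨F, f1, f2, f3⟩ := ihA.2.2 i v hv rfl
      refine key (i + 1) v hv h1 ⟨F, f1, by omega, ?_⟩
      rw [hnn B ihB, Finset.union_empty]
      exact f3
    · have gen : ∀ a b : ℕ, a < N → b < N → ((a, b) ∈ E ∨ (b, a) ∈ E) →
          q = lv n N (i + 1) a → x = lv n N i b → y = lv n N 0 a → Pr n N E q (A ∪ B) := by
        intro a b ha hb hab h1 h2 h3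
        rw [h2] at ihA
        rw [h3] at ihB
        obtain ⟨F, f1, f2, f3⟩ := ihA.2.2 i b hb rfl
        have hB := pr_zero ha ihB
        obtain ⟨e, he, hee⟩ : ∃ e ∈ E, e = (a, b) ∨ e = (b, a) := by
          rcases hab with h | h
          · exact ⟨_, h, Or.inl rfl⟩
          · exact ⟨_, h, Or.inr rfl⟩
        refine key (i + 1) a ha h1 ⟨insert e F, ?_, ?_, ?_⟩
        · intro e' he'
          rcases Finset.mem_insert.1 he' with h | h
          · rw [h]; exact he
          · exact f1 e' h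
        · exact (Finset.card_insert_le _ _).trans (by omega)
        · intro t ht
          rcases Finset.mem_union.1 ht with h | h
          · have h4 : Cn (insert e F) b t := eqvGen_mono (Finset.subset_insert _ _) (f3 t h)
            have h5 : Cn (insert e F) a b := by
              rcases hee with h6 | h6
              · exact .rel _ _ (by rw [h6]; exact Finset.mem_insert_self _ _)
              · exact .symm _ _ (.rel _ _ (by rw [h6]; exact Finset.mem_insert_self _ _))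
            exact h5.trans _ _ _ h4
          · rw [hB t h]
            exact .refl _
      obtain ⟨g1, g2⟩ := hE e he
      rcases h with h | h
      · rw [Prod.mk.injEq, Prod.mk.injEq] at h
        exact gen e.1 e.2 g1 g2 (Or.inl he) h.1 h.2.1 h.2.2
      · rw [Prod.mk.injEq, Prod.mk.injEq] at h
        exact gen e.2 e.1 g2 g1 (Or.inr he) h.1 h.2.1 h.2.2
    · rw [Prod.mk.injEq, Prod.mk.injEq] at h
      obtain ⟨h1, h2, h3⟩ := h
      rw [h2] at ihA
      rw [h3] at ihB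
      obtain ⟨F, f1, f2, f3⟩ := ihA.2.2 (a + 1) v hv rfl
      obtain ⟨G, g1, g2, g3⟩ := ihB.2.2 (i - a) v hv rfl
      refine key (i + 1) v hv h1 ⟨F ∪ G, ?_, ?_, ?_⟩
      · intro e he
        rcases Finset.mem_union.1 he with h | h
        · exact f1 e h
        · exact g1 e h
      · exact (Finset.card_union_le _ _).trans (by omega)
      · intro t ht
        rcases Finset.mem_union.1 ht with h | h
        · exact eqvGen_mono Finset.subset_union_left (f3 t h)
        · exact eqvGen_mono Finset.subset_union_right (g3 t h)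

section

variable {n N J : ℕ} {E : List (ℕ × ℕ)}

theorem up1 {i v : ℕ} {Y : Finset ℕ} (hi : i < J) (hv : v < N)
    (h : Mono n (rules2 n N J E) (lv n N i v) Y) : Mono n (rules2 n N J E) (lv n N (i + 1) v) Y := by
  have h1 : (lv n N (i + 1) v, lv n N i v, n) ∈ rules2 n N J E :=
    mem_rules2.2 (Or.inr (Or.inr ⟨i, hi, Or.inl ⟨v, hv, rfl⟩⟩))
  have h2 := Mono.mul h1 h Mono.one (Finset.disjoint_empty_right _)
  rwa [Finset.union_empty] at h2

theorem up {i i' v : ℕ} {Y : Finset ℕ} (hii : i ≤ i') (hi : i' ≤ J) (hv : v < N)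
    (h : Mono n (rules2 n N J E) (lv n N i v) Y) : Mono n (rules2 n N J E) (lv n N i' v) Y := by
  induction i', hii using Nat.le_induction with
  | base => exact h
  | succ k _ ih => exact up1 hi hv (ih (by omega))

theorem zero_e {v : ℕ} (hv : v < N) : Mono n (rules2 n N J E) (lv n N 0 v) ∅ := by
  have h1 : (lv n N 0 v, n, n) ∈ rules2 n N J E := mem_rules2.2 (Or.inr (Or.inl ⟨v, hv, rfl⟩))
  have h2 := Mono.mul h1 Mono.one Mono.one (Finset.disjoint_empty_right _)
  rwa [Finset.union_empty] at h2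

theorem zero_v {v : ℕ} (hv : v < n) : Mono n (rules2 n N J E) (lv n N 0 v) {v} := by
  have h1 : (lv n N 0 v, v, n) ∈ rules2 n N J E := mem_rules2.2 (Or.inl ⟨v, hv, rfl⟩)
  have h2 := Mono.mul h1 (Mono.var hv) Mono.one (Finset.disjoint_empty_right _)
  rwa [Finset.union_empty] at h2

theorem zero_sub {v : ℕ} {Y : Finset ℕ} (hv : v < N) (hY : ∀ t ∈ Y, t < n) (h : ∀ t ∈ Y, t = v) :
    Mono n (rules2 n N J E) (lv n N 0 v) Y := by
  rcases Y.eq_empty_or_nonempty with h1 | ⟨t, ht⟩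
  · rw [h1]; exact zero_e hv
  · have h2 : Y = {v} := Finset.eq_singleton_iff_unique_mem.2 ⟨h t ht ▸ ht, h⟩
    rw [h2]
    exact zero_v (h t ht ▸ hY t ht)

theorem conv (hE : ∀ e ∈ E, e.1 < N ∧ e.2 < N) (m : ℕ) : ∀ (F : Finset (ℕ × ℕ)), F.card = m →
    (∀ e ∈ F, e ∈ E) → F.card ≤ J → ∀ v < N, ∀ Y : Finset ℕ, (∀ t ∈ Y, t < n) →
    (∀ t ∈ Y, Cn F v t) → Mono n (rules2 n N J E) (lv n N F.card v) Y := by
  classical
  induction m using Nat.strong_induction_on with
  | _ m ih =>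
    intro F hm hF hJ v hv Y hYn hY
    by_cases h0 : ∀ w, (v, w) ∉ F ∧ (w, v) ∉ F
    · exact up (Nat.zero_le _) hJ hv (zero_sub hv hYn fun t ht => split0 F v h0 t (hY t ht))
    · obtain ⟨w, hw⟩ : ∃ w, (v, w) ∈ F ∨ (w, v) ∈ F := by
        by_contra hc
        refine h0 fun w => ⟨fun h => hc ⟨w, Or.inl h⟩, fun h => hc ⟨w, Or.inr h⟩⟩
      have hwN : w < N := by
        rcases hw with h | h
        · exact (hE _ (hF _ h)).2
        · exact (hE _ (hF _ h)).1
      obtain ⟨FA, FB, hA, hB, hc, hs⟩ := split F v w hw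
      set YA := Y.filter fun t => Cn FA v t with hYA
      set YB := Y.filter fun t => ¬ Cn FA v t with hYB
      have hYu : YA ∪ YB = Y := Finset.filter_union_filter_not_eq _ _
      have hd : Disjoint YA YB := Finset.disjoint_filter_filter_not _ _ _
      have hMA := ih FA.card (by omega) FA rfl (fun e he => hF e (hA he)) (by omega) v hv YA
        (fun t ht => hYn t (Finset.mem_filter.1 ht).1) (fun t ht => (Finset.mem_filter.1 ht).2)
      have hMB := ih FB.card (by omega) FB rfl (fun e he => hF e (hB he)) (by omega) w hwN YB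
        (fun t ht => hYn t (Finset.mem_filter.1 ht).1) (fun t ht => by
          obtain ⟨h1, h2⟩ := Finset.mem_filter.1 ht
          rcases hs t (hY t h1) with h3 | h3
          · exact absurd h3 h2
          · exact h3)
      have hrule : (lv n N (FB.card + 1) v, lv n N FB.card w, lv n N 0 v) ∈ rules2 n N J E := by
        refine mem_rules2.2 (Or.inr (Or.inr ⟨FB.card, by omega, Or.inr (Or.inl ?_)⟩))
        rcases hw with h | h
        · exact ⟨(v, w), hF _ h, Or.inl rfl⟩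
        · exact ⟨(w, v), hF _ h, Or.inr rfl⟩
      rcases Nat.eq_zero_or_pos FA.card with ha | ha
      · rw [ha] at hMA
        have h1 := Mono.mul hrule hMB hMA hd.symm
        rw [Finset.union_comm, hYu] at h1
        exact up (by omega) hJ hv h1
      · have h1 := Mono.mul hrule hMB (zero_e hv) (Finset.disjoint_empty_right _)
        rw [Finset.union_empty] at h1
        have hrule2 : (lv n N (FA.card + FB.card + 1) v, lv n N (FA.card - 1 + 1) v,
            lv n N (FA.card + FB.card - (FA.card - 1)) v) ∈ rules2 n N J E := by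
          refine mem_rules2.2 (Or.inr (Or.inr ⟨FA.card + FB.card, by omega, Or.inr (Or.inr ?_)⟩))
          exact ⟨FA.card - 1, by omega, v, hv, rfl⟩
        have e1 : FA.card - 1 + 1 = FA.card := by omega
        have e2 : FA.card + FB.card - (FA.card - 1) = FB.card + 1 := by omega
        rw [e1, e2] at hrule2
        have h2 := Mono.mul hrule2 hMA h1 hd
        rw [hYu] at h2
        exact up hc hJ hv h2

end

/-- M2 -/
theorem m2 : M2 := by
  classical
  intro h I
  have hn := STInst.pos I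
  have hnN := STInst.le I
  have hE := STInst.lt I
  have hbud : bud I ≤ I.j ∧ bud I ≤ I.E.length ∧ ∀ c, c ≤ I.j → c ≤ I.E.length → c ≤ bud I := by
    unfold bud
    refine ⟨by omega, by omega, fun c h1 h2 => by omega⟩
  constructor
  · intro hy
    have h1 : Mono I.n (rules2 I.n I.N (bud I) I.E) (lv I.n I.N (bud I) 0) (Finset.range I.n) := hy
    obtain ⟨F, f1, f2, f3⟩ := (mono_pr hnN hE h1).2.2 (bud I) 0 (by omega) rfl
    refine ⟨F, f1, f2.trans hbud.1, fun s hs t ht => ?_⟩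
    have g1 : Cn F 0 s := f3 s (Finset.mem_range.2 hs)
    have g2 : Cn F 0 t := f3 t (Finset.mem_range.2 ht)
    exact (g1.symm _ _).trans _ _ _ g2
  · rintro ⟨F, f1, f2, f3⟩
    have hcard : F.card ≤ I.E.length := by
      have g1 : F ⊆ I.E.toFinset := fun e he => List.mem_toFinset.2 (f1 e he)
      exact (Finset.card_le_card g1).trans (List.toFinset_card_le _)
    have h1 := conv (n := I.n) (J := bud I) hE F.card F rfl f1 (hbud.2.2 _ f2 hcard) 0 (by omega)
      (Finset.range I.n) (fun t ht => Finset.mem_range.1 ht)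
      (fun t ht => f3 0 (by omega) t (Finset.mem_range.1 ht))
    exact up (hbud.2.2 _ f2 hcard) le_rfl (by omega) h1

end SCM
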