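import Pool.Agent.Lib.SCM.Pure

/-!
# Row M4: Exact Cover and Colourful Path
-/

namespace SCM

open SCR SCN

namespace M4x

/-- the edges of the graph -/
inductive Ed {n : ℕ} (L : List (Finset (Fin n))) : ℕ → ℕ → Prop
  | se : Ed L (L.length * n) (L.length * n + 1)
  | st {i x : ℕ} : i < L.length → x < n → inn (nth L i) x → mn (nth L i) x → Ed L (L.length * n) (i * n + x)
  | en {i x : ℕ} : i < L.length → x < n → inn (nth L i) x → mx (nth L i) x →
      Ed L (i * n + x) (L.length * n + 1)
  | mid {i x i' y : ℕ} : i < L.length → x < n → inn (nth L i) x → i' < L.length → y < n →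
      inn (nth L i') y → (mx (nth L i) x ∧ mn (nth L i') y) ∨ (i = i' ∧ nx (nth L i) x y) →
      Ed L (i * n + x) (i' * n + y)

lemma mem_iff {n : ℕ} (L : List (Finset (Fin n))) (a b : ℕ) : (a, b) ∈ edges4 L ↔ Ed L a b := by
  classical
  rw [edges4, List.mem_cons, List.mem_flatMap]
  constructor
  · rintro (h | ⟨i, hi, h⟩)
    · rw [Prod.mk.injEq] at h
      obtain ⟨rfl, rfl⟩ := h
      exact Ed.se
    · rw [List.mem_range] at hi
      rw [List.mem_flatMap] at h
      obtain ⟨x, hx, h⟩ := h
      rw [List.mem_range] at hx
      rw [edges4x] at h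
      by_cases h1 : inn (nth L i) x
      · rw [if_pos h1, List.mem_append, List.mem_append] at h
        rcases h with h | h | h
        · split_ifs at h with h2
          · rw [List.mem_singleton, Prod.mk.injEq] at h
            obtain ⟨rfl, rfl⟩ := h
            exact Ed.st hi hx h1 h2
          · simp at h
        · split_ifs at h with h2
          · rw [List.mem_singleton, Prod.mk.injEq] at h
            obtain ⟨rfl, rfl⟩ := h
            exact Ed.en hi hx h1 h2
          · simp at h
        · rw [List.mem_flatMap] at h
          obtain ⟨i', hi', h⟩ := h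
          rw [List.mem_range] at hi'
          rw [List.mem_flatMap] at h
          obtain ⟨y, hy, h⟩ := h
          rw [List.mem_range] at hy
          split_ifs at h with h2
          · rw [List.mem_singleton, Prod.mk.injEq] at h
            obtain ⟨rfl, rfl⟩ := h
            exact Ed.mid hi hx h1 hi' hy h2.1 h2.2
          · simp at h
      · rw [if_neg h1] at h
        simp at h
  · rintro (_ | ⟨hi, hx, h1, h2⟩ | ⟨hi, hx, h1, h2⟩ | ⟨hi, hx, h1, hi', hy, h2, h3⟩)
    · exact Or.inl rfl
    · refine Or.inr ⟨_, List.mem_range.2 hi, List.mem_flatMap.2 ⟨_, List.mem_range.2 hx, ?_⟩⟩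
      rw [edges4x, if_pos h1, if_pos h2]
      simp
    · refine Or.inr ⟨_, List.mem_range.2 hi, List.mem_flatMap.2 ⟨_, List.mem_range.2 hx, ?_⟩⟩
      rw [edges4x, if_pos h1, if_pos h2]
      simp
    · refine Or.inr ⟨_, List.mem_range.2 hi, List.mem_flatMap.2 ⟨_, List.mem_range.2 hx, ?_⟩⟩
      rw [edges4x, if_pos h1]
      refine List.mem_append.2 (Or.inr (List.mem_append.2 (Or.inr ?_)))
      refine List.mem_flatMap.2 ⟨_, List.mem_range.2 hi', List.mem_flatMap.2 ⟨_, List.mem_range.2 hy, ?_⟩⟩
      rw [if_pos ⟨h2, h3⟩]
      simp

lemma vlt {n m i x : ℕ} (hi : i < m) (hx : x < n) : i * n + x < m * n := by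
  calc i * n + x < i * n + n := by omega
    _ = (i + 1) * n := by ring
    _ ≤ m * n := Nat.mul_le_mul_right n hi

lemma vmod {n i x : ℕ} (hx : x < n) : (i * n + x) % n = x := by
  rw [mul_comm, Nat.mul_add_mod, Nat.mod_eq_of_lt hx]

lemma vinj {n i x i' x' : ℕ} (hx : x < n) (hx' : x' < n) (h : i * n + x = i' * n + x') :
    i = i' ∧ x = x' := by
  have h1 : x = x' := by
    have := congrArg (· % n) h
    simp only [vmod hx, vmod hx'] at this
    exact this
  subst h1
  refine ⟨?_, rfl⟩
  have h2 : i * n = i' * n := by omega
  exact Nat.eq_of_mul_eq_mul_right (by omega) h2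

lemma col_v {n m i x : ℕ} (hi : i < m) (hx : x < n) : col4 n m (i * n + x) = x := by
  rw [col4, if_pos (vlt hi hx), vmod hx]

lemma col_s {n m : ℕ} : col4 n m (m * n) = n := by
  rw [col4, if_neg (lt_irrefl _), if_pos rfl]

lemma col_e {n m : ℕ} : col4 n m (m * n + 1) = n + 1 := by
  rw [col4, if_neg (by omega), if_neg (by omega)]

lemma inn_lt {n : ℕ} {A : Finset (Fin n)} {x : ℕ} (h : inn A x) : x < n := h.1

end M4x

open M4x

theorem m4 : M4 := by
  classical
  intro hok I
  obtain ⟨n, k, L, hL⟩ := I
  show (∃ p : ℕ → ℕ, (∀ i < n + 2, p i < L.length * n + 2) ∧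
    (∀ i, i + 1 < n + 2 → (p i, p (i + 1)) ∈ edges4 L) ∧
    ∀ c < n + 2, ∃ i < n + 2, col4 n L.length (p i) = c) ↔ Exact n k L
  simp only [mem_iff]
  constructor
  · rintro ⟨p, hp, hE, hc⟩
    -- the colours are distinct
    have hinj : ∀ i < n + 2, ∀ j < n + 2, col4 n L.length (p i) = col4 n L.length (p j) → i = j := by
      let f : Fin (n + 2) → Fin (n + 2) := fun i =>
        ⟨col4 n L.length (p i), (hok n L).1 _ (hp i i.2)⟩
      have hf : Function.Surjective f := by
        intro c
        obtain ⟨i, hi, h⟩ := hc c c.2
        exact ⟨⟨i, hi⟩, Fin.ext h⟩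
      have hf' : Function.Injective f := Finite.injective_iff_surjective.2 hf
      intro i hi j hj h
      have := hf' (a₁ := ⟨i, hi⟩) (a₂ := ⟨j, hj⟩) (Fin.ext h)
      exact congrArg Fin.val this
    -- the kinds of vertices
    have hcol : ∀ v < L.length * n + 2, (∃ i < L.length, ∃ x < n, v = i * n + x) ∨ v = L.length * n ∨
        v = L.length * n + 1 := by
      intro v hv
      rcases Nat.lt_or_ge v (L.length * n) with h | h
      · left
        have hn : 0 < n := by
          rcases Nat.eq_zero_or_pos n with h0 | h0
          · subst h0
            simp at h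
          · exact h0
        refine ⟨v / n, (Nat.div_lt_iff_lt_mul hn).2 h, v % n, Nat.mod_lt _ hn, ?_⟩
        rw [mul_comm]
        exact (Nat.div_add_mod v n).symm
      · right
        omega
    -- no edge into the start, no edge out of the end
    have hs : ∀ a, ¬ Ed L a (L.length * n) := by
      intro a h
      generalize hb : L.length * n = b at h
      cases h with
      | se => omega
      | st hi hx _ _ =>
        have := vlt hi hx
        omega
      | en _ _ _ _ => omega
      | mid _ _ _ hi' hy _ _ =>
        have := vlt hi' hy
        omega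
    have he : ∀ b, ¬ Ed L (L.length * n + 1) b := by
      intro b h
      generalize ha : L.length * n + 1 = a at h
      cases h with
      | se => omega
      | st hi hx _ _ => omega
      | en hi hx _ _ =>
        have := vlt hi hx
        omega
      | mid hi hx _ _ _ _ _ =>
        have := vlt hi hx
        omega
    have h0 : p 0 = L.length * n := by
      obtain ⟨i, hi, h⟩ := hc n (by omega)
      have h1 : p i = L.length * n := by
        rcases hcol _ (hp i hi) with ⟨i', hi', x, hx, h2⟩ | h2 | h2
        · rw [h2, col_v hi' hx] at h
          omega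
        · exact h2
        · rw [h2, col_e] at h
          omega
      rcases Nat.eq_zero_or_pos i with h2 | h2
      · rw [← h2]
        exact h1
      · exfalso
        have h3 := hE (i - 1) (by omega)
        rw [Nat.sub_add_cancel h2, h1] at h3
        exact hs _ h3
    have hN : p (n + 1) = L.length * n + 1 := by
      obtain ⟨i, hi, h⟩ := hc (n + 1) (by omega)
      have h1 : p i = L.length * n + 1 := by
        rcases hcol _ (hp i hi) with ⟨i', hi', x, hx, h2⟩ | h2 | h2
        · rw [h2, col_v hi' hx] at h
          omega
        · rw [h2, col_s] at h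
          omega
        · exact h2
      rcases Nat.lt_or_ge i (n + 1) with h2 | h2
      · exfalso
        have h3 := hE i (by omega)
        rw [h1] at h3
        exact he _ h3
      · have : i = n + 1 := by omega
        rw [← this]
        exact h1
    -- a vertex is on the path
    let On : ℕ → ℕ → Prop := fun i x => i < L.length ∧ x < n ∧ ∃ j < n + 2, p j = i * n + x
    have hinn : ∀ i x, On i x → inn (nth L i) x := by
      rintro i x ⟨hi, hx, j, hj, hp1⟩
      have hj0 : 0 < j := by
        rcases Nat.eq_zero_or_pos j with h | h
        · rw [h, h0] at hp1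
          have := vlt hi hx
          omega
        · exact h
      have h1 := hE (j - 1) (by omega)
      rw [Nat.sub_add_cancel hj0, hp1] at h1
      obtain ⟨a, ha⟩ : ∃ a, p (j - 1) = a := ⟨_, rfl⟩
      obtain ⟨b, hb⟩ : ∃ b, i * n + x = b := ⟨_, rfl⟩
      rw [ha, hb] at h1
      cases h1 with
      | se =>
        have := vlt hi hx
        omega
      | st hi2 hx2 h2 _ =>
        obtain ⟨rfl, rfl⟩ := vinj hx hx2 hb
        exact h2
      | en _ _ _ _ =>
        have := vlt hi hx
        omega
      | mid _ _ _ hi2 hx2 h2 _ =>
        obtain ⟨rfl, rfl⟩ := vinj hx hx2 hb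
        exact h2
    have hup : ∀ d i x z, On i x → inn (nth L i) z → z = x + d → On i z := by
      intro d
      induction d using Nat.strong_induction_on with
      | _ d ih =>
        intro i x z hon hz hd
        rcases Nat.eq_zero_or_pos d with h | h
        · have : z = x := by omega
          rw [this]
          exact hon
        · obtain ⟨hi, hx, j, hj, hp1⟩ := hon
          have hjn : j < n + 1 := by
            rcases Nat.lt_or_ge j (n + 1) with h2 | h2
            · exact h2
            · exfalso
              have : j = n + 1 := by omega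
              rw [this, hN] at hp1
              have := vlt hi hx
              omega
          have h1 := hE j (by omega)
          rw [hp1] at h1
          generalize ha : i * n + x = a at h1
          generalize hb : p (j + 1) = b at h1
          have hnm : ¬ mx (nth L i) x := fun h2 => h2 z (by omega) hz
          cases h1 with
          | se =>
            have := vlt hi hx
            omega
          | st _ _ _ _ =>
            have := vlt hi hx
            omega
          | en hi2 hx2 _ h3 =>
            obtain ⟨rfl, rfl⟩ := vinj hx hx2 ha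
            exact absurd h3 hnm
          | @mid i2 x2 i3 y hi2 hx2 _ hi3 hy h4 h5 =>
            obtain ⟨rfl, rfl⟩ := vinj hx hx2 ha
            rcases h5 with h5 | h5
            · exact absurd h5.1 hnm
            · obtain ⟨rfl, h6, h7⟩ := h5
              have hyz : y ≤ z := by
                by_contra h8
                exact h7 z (by omega) (by omega) hz
              exact ih (z - y) (by omega) i y z ⟨hi, hy, j + 1, by omega, hb⟩ hz (by omega)
    have hdown : ∀ d i x z, On i x → inn (nth L i) z → x = z + d → On i z := by
      intro d
      induction d using Nat.strong_induction_on with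
      | _ d ih =>
        intro i x z hon hz hd
        rcases Nat.eq_zero_or_pos d with h | h
        · have : z = x := by omega
          rw [this]
          exact hon
        · obtain ⟨hi, hx, j, hj, hp1⟩ := hon
          have hj0 : 0 < j := by
            rcases Nat.eq_zero_or_pos j with h | h
            · rw [h, h0] at hp1
              have := vlt hi hx
              omega
            · exact h
          have h1 := hE (j - 1) (by omega)
          rw [Nat.sub_add_cancel hj0, hp1] at h1
          obtain ⟨a, ha⟩ : ∃ a, i * n + x = a := ⟨_, rfl⟩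
          obtain ⟨b, hb⟩ : ∃ b, p (j - 1) = b := ⟨_, rfl⟩
          rw [ha, hb] at h1
          have hnm : ¬ mn (nth L i) x := fun h2 => h2 z (by omega) hz
          cases h1 with
          | se =>
            have := vlt hi hx
            omega
          | st hi2 hx2 _ h3 =>
            obtain ⟨rfl, rfl⟩ := vinj hx hx2 ha
            exact absurd h3 hnm
          | en _ _ _ _ =>
            have := vlt hi hx
            omega
          | @mid i2 x2 i3 y hi2 hx2 h4 hi3 hy _ h5 =>
            obtain ⟨rfl, rfl⟩ := vinj hx hy ha
            rcases h5 with h5 | h5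
            · exact absurd h5.2 hnm
            · obtain ⟨rfl, h6, h7⟩ := h5
              have hyz : z ≤ x2 := by
                by_contra h8
                exact h7 z (by omega) (by omega) hz
              exact ih (x2 - z) (by omega) i2 x2 z ⟨hi, hx2, j - 1, by omega, hb⟩ hz (by omega)
    have hall : ∀ i x z, On i x → inn (nth L i) z → On i z := by
      intro i x z hon hz
      rcases Nat.le_total x z with h | h
      · exact hup (z - x) i x z hon hz (by omega)
      · exact hdown (x - z) i x z hon hz (by omega)
    refine ⟨((Finset.range L.length).filter (fun i => ∃ x, On i x)).image (nth L), ?_, ?_, ?_⟩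
    · intro A hA
      rw [Finset.mem_image] at hA
      obtain ⟨i, hi, rfl⟩ := hA
      rw [Finset.mem_filter, Finset.mem_range] at hi
      rw [nth, List.getD_eq_getElem _ _ hi.1]
      exact List.getElem_mem _
    · intro A hA B hB hne
      rw [Finset.mem_image] at hA hB
      obtain ⟨i, hi, rfl⟩ := hA
      obtain ⟨i', hi', rfl⟩ := hB
      rw [Finset.mem_filter, Finset.mem_range] at hi hi'
      obtain ⟨hi, x, hx⟩ := hi
      obtain ⟨hi', x', hx'⟩ := hi'
      rw [Finset.disjoint_left]
      intro z hz hz'
      obtain ⟨_, hzn, j, hj, h1⟩ := hall i x z hx ⟨z.2, hz⟩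
      obtain ⟨_, _, j', hj', h2⟩ := hall i' x' z hx' ⟨z.2, hz'⟩
      have h3 : j = j' := by
        refine hinj j hj j' hj' ?_
        rw [h1, h2, col_v hi hzn, col_v hi' hzn]
      subst h3
      rw [h1] at h2
      exact hne (by rw [(vinj hzn hzn h2).1])
    · intro x
      obtain ⟨j, hj, h1⟩ := hc x (by have := x.2; omega)
      rcases hcol _ (hp j hj) with ⟨i, hi, y, hy, h2⟩ | h2 | h2
      · rw [h2, col_v hi hy] at h1
        subst h1
        have hon : On i x := ⟨hi, hy, j, hj, h2⟩
        refine ⟨nth L i, Finset.mem_image.2 ⟨i, Finset.mem_filter.2 ⟨Finset.mem_range.2 hi, x, hon⟩, rfl⟩, ?_⟩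
        obtain ⟨_, h3⟩ := hinn i x hon
        exact h3
      · rw [h2, col_s] at h1
        have := x.2
        omega
      · rw [h2, col_e] at h1
        have := x.2
        omega
  · rintro ⟨C, hC, hdis, hcov⟩
    choose A hAC hxA using hcov
    -- the index of the set which contains `x`
    let σ : ℕ → ℕ := fun x => if h : x < n then L.idxOf (A ⟨x, h⟩) else 0
    have hσ : ∀ x (h : x < n), σ x < L.length ∧ nth L (σ x) = A ⟨x, h⟩ := by
      intro x h
      have h1 : L.idxOf (A ⟨x, h⟩) < L.length := List.idxOf_lt_length_iff.2 (hC _ (hAC _))
      simp only [σ, dif_pos h]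
      refine ⟨h1, ?_⟩
      rw [nth, List.getD_eq_getElem _ _ h1]
      exact List.getElem_idxOf h1
    have hσ1 : ∀ x, x < n → inn (nth L (σ x)) x := by
      intro x h
      rw [(hσ x h).2]
      exact ⟨h, hxA _⟩
    have hσ2 : ∀ x y, x < n → inn (nth L (σ x)) y → σ y = σ x := by
      intro x y hx hy
      rw [(hσ x hx).2] at hy
      obtain ⟨hyn, hy⟩ := hy
      have h1 : A ⟨y, hyn⟩ = A ⟨x, hx⟩ := by
        by_contra hne
        exact Finset.disjoint_left.1 (hdis _ (hAC _) _ (hAC _) hne) (hxA _) hy
      simp only [σ, dif_pos hx, dif_pos hyn, h1]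
    let v : ℕ → ℕ := fun x => σ x * n + x
    have hvinj : Set.InjOn v (Finset.range n : Set ℕ) := by
      intro x hx y hy h
      rw [Finset.coe_range, Set.mem_Iio] at hx hy
      exact (vinj hx hy h).2
    have hcard : ((Finset.range n).image v).card = n := by
      rw [Finset.card_image_of_injOn hvinj, Finset.card_range]
    let e := ((Finset.range n).image v).orderEmbOfFin hcard
    have hemem : ∀ j : Fin n, ∃ x < n, e j = v x := by
      intro j
      have h1 : e j ∈ (Finset.range n).image v := Finset.orderEmbOfFin_mem _ _ _
      obtain ⟨x, hx, h⟩ := Finset.mem_image.1 h1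
      exact ⟨x, Finset.mem_range.1 hx, h.symm⟩
    have hesurj : ∀ x < n, ∃ j : Fin n, e j = v x := by
      intro x hx
      have h1 : v x ∈ Set.range e := by
        rw [Finset.range_orderEmbOfFin]
        exact Finset.mem_coe.2 (Finset.mem_image_of_mem _ (Finset.mem_range.2 hx))
      exact h1
    have hvlt : ∀ x < n, v x < L.length * n := fun x hx => vlt (hσ x hx).1 hx
    -- consecutive vertices
    have hmin : ∀ x < n, (∀ z < n, v x ≤ v z) → mn (nth L (σ x)) x := by
      intro x hx h z hz hin
      have h1 := hσ2 x z hx hin
      have h2 := h z (by omega)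
      simp only [v, h1] at h2
      omega
    have hmax : ∀ x < n, (∀ z < n, v z ≤ v x) → mx (nth L (σ x)) x := by
      intro x hx h z hz hin
      have h1 := hσ2 x z hx hin
      have h2 := h z (inn_lt hin)
      simp only [v, h1] at h2
      omega
    have hmid : ∀ x < n, ∀ y < n, v x < v y → (∀ z < n, v x < v z → v z < v y → False) →
        (mx (nth L (σ x)) x ∧ mn (nth L (σ y)) y) ∨ (σ x = σ y ∧ nx (nth L (σ x)) x y) := by
      intro x hx y hy hlt h
      rcases Nat.lt_trichotomy (σ x) (σ y) with h1 | h1 | h1
      · left
        have h2 : (σ x + 1) * n ≤ σ y * n := Nat.mul_le_mul_right n h1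
        have h3 : (σ x + 1) * n = σ x * n + n := by ring
        constructor
        · intro z hz hin
          have h4 := hσ2 x z hx hin
          have h5 := inn_lt hin
          refine h z h5 ?_ ?_
          · simp only [v, h4]
            omega
          · simp only [v, h4]
            omega
        · intro z hz hin
          have h4 := hσ2 y z hy hin
          refine h z (by omega) ?_ ?_
          · simp only [v, h4]
            omega
          · simp only [v, h4]
            omega
      · right
        refine ⟨h1, ?_, ?_⟩
        · simp only [v, h1] at hlt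
          omega
        · intro z hz hzy hin
          have h4 := hσ2 x z hx hin
          refine h z (by omega) ?_ ?_
          · simp only [v, h4]
            omega
          · simp only [v, h4, ← h1]
            omega
      · exfalso
        have h2 : (σ y + 1) * n ≤ σ x * n := Nat.mul_le_mul_right n h1
        have h3 : (σ y + 1) * n = σ y * n + n := by ring
        simp only [v] at hlt
        omega
    refine ⟨fun j => if j = 0 then L.length * n else if h : j - 1 < n then e ⟨j - 1, h⟩ else
      L.length * n + 1, ?_, ?_, ?_⟩
    · intro j hj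
      simp only
      split_ifs with h1 h2
      · omega
      · obtain ⟨x, hx, h3⟩ := hemem ⟨j - 1, h2⟩
        rw [h3]
        have := hvlt x hx
        omega
      · omega
    · intro j hj
      simp only [Nat.add_eq_zero_iff, one_ne_zero, and_false, if_false, Nat.add_sub_cancel]
      rcases Nat.eq_zero_or_pos j with h1 | h1
      · subst h1
        simp only [if_true]
        rcases Nat.eq_zero_or_pos n with h2 | h2
        · rw [dif_neg (by omega)]
          exact Ed.se
        · rw [dif_pos h2]
          obtain ⟨x, hx, h3⟩ := hemem ⟨0, h2⟩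
          rw [h3]
          refine Ed.st (hσ x hx).1 hx (hσ1 x hx) (hmin x hx ?_)
          intro z hz
          obtain ⟨j', hj'⟩ := hesurj z hz
          rw [← h3, ← hj']
          exact e.monotone (Fin.le_def.2 (Nat.zero_le _))
      · rw [if_neg (by omega), dif_pos (by omega : j - 1 < n)]
        obtain ⟨x, hx, h3⟩ := hemem ⟨j - 1, by omega⟩
        rw [h3]
        rcases Nat.lt_or_ge j n with h2 | h2
        · rw [dif_pos h2]
          obtain ⟨y, hy, h4⟩ := hemem ⟨j, h2⟩
          rw [h4]
          refine Ed.mid (hσ x hx).1 hx (hσ1 x hx) (hσ y hy).1 hy (hσ1 y hy) (hmid x hx y hy ?_ ?_)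
          · rw [← h3, ← h4]
            exact e.strictMono (Fin.lt_def.2 (by simp only; omega))
          · intro z hz h5 h6
            obtain ⟨j', hj'⟩ := hesurj z hz
            rw [← h3, ← hj'] at h5
            rw [← h4, ← hj'] at h6
            have h7 := Fin.lt_def.1 (e.lt_iff_lt.1 h5)
            have h8 := Fin.lt_def.1 (e.lt_iff_lt.1 h6)
            simp only at h7 h8
            omega
        · rw [dif_neg (by omega)]
          refine Ed.en (hσ x hx).1 hx (hσ1 x hx) (hmax x hx ?_)
          intro z hz
          obtain ⟨j', hj'⟩ := hesurj z hz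
          rw [← h3, ← hj']
          refine e.monotone (Fin.le_def.2 ?_)
          have := j'.2
          simp only
          omega
    · intro c hc
      rcases Nat.lt_trichotomy c n with h1 | h1 | h1
      · obtain ⟨j, hj⟩ := hesurj c h1
        refine ⟨j + 1, by have := j.2; omega, ?_⟩
        simp only [Nat.add_eq_zero_iff, one_ne_zero, and_false, if_false, Nat.add_sub_cancel, j.2, dif_pos]
        rw [hj]
        exact col_v (hσ c h1).1 h1
      · refine ⟨0, by omega, ?_⟩
        simp only [if_true]
        rw [h1]
        exact col_s
      · refine ⟨n + 1, by omega, ?_⟩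
        simp only [Nat.add_eq_zero_iff, one_ne_zero, and_false, if_false, Nat.add_sub_cancel, lt_irrefl,
          dif_neg, not_false_iff]
        rw [col_e]
        omega

end SCM
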