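import Pool.Agent.Lib.SCM.Pure

/-!
# Colourful Path → Full Monomial
-/

set_option autoImplicit false

namespace SCM

open SCR SCN

namespace M5x

theorem lv_inj {n N i j u v : ℕ} (hu : u < N) (hv : v < N) (h : lv n N i u = lv n N j v) :
    i = j ∧ u = v := by
  unfold lv at h
  have h1 : i * N + u = j * N + v := by omega
  have hN : 0 < N := by omega
  have h2 : (i * N + u) / N = i := by
    rw [Nat.mul_comm, Nat.mul_add_div hN, Nat.div_eq_of_lt hu, Nat.add_zero]
  have h3 : (j * N + v) / N = j := by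
    rw [Nat.mul_comm, Nat.mul_add_div hN, Nat.div_eq_of_lt hv, Nat.add_zero]
  have h4 : i = j := by rw [← h2, ← h3, h1]
  subst h4
  exact ⟨rfl, by omega⟩

theorem lv_ne {n N i v : ℕ} (hi : i < n) (hv : v < N) : lv n N i v ≠ lv n N n 0 := by
  have h1 : (i + 1) * N ≤ n * N := Nat.mul_le_mul_right N hi
  rw [Nat.succ_mul] at h1
  unfold lv
  omega

theorem lt_lv {n N i v : ℕ} : n < lv n N i v := by
  unfold lv
  omega

theorem mem_rules {n N : ℕ} {col : ℕ → ℕ} {E : List (ℕ × ℕ)} {z x y : ℕ} :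
    (z, x, y) ∈ rules5 n N col E ↔ (∃ v < N, z = lv n N 0 v ∧ x = col v ∧ y = n) ∨
      (∃ i < n - 1, ∃ e ∈ E, z = lv n N (i + 1) e.2 ∧ x = lv n N i e.1 ∧ y = lv n N 0 e.2) ∨
      ∃ v < N, z = lv n N n 0 ∧ x = lv n N (n - 1) v ∧ y = n := by
  unfold rules5
  simp only [List.mem_append, List.mem_map, List.mem_flatMap, List.mem_range, Prod.mk.injEq]
  constructor
  · rintro (⟨v, hv, h1, h2, h3⟩ | ⟨i, hi, e, he, h1, h2, h3⟩ | ⟨v, hv, h1, h2, h3⟩)
    · exact Or.inl ⟨v, hv, h1.symm, h2.symm, h3.symm⟩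
    · exact Or.inr (Or.inl ⟨i, hi, e, he, h1.symm, h2.symm, h3.symm⟩)
    · exact Or.inr (Or.inr ⟨v, hv, h1.symm, h2.symm, h3.symm⟩)
  · rintro (⟨v, hv, h1, h2, h3⟩ | ⟨i, hi, e, he, h1, h2, h3⟩ | ⟨v, hv, h1, h2, h3⟩)
    · exact Or.inl ⟨v, hv, h1.symm, h2.symm, h3.symm⟩
    · exact Or.inr (Or.inl ⟨i, hi, e, he, h1.symm, h2.symm, h3.symm⟩)
    · exact Or.inr (Or.inr ⟨v, hv, h1.symm, h2.symm, h3.symm⟩)

section

variable {n N : ℕ} {col : ℕ → ℕ} {E : List (ℕ × ℕ)}

theorem inv {z : ℕ} {A : Finset ℕ} (h : Mono n (rules5 n N col E) z A) (hz : n < z) :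
    ∃ (x y : ℕ) (A1 A2 : Finset ℕ), (z, x, y) ∈ rules5 n N col E ∧ Mono n (rules5 n N col E) x A1 ∧
      Mono n (rules5 n N col E) y A2 ∧ Disjoint A1 A2 ∧ A = A1 ∪ A2 := by
  cases h with
  | var ha => omega
  | one => omega
  | mul h1 h2 h3 h4 => exact ⟨_, _, _, _, h1, h2, h3, h4, rfl⟩

theorem gt {z x y : ℕ} (h : (z, x, y) ∈ rules5 n N col E) : n < z := by
  rw [mem_rules] at h
  rcases h with ⟨v, hv, h1, h2, h3⟩ | ⟨i, hi, e, he, h1, h2, h3⟩ | ⟨v, hv, h1, h2, h3⟩
  · rw [h1]; exact lt_lv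
  · rw [h1]; exact lt_lv
  · rw [h1]; exact lt_lv

theorem mono_lt {z : ℕ} {A : Finset ℕ} (h : Mono n (rules5 n N col E) z A) (hz : z < n) :
    A = {z} := by
  cases h with
  | var ha => rfl
  | one => omega
  | mul h1 h2 h3 h4 =>
    have := gt h1
    omega

theorem mono_n {A : Finset ℕ} (h : Mono n (rules5 n N col E) n A) : A = ∅ := by
  cases h with
  | var ha => omega
  | one => rfl
  | mul h1 h2 h3 h4 =>
    have := gt h1
    omega

/-- Paths with distinct colours. -/
def Pth (N : ℕ) (col : ℕ → ℕ) (E : List (ℕ × ℕ)) (i v : ℕ) (A : Finset ℕ) : Prop :=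
  ∃ p : ℕ → ℕ, p i = v ∧ (∀ j ≤ i, p j < N) ∧ (∀ j < i, (p j, p (j + 1)) ∈ E) ∧
    A = (Finset.range (i + 1)).image (fun j => col (p j)) ∧ A.card = i + 1

theorem mono_zero (hn : 1 ≤ n) (hcol : ∀ v < N, col v < n) (hE : ∀ e ∈ E, e.1 < N ∧ e.2 < N)
    {v : ℕ} (hv : v < N) {A : Finset ℕ} :
    Mono n (rules5 n N col E) (lv n N 0 v) A ↔ A = {col v} := by
  constructor
  · intro h
    obtain ⟨x, y, A1, A2, h1, h2, h3, h4, rfl⟩ := inv h lt_lv
    rw [mem_rules] at h1
    rcases h1 with ⟨u, hu, k1, k2, k3⟩ | ⟨i, hi, e, he, k1, k2, k3⟩ | ⟨u, hu, k1, k2, k3⟩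
    · obtain ⟨-, rfl⟩ := lv_inj hv hu k1
      subst k2 k3
      rw [mono_lt h2 (hcol v hv), mono_n h3, Finset.union_empty]
    · have := (lv_inj hv (hE e he).2 k1).1
      omega
    · exact absurd k1 (lv_ne hn hv)
  · rintro rfl
    have h1 : Mono n (rules5 n N col E) (lv n N 0 v) ({col v} ∪ ∅) :=
      Mono.mul (mem_rules.2 (Or.inl ⟨v, hv, rfl, rfl, rfl⟩)) (Mono.var (hcol v hv)) Mono.one
        (Finset.disjoint_empty_right _)
    rwa [Finset.union_empty] at h1

theorem main (hn : 1 ≤ n) (hcol : ∀ v < N, col v < n) (hE : ∀ e ∈ E, e.1 < N ∧ e.2 < N) (i : ℕ) :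
    i < n → ∀ v < N, ∀ A : Finset ℕ,
      Mono n (rules5 n N col E) (lv n N i v) A ↔ Pth N col E i v A := by
  induction i with
  | zero =>
    intro _ v hv A
    rw [mono_zero hn hcol hE hv]
    constructor
    · rintro rfl
      exact ⟨fun _ => v, rfl, fun _ _ => hv, fun j hj => by omega, by simp, by simp⟩
    · rintro ⟨p, rfl, -, -, rfl, -⟩
      simp
  | succ i ih =>
    intro hi v hv A
    constructor
    · intro h
      obtain ⟨x, y, A1, A2, h1, h2, h3, h4, rfl⟩ := inv h lt_lv
      rw [mem_rules] at h1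
      rcases h1 with ⟨u, hu, k1, k2, k3⟩ | ⟨i', hi', e, he, k1, k2, k3⟩ | ⟨u, hu, k1, k2, k3⟩
      · have := (lv_inj hv hu k1).1
        omega
      · obtain ⟨he1, he2⟩ := hE e he
        obtain ⟨k4, k5⟩ := lv_inj hv he2 k1
        obtain rfl : i = i' := by omega
        subst k2 k3
        rw [← k5, mono_zero hn hcol hE hv] at h3
        subst h3
        obtain ⟨p, p1, p2, p3, rfl, p5⟩ := (ih (by omega) e.1 he1 A1).1 h2
        refine ⟨fun j => if j ≤ i then p j else v, ?_, ?_, ?_, ?_, ?_⟩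
        · simp
        · intro j hj
          simp only
          split_ifs with h5
          · exact p2 j h5
          · exact hv
        · intro j hj
          simp only
          rw [if_pos (by omega)]
          rcases Nat.lt_or_ge j i with h5 | h5
          · rw [if_pos (by omega)]
            exact p3 j h5
          · obtain rfl : j = i := by omega
            rw [if_neg (by omega), p1, k5]
            exact he
        · rw [Finset.range_add_one (n := i + 1), Finset.image_insert, Finset.insert_eq,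
            Finset.union_comm]
          have k6 : (Finset.range (i + 1)).image (fun j => col (p j)) =
              (Finset.range (i + 1)).image (fun j => col (if j ≤ i then p j else v)) := by
            refine Finset.image_congr fun j hj => ?_
            simp only [Finset.coe_range, Set.mem_Iio] at hj
            rw [if_pos (by omega)]
          have k7 : ¬ i + 1 ≤ i := by omega
          rw [k6]
          simp only [if_neg k7]
        · rw [Finset.card_union_of_disjoint h4, p5, Finset.card_singleton]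
      · exact absurd k1 (lv_ne hi hv)
    · rintro ⟨p, p1, p2, p3, p4, p5⟩
      obtain ⟨B, hB⟩ : ∃ B, B = (Finset.range (i + 1)).image (fun j => col (p j)) := ⟨_, rfl⟩
      have h1 : A = B ∪ {col v} := by
        rw [p4, hB, Finset.range_add_one (n := i + 1), Finset.image_insert, Finset.insert_eq,
          Finset.union_comm, p1]
      have h2 : B.card ≤ i + 1 := by
        rw [hB]
        exact Finset.card_image_le.trans (by rw [Finset.card_range])
      have h3 : col v ∉ B := by
        intro h4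
        have h5 : A = B := by
          rw [h1]
          exact Finset.union_eq_left.2 (Finset.singleton_subset_iff.2 h4)
        rw [h5] at p5
        omega
      have h4 : Disjoint B {col v} := Finset.disjoint_singleton_right.2 h3
      have h5 : B.card = i + 1 := by
        rw [h1, Finset.card_union_of_disjoint h4, Finset.card_singleton] at p5
        omega
      have h6 : Mono n (rules5 n N col E) (lv n N i (p i)) B :=
        (ih (by omega) (p i) (p2 i (by omega)) B).2
          ⟨p, rfl, fun j hj => p2 j (by omega), fun j hj => p3 j (by omega), hB, h5⟩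
      rw [h1]
      refine Mono.mul (mem_rules.2 (Or.inr (Or.inl ⟨i, by omega, (p i, p (i + 1)), p3 i (by omega),
        ?_, rfl, rfl⟩))) h6 ?_ h4
      · rw [p1]
      · rw [p1]
        exact (mono_zero hn hcol hE hv).2 rfl

theorem out (hn : 1 ≤ n) (hE : ∀ e ∈ E, e.1 < N ∧ e.2 < N) {A : Finset ℕ} :
    Mono n (rules5 n N col E) (lv n N n 0) A ↔
      ∃ v < N, Mono n (rules5 n N col E) (lv n N (n - 1) v) A := by
  constructor
  · intro h
    obtain ⟨x, y, A1, A2, h1, h2, h3, h4, rfl⟩ := inv h lt_lv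
    rw [mem_rules] at h1
    rcases h1 with ⟨u, hu, k1, k2, k3⟩ | ⟨i, hi, e, he, k1, k2, k3⟩ | ⟨u, hu, k1, k2, k3⟩
    · exact absurd k1.symm (lv_ne hn hu)
    · exact absurd k1.symm (lv_ne (by omega) (hE e he).2)
    · subst k2 k3
      rw [mono_n h3, Finset.union_empty]
      exact ⟨u, hu, h2⟩
  · rintro ⟨v, hv, h⟩
    have h1 : Mono n (rules5 n N col E) (lv n N n 0) (A ∪ ∅) :=
      Mono.mul (mem_rules.2 (Or.inr (Or.inr ⟨v, hv, rfl, rfl, rfl⟩))) h Mono.one
        (Finset.disjoint_empty_right _)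
    rwa [Finset.union_empty] at h1

end

end M5x

theorem m5 : M5 := by
  intro h I
  have hn := CPInst.pos I
  have hcol := CPInst.col_lt I
  have hE := CPInst.lt I
  change Mono (CPInst.n I) (rules5 (CPInst.n I) (CPInst.N I) (CPInst.col I) (CPInst.E I))
    (lv (CPInst.n I) (CPInst.N I) (CPInst.n I) 0) (Finset.range (CPInst.n I)) ↔
    ∃ p : ℕ → ℕ, (∀ i < CPInst.n I, p i < CPInst.N I) ∧
      (∀ i, i + 1 < CPInst.n I → (p i, p (i + 1)) ∈ CPInst.E I) ∧
      ∀ c < CPInst.n I, ∃ i < CPInst.n I, CPInst.col I (p i) = c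
  rw [M5x.out hn hE]
  have e : CPInst.n I - 1 + 1 = CPInst.n I := by omega
  constructor
  · rintro ⟨v, hv, h1⟩
    obtain ⟨p, p1, p2, p3, p4, p5⟩ := (M5x.main hn hcol hE _ (by omega) v hv _).1 h1
    refine ⟨p, fun i hi => p2 i (by omega), fun i hi => p3 i (by omega), fun c hc => ?_⟩
    rw [e] at p4
    have h2 : c ∈ Finset.range (CPInst.n I) := Finset.mem_range.2 hc
    rw [p4] at h2
    obtain ⟨i, hi, h3⟩ := Finset.mem_image.1 h2
    exact ⟨i, Finset.mem_range.1 hi, h3⟩
  · rintro ⟨p, p1, p2, p3⟩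
    refine ⟨p (CPInst.n I - 1), p1 _ (by omega), ?_⟩
    refine (M5x.main hn hcol hE _ (by omega) _ (p1 _ (by omega)) _).2
      ⟨p, rfl, fun j hj => p1 j (by omega), fun j hj => p2 j (by omega), ?_, ?_⟩
    · rw [e]
      ext c
      simp only [Finset.mem_range, Finset.mem_image]
      constructor
      · exact p3 c
      · rintro ⟨i, hi, rfl⟩
        exact hcol _ (p1 i hi)
    · rw [Finset.card_range]
      omega

end SCM
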