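import Pool.Agent.Lib.SCM.Pure

/-!
# Row SP: a set of edges is split at one of its edges.  (helper42)
-/

namespace SCM

/-- Closure principle. -/
theorem eqvGen_iff {r : ℕ → ℕ → Prop} (P : ℕ → Prop) (h : ∀ a b, r a b → (P a ↔ P b)) {x y : ℕ}
    (hxy : Relation.EqvGen r x y) : P x ↔ P y := by
  induction hxy with
  | rel a b hab => exact h a b hab
  | refl a => exact Iff.rfl
  | symm a b _ ih => exact ih.symm
  | trans a b c _ _ ih1 ih2 => exact ih1.trans ih2

theorem eqvGen_mono {F G : Finset (ℕ × ℕ)} (hFG : F ⊆ G) {x y : ℕ}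
    (h : Relation.EqvGen (fun a b => (a, b) ∈ F) x y) :
    Relation.EqvGen (fun a b => (a, b) ∈ G) x y :=
  (eqvGen_iff (fun t => Relation.EqvGen (fun a b => (a, b) ∈ G) x t) (fun a b hab =>
    ⟨fun h1 => h1.trans _ _ _ (.rel _ _ (hFG hab)),
      fun h1 => h1.trans _ _ _ (.symm _ _ (.rel _ _ (hFG hab)))⟩) h).1 (.refl _)

theorem split0 : Split0 := by
  intro F v h t ht
  refine (eqvGen_iff (fun t => t = v) (fun a b hab => ?_) ht).1 rfl
  constructor
  · rintro rfl
    exact absurd hab (h b).1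
  · rintro rfl
    exact absurd hab (h a).2

theorem split_aux (F : Finset (ℕ × ℕ)) (v w : ℕ) (e : ℕ × ℕ) (he : e ∈ F)
    (hvw : e = (v, w) ∨ e = (w, v)) :
    ∃ FA FB : Finset (ℕ × ℕ), FA ⊆ F ∧ FB ⊆ F ∧ FA.card + FB.card + 1 ≤ F.card ∧
    ∀ t, Relation.EqvGen (fun a b => (a, b) ∈ F) v t →
      Relation.EqvGen (fun a b => (a, b) ∈ FA) v t ∨
        Relation.EqvGen (fun a b => (a, b) ∈ FB) w t := by
  classical
  set F1 := F.erase e with hF1
  have hF1F : F1 ⊆ F := Finset.erase_subset _ _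
  set A : ℕ → Prop := fun t => Relation.EqvGen (fun a b => (a, b) ∈ F1) v t with hA
  have hAe : ∀ a b, (a, b) ∈ F1 → (A a ↔ A b) := fun a b hab =>
    ⟨fun h1 => h1.trans _ _ _ (.rel _ _ hab), fun h1 => h1.trans _ _ _ (.symm _ _ (.rel _ _ hab))⟩
  set FA := F1.filter fun x => A x.1 with hFA
  set FB := F1.filter fun x => ¬ A x.1 with hFB
  have hFAs : FA ⊆ F1 := Finset.filter_subset _ _
  have hFBs : FB ⊆ F1 := Finset.filter_subset _ _
  have hclass : ∀ t, A t → Relation.EqvGen (fun a b => (a, b) ∈ FA) v t := by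
    intro t ht
    refine (eqvGen_iff (fun t => Relation.EqvGen (fun a b => (a, b) ∈ FA) v t)
      (fun a b hab => ?_) ht).1 (.refl _)
    constructor
    · intro h1
      have h2 : A a := eqvGen_mono hFAs h1
      exact h1.trans _ _ _ (.rel _ _ (Finset.mem_filter.2 ⟨hab, h2⟩))
    · intro h1
      have h2 : A b := eqvGen_mono hFAs h1
      exact h1.trans _ _ _ (.symm _ _ (.rel _ _ (Finset.mem_filter.2 ⟨hab, (hAe a b hab).2 h2⟩)))
  refine ⟨FA, FB, hFAs.trans hF1F, hFBs.trans hF1F, ?_, fun t ht => ?_⟩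
  · have h1 := Finset.card_filter_add_card_filter_not (s := F1) (fun x : ℕ × ℕ => A x.1)
    have h2 : F1.card + 1 = F.card := Finset.card_erase_add_one he
    rw [hFA, hFB]
    omega
  · refine (eqvGen_iff (fun t => Relation.EqvGen (fun a b => (a, b) ∈ FA) v t ∨
      Relation.EqvGen (fun a b => (a, b) ∈ FB) w t) (fun a b hab => ?_) ht).1 (Or.inl (.refl _))
    by_cases hae : (a, b) = e
    · have hv : Relation.EqvGen (fun a b => (a, b) ∈ FA) v v ∨
        Relation.EqvGen (fun a b => (a, b) ∈ FB) w v := Or.inl (.refl _)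
      have hw : Relation.EqvGen (fun a b => (a, b) ∈ FA) v w ∨
        Relation.EqvGen (fun a b => (a, b) ∈ FB) w w := Or.inr (.refl _)
      rcases hvw with h1 | h1
      · rw [h1, Prod.mk.injEq] at hae
        rw [hae.1, hae.2]
        exact ⟨fun _ => hw, fun _ => hv⟩
      · rw [h1, Prod.mk.injEq] at hae
        rw [hae.1, hae.2]
        exact ⟨fun _ => hv, fun _ => hw⟩
    · have hab1 : (a, b) ∈ F1 := Finset.mem_erase.2 ⟨hae, hab⟩
      by_cases haA : A a
      · exact ⟨fun _ => Or.inl (hclass _ ((hAe a b hab1).1 haA)), fun _ => Or.inl (hclass _ haA)⟩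
      · have hbA : ¬ A b := fun h1 => haA ((hAe a b hab1).2 h1)
        have hFBm : (a, b) ∈ FB := Finset.mem_filter.2 ⟨hab1, haA⟩
        constructor
        · rintro (h1 | h1)
          · exact absurd (eqvGen_mono hFAs h1) haA
          · exact Or.inr (h1.trans _ _ _ (.rel _ _ hFBm))
        · rintro (h1 | h1)
          · exact absurd (eqvGen_mono hFAs h1) hbA
          · exact Or.inr (h1.trans _ _ _ (.symm _ _ (.rel _ _ hFBm)))

theorem split : Split := by
  intro F v w h
  rcases h with h | h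
  · exact split_aux F v w (v, w) h (Or.inl rfl)
  · exact split_aux F v w (w, v) h (Or.inr rfl)

end SCM
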