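import Pool.Agent.Lib.SCM.Progs2
import Pool.Agent.Lib.SCM.SP

/-!
# Row M6: Set Cover with the parameter `n + k` → Graph Motif.  (helper43)
-/

set_option autoImplicit false

namespace SCM

open SCR SCN

namespace M6x

open Relation

theorem add_lt {i k m S : ℕ} (hi : i < k) (hS : S ≤ m) : i * (m + 1) + S < k * (m + 1) := by
  have h1 : (i + 1) * (m + 1) ≤ k * (m + 1) := Nat.mul_le_mul_right _ hi
  rw [Nat.add_mul, Nat.one_mul] at h1
  omega

theorem leaf_lt {m n S x : ℕ} (hS : S < m) (hx : x < n) : S * n + x < m * n := by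
  have h1 : (S + 1) * n ≤ m * n := Nat.mul_le_mul_right _ hS
  rw [Nat.add_mul, Nat.one_mul] at h1
  omega

theorem col_choice {n m k i S : ℕ} (hi : i < k) (hS : S ≤ m) :
    col6 n m k (1 + i * (m + 1) + S) = n + i := by
  have h1 := add_lt hi hS
  have h2 : 1 + i * (m + 1) + S - 1 = S + (m + 1) * i := by rw [Nat.mul_comm (m + 1)]; omega
  unfold col6
  rw [if_neg (by omega), if_pos (by omega), h2, Nat.add_mul_div_left _ _ (Nat.succ_pos m),
    Nat.div_eq_of_lt (by omega), Nat.zero_add]

theorem col_leaf {n m k S x : ℕ} (hx : x < n) :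
    col6 n m k (1 + k * (m + 1) + S * n + x) = x := by
  have h2 : 1 + k * (m + 1) + S * n + x - 1 - k * (m + 1) = x + n * S := by
    rw [Nat.mul_comm n]; omega
  unfold col6
  rw [if_neg (by omega), if_neg (by omega), h2, Nat.add_mul_mod_self_left, Nat.mod_eq_of_lt hx]

theorem col_zero (n m k : ℕ) : col6 n m k 0 = n + k := by
  unfold col6
  rw [if_pos rfl]

/-- Only the root has the last colour. -/
theorem eq_zero {n m k v : ℕ} (hv : v < 1 + k * (m + 1) + m * n) (h : col6 n m k v = n + k) :
    v = 0 := by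
  by_contra h0
  unfold col6 at h
  rw [if_neg h0] at h
  split_ifs at h with h1
  · have h2 : (v - 1) / (m + 1) < k := (Nat.div_lt_iff_lt_mul (Nat.succ_pos m)).2 h1
    omega
  · rcases Nat.eq_zero_or_pos n with hn | hn
    · rw [hn, Nat.mul_zero] at hv
      omega
    · have := Nat.mod_lt (v - 1 - k * (m + 1)) hn
      omega

theorem mem_edges {n k : ℕ} {L : List (Finset (Fin n))} {e : ℕ × ℕ} :
    e ∈ edges6 k L ↔ (∃ i < k, ∃ S ≤ L.length, e = (0, 1 + i * (L.length + 1) + S)) ∨
      ∃ i < k, ∃ S < L.length, ∃ x < n, inn (nth L S) x ∧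
        e = (1 + i * (L.length + 1) + S, 1 + k * (L.length + 1) + S * n + x) := by
  unfold edges6
  simp only [List.mem_flatMap, List.mem_range, List.mem_cons, List.mem_append, List.not_mem_nil,
    or_false]
  constructor
  · rintro ⟨i, hi, ⟨S, hS, rfl | ⟨x, hx, he⟩⟩ | rfl⟩
    · exact Or.inl ⟨i, hi, S, hS.le, rfl⟩
    · split_ifs at he with h1
      · rw [List.mem_singleton] at he
        exact Or.inr ⟨i, hi, S, hS, x, hx, h1, he⟩
      · simp at he
    · exact Or.inl ⟨i, hi, L.length, le_rfl, rfl⟩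
  · rintro (⟨i, hi, S, hS, rfl⟩ | ⟨i, hi, S, hS, x, hx, h1, he⟩)
    · rcases Nat.lt_or_ge S L.length with h2 | h2
      · exact ⟨i, hi, Or.inl ⟨S, h2, Or.inl rfl⟩⟩
      · obtain rfl : S = L.length := le_antisymm hS h2
        exact ⟨i, hi, Or.inr rfl⟩
    · refine ⟨i, hi, Or.inl ⟨S, hS, Or.inr ⟨x, hx, ?_⟩⟩⟩
      rw [if_pos h1, List.mem_singleton]
      exact he

theorem nth_mem {n : ℕ} {L : List (Finset (Fin n))} {i : ℕ} (hi : i < L.length) :
    nth L i ∈ L := by
  unfold nth
  rw [List.getD_eq_getElem _ _ hi]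
  exact List.getElem_mem hi

theorem nth_idx {n : ℕ} {L : List (Finset (Fin n))} {A : Finset (Fin n)} (hA : A ∈ L) :
    nth L (L.idxOf A) = A := by
  unfold nth
  rw [List.getD_eq_getElem _ _ (List.idxOf_lt_length_of_mem hA)]
  exact List.getElem_idxOf _

end M6x

open Relation in
theorem m6 : M6 := by
  intro h I
  obtain ⟨n, k, L, hL⟩ := I
  change (∃ V : Finset ℕ, (∀ v ∈ V, v < 1 + k * (L.length + 1) + L.length * n) ∧
    V.card = n + k + 1 ∧ (∀ c < n + k + 1, ∃ v ∈ V, col6 n L.length k v = c) ∧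
    Conn (edges6 k L) V) ↔ Coverable n k L
  classical
  constructor
  · rintro ⟨V, hV, hc, hcol, hconn⟩
    -- colours are different
    have hinj : Set.InjOn (col6 n L.length k) V := by
      rw [← Finset.card_image_iff]
      refine le_antisymm Finset.card_image_le ?_
      rw [hc, ← Finset.card_range (n + k + 1)]
      refine Finset.card_le_card (fun c hc => ?_)
      obtain ⟨v, hv, rfl⟩ := hcol c (Finset.mem_range.1 hc)
      exact Finset.mem_image_of_mem _ hv
    have h0 : 0 ∈ V := by
      obtain ⟨v, hv, h1⟩ := hcol (n + k) (Nat.lt_succ_self _)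
      rw [← M6x.eq_zero (hV v hv) h1]
      exact hv
    have hcov : ∀ x < n, ∃ i < k, ∃ S < L.length, 1 + i * (L.length + 1) + S ∈ V ∧
        inn (nth L S) x := by
      intro x hx
      obtain ⟨u, hu, hux⟩ := hcol x (by omega)
      have hu0 : u ≠ 0 := by
        rintro rfl
        rw [M6x.col_zero] at hux
        omega
      by_contra hcon
      push Not at hcon
      refine hu0 ((eqvGen_iff (fun t => t = u) (fun a b hab => ?_) (hconn u hu 0 h0)).1 rfl).symm
      obtain ⟨he, ha, hb⟩ := hab
      rcases M6x.mem_edges.1 he with ⟨i, hi, S, hS, h1⟩ | ⟨i, hi, S, hS, y, hy, hin, h1⟩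
      · rw [Prod.mk.injEq] at h1
        constructor
        · rintro rfl
          exact absurd h1.1 hu0
        · rintro rfl
          rw [h1.2, M6x.col_choice hi hS] at hux
          omega
      · rw [Prod.mk.injEq] at h1
        constructor
        · rintro rfl
          rw [h1.1, M6x.col_choice hi hS.le] at hux
          omega
        · rintro rfl
          rw [h1.2, M6x.col_leaf hy] at hux
          subst hux
          exact absurd hin (hcon i hi S hS (h1.1 ▸ ha))
    obtain ⟨T, hT⟩ : ∃ T, T = (Finset.range L.length).filter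
      fun S => ∃ i < k, 1 + i * (L.length + 1) + S ∈ V := ⟨_, rfl⟩
    have hT1 : ∀ S : ℕ, ∃ i, S ∈ T → i < k ∧ 1 + i * (L.length + 1) + S ∈ V := by
      intro S
      by_cases hS : S ∈ T
      · have h1 := hS
        rw [hT, Finset.mem_filter] at h1
        obtain ⟨-, i, hi, hiS⟩ := h1
        exact ⟨i, fun _ => ⟨hi, hiS⟩⟩
      · exact ⟨0, fun h => absurd h hS⟩
    choose f hf using hT1
    have hTl : ∀ S ∈ T, S < L.length := by
      intro S hS
      rw [hT, Finset.mem_filter, Finset.mem_range] at hS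
      exact hS.1
    have hTk : T.card ≤ k := by
      rw [← Finset.card_range k]
      refine Finset.card_le_card_of_injOn f (fun S hS => ?_) ?_
      · exact Finset.mem_coe.2 (Finset.mem_range.2 (hf S hS).1)
      · intro S hS S' hS' hSS
        have h1 := hf S hS
        have h2 := hf S' hS'
        rw [hSS] at h1
        have h3 := hinj h1.2 h2.2 (by
          rw [M6x.col_choice h1.1 (hTl S hS).le, M6x.col_choice h2.1 (hTl S' hS').le])
        omega
    refine ⟨T.image (nth L), fun A hA => ?_, Finset.card_image_le.trans hTk, fun x => ?_⟩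
    · obtain ⟨S, hS, rfl⟩ := Finset.mem_image.1 hA
      exact M6x.nth_mem (hTl S hS)
    · obtain ⟨i, hi, S, hS, hiS, hx⟩ := hcov x x.2
      refine ⟨nth L S, Finset.mem_image.2 ⟨S, ?_, rfl⟩, ?_⟩
      · rw [hT, Finset.mem_filter, Finset.mem_range]
        exact ⟨hS, i, hi, hiS⟩
      · obtain ⟨h6, h7⟩ := hx
        exact h7
  · rintro ⟨C, hC, hk, hcov⟩
    -- the choices
    obtain ⟨s, hs⟩ : ∃ s : ℕ → ℕ, s = fun i => L.idxOf (C.toList.getD i ∅) := ⟨_, rfl⟩
    have hsm : ∀ i, s i ≤ L.length := by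
      intro i
      rw [hs]
      exact List.idxOf_le_length
    have h1 : ∀ x : ℕ, ∃ i, x < n → i < k ∧ s i < L.length ∧ inn (nth L (s i)) x := by
      intro x
      by_cases hx : x < n
      · obtain ⟨A, hA, hxA⟩ := hcov ⟨x, hx⟩
        have hA1 : A ∈ C.toList := Finset.mem_toList.2 hA
        have hA2 := List.idxOf_lt_length_of_mem hA1
        have hA3 : s (C.toList.idxOf A) = L.idxOf A := by
          rw [hs]
          simp only
          rw [List.getD_eq_getElem _ _ hA2, List.getElem_idxOf]
        refine ⟨C.toList.idxOf A, fun _ => ⟨?_, ?_, ?_⟩⟩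
        · rw [Finset.length_toList] at hA2
          omega
        · rw [hA3]
          exact List.idxOf_lt_length_of_mem (hC A hA)
        · rw [hA3, M6x.nth_idx (hC A hA)]
          exact ⟨hx, hxA⟩
      · exact ⟨0, fun h => absurd h hx⟩
    choose g hg using h1
    obtain ⟨F, hF⟩ : ∃ F : ℕ → ℕ, F = fun c => if c < n then
      1 + k * (L.length + 1) + s (g c) * n + c else if c < n + k then
      1 + (c - n) * (L.length + 1) + s (c - n) else 0 := ⟨_, rfl⟩
    have hF1 : ∀ c < n, F c = 1 + k * (L.length + 1) + s (g c) * n + c := by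
      intro c hc
      rw [hF]
      simp only
      rw [if_pos hc]
    have hF2 : ∀ i < k, F (n + i) = 1 + i * (L.length + 1) + s i := by
      intro i hi
      rw [hF]
      simp only
      rw [if_neg (by omega), if_pos (by omega), Nat.add_sub_cancel_left]
    have hF3 : F (n + k) = 0 := by
      rw [hF]
      simp only
      rw [if_neg (by omega), if_neg (by omega)]
    have hcases : ∀ c < n + k + 1, c < n ∨ (∃ i < k, c = n + i) ∨ c = n + k := by
      intro c hc
      rcases Nat.lt_or_ge c n with h2 | h2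
      · exact Or.inl h2
      · rcases Nat.lt_or_ge c (n + k) with h3 | h3
        · exact Or.inr (Or.inl ⟨c - n, by omega, by omega⟩)
        · exact Or.inr (Or.inr (by omega))
    have hcolF : ∀ c < n + k + 1, col6 n L.length k (F c) = c := by
      intro c hc
      rcases hcases c hc with h2 | ⟨i, hi, rfl⟩ | rfl
      · rw [hF1 c h2, M6x.col_leaf h2]
      · rw [hF2 i hi, M6x.col_choice hi (hsm i)]
      · rw [hF3, M6x.col_zero]
    refine ⟨(Finset.range (n + k + 1)).image F, fun v hv => ?_, ?_, fun c hc => ?_, ?_⟩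
    · obtain ⟨c, hc, rfl⟩ := Finset.mem_image.1 hv
      rcases hcases c (Finset.mem_range.1 hc) with h2 | ⟨i, hi, rfl⟩ | rfl
      · rw [hF1 c h2]
        have := M6x.leaf_lt (hg c h2).2.1 h2
        omega
      · rw [hF2 i hi]
        have := M6x.add_lt hi (hsm i)
        omega
      · rw [hF3]
        omega
    · rw [Finset.card_image_of_injOn, Finset.card_range]
      intro a ha b hb hab
      rw [← hcolF a (Finset.mem_range.1 (Finset.mem_coe.1 ha)), hab,
        hcolF b (Finset.mem_range.1 (Finset.mem_coe.1 hb))]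
    · exact ⟨F c, Finset.mem_image_of_mem _ (Finset.mem_range.2 hc), hcolF c hc⟩
    · obtain ⟨V, hVdef⟩ : ∃ V, V = (Finset.range (n + k + 1)).image F := ⟨_, rfl⟩
      rw [← hVdef]
      have hmem : ∀ c < n + k + 1, F c ∈ V := by
        intro c hc
        rw [hVdef]
        exact Finset.mem_image_of_mem _ (Finset.mem_range.2 hc)
      have h0 : 0 ∈ V := hF3 ▸ hmem (n + k) (by omega)
      have hch : ∀ i < k, EqvGen (fun a b => (a, b) ∈ edges6 k L ∧ a ∈ V ∧ b ∈ V)
          (F (n + i)) 0 := by
        intro i hi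
        refine EqvGen.symm _ _ (EqvGen.rel _ _ ⟨?_, h0, hmem _ (by omega)⟩)
        rw [hF2 i hi]
        exact M6x.mem_edges.2 (Or.inl ⟨i, hi, s i, hsm i, rfl⟩)
      have hall : ∀ v ∈ V, EqvGen (fun a b => (a, b) ∈ edges6 k L ∧ a ∈ V ∧ b ∈ V) v 0 := by
        intro v hv
        rw [hVdef] at hv
        obtain ⟨c, hc, rfl⟩ := Finset.mem_image.1 hv
        rcases hcases c (Finset.mem_range.1 hc) with h2 | ⟨i, hi, rfl⟩ | rfl
        · obtain ⟨h3, h4, h5⟩ := hg c h2
          refine EqvGen.trans _ _ _ (EqvGen.symm _ _ (EqvGen.rel (F (n + g c)) _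
            ⟨?_, hmem _ (by omega), hmem _ (by omega)⟩)) (hch _ h3)
          rw [hF2 _ h3, hF1 c h2]
          exact M6x.mem_edges.2 (Or.inr ⟨g c, h3, s (g c), h4, c, h2, h5, rfl⟩)
        · exact hch i hi
        · rw [hF3]
          exact EqvGen.refl _
      intro u hu v hv
      exact EqvGen.trans _ _ _ (hall u hu) (EqvGen.symm _ _ (hall v hv))

end SCM
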