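import Pool.Agent.Lib.SCM.Progs2
import Pool.Agent.Lib.SCM.SP
import Pool.Agent.Lib.SCM.M5

/-!
# Graph Motif → Full Monomial
-/

set_option autoImplicit false

namespace SCM

open SCR SCN

namespace M7x

open M5x (lv_inj lv_ne lt_lv)

theorem mem_rules {n N : ℕ} {col : ℕ → ℕ} {E : List (ℕ × ℕ)} {z x y : ℕ} :
    (z, x, y) ∈ rules7 n N col E ↔ (∃ v < N, z = lv n N 0 v ∧ x = col v ∧ y = n) ∨
      (∃ i < n - 1, ∃ a < i + 1, ∃ e ∈ E,
        (z = lv n N (i + 1) e.1 ∧ x = lv n N a e.1 ∧ y = lv n N (i - a) e.2) ∨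
        (z = lv n N (i + 1) e.2 ∧ x = lv n N a e.2 ∧ y = lv n N (i - a) e.1)) ∨
      ∃ v < N, z = lv n N n 0 ∧ x = lv n N (n - 1) v ∧ y = n := by
  unfold rules7 rules7i
  simp only [List.mem_append, List.mem_map, List.mem_flatMap, List.mem_range, List.mem_cons,
    List.not_mem_nil, or_false, Prod.mk.injEq]
  constructor
  · rintro (⟨v, hv, h1, h2, h3⟩ | ⟨i, hi, a, ha, e, he, h⟩ | ⟨v, hv, h1, h2, h3⟩)
    · exact Or.inl ⟨v, hv, h1.symm, h2.symm, h3.symm⟩
    · exact Or.inr (Or.inl ⟨i, hi, a, ha, e, he, h⟩)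
    · exact Or.inr (Or.inr ⟨v, hv, h1.symm, h2.symm, h3.symm⟩)
  · rintro (⟨v, hv, h1, h2, h3⟩ | ⟨i, hi, a, ha, e, he, h⟩ | ⟨v, hv, h1, h2, h3⟩)
    · exact Or.inl ⟨v, hv, h1.symm, h2.symm, h3.symm⟩
    · exact Or.inr (Or.inl ⟨i, hi, a, ha, e, he, h⟩)
    · exact Or.inr (Or.inr ⟨v, hv, h1.symm, h2.symm, h3.symm⟩)

/-- connected inside `V` -/
def CV (E : List (ℕ × ℕ)) (V : Finset ℕ) (u v : ℕ) : Prop :=
  Relation.EqvGen (fun a b => (a, b) ∈ E ∧ a ∈ V ∧ b ∈ V) u v

theorem cv_mono {E : List (ℕ × ℕ)} {V W : Finset ℕ} (h : V ⊆ W) {u v : ℕ} (huv : CV E V u v) :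
    CV E W u v :=
  (eqvGen_iff (fun t => CV E W u t) (fun a b hab =>
    ⟨fun h1 => h1.trans _ _ _ (.rel _ _ ⟨hab.1, h hab.2.1, h hab.2.2⟩),
      fun h1 => h1.trans _ _ _ (.symm _ _ (.rel _ _ ⟨hab.1, h hab.2.1, h hab.2.2⟩))⟩) huv).1 (.refl _)

theorem cv_mem {E : List (ℕ × ℕ)} {V : Finset ℕ} {u v : ℕ} (hu : u ∈ V) (huv : CV E V u v) :
    v ∈ V :=
  (eqvGen_iff (fun t => t ∈ V) (fun _ _ hab => ⟨fun _ => hab.2.2, fun _ => hab.2.1⟩) huv).1 hu

theorem conn_of {E : List (ℕ × ℕ)} {V : Finset ℕ} {u : ℕ} (h : ∀ t ∈ V, CV E V u t) : Conn E V :=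
  fun s hs t ht => ((h s hs).symm _ _).trans _ _ _ (h t ht)

/-- union of two connected sets joined by an edge -/
theorem conn_union {E : List (ℕ × ℕ)} {V W : Finset ℕ} {u v : ℕ} (hV : Conn E V) (hW : Conn E W)
    (hu : u ∈ V) (hv : v ∈ W) (huv : (u, v) ∈ E ∨ (v, u) ∈ E) : Conn E (V ∪ W) := by
  have huV : u ∈ V ∪ W := Finset.mem_union_left _ hu
  have hvW : v ∈ V ∪ W := Finset.mem_union_right _ hv
  have h1 : CV E (V ∪ W) u v := by
    rcases huv with h | h
    · exact .rel _ _ ⟨h, huV, hvW⟩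
    · exact .symm _ _ (.rel _ _ ⟨h, hvW, huV⟩)
  refine conn_of (u := u) fun t ht => ?_
  rcases Finset.mem_union.1 ht with h | h
  · exact cv_mono Finset.subset_union_left (hV u hu t h)
  · exact h1.trans _ _ _ (cv_mono Finset.subset_union_right (hW v hv t h))

/-- A connected set with at least two elements is split at a vertex. -/
theorem split_conn {E : List (ℕ × ℕ)} {V : Finset ℕ} {v : ℕ} (hV : Conn E V) (hv : v ∈ V)
    (hc : 2 ≤ V.card) : ∃ (w : ℕ) (V1 V2 : Finset ℕ), ((v, w) ∈ E ∨ (w, v) ∈ E) ∧ V1 ∪ V2 = V ∧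
      Disjoint V1 V2 ∧ v ∈ V1 ∧ w ∈ V2 ∧ Conn E V1 ∧ Conn E V2 := by
  classical
  -- a neighbour
  obtain ⟨w, hwV, hwv, hw⟩ : ∃ w ∈ V, w ≠ v ∧ ((v, w) ∈ E ∨ (w, v) ∈ E) := by
    by_contra hcon
    push Not at hcon
    obtain ⟨t, ht, htv⟩ := Finset.exists_mem_ne (by omega : 1 < V.card) v
    refine htv ((eqvGen_iff (fun t => t = v) (fun a b hab => ?_) (hV v hv t ht)).1 rfl)
    constructor
    · intro h1
      by_contra h2
      exact (hcon b hab.2.2 h2).1 (h1 ▸ hab.1)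
    · intro h1
      by_contra h2
      exact (hcon a hab.2.1 h2).2 (h1 ▸ hab.1)
  have hwe : w ∈ V.erase v := Finset.mem_erase.2 ⟨hwv, hwV⟩
  let V2 : Finset ℕ := V.filter fun t => CV E (V.erase v) w t
  have m2 : ∀ t, t ∈ V2 ↔ CV E (V.erase v) w t := by
    intro t
    simp only [V2, Finset.mem_filter, and_iff_right_iff_imp]
    intro h
    exact Finset.mem_of_mem_erase (cv_mem hwe h)
  have m2e : ∀ t ∈ V2, t ∈ V.erase v := fun t ht => cv_mem hwe ((m2 t).1 ht)
  have hw2 : w ∈ V2 := (m2 w).2 (.refl _)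
  have hv2 : v ∉ V2 := fun h => (Finset.mem_erase.1 (m2e v h)).1 rfl
  have hcl : ∀ t, CV E (V.erase v) w t → CV E V2 w t := by
    intro t ht
    refine (eqvGen_iff (fun t => CV E V2 w t) (fun a b hab => ?_) ht).1 (.refl _)
    constructor
    · intro h1
      have h2 : a ∈ V2 := cv_mem hw2 h1
      have h3 : b ∈ V2 := (m2 b).2 (((m2 a).1 h2).trans _ _ _ (.rel _ _ hab))
      exact h1.trans _ _ _ (.rel _ _ ⟨hab.1, h2, h3⟩)
    · intro h1
      have h2 : b ∈ V2 := cv_mem hw2 h1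
      have h3 : a ∈ V2 := (m2 a).2 (((m2 b).1 h2).trans _ _ _ (.symm _ _ (.rel _ _ hab)))
      exact h1.trans _ _ _ (.symm _ _ (.rel _ _ ⟨hab.1, h3, h2⟩))
  have hv1 : v ∈ V \ V2 := Finset.mem_sdiff.2 ⟨hv, hv2⟩
  refine ⟨w, V \ V2, V2, hw, Finset.sdiff_union_of_subset (Finset.filter_subset _ _),
    Finset.sdiff_disjoint, hv1, hw2, ?_, ?_⟩
  · refine conn_of (u := v) fun t ht => ?_
    have h1 : t ∈ V2 ∨ CV E (V \ V2) v t := by
      refine (eqvGen_iff (fun t => t ∈ V2 ∨ CV E (V \ V2) v t) (fun a b hab => ?_)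
        (hV v hv t (Finset.mem_sdiff.1 ht).1)).1 (Or.inr (.refl _))
      obtain ⟨e1, e2, e3⟩ := hab
      by_cases ha : a ∈ V2
      · by_cases hb : b ∈ V2
        · exact ⟨fun _ => Or.inl hb, fun _ => Or.inl ha⟩
        · have h4 : b = v := by
            by_contra h5
            exact hb ((m2 b).2 (((m2 a).1 ha).trans _ _ _
              (.rel _ _ ⟨e1, m2e a ha, Finset.mem_erase.2 ⟨h5, e3⟩⟩)))
          rw [h4]
          exact ⟨fun _ => Or.inr (.refl _), fun _ => Or.inl ha⟩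
      · by_cases hb : b ∈ V2
        · have h4 : a = v := by
            by_contra h5
            exact ha ((m2 a).2 (((m2 b).1 hb).trans _ _ _
              (.symm _ _ (.rel _ _ ⟨e1, Finset.mem_erase.2 ⟨h5, e2⟩, m2e b hb⟩))))
          rw [h4]
          exact ⟨fun _ => Or.inl hb, fun _ => Or.inr (.refl _)⟩
        · have e4 : a ∈ V \ V2 := Finset.mem_sdiff.2 ⟨e2, ha⟩
          have e5 : b ∈ V \ V2 := Finset.mem_sdiff.2 ⟨e3, hb⟩
          constructor
          · rintro (h | h)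
            · exact absurd h ha
            · exact Or.inr (h.trans _ _ _ (.rel _ _ ⟨e1, e4, e5⟩))
          · rintro (h | h)
            · exact absurd h hb
            · exact Or.inr (h.trans _ _ _ (.symm _ _ (.rel _ _ ⟨e1, e4, e5⟩)))
    rcases h1 with h | h
    · exact absurd h (Finset.mem_sdiff.1 ht).2
    · exact h
  · exact conn_of (u := w) fun t ht => hcl t ((m2 t).1 ht)

section

variable {n N : ℕ} {col : ℕ → ℕ} {E : List (ℕ × ℕ)}

theorem inv {z : ℕ} {A : Finset ℕ} (h : Mono n (rules7 n N col E) z A) (hz : n < z) :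
    ∃ (x y : ℕ) (A1 A2 : Finset ℕ), (z, x, y) ∈ rules7 n N col E ∧ Mono n (rules7 n N col E) x A1 ∧
      Mono n (rules7 n N col E) y A2 ∧ Disjoint A1 A2 ∧ A = A1 ∪ A2 := by
  cases h with
  | var ha => omega
  | one => omega
  | mul h1 h2 h3 h4 => exact ⟨_, _, _, _, h1, h2, h3, h4, rfl⟩

theorem gt {z x y : ℕ} (h : (z, x, y) ∈ rules7 n N col E) : n < z := by
  rw [mem_rules] at h
  rcases h with ⟨v, hv, h1, h2, h3⟩ | ⟨i, hi, a, ha, e, he, ⟨h1, -⟩ | ⟨h1, -⟩⟩ | ⟨v, hv, h1, h2, h3⟩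
  · rw [h1]; exact lt_lv
  · rw [h1]; exact lt_lv
  · rw [h1]; exact lt_lv
  · rw [h1]; exact lt_lv

theorem mono_lt {z : ℕ} {A : Finset ℕ} (h : Mono n (rules7 n N col E) z A) (hz : z < n) :
    A = {z} := by
  cases h with
  | var ha => rfl
  | one => omega
  | mul h1 h2 h3 h4 =>
    have := gt h1
    omega

theorem mono_n {A : Finset ℕ} (h : Mono n (rules7 n N col E) n A) : A = ∅ := by
  cases h with
  | var ha => omega
  | one => rfl
  | mul h1 h2 h3 h4 =>
    have := gt h1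
    omega

/-- Connected sets with distinct colours. -/
def Cs (N : ℕ) (col : ℕ → ℕ) (E : List (ℕ × ℕ)) (i v : ℕ) (A : Finset ℕ) : Prop :=
  ∃ V : Finset ℕ, v ∈ V ∧ (∀ u ∈ V, u < N) ∧ Conn E V ∧ V.card = i + 1 ∧ A = V.image col ∧
    A.card = i + 1

theorem mono_zero (hn : 1 ≤ n) (hcol : ∀ v < N, col v < n) (hE : ∀ e ∈ E, e.1 < N ∧ e.2 < N)
    {v : ℕ} (hv : v < N) {A : Finset ℕ} :
    Mono n (rules7 n N col E) (lv n N 0 v) A ↔ A = {col v} := by
  constructor
  · intro h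
    obtain ⟨x, y, A1, A2, h1, h2, h3, h4, rfl⟩ := inv h lt_lv
    rw [mem_rules] at h1
    rcases h1 with ⟨u, hu, k1, k2, k3⟩ | ⟨i, hi, a, ha, e, he, ⟨k1, -⟩ | ⟨k1, -⟩⟩ |
      ⟨u, hu, k1, k2, k3⟩
    · obtain ⟨-, rfl⟩ := lv_inj hv hu k1
      subst k2 k3
      rw [mono_lt h2 (hcol v hv), mono_n h3, Finset.union_empty]
    · have := (lv_inj hv (hE e he).1 k1).1
      omega
    · have := (lv_inj hv (hE e he).2 k1).1
      omega
    · exact absurd k1 (lv_ne hn hv)
  · rintro rfl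
    have h1 : Mono n (rules7 n N col E) (lv n N 0 v) ({col v} ∪ ∅) :=
      Mono.mul (mem_rules.2 (Or.inl ⟨v, hv, rfl, rfl, rfl⟩)) (Mono.var (hcol v hv)) Mono.one
        (Finset.disjoint_empty_right _)
    rwa [Finset.union_empty] at h1

theorem main (hn : 1 ≤ n) (hcol : ∀ v < N, col v < n) (hE : ∀ e ∈ E, e.1 < N ∧ e.2 < N) (i : ℕ) :
    i < n → ∀ v < N, ∀ A : Finset ℕ,
      Mono n (rules7 n N col E) (lv n N i v) A ↔ Cs N col E i v A := by
  induction i using Nat.strong_induction_on with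
  | _ i ih =>
  intro hi v hv A
  rcases Nat.eq_zero_or_pos i with rfl | hpos
  · rw [mono_zero hn hcol hE hv]
    constructor
    · rintro rfl
      refine ⟨{v}, by simp, by simpa using hv, ?_, by simp, by simp, by simp⟩
      exact conn_of (u := v) fun t ht => by
        rw [Finset.mem_singleton] at ht
        rw [ht]
        exact .refl _
    · rintro ⟨V, h1, h2, h3, h4, rfl, -⟩
      obtain ⟨u, rfl⟩ := Finset.card_eq_one.1 h4
      rw [Finset.mem_singleton] at h1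
      simp [h1]
  · obtain ⟨i, rfl⟩ : ∃ j, i = j + 1 := ⟨i - 1, by omega⟩
    constructor
    · intro h
      obtain ⟨x, y, A1, A2, h1, h2, h3, h4, rfl⟩ := inv h lt_lv
      have key : ∀ a < i + 1, ∀ w < N, ((v, w) ∈ E ∨ (w, v) ∈ E) → x = lv n N a v →
          y = lv n N (i - a) w → Cs N col E (i + 1) v (A1 ∪ A2) := by
        intro a ha w hw hvw hx hy
        subst hx hy
        obtain ⟨V1, a1, a2, a3, a4, rfl, a6⟩ := (ih a (by omega) (by omega) v hv A1).1 h2
        obtain ⟨V2, b1, b2, b3, b4, rfl, b6⟩ := (ih (i - a) (by omega) (by omega) w hw A2).1 h3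
        have hd : Disjoint V1 V2 := by
          rw [Finset.disjoint_left]
          intro t ht1 ht2
          exact Finset.disjoint_left.1 h4 (Finset.mem_image_of_mem _ ht1)
            (Finset.mem_image_of_mem _ ht2)
        refine ⟨V1 ∪ V2, Finset.mem_union_left _ a1, ?_, conn_union a3 b3 a1 b1 hvw, ?_,
          (Finset.image_union _ _).symm, ?_⟩
        · intro u hu
          rcases Finset.mem_union.1 hu with h | h
          · exact a2 u h
          · exact b2 u h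
        · rw [Finset.card_union_of_disjoint hd]
          omega
        · rw [Finset.card_union_of_disjoint h4]
          omega
      rw [mem_rules] at h1
      rcases h1 with ⟨u, hu, k1, k2, k3⟩ | ⟨i', hi', a, ha, e, he, ⟨k1, k2, k3⟩ | ⟨k1, k2, k3⟩⟩ |
        ⟨u, hu, k1, k2, k3⟩
      · have := (lv_inj hv hu k1).1
        omega
      · obtain ⟨k4, k5⟩ := lv_inj hv (hE e he).1 k1
        obtain rfl : i = i' := by omega
        refine key a ha e.2 (hE e he).2 (Or.inl ?_) (by rw [k5]; exact k2) k3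
        rw [k5]
        exact he
      · obtain ⟨k4, k5⟩ := lv_inj hv (hE e he).2 k1
        obtain rfl : i = i' := by omega
        refine key a ha e.1 (hE e he).1 (Or.inr ?_) (by rw [k5]; exact k2) k3
        rw [k5]
        exact he
      · exact absurd k1 (lv_ne hi hv)
    · rintro ⟨V, h1, h2, h3, h4, rfl, h6⟩
      obtain ⟨w, V1, V2, hw, hu, hd, hv1, hw2, c1, c2⟩ := split_conn h3 h1 (by omega)
      have hinj : Set.InjOn col (V : Set ℕ) := by
        rw [← Finset.card_image_iff, h6, h4]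
      have hcardV : V1.card + V2.card = i + 1 + 1 := by
        rw [← Finset.card_union_of_disjoint hd, hu, h4]
      have p1 : 0 < V1.card := Finset.card_pos.2 ⟨v, hv1⟩
      have p2 : 0 < V2.card := Finset.card_pos.2 ⟨w, hw2⟩
      have s1 : V1 ⊆ V := hu ▸ Finset.subset_union_left
      have s2 : V2 ⊆ V := hu ▸ Finset.subset_union_right
      have hi1 : Set.InjOn col (V1 : Set ℕ) := hinj.mono (Finset.coe_subset.2 s1)
      have hi2 : Set.InjOn col (V2 : Set ℕ) := hinj.mono (Finset.coe_subset.2 s2)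
      obtain ⟨a, ha⟩ : ∃ a, V1.card = a + 1 := ⟨V1.card - 1, by omega⟩
      have hb : V2.card = i - a + 1 := by omega
      have hwN : w < N := h2 w (s2 hw2)
      have m1 : Mono n (rules7 n N col E) (lv n N a v) (V1.image col) :=
        (ih a (by omega) (by omega) v hv _).2 ⟨V1, hv1, fun u h => h2 u (s1 h), c1, ha, rfl,
          by rw [Finset.card_image_of_injOn hi1, ha]⟩
      have m2 : Mono n (rules7 n N col E) (lv n N (i - a) w) (V2.image col) :=
        (ih (i - a) (by omega) (by omega) w hwN _).2 ⟨V2, hw2, fun u h => h2 u (s2 h), c2, hb, rfl,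
          by rw [Finset.card_image_of_injOn hi2, hb]⟩
      have hdis : Disjoint (V1.image col) (V2.image col) := by
        rw [Finset.disjoint_left]
        intro c hc1 hc2
        obtain ⟨u1, hu1, e1⟩ := Finset.mem_image.1 hc1
        obtain ⟨u2, hu2, e2⟩ := Finset.mem_image.1 hc2
        have := hinj (s1 hu1) (s2 hu2) (e1.trans e2.symm)
        exact Finset.disjoint_left.1 hd hu1 (this ▸ hu2)
      rw [← hu, Finset.image_union]
      refine Mono.mul (mem_rules.2 (Or.inr (Or.inl ⟨i, by omega, a, by omega, ?_⟩))) m1 m2 hdis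
      rcases hw with h | h
      · exact ⟨(v, w), h, Or.inl ⟨rfl, rfl, rfl⟩⟩
      · exact ⟨(w, v), h, Or.inr ⟨rfl, rfl, rfl⟩⟩

theorem out (hn : 1 ≤ n) (hE : ∀ e ∈ E, e.1 < N ∧ e.2 < N) {A : Finset ℕ} :
    Mono n (rules7 n N col E) (lv n N n 0) A ↔
      ∃ v < N, Mono n (rules7 n N col E) (lv n N (n - 1) v) A := by
  constructor
  · intro h
    obtain ⟨x, y, A1, A2, h1, h2, h3, h4, rfl⟩ := inv h lt_lv
    rw [mem_rules] at h1
    rcases h1 with ⟨u, hu, k1, k2, k3⟩ | ⟨i, hi, a, ha, e, he, ⟨k1, -⟩ | ⟨k1, -⟩⟩ |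
      ⟨u, hu, k1, k2, k3⟩
    · exact absurd k1.symm (lv_ne hn hu)
    · exact absurd k1.symm (lv_ne (by omega) (hE e he).1)
    · exact absurd k1.symm (lv_ne (by omega) (hE e he).2)
    · subst k2 k3
      rw [mono_n h3, Finset.union_empty]
      exact ⟨u, hu, h2⟩
  · rintro ⟨v, hv, h⟩
    have h1 : Mono n (rules7 n N col E) (lv n N n 0) (A ∪ ∅) :=
      Mono.mul (mem_rules.2 (Or.inr (Or.inr ⟨v, hv, rfl, rfl, rfl⟩))) h Mono.one
        (Finset.disjoint_empty_right _)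
    rwa [Finset.union_empty] at h1

end

end M7x

theorem m7 : M7 := by
  intro h I
  have hn := GMInst.pos I
  have hcol := GMInst.col_lt I
  have hE := GMInst.lt I
  change Mono (GMInst.n I) (rules7 (GMInst.n I) (GMInst.N I) (GMInst.col I) (GMInst.E I))
    (lv (GMInst.n I) (GMInst.N I) (GMInst.n I) 0) (Finset.range (GMInst.n I)) ↔
    ∃ V : Finset ℕ, (∀ v ∈ V, v < GMInst.N I) ∧ V.card = GMInst.n I ∧
      (∀ c < GMInst.n I, ∃ v ∈ V, GMInst.col I v = c) ∧ Conn (GMInst.E I) V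
  rw [M7x.out hn hE]
  have e : GMInst.n I - 1 + 1 = GMInst.n I := by omega
  constructor
  · rintro ⟨v, hv, h1⟩
    obtain ⟨V, p1, p2, p3, p4, p5, p6⟩ := (M7x.main hn hcol hE _ (by omega) v hv _).1 h1
    refine ⟨V, p2, by omega, fun c hc => ?_, p3⟩
    have h2 : c ∈ Finset.range (GMInst.n I) := Finset.mem_range.2 hc
    rw [p5] at h2
    obtain ⟨u, hu, h3⟩ := Finset.mem_image.1 h2
    exact ⟨u, hu, h3⟩
  · rintro ⟨V, p1, p2, p3, p4⟩
    obtain ⟨v, hv⟩ : V.Nonempty := by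
      rw [← Finset.card_pos]
      omega
    refine ⟨v, p1 v hv, (M7x.main hn hcol hE _ (by omega) v (p1 v hv) _).2
      ⟨V, hv, p1, p4, by omega, ?_, by rw [Finset.card_range]; omega⟩⟩
    ext c
    simp only [Finset.mem_range, Finset.mem_image]
    constructor
    · exact p3 c
    · rintro ⟨i, hi, rfl⟩
      exact hcol _ (p1 i hi)

end SCM
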