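import Pool.Agent.Lib.SCM.Pure

/-!
# The bounds of the instances
-/

set_option autoImplicit false

namespace SCM

open SCR SCN

namespace OKx

theorem inn_lt {n : ℕ} {A : Finset (Fin n)} {x : ℕ} (h : inn A x) : x < n := by
  obtain ⟨h, -⟩ := h
  exact h

theorem mul_add_lt {i m n x : ℕ} (hi : i < m) (hx : x < n) : i * n + x < m * n := by
  have h1 : (i + 1) * n ≤ m * n := Nat.mul_le_mul_right n hi
  rw [Nat.succ_mul] at h1
  omega

theorem lv_lt {n N i j u v : ℕ} (hij : i < j) (hu : u < N) : lv n N i u < lv n N j v := by
  have := mul_add_lt hij hu
  unfold lv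
  omega

end OKx

theorem ok1 : Ok1 := by
  intro n L e he
  unfold edges1 at he
  simp only [List.mem_flatMap, List.mem_range, List.mem_cons] at he
  obtain ⟨i, hi, he⟩ := he
  rcases he with rfl | ⟨x, hx, he⟩
  · simp only
    omega
  · split_ifs at he
    · rw [List.mem_singleton] at he
      subst he
      simp only
      omega
    · simp at he

theorem ok2 : Ok2 := by
  intro n N J E hn hE t ht
  unfold rules2 at ht
  simp only [List.mem_append, List.mem_map, List.mem_flatMap, List.mem_range] at ht
  rcases ht with ⟨v, hv, rfl⟩ | ⟨v, hv, rfl⟩ | ⟨i, hi, ht⟩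
  · refine ⟨OKx.lv_lt (Nat.succ_pos _) (by omega), ?_, ?_⟩
    · simp only [lv]
      omega
    · simp only [lv]
      omega
  · refine ⟨OKx.lv_lt (Nat.succ_pos _) (by omega), ?_, ?_⟩
    · simp only [lv]
      omega
    · simp only [lv]
      omega
  · unfold rules2i at ht
    simp only [List.mem_append, List.mem_map, List.mem_flatMap, List.mem_range] at ht
    rcases ht with ⟨v, hv, rfl⟩ | ⟨e, he, ht⟩ | ⟨a, ha, v, hv, rfl⟩
    · refine ⟨OKx.lv_lt (by omega) hv, OKx.lv_lt (by omega) hv, ?_⟩
      simp only [lv]
      omega
    · obtain ⟨h1, h2⟩ := hE e he
      simp only [List.mem_cons, List.not_mem_nil, or_false] at ht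
      rcases ht with rfl | rfl
      · exact ⟨OKx.lv_lt (by omega) h1, OKx.lv_lt (by omega) h2, OKx.lv_lt (by omega) h1⟩
      · exact ⟨OKx.lv_lt (by omega) h2, OKx.lv_lt (by omega) h1, OKx.lv_lt (by omega) h2⟩
    · exact ⟨OKx.lv_lt (by omega) hv, OKx.lv_lt (by omega) hv, OKx.lv_lt (by omega) hv⟩

theorem ok4 : Ok4 := by
  intro n L
  refine ⟨fun v hv => ?_, fun e he => ?_⟩
  · unfold col4
    split_ifs with h1 h2
    · have hn : 0 < n := by
        rcases Nat.eq_zero_or_pos n with rfl | h
        · simp at h1
        · exact h
      have := Nat.mod_lt v hn
      omega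
    · omega
    · omega
  · unfold edges4 at he
    simp only [List.mem_cons, List.mem_flatMap, List.mem_range] at he
    rcases he with rfl | ⟨i, hi, x, hx, he⟩
    · simp
    · have h1 := OKx.mul_add_lt hi hx
      unfold edges4x at he
      split_ifs at he with h2 h3 h4
      · simp only [List.cons_append, List.nil_append, List.mem_cons, List.mem_flatMap,
          List.mem_range] at he
        rcases he with rfl | rfl | ⟨i', hi', y, hy, he⟩
        · simp only
          omega
        · simp only
          omega
        · split_ifs at he
          · rw [List.mem_singleton] at he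
            subst he
            have h5 := OKx.mul_add_lt hi' hy
            simp only
            omega
          · simp at he
      · simp only [List.cons_append, List.nil_append, List.mem_cons, List.mem_flatMap,
          List.mem_range] at he
        rcases he with rfl | ⟨i', hi', y, hy, he⟩
        · simp only
          omega
        · split_ifs at he
          · rw [List.mem_singleton] at he
            subst he
            have h5 := OKx.mul_add_lt hi' hy
            simp only
            omega
          · simp at he
      · simp only [List.cons_append, List.nil_append, List.mem_cons, List.mem_flatMap,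
          List.mem_range] at he
        rcases he with rfl | ⟨i', hi', y, hy, he⟩
        · simp only
          omega
        · split_ifs at he
          · rw [List.mem_singleton] at he
            subst he
            have h5 := OKx.mul_add_lt hi' hy
            simp only
            omega
          · simp at he
      · simp only [List.nil_append, List.mem_flatMap, List.mem_range] at he
        obtain ⟨i', hi', y, hy, he⟩ := he
        split_ifs at he
        · rw [List.mem_singleton] at he
          subst he
          have h5 := OKx.mul_add_lt hi' hy
          simp only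
          omega
        · simp at he
      · simp at he

theorem ok5 : Ok5 := by
  intro n N col E hn hcol hE t ht
  unfold rules5 at ht
  simp only [List.mem_append, List.mem_map, List.mem_flatMap, List.mem_range] at ht
  rcases ht with ⟨v, hv, rfl⟩ | ⟨i, hi, e, he, rfl⟩ | ⟨v, hv, rfl⟩
  · have h1 := hcol v hv
    have h2 : lv n N 0 v < lv n N n 0 := OKx.lv_lt hn hv
    refine ⟨by omega, ?_, ?_⟩
    · simp only [lv]
      omega
    · simp only [lv]
      omega
  · obtain ⟨h1, h2⟩ := hE e he
    have h3 : lv n N (i + 1) e.2 < lv n N n 0 := OKx.lv_lt (by omega) h2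
    exact ⟨by omega, OKx.lv_lt (by omega) h1, OKx.lv_lt (by omega) h2⟩
  · refine ⟨Nat.lt_succ_self _, OKx.lv_lt (by omega) hv, ?_⟩
    simp only [lv]
    omega

end SCM
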