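import Pool.Agent.Lib.SCM.Progs

/-!
# Row P2: the program for Steiner Tree → Full Monomial.  (helper42)
-/

namespace SCM

open SCR SCN

namespace P2r

/-- the record of a rule -/
def rc (t : ℕ × ℕ × ℕ) : List ℕ := [t.1, t.2.1, t.2.2]

lemma HT.setS {w i : ℕ} {e : E} {p : Stmt} {s : Data} {T T2 : ℕ} {Q : Data → Prop}
    (hi : i < 40 ∨ 50 ≤ i) (he : e.wf = true) (hd : e.depth ≤ 9) (ho : e.ok w s)
    (h : HT w p (upd s i (e.val s)) T2 Q) (hT : e.size + 1 + T2 ≤ T) :
    HT w (Stmt.seq (SCM.set i e) p) s T Q :=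
  HT.seq (R := fun s' => s' = upd s i (e.val s)) (HT.set hi he hd ho rfl le_rfl)
    (by rintro _ rfl; exact h) hT

lemma flen (f : ℕ → List (List ℕ)) (K : ℕ) : ∀ i : ℕ, (∀ j < i, (f j).flatten.length ≤ K) →
    ((List.range i).flatMap f).flatten.length ≤ i * K
  | 0, _ => by simp
  | i + 1, h => by
    have h1 := flen f K i fun j hj => h j (by omega)
    have h2 := h i (Nat.lt_succ_self i)
    have e1 : (List.range (i + 1)).flatMap f = (List.range i).flatMap f ++ f i := by
      rw [List.range_succ, List.flatMap_append]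
      simp
    rw [e1, List.flatten_append, List.length_append, Nat.succ_mul]
    omega

lemma nlen {α : Type} (f : ℕ → List α) (K : ℕ) : ∀ i : ℕ, (∀ j < i, (f j).length ≤ K) →
    ((List.range i).flatMap f).length ≤ i * K
  | 0, _ => by simp
  | i + 1, h => by
    have h1 := nlen f K i fun j hj => h j (by omega)
    have h2 := h i (Nat.lt_succ_self i)
    have e1 : (List.range (i + 1)).flatMap f = (List.range i).flatMap f ++ f i := by
      rw [List.range_succ, List.flatMap_append]
      simp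
    rw [e1, List.length_append, Nat.succ_mul]
    omega

lemma flat3 : ∀ L : List (ℕ × ℕ × ℕ), (L.map rc).flatten.length = 3 * L.length
  | [] => rfl
  | t :: L => by
    rw [List.map_cons, List.flatten_cons, List.length_append, flat3 L, List.length_cons]
    simp only [rc, List.length_cons, List.length_nil]
    omega

/-- A loop whose body writes one record of length 3. -/
lemma loop1 {w i b : ℕ} {e a1 a2 a3 : E} {s : Data} {T : ℕ} {Q : Data → Prop} (N : ℕ)
    (f : ℕ → List ℕ) (G : List ℕ) (hi : i < 40) (hb : b < 40) (hib : i ≠ b)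
    (hiF : i ∈ G) (hbF : b ∈ G) (hi1 : i ≠ 17) (hi2 : i ≠ 18) (hb1 : b ≠ 17) (hb2 : b ≠ 18)
    (he : e.wf = true) (hd : e.depth ≤ 9) (ho : e.ok w s) (hN : e.val s = N)
    (hp : s.reg 17 + 3 * N < 2 ^ w) (hc : s.reg 18 + N < 2 ^ w) (hlen : ∀ j, (f j).length = 3)
    (hrec : ∀ j < N, ∀ s' : Data, (∀ r, r ∉ G → r ≠ 17 → r ≠ 18 → s'.reg r = s.reg r) →
      s'.reg i = j → (∀ a ∈ [a1, a2, a3], a.pure = true ∧ a.wf = true ∧ a.depth ≤ 8 ∧ a.ok w s') ∧
        [a1, a2, a3].map (E.val s') = f j)
    (hT : N * (E.cost [a1, a2, a3] + 10) + e.size + 5 ≤ T)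
    (hQ : ∀ t, App G s t ((List.range N).map f) → Q t) :
    HT w (forr i b e (recd [a1, a2, a3])) s T Q := by
  refine HT.forApp N (E.cost [a1, a2, a3]) G (fun j => [f j]) (fun _ _ => True) hi hb hib hiF hbF
    hi1 hi2 hb1 hb2 he hd ho hN (by omega) trivial ?_ hT ?_
  · intro j hj s' h1 _ h3 h4
    have hl1 : ((List.range j).flatMap fun j => [f j]).flatten.length ≤ j * 3 := by
      refine flen _ 3 j fun k _ => ?_
      simp [hlen]
    have hl2 : ((List.range j).flatMap fun j => [f j]).length ≤ j * 1 :=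
      nlen _ 1 j fun k _ => by simp
    have hptr := h1.ptr
    have hcnt := h1.cnt
    obtain ⟨g1, g2⟩ := hrec j hj s' h1.reg h3
    refine HT.recd g1 ?_ ?_ ?_ le_rfl
    · simp only [List.length_cons, List.length_nil]
      omega
    · omega
    · intro t ht
      rw [g2] at ht
      refine ⟨ht.wk (by simp), ?_, ?_, trivial⟩
      · rw [ht.reg i (by simp) hi1 hi2, h3]
      · rw [ht.reg b (by simp) hb1 hb2, h4]
  · intro s' h1 _
    have e1 : ((List.range N).flatMap fun j => [f j]) = (List.range N).map f := by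
      induction List.range N with
      | nil => rfl
      | cons a L ih => simp [ih]
    rw [e1] at h1
    exact hQ s' h1

/-- the registers used in the main loop -/
def F' : List ℕ := [9, 10, 22, 23, 24, 25, 26, 27, 28, 29, 30]
def F : List ℕ := [9, 10, 20, 21, 22, 23, 24, 25, 26, 27, 28, 29, 30]

/-- the environment -/
structure En (n N m J : ℕ) (Ed : List (ℕ × ℕ)) (x : Data) : Prop where
  r1 : x.reg 1 = n
  r2 : x.reg 2 = N + m
  r3 : x.reg 3 = N
  r5 : x.reg 5 = m
  r7 : x.reg 7 = J
  r8 : x.reg 8 = n + 1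
  r15 : x.reg 15 = 4 + m + m
  inp : ∀ t < m, x.mem (4 + 2 * t) = (Ed.getD t (0, 0)).1 ∧ x.mem (4 + 2 * t + 1) = (Ed.getD t (0, 0)).2
  ptr : 8 + m + m ≤ x.reg 17

section

variable {n N m J : ℕ} {Ed : List (ℕ × ℕ)}

lemma En.app {G : List ℕ} {s t : Data} {L : List (List ℕ)} (h : En n N m J Ed s) (h' : App G s t L)
    (hG : ∀ r ∈ [1, 2, 3, 5, 7, 8, 15], r ∉ G) : En n N m J Ed t where
  r1 := (h'.reg 1 (hG 1 (by simp)) (by decide) (by decide)).trans h.r1
  r2 := (h'.reg 2 (hG 2 (by simp)) (by decide) (by decide)).trans h.r2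
  r3 := (h'.reg 3 (hG 3 (by simp)) (by decide) (by decide)).trans h.r3
  r5 := (h'.reg 5 (hG 5 (by simp)) (by decide) (by decide)).trans h.r5
  r7 := (h'.reg 7 (hG 7 (by simp)) (by decide) (by decide)).trans h.r7
  r8 := (h'.reg 8 (hG 8 (by simp)) (by decide) (by decide)).trans h.r8
  r15 := (h'.reg 15 (hG 15 (by simp)) (by decide) (by decide)).trans h.r15
  inp := fun a ha => by
    have hp := h.ptr
    rw [h'.old _ (by omega), h'.old _ (by omega)]
    exact h.inp a ha
  ptr := by rw [h'.ptr]; have := h.ptr; omega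

lemma En.upd {s : Data} {i v : ℕ} (h : En n N m J Ed s) (hi : i ∉ [1, 2, 3, 5, 7, 8, 15, 17]) :
    En n N m J Ed (SCM.upd s i v) := by
  simp only [List.mem_cons, List.not_mem_nil, or_false, not_or] at hi
  obtain ⟨i1, i2, i3, i4, i5, i6, i7, i8⟩ := hi
  exact ⟨(upd_ne _ _ (Ne.symm i1)).trans h.r1, (upd_ne _ _ (Ne.symm i2)).trans h.r2,
    (upd_ne _ _ (Ne.symm i3)).trans h.r3, (upd_ne _ _ (Ne.symm i4)).trans h.r5,
    (upd_ne _ _ (Ne.symm i5)).trans h.r7, (upd_ne _ _ (Ne.symm i6)).trans h.r8,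
    (upd_ne _ _ (Ne.symm i7)).trans h.r15, h.inp, by rw [upd_ne _ _ (Ne.symm i8)]; exact h.ptr⟩

/-- the two records of an edge -/
def fe (n N : ℕ) (i : ℕ) (e : ℕ × ℕ) : List (ℕ × ℕ × ℕ) :=
  [(lv n N (i + 1) e.1, lv n N i e.2, lv n N 0 e.1), (lv n N (i + 1) e.2, lv n N i e.1, lv n N 0 e.2)]

/-- the body of the loop over the edges -/
lemma edgeBody {w i k : ℕ} {s : Data} {Q : Data → Prop} (en : En n N m J Ed s) (hk : k < m)
    (hlen : Ed.length = m) (hE : ∀ e ∈ Ed, e.1 < N ∧ e.2 < N)
    (r9 : s.reg 9 = n + 1 + (i + 1) * N) (r10 : s.reg 10 = n + 1 + i * N)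
    (r24 : s.reg 24 = 4 + 2 * k) (hU : n + 1 + (i + 2) * N + 10 < 2 ^ w) (hm : 4 + m + m + 10 < 2 ^ w)
    (hp : s.reg 17 + 6 < 2 ^ w) (hc : s.reg 18 + 2 < 2 ^ w)
    (hQ : ∀ t, App [24, 25, 26] s t ((fe n N i (Ed.getD k (0, 0))).map rc) →
      t.reg 24 = 4 + 2 * (k + 1) → Q t) :
    HT w (blk [
      set 25 (.ld (.r 24)), set 26 (.ld (.add (.r 24) (.c 1))),
      recd [.add (.r 9) (.r 25), .add (.r 10) (.r 26), .add (.r 8) (.r 25)],
      recd [.add (.r 9) (.r 26), .add (.r 10) (.r 25), .add (.r 8) (.r 26)],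
      set 24 (.add (.r 24) (.c 2))]) s 74 Q := by
  rcases hxy : Ed.getD k (0, 0) with ⟨x, y⟩
  rw [hxy] at hQ
  have hx : x < N ∧ y < N := by
    have h1 : Ed.getD k (0, 0) ∈ Ed := by
      rw [List.getD_eq_getElem _ _ (by omega)]
      exact List.getElem_mem _
    rw [hxy] at h1
    exact hE _ h1
  have h2N : (i + 2) * N = (i + 1) * N + N := by ring
  have h1N : (i + 1) * N = i * N + N := by ring
  obtain ⟨hi1, hi2⟩ := en.inp k hk
  rw [hxy] at hi1 hi2
  simp only at hi1 hi2
  refine HT.setS (T2 := 71) (by omega) rfl (by decide) trivial ?_ (show 2 + 1 + 71 ≤ 74 by norm_num)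
  have v1 : (E.ld (.r 24)).val s = x := by
    simp only [E.val, r24, hi1]
  rw [v1]
  refine HT.setS (T2 := 66) (by omega) rfl (by decide) ⟨trivial, by simp only [E.ok]; omega, ?_⟩ ?_
    (show 4 + 1 + 66 ≤ 71 by norm_num)
  · simp only [E.val]
    rw [upd_ne _ _ (by decide), r24]
    omega
  have v2 : (E.ld (.add (.r 24) (.c 1))).val (upd s 25 x) = y := by
    simp only [E.val, upd_mem]
    rw [upd_ne _ _ (by decide), r24, hi2]
  rw [v2]
  set u := upd (upd s 25 x) 26 y with hu
  have ur : ∀ r, r ≠ 25 → r ≠ 26 → u.reg r = s.reg r := fun r h1 h2 => by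
    rw [hu, upd_ne _ _ h2, upd_ne _ _ h1]
  have u25 : u.reg 25 = x := by rw [hu, upd_ne _ _ (by decide), upd_self]
  have u26 : u.reg 26 = y := by rw [hu, upd_self]
  have u9 := (ur 9 (by decide) (by decide)).trans r9
  have u10 := (ur 10 (by decide) (by decide)).trans r10
  have u8 := (ur 8 (by decide) (by decide)).trans en.r8
  have u17 := ur 17 (by decide) (by decide)
  have u18 := ur 18 (by decide) (by decide)
  refine HT.seq (T1 := 31) (T2 := 35)
    (R := fun t => App [] u t [[lv n N (i + 1) x, lv n N i y, lv n N 0 x]]) (HT.recd ?_ ?_ ?_ ?_ ?_) ?_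
    (by norm_num)
  · intro a ha
    simp only [List.mem_cons, List.not_mem_nil, or_false] at ha
    rcases ha with rfl | rfl | rfl
    · refine ⟨rfl, rfl, by decide, trivial, trivial, ?_⟩
      simp only [E.val, u9, u25]
      omega
    · refine ⟨rfl, rfl, by decide, trivial, trivial, ?_⟩
      simp only [E.val, u10, u26]
      omega
    · refine ⟨rfl, rfl, by decide, trivial, trivial, ?_⟩
      simp only [E.val, u8, u25]
      omega
  · simp only [List.length_cons, List.length_nil]
    omega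
  · omega
  · intro t ht
    have e1 : [E.add (.r 9) (.r 25), E.add (.r 10) (.r 26), E.add (.r 8) (.r 25)].map (E.val u) =
        [lv n N (i + 1) x, lv n N i y, lv n N 0 x] := by
      simp only [List.map_cons, List.map_nil, E.val, u9, u10, u8, u25, u26, lv, Nat.zero_mul,
        Nat.add_zero]
    rw [e1] at ht
    exact ht
  · decide
  intro t1 ht1
  have t1r : ∀ r, r ≠ 17 → r ≠ 18 → t1.reg r = u.reg r := fun r h1 h2 => ht1.reg r (by simp) h1 h2
  have t17 := ht1.ptr
  have t18 := ht1.cnt
  simp only [List.flatten_cons, List.flatten_nil, List.append_nil, List.length_cons,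
    List.length_nil] at t17 t18
  have t25 := (t1r 25 (by decide) (by decide)).trans u25
  have t26 := (t1r 26 (by decide) (by decide)).trans u26
  have t9 := (t1r 9 (by decide) (by decide)).trans u9
  have t10 := (t1r 10 (by decide) (by decide)).trans u10
  have t8 := (t1r 8 (by decide) (by decide)).trans u8
  refine HT.seq (T1 := 31) (T2 := 4)
    (R := fun t => App [] t1 t [[lv n N (i + 1) y, lv n N i x, lv n N 0 y]]) (HT.recd ?_ ?_ ?_ ?_ ?_) ?_
    (by norm_num)
  · intro a ha
    simp only [List.mem_cons, List.not_mem_nil, or_false] at ha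
    rcases ha with rfl | rfl | rfl
    · refine ⟨rfl, rfl, by decide, trivial, trivial, ?_⟩
      simp only [E.val, t9, t26]
      omega
    · refine ⟨rfl, rfl, by decide, trivial, trivial, ?_⟩
      simp only [E.val, t10, t25]
      omega
    · refine ⟨rfl, rfl, by decide, trivial, trivial, ?_⟩
      simp only [E.val, t8, t26]
      omega
  · simp only [List.length_cons, List.length_nil]
    omega
  · omega
  · intro t ht
    have e1 : [E.add (.r 9) (.r 26), E.add (.r 10) (.r 25), E.add (.r 8) (.r 26)].map (E.val t1) =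
        [lv n N (i + 1) y, lv n N i x, lv n N 0 y] := by
      simp only [List.map_cons, List.map_nil, E.val, t9, t10, t8, t25, t26, lv, Nat.zero_mul,
        Nat.add_zero]
    rw [e1] at ht
    exact ht
  · decide
  intro t2 ht2
  have t2r : ∀ r, r ≠ 17 → r ≠ 18 → r ≠ 25 → r ≠ 26 → t2.reg r = s.reg r := fun r h1 h2 h3 h4 => by
    rw [ht2.reg r (by simp) h1 h2, t1r r h1 h2, ur r h3 h4]
  have t24 := (t2r 24 (by decide) (by decide) (by decide) (by decide)).trans r24
  refine HT.setS (T2 := 0) (by omega) rfl (by decide) ⟨trivial, by simp only [E.ok]; omega, ?_⟩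
    (HT.skip ?_) (show 3 + 1 + 0 ≤ 4 by norm_num)
  · simp only [E.val, t24]
    omega
  have v3 : (E.add (.r 24) (.c 2)).val t2 = 4 + 2 * (k + 1) := by
    simp only [E.val, t24]
    ring
  rw [v3]
  refine hQ _ ?_ (upd_self _ _ _)
  have h1 : App [24, 25, 26] u t2 ([[lv n N (i + 1) x, lv n N i y, lv n N 0 x]] ++
      [[lv n N (i + 1) y, lv n N i x, lv n N 0 y]]) := (ht1.trans ht2).wk (by simp)
  have h2 : App [24, 25, 26] s t2 ([[lv n N (i + 1) x, lv n N i y, lv n N 0 x]] ++
      [[lv n N (i + 1) y, lv n N i x, lv n N 0 y]]) :=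
    (h1.upd0 (by decide) (by decide) (by decide)).upd0 (by decide) (by decide) (by decide)
  exact h2.upd _ (by decide) (by decide) (by decide)

/-- first loop of the body -/
def b1P : Stmt := forr 22 23 (.r 3) (recd [.add (.r 9) (.r 22), .add (.r 10) (.r 22), .r 1])

lemma b1 {w i : ℕ} {s : Data} {Q : Data → Prop} (en : En n N m J Ed s)
    (r9 : s.reg 9 = n + 1 + (i + 1) * N) (r10 : s.reg 10 = n + 1 + i * N)
    (hU : n + 1 + (i + 1) * N + N + 10 < 2 ^ w)
    (hp : s.reg 17 + 3 * N < 2 ^ w) (hc : s.reg 18 + N < 2 ^ w)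
    (hQ : ∀ t, App [22, 23] s t
      ((List.range N).map fun v => [lv n N (i + 1) v, lv n N i v, n]) → Q t) :
    HT w b1P s (N * 39 + 6) Q := by
  have h1N : (i + 1) * N = i * N + N := by ring
  refine loop1 N (fun v => [lv n N (i + 1) v, lv n N i v, n]) [22, 23] (by decide) (by decide)
      (by decide) (by decide) (by decide) (by decide) (by decide) (by decide) (by decide) rfl
      (by decide) trivial en.r3 hp hc (fun _ => rfl) ?_ ?_ hQ
  · intro j hj s' hs' h22
    have g9 := (hs' 9 (by decide) (by decide) (by decide)).trans r9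
    have g10 := (hs' 10 (by decide) (by decide) (by decide)).trans r10
    have g1 := (hs' 1 (by decide) (by decide) (by decide)).trans en.r1
    clear hp hc r9 r10 hs'
    refine ⟨?_, ?_⟩
    · intro a ha
      simp only [List.mem_cons, List.not_mem_nil, or_false] at ha
      rcases ha with rfl | rfl | rfl
      · refine ⟨rfl, rfl, by decide, trivial, trivial, ?_⟩
        simp only [E.val, g9, h22]
        omega
      · refine ⟨rfl, rfl, by decide, trivial, trivial, ?_⟩
        simp only [E.val, g10, h22]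
        omega
      · exact ⟨rfl, rfl, by decide, trivial⟩
    · simp only [List.map_cons, List.map_nil, E.val, g9, g10, h22, g1, lv]
  · have h1 : E.cost [E.add (.r 9) (.r 22), E.add (.r 10) (.r 22), E.r 1] = 29 := rfl
    have h2 : E.size (.r 3) = 1 := rfl
    rw [h1, h2]

/-- second loop of the body -/
def b3P : Stmt := forr 22 23 (.r 5) (blk [
      set 25 (.ld (.r 24)), set 26 (.ld (.add (.r 24) (.c 1))),
      recd [.add (.r 9) (.r 25), .add (.r 10) (.r 26), .add (.r 8) (.r 25)],
      recd [.add (.r 9) (.r 26), .add (.r 10) (.r 25), .add (.r 8) (.r 26)],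
      set 24 (.add (.r 24) (.c 2))])

lemma b3 {w i : ℕ} {s : Data} {Q : Data → Prop} (en : En n N m J Ed s)
    (hlen : Ed.length = m) (hE : ∀ e ∈ Ed, e.1 < N ∧ e.2 < N)
    (r9 : s.reg 9 = n + 1 + (i + 1) * N) (r10 : s.reg 10 = n + 1 + i * N) (r24 : s.reg 24 = 4)
    (hU : n + 1 + (i + 2) * N + 10 < 2 ^ w) (hm : 4 + m + m + 10 < 2 ^ w)
    (hp : s.reg 17 + 6 * m < 2 ^ w) (hc : s.reg 18 + 2 * m < 2 ^ w)
    (hQ : ∀ t, App [22, 23, 24, 25, 26] s t (Ed.flatMap fun e => (fe n N i e).map rc) → Q t) :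
    HT w b3P s (m * 84 + 6) Q := by
  refine HT.forApp m 74 [22, 23, 24, 25, 26] (fun k => (fe n N i (Ed.getD k (0, 0))).map rc)
      (fun k t => t.reg 24 = 4 + 2 * k) (by decide) (by decide) (by decide) (by decide)
      (by decide) (by decide) (by decide) (by decide) (by decide) rfl (by decide) trivial en.r5
      (by omega) ?_ ?_ (by simp only [E.size]; omega) ?_
  · rw [upd_ne _ _ (by decide), upd_ne _ _ (by decide), r24]
  · intro j hj s' h1 h24 h3 h4
    have l2 : ((List.range j).flatMap fun k => (fe n N i (Ed.getD k (0, 0))).map rc).flatten.length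
        ≤ j * 6 := flen _ 6 j fun k _ => by rw [flat3]; rfl
    have l3 : ((List.range j).flatMap fun k => (fe n N i (Ed.getD k (0, 0))).map rc).length
        ≤ j * 2 := nlen _ 2 j fun k _ => by rw [List.length_map]; rfl
    have g17 := h1.ptr
    have g18 := h1.cnt
    refine edgeBody (en.app h1 (by decide)) hj hlen hE
      ((h1.reg 9 (by decide) (by decide) (by decide)).trans r9)
      ((h1.reg 10 (by decide) (by decide) (by decide)).trans r10) h24 hU hm (by omega) (by omega) ?_
    intro t ht ht24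
    refine ⟨ht.wk (by decide), ?_, ?_, ?_⟩
    · rw [ht.reg 22 (by decide) (by decide) (by decide), h3]
    · rw [ht.reg 23 (by decide) (by decide) (by decide), h4]
    · rw [upd_ne _ _ (by decide), upd_ne _ _ (by decide), ht24]
  · intro s' h1 _
    have h3 := flatMap_range_getD Ed (0, 0) (fun e => (fe n N i e).map rc)
    rw [hlen] at h3
    rw [h3] at h1
    exact hQ s' h1

/-- third loop of the body -/
def b5P : Stmt := forr 22 23 (.r 20) (blk [
      forr 29 30 (.r 3) (recd [.add (.r 9) (.r 29), .add (.r 27) (.r 29), .add (.r 28) (.r 29)]),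
      set 27 (.add (.r 27) (.r 3)), set 28 (.sub (.r 28) (.r 3))])

/-- the records written by the inner loop -/
def g5i (n N i a : ℕ) : List (List ℕ) :=
  (List.range N).map fun v => [lv n N (i + 1) v, lv n N (a + 1) v, lv n N (i - a) v]

lemma g5i_flat (n N i a : ℕ) : (g5i n N i a).flatten.length = 3 * N := by
  have h3 := flat3 ((List.range N).map fun v => (lv n N (i + 1) v, lv n N (a + 1) v, lv n N (i - a) v))
  rw [List.map_map, List.length_map, List.length_range] at h3
  exact h3

lemma g5i_len (n N i a : ℕ) : (g5i n N i a).length = N := by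
  rw [g5i, List.length_map, List.length_range]

lemma b5in {w i j : ℕ} {s : Data} {Q : Data → Prop} (r3 : s.reg 3 = N) (hj : j < i)
    (r9 : s.reg 9 = n + 1 + (i + 1) * N) (r27 : s.reg 27 = n + 1 + (j + 1) * N)
    (r28 : s.reg 28 = n + 1 + (i - j) * N) (hU : n + 1 + (i + 2) * N + 10 < 2 ^ w)
    (hp : s.reg 17 + 3 * N < 2 ^ w) (hc : s.reg 18 + N < 2 ^ w)
    (hQ : ∀ t, App [29, 30] s t (g5i n N i j) → Q t) :
    HT w (forr 29 30 (.r 3) (recd [.add (.r 9) (.r 29), .add (.r 27) (.r 29), .add (.r 28) (.r 29)]))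
      s (N * 41 + 6) Q := by
  have hj1 : (j + 1) * N ≤ (i + 2) * N := Nat.mul_le_mul_right N (by omega)
  have hj2 : (i - j) * N ≤ i * N := Nat.mul_le_mul_right N (Nat.sub_le _ _)
  have hj4 : (j + 1) * N ≤ i * N := Nat.mul_le_mul_right N hj
  have hj3 : (i + 2) * N = i * N + N + N := by ring
  have hj5 : (i + 1) * N = i * N + N := by ring
  refine loop1 N (fun v => [lv n N (i + 1) v, lv n N (j + 1) v, lv n N (i - j) v]) [29, 30] (by decide)
        (by decide) (by decide) (by decide) (by decide) (by decide) (by decide) (by decide)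
        (by decide) rfl (by decide) trivial r3 hp hc (fun _ => rfl) ?_ ?_ hQ
  · intro v hv s'' hs'' h29
    have g9 := (hs'' 9 (by decide) (by decide) (by decide)).trans r9
    have g27 := (hs'' 27 (by decide) (by decide) (by decide)).trans r27
    have g28 := (hs'' 28 (by decide) (by decide) (by decide)).trans r28
    clear hp hc r9 r27 r28 hs''
    refine ⟨?_, ?_⟩
    · intro a ha
      simp only [List.mem_cons, List.not_mem_nil, or_false] at ha
      rcases ha with rfl | rfl | rfl
      · refine ⟨rfl, rfl, by decide, trivial, trivial, ?_⟩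
        simp only [E.val, g9, h29]
        omega
      · refine ⟨rfl, rfl, by decide, trivial, trivial, ?_⟩
        simp only [E.val, g27, h29]
        omega
      · refine ⟨rfl, rfl, by decide, trivial, trivial, ?_⟩
        simp only [E.val, g28, h29]
        omega
    · simp only [List.map_cons, List.map_nil, E.val, g9, g27, g28, h29, lv]
  · have h1 : E.cost [E.add (.r 9) (.r 29), E.add (.r 27) (.r 29), E.add (.r 28) (.r 29)] = 31 := rfl
    have h2 : E.size (.r 3) = 1 := rfl
    rw [h1, h2]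

lemma b5 {w i : ℕ} {s : Data} {Q : Data → Prop} (en : En n N m J Ed s) (r20 : s.reg 20 = i)
    (hi : i < 2 ^ w)
    (r9 : s.reg 9 = n + 1 + (i + 1) * N) (r27 : s.reg 27 = n + 1 + N) (r28 : s.reg 28 = n + 1 + i * N)
    (hU : n + 1 + (i + 2) * N + 10 < 2 ^ w)
    (hp : s.reg 17 + 3 * (i * N) < 2 ^ w) (hc : s.reg 18 + i * N < 2 ^ w)
    (hQ : ∀ t, App [22, 23, 27, 28, 29, 30] s t ((List.range i).flatMap (g5i n N i)) → Q t) :
    HT w b5P s (i * (N * 41 + 24) + 6) Q := by
  refine HT.forApp i (N * 41 + 14) [22, 23, 27, 28, 29, 30] (g5i n N i)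
      (fun a t => t.reg 27 = n + 1 + (a + 1) * N ∧ t.reg 28 = n + 1 + (i - a) * N) (by decide)
      (by decide) (by decide) (by decide) (by decide) (by decide) (by decide) (by decide)
      (by decide) rfl (by decide) trivial r20 hi ?_ ?_ ?_ (fun s' h1 _ => hQ s' h1)
  · refine ⟨?_, ?_⟩
    · rw [upd_ne _ _ (by decide), upd_ne _ _ (by decide), r27]
      ring
    · rw [upd_ne _ _ (by decide), upd_ne _ _ (by decide), r28, Nat.sub_zero]
  · rintro j hj s' h1 ⟨h27, h28⟩ h3 h4
    have l7 : ((List.range j).flatMap (g5i n N i)).flatten.length ≤ j * (3 * N) :=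
      flen _ _ j fun k _ => (g5i_flat n N i k).le
    have l8 : ((List.range j).flatMap (g5i n N i)).length ≤ j * N :=
      nlen _ _ j fun k _ => (g5i_len n N i k).le
    have g17 := h1.ptr
    have g18 := h1.cnt
    have hjN : (j + 1) * N ≤ i * N := Nat.mul_le_mul_right N hj
    have hjN2 : (j + 1) * N = j * N + N := by ring
    have hjN3 : j * (3 * N) = 3 * (j * N) := by ring
    have k9 := (h1.reg 9 (by decide) (by decide) (by decide)).trans r9
    have k3 := (h1.reg 3 (by decide) (by decide) (by decide)).trans en.r3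
    refine HT.seq (T1 := N * 41 + 6) (T2 := 8) (R := fun t => App [29, 30] s' t (g5i n N i j))
      (b5in k3 hj k9 h27 h28 hU (by omega) (by omega) (fun t ht => ht)) ?_ le_rfl
    clear g17 g18 l7 l8 hp hc
    intro t ht
    have m27 := (ht.reg 27 (by decide) (by decide) (by decide)).trans h27
    have m28 := (ht.reg 28 (by decide) (by decide) (by decide)).trans h28
    have m22 := (ht.reg 22 (by decide) (by decide) (by decide)).trans h3
    have m23 := (ht.reg 23 (by decide) (by decide) (by decide)).trans h4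
    have m3 := (ht.reg 3 (by decide) (by decide) (by decide)).trans k3
    have hb : n + 1 + (j + 1) * N + N < 2 ^ w := by
      have hj3 : (i + 2) * N = i * N + N + N := by ring
      clear m27 m28 m22 m23 m3 k3 k9 h27 h28 h3 h4 r20 r9 r27 r28 hjN2 hjN3
      omega
    refine HT.setS (T2 := 4) (by omega) rfl (by decide) ⟨trivial, trivial, ?_⟩ ?_
      (show 3 + 1 + 4 ≤ 8 by norm_num)
    · simp only [E.val, m27, m3]
      exact hb
    refine HT.setS (T2 := 0) (by omega) rfl (by decide) ⟨trivial, trivial⟩ (HT.skip ?_)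
      (show 3 + 1 + 0 ≤ 4 by norm_num)
    refine ⟨?_, ?_, ?_, ?_, ?_⟩
    · exact ((ht.wk (by decide)).upd _ (by decide) (by decide) (by decide)).upd _ (by decide)
        (by decide) (by decide)
    · rw [upd_ne _ _ (by decide), upd_ne _ _ (by decide), m22]
    · rw [upd_ne _ _ (by decide), upd_ne _ _ (by decide), m23]
    · rw [upd_ne _ _ (by decide), upd_ne _ _ (by decide), upd_ne _ _ (by decide), upd_self]
      simp only [E.val, m27, m3]
      ring
    · rw [upd_ne _ _ (by decide), upd_ne _ _ (by decide), upd_self]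
      have e28 : (E.sub (.r 28) (.r 3)).val (upd t 27 ((E.add (.r 27) (.r 3)).val t)) =
          n + 1 + (i - j) * N - N := by
        simp only [E.val]
        rw [upd_ne _ _ (by decide), upd_ne _ _ (by decide), m28, m3]
      have e29 : (i - j) * N = (i - (j + 1)) * N + N := by
        have : i - j = (i - (j + 1)) + 1 := by clear * - hj; omega
        rw [this]
        ring
      rw [e28, e29, ← Nat.add_assoc, Nat.add_sub_cancel]
  · have h2 : E.size (.r 20) = 1 := rfl
    rw [h2, Nat.add_assoc (N * 41) 14 10]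

/-- the body of the main loop -/
def bodyP : Stmt := blk [b1P, set 24 (.c 4), b3P, set 27 (.add (.r 8) (.r 3)), set 28 (.r 10), b5P,
    set 10 (.r 9), set 9 (.add (.r 9) (.r 3))]

lemma mainBody {w i : ℕ} {s : Data} {Q : Data → Prop} (en : En n N m J Ed s)
    (hlen : Ed.length = m) (hE : ∀ e ∈ Ed, e.1 < N ∧ e.2 < N) (r20 : s.reg 20 = i)
    (r9 : s.reg 9 = n + 1 + (i + 1) * N) (r10 : s.reg 10 = n + 1 + i * N)
    (hU : n + 1 + (i + 2) * N + 10 < 2 ^ w) (hm : 4 + m + m + 10 < 2 ^ w) (hi : i < 2 ^ w)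
    (hp : s.reg 17 + 3 * (N + 2 * m + i * N) < 2 ^ w) (hc : s.reg 18 + (N + 2 * m + i * N) < 2 ^ w)
    (hQ : ∀ t, App F' s t ((rules2i n N Ed i).map rc) → t.reg 9 = n + 1 + (i + 1 + 1) * N →
      t.reg 10 = n + 1 + (i + 1) * N → Q t) :
    HT w bodyP s (N * 39 + m * 84 + i * (N * 41 + 24) + 40) Q := by
  have h2N : (i + 2) * N = (i + 1) * N + N := by ring
  have h1N : (i + 1) * N = i * N + N := by ring
  -- b1
  refine HT.seq (T1 := N * 39 + 6) (T2 := m * 84 + i * (N * 41 + 24) + 34)
    (R := fun t => App [22, 23] s t ((List.range N).map fun v => [lv n N (i + 1) v, lv n N i v, n]))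
    (b1 en r9 r10 (by omega) (by omega) (by omega) (fun t ht => ht)) ?_ (by omega)
  intro t1 ht1
  have en1 : En n N m J Ed t1 := en.app ht1 (by decide)
  have p17 := ht1.ptr
  have p18 := ht1.cnt
  have l1 : ((List.range N).map fun v => [lv n N (i + 1) v, lv n N i v, n]).flatten.length =
      3 * N := by
    have h3 := flat3 ((List.range N).map fun v => (lv n N (i + 1) v, lv n N i v, n))
    rw [List.map_map, List.length_map, List.length_range] at h3
    exact h3
  rw [l1] at p17
  rw [List.length_map, List.length_range] at p18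
  have q9 := (ht1.reg 9 (by decide) (by decide) (by decide)).trans r9
  have q10 := (ht1.reg 10 (by decide) (by decide) (by decide)).trans r10
  have q20 := (ht1.reg 20 (by decide) (by decide) (by decide)).trans r20
  have hp1 : t1.reg 17 + 3 * (2 * m + i * N) < 2 ^ w := by omega
  have hc1 : t1.reg 18 + (2 * m + i * N) < 2 ^ w := by omega
  clear p17 p18 l1 r9 r10 r20 hp hc
  -- b2
  refine HT.setS (T2 := m * 84 + i * (N * 41 + 24) + 32) (by omega) rfl (by decide)
    (by simp only [E.ok]; omega) ?_ (by simp only [E.size]; omega)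
  have e4 : (E.c 4).val t1 = 4 := rfl
  rw [e4]
  clear e4
  obtain ⟨u1, hu1⟩ : ∃ u, u = upd t1 24 4 := ⟨_, rfl⟩
  rw [← hu1]
  have u1r : ∀ r, r ≠ 24 → u1.reg r = t1.reg r := fun r h => by rw [hu1, upd_ne _ _ h]
  have en2 : En n N m J Ed u1 := by rw [hu1]; exact en1.upd (by decide)
  have w24 : u1.reg 24 = 4 := by rw [hu1, upd_self]
  have app1 : App F' s u1 ((List.range N).map fun v => [lv n N (i + 1) v, lv n N i v, n]) := by
    rw [hu1]
    exact (ht1.wk (by decide)).upd _ (by decide) (by decide) (by decide)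
  clear hu1
  have w9 := (u1r 9 (by decide)).trans q9
  have w10 := (u1r 10 (by decide)).trans q10
  have w20 := (u1r 20 (by decide)).trans q20
  rw [← u1r 17 (by decide)] at hp1
  rw [← u1r 18 (by decide)] at hc1
  clear u1r q9 q10 q20 en1 ht1
  -- b3
  refine HT.seq (T1 := m * 84 + 6) (T2 := i * (N * 41 + 24) + 26)
    (R := fun t => App [22, 23, 24, 25, 26] u1 t (Ed.flatMap fun e => (fe n N i e).map rc))
    (b3 en2 hlen hE w9 w10 w24 hU hm (by omega) (by omega) (fun t ht => ht)) ?_ (by omega)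
  intro t2 ht2
  have en3 : En n N m J Ed t2 := en2.app ht2 (by decide)
  have x17 := ht2.ptr
  have x18 := ht2.cnt
  have l4 : (Ed.flatMap fun e => (fe n N i e).map rc).flatten.length ≤ m * 6 := by
    have h3 := flatMap_range_getD Ed (0, 0) (fun e => (fe n N i e).map rc)
    rw [← h3, hlen]
    exact flen _ 6 m fun k _ => by rw [flat3]; rfl
  have l5 : (Ed.flatMap fun e => (fe n N i e).map rc).length ≤ m * 2 := by
    have h3 := flatMap_range_getD Ed (0, 0) (fun e => (fe n N i e).map rc)
    rw [← h3, hlen]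
    exact nlen _ 2 m fun k _ => by rw [List.length_map]; rfl
  have hp2 : t2.reg 17 + 3 * (i * N) < 2 ^ w := by omega
  have hc2 : t2.reg 18 + i * N < 2 ^ w := by omega
  clear x17 x18 l4 l5 hp1 hc1
  have y9 := (ht2.reg 9 (by decide) (by decide) (by decide)).trans w9
  have y10 := (ht2.reg 10 (by decide) (by decide) (by decide)).trans w10
  have y20 := (ht2.reg 20 (by decide) (by decide) (by decide)).trans w20
  have app2 := app1.trans (ht2.wk (F' := F') (by decide))
  clear w9 w10 w20 w24 ht2 app1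
  -- b4
  refine HT.setS (T2 := i * (N * 41 + 24) + 22) (by omega) rfl (by decide) ⟨trivial, trivial, ?_⟩ ?_
    (by simp only [E.size]; omega)
  · simp only [E.val, en3.r8, en3.r3]
    omega
  have v27 : (E.add (.r 8) (.r 3)).val t2 = n + 1 + N := by simp only [E.val, en3.r8, en3.r3]
  rw [v27]
  clear v27
  refine HT.setS (T2 := i * (N * 41 + 24) + 20) (by omega) rfl (by decide) trivial ?_
    (by simp only [E.size]; omega)
  have v28 : (E.r 10).val (upd t2 27 (n + 1 + N)) = n + 1 + i * N := by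
    simp only [E.val]
    rw [upd_ne _ _ (by decide), y10]
  rw [v28]
  clear v28
  obtain ⟨t3, ht3⟩ : ∃ u, u = upd (upd t2 27 (n + 1 + N)) 28 (n + 1 + i * N) := ⟨_, rfl⟩
  rw [← ht3]
  have en4 : En n N m J Ed t3 := by rw [ht3]; exact (en3.upd (by decide)).upd (by decide)
  have t3r : ∀ r, r ≠ 27 → r ≠ 28 → t3.reg r = t2.reg r := fun r h1 h2 => by
    rw [ht3, upd_ne _ _ h2, upd_ne _ _ h1]
  have t27 : t3.reg 27 = n + 1 + N := by rw [ht3, upd_ne _ _ (by decide), upd_self]
  have t28 : t3.reg 28 = n + 1 + i * N := by rw [ht3, upd_self]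
  have app3 : App F' s t3 (((List.range N).map fun v => [lv n N (i + 1) v, lv n N i v, n]) ++
      (Ed.flatMap fun e => (fe n N i e).map rc)) := by
    rw [ht3]
    exact (app2.upd _ (by decide) (by decide) (by decide)).upd _ (by decide) (by decide) (by decide)
  have z9 := (t3r 9 (by decide) (by decide)).trans y9
  have z20 := (t3r 20 (by decide) (by decide)).trans y20
  rw [← t3r 17 (by decide) (by decide)] at hp2
  rw [← t3r 18 (by decide) (by decide)] at hc2
  clear ht3 t3r y9 y10 y20 app2 en3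
  -- b5
  refine HT.seq (T1 := i * (N * 41 + 24) + 6) (T2 := 14)
    (R := fun t => App [22, 23, 27, 28, 29, 30] t3 t ((List.range i).flatMap (g5i n N i)))
    (b5 en4 z20 hi z9 t27 t28 hU hp2 hc2 (fun t ht => ht)) ?_ (by omega)
  intro t4 ht4
  have f9 := (ht4.reg 9 (by decide) (by decide) (by decide)).trans z9
  have f3 := (ht4.reg 3 (by decide) (by decide) (by decide)).trans en4.r3
  have app4 := app3.trans (ht4.wk (F' := F') (by decide))
  clear ht4 z9 z20 t27 t28 hp2 hc2
  -- b6
  refine HT.setS (T2 := 12) (by omega) rfl (by decide) trivial ?_ (show 1 + 1 + 12 ≤ 14 by norm_num)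
  have e9 : (E.r 9).val t4 = n + 1 + (i + 1) * N := f9
  rw [e9]
  have e10 : (E.add (.r 9) (.r 3)).val (upd t4 10 (n + 1 + (i + 1) * N)) = n + 1 + (i + 1) * N + N := by
    simp only [E.val]
    rw [upd_ne _ _ (by decide), upd_ne _ _ (by decide), f9, f3]
  refine HT.setS (T2 := 0) (by omega) rfl (by decide) ⟨trivial, trivial, ?_⟩ (HT.skip ?_)
    (show 3 + 1 + 0 ≤ 12 by norm_num)
  · have e11 : (E.r 9).val (upd t4 10 (n + 1 + (i + 1) * N)) +
        (E.r 3).val (upd t4 10 (n + 1 + (i + 1) * N)) = n + 1 + (i + 1) * N + N := e10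
    rw [e11]
    clear e9 e10 e11 f9 f3
    omega
  rw [e10]
  refine hQ _ ?_ ?_ ?_
  · have a4 : (rules2i n N Ed i).map rc =
        (((List.range N).map fun v => [lv n N (i + 1) v, lv n N i v, n]) ++
        (Ed.flatMap fun e => (fe n N i e).map rc)) ++ ((List.range i).flatMap (g5i n N i)) := by
      simp only [rules2i, List.map_append, List.map_map, List.map_flatMap, List.append_assoc,
        Function.comp_def, rc, fe, List.map_cons, List.map_nil]
      rfl
    rw [a4]
    exact (app4.upd _ (by decide) (by decide) (by decide)).upd _ (by decide) (by decide) (by decide)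
  · rw [upd_self]
    ring
  · rw [upd_ne _ _ (by decide), upd_self]

/-! ### The other loops -/

lemma a1 {w : ℕ} {s : Data} {Q : Data → Prop} (r1 : s.reg 1 = n) (r8 : s.reg 8 = n + 1)
    (hU : n + 1 + n + 10 < 2 ^ w)
    (hp : s.reg 17 + 3 * n < 2 ^ w) (hc : s.reg 18 + n < 2 ^ w)
    (hQ : ∀ t, App [20, 21] s t ((List.range n).map fun v => [lv n N 0 v, v, n]) → Q t) :
    HT w (forr 20 21 (.r 1) (recd [.add (.r 8) (.r 20), .r 20, .r 1])) s (n * 37 + 6) Q := by
  refine loop1 n (fun v => [lv n N 0 v, v, n]) [20, 21] (by decide) (by decide)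
      (by decide) (by decide) (by decide) (by decide) (by decide) (by decide) (by decide) rfl
      (by decide) trivial r1 hp hc (fun _ => rfl) ?_ ?_ hQ
  · intro j hj s' hs' h20
    have g8 := (hs' 8 (by decide) (by decide) (by decide)).trans r8
    have g1 := (hs' 1 (by decide) (by decide) (by decide)).trans r1
    clear hp hc r1 r8 hs'
    refine ⟨?_, ?_⟩
    · intro a ha
      simp only [List.mem_cons, List.not_mem_nil, or_false] at ha
      rcases ha with rfl | rfl | rfl
      · refine ⟨rfl, rfl, by decide, trivial, trivial, ?_⟩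
        simp only [E.val, g8, h20]
        omega
      · exact ⟨rfl, rfl, by decide, trivial⟩
      · exact ⟨rfl, rfl, by decide, trivial⟩
    · simp only [List.map_cons, List.map_nil, E.val, g8, h20, g1, lv, Nat.zero_mul, Nat.add_zero]
  · have h1 : E.cost [E.add (.r 8) (.r 20), E.r 20, E.r 1] = 27 := rfl
    have h2 : E.size (.r 1) = 1 := rfl
    rw [h1, h2]

lemma a2 {w : ℕ} {s : Data} {Q : Data → Prop} (r1 : s.reg 1 = n) (r3 : s.reg 3 = N)
    (r8 : s.reg 8 = n + 1) (hU : n + 1 + N + 10 < 2 ^ w)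
    (hp : s.reg 17 + 3 * N < 2 ^ w) (hc : s.reg 18 + N < 2 ^ w)
    (hQ : ∀ t, App [20, 21] s t ((List.range N).map fun v => [lv n N 0 v, n, n]) → Q t) :
    HT w (forr 20 21 (.r 3) (recd [.add (.r 8) (.r 20), .r 1, .r 1])) s (N * 37 + 6) Q := by
  refine loop1 N (fun v => [lv n N 0 v, n, n]) [20, 21] (by decide) (by decide)
      (by decide) (by decide) (by decide) (by decide) (by decide) (by decide) (by decide) rfl
      (by decide) trivial r3 hp hc (fun _ => rfl) ?_ ?_ hQ
  · intro j hj s' hs' h20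
    have g8 := (hs' 8 (by decide) (by decide) (by decide)).trans r8
    have g1 := (hs' 1 (by decide) (by decide) (by decide)).trans r1
    clear hp hc r1 r8 r3 hs'
    refine ⟨?_, ?_⟩
    · intro a ha
      simp only [List.mem_cons, List.not_mem_nil, or_false] at ha
      rcases ha with rfl | rfl | rfl
      · refine ⟨rfl, rfl, by decide, trivial, trivial, ?_⟩
        simp only [E.val, g8, h20]
        omega
      · exact ⟨rfl, rfl, by decide, trivial⟩
      · exact ⟨rfl, rfl, by decide, trivial⟩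
    · simp only [List.map_cons, List.map_nil, E.val, g8, h20, g1, lv, Nat.zero_mul, Nat.add_zero]
  · have h1 : E.cost [E.add (.r 8) (.r 20), E.r 1, E.r 1] = 27 := rfl
    have h2 : E.size (.r 3) = 1 := rfl
    rw [h1, h2]

lemma rules2i_len (n N : ℕ) (Ed : List (ℕ × ℕ)) (i : ℕ) :
    (rules2i n N Ed i).length = N + 2 * Ed.length + i * N := by
  have h1 : ∀ L : List (ℕ × ℕ), (L.flatMap fun e : ℕ × ℕ =>
      [(lv n N (i + 1) e.1, lv n N i e.2, lv n N 0 e.1),
        (lv n N (i + 1) e.2, lv n N i e.1, lv n N 0 e.2)]).length = 2 * L.length := by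
    intro L
    induction L with
    | nil => rfl
    | cons a L ih =>
      rw [List.flatMap_cons, List.length_append, ih, List.length_cons]
      simp only [List.length_cons, List.length_nil]
      omega
  have h2 : ∀ k : ℕ, ((List.range k).flatMap fun a => (List.range N).map fun v =>
      (lv n N (i + 1) v, lv n N (a + 1) v, lv n N (i - a) v)).length = k * N := by
    intro k
    induction k with
    | zero => simp
    | succ k ih =>
      rw [List.range_succ, List.flatMap_append, List.length_append, ih]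
      simp
      ring
  rw [rules2i, List.length_append, List.length_append, h1, h2, List.length_map, List.length_range]
  omega

/-- the main loop -/
lemma a5 {w : ℕ} {s : Data} {Q : Data → Prop} (en : En n N m J Ed s)
    (hlen : Ed.length = m) (hE : ∀ e ∈ Ed, e.1 < N ∧ e.2 < N)
    (r9 : s.reg 9 = n + 1 + N) (r10 : s.reg 10 = n + 1)
    (hU : n + 1 + (J + 2) * N + 10 < 2 ^ w) (hm : 4 + m + m + 10 < 2 ^ w) (hJ : J < 2 ^ w)
    (hp : s.reg 17 + 3 * (J * (N + 2 * m + J * N)) < 2 ^ w)
    (hc : s.reg 18 + J * (N + 2 * m + J * N) < 2 ^ w)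
    (hQ : ∀ t, App F s t ((List.range J).flatMap fun i => (rules2i n N Ed i).map rc) →
      t.reg 9 = n + 1 + (J + 1) * N → t.reg 10 = n + 1 + J * N → Q t) :
    HT w (forr 20 21 (.r 7) bodyP) s (J * (N * 39 + m * 84 + J * (N * 41 + 24) + 50) + 6) Q := by
  obtain ⟨P, hP⟩ : ∃ P, P = N + 2 * m + J * N := ⟨_, rfl⟩
  rw [← hP] at hp hc
  have hflat : ∀ i, i ≤ J → ((rules2i n N Ed i).map rc).flatten.length ≤ 3 * P := by
    intro i hi
    rw [flat3, rules2i_len, hlen, hP]
    have := Nat.mul_le_mul_right N hi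
    omega
  have hlen2 : ∀ i, i ≤ J → ((rules2i n N Ed i).map rc).length ≤ P := by
    intro i hi
    rw [List.length_map, rules2i_len, hlen, hP]
    have := Nat.mul_le_mul_right N hi
    omega
  refine HT.forApp J (N * 39 + m * 84 + J * (N * 41 + 24) + 40) F
    (fun i => (rules2i n N Ed i).map rc)
    (fun i t => t.reg 9 = n + 1 + (i + 1) * N ∧ t.reg 10 = n + 1 + i * N) (by decide) (by decide)
    (by decide) (by decide) (by decide) (by decide) (by decide) (by decide) (by decide) rfl
    (by decide) trivial en.r7 hJ ?_ ?_ ?_ ?_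
  · refine ⟨?_, ?_⟩
    · rw [upd_ne _ _ (by decide), upd_ne _ _ (by decide), r9]
      ring
    · rw [upd_ne _ _ (by decide), upd_ne _ _ (by decide), r10]
      ring
  · rintro j hj s' h1 ⟨h9, h10⟩ h3 h4
    have l1 := flen (fun i => (rules2i n N Ed i).map rc) (3 * P) j fun k hk => hflat k (by omega)
    have l2 := nlen (fun i => (rules2i n N Ed i).map rc) P j fun k hk => hlen2 k (by omega)
    have g17 := h1.ptr
    have g18 := h1.cnt
    have e1 : (j + 1) * P ≤ J * P := Nat.mul_le_mul_right P hj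
    have e2 : (j + 1) * P = j * P + P := by ring
    have e3 : j * (3 * P) = 3 * (j * P) := by ring
    have e4 : j * N ≤ J * N := Nat.mul_le_mul_right N hj.le
    have e5 : (j + 2) * N ≤ (J + 2) * N := Nat.mul_le_mul_right N (by omega)
    have e6 : j * (N * 41 + 24) ≤ J * (N * 41 + 24) := Nat.mul_le_mul_right _ hj.le
    refine (mainBody (en.app h1 (by decide)) hlen hE h3 h9 h10 (by omega) hm (by omega) (by omega)
      (by omega) (Q := fun t => App F s' t ((rules2i n N Ed j).map rc) ∧ t.reg 20 = j ∧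
        t.reg 21 = J - j ∧ (upd (upd t 20 (j + 1)) 21 (J - (j + 1))).reg 9 = n + 1 + (j + 1 + 1) * N ∧
        (upd (upd t 20 (j + 1)) 21 (J - (j + 1))).reg 10 = n + 1 + (j + 1) * N) ?_).mono (by omega)
      (fun y h => h)
    intro t ht ht9 ht10
    refine ⟨ht.wk (by decide), ?_, ?_, ?_, ?_⟩
    · rw [ht.reg 20 (by decide) (by decide) (by decide), h3]
    · rw [ht.reg 21 (by decide) (by decide) (by decide), h4]
    · rw [upd_ne _ _ (by decide), upd_ne _ _ (by decide), ht9]
    · rw [upd_ne _ _ (by decide), upd_ne _ _ (by decide), ht10]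
  · have h2 : E.size (.r 7) = 1 := rfl
    rw [h2, Nat.add_assoc _ 40 10]
  · rintro s' h1 ⟨h9, h10⟩
    exact hQ s' h1 h9 h10

lemma HT.stoS {w : ℕ} {a e : E} {p : Stmt} {s : Data} {T T2 : ℕ} {Q : Data → Prop}
    (ha : a.wf = true) (hda : a.depth ≤ 9) (hoa : a.ok w s)
    (he : e.wf = true) (hd : e.depth ≤ 8) (ho : e.ok w s)
    (h : HT w p (updm s (a.val s) (e.val s)) T2 Q) (hT : a.size + e.size + 1 + T2 ≤ T) :
    HT w (Stmt.seq (sto a e) p) s T Q :=
  HT.seq (R := fun s' => s' = updm s (a.val s) (e.val s)) (HT.sto ha hda hoa he hd ho rfl le_rfl)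
    (by rintro _ rfl; exact h) hT

/-- the four words in front -/
def hdP : Stmt := blk [sto (.r 15) (.r 1), sto (.add (.r 15) (.c 1)) (.r 9),
  sto (.add (.r 15) (.c 2)) (.r 18), sto (.add (.r 15) (.c 3)) (.r 10)]

lemma a6 {w A x0 x1 x2 x3 : ℕ} {L : List ℕ} {s : Data} {Q : Data → Prop}
    (r15 : s.reg 15 = A) (r1 : s.reg 1 = x0) (r9 : s.reg 9 = x1) (r18 : s.reg 18 = x2)
    (r10 : s.reg 10 = x3) (hA : A + 3 < 2 ^ w) (hL : ∀ i < L.length, s.mem (A + 4 + i) = L.getD i 0)
    (hQ : ∀ t : Data, t.reg = s.reg → Wr t A ([x0, x1, x2, x3] ++ L) → Q t) :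
    HT w hdP s 18 Q := by
  refine HT.stoS (T2 := 15) rfl (by decide) trivial rfl (by decide) trivial ?_ (show 1 + 1 + 1 + 15 ≤ 18 by norm_num)
  refine HT.stoS (T2 := 10) rfl (by decide) ⟨trivial, ?_, ?_⟩ rfl (by decide) trivial ?_
    (show 3 + 1 + 1 + 10 ≤ 15 by norm_num)
  · simp only [E.ok]
    omega
  · simp only [E.val, updm_reg, r15]
    omega
  refine HT.stoS (T2 := 5) rfl (by decide) ⟨trivial, ?_, ?_⟩ rfl (by decide) trivial ?_
    (show 3 + 1 + 1 + 5 ≤ 10 by norm_num)
  · simp only [E.ok]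
    omega
  · simp only [E.val, updm_reg, r15]
    omega
  refine HT.stoS (T2 := 0) rfl (by decide) ⟨trivial, ?_, ?_⟩ rfl (by decide) trivial (HT.skip ?_)
    (show 3 + 1 + 1 + 0 ≤ 5 by norm_num)
  · simp only [E.ok]
    omega
  · simp only [E.val, updm_reg, r15]
    omega
  simp only [E.val, updm_reg, r15, r1, r9, r18, r10]
  refine hQ _ rfl ?_
  intro i hi
  simp only [List.cons_append, List.nil_append, List.length_cons] at hi
  rcases i with _ | _ | _ | _ | i
  · simp [updm_mem]
  · simp [updm_mem]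
  · simp [updm_mem]
  · simp
  · simp only [updm_mem, List.cons_append, List.nil_append, List.getD_cons_succ]
    rw [if_neg (by omega), if_neg (by omega), if_neg (by omega), if_neg (by omega)]
    rw [← hL i (by omega)]
    congr 1
    omega

/-- what follows the setup -/
def restP : Stmt := Stmt.seq (forr 20 21 (.r 1) (recd [.add (.r 8) (.r 20), .r 20, .r 1])) <|
  Stmt.seq (forr 20 21 (.r 3) (recd [.add (.r 8) (.r 20), .r 1, .r 1])) <|
  Stmt.seq (set 9 (.add (.r 8) (.r 3))) <| Stmt.seq (set 10 (.r 8)) <|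
  Stmt.seq (forr 20 21 (.r 7) bodyP) hdP

/-- the time of the rest -/
def TR (n N m J : ℕ) : ℕ := n * 37 + 6 + (N * 37 + 6 + (4 + (2 +
  (J * (N * 39 + m * 84 + J * (N * 41 + 24) + 50) + 6 + 18))))

lemma rest {w : ℕ} {s : Data} {Q : Data → Prop} (en : En n N m J Ed s)
    (hlen : Ed.length = m) (hE : ∀ e ∈ Ed, e.1 < N ∧ e.2 < N) (hn : n ≤ N)
    (h17 : s.reg 17 = 8 + m + m) (h18 : s.reg 18 = 0)
    (hU : n + 1 + (J + 2) * N + 10 < 2 ^ w) (hJ : J < 2 ^ w)
    (hW : 8 + m + m + 3 * (n + N + J * (N + 2 * m + J * N)) + 10 < 2 ^ w)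
    (hQ : ∀ t : Data, t.reg 1 = n → t.reg 2 = N + m → t.reg 15 = 4 + m + m →
      Wr t (4 + m + m) ([n, lv n N (J + 1) 0, (rules2 n N J Ed).length, lv n N J 0] ++
        (rules2 n N J Ed).flatMap rc) → Q t) :
    HT w restP s (TR n N m J) Q := by
  have hN2 : (J + 2) * N = J * N + N + N := by ring
  obtain ⟨K, hK⟩ : ∃ K, K = J * (N + 2 * m + J * N) := ⟨_, rfl⟩
  rw [← hK] at hW
  refine HT.seq (R := fun t => App [20, 21] s t ((List.range n).map fun v => [lv n N 0 v, v, n]))
    (a1 en.r1 en.r8 (by omega) (by omega) (by omega) (fun t ht => ht)) ?_ le_rfl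
  intro t1 ht1
  have f1 : ((List.range n).map fun v => [lv n N 0 v, v, n]).flatten.length = 3 * n := by
    have h3 := flat3 ((List.range n).map fun v => (lv n N 0 v, v, n))
    rw [List.map_map, List.length_map, List.length_range] at h3
    exact h3
  have p17 := ht1.ptr
  have p18 := ht1.cnt
  rw [f1, h17] at p17
  rw [List.length_map, List.length_range, h18] at p18
  have en1 : En n N m J Ed t1 := en.app ht1 (by decide)
  refine HT.seq (R := fun t => App [20, 21] t1 t ((List.range N).map fun v => [lv n N 0 v, n, n]))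
    (a2 en1.r1 en1.r3 en1.r8 (by omega) (by omega) (by omega) (fun t ht => ht)) ?_ le_rfl
  intro t2 ht2
  have f2 : ((List.range N).map fun v => [lv n N 0 v, n, n]).flatten.length = 3 * N := by
    have h3 := flat3 ((List.range N).map fun v => (lv n N 0 v, n, n))
    rw [List.map_map, List.length_map, List.length_range] at h3
    exact h3
  have q17 := ht2.ptr
  have q18 := ht2.cnt
  rw [f2, p17] at q17
  rw [List.length_map, List.length_range, p18] at q18
  have en2 : En n N m J Ed t2 := en1.app ht2 (by decide)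
  have app2 : App F s t2 (((List.range n).map fun v => [lv n N 0 v, v, n]) ++
      ((List.range N).map fun v => [lv n N 0 v, n, n])) := (ht1.trans ht2).wk (by decide)
  clear ht1 ht2 p17 p18 f1 f2
  have v9 : (E.add (.r 8) (.r 3)).val t2 = n + 1 + N := by simp only [E.val, en2.r8, en2.r3]
  refine HT.setS (T2 := 2 + (J * (N * 39 + m * 84 + J * (N * 41 + 24) + 50) + 6 + 18)) (by omega) rfl
    (by decide) ⟨trivial, trivial, ?_⟩ ?_ (by simp only [E.size]; omega)
  · have v9' : (E.r 8).val t2 + (E.r 3).val t2 = n + 1 + N := v9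
    rw [v9']
    omega
  rw [v9]
  have v10 : (E.r 8).val (upd t2 9 (n + 1 + N)) = n + 1 := by
    simp only [E.val]
    rw [upd_ne _ _ (by decide), en2.r8]
  refine HT.setS (T2 := J * (N * 39 + m * 84 + J * (N * 41 + 24) + 50) + 6 + 18) (by omega) rfl
    (by decide) trivial ?_ (by simp only [E.size]; omega)
  rw [v10]
  obtain ⟨t3, ht3⟩ : ∃ u, u = upd (upd t2 9 (n + 1 + N)) 10 (n + 1) := ⟨_, rfl⟩
  rw [← ht3]
  have en3 : En n N m J Ed t3 := by
    have r9ne : ∀ (u : Data) (i v : ℕ), i ∉ [1, 2, 3, 5, 7, 8, 15, 17] → En n N m J Ed u →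
      En n N m J Ed (upd u i v) := fun u i v h1 h2 => h2.upd h1
    rw [ht3]
    exact r9ne _ _ _ (by decide) (r9ne _ _ _ (by decide) en2)
  have g9 : t3.reg 9 = n + 1 + N := by rw [ht3, upd_ne _ _ (by decide), upd_self]
  have g10 : t3.reg 10 = n + 1 := by rw [ht3, upd_self]
  have g17 : t3.reg 17 = 8 + m + m + 3 * n + 3 * N := by
    rw [ht3, upd_ne _ _ (by decide), upd_ne _ _ (by decide), q17]
  have g18 : t3.reg 18 = 0 + n + N := by
    rw [ht3, upd_ne _ _ (by decide), upd_ne _ _ (by decide), q18]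
  have app3 : App F s t3 (((List.range n).map fun v => [lv n N 0 v, v, n]) ++
      ((List.range N).map fun v => [lv n N 0 v, n, n])) := by
    rw [ht3]
    exact (app2.upd _ (by decide) (by decide) (by decide)).upd _ (by decide) (by decide) (by decide)
  clear ht3 app2 q17 q18 v9 v10 en2 en1
  refine HT.seq (T1 := J * (N * 39 + m * 84 + J * (N * 41 + 24) + 50) + 6) (T2 := 18)
    (R := fun t => App F t3 t ((List.range J).flatMap fun i => (rules2i n N Ed i).map rc) ∧
      t.reg 9 = n + 1 + (J + 1) * N ∧ t.reg 10 = n + 1 + J * N)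
    (a5 en3 hlen hE g9 g10 hU (by omega) hJ (by rw [← hK]; omega) (by rw [← hK]; omega)
      (fun t h1 h2 h3 => ⟨h1, h2, h3⟩)) ?_ le_rfl
  rintro t4 ⟨ht4, h9, h10⟩
  have app4 := app3.trans ht4
  have en4 : En n N m J Ed t4 := en3.app ht4 (by decide)
  have eL : (((List.range n).map fun v => [lv n N 0 v, v, n]) ++
      ((List.range N).map fun v => [lv n N 0 v, n, n])) ++
      ((List.range J).flatMap fun i => (rules2i n N Ed i).map rc) = (rules2 n N J Ed).map rc := by
    simp only [rules2, List.map_append, List.map_map, List.map_flatMap, List.append_assoc,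
      Function.comp_def, rc]
  rw [eL] at app4
  have hcnt := app4.cnt
  rw [h18, Nat.zero_add, List.length_map] at hcnt
  have hnew := app4.new
  rw [h17, ← List.flatMap_def] at hnew
  refine a6 en4.r15 en4.r1 h9 hcnt h10 (by omega) (L := (rules2 n N J Ed).flatMap rc) ?_ ?_
  · intro i hi
    have e1 : 4 + m + m + 4 + i = 8 + m + m + i := by omega
    rw [e1]
    exact hnew i hi
  · intro t ht hwr
    refine hQ t (by rw [ht]; exact en4.r1) (by rw [ht]; exact en4.r2) (by rw [ht]; exact en4.r15) ?_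
    have e2 : lv n N (J + 1) 0 = n + 1 + (J + 1) * N := rfl
    have e3 : lv n N J 0 = n + 1 + J * N := rfl
    rw [e2, e3]
    exact hwr

end

/-! ### The input -/

lemma enc2 : ∀ (L : List (ℕ × ℕ)) (t : ℕ), t < L.length →
    (L.flatMap fun e : ℕ × ℕ => [e.1, e.2]).getD (2 * t) 0 = (L.getD t (0, 0)).1 ∧
    (L.flatMap fun e : ℕ × ℕ => [e.1, e.2]).getD (2 * t + 1) 0 = (L.getD t (0, 0)).2
  | [], t, h => absurd h (Nat.not_lt_zero _)
  | e :: L, 0, _ => ⟨rfl, rfl⟩
  | e :: L, t + 1, h => by
    have h1 := enc2 L t (by simpa using h)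
    have e1 : 2 * (t + 1) = 2 * t + 1 + 1 := by ring
    rw [List.flatMap_cons, e1]
    simp only [List.cons_append, List.nil_append, List.getD_cons_succ]
    exact h1

lemma enc2_len : ∀ L : List (ℕ × ℕ), (L.flatMap fun e : ℕ × ℕ => [e.1, e.2]).length = 2 * L.length
  | [] => rfl
  | e :: L => by
    rw [List.flatMap_cons, List.length_append, enc2_len L, List.length_cons]
    simp only [List.length_cons, List.length_nil]
    omega

lemma rc_len : ∀ L : List (ℕ × ℕ × ℕ), (L.flatMap rc).length = 3 * L.length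
  | [] => rfl
  | e :: L => by
    rw [List.flatMap_cons, List.length_append, rc_len L, List.length_cons]
    simp only [rc, List.length_cons, List.length_nil]
    omega

lemma rules2_len (n N J : ℕ) (Ed : List (ℕ × ℕ)) :
    (rules2 n N J Ed).length ≤ n + N + J * (N + 2 * Ed.length + J * N) := by
  have h1 := nlen (rules2i n N Ed) (N + 2 * Ed.length + J * N) J fun i hi => by
    rw [rules2i_len]
    have := Nat.mul_le_mul_right N hi.le
    omega
  rw [rules2, List.length_append, List.length_append, List.length_map, List.length_map,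
    List.length_range, List.length_range]
  omega

section

variable (n N m J B : ℕ)

/-- the bounds -/
lemma bnds (hn : 1 ≤ n) (hnN : n ≤ N) (hJ : J ≤ m) (hB : B = n + (N + m) + 2) :
    4 ≤ B ∧ n + N + J * (N + 2 * m + J * N) ≤ 4 * B ^ 3 ∧ n + 1 + (J + 2) * N ≤ 3 * B ^ 3 ∧
      TR n N m J ≤ 400 * B ^ 3 ∧ B ≤ B ^ 3 := by
  have hB4 : 4 ≤ B := by omega
  have h1 : n ≤ B := by omega
  have h2 : N ≤ B := by omega
  have h3 : m ≤ B := by omega
  have h4 : J ≤ B := by omega
  have h5 : J * N ≤ B ^ 2 := by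
    rw [pow_two]
    exact Nat.mul_le_mul h4 h2
  have h6 : B ≤ B ^ 2 := by nlinarith
  have h7 : B ^ 2 ≤ B ^ 3 := Nat.pow_le_pow_right (by omega) (by norm_num)
  have h8 : J * (N + 2 * m + J * N) ≤ B * (3 * B + B ^ 2) := Nat.mul_le_mul h4 (by omega)
  have h9 : B * (3 * B + B ^ 2) = 3 * B ^ 2 + B ^ 3 := by ring
  have h10 : n + N ≤ B := by omega
  have h11 : J * (N * 41 + 24) ≤ B * (B * 41 + 24) := Nat.mul_le_mul h4 (by omega)
  have h12 : B * (B * 41 + 24) = 41 * B ^ 2 + 24 * B := by ring
  have h13 : J * (N * 39 + m * 84 + J * (N * 41 + 24) + 50) ≤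
      B * (123 * B + (41 * B ^ 2 + 24 * B) + 50) := Nat.mul_le_mul h4 (by omega)
  have h14 : B * (123 * B + (41 * B ^ 2 + 24 * B) + 50) = 147 * B ^ 2 + 41 * B ^ 3 + 50 * B := by ring
  have h15 : (J + 2) * N = J * N + 2 * N := by ring
  have h16 : 16 * B ≤ B ^ 3 := by
    have : 4 * B ≤ B ^ 2 := by nlinarith
    have h17 : B ^ 3 = B ^ 2 * B := by ring
    rw [h17]
    nlinarith
  have h18 : 4 * B ^ 2 ≤ B ^ 3 := by
    have h17 : B ^ 3 = B * B ^ 2 := by ring
    rw [h17]
    exact Nat.mul_le_mul_right _ hB4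
  refine ⟨hB4, by omega, by omega, ?_, by omega⟩
  unfold TR
  omega

end

end P2r

open P2r in
theorem p2 : P2 := by
  intro h hM
  refine ⟨20, ?_⟩
  have key : ∀ I : STInst, ∃ B, B = I.n + (I.N + I.E.length) + 2 ∧ 4 ≤ B ∧
      I.n + I.N + bud I * (I.N + 2 * I.E.length + bud I * I.N) ≤ 4 * B ^ 3 ∧
      I.n + 1 + (bud I + 2) * I.N ≤ 3 * B ^ 3 ∧ TR I.n I.N I.E.length (bud I) ≤ 400 * B ^ 3 ∧
      B ≤ B ^ 3 := by
    intro I
    refine ⟨_, rfl, bnds I.n I.N I.E.length (bud I) _ I.pos I.le ?_ rfl⟩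
    unfold bud
    omega
  have pw : ∀ B : ℕ, 4 ≤ B → 500 * B ^ 3 ≤ B ^ 8 ∧ B ^ 8 < B ^ 20 := by
    intro B hB
    have h1 : 4 ^ 5 ≤ B ^ 5 := Nat.pow_le_pow_left hB 5
    have h2 : B ^ 8 = B ^ 5 * B ^ 3 := by ring
    refine ⟨?_, Nat.pow_lt_pow_right (by omega) (by norm_num)⟩
    rw [h2]
    exact Nat.mul_le_mul_right _ (by omega)
  have hbud : ∀ I : STInst, bud I ≤ I.E.length := fun I => by
    unfold bud
    omega
  have hSle : ∀ I : STInst, lv I.n I.N (bud I + 1) 0 ≤ I.n + 1 + (bud I + 2) * I.N := fun I => by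
    unfold lv
    have : (bud I + 1) * I.N ≤ (bud I + 2) * I.N := Nat.mul_le_mul_right _ (by omega)
    omega
  refine ⟨fun I => Nat.le_add_right _ _, fun I => ?_, fun I => ?_, fun I v hv => ?_, hM h,
    fun I w mem hw hmem henc => ?_⟩
  · obtain ⟨B, hB, b1, b2, b3, b4, b5⟩ := key I
    obtain ⟨p1, p2⟩ := pw B b1
    have hR := rules2_len I.n I.N (bud I) I.E
    have hS := hSle I
    change lv I.n I.N (bud I + 1) 0 + (rules2 I.n I.N (bud I) I.E).length ≤
      (I.n + (I.N + I.E.length) + 2) ^ 20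
    rw [← hB]
    omega
  · obtain ⟨B, hB, b1, b2, b3, b4, b5⟩ := key I
    obtain ⟨p1, p2⟩ := pw B b1
    have hR := rules2_len I.n I.N (bud I) I.E
    change ([I.n, lv I.n I.N (bud I + 1) 0, (rules2 I.n I.N (bud I) I.E).length,
      lv I.n I.N (bud I) 0] ++ (rules2 I.n I.N (bud I) I.E).flatMap rc).length ≤
      (I.n + (I.N + I.E.length) + 2) ^ 20
    rw [← hB, List.length_append, rc_len]
    simp only [List.length_cons, List.length_nil]
    have : 64 ≤ B ^ 3 := by
      have := Nat.pow_le_pow_left b1 3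
      omega
    omega
  · obtain ⟨B, hB, b1, b2, b3, b4, b5⟩ := key I
    obtain ⟨p1, p2⟩ := pw B b1
    have hR := rules2_len I.n I.N (bud I) I.E
    have hS := hSle I
    have hv' : v ∈ [I.n, lv I.n I.N (bud I + 1) 0, (rules2 I.n I.N (bud I) I.E).length,
      lv I.n I.N (bud I) 0] ++ (rules2 I.n I.N (bud I) I.E).flatMap rc := hv
    change v < (2 ^ I.n * (I.n + (I.N + I.E.length) + 2)) ^ 20
    rw [← hB]
    have hBB : B ^ 20 ≤ (2 ^ I.n * B) ^ 20 :=
      Nat.pow_le_pow_left (Nat.le_mul_of_pos_left B (by positivity)) 20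
    have hvS : v ≤ 7 * B ^ 3 := by
      have ho : lv I.n I.N (bud I) 0 ≤ I.n + 1 + (bud I + 2) * I.N := by
        unfold lv
        have : bud I * I.N ≤ (bud I + 2) * I.N := Nat.mul_le_mul_right _ (by omega)
        omega
      rcases List.mem_append.1 hv' with h1 | h1
      · simp only [List.mem_cons, List.not_mem_nil, or_false] at h1
        rcases h1 with h1 | h1 | h1 | h1
        · omega
        · omega
        · omega
        · omega
      · obtain ⟨t, ht, hvt⟩ := List.mem_flatMap.1 h1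
        obtain ⟨g1, g2, g3⟩ := h I.n I.N (bud I) I.E I.le I.lt t ht
        simp only [rc, List.mem_cons, List.not_mem_nil, or_false] at hvt
        rcases hvt with h2 | h2 | h2
        · omega
        · omega
        · omega
    omega
  · obtain ⟨B, hB, b1, b2, b3, b4, b5⟩ := key I
    obtain ⟨p1, p2⟩ := pw B b1
    change (2 ^ I.n * (I.n + (I.N + I.E.length) + 2)) ^ 20 ≤ 2 ^ w at hw
    change HT w g2 ⟨fun _ => 0, mem⟩ ((I.n + (I.N + I.E.length) + 2) ^ 20) (fun t => t.reg 1 = I.n ∧
      t.reg 2 = I.N + I.E.length ∧ t.reg 15 ≤ (I.n + (I.N + I.E.length) + 2) ^ 20 ∧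
      Wr t (t.reg 15) ([I.n, lv I.n I.N (bud I + 1) 0, (rules2 I.n I.N (bud I) I.E).length,
      lv I.n I.N (bud I) 0] ++ (rules2 I.n I.N (bud I) I.E).flatMap rc))
    rw [← hB] at hw ⊢
    have hBB : B ^ 20 ≤ (2 ^ I.n * B) ^ 20 :=
      Nat.pow_le_pow_left (Nat.le_mul_of_pos_left B (by positivity)) 20
    have hW : 500 * B ^ 3 < 2 ^ w := by omega
    -- the input
    have henc' : ∀ i, i < 4 + 2 * I.E.length → mem i = ([I.n, I.N, I.E.length, I.j] ++
        I.E.flatMap fun e : ℕ × ℕ => [e.1, e.2]).getD i 0 := by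
      intro i hi
      have hl : i < (SteinerTree.enc I).length := by
        change i < ([I.n, I.N, I.E.length, I.j] ++
          I.E.flatMap fun e : ℕ × ℕ => [e.1, e.2]).length
        rw [List.length_append, enc2_len]
        simp only [List.length_cons, List.length_nil]
        omega
      have h1 := henc i hl
      rw [← List.getD_eq_getElem _ 0 hl] at h1
      exact h1
    have m0 : mem 0 = I.n := by rw [henc' 0 (by omega)]; rfl
    have m1 : mem 1 = I.N := by rw [henc' 1 (by omega)]; rfl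
    have m2 : mem 2 = I.E.length := by rw [henc' 2 (by omega)]; rfl
    have m3 : mem 3 = I.j := by rw [henc' 3 (by omega)]; rfl
    have m4 : ∀ t < I.E.length, mem (4 + 2 * t) = (I.E.getD t (0, 0)).1 ∧
        mem (4 + 2 * t + 1) = (I.E.getD t (0, 0)).2 := by
      intro t ht
      obtain ⟨e1, e2⟩ := enc2 I.E t ht
      rw [henc' (4 + 2 * t) (by omega), henc' (4 + 2 * t + 1) (by omega)]
      have q1 : 4 + 2 * t = 2 * t + 1 + 1 + 1 + 1 := by omega
      have q2 : 4 + 2 * t + 1 = (2 * t + 1) + 1 + 1 + 1 + 1 := by omega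
      rw [q1]
      simp only [List.cons_append, List.nil_append, List.getD_cons_succ]
      exact ⟨e1, e2⟩
    have hmB : I.E.length ≤ B := by omega
    have hNB : I.N ≤ B := by omega
    have hnB : I.n ≤ B := by omega
    -- the setup
    have c4 : ∀ k : ℕ, k ≤ 8 → k < 2 ^ w := fun k hk => by omega
    refine HT.setS (T2 := B ^ 20 - 3) (by omega) rfl (by decide) (c4 0 (by omega)) ?_
      (by simp only [E.size]; omega)
    refine HT.setS (T2 := B ^ 20 - 6) (by omega) rfl (by decide) (c4 1 (by omega)) ?_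
      (by simp only [E.size]; omega)
    refine HT.setS (T2 := B ^ 20 - 9) (by omega) rfl (by decide) (c4 2 (by omega)) ?_
      (by simp only [E.size]; omega)
    refine HT.setS (T2 := B ^ 20 - 12) (by omega) rfl (by decide) (c4 3 (by omega)) ?_
      (by simp only [E.size]; omega)
    simp only [E.val, upd_mem, m0, m1, m2, m3]
    refine HT.setS (T2 := B ^ 20 - 16) (by omega) rfl (by decide) ⟨trivial, trivial, ?_⟩ ?_
      (by simp only [E.size]; omega)
    · simp only [E.val, upd_reg]
      norm_num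
      omega
    refine HT.setS (T2 := B ^ 20 - 22) (by omega) rfl (by decide) ⟨trivial, trivial, trivial⟩ ?_
      (by simp only [E.size]; omega)
    refine HT.setS (T2 := B ^ 20 - 28) (by omega) rfl (by decide)
      ⟨⟨c4 4 (by omega), trivial, ?_⟩, trivial, ?_⟩ ?_ (by simp only [E.size]; omega)
    · simp only [E.val, upd_reg]
      norm_num
      omega
    · simp only [E.val, upd_reg]
      norm_num
      omega
    refine HT.setS (T2 := B ^ 20 - 32) (by omega) rfl (by decide)
      ⟨trivial, c4 4 (by omega), ?_⟩ ?_ (by simp only [E.size]; omega)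
    · simp only [E.val, upd_reg]
      norm_num
      omega
    refine HT.setS (T2 := B ^ 20 - 34) (by omega) rfl (by decide) (c4 0 (by omega)) ?_
      (by simp only [E.size]; omega)
    refine HT.setS (T2 := B ^ 20 - 38) (by omega) rfl (by decide)
      ⟨trivial, c4 1 (by omega), ?_⟩ ?_ (by simp only [E.size]; omega)
    · simp only [E.val, upd_reg]
      norm_num
      omega
    refine (rest (n := I.n) (N := I.N) (m := I.E.length) (J := bud I) (Ed := I.E) ⟨?_, ?_, ?_, ?_, ?_,
      ?_, ?_, ?_, ?_⟩ rfl I.lt I.le ?_ ?_ ?_ ?_ ?_ ?_).mono (by omega) (fun y h => h)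
    · simp [E.val, upd_reg]
    · simp [E.val, upd_reg]
    · simp [E.val, upd_reg]
    · simp [E.val, upd_reg]
    · simp [E.val, upd_reg, bud]
    · simp [E.val, upd_reg]
    · simp [E.val, upd_reg]
    · exact m4
    · simp [E.val, upd_reg]
      omega
    · simp [E.val, upd_reg]
      omega
    · simp [E.val, upd_reg]
    · omega
    · have := hbud I
      omega
    · omega
    · intro t t1 t2 t15 hwr
      rw [← t15] at hwr
      exact ⟨t1, t2, by rw [t15]; omega, hwr⟩

end SCM
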