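import Pool.Agent.Lib.SCM.Progs

/-!
# Row P5: Colourful Path → Full Monomial, the program
-/

set_option autoImplicit false

namespace SCM

open SCR SCN

namespace P5x

lemma seqSet {w i : ℕ} {e : E} {s : Data} {q : Stmt} {T : ℕ} {Q : Data → Prop} (T2 : ℕ) (hi : i < 40 ∨ 50 ≤ i)
    (he : e.wf = true) (hd : e.depth ≤ 9) (ho : e.ok w s) (h2 : HT w q (upd s i (e.val s)) T2 Q)
    (hT : e.size + 1 + T2 ≤ T) : HT w (.seq (SCM.set i e) q) s T Q :=
  HT.seq (R := fun s' => s' = upd s i (e.val s)) (T1 := e.size + 1) (T2 := T2)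
    (HT.set hi he hd ho rfl le_rfl) (by rintro _ rfl; exact h2) hT

lemma seqSto {w : ℕ} {a e : E} {s : Data} {q : Stmt} {T : ℕ} {Q : Data → Prop} (T2 : ℕ)
    (ha : a.wf = true) (hda : a.depth ≤ 9) (hoa : a.ok w s)
    (he : e.wf = true) (hd : e.depth ≤ 8) (ho : e.ok w s) (h2 : HT w q (updm s (a.val s) (e.val s)) T2 Q)
    (hT : a.size + e.size + 1 + T2 ≤ T) : HT w (.seq (sto a e) q) s T Q :=
  HT.seq (R := fun s' => s' = updm s (a.val s) (e.val s)) (T1 := a.size + e.size + 1) (T2 := T2)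
    (HT.sto ha hda hoa he hd ho rfl le_rfl) (by rintro _ rfl; exact h2) hT

lemma seqRec3 {w : ℕ} {a b c : E} {s : Data} {q : Stmt} {T : ℕ} {Q : Data → Prop} (T2 : ℕ)
    (ha : a.pure = true ∧ a.wf = true ∧ a.depth ≤ 8) (hb : b.pure = true ∧ b.wf = true ∧ b.depth ≤ 8)
    (hc : c.pure = true ∧ c.wf = true ∧ c.depth ≤ 8) (oa : a.ok w s) (ob : b.ok w s) (oc : c.ok w s)
    (h17 : s.reg 17 + 3 < 2 ^ w) (h18 : s.reg 18 + 1 < 2 ^ w)
    (h2 : ∀ t, App [] s t [[a.val s, b.val s, c.val s]] → HT w q t T2 Q)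
    (hT : a.size + b.size + c.size + 22 + T2 ≤ T) : HT w (.seq (recd [a, b, c]) q) s T Q := by
  refine HT.seq (R := fun t => App [] s t [[a.val s, b.val s, c.val s]])
    (T1 := a.size + b.size + c.size + 22) (T2 := T2) (HT.recd ?_ h17 h18 (fun t ht => ht) ?_) h2 hT
  · intro e he
    simp only [List.mem_cons, List.not_mem_nil, or_false] at he
    rcases he with rfl | rfl | rfl
    · exact ⟨ha.1, ha.2.1, ha.2.2, oa⟩
    · exact ⟨hb.1, hb.2.1, hb.2.2, ob⟩
    · exact ⟨hc.1, hc.2.1, hc.2.2, oc⟩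
  · simp only [E.cost, List.map_cons, List.map_nil, List.sum_cons, List.sum_nil]
    omega

lemma _root_.SCM.HT.mid {w : ℕ} {p : Stmt} {s : Data} {T : ℕ} {Q R : Data → Prop} (h : R s)
    (h' : ∀ s', R s' → HT w p s' T Q) : HT w p s T Q := h' s h

lemma len3 (L : List (List ℕ)) (h : ∀ l ∈ L, l.length = 3) : L.flatten.length = 3 * L.length := by
  induction L with
  | nil => rfl
  | cons a L ih =>
    rw [List.flatten_cons, List.length_append, ih fun l hl => h l (List.mem_cons_of_mem _ hl),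
      h a List.mem_cons_self, List.length_cons]
    ring

/-- the input and the constants -/
structure F5 (I : CPInst) (s : Data) : Prop where
  r1 : s.reg 1 = I.n
  r2 : s.reg 2 = I.N + I.E.length
  r3 : s.reg 3 = I.N
  r5 : s.reg 5 = I.E.length
  r8 : s.reg 8 = I.n + 1
  r15 : s.reg 15 = 3 + I.N + I.E.length + I.E.length
  r17 : s.reg 17 = 7 + I.N + 2 * I.E.length + 3 * s.reg 18
  col : ∀ v < I.N, s.mem (3 + v) = I.col v
  e1 : ∀ k < I.E.length, s.mem (3 + I.N + 2 * k) = (I.E.getD k (0, 0)).1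
  e2 : ∀ k < I.E.length, s.mem (3 + I.N + 2 * k + 1) = (I.E.getD k (0, 0)).2

lemma F5.app {I : CPInst} {s t : Data} {F : List ℕ} {L : List (List ℕ)} (h : F5 I s) (h' : App F s t L)
    (hF : 1 ∉ F ∧ 2 ∉ F ∧ 3 ∉ F ∧ 5 ∉ F ∧ 8 ∉ F ∧ 15 ∉ F) (hL : ∀ l ∈ L, l.length = 3) : F5 I t where
  r1 := (h'.reg 1 hF.1 (by decide) (by decide)).trans h.r1
  r2 := (h'.reg 2 hF.2.1 (by decide) (by decide)).trans h.r2
  r3 := (h'.reg 3 hF.2.2.1 (by decide) (by decide)).trans h.r3
  r5 := (h'.reg 5 hF.2.2.2.1 (by decide) (by decide)).trans h.r5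
  r8 := (h'.reg 8 hF.2.2.2.2.1 (by decide) (by decide)).trans h.r8
  r15 := (h'.reg 15 hF.2.2.2.2.2 (by decide) (by decide)).trans h.r15
  r17 := by
    rw [h'.ptr, h'.cnt, h.r17, len3 L hL]
    ring
  col := fun v hv => by
    rw [h'.old _ (by rw [h.r17]; omega)]
    exact h.col v hv
  e1 := fun v hv => by
    rw [h'.old _ (by rw [h.r17]; omega)]
    exact h.e1 v hv
  e2 := fun v hv => by
    rw [h'.old _ (by rw [h.r17]; omega)]
    exact h.e2 v hv

lemma F5.upd {I : CPInst} {s : Data} {i v : ℕ} (h : F5 I s)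
    (hF : i ≠ 1 ∧ i ≠ 2 ∧ i ≠ 3 ∧ i ≠ 5 ∧ i ≠ 8 ∧ i ≠ 15 ∧ i ≠ 17 ∧ i ≠ 18) : F5 I (SCM.upd s i v) where
  r1 := (upd_ne _ _ (by omega)).trans h.r1
  r2 := (upd_ne _ _ (by omega)).trans h.r2
  r3 := (upd_ne _ _ (by omega)).trans h.r3
  r5 := (upd_ne _ _ (by omega)).trans h.r5
  r8 := (upd_ne _ _ (by omega)).trans h.r8
  r15 := (upd_ne _ _ (by omega)).trans h.r15
  r17 := by
    rw [upd_ne _ _ (by omega), upd_ne _ _ (by omega)]
    exact h.r17
  col := h.col
  e1 := h.e1
  e2 := h.e2

/-- the words fit -/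
def Big (I : CPInst) (w : ℕ) : Prop :=
  20 + 8 * I.N + 2 * I.E.length + 3 * (I.n * I.E.length) + I.n * I.N + 2 * I.n < 2 ^ w

/-- the rules of the first part -/
def g1r (I : CPInst) (v : ℕ) : List (List ℕ) := [[I.n + 1 + v, I.col v, I.n]]

lemma rangeLen (f : ℕ → List (List ℕ)) (c : ℕ) (hf : ∀ j, (f j).length = c) (j : ℕ) :
    ((List.range j).flatMap f).length = j * c := by
  induction j with
  | zero => simp
  | succ j ih =>
    rw [List.range_succ, List.flatMap_append, List.length_append, ih]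
    simp only [List.flatMap_cons, List.flatMap_nil, List.append_nil, hf]
    ring

lemma range3 (f : ℕ → List (List ℕ)) (hf : ∀ j, ∀ l ∈ f j, l.length = 3) (j : ℕ) :
    ∀ l ∈ (List.range j).flatMap f, l.length = 3 := by
  intro l hl
  rw [List.mem_flatMap] at hl
  obtain ⟨v, -, hv⟩ := hl
  exact hf v l hv

lemma loop1 {I : CPInst} {w : ℕ} {s : Data} (hb : Big I w) (hs : F5 I s) (h18 : s.reg 18 = 0) :
    HT w (forr 20 21 (.r 3) (blk [set 22 (.ld (.add (.c 3) (.r 20))), recd [.add (.r 8) (.r 20), .r 22, .r 1]])) s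
      (I.N * 60 + 10) (fun t => App [20, 21, 22] s t ((List.range I.N).flatMap (g1r I))) := by
  unfold Big at hb
  refine HT.forApp I.N 50 [20, 21, 22] (g1r I) (fun _ _ => True)
    (by decide) (by decide) (by decide) (by decide) (by decide) (by decide) (by decide) (by decide) (by decide)
    rfl (by decide) trivial hs.r3 (by omega) trivial ?_ (by simp only [E.size]; omega) (fun t ht _ => ht)
  intro j hj t ht _ t20 t21
  have F := hs.app ht (by decide) (range3 _ (by intro j l hl; simp only [g1r, List.mem_singleton] at hl; rw [hl]; rfl) j)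
  have hc : t.reg 18 = j := by
    rw [ht.cnt, h18, rangeLen _ 1 (fun _ => rfl)]
    omega
  have h17 := F.r17
  have hv : (E.ld (.add (.c 3) (.r 20))).val t = I.col j := by
    simp only [E.val, t20]
    exact F.col j hj
  refine seqSet 45 (by decide) rfl (by decide) ⟨by simp only [E.ok]; omega, trivial, by simp only [E.val]; omega⟩ ?_
    (by simp only [E.size]; omega)
  rw [hv]
  have F' : F5 I (upd t 22 (I.col j)) := F.upd (by decide)
  have r20 : (upd t 22 (I.col j)).reg 20 = j := by rw [upd_ne _ _ (by decide), t20]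
  have r21 : (upd t 22 (I.col j)).reg 21 = I.N - j := by rw [upd_ne _ _ (by decide), t21]
  have r17 : (upd t 22 (I.col j)).reg 17 = t.reg 17 := upd_ne _ _ (by decide)
  have r18 : (upd t 22 (I.col j)).reg 18 = t.reg 18 := upd_ne _ _ (by decide)
  refine seqRec3 0 (by decide) (by decide) (by decide) ⟨trivial, trivial, ?_⟩ trivial trivial
    (by rw [r17]; omega) (by rw [r18]; omega) ?_ (by simp only [E.size]; omega)
  · simp only [E.val, F'.r8, r20]
    omega
  · intro u hu
    refine HT.skip ⟨?_, ?_, ?_, trivial⟩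
    · have h1 := (hu.wk (F' := [20, 21, 22]) (by simp)).upd0 (by decide) (by decide) (by decide)
      simpa only [E.val, F'.r8, r20, F'.r1, upd_self, g1r] using h1
    · rw [hu.reg 20 (by decide) (by decide) (by decide)]
      exact r20
    · rw [hu.reg 21 (by decide) (by decide) (by decide)]
      exact r21

/-- the rules of level `i + 1`, from edge `k` -/
def g2r (I : CPInst) (i k : ℕ) : List (List ℕ) :=
  [[lv I.n I.N (i + 1) (I.E.getD k (0, 0)).2, lv I.n I.N i (I.E.getD k (0, 0)).1,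
    lv I.n I.N 0 (I.E.getD k (0, 0)).2]]

lemma getD_lt {I : CPInst} {k : ℕ} (hk : k < I.E.length) :
    (I.E.getD k (0, 0)).1 < I.N ∧ (I.E.getD k (0, 0)).2 < I.N := by
  rw [List.getD_eq_getElem _ _ hk]
  exact I.lt _ (List.getElem_mem hk)

/-- one pass of the inner loop of level `i + 1` -/
lemma body2 {I : CPInst} {w i k b : ℕ} {t : Data} (F : F5 I t) (hk : k < I.E.length)
    (h1 : I.n + 1 + (i * I.N + I.N) + I.N < 2 ^ w) (h2 : t.reg 17 + 3 < 2 ^ w) (h3 : t.reg 18 + 1 < 2 ^ w)
    (h4 : 5 + I.N + 2 * I.E.length < 2 ^ w)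
    (t9 : t.reg 9 = I.n + 1 + (i * I.N + I.N)) (t10 : t.reg 10 = I.n + 1 + i * I.N)
    (t24 : t.reg 24 = 3 + I.N + 2 * k) (t22 : t.reg 22 = k) (t23 : t.reg 23 = b) :
    HT w (blk [
      set 25 (.ld (.r 24)), set 26 (.ld (.add (.r 24) (.c 1))),
      recd [.add (.r 9) (.r 26), .add (.r 10) (.r 25), .add (.r 8) (.r 26)],
      set 24 (.add (.r 24) (.c 2))]) t 60 (fun u => App [22, 23, 24, 25, 26] t u (g2r I i k) ∧ u.reg 22 = k ∧
        u.reg 23 = b ∧ u.reg 24 = 3 + I.N + 2 * (k + 1)) := by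
  obtain ⟨l1, l2⟩ := getD_lt hk
  refine seqSet 56 (by decide) rfl (by decide) trivial ?_ (by decide)
  have hv : (E.ld (.r 24)).val t = (I.E.getD k (0, 0)).1 := by
    simp only [E.val, t24]
    exact F.e1 k hk
  rw [hv]
  refine seqSet 50 (by decide) rfl (by decide) ?_ ?_ (by decide)
  · refine ⟨trivial, by simp only [E.ok]; omega, ?_⟩
    simp only [E.val]
    rw [upd_ne _ _ (by decide), t24]
    omega
  have hv : (E.ld (.add (.r 24) (.c 1))).val (upd t 25 (I.E.getD k (0, 0)).1) = (I.E.getD k (0, 0)).2 := by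
    simp only [E.val]
    rw [upd_ne _ _ (by decide), t24]
    exact F.e2 k hk
  rw [hv]
  have hA : App [22, 23, 24, 25, 26] t (upd (upd t 25 (I.E.getD k (0, 0)).1) 26 (I.E.getD k (0, 0)).2) [] :=
    ((App.refl _ t).upd _ (by decide) (by decide) (by decide)).upd _ (by decide) (by decide) (by decide)
  have F' : F5 I (upd (upd t 25 (I.E.getD k (0, 0)).1) 26 (I.E.getD k (0, 0)).2) :=
    (F.upd (by decide)).upd (by decide)
  have u25 : (upd (upd t 25 (I.E.getD k (0, 0)).1) 26 (I.E.getD k (0, 0)).2).reg 25 = (I.E.getD k (0, 0)).1 := by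
    rw [upd_ne _ _ (by decide), upd_self]
  have u26 : (upd (upd t 25 (I.E.getD k (0, 0)).1) 26 (I.E.getD k (0, 0)).2).reg 26 = (I.E.getD k (0, 0)).2 :=
    upd_self _ _ _
  have ur : ∀ r, r ≠ 25 → r ≠ 26 →
      (upd (upd t 25 (I.E.getD k (0, 0)).1) 26 (I.E.getD k (0, 0)).2).reg r = t.reg r := fun r h1 h2 => by
    rw [upd_ne _ _ h2, upd_ne _ _ h1]
  generalize upd (upd t 25 (I.E.getD k (0, 0)).1) 26 (I.E.getD k (0, 0)).2 = u at hA F' u25 u26 ur ⊢
  have u9 := (ur 9 (by decide) (by decide)).trans t9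
  have u10 := (ur 10 (by decide) (by decide)).trans t10
  have u8 := F'.r8
  refine seqRec3 6 (by decide) (by decide) (by decide) ⟨trivial, trivial, ?_⟩ ⟨trivial, trivial, ?_⟩
    ⟨trivial, trivial, ?_⟩ ((ur 17 (by decide) (by decide)).symm ▸ h2) ((ur 18 (by decide) (by decide)).symm ▸ h3)
    ?_ (by decide)
  · simp only [E.val, u9, u26]
    omega
  · simp only [E.val, u10, u25]
    omega
  · simp only [E.val, u8, u26]
    omega
  intro v hv
  have v24 : v.reg 24 = 3 + I.N + 2 * k := by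
    rw [hv.reg 24 (by decide) (by decide) (by decide), ur 24 (by decide) (by decide), t24]
  refine seqSet 1 (by decide) rfl (by decide) ⟨trivial, by simp only [E.ok]; omega, ?_⟩ (HT.skip ?_)
    (by decide)
  · simp only [E.val, v24]
    omega
  have h1 : App [22, 23, 24, 25, 26] t v (g2r I i k) := by
    have h2 := hA.trans (hv.wk (F' := [22, 23, 24, 25, 26]) (by simp))
    have e1 : I.n + 1 + (i * I.N + I.N) + (I.E.getD k (0, 0)).2 = lv I.n I.N (i + 1) (I.E.getD k (0, 0)).2 := by
      unfold lv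
      ring
    have e2 : I.n + 1 + i * I.N + (I.E.getD k (0, 0)).1 = lv I.n I.N i (I.E.getD k (0, 0)).1 := by
      unfold lv
      ring
    have e3 : I.n + 1 + (I.E.getD k (0, 0)).2 = lv I.n I.N 0 (I.E.getD k (0, 0)).2 := by
      unfold lv
      ring
    simp only [E.val, u9, u10, u25, u26, u8, List.nil_append, e1, e2, e3] at h2
    exact h2
  refine ⟨h1.upd _ (by decide) (by decide) (by decide), ?_, ?_, ?_⟩
  · rw [upd_ne _ _ (by decide), hv.reg 22 (by decide) (by decide) (by decide), ur 22 (by decide) (by decide), t22]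
  · rw [upd_ne _ _ (by decide), hv.reg 23 (by decide) (by decide) (by decide), ur 23 (by decide) (by decide), t23]
  · rw [upd_self]
    simp only [E.val, v24]
    ring

/-- the inner loop of level `i + 1` -/
lemma loop2in {I : CPInst} {w i : ℕ} {s : Data} (hs : F5 I s)
    (h1 : I.n + 1 + (i * I.N + I.N) + I.N < 2 ^ w) (h2 : s.reg 17 + 3 * I.E.length < 2 ^ w)
    (h3 : s.reg 18 + I.E.length < 2 ^ w) (h4 : 5 + I.N + 2 * I.E.length < 2 ^ w)
    (h9 : s.reg 9 = I.n + 1 + (i * I.N + I.N)) (h10 : s.reg 10 = I.n + 1 + i * I.N)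
    (h24 : s.reg 24 = 3 + I.N) :
    HT w (forr 22 23 (.r 5) (blk [
      set 25 (.ld (.r 24)), set 26 (.ld (.add (.r 24) (.c 1))),
      recd [.add (.r 9) (.r 26), .add (.r 10) (.r 25), .add (.r 8) (.r 26)],
      set 24 (.add (.r 24) (.c 2))])) s
      (I.E.length * 70 + 10) (fun t => App [22, 23, 24, 25, 26] s t ((List.range I.E.length).flatMap (g2r I i))) := by
  refine HT.forApp I.E.length 60 [22, 23, 24, 25, 26] (g2r I i) (fun k t => t.reg 24 = 3 + I.N + 2 * k)
    (by decide) (by decide) (by decide) (by decide) (by decide) (by decide) (by decide) (by decide) (by decide)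
    rfl (by decide) trivial hs.r5 (by omega) ?_ ?_ (by simp only [E.size]; omega) (fun t ht _ => ht)
  · rw [upd_ne _ _ (by decide), upd_ne _ _ (by decide), h24]
    rfl
  intro k hk t ht t24 t22 t23
  have hf : ∀ j, ∀ l ∈ g2r I i j, l.length = 3 := by
    intro j l hl
    simp only [g2r, List.mem_singleton] at hl
    rw [hl]
    rfl
  have F := hs.app ht (by decide) (range3 _ hf k)
  have hc := ht.cnt
  have hp := ht.ptr
  rw [len3 _ (range3 _ hf k)] at hp
  rw [rangeLen _ 1 (fun _ => rfl)] at hc hp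
  refine (body2 F hk h1 ?_ ?_ h4 ((ht.reg 9 (by decide) (by decide) (by decide)).trans h9)
    ((ht.reg 10 (by decide) (by decide) (by decide)).trans h10) t24 t22 t23).mono le_rfl ?_
  · clear t23
    omega
  · clear t23
    omega
  rintro u ⟨u1, u2, u3, u4⟩
  refine ⟨u1, u2, u3, ?_⟩
  rw [upd_ne _ _ (by decide), upd_ne _ _ (by decide), u4]

/-- one level -/
lemma level2 {I : CPInst} {w i b : ℕ} {t : Data} (F : F5 I t)
    (h1 : I.n + 1 + (i * I.N + I.N) + I.N < 2 ^ w) (h2 : t.reg 17 + 3 * I.E.length < 2 ^ w)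
    (h3 : t.reg 18 + I.E.length < 2 ^ w) (h4 : 5 + I.N + 2 * I.E.length < 2 ^ w)
    (t9 : t.reg 9 = I.n + 1 + (i * I.N + I.N)) (t10 : t.reg 10 = I.n + 1 + i * I.N)
    (t20 : t.reg 20 = i) (t21 : t.reg 21 = b) :
    HT w (blk [
      set 24 (.add (.c 3) (.r 3)),
      forr 22 23 (.r 5) (blk [
        set 25 (.ld (.r 24)), set 26 (.ld (.add (.r 24) (.c 1))),
        recd [.add (.r 9) (.r 26), .add (.r 10) (.r 25), .add (.r 8) (.r 26)],
        set 24 (.add (.r 24) (.c 2))]),
      set 10 (.r 9), set 9 (.add (.r 9) (.r 3))]) t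
      (I.E.length * 70 + 30)
      (fun u => App [9, 10, 20, 21, 22, 23, 24, 25, 26] t u ((List.range I.E.length).flatMap (g2r I i)) ∧
        u.reg 20 = i ∧ u.reg 21 = b ∧ u.reg 9 = I.n + 1 + ((i + 1) * I.N + I.N) ∧
        u.reg 10 = I.n + 1 + (i + 1) * I.N) := by
  have t3 := F.r3
  refine seqSet (I.E.length * 70 + 20) (by decide) rfl (by decide) ⟨by simp only [E.ok]; omega, trivial, ?_⟩ ?_
    (by simp only [E.size]; omega)
  · simp only [E.val, t3]
    omega
  have hv : (E.add (.c 3) (.r 3)).val t = 3 + I.N := by simp only [E.val, t3]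
  rw [hv]
  have F' : F5 I (upd t 24 (3 + I.N)) := F.upd (by decide)
  have hA : App [9, 10, 20, 21, 22, 23, 24, 25, 26] t (upd t 24 (3 + I.N)) [] :=
    (App.refl _ t).upd _ (by decide) (by decide) (by decide)
  have u24 : (upd t 24 (3 + I.N)).reg 24 = 3 + I.N := upd_self _ _ _
  have ur : ∀ r, r ≠ 24 → (upd t 24 (3 + I.N)).reg r = t.reg r := fun r h1 => upd_ne _ _ h1
  generalize upd t 24 (3 + I.N) = u at F' hA u24 ur ⊢
  have u9 := (ur 9 (by decide)).trans t9
  have u10 := (ur 10 (by decide)).trans t10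
  refine HT.seq (T1 := I.E.length * 70 + 10) (T2 := 10) (loop2in F' h1 ((ur 17 (by decide)).symm ▸ h2)
    ((ur 18 (by decide)).symm ▸ h3) h4 u9 u10 u24) ?_ (by omega)
  intro v hv
  have vr : ∀ r, r ∉ [22, 23, 24, 25, 26] → r ≠ 17 → r ≠ 18 → v.reg r = t.reg r := fun r h1 h2 h3 => by
    rw [hv.reg r h1 h2 h3, ur r (by rintro rfl; exact h1 (by decide))]
  refine seqSet 6 (by decide) rfl (by decide) trivial ?_ (by decide)
  have v9 : v.reg 9 = I.n + 1 + (i * I.N + I.N) := by rw [vr 9 (by decide) (by decide) (by decide), t9]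
  have hv' : (E.r 9).val v = I.n + 1 + (i * I.N + I.N) := v9
  rw [hv']
  have v3 : v.reg 3 = I.N := by rw [vr 3 (by decide) (by decide) (by decide), t3]
  refine seqSet 1 (by decide) rfl (by decide) ⟨trivial, trivial, ?_⟩ (HT.skip ?_) (by decide)
  · simp only [E.val]
    rw [upd_ne _ _ (by decide), upd_ne _ _ (by decide), v9, v3]
    exact h1
  refine ⟨?_, ?_, ?_, ?_, ?_⟩
  · have h2 := hA.trans (hv.wk (F' := [9, 10, 20, 21, 22, 23, 24, 25, 26]) (by simp))
    rw [List.nil_append] at h2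
    exact (h2.upd _ (by decide) (by decide) (by decide)).upd _ (by decide) (by decide) (by decide)
  · rw [upd_ne _ _ (by decide), upd_ne _ _ (by decide), vr 20 (by decide) (by decide) (by decide), t20]
  · rw [upd_ne _ _ (by decide), upd_ne _ _ (by decide), vr 21 (by decide) (by decide) (by decide), t21]
  · rw [upd_self]
    simp only [E.val]
    rw [upd_ne _ _ (by decide), upd_ne _ _ (by decide), v9, v3]
    ring
  · rw [upd_ne _ _ (by decide), upd_self]
    ring

/-- the second part: all the levels -/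
lemma loop2 {I : CPInst} {w : ℕ} {s : Data} (hb : Big I w) (hs : F5 I s)
    (h18 : s.reg 18 = I.N) (h9 : s.reg 9 = I.n + 1 + I.N) (h10 : s.reg 10 = I.n + 1) :
    HT w (forr 20 21 (.sub (.r 1) (.c 1)) (blk [
      set 24 (.add (.c 3) (.r 3)),
      forr 22 23 (.r 5) (blk [
        set 25 (.ld (.r 24)), set 26 (.ld (.add (.r 24) (.c 1))),
        recd [.add (.r 9) (.r 26), .add (.r 10) (.r 25), .add (.r 8) (.r 26)],
        set 24 (.add (.r 24) (.c 2))]),
      set 10 (.r 9), set 9 (.add (.r 9) (.r 3))])) s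
      ((I.n - 1) * (I.E.length * 70 + 40) + 10)
      (fun t => App [9, 10, 20, 21, 22, 23, 24, 25, 26] s t
          ((List.range (I.n - 1)).flatMap fun i => (List.range I.E.length).flatMap (g2r I i)) ∧
        t.reg 9 = I.n + 1 + ((I.n - 1) * I.N + I.N) ∧ t.reg 10 = I.n + 1 + (I.n - 1) * I.N) := by
  unfold Big at hb
  have hf : ∀ i j, ∀ l ∈ g2r I i j, l.length = 3 := by
    intro i j l hl
    simp only [g2r, List.mem_singleton] at hl
    rw [hl]
    rfl
  refine HT.forApp (I.n - 1) (I.E.length * 70 + 30) [9, 10, 20, 21, 22, 23, 24, 25, 26]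
    (fun i => (List.range I.E.length).flatMap (g2r I i))
    (fun i t => t.reg 9 = I.n + 1 + (i * I.N + I.N) ∧ t.reg 10 = I.n + 1 + i * I.N)
    (by decide) (by decide) (by decide) (by decide) (by decide) (by decide) (by decide) (by decide) (by decide)
    rfl (by decide) ⟨trivial, by simp only [E.ok]; omega⟩ ?_ (by omega) ?_ ?_ ?_ (fun t ht ht' => ⟨ht, ht'⟩)
  · simp only [E.val, hs.r1]
  · rw [upd_ne _ _ (by decide), upd_ne _ _ (by decide), upd_ne _ _ (by decide), upd_ne _ _ (by decide), h9, h10]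
    constructor
    · ring
    · ring
  swap
  · rw [show I.E.length * 70 + 30 + 10 = I.E.length * 70 + 40 by ring]
    simp only [E.size]
    omega
  rintro i hi t ht ⟨t9, t10⟩ t20 t21
  have hi' : i + 2 ≤ I.n := by omega
  have F := hs.app ht (by decide) (range3 _ (fun j => range3 _ (hf j) _) _)
  have hc := ht.cnt
  have hp := ht.ptr
  rw [len3 _ (range3 _ (fun j => range3 _ (hf j) _) _)] at hp
  rw [rangeLen _ I.E.length (fun i => by rw [rangeLen _ 1 (fun _ => rfl), Nat.mul_one]), h18] at hc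
  rw [rangeLen _ I.E.length (fun i => by rw [rangeLen _ 1 (fun _ => rfl), Nat.mul_one]), hs.r17, h18] at hp
  have hn : (i + 2) * I.E.length ≤ I.n * I.E.length := Nat.mul_le_mul_right _ hi'
  have hn' : (i + 2) * I.N ≤ I.n * I.N := Nat.mul_le_mul_right _ hi'
  rw [Nat.add_mul] at hn hn'
  refine (level2 F ?_ ?_ ?_ ?_ t9 t10 t20 t21).mono le_rfl ?_
  · clear t21 hi hp hc hn
    omega
  · rw [hp]
    clear t21 hi hp hc hn'
    omega
  · rw [hc]
    clear t21 hi hp hc hn'
    omega
  · omega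
  rintro u ⟨u1, u2, u3, u4, u5⟩
  refine ⟨u1, u2, u3, ?_, ?_⟩
  · rw [upd_ne _ _ (by decide), upd_ne _ _ (by decide), u4]
  · rw [upd_ne _ _ (by decide), upd_ne _ _ (by decide), u5]

/-- the rules of the output -/
def g3r (I : CPInst) (v : ℕ) : List (List ℕ) := [[lv I.n I.N I.n 0, lv I.n I.N (I.n - 1) v, I.n]]

lemma loop3 {I : CPInst} {w : ℕ} {s : Data} (hb : Big I w) (hs : F5 I s)
    (h18 : s.reg 18 = I.N + (I.n - 1) * I.E.length) (h9 : s.reg 9 = I.n + 1 + I.n * I.N)
    (h10 : s.reg 10 = I.n + 1 + (I.n - 1) * I.N) :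
    HT w (forr 20 21 (.r 3) (recd [.r 9, .add (.r 10) (.r 20), .r 1])) s
      (I.N * 60 + 10) (fun t => App [20, 21] s t ((List.range I.N).flatMap (g3r I))) := by
  unfold Big at hb
  have hn : (I.n - 1) * I.E.length ≤ I.n * I.E.length := Nat.mul_le_mul_right _ (by omega)
  have hn' : (I.n - 1) * I.N ≤ I.n * I.N := Nat.mul_le_mul_right _ (by omega)
  refine HT.forApp I.N 50 [20, 21] (g3r I) (fun _ _ => True)
    (by decide) (by decide) (by decide) (by decide) (by decide) (by decide) (by decide) (by decide) (by decide)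
    rfl (by decide) trivial hs.r3 (by omega) trivial ?_ (by simp only [E.size]; omega) (fun t ht _ => ht)
  intro j hj t ht _ t20 t21
  have hf : ∀ j, ∀ l ∈ g3r I j, l.length = 3 := by
    intro j l hl
    simp only [g3r, List.mem_singleton] at hl
    rw [hl]
    rfl
  have F := hs.app ht (by decide) (range3 _ hf j)
  have hc := ht.cnt
  have hp := ht.ptr
  rw [len3 _ (range3 _ hf j)] at hp
  rw [rangeLen _ 1 (fun _ => rfl), h18] at hc
  rw [rangeLen _ 1 (fun _ => rfl), hs.r17, h18] at hp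
  have t9 : t.reg 9 = I.n + 1 + I.n * I.N := (ht.reg 9 (by decide) (by decide) (by decide)).trans h9
  have t10 : t.reg 10 = I.n + 1 + (I.n - 1) * I.N := (ht.reg 10 (by decide) (by decide) (by decide)).trans h10
  refine HT.recd ?_ (show t.reg 17 + 3 < 2 ^ w from ?_) ?_ ?_ (by decide)
  · intro e he
    simp only [List.mem_cons, List.not_mem_nil, or_false] at he
    rcases he with rfl | rfl | rfl
    · exact ⟨by decide, by decide, by decide, trivial⟩
    · refine ⟨by decide, by decide, by decide, trivial, trivial, ?_⟩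
      simp only [E.val, t10, t20]
      clear t21 hp hc hn t9 t10
      omega
    · exact ⟨by decide, by decide, by decide, trivial⟩
  · rw [hp]
    clear t21 hp hc t9 t10 hn'
    omega
  · rw [hc]
    clear t21 hp hc t9 t10 hn'
    omega
  · intro u hu
    refine ⟨?_, ?_, ?_, trivial⟩
    · have e1 : I.n + 1 + (I.n - 1) * I.N + j = lv I.n I.N (I.n - 1) j := by
        unfold lv
        ring
      have e2 : I.n + 1 + I.n * I.N = lv I.n I.N I.n 0 := by
        unfold lv
        ring
      have h1 := hu.wk (F' := [20, 21]) (by simp)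
      simp only [List.map_cons, List.map_nil, E.val, F.r1, t9, t10, t20, e1, e2] at h1
      exact h1
    · rw [hu.reg 20 (by decide) (by decide) (by decide)]
      exact t20
    · rw [hu.reg 21 (by decide) (by decide) (by decide)]
      exact t21

/-! ### The list -/

def rc (t : ℕ × ℕ × ℕ) : List ℕ := [t.1, t.2.1, t.2.2]

lemma flatMap_one {α : Type} (L : List α) (g : α → List ℕ) : L.flatMap (fun a => [g a]) = L.map g := by
  induction L with
  | nil => rfl
  | cons a L ih => rw [List.flatMap_cons, ih, List.map_cons, List.singleton_append]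

lemma list5 (I : CPInst) : (List.range I.N).flatMap (g1r I) ++
    (((List.range (I.n - 1)).flatMap fun i => (List.range I.E.length).flatMap (g2r I i)) ++
      (List.range I.N).flatMap (g3r I)) = (rules5 I.n I.N I.col I.E).map rc := by
  unfold rules5
  rw [List.map_append, List.map_append, List.map_map, List.map_map, List.map_flatMap]
  congr 1
  · unfold g1r
    rw [flatMap_one]
    refine List.map_congr_left fun v _ => ?_
    simp only [Function.comp, rc, lv]
    rw [Nat.zero_mul, Nat.add_zero]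
  congr 1
  · refine congrArg (fun f => List.flatMap f (List.range (I.n - 1))) (funext fun i => ?_)
    unfold g2r
    rw [flatMap_range_getD I.E (0, 0) (fun e => [[lv I.n I.N (i + 1) e.2, lv I.n I.N i e.1, lv I.n I.N 0 e.2]]),
      flatMap_one, List.map_map]
    rfl
  · unfold g3r
    rw [flatMap_one]
    rfl

lemma pairs (E : List (ℕ × ℕ)) : (E.flatMap fun e => [e.1, e.2]).length = 2 * E.length ∧ ∀ k,
    (E.flatMap fun e => [e.1, e.2]).getD (2 * k) 0 = (E.getD k (0, 0)).1 ∧
    (E.flatMap fun e => [e.1, e.2]).getD (2 * k + 1) 0 = (E.getD k (0, 0)).2 := by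
  induction E with
  | nil => exact ⟨rfl, fun k => ⟨by simp, by simp⟩⟩
  | cons a E ih =>
    obtain ⟨h1, h2⟩ := ih
    refine ⟨?_, fun k => ?_⟩
    · rw [List.flatMap_cons, List.length_append, h1, List.length_cons]
      simp only [List.length_cons, List.length_nil]
      ring
    · rcases k with _ | k
      · exact ⟨rfl, rfl⟩
      · rw [show 2 * (k + 1) = (2 * k + 1) + 1 by ring, List.flatMap_cons]
        simp only [List.cons_append, List.nil_append, List.getD_cons_succ]
        exact h2 k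

lemma init (I : CPInst) (mem : ℕ → ℕ)
    (h : ∀ i (h : i < (ColourfulPath.enc I).length), mem i = (ColourfulPath.enc I)[i]) :
    mem 0 = I.n ∧ mem 1 = I.N ∧ mem 2 = I.E.length ∧ (∀ v < I.N, mem (3 + v) = I.col v) ∧
    (∀ k < I.E.length, mem (3 + I.N + 2 * k) = (I.E.getD k (0, 0)).1) ∧
    (∀ k < I.E.length, mem (3 + I.N + 2 * k + 1) = (I.E.getD k (0, 0)).2) := by
  obtain ⟨p1, p2⟩ := pairs I.E
  have hl : (ColourfulPath.enc I).length = 3 + (I.N + 2 * I.E.length) := by
    change ([I.n, I.N, I.E.length] ++ ((List.range I.N).map I.col ++ I.E.flatMap fun e => [e.1, e.2])).length = _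
    rw [List.length_append, List.length_append, p1, List.length_map, List.length_range]
    rfl
  have hg : ∀ i < 3 + (I.N + 2 * I.E.length), mem i =
      ([I.n, I.N, I.E.length] ++ ((List.range I.N).map I.col ++ I.E.flatMap fun e => [e.1, e.2])).getD i 0 := by
    intro i hi
    rw [h i (by rw [hl]; exact hi)]
    exact (List.getD_eq_getElem _ _ (lt_of_lt_of_eq hi hl.symm)).symm
  refine ⟨hg 0 (by omega), hg 1 (by omega), hg 2 (by omega), fun v hv => ?_, fun k hk => ?_, fun k hk => ?_⟩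
  · rw [hg _ (by omega), List.getD_append_right _ _ _ _ (by simp), List.getD_append _ _ _ _ (by simp; omega)]
    simp only [List.length_cons, List.length_nil]
    rw [show 3 + v - (0 + 1 + 1 + 1) = v by omega, List.getD_eq_getElem _ _ (by simpa using hv), List.getElem_map,
      List.getElem_range]
  · rw [hg _ (by omega), List.getD_append_right _ _ _ _ (by simp; omega),
      List.getD_append_right _ _ _ _ (by simp; omega), ← (p2 k).1]
    simp only [List.length_cons, List.length_nil, List.length_map, List.length_range]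
    congr 1
    omega
  · rw [hg _ (by omega), List.getD_append_right _ _ _ _ (by simp; omega),
      List.getD_append_right _ _ _ _ (by simp; omega), ← (p2 k).2]
    simp only [List.length_cons, List.length_nil, List.length_map, List.length_range]
    congr 1
    omega

/-! ### The header and the end -/

lemma head {I : CPInst} {w : ℕ} {mem : ℕ → ℕ} {q : Stmt} {T : ℕ} {Q : Data → Prop} (hb : Big I w)
    (hm : mem 0 = I.n ∧ mem 1 = I.N ∧ mem 2 = I.E.length ∧ (∀ v < I.N, mem (3 + v) = I.col v) ∧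
      (∀ k < I.E.length, mem (3 + I.N + 2 * k) = (I.E.getD k (0, 0)).1) ∧
      (∀ k < I.E.length, mem (3 + I.N + 2 * k + 1) = (I.E.getD k (0, 0)).2))
    (h : ∀ s, F5 I s → s.reg 18 = 0 → HT w q s T Q) :
    HT w (Stmt.seq (set 1 (.ld (.c 0))) <| Stmt.seq (set 3 (.ld (.c 1))) <| Stmt.seq (set 5 (.ld (.c 2))) <|
      Stmt.seq (set 2 (.add (.r 3) (.r 5))) <|
      Stmt.seq (set 15 (.add (.add (.add (.c 3) (.r 3)) (.r 5)) (.r 5))) <|
      Stmt.seq (set 17 (.add (.r 15) (.c 4))) <| Stmt.seq (set 18 (.c 0)) <|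
      Stmt.seq (set 8 (.add (.r 1) (.c 1))) q) ⟨fun _ => 0, mem⟩ (T + 60) Q := by
  obtain ⟨m0, m1, m2, m3, m4, m5⟩ := hm
  unfold Big at hb
  refine seqSet (T + 50) (by decide) rfl (by decide) (by simp only [E.ok]; omega) ?_ (by simp only [E.size]; omega)
  refine seqSet (T + 45) (by decide) rfl (by decide) (by simp only [E.ok]; omega) ?_ (by simp only [E.size]; omega)
  refine seqSet (T + 40) (by decide) rfl (by decide) (by simp only [E.ok]; omega) ?_ (by simp only [E.size]; omega)
  simp only [E.val, upd_mem, m0, m1, m2]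
  refine seqSet (T + 35) (by decide) rfl (by decide) ?_ ?_ (by simp only [E.size]; omega)
  · simp [E.ok, E.val, upd_reg]
    omega
  simp only [E.val, upd_reg]
  refine seqSet (T + 20) (by decide) rfl (by decide) ?_ ?_ (by simp only [E.size]; omega)
  · simp [E.ok, E.val, upd_reg]
    omega
  simp only [E.val, upd_reg]
  refine seqSet (T + 15) (by decide) rfl (by decide) ?_ ?_ (by simp only [E.size]; omega)
  · simp [E.ok, E.val, upd_reg]
    omega
  simp only [E.val, upd_reg]
  refine seqSet (T + 10) (by decide) rfl (by decide) (by simp only [E.ok]; omega) ?_ (by simp only [E.size]; omega)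
  refine seqSet T (by decide) rfl (by decide) ⟨trivial, by simp only [E.ok]; omega, ?_⟩ ?_
    (by simp only [E.size]; omega)
  · simp [E.val, upd_reg]
    omega
  simp only [E.val, upd_reg]
  refine h _ ?_ ?_
  · refine ⟨?_, ?_, ?_, ?_, ?_, ?_, ?_, m3, m4, m5⟩
    all_goals simp [upd_reg]
    omega
  · simp [upd_reg]

/-- the words of the output -/
lemma wr {n S r o b : ℕ} {f : List ℕ} {s t : Data} (h17 : s.reg 17 = b + 4) (hnew : ∀ i < f.length, t.mem (s.reg 17 + i) =
    f.getD i 0) : Wr (updm (updm (updm (updm t b n) (b + 1) S) (b + 2) r) (b + 3) o) b ([n, S, r, o] ++ f) := by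
  intro i hi
  simp only [updm_mem]
  rcases i with _ | _ | _ | _ | i
  · rw [if_neg (by omega), if_neg (by omega), if_neg (by omega), if_pos (by omega)]
    rfl
  · rw [if_neg (by omega), if_neg (by omega), if_pos (by omega)]
    rfl
  · rw [if_neg (by omega), if_pos (by omega)]
    rfl
  · rw [if_pos (by omega)]
    rfl
  · rw [if_neg (by omega), if_neg (by omega), if_neg (by omega), if_neg (by omega)]
    have hi' : i < f.length := by
      simp only [List.length_append, List.length_cons, List.length_nil] at hi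
      omega
    have h1 := hnew i hi'
    rw [h17] at h1
    rw [show b + (i + 1 + 1 + 1 + 1) = b + 4 + i by ring, h1]
    rfl

/-- the time -/
def time (I : CPInst) : ℕ := 2 * (I.N * 60 + 10) + ((I.n - 1) * (I.E.length * 70 + 40) + 10) + 200

lemma gen {I : CPInst} {w : ℕ} {mem : ℕ → ℕ} (hb : Big I w)
    (hm : mem 0 = I.n ∧ mem 1 = I.N ∧ mem 2 = I.E.length ∧ (∀ v < I.N, mem (3 + v) = I.col v) ∧
      (∀ k < I.E.length, mem (3 + I.N + 2 * k) = (I.E.getD k (0, 0)).1) ∧
      (∀ k < I.E.length, mem (3 + I.N + 2 * k + 1) = (I.E.getD k (0, 0)).2)) :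
    HT w g5 ⟨fun _ => 0, mem⟩ (time I) (fun t => t.reg 1 = I.n ∧ t.reg 2 = I.N + I.E.length ∧
      t.reg 15 = 3 + I.N + I.E.length + I.E.length ∧
      Wr t (t.reg 15) ([I.n, lv I.n I.N I.n 0 + 1, (rules5 I.n I.N I.col I.E).length, lv I.n I.N I.n 0] ++
        (rules5 I.n I.N I.col I.E).flatMap rc)) := by
  have hb' := hb
  unfold Big at hb'
  have h1n := I.pos
  have k0 : 10 < 2 ^ w := by omega
  have k1 : 3 + I.N + I.E.length + I.E.length + 3 < 2 ^ w := by omega
  have k2 : I.n + 1 + I.n * I.N + 1 < 2 ^ w := by omega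
  have k3 : I.n + 1 + I.N < 2 ^ w := by omega
  clear hb'
  have hnN : (I.n - 1) * I.N + I.N = I.n * I.N := by
    obtain ⟨k, hk⟩ : ∃ k, I.n = k + 1 := ⟨I.n - 1, by omega⟩
    rw [hk]
    simp only [Nat.add_sub_cancel]
    ring
  unfold time
  refine (head (T := 2 * (I.N * 60 + 10) + ((I.n - 1) * (I.E.length * 70 + 40) + 10) + 140) hb hm ?_).mono le_rfl
    (fun _ h => h)
  intro s F h18
  have h17 := F.r17
  have h15 := F.r15
  refine HT.seq (T1 := I.N * 60 + 10) (T2 := (I.N * 60 + 10) + ((I.n - 1) * (I.E.length * 70 + 40) + 10) + 140)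
    (loop1 hb F h18) ?_ (by omega)
  intro t ht
  have Ft := F.app ht (by decide) (range3 _ (by intro j l hl; simp only [g1r, List.mem_singleton] at hl; rw [hl]; rfl) _)
  have t8 := Ft.r8
  have t3 := Ft.r3
  refine seqSet ((I.N * 60 + 10) + ((I.n - 1) * (I.E.length * 70 + 40) + 10) + 130) (by decide) rfl (by decide)
    ⟨trivial, trivial, ?_⟩ ?_ (by simp only [E.size]; omega)
  · simp only [E.val, t8, t3]
    exact k3
  simp only [E.val, t8, t3]
  refine seqSet ((I.N * 60 + 10) + ((I.n - 1) * (I.E.length * 70 + 40) + 10) + 120) (by decide) rfl (by decide)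
    trivial ?_ (by simp only [E.size]; omega)
  have hv : (E.r 8).val (upd t 9 (I.n + 1 + I.N)) = I.n + 1 := by
    simp only [E.val]
    rw [upd_ne _ _ (by decide), t8]
  rw [hv]
  have Fu : F5 I (upd (upd t 9 (I.n + 1 + I.N)) 10 (I.n + 1)) := (Ft.upd (by decide)).upd (by decide)
  have hu : App [9, 10, 20, 21, 22, 23, 24, 25, 26] s (upd (upd t 9 (I.n + 1 + I.N)) 10 (I.n + 1))
      ((List.range I.N).flatMap (g1r I)) :=
    ((ht.wk (F' := [9, 10, 20, 21, 22, 23, 24, 25, 26]) (by decide)).upd _ (by decide) (by decide) (by decide)).upd _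
      (by decide) (by decide) (by decide)
  have u9 : (upd (upd t 9 (I.n + 1 + I.N)) 10 (I.n + 1)).reg 9 = I.n + 1 + I.N := by
    rw [upd_ne _ _ (by decide), upd_self]
  have u10 : (upd (upd t 9 (I.n + 1 + I.N)) 10 (I.n + 1)).reg 10 = I.n + 1 := upd_self _ _ _
  generalize upd (upd t 9 (I.n + 1 + I.N)) 10 (I.n + 1) = u at Fu hu u9 u10 ⊢
  have u18 : u.reg 18 = I.N := by
    rw [hu.cnt, h18, rangeLen _ 1 (fun _ => rfl)]
    omega
  refine HT.seq (T1 := (I.n - 1) * (I.E.length * 70 + 40) + 10) (T2 := (I.N * 60 + 10) + 120)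
    (loop2 hb Fu u18 u9 u10) ?_ (by omega)
  rintro v ⟨hv, v9, v10⟩
  have hf : ∀ i j, ∀ l ∈ g2r I i j, l.length = 3 := by
    intro i j l hl
    simp only [g2r, List.mem_singleton] at hl
    rw [hl]
    rfl
  have Fv := Fu.app hv (by decide) (range3 _ (fun j => range3 _ (hf j) _) _)
  rw [hnN] at v9
  have v18 : v.reg 18 = I.N + (I.n - 1) * I.E.length := by
    rw [hv.cnt, u18, rangeLen _ I.E.length (fun i => by rw [rangeLen _ 1 (fun _ => rfl), Nat.mul_one])]
  refine HT.seq (T1 := I.N * 60 + 10) (T2 := 120) (loop3 hb Fv v18 v9 v10) ?_ (by omega)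
  intro x hx
  have hfin : App [9, 10, 20, 21, 22, 23, 24, 25, 26] s x ((rules5 I.n I.N I.col I.E).map rc) := by
    rw [← list5]
    exact hu.trans (hv.trans (hx.wk (by decide)))
  have x9 : x.reg 9 = I.n + 1 + I.n * I.N := (hx.reg 9 (by decide) (by decide) (by decide)).trans v9
  have x1 : x.reg 1 = I.n := (hfin.reg 1 (by decide) (by decide) (by decide)).trans F.r1
  have x2 : x.reg 2 = I.N + I.E.length := (hfin.reg 2 (by decide) (by decide) (by decide)).trans F.r2
  have x15 : x.reg 15 = 3 + I.N + I.E.length + I.E.length :=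
    (hfin.reg 15 (by decide) (by decide) (by decide)).trans F.r15
  have x18 : x.reg 18 = (rules5 I.n I.N I.col I.E).length := by
    rw [hfin.cnt, h18, List.length_map, Nat.zero_add]
  refine seqSto 110 rfl (by decide) trivial rfl (by decide) trivial ?_ (by decide)
  refine seqSto 100 rfl (by decide) ⟨trivial, lt_of_le_of_lt (by norm_num) k0, ?_⟩ rfl (by decide)
    ⟨trivial, lt_of_le_of_lt (by norm_num) k0, ?_⟩ ?_ (by decide)
  · simp only [E.val, updm_reg, x15]
    exact lt_of_le_of_lt (Nat.add_le_add_left (by norm_num) _) k1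
  · simp only [E.val, updm_reg, x9]
    exact k2
  refine seqSto 90 rfl (by decide) ⟨trivial, lt_of_le_of_lt (by norm_num) k0, ?_⟩ rfl (by decide) trivial ?_ (by decide)
  · simp only [E.val, updm_reg, x15]
    exact lt_of_le_of_lt (Nat.add_le_add_left (by norm_num) _) k1
  refine seqSto 80 rfl (by decide) ⟨trivial, lt_of_le_of_lt (by norm_num) k0, ?_⟩ rfl (by decide) trivial ?_ (by decide)
  · simp only [E.val, updm_reg, x15]
    exact k1
  refine HT.skip ⟨x1, x2, x15, ?_⟩
  simp only [E.val, updm_reg, x1, x9, x15, x18]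
  have hl : lv I.n I.N I.n 0 = I.n + 1 + I.n * I.N := rfl
  rw [hl]
  refine wr (s := s) (by rw [h17, h18]; ring) fun i hi => ?_
  have h1 : ((rules5 I.n I.N I.col I.E).map rc).flatten = (rules5 I.n I.N I.col I.E).flatMap rc := rfl
  rw [← h1] at hi ⊢
  exact hfin.new i hi

/-- all the words and the time are at most `B^12` -/
lemma arith {n N m : ℕ} (h1 : 1 ≤ n) :
    20 + 8 * N + 2 * m + 3 * (n * m) + n * N + 2 * n < (n + (N + m) + 2) ^ 12 ∧
    2 * (N * 60 + 10) + ((n - 1) * (m * 70 + 40) + 10) + 200 ≤ (n + (N + m) + 2) ^ 12 ∧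
    (n + 1 + n * N + 0 + 1) + (N + ((n - 1) * m + N)) ≤ (n + (N + m) + 2) ^ 12 ∧
    4 + 3 * (N + ((n - 1) * m + N)) ≤ (n + (N + m) + 2) ^ 12 := by
  obtain ⟨B, hB⟩ : ∃ B, B = n + (N + m) + 2 := ⟨_, rfl⟩
  rw [← hB]
  have hB3 : 3 ≤ B := by omega
  have e1 : n * m ≤ B * B := Nat.mul_le_mul (by omega) (by omega)
  have e2 : n * N ≤ B * B := Nat.mul_le_mul (by omega) (by omega)
  have e3 : (n - 1) * (m * 70 + 40) ≤ B * (B * 110) := Nat.mul_le_mul (by omega) (by omega)
  have e4 : (n - 1) * m ≤ B * B := Nat.mul_le_mul (by omega) (by omega)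
  have e5 : B * B * 1000 ≤ B ^ 12 := by
    have h2 : 3 ^ 10 ≤ B ^ 10 := Nat.pow_le_pow_left hB3 10
    calc B * B * 1000 ≤ B * B * B ^ 10 := Nat.mul_le_mul_left _ (le_trans (by norm_num) h2)
      _ = B ^ 12 := by ring
  have e6 : 3 * B ≤ B * B := Nat.mul_le_mul_right _ hB3
  have e7 : B * (B * 110) = B * B * 110 := by ring
  rw [e7] at e3
  refine ⟨?_, ?_, ?_, ?_⟩
  · omega
  · omega
  · omega
  · omega

lemma len5 (n N : ℕ) (col : ℕ → ℕ) (E : List (ℕ × ℕ)) :
    (rules5 n N col E).length = N + ((n - 1) * E.length + N) := by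
  unfold rules5
  simp [List.length_flatMap]

lemma lenrc (L : List (ℕ × ℕ × ℕ)) : (L.flatMap rc).length = 3 * L.length := by
  induction L with
  | nil => rfl
  | cons a L ih =>
    rw [List.flatMap_cons, List.length_append, ih, List.length_cons]
    simp only [rc, List.length_cons, List.length_nil]
    ring

end P5x

open P5x in
/-- Row P5. -/
theorem p5 : P5 := by
  intro h hM
  have hpos : ∀ I : CPInst, 1 ≤ 2 ^ I.n := fun I => Nat.one_le_two_pow
  refine ⟨12, ⟨fun I => ?_, fun I => ?_, fun I => ?_, fun I v hv => ?_, fun I => hM h I, ?_⟩⟩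
  · exact Nat.le_add_right _ _
  · obtain ⟨-, -, a3, -⟩ := arith (n := CPInst.n I) (N := CPInst.N I) (m := (CPInst.E I).length) (CPInst.pos I)
    change (lv (CPInst.n I) (CPInst.N I) (CPInst.n I) 0 + 1) + (rules5 _ _ _ _).length ≤ _
    rw [len5]
    exact a3
  · obtain ⟨-, -, -, a4⟩ := arith (n := CPInst.n I) (N := CPInst.N I) (m := (CPInst.E I).length) (CPInst.pos I)
    change (_ ++ (rules5 (CPInst.n I) (CPInst.N I) (CPInst.col I) (CPInst.E I)).flatMap rc).length ≤ _
    rw [List.length_append, lenrc, len5]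
    exact a4
  · have h1 := hpos I
    obtain ⟨a1, -, a3, -⟩ := arith (n := CPInst.n I) (N := CPInst.N I) (m := (CPInst.E I).length) (CPInst.pos I)
    have h2 : (CPInst.n I + (CPInst.N I + (CPInst.E I).length) + 2) ^ 12 ≤
        (2 ^ CPInst.n I * (CPInst.n I + (CPInst.N I + (CPInst.E I).length) + 2)) ^ 12 :=
      Nat.pow_le_pow_left (Nat.le_mul_of_pos_left _ h1) 12
    refine lt_of_lt_of_le ?_ h2
    have hS : lv (CPInst.n I) (CPInst.N I) (CPInst.n I) 0 = CPInst.n I + 1 + CPInst.n I * CPInst.N I + 0 := rfl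
    change v ∈ ([CPInst.n I, lv (CPInst.n I) (CPInst.N I) (CPInst.n I) 0 + 1,
      (rules5 (CPInst.n I) (CPInst.N I) (CPInst.col I) (CPInst.E I)).length,
      lv (CPInst.n I) (CPInst.N I) (CPInst.n I) 0] ++
        (rules5 (CPInst.n I) (CPInst.N I) (CPInst.col I) (CPInst.E I)).flatMap rc) at hv
    rw [List.mem_append, List.mem_flatMap, hS, len5] at hv
    have h4 : (CPInst.n I - 1) * (CPInst.E I).length ≤ CPInst.n I * (CPInst.E I).length :=
      Nat.mul_le_mul_right _ (Nat.sub_le _ _)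
    rcases hv with hv | ⟨t, ht, hv⟩
    · simp only [List.mem_cons, List.not_mem_nil, or_false] at hv
      rcases hv with rfl | rfl | rfl | rfl <;> omega
    · have h5 := h _ _ _ _ (CPInst.pos I) (CPInst.col_lt I) (CPInst.lt I) t ht
      rw [hS] at h5
      simp only [rc, List.mem_cons, List.not_mem_nil, or_false] at hv
      rcases hv with rfl | rfl | rfl <;> omega
  · intro I w mem hw _ hm
    have h1 := hpos I
    obtain ⟨a1, a2, a3, -⟩ := arith (n := CPInst.n I) (N := CPInst.N I) (m := (CPInst.E I).length) (CPInst.pos I)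
    have h2 : (CPInst.n I + (CPInst.N I + (CPInst.E I).length) + 2) ^ 12 ≤
        (2 ^ CPInst.n I * (CPInst.n I + (CPInst.N I + (CPInst.E I).length) + 2)) ^ 12 :=
      Nat.pow_le_pow_left (Nat.le_mul_of_pos_left _ h1) 12
    refine (gen (I := I) (lt_of_lt_of_le a1 (h2.trans hw)) (init I mem hm)).mono a2 ?_
    rintro t ⟨t1, t2, t3, t4⟩
    refine ⟨t1, t2, ?_, t4⟩
    rw [t3]
    change _ ≤ (CPInst.n I + (CPInst.N I + (CPInst.E I).length) + 2) ^ 12
    omega

end SCM
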