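import Pool.Agent.Lib.SCM.Pure

/-!
# Row Q1: cutting a derivation
-/

namespace SCM

namespace Q1x

variable {n K : ℕ} {R : List (ℕ × ℕ × ℕ)}

/-- the weight: the number of letters which are variables -/
def wt (n : ℕ) (A : Finset ℕ) : ℕ := (A.filter (· < n)).card

lemma wt_empty : wt n ∅ = 0 := by simp [wt]

lemma wt_single_ge {h : ℕ} (hh : n ≤ h) : wt n {h} = 0 := by
  rw [wt, Finset.card_eq_zero, Finset.filter_eq_empty_iff]
  intro x hx
  rw [Finset.mem_singleton] at hx
  omega

lemma wt_single_le (a : ℕ) : wt n {a} ≤ 1 := by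
  refine (Finset.card_le_card (Finset.filter_subset _ _)).trans ?_
  simp

lemma wt_union {A B : Finset ℕ} (h : Disjoint A B) : wt n (A ∪ B) = wt n A + wt n B := by
  rw [wt, Finset.filter_union, Finset.card_union_of_disjoint]
  · rfl
  · exact Finset.disjoint_filter_filter h

lemma wt_sdiff {A Y : Finset ℕ} (h : Y ⊆ A) : wt n (A \ Y) + wt n Y = wt n A := by
  rw [← wt_union Finset.sdiff_disjoint, Finset.sdiff_union_of_subset h]

lemma wt_range : wt n (Finset.range n) = n := by
  rw [wt, Finset.filter_true_of_mem (fun x hx => Finset.mem_range.1 hx), Finset.card_range]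

/-- the gates of the holes which do not occur may be changed -/
lemma congr {q q' : ℕ → ℕ} {x : ℕ} {A : Finset ℕ} (h : MonoH n K q R x A) :
    (∀ j, n + j ∈ A → q j = q' j) → MonoH n K q' R x A := by
  induction h with
  | var ha => intro _; exact MonoH.var ha
  | one => intro _; exact MonoH.one
  | hole hj =>
    intro hq
    rw [hq _ (Finset.mem_singleton_self _)]
    exact MonoH.hole hj
  | mul hR h1 h2 hd ih1 ih2 =>
    intro hq
    exact MonoH.mul hR (ih1 fun j hj => hq j (Finset.mem_union_left _ hj))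
      (ih2 fun j hj => hq j (Finset.mem_union_right _ hj)) hd

lemma congr_update {q : ℕ → ℕ} {x z t : ℕ} {A : Finset ℕ} (h : MonoH n K q R x A)
    (hA : ∀ a ∈ A, a < n + t) : MonoH n K (Function.update q t z) R x A := by
  refine congr h fun j hj => ?_
  have h1 : j ≠ t := by
    rintro rfl
    exact absurd (hA _ hj) (lt_irrefl _)
  rw [Function.update_of_ne h1]

lemma gate_lt {q : ℕ → ℕ} {S x : ℕ} {A : Finset ℕ} (hn : n < S) (hq : ∀ j, q j < S)
    (hR : ∀ t ∈ R, t.1 < S ∧ t.2.1 < t.1 ∧ t.2.2 < t.1) (h : MonoH n K q R x A) : x < S := by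
  induction h with
  | var ha => exact ha.trans hn
  | one => exact hn
  | hole hj => exact hq _
  | mul hm _ _ _ _ _ => exact (hR _ hm).1

lemma cut {q : ℕ → ℕ} {t s : ℕ} (ht : t < K) (hs : 1 ≤ s) {x : ℕ} {A : Finset ℕ}
    (h : MonoH n K q R x A) : (∀ a ∈ A, a < n + t) → s < wt n A →
    ∃ (z : ℕ) (Y : Finset ℕ), Y ⊆ A ∧ MonoH n K q R z Y ∧ wt n Y ≤ s ∧ s < 2 * wt n Y ∧
      MonoH n K (Function.update q t z) R x ((A \ Y) ∪ {n + t}) := by
  induction h with
  | @var a ha =>
    intro _ h
    have := wt_single_le (n := n) a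
    omega
  | one => intro _ h; rw [wt_empty] at h; omega
  | @hole j hj =>
    intro _ h
    rw [wt_single_ge (Nat.le_add_right _ _)] at h
    omega
  | @mul z0 x y A B hR h1 h2 hd ih1 ih2 =>
    intro hA hw
    have hA1 : ∀ a ∈ A, a < n + t := fun a ha => hA a (Finset.mem_union_left _ ha)
    have hA2 : ∀ a ∈ B, a < n + t := fun a ha => hA a (Finset.mem_union_right _ ha)
    have hh1 : n + t ∉ A := fun h => absurd (hA1 _ h) (lt_irrefl _)
    have hh2 : n + t ∉ B := fun h => absurd (hA2 _ h) (lt_irrefl _)
    rw [wt_union hd] at hw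
    by_cases c1 : s < wt n A
    · obtain ⟨z, Y, hY, g1, g2, g3, g4⟩ := ih1 hA1 c1
      refine ⟨z, Y, hY.trans Finset.subset_union_left, g1, g2, g3, ?_⟩
      have e : ((A ∪ B) \ Y) ∪ {n + t} = ((A \ Y) ∪ {n + t}) ∪ B := by
        have hBY : B \ Y = B := Finset.sdiff_eq_self_of_disjoint (hd.symm.mono_right hY)
        rw [Finset.union_sdiff_distrib, hBY]
        ac_rfl
      rw [e]
      refine MonoH.mul hR g4 (congr_update h2 hA2) ?_
      rw [Finset.disjoint_union_left]
      exact ⟨hd.mono_left Finset.sdiff_subset, Finset.disjoint_singleton_left.2 hh2⟩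
    by_cases c2 : s < wt n B
    · obtain ⟨z, Y, hY, g1, g2, g3, g4⟩ := ih2 hA2 c2
      refine ⟨z, Y, hY.trans Finset.subset_union_right, g1, g2, g3, ?_⟩
      have e : ((A ∪ B) \ Y) ∪ {n + t} = A ∪ ((B \ Y) ∪ {n + t}) := by
        have hAY : A \ Y = A := Finset.sdiff_eq_self_of_disjoint (hd.mono_right hY)
        rw [Finset.union_sdiff_distrib, hAY]
        ac_rfl
      rw [e]
      refine MonoH.mul hR (congr_update h1 hA1) g4 ?_
      rw [Finset.disjoint_union_right]
      exact ⟨hd.mono_right Finset.sdiff_subset, Finset.disjoint_singleton_right.2 hh1⟩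
    push Not at c1 c2
    by_cases c3 : wt n B ≤ wt n A
    · refine ⟨x, A, Finset.subset_union_left, h1, c1, by omega, ?_⟩
      have e : ((A ∪ B) \ A) ∪ {n + t} = {n + t} ∪ B := by
        rw [Finset.union_sdiff_left, Finset.sdiff_eq_self_of_disjoint hd.symm, Finset.union_comm]
      rw [e]
      refine MonoH.mul hR ?_ (congr_update h2 hA2) (Finset.disjoint_singleton_left.2 hh2)
      have := MonoH.hole (n := n) (q := Function.update q t x) (R := R) ht
      rwa [Function.update_self] at this
    · push Not at c3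
      refine ⟨y, B, Finset.subset_union_right, h2, c2, by omega, ?_⟩
      have e : ((A ∪ B) \ B) ∪ {n + t} = A ∪ {n + t} := by
        rw [Finset.union_sdiff_right, Finset.sdiff_eq_self_of_disjoint hd]
      rw [e]
      refine MonoH.mul hR (congr_update h1 hA1) ?_ (Finset.disjoint_singleton_right.2 hh1)
      have := MonoH.hole (n := n) (q := Function.update q t y) (R := R) ht
      rwa [Function.update_self] at this

/-- the state after `t` cuts -/
structure St (n K S o s : ℕ) (R : List (ℕ × ℕ × ℕ)) (t : ℕ) (q : ℕ → ℕ) (Y : ℕ → Finset ℕ)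
    (A : Finset ℕ) : Prop where
  q_lt : ∀ j, q j < S
  lt : ∀ i < t, ∀ x ∈ Y i, x < n + i
  ltA : ∀ x ∈ A, x < n + t
  wtY : ∀ i < t, wt n (Y i) ≤ s
  mono : ∀ i < t, MonoH n K q R (q i) (Y i)
  monoA : MonoH n K q R o A
  disj : ∀ i < t, ∀ i' < t, i ≠ i' → Disjoint (Y i) (Y i')
  disjA : ∀ i < t, Disjoint (Y i) A
  cover : ∀ x < n + t, x ∈ A ∨ ∃ i < t, x ∈ Y i
  wtA : wt n A ≤ s ∨ t * (s + 1) + 2 * wt n A ≤ 2 * n

lemma step {S o s t : ℕ} {q : ℕ → ℕ} {Y : ℕ → Finset ℕ} {A : Finset ℕ} (hn : n < S) (hs : 1 ≤ s)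
    (hR : ∀ t ∈ R, t.1 < S ∧ t.2.1 < t.1 ∧ t.2.2 < t.1) (ht : t < K)
    (h : St n K S o s R t q Y A) : ∃ q' Y' A', St n K S o s R (t + 1) q' Y' A' := by
  -- the cut
  obtain ⟨z, B, hB, g1, g2, g3, g4⟩ : ∃ (z : ℕ) (B : Finset ℕ), B ⊆ A ∧ MonoH n K q R z B ∧
      wt n B ≤ s ∧ (wt n A ≤ s → wt n (A \ B) = 0) ∧
      ((s < wt n A → s < 2 * wt n B) ∧
      MonoH n K (Function.update q t z) R o ((A \ B) ∪ {n + t})) := by
    by_cases c : s < wt n A
    · obtain ⟨z, B, h1, h2, h3, h4, h5⟩ := cut ht hs h.monoA h.ltA c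
      exact ⟨z, B, h1, h2, h3, fun h => absurd h (not_le.2 c), fun _ => h4, h5⟩
    · refine ⟨o, A, Finset.Subset.refl _, h.monoA, not_lt.1 c, fun _ => ?_, fun h => absurd h c, ?_⟩
      · rw [Finset.sdiff_self, wt_empty]
      · rw [Finset.sdiff_self, Finset.empty_union]
        have := MonoH.hole (n := n) (q := Function.update q t o) (R := R) ht
        rwa [Function.update_self] at this
  obtain ⟨g4, g5⟩ := g4
  have hBlt : ∀ x ∈ B, x < n + t := fun x hx => h.ltA x (hB hx)
  refine ⟨Function.update q t z, Function.update Y t B, (A \ B) ∪ {n + t}, ?_⟩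
  have hYi : ∀ i < t, Function.update Y t B i = Y i := fun i hi =>
    Function.update_of_ne (Nat.ne_of_lt hi) _ _
  have hYt : Function.update Y t B t = B := Function.update_self _ _ _
  have hcase : ∀ i < t + 1, i < t ∨ i = t := fun i hi => by omega
  refine ⟨?_, ?_, ?_, ?_, ?_, g5, ?_, ?_, ?_, ?_⟩
  · intro j
    by_cases hj : j = t
    · rw [hj, Function.update_self]
      exact gate_lt hn h.q_lt hR g1
    · rw [Function.update_of_ne hj]
      exact h.q_lt j
  · intro i hi
    rcases hcase i hi with hi | rfl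
    · rw [hYi i hi]; exact h.lt i hi
    · rw [hYt]; exact hBlt
  · intro x hx
    rcases Finset.mem_union.1 hx with hx | hx
    · have := h.ltA x (Finset.mem_sdiff.1 hx).1
      omega
    · rw [Finset.mem_singleton] at hx
      omega
  · intro i hi
    rcases hcase i hi with hi | rfl
    · rw [hYi i hi]; exact h.wtY i hi
    · rw [hYt]; exact g2
  · intro i hi
    rcases hcase i hi with hi | rfl
    · rw [hYi i hi, Function.update_of_ne (Nat.ne_of_lt hi)]
      refine congr_update (h.mono i hi) fun a ha => ?_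
      have := h.lt i hi a ha
      omega
    · rw [hYt, Function.update_self]
      exact congr_update g1 hBlt
  · intro i hi i' hi' hii
    rcases hcase i hi with hi | rfl
    · rcases hcase i' hi' with hi' | rfl
      · rw [hYi i hi, hYi i' hi']
        exact h.disj i hi i' hi' hii
      · rw [hYi i hi, hYt]
        exact (h.disjA i hi).mono_right hB
    · rcases hcase i' hi' with hi' | rfl
      · rw [hYi i' hi', hYt]
        exact ((h.disjA i' hi').mono_right hB).symm
      · exact absurd rfl hii
  · intro i hi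
    rw [Finset.disjoint_union_right]
    rcases hcase i hi with hi | rfl
    · rw [hYi i hi]
      refine ⟨(h.disjA i hi).mono_right Finset.sdiff_subset, Finset.disjoint_singleton_right.2 ?_⟩
      intro hc
      have := h.lt i hi _ hc
      omega
    · rw [hYt]
      refine ⟨Finset.disjoint_sdiff, Finset.disjoint_singleton_right.2 ?_⟩
      intro hc
      exact absurd (hBlt _ hc) (lt_irrefl _)
  · intro x hx
    by_cases hxt : x = n + t
    · left
      rw [hxt]
      exact Finset.mem_union_right _ (Finset.mem_singleton_self _)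
    · rcases h.cover x (by omega) with hA | ⟨i, hi, hxi⟩
      · by_cases hxB : x ∈ B
        · right
          exact ⟨t, Nat.lt_succ_self t, by rw [hYt]; exact hxB⟩
        · left
          exact Finset.mem_union_left _ (Finset.mem_sdiff.2 ⟨hA, hxB⟩)
      · right
        exact ⟨i, by omega, by rw [hYi i hi]; exact hxi⟩
  · have hw : wt n ((A \ B) ∪ {n + t}) = wt n (A \ B) := by
      rw [wt_union, wt_single_ge (Nat.le_add_right _ _), add_zero]
      rw [Finset.disjoint_singleton_right]
      intro hc
      exact absurd (h.ltA _ (Finset.mem_sdiff.1 hc).1) (lt_irrefl _)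
    rw [hw]
    have hsd := wt_sdiff (n := n) hB
    by_cases c : wt n A ≤ s
    · left
      rw [g3 c]
      omega
    · right
      have h1 := g4 (not_le.1 c)
      have h2 := h.wtA.resolve_left c
      have h3 : (t + 1) * (s + 1) = t * (s + 1) + (s + 1) := by ring
      omega

lemma ofMono {x : ℕ} {A : Finset ℕ} {q : ℕ → ℕ} (h : Mono n R x A) : MonoH n K q R x A := by
  induction h with
  | var ha => exact MonoH.var ha
  | one => exact MonoH.one
  | mul hR _ _ hd ih1 ih2 => exact MonoH.mul hR ih1 ih2 hd

lemma card_le {t s : ℕ} {A : Finset ℕ} (hA : ∀ x ∈ A, x < n + t) (hw : wt n A ≤ s) (ht : t ≤ K) :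
    A.card ≤ s + K := by
  have h1 : A ⊆ A.filter (· < n) ∪ Finset.Ico n (n + K) := by
    intro x hx
    by_cases c : x < n
    · exact Finset.mem_union_left _ (Finset.mem_filter.2 ⟨hx, c⟩)
    · refine Finset.mem_union_right _ (Finset.mem_Ico.2 ⟨not_lt.1 c, ?_⟩)
      have := hA x hx
      omega
  calc A.card ≤ (A.filter (· < n) ∪ Finset.Ico n (n + K)).card := Finset.card_le_card h1
    _ ≤ (A.filter (· < n)).card + (Finset.Ico n (n + K)).card := Finset.card_union_le _ _
    _ ≤ s + K := by
      rw [Nat.card_Ico]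
      have : (A.filter (· < n)).card ≤ s := hw
      omega

end Q1x

open Q1x in
theorem q1 : Q1 := by
  intro n S o K s R hn ho hR hs hK hm
  have main : ∀ t ≤ K, ∃ q Y A, St n K S o s R t q Y A := by
    intro t
    induction t with
    | zero =>
      intro _
      refine ⟨fun _ => n, fun _ => ∅, Finset.range n, fun _ => hn, ?_, ?_, ?_, ?_, ofMono hm, ?_, ?_,
        ?_, ?_⟩
      · intro i hi; omega
      · intro x hx; simpa using hx
      · intro i hi; omega
      · intro i hi; omega
      · intro i hi; omega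
      · intro i hi; omega
      · intro x hx
        left
        simpa using hx
      · right
        rw [wt_range]
        omega
    | succ t ih =>
      intro ht
      obtain ⟨q, Y, A, h⟩ := ih (by omega)
      exact step hn hs hR (by omega) h
  obtain ⟨q, Y, A, h⟩ := main K le_rfl
  have hwA : wt n A ≤ s := by
    rcases h.wtA with h1 | h1
    · exact h1
    · have : K * (s + 1) = K * s + K := by ring
      omega
  refine ⟨q, fun i => if i = K then A else Y i, fun j _ => h.q_lt j, ?_, ?_, ?_, ?_, ?_⟩
  · intro i hi x hx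
    by_cases c : i = K
    · simp only [c, if_true] at hx ⊢
      exact h.ltA x hx
    · simp only [c, if_false] at hx
      exact h.lt i (lt_of_le_of_ne hi c) x hx
  · intro i hi
    by_cases c : i = K
    · simp only [c, if_true]
      exact card_le h.ltA hwA le_rfl
    · simp only [c, if_false]
      have hi' := lt_of_le_of_ne hi c
      exact card_le (h.lt i hi') (h.wtY i hi') hi
  · intro i hi
    by_cases c : i = K
    · simp only [c, if_true, sym]
      exact h.monoA
    · simp only [c, if_false, sym]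
      exact h.mono i (lt_of_le_of_ne hi c)
  · intro i hi i' hi' hii
    by_cases c : i = K
    · have c' : i' ≠ K := fun h => hii (c.trans h.symm)
      simp only [c, c', if_true, if_false]
      exact (h.disjA i' (lt_of_le_of_ne hi' c')).symm
    · by_cases c' : i' = K
      · simp only [c, c', if_true, if_false]
        exact h.disjA i (lt_of_le_of_ne hi c)
      · simp only [c, c', if_false]
        exact h.disj i (lt_of_le_of_ne hi c) i' (lt_of_le_of_ne hi' c') hii
  · intro x hx
    rcases h.cover x hx with hA | ⟨i, hi, hxi⟩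
    · exact ⟨K, le_rfl, by simp only [if_true]; exact hA⟩
    · exact ⟨i, hi.le, by simp only [Nat.ne_of_lt hi, if_false]; exact hxi⟩

end SCM
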