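import Pool.Agent.Lib.SCM.Pure

/-!
# Row Q2: composing the pieces
-/

namespace SCM

namespace Q2x

variable {n K : ℕ} {R : List (ℕ × ℕ × ℕ)}

/-- substitution of a derivation for a hole -/
lemma subst {q : ℕ → ℕ} {t : ℕ} {Y : Finset ℕ} (hY : MonoH n K q R (q t) Y) {x : ℕ}
    {A : Finset ℕ} (h : MonoH n K q R x A) : n + t ∈ A → Disjoint Y (A \ {n + t}) →
    MonoH n K q R x ((A \ {n + t}) ∪ Y) := by
  induction h with
  | @var a ha =>
    intro h _
    rw [Finset.mem_singleton] at h
    omega
  | one => intro h _; exact absurd h (Finset.notMem_empty _)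
  | @hole j hj =>
    intro h _
    rw [Finset.mem_singleton] at h
    have : j = t := by omega
    subst this
    rw [Finset.sdiff_self, Finset.empty_union]
    exact hY
  | @mul z0 x y A B hR h1 h2 hd ih1 ih2 =>
    intro h hdY
    rcases Finset.mem_union.1 h with h | h
    · have hB : n + t ∉ B := fun hc => Finset.disjoint_left.1 hd h hc
      have hBe : B \ {n + t} = B := Finset.sdiff_eq_self_of_disjoint (Finset.disjoint_singleton_right.2 hB)
      rw [Finset.union_sdiff_distrib, hBe, Finset.disjoint_union_right] at hdY
      have e : ((A ∪ B) \ {n + t}) ∪ Y = ((A \ {n + t}) ∪ Y) ∪ B := by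
        rw [Finset.union_sdiff_distrib, hBe]
        ac_rfl
      rw [e]
      refine MonoH.mul hR (ih1 h hdY.1) h2 ?_
      rw [Finset.disjoint_union_left]
      exact ⟨hd.mono_left Finset.sdiff_subset, hdY.2⟩
    · have hA : n + t ∉ A := fun hc => Finset.disjoint_left.1 hd hc h
      have hAe : A \ {n + t} = A := Finset.sdiff_eq_self_of_disjoint (Finset.disjoint_singleton_right.2 hA)
      rw [Finset.union_sdiff_distrib, hAe, Finset.disjoint_union_right] at hdY
      have e : ((A ∪ B) \ {n + t}) ∪ Y = A ∪ ((B \ {n + t}) ∪ Y) := by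
        rw [Finset.union_sdiff_distrib, hAe]
        ac_rfl
      rw [e]
      refine MonoH.mul hR h1 (ih2 h hdY.2) ?_
      rw [Finset.disjoint_union_right]
      exact ⟨hd.mono_right Finset.sdiff_subset, hdY.1.symm⟩

/-- a derivation without holes -/
lemma toMono {q : ℕ → ℕ} {x : ℕ} {A : Finset ℕ} (h : MonoH n K q R x A) :
    (∀ a ∈ A, a < n) → Mono n R x A := by
  induction h with
  | var ha => intro _; exact Mono.var ha
  | one => intro _; exact Mono.one
  | @hole j hj =>
    intro h
    have := h _ (Finset.mem_singleton_self _)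
    omega
  | mul hR h1 h2 hd ih1 ih2 =>
    intro h
    exact Mono.mul hR (ih1 fun a ha => h a (Finset.mem_union_left _ ha))
      (ih2 fun a ha => h a (Finset.mem_union_right _ ha)) hd

end Q2x

open Q2x in
theorem q2 : Q2 := by
  intro n K o s q R Y h
  have main : ∀ d ≤ K, ∃ A : Finset ℕ, MonoH n K q R o A ∧ (∀ x ∈ A, x < n + (K - d)) ∧
      (∀ i < K - d, Disjoint (Y i) A) ∧ ∀ x < n + (K - d), x ∈ A ∨ ∃ i < K - d, x ∈ Y i := by
    intro d
    induction d with
    | zero =>
      intro _
      refine ⟨Y K, ?_, ?_, ?_, ?_⟩
      · have := h.mono K le_rfl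
        simpa [sym] using this
      · simpa using h.lt K le_rfl
      · intro i hi
        exact h.disj i (by omega) K le_rfl (by omega)
      · intro x hx
        obtain ⟨i, hi, hxi⟩ := h.cover x (by simpa using hx)
        rcases Nat.lt_or_eq_of_le hi with hi | rfl
        · exact Or.inr ⟨i, by omega, hxi⟩
        · exact Or.inl hxi
    | succ d ih =>
      intro hd
      obtain ⟨A, h1, h2, h3, h4⟩ := ih (by omega)
      obtain ⟨t, ht⟩ : ∃ t, t = K - (d + 1) := ⟨_, rfl⟩
      have ht1 : K - d = t + 1 := by omega
      rw [ht1] at h2 h3 h4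
      rw [← ht]
      have htK : t < K := by omega
      have hlt := h.lt t htK.le
      have hmem : n + t ∈ A := by
        rcases h4 (n + t) (by omega) with h5 | ⟨i, hi, hxi⟩
        · exact h5
        · have := h.lt i (by omega) _ hxi
          omega
      have hdt : Disjoint (Y t) A := h3 t (Nat.lt_succ_self t)
      have hmt : MonoH n K q R (q t) (Y t) := by
        have := h.mono t htK.le
        rwa [sym, if_neg (Nat.ne_of_lt htK)] at this
      refine ⟨(A \ {n + t}) ∪ Y t, subst hmt h1 hmem (hdt.mono_right Finset.sdiff_subset), ?_, ?_, ?_⟩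
      · intro x hx
        rcases Finset.mem_union.1 hx with hx | hx
        · obtain ⟨g1, g2⟩ := Finset.mem_sdiff.1 hx
          rw [Finset.mem_singleton] at g2
          have := h2 x g1
          omega
        · exact hlt x hx
      · intro i hi
        rw [Finset.disjoint_union_right]
        exact ⟨(h3 i (by omega)).mono_right Finset.sdiff_subset,
          h.disj i (by omega) t htK.le (by omega)⟩
      · intro x hx
        rcases h4 x (by omega) with hA | ⟨i, hi, hxi⟩
        · left
          refine Finset.mem_union_left _ (Finset.mem_sdiff.2 ⟨hA, ?_⟩)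
          rw [Finset.mem_singleton]
          omega
        · by_cases c : i = t
          · left
            rw [c] at hxi
            exact Finset.mem_union_right _ hxi
          · exact Or.inr ⟨i, by omega, hxi⟩
  obtain ⟨A, h1, h2, -, h4⟩ := main K le_rfl
  have e : A = Finset.range n := by
    ext x
    rw [Finset.mem_range]
    constructor
    · intro hx
      simpa using h2 x hx
    · intro hx
      rcases h4 x (by simpa using hx) with h5 | ⟨i, hi, -⟩
      · exact h5
      · omega
  rw [← e]
  exact toMono h1 fun a ha => by simpa using h2 a ha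

end SCM
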