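import Pool.Agent.Lib.SCM.Pure
import Pool.Agent.Lib.SCN.ME
import Pool.Agent.Lib.SCN.MA
import Pool.Agent.Lib.SCN.MB

/-!
# Row Q3: what the instances of Exact Cover ask
-/

namespace SCM

open SCR SCN

namespace Q3x

lemma mask_lt_iff {n : ℕ} (A : Finset (Fin n)) (k : ℕ) :
    mask A < 2 ^ k ↔ ∀ x ∈ A, (x : ℕ) < k := by
  constructor
  · intro h x hx
    by_contra hk
    push Not at hk
    have h1 : (mask A).testBit x = true := (testBit_mask A x).2 ⟨x.2, hx⟩
    have h2 : (mask A).testBit x = false :=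
      Nat.testBit_lt_two_pow (h.trans_le (Nat.pow_le_pow_right (by norm_num) hk))
    rw [h1] at h2
    exact Bool.noConfusion h2
  · intro h
    apply Nat.lt_pow_two_of_testBit
    intro i hi
    rw [← Bool.not_eq_true, testBit_mask]
    rintro ⟨h1, h2⟩
    have := h _ h2
    simp only at this
    omega

lemma mem_toN {n : ℕ} (Y : Finset (Fin n)) (x : ℕ) : x ∈ toN Y ↔ ∃ h : x < n, (⟨x, h⟩ : Fin n) ∈ Y := by
  unfold toN
  simp only [Finset.mem_map, Fin.valEmbedding_apply]
  constructor
  · rintro ⟨y, hy, rfl⟩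
    exact ⟨y.2, hy⟩
  · rintro ⟨h, hx⟩
    exact ⟨_, hx, rfl⟩

lemma card_toN {n : ℕ} (Y : Finset (Fin n)) : (toN Y).card = Y.card := Finset.card_map _

/-- a set of numbers `< n` as a set of `Fin n` -/
def ofN (n : ℕ) (Y : Finset ℕ) : Finset (Fin n) := Finset.univ.filter fun x => (x : ℕ) ∈ Y

lemma mem_ofN {n : ℕ} {Y : Finset ℕ} {x : Fin n} : x ∈ ofN n Y ↔ (x : ℕ) ∈ Y := by
  simp [ofN]

lemma toN_ofN {n : ℕ} {Y : Finset ℕ} (h : ∀ x ∈ Y, x < n) : toN (ofN n Y) = Y := by
  ext x
  rw [mem_toN]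
  constructor
  · rintro ⟨h1, h2⟩
    exact mem_ofN.1 h2
  · intro hx
    exact ⟨h x hx, mem_ofN.2 hx⟩

lemma mem_instE {n K o s : ℕ} {R : List (ℕ × ℕ × ℕ)} {q : ℕ → ℕ} {i : ℕ}
    (A : Finset (Fin (n + K + (K + 1)))) :
    A ∈ instE n K o s R q i ↔ ∃ c < i, ∃ S : Finset (Fin (n + K)), A = lift (K + 1) c S ∧ S.card ≤ s ∧
      (∀ x ∈ S, (x : ℕ) < n + c) ∧ MonoH n K q R (sym K o q c) (toN S) := by
  classical
  rw [instE, List.mem_flatMap]
  constructor
  · rintro ⟨c, hc, h⟩
    rw [pieceL, List.mem_map] at h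
    obtain ⟨S, hS, rfl⟩ := h
    rw [List.mem_filter, mem_smallL elistFacts] at hS
    obtain ⟨h1, h2⟩ := hS
    have h3 := of_decide_eq_true h2
    exact ⟨c, List.mem_range.1 hc, S, rfl, h1, (mask_lt_iff _ _).1 h3.1, h3.2⟩
  · rintro ⟨c, hc, S, rfl, h1, h2, h3⟩
    refine ⟨c, List.mem_range.2 hc, ?_⟩
    rw [pieceL, List.mem_map]
    refine ⟨S, ?_, rfl⟩
    rw [List.mem_filter, mem_smallL elistFacts]
    exact ⟨h1, decide_eq_true ⟨(mask_lt_iff _ _).2 h2, h3⟩⟩

lemma marker {n K c c' : ℕ} (hc : c < K) {S S' : Finset (Fin n)} (h : lift K c S = lift K c' S') :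
    c = c' := by
  have h1 : (⟨n + c, by omega⟩ : Fin (n + K)) ∈ lift K c S := (mem_lift_iff _ _ _ _).2 (Or.inr rfl)
  rw [h, mem_lift_iff] at h1
  rcases h1 with ⟨y, _, e⟩ | e
  · have := y.2
    simp only at e
    omega
  · simp only at e
    omega

end Q3x

open Q3x

theorem q3 : Q3 := by
  classical
  intro n K o s R q
  refine ⟨?_, ?_, ?_, ?_⟩
  · rw [instE, List.nodup_flatMap]
    constructor
    · intro c _
      rw [pieceL]
      refine List.Nodup.map_on ?_ ((elistFacts (n + K) _ (n + K) le_rfl).1.filter _)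
      intro S _ T _ h
      exact lift_inj h
    · refine List.Pairwise.imp_of_mem ?_ (List.nodup_range (n := K + 1))
      intro c c' hc hc' hne
      rw [Function.onFun, List.disjoint_left]
      intro A hA hA'
      rw [pieceL, List.mem_map] at hA hA'
      obtain ⟨S, _, rfl⟩ := hA
      obtain ⟨T, _, hT⟩ := hA'
      exact hne (marker (List.mem_range.1 hc) hT.symm)
  · have key : ∀ i, (instE n K o s R q i).length ≤ i * (smallL (n + K) s).length := by
      intro i
      induction i with
      | zero => simp [instE]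
      | succ i ih =>
        have e : instE n K o s R q (i + 1) = instE n K o s R q i ++ pieceL n K o s R q i := by
          simp [instE, List.range_succ, List.flatMap_append]
        rw [e, List.length_append, Nat.succ_mul]
        have h1 : (pieceL n K o s R q i).length ≤ (smallL (n + K) s).length := by
          rw [pieceL, List.length_map]
          exact List.length_filter_le _ _
        omega
    exact key (K + 1)
  · rintro ⟨C, hC, hdis, hcov⟩
    have h1 : ∀ c, c < K + 1 → ∃ S : Finset (Fin (n + K)), lift (K + 1) c S ∈ C ∧ S.card ≤ s ∧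
        (∀ x ∈ S, (x : ℕ) < n + c) ∧ MonoH n K q R (sym K o q c) (toN S) := by
      intro c hc
      obtain ⟨A, hA, hx⟩ := hcov ⟨n + K + c, by omega⟩
      obtain ⟨c', hc', S, rfl, h2, h3, h4⟩ := (mem_instE A).1 (hC A hA)
      rw [mem_lift_iff] at hx
      have e : c' = c := by
        rcases hx with ⟨y, _, e⟩ | e
        · have := y.2
          simp only at e
          omega
        · simp only at e
          omega
      subst e
      exact ⟨S, hA, h2, h3, h4⟩
    let S : ℕ → Finset (Fin (n + K)) := fun c => if hc : c < K + 1 then (h1 c hc).choose else ∅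
    have hS : ∀ c < K + 1, lift (K + 1) c (S c) ∈ C ∧ (S c).card ≤ s ∧
        (∀ x ∈ S c, (x : ℕ) < n + c) ∧ MonoH n K q R (sym K o q c) (toN (S c)) := by
      intro c hc
      simp only [S, dif_pos hc]
      exact (h1 c hc).choose_spec
    refine ⟨fun i => toN (S i), ?_, ?_, ?_, ?_, ?_⟩
    · intro i hi x hx
      obtain ⟨hx1, hx2⟩ := (mem_toN _ _).1 hx
      exact (hS i (by omega)).2.2.1 _ hx2
    · intro i hi
      rw [card_toN]
      exact (hS i (by omega)).2.1
    · intro i hi
      exact (hS i (by omega)).2.2.2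
    · intro i hi i' hi' hne
      rw [Finset.disjoint_left]
      intro x hx hx'
      obtain ⟨hx1, hx2⟩ := (mem_toN _ _).1 hx
      obtain ⟨_, hx3⟩ := (mem_toN _ _).1 hx'
      have hne' : lift (K + 1) i (S i) ≠ lift (K + 1) i' (S i') := fun h =>
        hne (marker (by omega) h)
      have h2 := hdis _ (hS i (by omega)).1 _ (hS i' (by omega)).1 hne'
      rw [Finset.disjoint_left] at h2
      exact h2 (a := Fin.castAdd (K + 1) ⟨x, hx1⟩) ((mem_lift_iff _ _ _ _).2 (Or.inl ⟨_, hx2, rfl⟩))
        ((mem_lift_iff _ _ _ _).2 (Or.inl ⟨_, hx3, rfl⟩))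
    · intro x hx
      obtain ⟨A, hA, hxA⟩ := hcov (Fin.castAdd (K + 1) ⟨x, hx⟩)
      obtain ⟨c, hc, T, rfl, h2, h3, h4⟩ := (mem_instE A).1 (hC A hA)
      have hTS : lift (K + 1) c T = lift (K + 1) c (S c) := by
        by_contra hne
        have h5 := hdis _ hA _ (hS c hc).1 hne
        rw [Finset.disjoint_left] at h5
        exact h5 (a := ⟨n + K + c, by omega⟩) ((mem_lift_iff _ _ _ _).2 (Or.inr rfl))
          ((mem_lift_iff _ _ _ _).2 (Or.inr rfl))
      have hTS' := lift_inj hTS
      refine ⟨c, by omega, (mem_toN _ _).2 ⟨hx, ?_⟩⟩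
      rw [mem_lift_iff] at hxA
      rcases hxA with ⟨y, hy, e⟩ | e
      · have : y = ⟨x, hx⟩ := Fin.ext e
        rw [← hTS', ← this]
        exact hy
      · simp only [Fin.val_castAdd] at e
        omega
  · rintro ⟨Y, hlt, hcard, hmono, hdisj, hcover⟩
    have hlt' : ∀ i ≤ K, ∀ x ∈ Y i, x < n + K := fun i hi x hx => by
      have := hlt i hi x hx
      omega
    refine ⟨(Finset.range (K + 1)).image (fun c => lift (K + 1) c (ofN (n + K) (Y c))), ?_, ?_, ?_⟩
    · intro A hA
      rw [Finset.mem_image] at hA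
      obtain ⟨c, hc, rfl⟩ := hA
      have hc := Finset.mem_range.1 hc
      refine (mem_instE _).2 ⟨c, hc, _, rfl, ?_, ?_, ?_⟩
      · rw [← card_toN, toN_ofN (hlt' c (by omega))]
        exact hcard c (by omega)
      · intro x hx
        exact hlt c (by omega) _ (mem_ofN.1 hx)
      · rw [toN_ofN (hlt' c (by omega))]
        exact hmono c (by omega)
    · intro A hA B hB hne
      rw [Finset.mem_image] at hA hB
      obtain ⟨c, hc, rfl⟩ := hA
      obtain ⟨c', hc', rfl⟩ := hB
      have hc := Finset.mem_range.1 hc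
      have hc' := Finset.mem_range.1 hc'
      have hcc : c ≠ c' := fun h => hne (by rw [h])
      rw [Finset.disjoint_left]
      intro x hx hx'
      rw [mem_lift_iff] at hx hx'
      have hd := hdisj c (by omega) c' (by omega) hcc
      rw [Finset.disjoint_left] at hd
      rcases hx with ⟨y, hy, e⟩ | e <;> rcases hx' with ⟨y', hy', e'⟩ | e'
      · have : y = y' := Fin.ext (e.trans e'.symm)
        subst this
        exact hd (mem_ofN.1 hy) (mem_ofN.1 hy')
      · have := y.2
        omega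
      · have := y'.2
        omega
      · omega
    · intro x
      rcases Nat.lt_or_ge (x : ℕ) (n + K) with hx | hx
      · obtain ⟨c, hc, h4⟩ := hcover x hx
        refine ⟨_, Finset.mem_image.2 ⟨c, Finset.mem_range.2 (by omega), rfl⟩, ?_⟩
        exact (mem_lift_iff _ _ _ _).2 (Or.inl ⟨⟨x, hx⟩, mem_ofN.2 h4, rfl⟩)
      · have hx2 := x.2
        refine ⟨_, Finset.mem_image.2 ⟨x - (n + K), Finset.mem_range.2 (by omega), rfl⟩, ?_⟩
        exact (mem_lift_iff _ _ _ _).2 (Or.inr (by omega))

end SCM
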