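import Pool.Agent.Lib.SCM.Progs

/-!
# Row T1: the setup
-/

namespace SCM

open SCR SCN

namespace T1x

/-- the registers and the memory -/
def Rg (l : List (ℕ × ℕ)) (m : ℕ → ℕ) (t : Data) : Prop := (∀ p ∈ l, t.reg p.1 = p.2) ∧ t.mem = m

lemma Rg.get {l : List (ℕ × ℕ)} {m : ℕ → ℕ} {t : Data} (h : Rg l m t) (i v : ℕ) (hi : (i, v) ∈ l) :
    t.reg i = v := h.1 (i, v) hi

lemma Rg.upd {l : List (ℕ × ℕ)} {m : ℕ → ℕ} {t : Data} (h : Rg l m t) (i v : ℕ)
    (hi : ∀ p ∈ l, p.1 ≠ i) : Rg l m (upd t i v) :=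
  ⟨fun p hp => by rw [upd_ne _ _ (hi p hp)]; exact h.1 p hp, h.2⟩

lemma Rg.cons {l : List (ℕ × ℕ)} {m : ℕ → ℕ} {t : Data} (h : Rg l m t) (i v : ℕ)
    (hi : t.reg i = v) : Rg ((i, v) :: l) m t :=
  ⟨fun p hp => by
    rcases List.mem_cons.1 hp with rfl | hp
    · exact hi
    · exact h.1 p hp, h.2⟩

lemma Rg.frame {l : List (ℕ × ℕ)} {m : ℕ → ℕ} {s t : Data} (h : Rg l m s)
    (hr : ∀ p ∈ l, t.reg p.1 = s.reg p.1) (hm : t.mem = s.mem) : Rg l m t :=
  ⟨fun p hp => (hr p hp).trans (h.1 p hp), hm.trans h.2⟩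

lemma setR {w i : ℕ} {e : E} {s : Data} {T v : ℕ} {l : List (ℕ × ℕ)} {m : ℕ → ℕ} (h : Rg l m s)
    (hi : i < 40) (he : e.wf = true) (hd : e.depth ≤ 9) (ho : e.ok w s) (hv : e.val s = v)
    (hn : ∀ p ∈ l, p.1 ≠ i) (hT : e.size + 1 ≤ T) : HT w (set i e) s T (Rg ((i, v) :: l) m) := by
  refine HT.set (Or.inl hi) he hd ho ?_ hT
  rw [hv]
  exact (h.upd i v hn).cons i v (upd_self _ _ _)

lemma flat3 (d : ℕ × ℕ × ℕ) : ∀ (R : List (ℕ × ℕ × ℕ)) (t : ℕ), t < R.length →
    (R.flatMap fun t => [t.1, t.2.1, t.2.2]).getD (3 * t) 0 = (R.getD t d).1 ∧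
    (R.flatMap fun t => [t.1, t.2.1, t.2.2]).getD (3 * t + 1) 0 = (R.getD t d).2.1 ∧
    (R.flatMap fun t => [t.1, t.2.1, t.2.2]).getD (3 * t + 2) 0 = (R.getD t d).2.2
  | [], t, ht => absurd ht (Nat.not_lt_zero t)
  | a :: R, 0, _ => ⟨rfl, rfl, rfl⟩
  | a :: R, t + 1, ht => by
    have h := flat3 d R t (by simpa using ht)
    have e1 : 3 * (t + 1) = 3 * t + 1 + 1 + 1 := by ring
    rw [List.flatMap_cons, e1]
    simp only [List.cons_append, List.nil_append, List.getD_cons_succ]
    exact h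

lemma len3 (R : List (ℕ × ℕ × ℕ)) : (R.flatMap fun t => [t.1, t.2.1, t.2.2]).length = 3 * R.length := by
  induction R with
  | nil => rfl
  | cons a R ih =>
    rw [List.flatMap_cons, List.length_append, ih]
    simp only [List.length_cons, List.length_nil]
    ring

end T1x

open T1x in
/-- T1 -/
theorem t1 : T1 := by
  intro hPW w K D I mem hK hf hmem henc
  set n := I.n with hn
  set S := I.S with hS
  set r := I.R.length with hr
  set P := 2 ^ (n + K) with hP
  have hnS : n < S := I.hn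
  -- bounds
  have hwi := Nat.two_pow_pos (wi D I)
  have haddr := hf.addr
  have hLB : LB I = 4 + 3 * r := rfl
  have hRBe : RB K I = LB I + 2 * P := rfl
  have hTAe : ∀ z, TA K I z = RB K I + S + z * P := fun z => rfl
  have hTAS : ∀ z ≤ S + 1, TA K I z + 10 < 2 ^ w := by
    intro z hz
    have h3 : z * P ≤ (S + 1) * P := Nat.mul_le_mul_right _ hz
    rw [← hS, hTAe] at haddr
    rw [hTAe]
    omega
  have hTA0 : LB I + 2 * P + S + 10 < 2 ^ w := by
    have := hTAS 0 (by omega)
    rw [hTAe, hRBe, Nat.zero_mul] at this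
    omega
  have hnK : n + K < P := Nat.lt_two_pow_self
  have hPw : P < 2 ^ w := by omega
  have hnm := hf.nm
  have h2nK : 2 * n + K + 1 < 2 ^ w := by omega
  -- the input
  have henc' : ∀ i < 4 + 3 * r, mem i = (FullMonomial.enc I).getD i 0 := by
    intro i hi
    have h1 : i < (FullMonomial.enc I).length := by
      have : (FullMonomial.enc I).length = 4 + 3 * r := by
        change ([I.n, I.S, I.R.length, I.o] ++ I.R.flatMap fun t => [t.1, t.2.1, t.2.2]).length = _
        rw [List.length_append, len3]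
        rfl
      rw [this]
      exact hi
    rw [henc i h1, List.getD_eq_getElem _ _ h1]
  have m0 : mem 0 = n := henc' 0 (by omega)
  have m1 : mem 1 = S := henc' 1 (by omega)
  have m2 : mem 2 = r := henc' 2 (by omega)
  have m3 : mem 3 = I.o := henc' 3 (by omega)
  have minp : ∀ j, 4 + j < 4 + 3 * r → mem (4 + j) =
      (I.R.flatMap fun t => [t.1, t.2.1, t.2.2]).getD j 0 := by
    intro j hj
    rw [henc' _ hj]
    change ([I.n, I.S, I.R.length, I.o] ++ I.R.flatMap fun t => [t.1, t.2.1, t.2.2]).getD (4 + j) 0 = _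
    rw [List.getD_append_right _ _ _ _ (by simp)]
    congr 1
    simp
  set Zt := 40 * (D + 1) * (2 * n + (S + r) + 3) with hZt
  have main : HT w (setup3 K D) ⟨fun _ => 0, mem⟩ (78 * n + 14 * K + 19 * S + Zt + 90)
      (Env3 K D I) := by
    have h0 : Rg [] mem ⟨fun _ => 0, mem⟩ := ⟨fun p hp => absurd hp (List.not_mem_nil), rfl⟩
    refine HT.seq (T1 := 3) (T2 := 78 * n + 14 * K + 19 * S + Zt + 87)
      (setR (v := n) h0 (by norm_num) rfl (by decide) ?_ ?_ (by simp) (show 3 ≤ 3 by norm_num)) ?_ (by omega)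
    · simp only [E.ok]; omega
    · exact m0
    intro s1 h1
    refine HT.seq (T1 := 3) (T2 := 78 * n + 14 * K + 19 * S + Zt + 84)
      (setR (v := S) h1 (by norm_num) rfl (by decide) ?_ ?_ (by simp) (show 3 ≤ 3 by norm_num)) ?_ (by omega)
    · simp only [E.ok]; omega
    · simp only [E.val]; rw [h1.2]; exact m1
    intro s2 h2
    refine HT.seq (T1 := 3) (T2 := 78 * n + 14 * K + 19 * S + Zt + 81)
      (setR (v := r) h2 (by norm_num) rfl (by decide) ?_ ?_ (by simp) (show 3 ≤ 3 by norm_num)) ?_ (by omega)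
    · simp only [E.ok]; omega
    · simp only [E.val]; rw [h2.2]; exact m2
    intro s3 h3
    refine HT.seq (T1 := 3) (T2 := 78 * n + 14 * K + 19 * S + Zt + 78)
      (setR (v := I.o) h3 (by norm_num) rfl (by decide) ?_ ?_ (by simp) (show 3 ≤ 3 by norm_num)) ?_ (by omega)
    · simp only [E.ok]; omega
    · simp only [E.val]; rw [h3.2]; exact m3
    intro s4 h4
    refine HT.seq (T1 := 4) (T2 := 78 * n + 14 * K + 19 * S + Zt + 74)
      (setR (v := S + r) h4 (by norm_num) rfl (by decide) ⟨trivial, trivial, ?_⟩ ?_ (by simp)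
        (show 4 ≤ 4 by norm_num)) ?_ (by omega)
    · simp only [E.val]; rw [h4.get 6 S (by simp), h4.get 3 r (by simp)]; omega
    · simp only [E.val]; rw [h4.get 6 S (by simp), h4.get 3 r (by simp)]
    intro s5 h5
    refine HT.seq (T1 := 2) (T2 := 78 * n + 14 * K + 19 * S + Zt + 72)
      (setR (v := 1) h5 (by norm_num) rfl (by decide) ?_ ?_ (by simp) (show 2 ≤ 2 by norm_num)) ?_ (by omega)
    · simp only [E.ok]; omega
    · rfl
    intro s6 h6
    refine HT.seq (T1 := 4) (T2 := 78 * n + 14 * K + 19 * S + Zt + 68)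
      (setR (v := S - 1) h6 (by norm_num) rfl (by decide) ⟨trivial, ?_⟩ ?_ (by simp)
        (show 4 ≤ 4 by norm_num)) ?_ (by omega)
    · simp only [E.ok]; omega
    · simp only [E.val]; rw [h6.get 6 S (by simp)]
    intro s7 h7
    refine HT.seq (T1 := 4) (T2 := 78 * n + 14 * K + 19 * S + Zt + 64)
      (setR (v := n + K) h7 (by norm_num) rfl (by simp [E.depth]) ⟨trivial, ?_, ?_⟩ ?_ (by simp)
        (show 4 ≤ 4 by norm_num)) ?_ (by omega)
    · simp only [E.ok]; omega
    · simp only [E.val]; rw [h7.get 1 n (by simp)]; omega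
    · simp only [E.val]; rw [h7.get 1 n (by simp)]
    intro s8 h8
    set l8 : List (ℕ × ℕ) := [(7, n + K), (9, S - 1), (4, 1), (2, S + r), (5, I.o), (3, r), (6, S), (1, n)]
      with hl8
    have h8' : Rg l8 mem s8 := h8
    have n8 : ∀ i : ℕ, i = 8 ∨ 10 ≤ i → ∀ p ∈ l8, p.1 ≠ i := by
      intro i hi
      simp only [hl8, List.mem_cons, List.not_mem_nil, or_false, forall_eq_or_imp, forall_eq]
      omega
    have n9 : ∀ i : ℕ, 10 ≤ i → ∀ p ∈ (8, P) :: l8, p.1 ≠ i := by
      intro i hi p hp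
      rcases List.mem_cons.1 hp with rfl | hp
      · exact (by omega : (8 : ℕ) ≠ i)
      · exact n8 i (by omega) p hp
    have v7 : (E.r 7).val s8 = n + K := h8'.get 7 (n + K) (by rw [hl8]; simp)
    refine HT.seq (R := Rg ((8, P) :: l8) mem) (T1 := 14 * (n + K) + 10)
      (T2 := 64 * n + 19 * S + Zt + 54) (HT.pow (by norm_num) rfl (by decide) trivial ?_ ?_ ?_) ?_ (by omega)
    · rw [v7]; exact hPw
    · intro t a1 a2 a3
      rw [v7] at a1
      exact (h8'.frame (fun p hp => a2 p.1 (n8 8 (Or.inl rfl) p hp) (n8 37 (by norm_num) p hp)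
        (n8 38 (by norm_num) p hp) (n8 39 (by norm_num) p hp)) a3).cons 8 P a1
    · rw [v7]; simp only [E.size]; omega
    intro s9 h9
    have v1 : (E.r 1).val s9 = n := h9.get 1 n (List.mem_cons_of_mem _ (by rw [hl8]; simp))
    have h2n : 2 ^ n < 2 ^ w := lt_of_le_of_lt (Nat.pow_le_pow_right (by norm_num) (by omega)) hPw
    refine HT.seq (R := Rg ((10, 2 ^ n) :: (8, P) :: l8) mem) (T1 := 14 * n + 10)
      (T2 := 50 * n + 19 * S + Zt + 44) (HT.pow (by norm_num) rfl (by decide) trivial ?_ ?_ ?_) ?_ (by omega)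
    · rw [v1]; exact h2n
    · intro t a1 a2 a3
      rw [v1] at a1
      exact (h9.frame (fun p hp => a2 p.1 (n9 10 (by norm_num) p hp) (n9 37 (by norm_num) p hp)
        (n9 38 (by norm_num) p hp) (n9 39 (by norm_num) p hp)) a3).cons 10 (2 ^ n) a1
    · rw [v1]; simp only [E.size]; omega
    intro s10 h10
    set l10 : List (ℕ × ℕ) := (10, 2 ^ n) :: (8, P) :: l8 with hl10
    have n10 : ∀ i : ℕ, 11 ≤ i → ∀ p ∈ l10, p.1 ≠ i := by
      intro i hi p hp
      rcases List.mem_cons.1 hp with rfl | hp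
      · exact (by omega : (10 : ℕ) ≠ i)
      · exact n9 i (by omega) p hp
    refine HT.seq (T1 := 2) (T2 := 50 * n + 19 * S + Zt + 42)
      (setR (v := 0) h10 (by norm_num) rfl (by decide) (Nat.two_pow_pos w) rfl (n10 11 (by norm_num))
        (show 2 ≤ 2 by norm_num)) ?_ (by omega)
    intro s11 h11
    refine HT.seq (T1 := 2) (T2 := 50 * n + 19 * S + Zt + 40)
      (R := fun t => Rg l10 mem t ∧ t.reg 11 = 0 ∧ t.reg 20 = 0)
      (HT.set (by omega) rfl (by decide) (Nat.two_pow_pos w) ⟨?_, ?_, ?_⟩ (show 2 ≤ 2 by norm_num)) ?_ (by omega)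
    · exact Rg.upd (l := l10) ⟨fun p hp => h11.1 p (List.mem_cons_of_mem _ hp), h11.2⟩ 20 _
        (n10 20 (by norm_num))
    · rw [upd_ne _ _ (by norm_num)]
      exact h11.get 11 0 (by simp)
    · exact upd_self _ _ _
    rintro s12 ⟨h12, h12a, h12b⟩
    -- the first loop
    set c := (2 * n + K - 1) / K with hc
    have hc1 : K * c ≤ 2 * n + K - 1 := Nat.mul_div_le _ _
    have hc2 : 2 * n + K - 1 < K * c + K := by
      have := Nat.lt_mul_div_succ (2 * n + K - 1) (show 0 < K by omega)
      rw [Nat.mul_add, Nat.mul_one] at this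
      exact this
    have hc3 : c ≤ 2 * n := by
      have h1 : c ≤ K * c := Nat.le_mul_of_pos_left c (by omega)
      by_contra h2
      have h3 : K * (2 * n + 1) ≤ K * c := Nat.mul_le_mul_left K (by omega)
      have h4 : K * (2 * n + 1) = K * (2 * n) + K := by ring
      have h5 : 2 * n ≤ K * (2 * n) := Nat.le_mul_of_pos_left _ (by omega)
      omega
    refine HT.seq (T1 := 50 * n + 8) (T2 := 19 * S + Zt + 32)
      (R := fun t => Rg l10 mem t ∧ t.reg 11 = c)
      (HT.forr (2 * n) 15 (fun j t => Rg l10 mem t ∧ t.reg 11 = min j c ∧ t.reg 20 = K * min j c)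
        (by norm_num) (by norm_num) (by norm_num) rfl (by decide) ⟨trivial, trivial, ?_⟩ ?_ (by omega) ?_ ?_
        (by simp only [E.size]; omega) ?_) ?_ (by omega)
    · simp only [E.val]; rw [h12.get 1 n (by simp [hl10, hl8])]; omega
    · simp only [E.val]; rw [h12.get 1 n (by simp [hl10, hl8])]; omega
    · refine ⟨(h12.upd _ _ (n10 22 (by norm_num))).upd _ _ (n10 21 (by norm_num)), ?_, ?_⟩
      · rw [upd_ne _ _ (by norm_num), upd_ne _ _ (by norm_num), h12a]; simp
      · rw [upd_ne _ _ (by norm_num), upd_ne _ _ (by norm_num), h12b]; simp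
    · rintro j hj t ⟨t1, t2, t3⟩ t4 t5
      have e1 : t.reg 1 = n := t1.get 1 n (by simp [hl10, hl8])
      refine HT.cond rfl (by decide) ⟨⟨trivial, trivial, ?_⟩, trivial⟩ ?_ ?_ (show 5 + 8 + 2 ≤ 15 by norm_num)
      · simp only [E.val]; rw [e1]; omega
      · intro hne
        simp only [E.val] at hne
        rw [e1, t3] at hne
        have hjc : j < c := by
          by_contra hjc
          have h5 : min j c = c := min_eq_right (by omega)
          rw [h5] at hne
          omega
        have hmin : min j c = j := min_eq_left hjc.le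
        have hmin' : min (j + 1) c = j + 1 := min_eq_left hjc
        rw [hmin] at t2 t3
        have hKj : K * j + K ≤ K * c := by
          have : K * (j + 1) ≤ K * c := Nat.mul_le_mul_left K hjc
          rw [Nat.mul_add, Nat.mul_one] at this
          exact this
        refine HT.seq (R := fun u => u = upd t 11 (j + 1)) (T1 := 4) (T2 := 4)
          (HT.set (by omega) rfl (by decide) ⟨trivial, ?_, ?_⟩ ?_ (show 4 ≤ 4 by norm_num)) ?_ (by norm_num)
        · simp only [E.ok]; omega
        · simp only [E.val]; rw [t2]; omega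
        · simp only [E.val]; rw [t2]
        rintro _ rfl
        refine HT.seq (T1 := 4) (T2 := 0)
          (HT.set (by omega) rfl (by simp [E.depth]) ⟨trivial, ?_, ?_⟩ ?_ (show 4 ≤ 4 by norm_num))
          (fun _ h => HT.skip h) (by norm_num)
        · simp only [E.ok]; omega
        · simp only [E.val]; rw [upd_ne _ _ (by norm_num), t3]; omega
        · simp only [E.val]
          rw [upd_ne _ _ (show (20 : ℕ) ≠ 11 by norm_num), t3]
          refine ⟨?_, ?_, ?_, ?_, ?_⟩
          · rw [upd_ne _ _ (by norm_num), upd_ne _ _ (by norm_num)]; exact t4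
          · rw [upd_ne _ _ (by norm_num), upd_ne _ _ (by norm_num)]; exact t5
          · exact (((t1.upd _ _ (n10 11 (by norm_num))).upd _ _ (n10 20 (by norm_num))).upd _ _
              (n10 21 (by norm_num))).upd _ _ (n10 22 (by norm_num))
          · rw [upd_ne _ _ (by norm_num), upd_ne _ _ (by norm_num), upd_ne _ _ (by norm_num), upd_self,
              hmin']
          · rw [upd_ne _ _ (by norm_num), upd_ne _ _ (by norm_num), upd_self, hmin']
            ring
      · intro he0
        simp only [E.val] at he0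
        rw [e1, t3] at he0
        have hjc : c ≤ j := by
          by_contra hjc
          have h5 : min j c = j := min_eq_left (by omega)
          rw [h5] at he0
          have : K * (j + 1) ≤ K * c := Nat.mul_le_mul_left K (by omega)
          rw [Nat.mul_add, Nat.mul_one] at this
          omega
        refine HT.skip ⟨t4, t5, ?_, ?_, ?_⟩
        · exact (t1.upd _ _ (n10 21 (by norm_num))).upd _ _ (n10 22 (by norm_num))
        · rw [upd_ne _ _ (by norm_num), upd_ne _ _ (by norm_num), t2, min_eq_right hjc,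
            min_eq_right (by omega)]
        · rw [upd_ne _ _ (by norm_num), upd_ne _ _ (by norm_num), t3, min_eq_right hjc,
            min_eq_right (by omega)]
    · rintro t ⟨t1, t2, -⟩ - -
      exact ⟨t1, by rw [t2, min_eq_right hc3]⟩
    rintro s13 ⟨h13, h13a⟩
    refine HT.seq (T1 := 4) (T2 := 19 * S + Zt + 28)
      (setR (v := sz n K + K) h13 (by norm_num) rfl (by simp [E.depth]) ⟨trivial, ?_, ?_⟩ ?_ (n10 11 (by norm_num))
        (show 4 ≤ 4 by norm_num)) ?_ (by omega)
    · simp only [E.ok]; omega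
    · simp only [E.val]; rw [h13a]; omega
    · simp only [E.val]; rw [h13a]; unfold sz; omega
    intro s14 h14
    have n14 : ∀ i : ℕ, 12 ≤ i → ∀ p ∈ (11, sz n K + K) :: l10, p.1 ≠ i := by
      intro i hi p hp
      rcases List.mem_cons.1 hp with rfl | hp
      · exact (by omega : (11 : ℕ) ≠ i)
      · exact n10 i (by omega) p hp
    refine HT.seq (T1 := 8) (T2 := 19 * S + Zt + 20)
      (setR (v := LB I) h14 (by norm_num) rfl (by decide) ⟨?_, ⟨trivial, ⟨trivial, trivial, ?_⟩, ?_⟩, ?_⟩ ?_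
        (n14 12 (by norm_num)) (show 8 ≤ 8 by norm_num)) ?_ (by omega)
    · simp only [E.ok]; omega
    · simp only [E.val]; rw [h14.get 3 r (by simp [hl10, hl8])]; omega
    · simp only [E.val]; rw [h14.get 3 r (by simp [hl10, hl8])]; omega
    · simp only [E.val]; rw [h14.get 3 r (by simp [hl10, hl8])]; omega
    · simp only [E.val]; rw [h14.get 3 r (by simp [hl10, hl8]), hLB]; omega
    intro s15 h15
    have n15 : ∀ i : ℕ, 13 ≤ i → ∀ p ∈ (12, LB I) :: (11, sz n K + K) :: l10, p.1 ≠ i := by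
      intro i hi p hp
      rcases List.mem_cons.1 hp with rfl | hp
      · exact (by omega : (12 : ℕ) ≠ i)
      · exact n14 i (by omega) p hp
    refine HT.seq (T1 := 4) (T2 := 19 * S + Zt + 16)
      (setR (v := LB I + P) h15 (by norm_num) rfl (by decide) ⟨trivial, trivial, ?_⟩ ?_
        (n15 13 (by norm_num)) (show 4 ≤ 4 by norm_num)) ?_ (by omega)
    · simp only [E.val]; rw [h15.get 12 (LB I) (by simp), h15.get 8 P (by simp [hl10])]; omega
    · simp only [E.val]; rw [h15.get 12 (LB I) (by simp), h15.get 8 P (by simp [hl10])]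
    intro s16 h16
    have n16 : ∀ i : ℕ, 14 ≤ i → ∀ p ∈ (13, LB I + P) :: (12, LB I) :: (11, sz n K + K) :: l10, p.1 ≠ i := by
      intro i hi p hp
      rcases List.mem_cons.1 hp with rfl | hp
      · exact (by omega : (13 : ℕ) ≠ i)
      · exact n15 i (by omega) p hp
    have hRB : RB K I = LB I + P + P := by rw [hRBe]; omega
    refine HT.seq (T1 := 4) (T2 := 19 * S + Zt + 12)
      (setR (v := RB K I) h16 (by norm_num) rfl (by decide) ⟨trivial, trivial, ?_⟩ ?_
        (n16 14 (by norm_num)) (show 4 ≤ 4 by norm_num)) ?_ (by omega)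
    · simp only [E.val]; rw [h16.get 13 (LB I + P) (by simp), h16.get 8 P (by simp [hl10])]; omega
    · simp only [E.val]; rw [h16.get 13 (LB I + P) (by simp), h16.get 8 P (by simp [hl10]), hRB]
    intro s17 h17
    set l17 : List (ℕ × ℕ) := (14, RB K I) :: (13, LB I + P) :: (12, LB I) :: (11, sz n K + K) :: l10
      with hl17
    have n17 : ∀ i : ℕ, 15 ≤ i → ∀ p ∈ l17, p.1 ≠ i := by
      intro i hi p hp
      rcases List.mem_cons.1 hp with rfl | hp
      · exact (by omega : (14 : ℕ) ≠ i)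
      · exact n16 i (by omega) p hp
    have g6 : (6, S) ∈ l17 := by simp [hl17, hl10, hl8]
    have g8 : (8, P) ∈ l17 := by simp [hl17, hl10, hl8]
    have g14 : (14, RB K I) ∈ l17 := by simp [hl17]
    refine HT.seq (T1 := 4) (T2 := 19 * S + Zt + 8) (R := fun t => Rg l17 mem t ∧ t.reg 20 = TA K I 0)
      (HT.set (by omega) rfl (by decide) ⟨trivial, trivial, ?_⟩ ?_ (show 4 ≤ 4 by norm_num)) ?_ (by omega)
    · simp only [E.val]; rw [h17.get 14 _ g14, h17.get 6 _ g6, hRB]; omega
    · simp only [E.val]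
      rw [h17.get 14 _ g14, h17.get 6 _ g6]
      refine ⟨h17.upd _ _ (n17 20 (by norm_num)), ?_⟩
      rw [upd_self, hTAe, Nat.zero_mul]
      rfl
    rintro s18 ⟨h18, h18a⟩
    -- the second loop
    have hTAs : ∀ z, TA K I (z + 1) = TA K I z + P := by
      intro z
      rw [hTAe, hTAe, Nat.succ_mul, ← Nat.add_assoc]
    refine HT.seq (T1 := 19 * S + 6) (T2 := Zt + 2)
      (R := fun t => (∀ p ∈ l17, t.reg p.1 = p.2) ∧ t.reg 20 = TA K I S ∧
        (∀ a < RB K I, t.mem a = mem a) ∧ ∀ z < S, t.mem (RB K I + z) = TA K I z)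
      (HT.forr S 9 (fun j t => (∀ p ∈ l17, t.reg p.1 = p.2) ∧ t.reg 20 = TA K I j ∧
        (∀ a < RB K I, t.mem a = mem a) ∧ ∀ z < j, t.mem (RB K I + z) = TA K I z)
        (by norm_num) (by norm_num) (by norm_num) rfl (by decide) trivial ?_ (by omega) ?_ ?_
        (by simp only [E.size]; omega) ?_) ?_ (by omega)
    · exact h18.get 6 S g6
    · have h19 := (h18.upd 22 S (n17 22 (by norm_num))).upd 21 0 (n17 21 (by norm_num))
      refine ⟨h19.1, ?_, fun a _ => ?_, fun z hz => absurd hz (Nat.not_lt_zero z)⟩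
      · rw [upd_ne _ _ (by norm_num), upd_ne _ _ (by norm_num)]; exact h18a
      · rw [h19.2]
    · rintro j hj t ⟨t1, t2, t3, t4⟩ t5 t6
      have q14 : t.reg 14 = RB K I := t1 _ g14
      have q8 : t.reg 8 = P := t1 _ g8
      refine HT.seq (R := fun u => u = updm t (RB K I + j) (TA K I j)) (T1 := 5) (T2 := 4)
        (HT.sto rfl (by decide) ⟨trivial, trivial, ?_⟩ rfl (by decide) trivial ?_ (show 5 ≤ 5 by norm_num))
        ?_ (by norm_num)
      · simp only [E.val]; rw [q14, t5, hRB]; omega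
      · simp only [E.val]; rw [q14, t5, t2]
      rintro _ rfl
      refine HT.seq (T1 := 4) (T2 := 0)
        (HT.set (by omega) rfl (by decide) ⟨trivial, trivial, ?_⟩ ?_ (show 4 ≤ 4 by norm_num))
        (fun _ h => HT.skip h) (by norm_num)
      · simp only [E.val, updm_reg]; rw [t2, q8, ← hTAs]; have := hTAS (j + 1) (by omega); omega
      · simp only [E.val, updm_reg]
        rw [t2, q8, ← hTAs]
        refine ⟨?_, ?_, ?_, ?_, ?_, ?_⟩
        · rw [upd_ne _ _ (by norm_num)]; exact t5
        · rw [upd_ne _ _ (by norm_num)]; exact t6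
        · intro p hp
          rw [upd_ne _ _ (n17 22 (by norm_num) p hp), upd_ne _ _ (n17 21 (by norm_num) p hp),
            upd_ne _ _ (n17 20 (by norm_num) p hp)]
          exact t1 p hp
        · rw [upd_ne _ _ (by norm_num), upd_ne _ _ (by norm_num), upd_self]
        · intro a ha
          rw [upd_mem, upd_mem, upd_mem, updm_ne _ _ (by omega)]
          exact t3 a ha
        · intro z hz
          rw [upd_mem, upd_mem, upd_mem, updm_mem]
          split_ifs with h9
          · have : z = j := by omega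
            rw [this]
          · exact t4 z (by omega)
    · rintro t h - -
      exact h
    rintro s19 ⟨h19a, h19b, h19c, h19d⟩
    refine HT.seq (T1 := 2) (T2 := Zt)
      (R := fun t => (∀ p ∈ l17, t.reg p.1 = p.2) ∧ t.reg 15 = TA K I S ∧
        (∀ a < RB K I, t.mem a = mem a) ∧ ∀ z < S, t.mem (RB K I + z) = TA K I z)
      (HT.set (by omega) rfl (by decide) trivial ?_ (show 2 ≤ 2 by norm_num)) ?_ (by omega)
    · simp only [E.val]
      rw [h19b]
      refine ⟨fun p hp => ?_, upd_self _ _ _, h19c, h19d⟩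
      rw [upd_ne _ _ (n17 15 (by norm_num) p hp)]
      exact h19a p hp
    rintro s20 ⟨h20a, h20b, h20c, h20d⟩
    have g1 : s20.reg 1 = n := h20a (1, n) (by simp [hl17, hl10, hl8])
    have g2 : s20.reg 2 = S + r := h20a (2, S + r) (by simp [hl17, hl10, hl8])
    refine HT.seq (T1 := Zt) (T2 := 0) (hPW w D n (S + r) s20 g1 g2 hnm hf.dw hf.lt)
      (fun t ht => HT.skip ?_) (by omega)
    obtain ⟨u1, u2, u3⟩ := ht
    have hreg : ∀ p ∈ l17, t.reg p.1 = p.2 := by
      intro p hp
      rw [u2 p.1 ?_]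
      · exact h20a p hp
      · have h16' : p.1 < 16 := by
          have := n17 p.1
          by_contra h9
          exact this (by omega) p hp rfl
        simp only [List.mem_cons, List.not_mem_nil, or_false]
        omega
    refine ⟨?_, ?_, ?_, ?_, ?_, ?_, ?_, ?_, ?_, ?_, ?_, ?_, ?_, ?_, u1, ?_, ?_⟩
    · exact hreg (1, n) (by simp [hl17, hl10, hl8])
    · exact hreg (3, r) (by simp [hl17, hl10, hl8])
    · exact hreg (4, 1) (by simp [hl17, hl10, hl8])
    · exact hreg (5, I.o) (by simp [hl17, hl10, hl8])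
    · exact hreg (6, S) (by simp [hl17, hl10, hl8])
    · exact hreg (7, n + K) (by simp [hl17, hl10, hl8])
    · exact hreg (8, P) (by simp [hl17, hl10, hl8])
    · exact hreg (9, S - 1) (by simp [hl17, hl10, hl8])
    · exact hreg (10, 2 ^ n) (by simp [hl17, hl10, hl8])
    · exact hreg (11, sz n K + K) (by simp [hl17])
    · exact hreg (12, LB I) (by simp [hl17])
    · exact hreg (13, LB I + P) (by simp [hl17])
    · exact hreg (14, RB K I) (by simp [hl17])
    · rw [u2 15 (by decide)]; exact h20b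
    · intro t' ht'
      have f3 := flat3 (0, 0, 0) I.R t' ht'
      have ht'' : t' < r := ht'
      have hb1 : 4 + 3 * t' + 2 < RB K I := by rw [hRB, hLB]; omega
      rw [u3, h20c _ (by omega), h20c _ (by omega), h20c _ hb1, minp _ (by omega),
        Nat.add_assoc 4 (3 * t') 1, Nat.add_assoc 4 (3 * t') 2, minp _ (by omega), minp _ (by omega)]
      exact f3
    · intro z hz
      rw [u3]
      exact h20d z hz
  refine main.mono ?_ fun _ h => h
  have hX : 3 ≤ n + (S + r) + 3 := by omega
  set X := n + (S + r) + 3 with hXd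
  have a1 : Zt ≤ 80 * ((D + 1) * X) := by
    rw [hZt]
    have : (D + 1) * (2 * n + (S + r) + 3) ≤ (D + 1) * (2 * X) := Nat.mul_le_mul_left _ (by omega)
    nlinarith
  have a2 : (D + 1) * X ≤ (D + 1) * (K + 1) * X := by
    have : (D + 1) * X * 1 ≤ (D + 1) * X * (K + 1) := Nat.mul_le_mul_left _ (by omega)
    nlinarith
  have a3 : X ≤ (D + 1) * X := Nat.le_mul_of_pos_left _ (Nat.succ_pos _)
  have a4 : K ≤ (D + 1) * (K + 1) * X := by
    have b1 : K + 1 ≤ (D + 1) * (K + 1) := Nat.le_mul_of_pos_left _ (Nat.succ_pos _)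
    have b2 : (D + 1) * (K + 1) ≤ (D + 1) * (K + 1) * X := Nat.le_mul_of_pos_right _ (by omega)
    omega
  have a5 : 400 * (D + 1) * (K + 1) * X = 400 * ((D + 1) * (K + 1) * X) := by ring
  rw [a5]
  omega

end SCM
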