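import Pool.Agent.Lib.SCM.Progs
import Pool.Agent.Lib.SCN.MI
import Pool.Agent.Lib.SCN.MB

/-!
# Row T10: the time of the reduction to Exact Cover
-/

set_option autoImplicit false

namespace SCM

open SCR SCN

namespace T10x

/-- the parameter of the polynomial factor -/
def X (I : MMInst) : ℝ := (I.n : ℝ) + (I.S + I.R.length : ℕ) + 2

lemma X_ge (I : MMInst) : 2 ≤ X I := by
  unfold X
  have h1 : (0 : ℝ) ≤ I.n := Nat.cast_nonneg _
  have h2 : (0 : ℝ) ≤ (I.S + I.R.length : ℕ) := Nat.cast_nonneg _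
  linarith

/-- `f` is at most `b^n` times a polynomial -/
def Bd (b : ℝ) (f : MMInst → ℝ) : Prop := ∃ c e : ℕ, ∀ I, f I ≤ c * b ^ I.n * X I ^ e

lemma Bd.const {b : ℝ} (hb : 1 ≤ b) (k : ℝ) : Bd b (fun _ => k) := by
  obtain ⟨c, hc⟩ := exists_nat_ge k
  refine ⟨c, 0, fun I => ?_⟩
  rw [pow_zero, mul_one]
  have h1 : 1 ≤ b ^ I.n := one_le_pow₀ hb
  have h2 : (0 : ℝ) ≤ c := Nat.cast_nonneg _
  nlinarith

lemma Bd.add {b : ℝ} (hb : 1 ≤ b) {f g : MMInst → ℝ} (hf : Bd b f) (hg : Bd b g) :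
    Bd b (fun I => f I + g I) := by
  obtain ⟨c, e, hf⟩ := hf
  obtain ⟨c', e', hg⟩ := hg
  refine ⟨c + c', e + e', fun I => ?_⟩
  have h1 : 1 ≤ X I := by linarith [X_ge I]
  have h2 : X I ^ e ≤ X I ^ (e + e') := pow_le_pow_right₀ h1 (Nat.le_add_right _ _)
  have h3 : X I ^ e' ≤ X I ^ (e + e') := pow_le_pow_right₀ h1 (Nat.le_add_left _ _)
  have h4 : (0 : ℝ) ≤ c * b ^ I.n := by positivity
  have h5 : (0 : ℝ) ≤ c' * b ^ I.n := by positivity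
  calc f I + g I ≤ c * b ^ I.n * X I ^ e + c' * b ^ I.n * X I ^ e' := add_le_add (hf I) (hg I)
    _ ≤ c * b ^ I.n * X I ^ (e + e') + c' * b ^ I.n * X I ^ (e + e') :=
        add_le_add (mul_le_mul_of_nonneg_left h2 h4) (mul_le_mul_of_nonneg_left h3 h5)
    _ = _ := by push_cast; ring

lemma Bd.mul {b b' : ℝ} (hb : 0 ≤ b) (_hb' : 0 ≤ b') {f g : MMInst → ℝ} (hg0 : ∀ I, 0 ≤ g I)
    (hf : Bd b f) (hg : Bd b' g) : Bd (b * b') (fun I => f I * g I) := by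
  obtain ⟨c, e, hf⟩ := hf
  obtain ⟨c', e', hg⟩ := hg
  refine ⟨c * c', e + e', fun I => ?_⟩
  have h1 : 0 ≤ X I := by linarith [X_ge I]
  calc f I * g I ≤ (c * b ^ I.n * X I ^ e) * (c' * b' ^ I.n * X I ^ e') :=
        mul_le_mul (hf I) (hg I) (hg0 I) (by positivity)
    _ = _ := by push_cast; rw [mul_pow, pow_add]; ring

lemma Bd.mono {b b' : ℝ} (hb : 0 ≤ b) (h : b ≤ b') {f : MMInst → ℝ} (hf : Bd b f) : Bd b' f := by
  obtain ⟨c, e, hf⟩ := hf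
  refine ⟨c, e, fun I => (hf I).trans ?_⟩
  have h1 : 0 ≤ X I := by linarith [X_ge I]
  gcongr

lemma Bd.le {b : ℝ} {f g : MMInst → ℝ} (h : ∀ I, f I ≤ g I) (hg : Bd b g) : Bd b f := by
  obtain ⟨c, e, hg⟩ := hg
  exact ⟨c, e, fun I => (h I).trans (hg I)⟩

lemma Bd.pow {b : ℝ} (_hb : 0 ≤ b) {f : MMInst → ℝ} (hf0 : ∀ I, 0 ≤ f I) (hf : Bd b f) (k : ℕ) :
    Bd (b ^ k) (fun I => f I ^ k) := by
  obtain ⟨c, e, hf⟩ := hf
  refine ⟨c ^ k, e * k, fun I => ?_⟩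
  calc f I ^ k ≤ (c * b ^ I.n * X I ^ e) ^ k := pow_le_pow_left₀ (hf0 I) (hf I) k
    _ = _ := by
      push_cast
      rw [mul_pow, mul_pow, ← pow_mul, ← pow_mul, ← pow_mul, mul_comm I.n k, pow_mul]

/-- multiplication by a polynomial factor -/
lemma Bd.mulp {b : ℝ} (hb : 0 ≤ b) {f g : MMInst → ℝ} (hg0 : ∀ I, 0 ≤ g I)
    (hf : Bd 1 f) (hg : Bd b g) : Bd b (fun I => f I * g I) := by
  have := Bd.mul zero_le_one hb hg0 hf hg
  rwa [one_mul] at this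

lemma bd_X : Bd 1 X := ⟨1, 1, fun I => by simp⟩

lemma bd_n {b : ℝ} (hb : 1 ≤ b) : Bd b (fun I => (I.n : ℝ)) := by
  refine (Bd.le (fun I => ?_) bd_X).mono zero_le_one hb
  unfold X
  have h2 : (0 : ℝ) ≤ (I.S + I.R.length : ℕ) := Nat.cast_nonneg _
  linarith

lemma bd_S {b : ℝ} (hb : 1 ≤ b) : Bd b (fun I => (I.S : ℝ)) := by
  refine (Bd.le (fun I => ?_) bd_X).mono zero_le_one hb
  unfold X
  push_cast
  have h1 : (0 : ℝ) ≤ I.n := Nat.cast_nonneg _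
  have h2 : (0 : ℝ) ≤ I.R.length := Nat.cast_nonneg _
  linarith

lemma bd_R {b : ℝ} (hb : 1 ≤ b) : Bd b (fun I => (I.R.length : ℝ)) := by
  refine (Bd.le (fun I => ?_) bd_X).mono zero_le_one hb
  unfold X
  push_cast
  have h1 : (0 : ℝ) ≤ I.n := Nat.cast_nonneg _
  have h2 : (0 : ℝ) ≤ I.S := Nat.cast_nonneg _
  linarith

/-- the number of small sets -/
lemma bd_M {ρ x : ℝ} {K' : ℕ} (hx0 : 0 < x) (hx1 : x ≤ 1) (hxρ : (1 + x) * (1 + x) ≤ ρ)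
    (hK' : x⁻¹ ≤ (1 + x) ^ K') (hK0 : 1 ≤ K') :
    Bd ρ (fun I => ((sm (2 * K') I).length : ℝ)) := by
  obtain ⟨c, hc⟩ := exists_nat_ge ((1 + x) ^ (2 * K') * (1 + x) ^ K' * (x⁻¹) ^ (1 + 2 * K'))
  refine ⟨c, 0, fun I => ?_⟩
  have hnd := (elistFacts (I.n + 2 * K') (sz I.n (2 * K') + 2 * K') (I.n + 2 * K') le_rfl)
  have h1 := smallCount (I.n + 2 * K') (sz I.n (2 * K') + 2 * K') x (sm (2 * K') I) hx0 hx1 hnd.1
    (fun S hS => ((hnd.2 S).1 hS).1)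
  have hxi : 1 ≤ x⁻¹ := (one_le_inv₀ hx0).2 hx1
  have h2 : (x⁻¹) ^ ((2 * I.n + 2 * K' - 1) / (2 * K')) ≤ (1 + x) ^ (I.n + K') := by
    set a := (2 * I.n + 2 * K' - 1) / (2 * K') with ha
    have h3 : a * (2 * K') ≤ 2 * I.n + 2 * K' - 1 := Nat.div_mul_le_self _ _
    calc (x⁻¹) ^ a ≤ ((1 + x) ^ K') ^ a := pow_le_pow_left₀ (by positivity) hK' _
      _ = (1 + x) ^ (K' * a) := by rw [← pow_mul]
      _ ≤ (1 + x) ^ (I.n + K') := by
        refine pow_le_pow_right₀ (by linarith) ?_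
        have : a * (2 * K') = 2 * (K' * a) := by ring
        omega
  have h4 : (1 + x) ^ I.n * (1 + x) ^ I.n ≤ ρ ^ I.n := by
    rw [← mul_pow]
    exact pow_le_pow_left₀ (by positivity) hxρ _
  have h5 : (x⁻¹) ^ (sz I.n (2 * K') + 2 * K') =
      (x⁻¹) ^ ((2 * I.n + 2 * K' - 1) / (2 * K')) * (x⁻¹) ^ (1 + 2 * K') := by
    rw [sz, ← pow_add]
    congr 1
    ring
  rw [h5] at h1
  rw [pow_zero, mul_one]
  calc ((sm (2 * K') I).length : ℝ) ≤ _ := h1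
    _ ≤ (1 + x) ^ (I.n + 2 * K') * ((1 + x) ^ (I.n + K') * (x⁻¹) ^ (1 + 2 * K')) := by gcongr
    _ = ((1 + x) ^ (2 * K') * (1 + x) ^ K' * (x⁻¹) ^ (1 + 2 * K')) * ((1 + x) ^ I.n * (1 + x) ^ I.n) := by
        rw [pow_add, pow_add]
        ring
    _ ≤ c * ρ ^ I.n := by
        refine mul_le_mul hc h4 (by positivity) (Nat.cast_nonneg _)

end T10x

open T10x

theorem t10 : T10 := by
  intro β β' C h1 hβ
  have hβ0 : 0 < β := by linarith
  have hβ'0 : 0 < β' := by linarith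
  have hβ'1 : 1 ≤ β' := by linarith
  set r : ℝ := β' / β with hr
  have hr1 : 1 < r := by rw [hr, lt_div_iff₀ hβ0]; linarith
  obtain ⟨ρ, hρ1, hρC⟩ : ∃ ρ : ℝ, 1 < ρ ∧ ρ ^ (C + 2) ≤ r := by
    have hc : ContinuousAt (fun y : ℝ => y ^ (C + 2)) 1 := (continuous_pow (C + 2)).continuousAt
    have hev : ∀ᶠ y : ℝ in nhds 1, y ^ (C + 2) < r := by
      apply hc.eventually_lt continuousAt_const
      simpa using hr1
    obtain ⟨ε, hε, hb⟩ := Metric.eventually_nhds_iff.1 hev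
    refine ⟨1 + ε / 2, by linarith, (hb ?_).le⟩
    rw [Real.dist_eq, add_sub_cancel_left, abs_of_pos (by linarith)]
    linarith
  obtain ⟨x, hx0, hx1, hxρ⟩ : ∃ x : ℝ, 0 < x ∧ x ≤ 1 ∧ (1 + x) * (1 + x) ≤ ρ := by
    refine ⟨min 1 ((ρ - 1) / 3), lt_min one_pos (by linarith), min_le_left _ _, ?_⟩
    have e1 := min_le_left (1 : ℝ) ((ρ - 1) / 3)
    have e2 := min_le_right (1 : ℝ) ((ρ - 1) / 3)
    have e3 : 0 < min (1 : ℝ) ((ρ - 1) / 3) := lt_min one_pos (by linarith)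
    nlinarith
  obtain ⟨K', hK1, hK'⟩ : ∃ K' : ℕ, 1 ≤ K' ∧ x⁻¹ ≤ (1 + x) ^ K' := by
    obtain ⟨M, hM⟩ := pow_unbounded_of_one_lt (x⁻¹) (show 1 < 1 + x by linarith)
    refine ⟨M + 1, by omega, hM.le.trans ?_⟩
    exact pow_le_pow_right₀ (by linarith) (Nat.le_succ M)
  have hM := bd_M hx0 hx1 hxρ hK' hK1
  set K := 2 * K' with hK
  refine ⟨K, by omega, fun D t => ?_⟩
  have hρ0 : 0 ≤ ρ := by linarith
  have hρ2 : ρ ^ 2 ≤ β' := by
    have e1 : ρ ^ 2 ≤ ρ ^ (C + 2) := pow_le_pow_right₀ hρ1.le (by omega)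
    have e2 : r ≤ β' := by
      rw [hr, div_le_iff₀ hβ0]
      nlinarith
    linarith
  have hρβ : ρ ≤ β' := by nlinarith
  have hβρ : β * ρ ^ C ≤ β' := by
    have e1 : ρ ^ C ≤ ρ ^ (C + 2) := pow_le_pow_right₀ hρ1.le (by omega)
    have e2 : ρ ^ C ≤ r := e1.trans hρC
    rw [hr, le_div_iff₀ hβ0] at e2
    linarith
  -- the factors
  have hM1 : Bd ρ (fun I => ((sm K I).length : ℝ) + 1) := hM.add hρ1.le (Bd.const hρ1.le 1)
  have hM1' : Bd β' (fun I => ((sm K I).length : ℝ) + 1) := hM1.mono hρ0 hρβ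
  have hM2' : Bd β' (fun I => (((sm K I).length : ℝ) + 1) ^ 2) :=
    (hM1.pow hρ0 (fun I => by positivity) 2).mono (by positivity) hρ2
  have c1 : ∀ k : ℝ, Bd 1 (fun _ => k) := fun k => Bd.const le_rfl k
  have c2 : ∀ k : ℝ, Bd β' (fun _ => k) := fun k => Bd.const hβ'1 k
  have hT : Bd β' (fun I => ((⌊(C : ℝ) * β ^ (I.n + K + (K + 1)) *
      (((I.n + K + (K + 1) : ℕ) : ℝ) + ((K + 1) * (sm K I).length : ℕ) + 2) ^ C⌋₊ : ℕ) : ℝ)) := by
    have e1 : Bd ρ (fun I => ((I.n + K + (K + 1) : ℕ) : ℝ) + ((K + 1) * (sm K I).length : ℕ) + 2) := by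
      have e2 : Bd ρ (fun I => ((I.n : ℝ) + (K + (K + 1) + 2)) + (K + 1) * ((sm K I).length : ℝ)) := by
        refine Bd.add hρ1.le ((bd_n hρ1.le).add hρ1.le (Bd.const hρ1.le _)) ?_
        exact Bd.mulp hρ0 (fun I => by positivity) (c1 _) hM
      refine Bd.le (fun I => le_of_eq ?_) e2
      push_cast
      ring
    have e3 := e1.pow hρ0 (fun I => by positivity) C
    have e4 : Bd β (fun I => (C : ℝ) * β ^ (I.n + K + (K + 1))) := by
      obtain ⟨c, hc⟩ := exists_nat_ge ((C : ℝ) * β ^ (K + (K + 1)))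
      refine ⟨c, 0, fun I => ?_⟩
      rw [pow_zero, mul_one]
      show (C : ℝ) * β ^ (I.n + K + (K + 1)) ≤ c * β ^ I.n
      rw [add_assoc, pow_add]
      calc (C : ℝ) * (β ^ I.n * β ^ (K + (K + 1))) = ((C : ℝ) * β ^ (K + (K + 1))) * β ^ I.n := by ring
        _ ≤ c * β ^ I.n := mul_le_mul_of_nonneg_right hc (by positivity)
    have e5 := Bd.mul hβ0.le (pow_nonneg hρ0 C) (fun I => by positivity) e4 e3
    refine Bd.le (fun I => Nat.floor_le (by positivity)) (e5.mono (by positivity) hβρ)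
  -- the inner bracket
  have hin : Bd β' (fun I => 60 * ((I.S : ℝ) + K + 1) * (((sm K I).length : ℝ) + 1) +
      100 * (I.S : ℝ) * ((I.R.length : ℝ) + 1) * (((sm K I).length : ℝ) + 1) ^ 2 +
      (60 * ((K : ℝ) + 1) * (((sm K I).length : ℝ) + 1) + 60) +
      (3 * ((⌊(C : ℝ) * β ^ (I.n + K + (K + 1)) *
      (((I.n + K + (K + 1) : ℕ) : ℝ) + ((K + 1) * (sm K I).length : ℕ) + 2) ^ C⌋₊ : ℕ) : ℝ) + t) + 10 +
      5 * (K : ℝ)) := by
    refine Bd.add hβ'1 (Bd.add hβ'1 (Bd.add hβ'1 (Bd.add hβ'1 (Bd.add hβ'1 ?_ ?_) ?_) ?_) (c2 10)) (c2 _)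
    · refine Bd.mulp hβ'0.le (fun I => by positivity) ?_ hM1'
      exact Bd.mulp zero_le_one (fun I => by positivity) (c1 60)
        (((bd_S le_rfl).add le_rfl (c1 _)).add le_rfl (c1 _))
    · refine Bd.mulp hβ'0.le (fun I => by positivity) ?_ hM2'
      refine Bd.mulp zero_le_one (fun I => by positivity) ?_ ((bd_R le_rfl).add le_rfl (c1 _))
      exact Bd.mulp zero_le_one (fun I => by positivity) (c1 100) (bd_S le_rfl)
    · refine Bd.add hβ'1 ?_ (c2 _)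
      exact Bd.mulp hβ'0.le (fun I => by positivity) (c1 _) hM1'
    · refine Bd.add hβ'1 ?_ (c2 _)
      exact Bd.mulp hβ'0.le (fun I => by positivity) (c1 3) hT
  have hSK : Bd 1 (fun I => (I.S : ℝ) ^ K) := by
    have := (bd_S (le_refl (1 : ℝ))).pow zero_le_one (fun I => by positivity) K
    rwa [one_pow] at this
  have hall : Bd β' (fun I => 400 * ((D : ℝ) + 1) * (K + 1) * ((I.n : ℝ) + (I.S + I.R.length) + 3) +
      60 * ((I.n : ℝ) + K + 1) * (((sm K I).length : ℝ) + 1) + 10 +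
      (I.S : ℝ) ^ K * (60 * ((I.S : ℝ) + K + 1) * (((sm K I).length : ℝ) + 1) +
      100 * (I.S : ℝ) * ((I.R.length : ℝ) + 1) * (((sm K I).length : ℝ) + 1) ^ 2 +
      (60 * ((K : ℝ) + 1) * (((sm K I).length : ℝ) + 1) + 60) +
      (3 * ((⌊(C : ℝ) * β ^ (I.n + K + (K + 1)) *
      (((I.n + K + (K + 1) : ℕ) : ℝ) + ((K + 1) * (sm K I).length : ℕ) + 2) ^ C⌋₊ : ℕ) : ℝ) + t) + 10 +
      5 * (K : ℝ))) := by
    refine Bd.add hβ'1 (Bd.add hβ'1 (Bd.add hβ'1 ?_ ?_) (c2 10)) ?_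
    · refine Bd.mulp hβ'0.le (fun I => by positivity) (c1 _) ?_
      exact ((bd_n hβ'1).add hβ'1 ((bd_S hβ'1).add hβ'1 (bd_R hβ'1))).add hβ'1 (c2 3)
    · refine Bd.mulp hβ'0.le (fun I => by positivity) ?_ hM1'
      exact Bd.mulp zero_le_one (fun I => by positivity) (c1 60)
        (((bd_n le_rfl).add le_rfl (c1 _)).add le_rfl (c1 _))
    · exact Bd.mulp hβ'0.le (fun I => by positivity) hSK hin
  obtain ⟨c, e, hc⟩ := hall
  refine ⟨c + e, fun I => ?_⟩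
  have hX : 1 ≤ X I := by linarith [X_ge I]
  calc (time3 I.n K D I.S I.R.length (sm K I).length
    ⌊(C : ℝ) * β ^ (I.n + K + (K + 1)) * (((I.n + K + (K + 1) : ℕ) : ℝ) + ((K + 1) * (sm K I).length : ℕ) + 2) ^ C⌋₊
    t : ℝ) = _ := by
        rw [time3]
        simp only [Nat.cast_add, Nat.cast_mul, Nat.cast_pow, Nat.cast_ofNat, Nat.cast_one]
    _ ≤ c * β' ^ I.n * X I ^ e := hc I
    _ ≤ ((c + e : ℕ) : ℝ) * β' ^ I.n * X I ^ (c + e) := by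
        have h2 : (c : ℝ) ≤ ((c + e : ℕ) : ℝ) := by exact_mod_cast Nat.le_add_right c e
        have h3 : X I ^ e ≤ X I ^ (c + e) := pow_le_pow_right₀ hX (Nat.le_add_left _ _)
        gcongr

end SCM
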