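import Pool.Agent.Lib.SCM.Progs
import Pool.Agent.Lib.SCN.MB
import Pool.Agent.Lib.SCN.MA

/-!
# Row T4: the table at the beginning
-/

namespace SCM

open SCR SCN

namespace T4x

lemma fr_upd {K : ℕ} {I : MMInst} {s t : Data} (h : Fr K I s t) (i v : ℕ) (h1 : 17 ≤ i) (h2 : i ≠ 19)
    (h3 : i < 50) : Fr K I s (upd t i v) :=
  ⟨fun r hr => by rw [upd_ne _ _ (by omega)]; exact h.reg r hr, h.mem⟩

lemma fr_updm {K : ℕ} {I : MMInst} {s t : Data} (h : Fr K I s t) {a : ℕ} (v : ℕ) (h1 : TA K I 0 ≤ a) :
    Fr K I s (updm t a v) :=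
  ⟨h.reg, fun b hb => by rw [updm_ne _ _ (by omega)]; exact h.mem b hb⟩

open Classical in
/-- the table, as a set of pairs of a row and a word -/
def TabM (K : ℕ) (I : MMInst) (W : ℕ → ℕ → Prop) (x : Data) : Prop :=
  ∀ z < I.S, ∀ Y ∈ sm K I, x.mem (TA K I z + mask Y) = if W z (mask Y) then 1 else 0

lemma TA_le (K : ℕ) (I : MMInst) (z : ℕ) : TA K I 0 ≤ TA K I z := by
  unfold TA
  rw [Nat.zero_mul]
  exact Nat.le_add_right _ _

lemma TA_inj (K : ℕ) (I : MMInst) {z z' m m' : ℕ} (hm : m < 2 ^ (I.n + K)) (hm' : m' < 2 ^ (I.n + K))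
    (h : TA K I z + m = TA K I z' + m') : z = z' ∧ m = m' := by
  unfold TA at h
  set P := 2 ^ (I.n + K)
  have hz : z = z' := by
    rcases Nat.lt_trichotomy z z' with h1 | h1 | h1
    · have h2 : (z + 1) * P ≤ z' * P := Nat.mul_le_mul_right P h1
      rw [Nat.succ_mul] at h2
      omega
    · exact h1
    · have h2 : (z' + 1) * P ≤ z * P := Nat.mul_le_mul_right P h1
      rw [Nat.succ_mul] at h2
      omega
  subst hz
  exact ⟨rfl, by omega⟩

lemma TA_lt {w K D : ℕ} {I : MMInst} (hf : Fits3 w K D I) {z m : ℕ} (hz : z < I.S)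
    (hm : m < 2 ^ (I.n + K)) : TA K I z + m < 2 ^ w := by
  have h1 := hf.addr
  have h2 : TA K I z + 2 ^ (I.n + K) ≤ TA K I (I.S + 1) := by
    unfold TA
    have h3 : (z + 1) * 2 ^ (I.n + K) ≤ (I.S + 1) * 2 ^ (I.n + K) := Nat.mul_le_mul_right _ (by omega)
    rw [Nat.succ_mul] at h3
    omega
  have h0 := Nat.two_pow_pos (wi D I)
  omega

lemma RB_lt {w K D : ℕ} {I : MMInst} (hf : Fits3 w K D I) : RB K I + I.S < 2 ^ w := by
  have h1 := hf.addr
  have h2 : RB K I + I.S ≤ TA K I (I.S + 1) := by
    unfold TA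
    exact Nat.le_add_right _ _
  have h0 := Nat.two_pow_pos (wi D I)
  omega

lemma smLen (K : ℕ) (I : MMInst) : (sm K I).length ≤ 2 ^ (I.n + K) := by
  have h := (elistFacts (I.n + K) (sz I.n K + K) (I.n + K) le_rfl).1
  have h1 := h.length_le_card
  rw [Fintype.card_finset, Fintype.card_fin] at h1
  exact h1

lemma TabM.store {K : ℕ} {I : MMInst} {W : ℕ → ℕ → Prop} {x : Data} (h : TabM K I W x) {z' m' : ℕ}
    (hm' : m' < 2 ^ (I.n + K)) :
    TabM K I (fun z m => W z m ∨ (z = z' ∧ m = m')) (updm x (TA K I z' + m') 1) := by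
  intro z hz Y hY
  rw [updm_mem]
  by_cases h1 : TA K I z + mask Y = TA K I z' + m'
  · obtain ⟨h2, h3⟩ := TA_inj K I (maskLt _ Y) hm' h1
    rw [if_pos h1, if_pos (Or.inr ⟨h2, h3⟩)]
  · rw [if_neg h1, h z hz Y hY]
    by_cases h2 : W z (mask Y)
    · rw [if_pos h2, if_pos (Or.inl h2)]
    · rw [if_neg h2, if_neg]
      rintro (h3 | ⟨h3, h4⟩)
      · exact h2 h3
      · exact h1 (by rw [h3, h4])

lemma TabM.congr {K : ℕ} {I : MMInst} {W W' : ℕ → ℕ → Prop} {x : Data} (h : TabM K I W x)
    (hW : ∀ z m, W z m ↔ W' z m) : TabM K I W' x := by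
  intro z hz Y hY
  rw [h z hz Y hY]
  by_cases h2 : W z (mask Y)
  · rw [if_pos h2, if_pos ((hW _ _).1 h2)]
  · rw [if_neg h2, if_neg fun h3 => h2 ((hW _ _).2 h3)]

lemma getD_mem (K : ℕ) (I : MMInst) {p : ℕ} (hp : p < (sm K I).length) : (sm K I).getD p ∅ ∈ sm K I := by
  rw [List.getD_eq_getElem _ _ hp]
  exact List.getElem_mem hp

lemma init_spec {w K D : ℕ} {I : MMInst} {s : Data} (hf : Fits3 w K D I) (he : Env3 K D I s)
    (hl : EL3 K I s) : HT w init3 s (I.S * (21 * (sm K I).length + 16) + 6)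
      (fun t => Fr K I s t ∧ TabM K I (fun _ _ => False) t) := by
  have hM := smLen K I
  have hRB := RB_lt hf
  have hbig := hf.big
  have hP : 2 ^ (I.n + K) < 2 ^ w := lt_of_le_of_lt (Nat.pow_le_pow_right (by norm_num) (by omega)) hbig
  refine HT.forr I.S (21 * (sm K I).length + 6)
    (fun j t => Fr K I s t ∧ ∀ z < j, ∀ Y ∈ sm K I, t.mem (TA K I z + mask Y) = 0)
    (by decide) (by decide) (by decide) rfl (by decide) trivial he.r6 (by omega)
    ⟨fr_upd (fr_upd (Fr.refl K I s) 22 _ (by decide) (by decide) (by decide)) 21 _ (by decide)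
      (by decide) (by decide), fun z hz => absurd hz (Nat.not_lt_zero z)⟩ ?_
    (by simp only [E.size]; ring_nf; omega) ?_
  · rintro j hj s' ⟨h1, h2⟩ h3 h4
    refine HT.forr (sm K I).length 11 (fun p t => Fr K I s t ∧
      (∀ z < j, ∀ Y ∈ sm K I, t.mem (TA K I z + mask Y) = 0) ∧
      (∀ p' < p, t.mem (TA K I j + mask ((sm K I).getD p' ∅)) = 0) ∧ t.reg 21 = j ∧
      t.reg 22 = I.S - j)
      (by decide) (by decide) (by decide) rfl (by decide) trivial ?_ (by omega) ?_ ?_
      (by simp only [E.size]; omega) ?_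
    · exact (h1.reg 19 (by omega)).trans hl.r19
    · refine ⟨fr_upd (fr_upd h1 24 _ (by decide) (by decide) (by decide)) 23 _ (by decide)
        (by decide) (by decide), h2, fun p hp => absurd hp (Nat.not_lt_zero p), ?_, ?_⟩
      · rw [upd_ne _ _ (by decide), upd_ne _ _ (by decide)]; exact h3
      · rw [upd_ne _ _ (by decide), upd_ne _ _ (by decide)]; exact h4
    · rintro p hp t ⟨t1, t2, t3, t4, t5⟩ t6 t7
      have et := he.fr t1
      have lt' := hl.fr t1 hM
      have hmk := maskLt _ ((sm K I).getD p ∅)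
      have hTA := TA_lt hf hj hmk
      have hval : (E.add (.ld (.add (.r 14) (.r 21))) (.ld (.add (.r 12) (.r 23)))).val t =
          TA K I j + mask ((sm K I).getD p ∅) := by
        simp only [E.val]
        rw [et.r14, t4, et.r12, t6, et.row j hj, lt'.word p hp]
      refine HT.sto rfl (by decide) ?_ rfl (by decide) (Nat.two_pow_pos w) ?_
        (show 11 ≤ 11 by norm_num)
      · refine ⟨⟨trivial, trivial, ?_⟩, ⟨trivial, trivial, ?_⟩, ?_⟩
        · simp only [E.val]
          rw [et.r14, t4]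
          omega
        · simp only [E.val]
          rw [et.r12, t6]
          unfold RB at hRB
          omega
        · have h9 := hval
          simp only [E.val] at h9 ⊢
          rw [h9]
          exact hTA
      · rw [hval]
        simp only [E.val]
        refine ⟨?_, ?_, ?_⟩
        · rw [updm_reg]; exact t6
        · rw [updm_reg]; exact t7
        refine ⟨?_, ?_, ?_, ?_, ?_⟩
        · exact fr_upd (fr_upd (fr_updm t1 0 ((TA_le K I j).trans (Nat.le_add_right _ _))) 23 _ (by decide)
            (by decide) (by decide)) 24 _ (by decide) (by decide) (by decide)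
        · intro z hz Y hY
          rw [upd_mem, upd_mem, updm_mem]
          split_ifs
          · rfl
          · exact t2 z hz Y hY
        · intro p' hp'
          rw [upd_mem, upd_mem, updm_mem]
          split_ifs with h9
          · rfl
          · refine t3 p' ?_
            rcases Nat.lt_or_ge p' p with h10 | h10
            · exact h10
            · have : p' = p := by omega
              exact absurd (by rw [this]) h9
        · rw [upd_ne _ _ (by decide), upd_ne _ _ (by decide)]; exact t4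
        · rw [upd_ne _ _ (by decide), upd_ne _ _ (by decide)]; exact t5
    · rintro t ⟨t1, t2, t3, t4, t5⟩ - -
      refine ⟨t4, t5, ?_, ?_⟩
      · exact fr_upd (fr_upd t1 21 _ (by decide) (by decide) (by decide)) 22 _ (by decide)
          (by decide) (by decide)
      · intro z hz Y hY
        rw [upd_mem, upd_mem]
        rcases Nat.lt_or_ge z j with h10 | h10
        · exact t2 z h10 Y hY
        · have hzj : z = j := by omega
          obtain ⟨p, hp, hpY⟩ := List.getElem_of_mem hY
          have := t3 p hp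
          rw [List.getD_eq_getElem _ _ hp, hpY] at this
          rw [hzj]
          exact this
  · rintro t ⟨t1, t2⟩ - -
    refine ⟨t1, fun z hz Y hY => ?_⟩
    rw [if_neg not_false]
    exact t2 z hz Y hY

/-- the state between the commands -/
structure St (K : ℕ) (I : MMInst) (s : Data) (W : ℕ → ℕ → Prop) (v : ℕ) (t : Data) : Prop where
  fr : Fr K I s t
  tab : TabM K I W t
  r20 : t.reg 20 = v

lemma hole_spec {w K D : ℕ} {I : MMInst} {s : Data} (hf : Fits3 w K D I) (he : Env3 K D I s)
    (hg : ∀ j < K, gs s j < I.S) (W : ℕ → ℕ → Prop) (s' : Data) (hs : St K I s W (2 ^ I.n) s') :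
    ∀ i ≤ K, HT w (hole3 i) s' (12 * i)
      (St K I s (fun z m => W z m ∨ ∃ j < i, z = gs s j ∧ m = 2 ^ (I.n + j)) (2 ^ (I.n + i))) := by
  have hRB := RB_lt hf
  intro i
  induction i with
  | zero =>
    intro _
    refine HT.skip ⟨hs.fr, hs.tab.congr fun z m => ?_, hs.r20⟩
    constructor
    · exact Or.inl
    · rintro (h | ⟨j, hj, -⟩)
      · exact h
      · exact absurd hj (Nat.not_lt_zero j)
  | succ i ih =>
    intro hi
    refine HT.seq (T1 := 12 * i) (T2 := 12) (ih (by omega)) ?_ (by omega)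
    intro t ht
    have et := he.fr ht.fr
    have hgi := hg i (by omega)
    have hr50 : t.reg (50 + i) = gs s i := ht.fr.reg (50 + i) (by omega)
    have hpw : 2 ^ (I.n + i) < 2 ^ (I.n + K) := Nat.pow_lt_pow_right (by norm_num) (by omega)
    have hTA := TA_lt hf hgi hpw
    have hval : (E.add (.ld (.add (.r 14) (.r (50 + i)))) (.r 20)).val t =
        TA K I (gs s i) + 2 ^ (I.n + i) := by
      simp only [E.val]
      rw [et.r14, hr50, ht.r20, et.row _ hgi]
    have hbig := hf.big
    have h1w : 1 < 2 ^ w := lt_of_le_of_lt (Nat.one_le_two_pow) hbig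
    refine HT.seq (R := St K I s (fun z m => (W z m ∨ ∃ j < i, z = gs s j ∧ m = 2 ^ (I.n + j)) ∨
      (z = gs s i ∧ m = 2 ^ (I.n + i))) (2 ^ (I.n + i))) (T1 := 8) (T2 := 4) ?_ ?_ (by norm_num)
    · refine HT.sto ?_ (by simp [E.depth]) ?_ rfl (by decide) h1w ?_ (show 8 ≤ 8 by norm_num)
      · simp only [E.wf, Bool.and_eq_true, Bool.or_eq_true, decide_eq_true_eq]
        omega
      · refine ⟨⟨trivial, trivial, ?_⟩, trivial, ?_⟩
        · simp only [E.val]
          rw [et.r14, hr50]
          omega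
        · have h9 := hval
          simp only [E.val] at h9 ⊢
          rw [h9]
          exact hTA
      · rw [hval]
        simp only [E.val]
        exact ⟨fr_updm ht.fr 1 ((TA_le K I (gs s i)).trans (Nat.le_add_right _ _)), ht.tab.store hpw, ht.r20⟩
    · intro u hu
      refine HT.seq (T1 := 4) (T2 := 0) (R := St K I s (fun z m => W z m ∨ ∃ j < i + 1, z = gs s j ∧
        m = 2 ^ (I.n + j)) (2 ^ (I.n + (i + 1)))) ?_ (fun _ h => HT.skip h) (by norm_num)
      have h2 : (E.add (.r 20) (.r 20)).val u = 2 ^ (I.n + (i + 1)) := by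
        simp only [E.val]
        rw [hu.r20, ← Nat.add_assoc, Nat.pow_succ]
        ring
      refine HT.set (by omega) rfl (by decide) ⟨trivial, trivial, ?_⟩ ?_ (show 4 ≤ 4 by norm_num)
      · have h3 := h2
        simp only [E.val] at h3 ⊢
        rw [h3]
        exact lt_of_le_of_lt (Nat.pow_le_pow_right (by norm_num) (by omega)) hbig
      · rw [h2]
        refine ⟨fr_upd hu.fr 20 _ (by decide) (by decide) (by decide), ?_, upd_self _ _ _⟩
        have h4 : TabM K I (fun z m => (W z m ∨ ∃ j < i, z = gs s j ∧ m = 2 ^ (I.n + j)) ∨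
            (z = gs s i ∧ m = 2 ^ (I.n + i))) (upd u 20 (2 ^ (I.n + (i + 1)))) := hu.tab
        refine h4.congr fun z m => ?_
        constructor
        · rintro ((h | ⟨j, hj, h⟩) | h)
          · exact Or.inl h
          · exact Or.inr ⟨j, by omega, h⟩
          · exact Or.inr ⟨i, by omega, h⟩
        · rintro (h | ⟨j, hj, h⟩)
          · exact Or.inl (Or.inl h)
          · rcases Nat.lt_or_ge j i with h5 | h5
            · exact Or.inl (Or.inr ⟨j, h5, h⟩)
            · have : j = i := by omega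
              subst this
              exact Or.inr h

lemma mask_pow {n : ℕ} (Y : Finset (Fin n)) (a : ℕ) : mask Y = 2 ^ a ↔ toN Y = {a} := by
  rw [mask_eq]
  constructor
  · intro h
    have h1 : (∑ i ∈ toN Y, 2 ^ i) = ∑ i ∈ ({a} : Finset ℕ), 2 ^ i := by
      rw [Finset.sum_singleton]
      exact h
    have h2 := congrArg (fun m => m.bitIndices.toFinset) h1
    simpa only [Finset.toFinset_bitIndices_sum_two_pow] using h2
  · intro h
    have h1 : (Finset.map Fin.valEmbedding Y) = {a} := h
    rw [h1, Finset.sum_singleton]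

lemma mask_zero {n : ℕ} (Y : Finset (Fin n)) : mask Y = 0 ↔ toN Y = ∅ := by
  rw [maskZero n Y, toN, Finset.map_eq_empty]

lemma base_spec {w K D : ℕ} {I : MMInst} {s : Data} (hf : Fits3 w K D I) (he : Env3 K D I s)
    (hg : ∀ j < K, gs s j < I.S) (s' : Data) (hs : Fr K I s s')
    (hs2 : TabM K I (fun _ _ => False) s') :
    HT w (base3 K) s' (22 * I.n + 12 * K + 14) (fun t => Fr K I s t ∧ Tab K I (Bas I.n K (gs s)) t) := by
  have hRB := RB_lt hf
  have hn := I.hn
  have hbig := hf.big
  have h1w : 1 < 2 ^ w := lt_of_le_of_lt (Nat.one_le_two_pow) hbig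
  have hP0 : 0 < 2 ^ (I.n + K) := Nat.two_pow_pos _
  have et := he.fr hs
  refine HT.seq (R := fun t => Fr K I s t ∧ TabM K I (fun z m => z = I.n ∧ m = 0) t) (T1 := 6)
    (T2 := 22 * I.n + 12 * K + 8) ?_ ?_ (by omega)
  · have hval : (E.ld (.add (.r 14) (.r 1))).val s' = TA K I I.n + 0 := by
      simp only [E.val]
      rw [et.r14, et.r1, et.row _ hn, Nat.add_zero]
    refine HT.sto rfl (by decide) ⟨trivial, trivial, ?_⟩ rfl (by decide) h1w ?_ (show 6 ≤ 6 by norm_num)
    · simp only [E.val]
      rw [et.r14, et.r1]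
      omega
    · rw [hval]
      simp only [E.val]
      refine ⟨fr_updm hs 1 (TA_le K I I.n), (hs2.store hP0).congr fun z m => ?_⟩
      simp
  rintro t ⟨t1, t2⟩
  refine HT.seq (R := St K I s (fun z m => z = I.n ∧ m = 0) 1) (T1 := 2)
    (T2 := 22 * I.n + 12 * K + 6) ?_ ?_ (by omega)
  · refine HT.set (by omega) rfl (by decide) h1w ?_ (show 2 ≤ 2 by norm_num)
    exact ⟨fr_upd t1 20 _ (by decide) (by decide) (by decide), t2, upd_self _ _ _⟩
  intro u hu
  refine HT.seq (R := St K I s (fun z m => (z = I.n ∧ m = 0) ∨ (z < I.n ∧ m = 2 ^ z)) (2 ^ I.n))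
    (T1 := 22 * I.n + 6) (T2 := 12 * K) ?_ ?_ (by omega)
  · refine HT.forr I.n 12 (fun j t => St K I s (fun z m => (z = I.n ∧ m = 0) ∨ (z < j ∧ m = 2 ^ z))
      (2 ^ j) t) (by decide) (by decide) (by decide) rfl (by decide) trivial ?_ (by omega) ?_ ?_
      (by simp only [E.size]; omega) ?_
    · exact (hu.fr.reg 1 (by omega)).trans he.r1
    · refine ⟨fr_upd (fr_upd hu.fr 22 _ (by decide) (by decide) (by decide)) 21 _ (by decide)
        (by decide) (by decide), ?_, ?_⟩
      · have h4 : TabM K I (fun z m => z = I.n ∧ m = 0) (upd (upd u 22 I.n) 21 0) := hu.tab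
        refine h4.congr fun z m => ?_
        constructor
        · exact Or.inl
        · rintro (h | ⟨h, -⟩)
          · exact h
          · exact absurd h (Nat.not_lt_zero z)
      · rw [upd_ne _ _ (by decide), upd_ne _ _ (by decide), Nat.pow_zero]
        exact hu.r20
    · intro a ha x hx x1 x2
      have ex := he.fr hx.fr
      have haS : a < I.S := ha.trans hn
      have hpw : 2 ^ a < 2 ^ (I.n + K) := Nat.pow_lt_pow_right (by norm_num) (by omega)
      have hTA := TA_lt hf haS hpw
      have hval : (E.add (.ld (.add (.r 14) (.r 21))) (.r 20)).val x = TA K I a + 2 ^ a := by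
        simp only [E.val]
        rw [ex.r14, x1, hx.r20, ex.row _ haS]
      refine HT.seq (R := fun y => St K I s (fun z m => ((z = I.n ∧ m = 0) ∨ (z < a ∧ m = 2 ^ z)) ∨
        (z = a ∧ m = 2 ^ a)) (2 ^ a) y ∧ y.reg 21 = a ∧ y.reg 22 = I.n - a) (T1 := 8) (T2 := 4)
        ?_ ?_ (by norm_num)
      · refine HT.sto rfl (by decide) ?_ rfl (by decide) h1w ?_ (show 8 ≤ 8 by norm_num)
        · refine ⟨⟨trivial, trivial, ?_⟩, trivial, ?_⟩
          · simp only [E.val]
            rw [ex.r14, x1]
            omega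
          · have h9 := hval
            simp only [E.val] at h9 ⊢
            rw [h9]
            exact hTA
        · rw [hval]
          simp only [E.val]
          exact ⟨⟨fr_updm hx.fr 1 ((TA_le K I a).trans (Nat.le_add_right _ _)), hx.tab.store hpw, hx.r20⟩, x1, x2⟩
      · rintro y ⟨hy, y1, y2⟩
        have h2 : (E.add (.r 20) (.r 20)).val y = 2 ^ (a + 1) := by
          simp only [E.val]
          rw [hy.r20, Nat.pow_succ]
          ring
        refine HT.seq (T1 := 4) (T2 := 0) (R := fun z => z.reg 21 = a ∧ z.reg 22 = I.n - a ∧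
          St K I s (fun z m => (z = I.n ∧ m = 0) ∨ (z < a + 1 ∧ m = 2 ^ z)) (2 ^ (a + 1))
            (upd (upd z 21 (a + 1)) 22 (I.n - (a + 1)))) ?_ (fun _ h => HT.skip h) (by norm_num)
        refine HT.set (by omega) rfl (by decide) ⟨trivial, trivial, ?_⟩ ?_ (show 4 ≤ 4 by norm_num)
        · have h3 := h2
          simp only [E.val] at h3 ⊢
          rw [h3]
          exact lt_of_le_of_lt (Nat.pow_le_pow_right (by norm_num) (by omega)) hbig
        · rw [h2]
          refine ⟨by rw [upd_ne _ _ (by decide)]; exact y1, by rw [upd_ne _ _ (by decide)]; exact y2, ?_⟩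
          refine ⟨fr_upd (fr_upd (fr_upd hy.fr 20 _ (by decide) (by decide) (by decide)) 21 _
            (by decide) (by decide) (by decide)) 22 _ (by decide) (by decide) (by decide), ?_, ?_⟩
          · have h4 : TabM K I (fun z m => ((z = I.n ∧ m = 0) ∨ (z < a ∧ m = 2 ^ z)) ∨
              (z = a ∧ m = 2 ^ a)) (upd (upd (upd y 20 (2 ^ (a + 1))) 21 (a + 1)) 22 (I.n - (a + 1))) :=
              hy.tab
            refine h4.congr fun z m => ?_
            constructor
            · rintro ((h | ⟨h, h'⟩) | ⟨h, h'⟩)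
              · exact Or.inl h
              · exact Or.inr ⟨by omega, h'⟩
              · exact Or.inr ⟨by omega, by rw [h', h]⟩
            · rintro (h | ⟨h, h'⟩)
              · exact Or.inl (Or.inl h)
              · rcases Nat.lt_or_ge z a with h5 | h5
                · exact Or.inl (Or.inr ⟨h5, h'⟩)
                · have : z = a := by omega
                  exact Or.inr ⟨this, by rw [h', this]⟩
          · rw [upd_ne _ _ (by decide), upd_ne _ _ (by decide), upd_self]
    · intro x hx _ _
      exact hx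
  intro x hx
  refine HT.seq (T1 := 12 * K) (T2 := 0) (hole_spec hf he hg _ x hx K le_rfl) (fun y hy => HT.skip ?_)
    (by omega)
  refine ⟨hy.fr, fun z hz Y hY => ?_⟩
  rw [hy.tab z hz Y hY]
  have h5 : ((z = I.n ∧ mask Y = 0 ∨ z < I.n ∧ mask Y = 2 ^ z) ∨
      ∃ j < K, z = gs s j ∧ mask Y = 2 ^ (I.n + j)) ↔ Bas I.n K (gs s) z (toN Y) := by
    unfold Bas
    simp only [mask_pow, mask_zero]
    tauto
  by_cases h6 : Bas I.n K (gs s) z (toN Y)
  · rw [if_pos h6, if_pos (h5.2 h6)]
  · rw [if_neg h6, if_neg fun h7 => h6 (h5.1 h7)]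

end T4x

open T4x in
/-- T4 -/
theorem t4 : T4 := by
  intro w K D I s hK hf he hl hg
  have hn := I.hn
  refine HT.seq (T1 := I.S * (21 * (sm K I).length + 16) + 6) (T2 := 22 * I.n + 12 * K + 14)
    (init_spec hf he hl) ?_ ?_
  · rintro t ⟨t1, t2⟩
    exact HT.seq (T1 := 22 * I.n + 12 * K + 14) (T2 := 0) (base_spec hf he hg t t1 t2)
      (fun y hy => HT.skip hy) (by omega)
  · have h1 : I.S * (21 * (sm K I).length + 16) ≤ 21 * (I.S * ((sm K I).length + 1)) := by
      nlinarith
    have h2 : I.S ≤ I.S * ((sm K I).length + 1) := Nat.le_mul_of_pos_right _ (Nat.succ_pos _)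
    have h3 : K ≤ K * ((sm K I).length + 1) := Nat.le_mul_of_pos_right _ (Nat.succ_pos _)
    have h4 : 60 * (I.S + K + 1) * ((sm K I).length + 1) = 60 * (I.S * ((sm K I).length + 1)) +
        60 * (K * ((sm K I).length + 1)) + 60 * ((sm K I).length + 1) := by ring
    omega

end SCM
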