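import Pool.Agent.Lib.SCM.Progs
import Pool.Agent.Lib.SCN.ME
import Pool.Agent.Lib.SCN.MA
import Pool.Agent.Lib.SCN.MB

/-!
# Row T5: the table
-/

set_option autoImplicit false

namespace SCM

open SCR SCN

namespace T5x

lemma len_le (K : ℕ) (I : MMInst) : (sm K I).length ≤ 2 ^ (I.n + K) := by
  classical
  have h1 := (elistFacts (I.n + K) (sz I.n K + K) (I.n + K) le_rfl).1
  have h2 : (sm K I).length = (sm K I).toFinset.card := (List.toFinset_card_of_nodup h1).symm
  rw [h2]
  calc (sm K I).toFinset.card ≤ (Finset.univ : Finset (Finset (Fin (I.n + K)))).card :=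
        Finset.card_le_card (Finset.subset_univ _)
    _ = 2 ^ (I.n + K) := by simp

lemma mem_sm {K : ℕ} {I : MMInst} (Y : Finset (Fin (I.n + K))) : Y ∈ sm K I ↔ Y.card ≤ sz I.n K + K :=
  mem_smallL elistFacts Y

lemma sm_sub {K : ℕ} {I : MMInst} {X Y : Finset (Fin (I.n + K))} (h : X ⊆ Y) (hY : Y ∈ sm K I) :
    X ∈ sm K I := by
  rw [mem_sm] at hY ⊢
  exact (Finset.card_le_card h).trans hY

lemma TA_eq (K : ℕ) (I : MMInst) (z : ℕ) : TA K I z = TA K I 0 + z * 2 ^ (I.n + K) := by
  unfold TA
  omega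

lemma addr_inj {K : ℕ} {I : MMInst} {z z' : ℕ} {Y Y' : Finset (Fin (I.n + K))}
    (h : TA K I z + mask Y = TA K I z' + mask Y') : z = z' ∧ Y = Y' := by
  have h1 := maskLt (I.n + K) Y
  have h2 := maskLt (I.n + K) Y'
  rw [TA_eq K I z, TA_eq K I z'] at h
  have hz : z = z' := by
    rcases Nat.lt_trichotomy z z' with h3 | h3 | h3
    · have h4 : (z + 1) * 2 ^ (I.n + K) ≤ z' * 2 ^ (I.n + K) := Nat.mul_le_mul_right _ h3
      rw [Nat.succ_mul] at h4
      omega
    · exact h3
    · have h4 : (z' + 1) * 2 ^ (I.n + K) ≤ z * 2 ^ (I.n + K) := Nat.mul_le_mul_right _ h3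
      rw [Nat.succ_mul] at h4
      omega
  subst hz
  exact ⟨rfl, maskInj _ (by omega)⟩

lemma addr_lt {K : ℕ} {I : MMInst} {z : ℕ} (hz : z < I.S) (Y : Finset (Fin (I.n + K))) :
    TA K I z + mask Y < TA K I I.S := by
  have h1 := maskLt (I.n + K) Y
  rw [TA_eq K I z, TA_eq K I I.S]
  have h4 : (z + 1) * 2 ^ (I.n + K) ≤ I.S * 2 ^ (I.n + K) := Nat.mul_le_mul_right _ hz
  rw [Nat.succ_mul] at h4
  omega

lemma TAS_lt {w K D : ℕ} {I : MMInst} (h : Fits3 w K D I) : TA K I I.S + 2 ^ (I.n + K) + 10 < 2 ^ w := by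
  have h1 := h.addr
  have h2 := Nat.two_pow_pos (wi D I)
  rw [TA_eq, Nat.succ_mul, ← Nat.add_assoc, ← TA_eq] at h1
  omega

lemma TA_rb {K : ℕ} {I : MMInst} (z : ℕ) : RB K I + I.S ≤ TA K I z := by
  unfold TA
  omega

lemma rb_eq {K : ℕ} {I : MMInst} : RB K I = 4 + 3 * I.R.length + 2 * 2 ^ (I.n + K) := rfl

lemma TA_lb {K : ℕ} {I : MMInst} (z : ℕ) :
    4 + 3 * I.R.length + 2 * 2 ^ (I.n + K) + I.S ≤ TA K I z := by
  unfold TA RB LB
  omega

open Classical in
/-- the state during the filling of the table -/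
structure G (K : ℕ) (I : MMInst) (s : Data) (V : ℕ → Finset (Fin (I.n + K)) → Prop) (t : Data) : Prop where
  reg : ∀ r, r < 17 ∨ r = 19 ∨ 50 ≤ r → t.reg r = s.reg r
  mem : ∀ a < TA K I 0, t.mem a = s.mem a
  tab : ∀ z < I.S, ∀ Y ∈ sm K I, t.mem (TA K I z + mask Y) = if V z Y then 1 else 0

lemma G.upd {K : ℕ} {I : MMInst} {s t : Data} {V : ℕ → Finset (Fin (I.n + K)) → Prop} (h : G K I s V t)
    (i v : ℕ) (hi : ¬ (i < 17 ∨ i = 19 ∨ 50 ≤ i)) : G K I s V (SCM.upd t i v) := by
  refine ⟨fun r hr => ?_, h.mem, h.tab⟩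
  rw [upd_ne _ _ (by rintro rfl; exact hi hr)]
  exact h.reg r hr

lemma G.congr {K : ℕ} {I : MMInst} {s t : Data} {V V' : ℕ → Finset (Fin (I.n + K)) → Prop} (h : G K I s V t)
    (hV : ∀ z < I.S, ∀ Y ∈ sm K I, V z Y ↔ V' z Y) : G K I s V' t := by
  refine ⟨h.reg, h.mem, fun z hz Y hY => ?_⟩
  rw [h.tab z hz Y hY]
  by_cases h1 : V z Y
  · rw [if_pos h1, if_pos ((hV z hz Y hY).1 h1)]
  · rw [if_neg h1, if_neg fun h2 => h1 ((hV z hz Y hY).2 h2)]

lemma G.env {K D : ℕ} {I : MMInst} {s t : Data} {V : ℕ → Finset (Fin (I.n + K)) → Prop} (h : G K I s V t)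
    (hE : Env3 K D I s) (hL : EL3 K I s) : Env3 K D I t ∧ EL3 K I t :=
  have hF : Fr K I s t := ⟨h.reg, h.mem⟩
  ⟨hE.fr hF, hL.fr hF (len_le K I)⟩

/-- one step: the subset `X` of `Y` -/
def Vst {m : ℕ} (V : ℕ → Finset (Fin m) → Prop) (j x y : ℕ) (Y X : Finset (Fin m)) (z : ℕ)
    (Z : Finset (Fin m)) : Prop :=
  V z Z ∨ (z = j ∧ Z = Y ∧ X ⊆ Y ∧ V x X ∧ V y (Y \ X))

/-- set number `p` of the list -/
def el (K : ℕ) (I : MMInst) (p : ℕ) : Finset (Fin (I.n + K)) := (sm K I).getD p ∅

lemma el_mem {K : ℕ} {I : MMInst} {p : ℕ} (hp : p < (sm K I).length) : el K I p ∈ sm K I := by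
  rw [el, List.getD_eq_getElem _ _ hp]
  exact List.getElem_mem _

lemma mem_el {K : ℕ} {I : MMInst} {Y : Finset (Fin (I.n + K))} (hY : Y ∈ sm K I) :
    ∃ p < (sm K I).length, el K I p = Y := by
  obtain ⟨p, hp, h⟩ := List.getElem_of_mem hY
  exact ⟨p, hp, by rw [el, List.getD_eq_getElem _ _ hp, h]⟩

/-- the command for one pair of sets -/
def cmd1 : Stmt := blk [
    set 34 (.ld (.add (.r 12) (.r 32))),
    cond (.sub (.r 34) (.and (.r 34) (.r 31))) .skip
      (sto (.add (.r 26) (.r 31)) (.or (.ld (.add (.r 26) (.r 31)))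
        (.and (.ld (.add (.r 27) (.r 34))) (.ld (.add (.r 28) (.sub (.r 31) (.r 34)))))))]

lemma or_val (a b : Prop) [Decidable a] [Decidable b] :
    ((if a then 1 else 0 : ℕ) ||| (if b then 1 else 0)) = if a ∨ b then 1 else 0 := by
  by_cases ha : a <;> by_cases hb : b <;> simp [ha, hb]

lemma and_val (a b : Prop) [Decidable a] [Decidable b] :
    ((if a then 1 else 0 : ℕ) &&& (if b then 1 else 0)) = if a ∧ b then 1 else 0 := by
  by_cases ha : a <;> by_cases hb : b <;> simp [ha, hb]

lemma step {w K D : ℕ} {I : MMInst} {s s' : Data} {V : ℕ → Finset (Fin (I.n + K)) → Prop}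
    (hF : Fits3 w K D I) (hE : Env3 K D I s) (hL : EL3 K I s) (hG : G K I s V s') {j x y p2 : ℕ}
    (hj : j < I.S) (hx : x < I.S) (hy : y < I.S) {Y : Finset (Fin (I.n + K))} (hY : Y ∈ sm K I)
    (hp2 : p2 < (sm K I).length) (h26 : s'.reg 26 = TA K I j) (h27 : s'.reg 27 = TA K I x)
    (h28 : s'.reg 28 = TA K I y) (h31 : s'.reg 31 = mask Y) (h32 : s'.reg 32 = p2) :
    HT w cmd1 s' 32 (fun t => G K I s (Vst V j x y Y (el K I p2)) t ∧ ∀ r, r ≠ 34 → t.reg r = s'.reg r) := by
  classical
  obtain ⟨hE', hL'⟩ := hG.env hE hL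
  have hTS := TAS_lt hF
  have hM := len_le K I
  have hlb := TA_lb (K := K) (I := I) I.S
  have hw34 : s'.mem (LB I + p2) = mask (el K I p2) := hL'.word p2 hp2
  have hLB : LB I = 4 + 3 * I.R.length := rfl
  unfold cmd1
  refine HT.seq (R := fun t => t = SCM.upd s' 34 (mask (el K I p2))) (T1 := 5) (T2 := 27)
    (HT.set (by omega) rfl (by decide) ?_ ?_ (by decide)) ?_ le_rfl
  · simp only [E.ok, E.val, hE'.r12, h32, true_and]
    omega
  · simp only [E.val, hE'.r12, h32, hw34]
  rintro _ rfl
  refine HT.seq (R := fun t => G K I s (Vst V j x y Y (el K I p2)) t ∧ ∀ r, r ≠ 34 → t.reg r = s'.reg r)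
    (T1 := 27) (T2 := 0) (HT.cond (T1 := 20) rfl (by decide) ?_ ?_ ?_ (by decide)) (fun t ht => HT.skip ht) le_rfl
  · simp only [E.ok, and_self]
  · -- not a subset
    intro h
    have h1 : ¬ el K I p2 ⊆ Y := by
      intro h2
      apply h
      simp only [E.val, upd_self]
      rw [upd_ne _ _ (by decide), h31, maskSub, maskZero, Finset.sdiff_eq_empty_iff_subset]
      exact h2
    refine HT.skip ⟨(hG.upd 34 _ (by decide)).congr fun z _ Z _ => ?_, fun r hr => upd_ne _ _ hr⟩
    unfold Vst
    constructor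
    · exact Or.inl
    · rintro (h2 | h2)
      · exact h2
      · exact absurd h2.2.2.1 h1
  · intro h
    have h1 : el K I p2 ⊆ Y := by
      simp only [E.val, upd_self] at h
      rw [upd_ne _ _ (by decide), h31, maskSub, maskZero, Finset.sdiff_eq_empty_iff_subset] at h
      exact h
    set X := el K I p2 with hX
    have hXm : X ∈ sm K I := el_mem hp2
    have hYX : Y \ X ∈ sm K I := sm_sub Finset.sdiff_subset hY
    have hsub : mask Y - mask X = mask (Y \ X) := by
      have h2 := maskSub (I.n + K) Y X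
      rw [maskAnd, Finset.inter_eq_right.2 h1] at h2
      exact h2
    have e26 : (SCM.upd s' 34 (mask X)).reg 26 = TA K I j := by rw [upd_ne _ _ (by decide), h26]
    have e27 : (SCM.upd s' 34 (mask X)).reg 27 = TA K I x := by rw [upd_ne _ _ (by decide), h27]
    have e28 : (SCM.upd s' 34 (mask X)).reg 28 = TA K I y := by rw [upd_ne _ _ (by decide), h28]
    have e31 : (SCM.upd s' 34 (mask X)).reg 31 = mask Y := by rw [upd_ne _ _ (by decide), h31]
    have e34 : (SCM.upd s' 34 (mask X)).reg 34 = mask X := upd_self _ _ _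
    have a1 := addr_lt hj Y
    have a2 := addr_lt hx X
    have a3 := addr_lt hy (Y \ X)
    refine HT.sto rfl (by decide) ?_ rfl (by decide) ?_ ?_ (by decide)
    · simp only [E.ok, E.val, e26, e31, true_and]
      omega
    · simp only [E.ok, E.val, e26, e27, e28, e31, e34, true_and, hsub]
      omega
    · simp only [E.val, e26, e27, e28, e31, e34, hsub, upd_mem]
      rw [hG.tab j hj Y hY, hG.tab x hx X hXm, hG.tab y hy _ hYX, and_val, or_val]
      refine ⟨⟨fun r hr => ?_, fun a ha => ?_, fun z hz Z hZ => ?_⟩, fun r hr => ?_⟩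
      · rw [updm_reg, upd_ne _ _ (by omega)]
        exact hG.reg r hr
      · have : TA K I 0 ≤ TA K I j := by
          rw [TA_eq K I j]
          omega
        rw [updm_ne _ _ (by omega)]
        exact hG.mem a ha
      · by_cases hc : z = j ∧ Z = Y
        · obtain ⟨rfl, rfl⟩ := hc
          rw [updm_self]
          refine if_congr ?_ rfl rfl
          unfold Vst
          simp only [true_and, h1]
        · have hne : TA K I z + mask Z ≠ TA K I j + mask Y := fun h2 => hc (addr_inj h2)
          rw [updm_ne _ _ hne, upd_mem, hG.tab z hz Z hZ]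
          refine if_congr ?_ rfl rfl
          unfold Vst
          constructor
          · exact Or.inl
          · rintro (h2 | h2)
            · exact h2
            · exact absurd ⟨h2.1, h2.2.1⟩ hc
      · rw [updm_reg, upd_ne _ _ hr]

/-- the inner loop -/
def Vin (K : ℕ) (I : MMInst) (V : ℕ → Finset (Fin (I.n + K)) → Prop) (j x y : ℕ)
    (Y : Finset (Fin (I.n + K))) (p2 : ℕ) (z : ℕ) (Z : Finset (Fin (I.n + K))) : Prop :=
  V z Z ∨ (z = j ∧ Z = Y ∧ ∃ p3 < p2, el K I p3 ⊆ Y ∧ V x (el K I p3) ∧ V y (Y \ el K I p3))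

lemma inner {w K D : ℕ} {I : MMInst} {s s' : Data} {V : ℕ → Finset (Fin (I.n + K)) → Prop}
    (hF : Fits3 w K D I) (hE : Env3 K D I s) (hL : EL3 K I s) (hG : G K I s V s') {j x y : ℕ}
    (hj : j < I.S) (hx : x < j) (hy : y < j) {Y : Finset (Fin (I.n + K))} (hY : Y ∈ sm K I)
    (h26 : s'.reg 26 = TA K I j) (h27 : s'.reg 27 = TA K I x)
    (h28 : s'.reg 28 = TA K I y) (h31 : s'.reg 31 = mask Y) :
    HT w (forr 32 33 (.r 19) cmd1) s' ((sm K I).length * 42 + 6) (fun t =>
      G K I s (Vin K I V j x y Y (sm K I).length) t ∧ ∀ r, r ≠ 32 → r ≠ 33 → r ≠ 34 → t.reg r = s'.reg r) := by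
  obtain ⟨hE', hL'⟩ := hG.env hE hL
  have hTS := TAS_lt hF
  have hM := len_le K I
  refine HT.forr (sm K I).length 32 (fun p2 t => G K I s (Vin K I V j x y Y p2) t ∧
    ∀ r, r ≠ 32 → r ≠ 33 → r ≠ 34 → t.reg r = s'.reg r) (by decide) (by decide) (by decide) rfl (by decide)
    trivial hL'.r19 (by omega) ?_ ?_ (by simp only [E.size]; omega) ?_
  · refine ⟨((hG.upd 33 _ (by decide)).upd 32 _ (by decide)).congr fun z _ Z _ => ?_, fun r h1 h2 _ => ?_⟩
    · unfold Vin
      constructor
      · exact Or.inl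
      · rintro (h | ⟨_, _, p3, h, _⟩)
        · exact h
        · omega
    · rw [upd_ne _ _ h1, upd_ne _ _ h2]
  · rintro p2 hp2 t ⟨hGt, hr⟩ ht32 ht33
    have k26 : t.reg 26 = TA K I j := by rw [hr 26 (by decide) (by decide) (by decide), h26]
    have k27 : t.reg 27 = TA K I x := by rw [hr 27 (by decide) (by decide) (by decide), h27]
    have k28 : t.reg 28 = TA K I y := by rw [hr 28 (by decide) (by decide) (by decide), h28]
    have k31 : t.reg 31 = mask Y := by rw [hr 31 (by decide) (by decide) (by decide), h31]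
    refine (step hF hE hL hGt hj (hx.trans hj) (hy.trans hj) hY hp2 k26 k27 k28 k31 ht32).mono le_rfl ?_
    rintro u ⟨hGu, hru⟩
    refine ⟨by rw [hru 32 (by decide), ht32], by rw [hru 33 (by decide), ht33], ?_, fun r h1 h2 h3 => ?_⟩
    · refine ((hGu.upd 32 _ (by decide)).upd 33 _ (by decide)).congr fun z _ Z _ => ?_
      unfold Vst Vin
      constructor
      · rintro ((h | ⟨rfl, rfl, p3, h1, h2⟩) | ⟨rfl, rfl, h1, h2, h3⟩)
        · exact Or.inl h
        · exact Or.inr ⟨rfl, rfl, p3, by omega, h2⟩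
        · refine Or.inr ⟨rfl, rfl, p2, by omega, h1, ?_, ?_⟩
          · rcases h2 with h2 | h2
            · exact h2
            · omega
          · rcases h3 with h3 | h3
            · exact h3
            · omega
      · rintro (h | ⟨rfl, rfl, p3, h1, h2, h3, h4⟩)
        · exact Or.inl (Or.inl h)
        · rcases Nat.lt_or_ge p3 p2 with h5 | h5
          · exact Or.inl (Or.inr ⟨rfl, rfl, p3, h5, h2, h3, h4⟩)
          · have : p3 = p2 := by omega
            subst this
            exact Or.inr ⟨rfl, rfl, h2, Or.inl h3, Or.inl h4⟩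
    · rw [upd_ne _ _ h2, upd_ne _ _ h1, hru r h3, hr r h1 h2 h3]
  · rintro t ⟨h1, h2⟩ - -
    exact ⟨h1, h2⟩

/-- the outer loop -/
def Vout (K : ℕ) (I : MMInst) (V : ℕ → Finset (Fin (I.n + K)) → Prop) (j x y : ℕ) (p : ℕ) (z : ℕ)
    (Z : Finset (Fin (I.n + K))) : Prop :=
  V z Z ∨ (z = j ∧ (∃ p' < p, Z = el K I p') ∧ ∃ X, X ⊆ Z ∧ V x X ∧ V y (Z \ X))

lemma outer {w K D : ℕ} {I : MMInst} {s s' : Data} {V : ℕ → Finset (Fin (I.n + K)) → Prop}
    (hF : Fits3 w K D I) (hE : Env3 K D I s) (hL : EL3 K I s) (hG : G K I s V s') {j x y : ℕ}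
    (hj : j < I.S) (hx : x < j) (hy : y < j)
    (h26 : s'.reg 26 = TA K I j) (h27 : s'.reg 27 = TA K I x) (h28 : s'.reg 28 = TA K I y) :
    HT w rule3 s' ((sm K I).length * ((sm K I).length * 42 + 21) + 6) (fun t =>
      G K I s (Vout K I V j x y (sm K I).length) t ∧ ∀ r, r < 29 ∨ 34 < r → t.reg r = s'.reg r) := by
  obtain ⟨hE', hL'⟩ := hG.env hE hL
  have hTS := TAS_lt hF
  have hM := len_le K I
  have hlb := TA_lb (K := K) (I := I) I.S
  have hLB : LB I = 4 + 3 * I.R.length := rfl
  refine HT.forr (sm K I).length ((sm K I).length * 42 + 11) (fun p t => G K I s (Vout K I V j x y p) t ∧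
    ∀ r, r < 29 ∨ 34 < r → t.reg r = s'.reg r) (by decide) (by decide) (by decide) rfl (by decide)
    trivial hL'.r19 (by omega) ?_ ?_ (by simp only [E.size]; exact le_of_eq (by ring)) ?_
  · refine ⟨((hG.upd 30 _ (by decide)).upd 29 _ (by decide)).congr fun z _ Z _ => ?_, fun r h1 => ?_⟩
    · unfold Vout
      constructor
      · exact Or.inl
      · rintro (h | ⟨_, ⟨p3, h, _⟩, _⟩)
        · exact h
        · omega
    · rw [upd_ne _ _ (by omega), upd_ne _ _ (by omega)]
  · rintro p hp t ⟨hGt, hr⟩ ht29 ht30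
    obtain ⟨hEt, hLt⟩ := hGt.env hE hL
    have hwp : t.mem (LB I + p) = mask (el K I p) := hLt.word p hp
    refine HT.seq (R := fun u => u = SCM.upd t 31 (mask (el K I p))) (T1 := 5) (T2 := (sm K I).length * 42 + 6)
      (HT.set (by omega) rfl (by decide) ?_ ?_ (by decide)) ?_ (by omega)
    · simp only [E.ok, E.val, hEt.r12, ht29, true_and]
      omega
    · simp only [E.val, hEt.r12, ht29, hwp]
    rintro _ rfl
    have k26 : (SCM.upd t 31 (mask (el K I p))).reg 26 = TA K I j := by
      rw [upd_ne _ _ (by decide), hr 26 (by decide), h26]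
    have k27 : (SCM.upd t 31 (mask (el K I p))).reg 27 = TA K I x := by
      rw [upd_ne _ _ (by decide), hr 27 (by decide), h27]
    have k28 : (SCM.upd t 31 (mask (el K I p))).reg 28 = TA K I y := by
      rw [upd_ne _ _ (by decide), hr 28 (by decide), h28]
    refine HT.seq (T1 := (sm K I).length * 42 + 6) (T2 := 0)
      (inner hF hE hL (hGt.upd 31 _ (by decide)) hj hx hy (el_mem hp) k26 k27 k28 (upd_self _ _ _)) ?_ le_rfl
    rintro u ⟨hGu, hru⟩
    refine HT.skip ⟨?_, ?_, ?_, fun r h1 => ?_⟩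
    · rw [hru 29 (by decide) (by decide) (by decide), upd_ne _ _ (by decide), ht29]
    · rw [hru 30 (by decide) (by decide) (by decide), upd_ne _ _ (by decide), ht30]
    · refine ((hGu.upd 29 _ (by decide)).upd 30 _ (by decide)).congr fun z _ Z _ => ?_
      unfold Vin Vout
      constructor
      · rintro ((h | ⟨rfl, ⟨p', h1, h2⟩, h3⟩) | ⟨rfl, rfl, p3, h1, h2, h3, h4⟩)
        · exact Or.inl h
        · exact Or.inr ⟨rfl, ⟨p', by omega, h2⟩, h3⟩
        · refine Or.inr ⟨rfl, ⟨p, by omega, rfl⟩, el K I p3, h2, ?_, ?_⟩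
          · rcases h3 with h3 | h3
            · exact h3
            · omega
          · rcases h4 with h4 | h4
            · exact h4
            · omega
      · rintro (h | ⟨rfl, ⟨p', h1, h2⟩, X, h3, h4, h5⟩)
        · exact Or.inl (Or.inl h)
        · rcases Nat.lt_or_ge p' p with h6 | h6
          · exact Or.inl (Or.inr ⟨rfl, ⟨p', h6, h2⟩, X, h3, h4, h5⟩)
          · have : p' = p := by omega
            subst this
            subst h2
            obtain ⟨p3, h7, h8⟩ := mem_el (sm_sub h3 (el_mem hp))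
            subst h8
            exact Or.inr ⟨rfl, rfl, p3, h7, h3, Or.inl h4, Or.inl h5⟩
    · rw [upd_ne _ _ (by omega), upd_ne _ _ (by omega), hru r (by omega) (by omega) (by omega),
        upd_ne _ _ (by omega), hr r h1]
  · rintro t ⟨h1, h2⟩ - -
    exact ⟨h1, h2⟩

/-- the entries of row `z` after `t` rules -/
def Prt (K : ℕ) (I : MMInst) (q : ℕ → ℕ) (z t : ℕ) (Z : Finset (Fin (I.n + K))) : Prop :=
  Bas I.n K q z (toN Z) ∨ ∃ t' < t, (I.R.getD t' (0, 0, 0)).1 = z ∧ ∃ X, X ⊆ Z ∧
    MonoH I.n K q I.R (I.R.getD t' (0, 0, 0)).2.1 (toN X) ∧ MonoH I.n K q I.R (I.R.getD t' (0, 0, 0)).2.2 (toN (Z \ X))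

lemma mem_toN {n : ℕ} (Y : Finset (Fin n)) (x : ℕ) : x ∈ toN Y ↔ ∃ h : x < n, (⟨x, h⟩ : Fin n) ∈ Y := by
  unfold toN
  simp only [Finset.mem_map, Fin.valEmbedding_apply]
  constructor
  · rintro ⟨y, hy, rfl⟩
    exact ⟨y.2, hy⟩
  · rintro ⟨h, hx⟩
    exact ⟨_, hx, rfl⟩

lemma toN_union {n : ℕ} (X Y : Finset (Fin n)) : toN (X ∪ Y) = toN X ∪ toN Y := Finset.map_union _ _

lemma toN_disj {n : ℕ} {X Y : Finset (Fin n)} (h : Disjoint X Y) : Disjoint (toN X) (toN Y) :=
  (Finset.disjoint_map _).2 h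

/-- a part of `toN Z` -/
lemma toN_part {n : ℕ} {Z : Finset (Fin n)} {A B : Finset ℕ} (h : A ∪ B = toN Z) (hd : Disjoint A B) :
    ∃ X, X ⊆ Z ∧ toN X = A ∧ toN (Z \ X) = B := by
  classical
  refine ⟨Z.filter fun x => (x : ℕ) ∈ A, Finset.filter_subset _ _, ?_, ?_⟩
  · ext x
    rw [mem_toN]
    constructor
    · rintro ⟨_, h2⟩
      exact (Finset.mem_filter.1 h2).2
    · intro hx
      have h1 : x ∈ toN Z := by rw [← h]; exact Finset.mem_union_left _ hx
      obtain ⟨h2, h3⟩ := (mem_toN _ _).1 h1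
      exact ⟨h2, Finset.mem_filter.2 ⟨h3, hx⟩⟩
  · ext x
    rw [mem_toN]
    constructor
    · rintro ⟨h1, h2⟩
      rw [Finset.mem_sdiff, Finset.mem_filter] at h2
      have h3 : x ∈ toN Z := (mem_toN _ _).2 ⟨h1, h2.1⟩
      rw [← h, Finset.mem_union] at h3
      rcases h3 with h3 | h3
      · exact absurd ⟨h2.1, h3⟩ h2.2
      · exact h3
    · intro hx
      have h1 : x ∈ toN Z := by rw [← h]; exact Finset.mem_union_right _ hx
      obtain ⟨h2, h3⟩ := (mem_toN _ _).1 h1
      refine ⟨h2, Finset.mem_sdiff.2 ⟨h3, fun h4 => ?_⟩⟩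
      exact Finset.disjoint_left.1 hd (Finset.mem_filter.1 h4).2 hx

lemma prt_full {K : ℕ} {I : MMInst} {q : ℕ → ℕ} {z : ℕ} {Z : Finset (Fin (I.n + K))} :
    Prt K I q z I.R.length Z ↔ MonoH I.n K q I.R z (toN Z) := by
  constructor
  · rintro (h | ⟨t, ht, h1, X, h2, h3, h4⟩)
    · rcases h with ⟨h1, h2⟩ | ⟨rfl, h2⟩ | ⟨j, h1, rfl, h2⟩
      · rw [h2]
        exact MonoH.var h1
      · rw [h2]
        exact MonoH.one
      · rw [h2]
        exact MonoH.hole h1
    · have h5 : (z, (I.R.getD t (0, 0, 0)).2.1, (I.R.getD t (0, 0, 0)).2.2) ∈ I.R := by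
        rw [← h1]
        rw [List.getD_eq_getElem _ _ ht]
        exact List.getElem_mem _
      have h6 := MonoH.mul h5 h3 h4 (toN_disj Finset.disjoint_sdiff)
      rwa [← toN_union, Finset.union_sdiff_of_subset h2] at h6
  · intro h
    generalize hA : toN Z = A at h
    cases h with
    | var h1 => exact Or.inl (by rw [hA]; exact Or.inl ⟨h1, rfl⟩)
    | one => exact Or.inl (by rw [hA]; exact Or.inr (Or.inl ⟨rfl, rfl⟩))
    | @hole j h1 => exact Or.inl (by rw [hA]; exact Or.inr (Or.inr ⟨j, h1, rfl, rfl⟩))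
    | @mul _ x y A B h1 h2 h3 h4 =>
      obtain ⟨X, hX1, hX2, hX3⟩ := toN_part hA.symm h4
      obtain ⟨t, ht, h5⟩ := List.getElem_of_mem h1
      refine Or.inr ⟨t, ht, ?_⟩
      rw [List.getD_eq_getElem _ _ ht, h5]
      refine ⟨rfl, X, hX1, ?_, ?_⟩
      · rw [hX2]
        exact h2
      · rw [hX3]
        exact h3

/-- the table before rule `t` of row `j` -/
def Vrow (K : ℕ) (I : MMInst) (q : ℕ → ℕ) (j t : ℕ) (z : ℕ) (Z : Finset (Fin (I.n + K))) : Prop :=
  if z < j then MonoH I.n K q I.R z (toN Z) else if z = j then Prt K I q j t Z else Bas I.n K q z (toN Z)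

lemma vrow_zero {K : ℕ} {I : MMInst} {q : ℕ → ℕ} {j z : ℕ} {Z : Finset (Fin (I.n + K))} :
    Vrow K I q j 0 z Z ↔ if z < j then MonoH I.n K q I.R z (toN Z) else Bas I.n K q z (toN Z) := by
  unfold Vrow
  by_cases h1 : z < j
  · rw [if_pos h1, if_pos h1]
  · rw [if_neg h1, if_neg h1]
    by_cases h2 : z = j
    · rw [if_pos h2, h2]
      unfold Prt
      constructor
      · rintro (h | ⟨t', h, _⟩)
        · exact h
        · omega
      · exact Or.inl
    · rw [if_neg h2]

lemma vrow_full {K : ℕ} {I : MMInst} {q : ℕ → ℕ} {j z : ℕ} {Z : Finset (Fin (I.n + K))} :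
    Vrow K I q j I.R.length z Z ↔ if z < j + 1 then MonoH I.n K q I.R z (toN Z) else Bas I.n K q z (toN Z) := by
  unfold Vrow
  by_cases h1 : z < j
  · rw [if_pos h1, if_pos (by omega)]
  · rw [if_neg h1]
    by_cases h2 : z = j
    · rw [if_pos h2, if_pos (by omega), h2, prt_full]
    · rw [if_neg h2, if_neg (by omega)]

end T5x

open T5x

theorem t5 : T5 := by
  classical
  intro w K D I s hK hF hE hL hq hT
  have hTS := TAS_lt hF
  have hM := len_le K I
  have hlb := TA_lb (K := K) (I := I) I.S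
  set q := gs s with hqdef
  set M := (sm K I).length with hMdef
  set r := I.R.length with hr
  have hRB1 := TA_rb (K := K) (I := I) I.S
  have hRB2 : RB K I = 4 + 3 * r + 2 * 2 ^ (I.n + K) := rb_eq
  refine HT.forr I.S (r * (42 * M ^ 2 + 21 * M + 52) + 8)
    (fun j t => G K I s (Vrow K I q j 0) t) (by decide) (by decide) (by decide) rfl (by decide) trivial
    hE.r6 (by omega) ?_ ?_ ?_ ?_
  · refine (G.upd (G.upd ⟨fun _ _ => rfl, fun _ _ => rfl, fun z hz Y hY => ?_⟩ 22 _ (by decide)) 21 _ (by decide))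
    rw [hT z hz Y hY]
    refine if_congr ?_ rfl rfl
    rw [vrow_zero, if_neg (Nat.not_lt_zero _)]
  · intro j hj s1 hG1 h21 h22
    refine HT.seq (R := fun t => t = SCM.upd s1 25 4) (T1 := 2)
      (T2 := r * (42 * M ^ 2 + 21 * M + 52) + 6)
      (HT.set (by omega) rfl (by decide) ?_ rfl (by decide)) ?_ (by omega)
    · simp only [E.ok]
      omega
    rintro _ rfl
    refine HT.seq (R := fun t => (G K I s (Vrow K I q j r) t ∧ t.reg 25 = 4 + 3 * r) ∧
      t.reg 21 = j ∧ t.reg 22 = I.S - j) (T1 := r * (42 * M ^ 2 + 21 * M + 52) + 6) (T2 := 0) ?_ ?_ le_rfl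
    · refine HT.forr r (42 * M ^ 2 + 21 * M + 42)
        (fun t u => (G K I s (Vrow K I q j t) u ∧ u.reg 25 = 4 + 3 * t) ∧ u.reg 21 = j ∧ u.reg 22 = I.S - j)
        (by decide) (by decide) (by decide) rfl (by decide) trivial ?_ (by omega) ?_ ?_ ?_ ?_
      · have := (hG1.env hE hL).1.r3
        simp only [E.val]
        rw [upd_ne _ _ (by decide), this]
      · refine ⟨⟨((hG1.upd 25 _ (by decide)).upd 24 _ (by decide)).upd 23 _ (by decide), ?_⟩, ?_, ?_⟩
        · rw [upd_ne _ _ (by decide), upd_ne _ _ (by decide), upd_self]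
        · rw [upd_ne _ _ (by decide), upd_ne _ _ (by decide), upd_ne _ _ (by decide), h21]
        · rw [upd_ne _ _ (by decide), upd_ne _ _ (by decide), upd_ne _ _ (by decide), h22]
      · rintro t ht u ⟨⟨hGu, hu25⟩, hu21, hu22⟩ hu23 hu24
        obtain ⟨hEu, hLu⟩ := hGu.env hE hL
        obtain ⟨i1, i2, i3⟩ := hEu.inp t ht
        have hmemR : I.R.getD t (0, 0, 0) ∈ I.R := by
          rw [List.getD_eq_getElem _ _ ht]
          exact List.getElem_mem _
        obtain ⟨hR1, hR2, hR3⟩ := I.hR _ hmemR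
        set R1 := (I.R.getD t (0, 0, 0)).1 with hR1def
        set x := (I.R.getD t (0, 0, 0)).2.1 with hxdef
        set y := (I.R.getD t (0, 0, 0)).2.2 with hydef
        refine HT.seq (R := fun u' => G K I s (Vrow K I q j (t + 1)) u' ∧ ∀ r, r < 26 ∨ 34 < r → u'.reg r = u.reg r)
          (T1 := 42 * M ^ 2 + 21 * M + 38) (T2 := 4) ?_ ?_ (by omega)
        · refine HT.cond (T1 := 42 * M ^ 2 + 21 * M + 27) rfl (by decide) ?_ ?_ ?_ (by simp only [E.size]; omega)
          · simp only [E.ok, E.val, hu25, i1, hu21, true_and, and_true]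
            omega
          · intro h
            simp only [E.val, hu25, i1, hu21] at h
            refine HT.skip ⟨hGu.congr fun z _ Z _ => ?_, fun _ _ => rfl⟩
            have hne : R1 ≠ j := by omega
            unfold Vrow
            by_cases h1 : z < j
            · rw [if_pos h1, if_pos h1]
            · rw [if_neg h1, if_neg h1]
              by_cases h2 : z = j
              · rw [if_pos h2, if_pos h2]
                unfold Prt
                refine or_congr Iff.rfl ⟨?_, ?_⟩
                · rintro ⟨t', h3, h4⟩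
                  exact ⟨t', by omega, h4⟩
                · rintro ⟨t', h3, h4, h5⟩
                  refine ⟨t', ?_, h4, h5⟩
                  rcases Nat.lt_or_ge t' t with h6 | h6
                  · exact h6
                  · have : t' = t := by omega
                    subst this
                    exact absurd h4 hne
              · rw [if_neg h2, if_neg h2]
          · intro h
            simp only [E.val, hu25, i1, hu21] at h
            have hj1 : R1 = j := by omega
            rw [hj1] at hR2 hR3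
            -- the rows
            refine HT.seq (R := fun u' => u' = SCM.upd u 26 (TA K I j)) (T1 := 5)
              (T2 := 42 * M ^ 2 + 21 * M + 22) (HT.set (by omega) rfl (by decide) ?_ ?_ (by decide)) ?_ (by omega)
            · simp only [E.ok, E.val, hEu.r14, hu21, true_and]
              omega
            · simp only [E.val, hEu.r14, hu21]
              rw [hEu.row j hj]
            rintro _ rfl
            have g1 := hGu.upd 26 (TA K I j) (by decide)
            have g1E := (g1.env hE hL).1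
            have hr25 : (SCM.upd u 26 (TA K I j)).reg 25 = 4 + 3 * t := by rw [upd_ne _ _ (by decide), hu25]
            refine HT.seq (R := fun u' => u' = SCM.upd (SCM.upd u 26 (TA K I j)) 27 (TA K I x)) (T1 := 8)
              (T2 := 42 * M ^ 2 + 21 * M + 14) (HT.set (by omega) rfl (by decide) ?_ ?_ (by decide)) ?_ (by omega)
            · simp only [E.ok, E.val, g1E.r14, hr25, upd_mem, i2, true_and]
              omega
            · simp only [E.val, g1E.r14, hr25, upd_mem, i2]
              rw [← upd_mem u 26 (TA K I j), g1E.row x (by omega)]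
            rintro _ rfl
            have g2 := g1.upd 27 (TA K I x) (by decide)
            have g2E := (g2.env hE hL).1
            have hr25' : (SCM.upd (SCM.upd u 26 (TA K I j)) 27 (TA K I x)).reg 25 = 4 + 3 * t := by
              rw [upd_ne _ _ (by decide), hr25]
            refine HT.seq (R := fun u' => u' = SCM.upd (SCM.upd (SCM.upd u 26 (TA K I j)) 27 (TA K I x)) 28 (TA K I y))
              (T1 := 8) (T2 := 42 * M ^ 2 + 21 * M + 6)
              (HT.set (by omega) rfl (by decide) ?_ ?_ (by decide)) ?_ (by omega)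
            · simp only [E.ok, E.val, g2E.r14, hr25', upd_mem, i3, true_and]
              omega
            · simp only [E.val, g2E.r14, hr25', upd_mem, i3]
              rw [← upd_mem u 26 (TA K I j), ← upd_mem (SCM.upd u 26 (TA K I j)) 27 (TA K I x),
                g2E.row y (by omega)]
            rintro _ rfl
            have g3 := g2.upd 28 (TA K I y) (by decide)
            refine HT.seq (T1 := 42 * M ^ 2 + 21 * M + 6) (T2 := 0)
              ((outer hF hE hL g3 hj hR2 hR3 ?_ ?_ ?_).mono (T' := 42 * M ^ 2 + 21 * M + 6) ?_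
                (fun _ h => h)) ?_ le_rfl
            · rw [upd_ne _ _ (by decide), upd_ne _ _ (by decide), upd_self]
            · rw [upd_ne _ _ (by decide), upd_self]
            · rw [upd_self]
            · rw [← hMdef]
              exact le_of_eq (by ring)
            rintro v ⟨hGv, hv⟩
            refine HT.skip ⟨hGv.congr fun z _ Z hZ => ?_, fun r' h1 => ?_⟩
            · obtain ⟨pZ, hpZ, hpZ'⟩ := mem_el hZ
              unfold Vout Vrow
              by_cases h1 : z < j
              · simp only [if_pos h1]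
                constructor
                · rintro (h2 | h2)
                  · exact h2
                  · omega
                · exact Or.inl
              · rw [if_neg h1, if_neg h1]
                by_cases h2 : z = j
                · subst h2
                  simp only [if_true, if_pos hR2, if_pos hR3, true_and]
                  unfold Prt
                  constructor
                  · rintro ((h3 | ⟨t', h3, h4⟩) | ⟨_, X, h3, h4, h5⟩)
                    · exact Or.inl h3
                    · exact Or.inr ⟨t', by omega, h4⟩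
                    · exact Or.inr ⟨t, by omega, hj1, X, h3, h4, h5⟩
                  · rintro (h3 | ⟨t', h3, h4, X, h5, h6, h7⟩)
                    · exact Or.inl (Or.inl h3)
                    · rcases Nat.lt_or_ge t' t with h8 | h8
                      · exact Or.inl (Or.inr ⟨t', h8, h4, X, h5, h6, h7⟩)
                      · have : t' = t := by omega
                        subst this
                        exact Or.inr ⟨⟨pZ, hpZ, hpZ'.symm⟩, X, h5, h6, h7⟩
                · rw [if_neg h2, if_neg h2]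
                  constructor
                  · rintro (h3 | h3)
                    · exact h3
                    · exact absurd h3.1 h2
                  · intro h3
                    exact Or.inl h3
            · rw [hv r' (by omega), upd_ne _ _ (by omega), upd_ne _ _ (by omega), upd_ne _ _ (by omega)]
        · rintro v ⟨hGv, hv⟩
          have hv25 : v.reg 25 = 4 + 3 * t := by rw [hv 25 (by decide), hu25]
          refine HT.seq (R := fun v' => v' = SCM.upd v 25 (4 + 3 * t + 3)) (T1 := 4) (T2 := 0)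
            (HT.set (by omega) rfl (by decide) ?_ ?_ (by decide)) ?_ le_rfl
          · simp only [E.ok, E.val, hv25, true_and]
            omega
          · simp only [E.val, hv25]
          rintro _ rfl
          refine HT.skip ⟨?_, ?_, ⟨⟨((hGv.upd 25 _ (by decide)).upd 23 _ (by decide)).upd 24 _ (by decide), ?_⟩,
            ?_, ?_⟩⟩
          · rw [upd_ne _ _ (by decide), hv 23 (by decide), hu23]
          · rw [upd_ne _ _ (by decide), hv 24 (by decide), hu24]
          · rw [upd_ne _ _ (by decide), upd_ne _ _ (by decide), upd_self]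
            ring
          · rw [upd_ne _ _ (by decide), upd_ne _ _ (by decide), upd_ne _ _ (by decide), hv 21 (by decide), hu21]
          · rw [upd_ne _ _ (by decide), upd_ne _ _ (by decide), upd_ne _ _ (by decide), hv 22 (by decide), hu22]
      · simp only [E.size]
        exact le_of_eq (by ring)
      · rintro u h - -
        exact h
    · rintro u ⟨⟨hGu, _⟩, h3, h4⟩
      refine HT.skip ⟨h3, h4, ?_⟩
      refine ((hGu.upd 21 _ (by decide)).upd 22 _ (by decide)).congr fun z _ Z _ => ?_
      rw [vrow_full, vrow_zero]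
  · simp only [E.size]
    have h1 : 1 ≤ I.S := by
      have := I.hn
      omega
    have h2 : r * (42 * M ^ 2 + 21 * M + 52) + 24 ≤ 100 * (r + 1) * (M + 1) ^ 2 := by
      nlinarith [Nat.zero_le (r * M), Nat.zero_le (r * M ^ 2), Nat.zero_le M, Nat.zero_le (M ^ 2), Nat.zero_le r]
    calc I.S * (r * (42 * M ^ 2 + 21 * M + 52) + 8 + 10) + 1 + 5
        ≤ I.S * (r * (42 * M ^ 2 + 21 * M + 52) + 24) := by nlinarith
      _ ≤ I.S * (100 * (r + 1) * (M + 1) ^ 2) := Nat.mul_le_mul_left _ h2
      _ = 100 * I.S * (r + 1) * (M + 1) ^ 2 := by ring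
  · rintro t hGt - -
    refine ⟨⟨hGt.reg, hGt.mem⟩, fun z hz Y hY => ?_⟩
    rw [hGt.tab z hz Y hY]
    refine if_congr ?_ rfl rfl
    rw [vrow_zero, if_pos hz]

end SCM
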