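import Pool.Agent.Lib.SCM.Progs
import Pool.Agent.Lib.SCN.MA
import Pool.Agent.Lib.SCN.MB

/-!
# Row T6: the instance of Exact Cover for one guess
-/

set_option autoImplicit false

namespace SCM

open SCR SCN

lemma t6_len (K : ℕ) (I : MMInst) : (sm K I).length ≤ 2 ^ (I.n + K) := by
  have h := (elistFacts (I.n + K) (sz I.n K + K) (I.n + K) le_rfl).1
  have := List.Nodup.length_le_card h
  rwa [Fintype.card_finset, Fintype.card_fin] at this

/-- the registers which change -/
def t6F : List ℕ := [20, 21, 22, 23, 24, 25]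

/-- the state after the pointer is set -/
def t6s (K : ℕ) (I : MMInst) (s : Data) : Data := upd (upd s 17 (TA K I I.S + 3)) 18 0

/-- the pieces `< i` -/
noncomputable def t6L (K : ℕ) (I : MMInst) (s : Data) (i : ℕ) : List (Finset (Fin (I.n + K + (K + 1)))) :=
  instE I.n K I.o (sz I.n K + K) I.R (gs s) i

/-- after `i` pieces -/
structure T6P (K : ℕ) (I : MMInst) (s : Data) (i : ℕ) (t : Data) : Prop where
  app : App t6F (t6s K I s) t ((t6L K I s i).map fun A => [mask A])
  r20 : t.reg 20 = 2 ^ (I.n + i)
  r21 : t.reg 21 = 2 ^ (I.n + K + i)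

lemma t6_reg {K : ℕ} {I : MMInst} {s t : Data} {X : List (List ℕ)} (h : App t6F (t6s K I s) t X) {r : ℕ}
    (hr : r < 17 ∨ r = 19 ∨ 50 ≤ r) : t.reg r = s.reg r := by
  have h1 : r ∉ t6F := by
    simp only [t6F, List.mem_cons, List.not_mem_nil, or_false]
    omega
  rw [h.reg r h1 (by omega) (by omega)]
  unfold t6s
  rw [upd_ne _ _ (by omega), upd_ne _ _ (by omega)]

lemma t6_r17 (K : ℕ) (I : MMInst) (s : Data) : (t6s K I s).reg 17 = TA K I I.S + 3 := by
  unfold t6s
  rw [upd_ne _ _ (by decide), upd_self]

lemma t6_r18 (K : ℕ) (I : MMInst) (s : Data) : (t6s K I s).reg 18 = 0 := by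
  unfold t6s
  rw [upd_self]

lemma t6_mem {K : ℕ} {I : MMInst} {s t : Data} {X : List (List ℕ)} (h : App t6F (t6s K I s) t X) {a : ℕ}
    (ha : a < TA K I I.S + 3) : t.mem a = s.mem a :=
  h.old a (by rw [t6_r17]; exact ha)

lemma t6_one {X : List (List ℕ)} (h : ∀ l ∈ X, l.length = 1) : X.flatten.length = X.length := by
  induction X with
  | nil => rfl
  | cons a X ih =>
    rw [List.flatten_cons, List.length_append, h a List.mem_cons_self,
      ih (fun l hl => h l (List.mem_cons_of_mem _ hl)), List.length_cons]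
    ring

open Classical in
/-- the record for the small set `Y` -/
noncomputable def t6f (K : ℕ) (I : MMInst) (s : Data) (i : ℕ) (Y : Finset (Fin (I.n + K))) : List (List ℕ) :=
  if mask Y < 2 ^ (I.n + i) ∧ MonoH I.n K (gs s) I.R (sym K I.o (gs s) i) (toN Y) then
    [[mask Y + 2 ^ (I.n + K + i)]] else []

lemma t6f_pos {K : ℕ} {I : MMInst} {s : Data} {i : ℕ} {Y : Finset (Fin (I.n + K))}
    (h : mask Y < 2 ^ (I.n + i)) (h' : MonoH I.n K (gs s) I.R (sym K I.o (gs s) i) (toN Y)) :
    t6f K I s i Y = [[mask Y + 2 ^ (I.n + K + i)]] := by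
  unfold t6f
  rw [if_pos ⟨h, h'⟩]

lemma t6f_neg {K : ℕ} {I : MMInst} {s : Data} {i : ℕ} {Y : Finset (Fin (I.n + K))}
    (h : ¬ (mask Y < 2 ^ (I.n + i) ∧ MonoH I.n K (gs s) I.R (sym K I.o (gs s) i) (toN Y))) :
    t6f K I s i Y = [] := by
  unfold t6f
  rw [if_neg h]

lemma t6f_length (K : ℕ) (I : MMInst) (s : Data) (i : ℕ) (Y : Finset (Fin (I.n + K))) :
    (t6f K I s i Y).length ≤ 1 := by
  unfold t6f
  split_ifs
  · exact le_rfl
  · exact Nat.zero_le _

lemma t6f_one (K : ℕ) (I : MMInst) (s : Data) (i : ℕ) (Y : Finset (Fin (I.n + K))) :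
    ∀ l ∈ t6f K I s i Y, l.length = 1 := by
  unfold t6f
  intro l hl
  split_ifs at hl
  · rw [List.mem_singleton] at hl
    rw [hl]
    rfl
  · exact absurd hl List.not_mem_nil

lemma t6_flat (K : ℕ) (I : MMInst) (s : Data) {i : ℕ} (hi : i < K + 1) :
    (sm K I).flatMap (t6f K I s i) =
      (pieceL I.n K I.o (sz I.n K + K) I.R (gs s) i).map fun A => [mask A] := by
  classical
  unfold pieceL sm
  rw [List.map_map]
  induction smallL (I.n + K) (sz I.n K + K) with
  | nil => rfl
  | cons a L ih =>
    rw [List.flatMap_cons, ih, List.filter_cons]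
    by_cases h : mask a < 2 ^ (I.n + i) ∧ MonoH I.n K (gs s) I.R (sym K I.o (gs s) i) (toN a)
    · rw [t6f_pos h.1 h.2, if_pos (by simpa using h), List.map_cons, List.singleton_append]
      congr 1
      simp only [Function.comp_apply, (maskLift (I.n + K) (K + 1) i a hi).1]
    · rw [t6f_neg h, if_neg (by simpa using h), List.nil_append]

lemma t6L_succ (K : ℕ) (I : MMInst) (s : Data) (i : ℕ) :
    t6L K I s (i + 1) = t6L K I s i ++ pieceL I.n K I.o (sz I.n K + K) I.R (gs s) i := by
  unfold t6L instE
  rw [List.range_succ, List.flatMap_append]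
  simp

lemma t6L_length (K : ℕ) (I : MMInst) (s : Data) (i : ℕ) : (t6L K I s i).length ≤ i * (sm K I).length := by
  classical
  induction i with
  | zero => simp [t6L, instE]
  | succ i ih =>
    rw [t6L_succ, List.length_append, Nat.succ_mul]
    have h : (pieceL I.n K I.o (sz I.n K + K) I.R (gs s) i).length ≤ (sm K I).length := by
      unfold pieceL
      rw [List.length_map]
      exact List.length_filter_le _ _
    omega

lemma t6_flatMap_length {α β : Type} (f : α → List β) (h : ∀ a, (f a).length ≤ 1) (L : List α) :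
    (L.flatMap f).length ≤ L.length := by
  induction L with
  | nil => exact le_rfl
  | cons a L ih =>
    rw [List.flatMap_cons, List.length_append, List.length_cons]
    have := h a
    omega

lemma t6_TA {K : ℕ} {I : MMInst} {z : ℕ} (hz : z < I.S) : TA K I z + 2 ^ (I.n + K) ≤ TA K I I.S := by
  unfold TA
  have h := Nat.mul_le_mul_right (2 ^ (I.n + K)) (Nat.succ_le_of_lt hz)
  rw [Nat.succ_mul] at h
  omega

lemma t6_TAS (K : ℕ) (I : MMInst) : TA K I (I.S + 1) = TA K I I.S + 2 ^ (I.n + K) := by
  unfold TA
  rw [Nat.succ_mul]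
  ring

lemma t6_getD {K : ℕ} {I : MMInst} {p : ℕ} (hp : p < (sm K I).length) : (sm K I).getD p ∅ ∈ sm K I := by
  rw [List.getD_eq_getElem _ _ hp]
  exact List.getElem_mem hp

lemma t6_piece {w K D : ℕ} {I : MMInst} {s : Data} (hf : Fits3 w K D I) (he : Env3 K D I s) (hl : EL3 K I s)
    (hq : ∀ j < K, gs s j < I.S) (hT : Tab K I (MonoH I.n K (gs s) I.R) s) {i g : ℕ} (hi : i ≤ K)
    (hg : g < 17 ∨ 50 ≤ g) (hgs : s.reg g = sym K I.o (gs s) i) {t : Data} (ht : T6P K I s i t) :
    HT w (piece3 g) t (39 * (sm K I).length + 19) (T6P K I s (i + 1)) := by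
  classical
  have hM := t6_len K I
  have h0S : 0 < I.S := lt_of_le_of_lt (Nat.zero_le _) I.hn
  have hzS : sym K I.o (gs s) i < I.S := by
    unfold sym
    split_ifs with h
    · exact I.ho
    · exact hq i (by omega)
  generalize hz : sym K I.o (gs s) i = z at hgs hzS
  have ha := hf.addr
  rw [t6_TAS] at ha
  have hreg := hf.region
  have hTz := t6_TA (K := K) hzS
  have hT0 := t6_TA (K := K) h0S
  have hRB : RB K I + I.S = TA K I 0 := by unfold TA; ring
  have hLB : LB I + 2 * 2 ^ (I.n + K) = RB K I := rfl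
  have hKM : (K + 1) * (sm K I).length ≤ (K + 1) * 2 ^ (I.n + K) := Nat.mul_le_mul_left _ hM
  have hiM : i * (sm K I).length + (sm K I).length ≤ (K + 1) * (sm K I).length := by
    have := Nat.mul_le_mul_right (sm K I).length (Nat.succ_le_succ hi)
    rw [Nat.succ_mul] at this
    exact this
  have hLi := t6L_length K I s i
  have hone : ∀ l ∈ (t6L K I s i).map (fun A => [mask A]), l.length = 1 := by
    intro l hl
    obtain ⟨A, -, rfl⟩ := List.mem_map.1 hl
    rfl
  -- row of the piece
  have hr14 : t.reg 14 = RB K I := (t6_reg ht.app (by omega)).trans he.r14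
  have hrg : t.reg g = z := (t6_reg ht.app (by omega)).trans hgs
  have hrow : t.mem (RB K I + z) = TA K I z := (t6_mem ht.app (by omega)).trans (he.row z hzS)
  refine HT.seq (R := fun s' => s' = upd t 22 (TA K I z)) (T1 := 5) (T2 := 39 * (sm K I).length + 14)
    (HT.set (by omega) ?_ (show 2 ≤ 9 by norm_num) ?_ ?_ (show 5 ≤ 5 by norm_num)) ?_ (by omega)
  · simp only [E.wf, Bool.and_eq_true, Bool.or_eq_true, decide_eq_true_eq]
    omega
  · refine ⟨trivial, trivial, ?_⟩
    simp only [E.val, hr14, hrg]
    omega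
  · simp only [E.val, hr14, hrg, hrow]
  rintro _ rfl
  refine HT.seq (R := fun t' => App t6F t t' ((sm K I).flatMap (t6f K I s i)) ∧ t'.reg 20 = 2 ^ (I.n + i) ∧
      t'.reg 21 = 2 ^ (I.n + K + i)) (T1 := 39 * (sm K I).length + 6) (T2 := 8) ?_ ?_ (by omega)
  · refine HT.forApp (sm K I).length 29 t6F (fun p => t6f K I s i ((sm K I).getD p ∅))
      (fun _ t' => t'.reg 20 = 2 ^ (I.n + i) ∧ t'.reg 21 = 2 ^ (I.n + K + i) ∧ t'.reg 22 = TA K I z)
      (by decide) (by decide) (by decide) (by decide) (by decide) (by decide) (by decide) (by decide)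
      (by decide) rfl (by decide) trivial ?_ ?_ ?_ ?_ ?_ ?_
    · simp only [E.val]
      rw [upd_ne _ _ (by decide), t6_reg ht.app (by omega), hl.r19]
    · omega
    · refine ⟨?_, ?_, ?_⟩
      · rw [upd_ne _ _ (by decide), upd_ne _ _ (by decide), upd_ne _ _ (by decide), ht.r20]
      · rw [upd_ne _ _ (by decide), upd_ne _ _ (by decide), upd_ne _ _ (by decide), ht.r21]
      · rw [upd_ne _ _ (by decide), upd_ne _ _ (by decide), upd_self]
    · rintro p hp s' happ ⟨h20, h21, h22⟩ h23 h24
      have happ1 : App t6F t s' ((List.range p).flatMap fun p => t6f K I s i ((sm K I).getD p ∅)) :=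
        happ.upd0 (by decide) (by decide) (by decide)
      have happ2 := ht.app.trans happ1
      generalize hX : (List.range p).flatMap (fun p => t6f K I s i ((sm K I).getD p ∅)) = X at happ1 happ2
      have hXl : X.length ≤ p := by
        rw [← hX]
        have := t6_flatMap_length (fun p => t6f K I s i ((sm K I).getD p ∅)) (fun a => t6f_length _ _ _ _ _)
          (List.range p)
        rwa [List.length_range] at this
      have hXo : ∀ l ∈ X, l.length = 1 := by
        rw [← hX]
        intro l hl
        obtain ⟨a, -, ha⟩ := List.mem_flatMap.1 hl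
        exact t6f_one _ _ _ _ _ l ha
      have h17 : s'.reg 17 + 1 + 1 < 2 ^ w := by
        rw [happ2.ptr, t6_r17, t6_one, List.length_append, List.length_map]
        · omega
        · intro l hl
          rcases List.mem_append.1 hl with hl | hl
          · exact hone l hl
          · exact hXo l hl
      have h18 : s'.reg 18 + 1 < 2 ^ w := by
        rw [happ2.cnt, t6_r18, List.length_append, List.length_map]
        omega
      have hYm := t6_getD hp
      have hword : s'.mem (LB I + p) = mask ((sm K I).getD p ∅) :=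
        (t6_mem happ2 (by omega)).trans (hl.word p hp)
      have h12 : s'.reg 12 = LB I := (t6_reg happ2 (by omega)).trans he.r12
      have hYlt := maskLt (I.n + K) ((sm K I).getD p ∅)
      have htab := hT z hzS _ hYm
      rw [← t6_mem happ2 (by omega)] at htab
      have hbig := hf.big
      have e1 : 2 ^ (I.n + K + i) ≤ 2 ^ (I.n + K + K) := Nat.pow_le_pow_right (by norm_num) (by omega)
      have e2 : 2 ^ (I.n + K) ≤ 2 ^ (I.n + K + K) := Nat.pow_le_pow_right (by norm_num) (by omega)
      have e3 : 2 ^ (I.n + K + (K + 2)) = 4 * 2 ^ (I.n + K + K) := by ring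
      generalize hY : (sm K I).getD p ∅ = Y at hYm hword hYlt htab
      refine HT.seq (R := fun s'' => s'' = upd s' 25 (mask Y)) (T1 := 5) (T2 := 24)
        (HT.set (by omega) rfl (by decide) ?_ ?_ (show 5 ≤ 5 by norm_num)) ?_ (by omega)
      · refine ⟨trivial, trivial, ?_⟩
        simp only [E.val, h12, h23]
        omega
      · simp only [E.val, h12, h23, hword]
      rintro _ rfl
      have hfin : ∀ t' : Data, App [] (upd s' 25 (mask Y)) t' (t6f K I s i Y) → App t6F s' t' (t6f K I s i Y) ∧
          t'.reg 23 = p ∧ t'.reg 24 = (sm K I).length - p ∧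
          ((upd (upd t' 23 (p + 1)) 24 ((sm K I).length - (p + 1))).reg 20 = 2 ^ (I.n + i) ∧
          (upd (upd t' 23 (p + 1)) 24 ((sm K I).length - (p + 1))).reg 21 = 2 ^ (I.n + K + i) ∧
          (upd (upd t' 23 (p + 1)) 24 ((sm K I).length - (p + 1))).reg 22 = TA K I z) := by
        intro t' h'
        have hk : ∀ r, r ≠ 17 → r ≠ 18 → r ≠ 25 → t'.reg r = s'.reg r := fun r h1 h2 h3 => by
          rw [h'.reg r List.not_mem_nil h1 h2, upd_ne _ _ h3]
        refine ⟨(h'.wk (F' := t6F) (fun r hr => absurd hr List.not_mem_nil)).upd0 (by decide) (by decide)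
          (by decide), ?_, ?_, ?_, ?_, ?_⟩
        · rw [hk 23 (by decide) (by decide) (by decide), h23]
        · rw [hk 24 (by decide) (by decide) (by decide), h24]
        · rw [upd_ne _ _ (by decide), upd_ne _ _ (by decide), hk 20 (by decide) (by decide) (by decide), h20]
        · rw [upd_ne _ _ (by decide), upd_ne _ _ (by decide), hk 21 (by decide) (by decide) (by decide), h21]
        · rw [upd_ne _ _ (by decide), upd_ne _ _ (by decide), hk 22 (by decide) (by decide) (by decide), h22]
      have hskip : ∀ T : ℕ, ¬ (mask Y < 2 ^ (I.n + i) ∧ MonoH I.n K (gs s) I.R z (toN Y)) →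
          HT w .skip (upd s' 25 (mask Y)) T (fun t' => App t6F s' t' (t6f K I s i Y) ∧
          t'.reg 23 = p ∧ t'.reg 24 = (sm K I).length - p ∧
          ((upd (upd t' 23 (p + 1)) 24 ((sm K I).length - (p + 1))).reg 20 = 2 ^ (I.n + i) ∧
          (upd (upd t' 23 (p + 1)) 24 ((sm K I).length - (p + 1))).reg 21 = 2 ^ (I.n + K + i) ∧
          (upd (upd t' 23 (p + 1)) 24 ((sm K I).length - (p + 1))).reg 22 = TA K I z)) := by
        intro T hn
        refine HT.skip (hfin _ ?_)
        rw [t6f_neg (by rw [hz]; exact hn)]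
        exact App.refl _ _
      refine HT.seq (R := fun t' => App t6F s' t' (t6f K I s i Y) ∧
          t'.reg 23 = p ∧ t'.reg 24 = (sm K I).length - p ∧
          ((upd (upd t' 23 (p + 1)) 24 ((sm K I).length - (p + 1))).reg 20 = 2 ^ (I.n + i) ∧
          (upd (upd t' 23 (p + 1)) 24 ((sm K I).length - (p + 1))).reg 21 = 2 ^ (I.n + K + i) ∧
          (upd (upd t' 23 (p + 1)) 24 ((sm K I).length - (p + 1))).reg 22 = TA K I z)) (T1 := 24) (T2 := 0)
        ?_ (fun _ h => HT.skip h) le_rfl
      refine HT.cond (T1 := 19) rfl (by decide) ⟨trivial, trivial⟩ (fun h1 => ?_) (fun h1 => ?_) (by decide)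
      · have h2 : mask Y < 2 ^ (I.n + i) := by
          simp only [E.val] at h1
          rw [upd_ne _ _ (by decide), upd_self, h20] at h1
          omega
        have hv : (E.ld (.add (.r 22) (.r 25))).val (upd s' 25 (mask Y)) = s'.mem (TA K I z + mask Y) := by
          simp only [E.val, upd_mem]
          rw [upd_ne _ _ (by decide), upd_self, h22]
        refine HT.cond (T1 := 13) rfl (by decide) ⟨trivial, trivial, ?_⟩ (fun h3 => ?_) (fun h3 => ?_) (by decide)
        · simp only [E.val]
          rw [upd_ne _ _ (by decide), upd_self, h22]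
          omega
        · rw [hv, htab] at h3
          have h4 : MonoH I.n K (gs s) I.R z (toN Y) := by
            by_contra h5
            rw [if_neg h5] at h3
            exact h3 rfl
          have hv2 : (E.add (.r 25) (.r 21)).val (upd s' 25 (mask Y)) = mask Y + 2 ^ (I.n + K + i) := by
            simp only [E.val]
            rw [upd_self, upd_ne _ _ (by decide), h21]
          refine HT.recd ?_ ?_ ?_ (fun t' h' => hfin t' ?_) (show _ ≤ 13 by decide)
          · intro e hem
            rw [List.mem_singleton] at hem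
            subst hem
            refine ⟨by decide, rfl, by decide, trivial, trivial, ?_⟩
            have : (E.r 25).val (upd s' 25 (mask Y)) + (E.r 21).val (upd s' 25 (mask Y)) =
              mask Y + 2 ^ (I.n + K + i) := hv2
            rw [this]
            omega
          · rw [upd_ne _ _ (by decide)]
            simp only [List.length_cons, List.length_nil]
            omega
          · rw [upd_ne _ _ (by decide)]
            exact h18
          · rw [t6f_pos h2 (by rw [hz]; exact h4)]
            simpa only [List.map_cons, List.map_nil, hv2] using h'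
        · rw [hv, htab] at h3
          refine hskip _ fun h5 => ?_
          rw [if_pos h5.2] at h3
          exact one_ne_zero h3
      · refine hskip _ fun h5 => ?_
        simp only [E.val] at h1
        rw [upd_ne _ _ (by decide), upd_self, h20] at h1
        omega
    · simp only [E.size]
      omega
    · rintro s' happ ⟨h20, h21, -⟩
      have := flatMap_range_getD (sm K I) ∅ (t6f K I s i)
      rw [this] at happ
      exact ⟨happ.upd0 (by decide) (by decide) (by decide), h20, h21⟩
  · rintro t' ⟨h1, h20, h21⟩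
    have hbig := hf.big
    have e1 : 2 ^ (I.n + K + i) ≤ 2 ^ (I.n + K + K) := Nat.pow_le_pow_right (by norm_num) (by omega)
    have e2 : 2 ^ (I.n + i) ≤ 2 ^ (I.n + K + K) := Nat.pow_le_pow_right (by norm_num) (by omega)
    have e3 : 2 ^ (I.n + K + (K + 2)) = 4 * 2 ^ (I.n + K + K) := by ring
    refine HT.seq (R := fun s' => s' = upd t' 20 (2 ^ (I.n + (i + 1)))) (T1 := 4) (T2 := 4)
      (HT.set (by omega) rfl (by decide) ?_ ?_ (show 4 ≤ 4 by norm_num)) ?_ (by omega)
    · refine ⟨trivial, trivial, ?_⟩
      simp only [E.val, h20]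
      omega
    · simp only [E.val, h20]
      congr 1
      ring
    rintro _ rfl
    refine HT.seq (R := T6P K I s (i + 1)) (T1 := 4) (T2 := 0)
      (HT.set (by omega) rfl (by decide) ?_ ?_ (show 4 ≤ 4 by norm_num)) (fun _ h => HT.skip h) (by omega)
    · refine ⟨trivial, trivial, ?_⟩
      simp only [E.val]
      rw [upd_ne _ _ (by decide), h21]
      omega
    · refine ⟨?_, ?_, ?_⟩
      · rw [t6L_succ, List.map_append, ← t6_flat K I s (by omega)]
        exact ((ht.app.trans h1).upd _ (by decide) (by decide) (by decide)).upd _ (by decide) (by decide)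
          (by decide)
      · rw [upd_ne _ _ (by decide), upd_self]
      · rw [upd_self]
        simp only [E.val]
        rw [upd_ne _ _ (by decide), h21]
        ring

lemma t6_pieces {w K D : ℕ} {I : MMInst} {s : Data} (hf : Fits3 w K D I) (he : Env3 K D I s) (hl : EL3 K I s)
    (hq : ∀ j < K, gs s j < I.S) (hT : Tab K I (MonoH I.n K (gs s) I.R) s) {i : ℕ} (hi : i ≤ K) :
    HT w (pieces3 i) s (10 + i * (39 * (sm K I).length + 19)) (T6P K I s i) := by
  induction i with
  | zero =>
    have ha := hf.addr
    rw [t6_TAS] at ha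
    have hp1 : 0 < 2 ^ (I.n + K) := by positivity
    have hp2 : 0 < 2 ^ wi D I := by positivity
    refine HT.seq (R := fun s' => s' = upd s 17 (TA K I I.S + 3)) (T1 := 4) (T2 := 6)
      (HT.set (by omega) rfl (by decide) ?_ ?_ (show 4 ≤ 4 by norm_num)) ?_ (by omega)
    · refine ⟨trivial, ?_, ?_⟩
      · simp only [E.ok]
        omega
      · simp only [E.val, he.r15]
        omega
    · simp only [E.val, he.r15]
    rintro _ rfl
    refine HT.seq (R := fun s' => s' = t6s K I s) (T1 := 2) (T2 := 4)
      (HT.set (by omega) rfl (by decide) ?_ rfl (show 2 ≤ 2 by norm_num)) ?_ (by omega)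
    · simp only [E.ok]
      omega
    rintro _ rfl
    refine HT.seq (R := fun s' => s' = upd (t6s K I s) 20 (2 ^ I.n)) (T1 := 2) (T2 := 2)
      (HT.set (by omega) rfl (by decide) trivial ?_ (show 2 ≤ 2 by norm_num)) ?_ (by omega)
    · simp only [E.val, t6s]
      rw [upd_ne _ _ (by decide), upd_ne _ _ (by decide), he.r10]
    rintro _ rfl
    refine HT.seq (R := T6P K I s 0) (T1 := 2) (T2 := 0)
      (HT.set (by omega) rfl (by decide) trivial ?_ (show 2 ≤ 2 by norm_num)) (fun _ h => HT.skip h) (by omega)
    refine ⟨?_, ?_, ?_⟩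
    · exact ((App.refl _ _).upd _ (by decide) (by decide) (by decide)).upd _ (by decide) (by decide)
          (by decide)
    · rw [upd_ne _ _ (by decide), upd_self]
      rfl
    · rw [upd_self]
      simp only [E.val, t6s]
      rw [upd_ne _ _ (by decide), upd_ne _ _ (by decide), upd_ne _ _ (by decide), he.r8]
      rfl
  | succ i ih =>
    refine HT.seq (T1 := 10 + i * (39 * (sm K I).length + 19)) (T2 := 39 * (sm K I).length + 19)
      (ih (by omega)) (fun t ht => t6_piece hf he hl hq hT (by omega) (by omega) ?_ ht) ?_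
    · unfold sym
      rw [if_neg (by omega)]
      rfl
    · have : (i + 1) * (39 * (sm K I).length + 19) =
        i * (39 * (sm K I).length + 19) + (39 * (sm K I).length + 19) := by ring
      rw [this]
      omega

theorem t6 : T6 := by
  intro w K D I s hK hf he hl hq hT
  have ha := hf.addr
  rw [t6_TAS] at ha
  have hM := t6_len K I
  have hreg := hf.region
  have hKM : (K + 1) * (sm K I).length ≤ (K + 1) * 2 ^ (I.n + K) := Nat.mul_le_mul_left _ hM
  have hLi := t6L_length K I s (K + 1)
  have hdw : K + 1 < 2 ^ w ∧ I.n + K + (K + 1) < 2 ^ w := by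
    have h1 := hf.big
    have h2 : I.n + K + (K + 2) < 2 ^ (I.n + K + (K + 2)) := Nat.lt_two_pow_self
    omega
  have hT0 : TA K I 0 ≤ TA K I I.S := by
    unfold TA
    omega
  refine HT.seq (R := T6P K I s K) (T1 := 10 + K * (39 * (sm K I).length + 19))
    (T2 := (39 * (sm K I).length + 19) + 15) (t6_pieces hf he hl hq hT le_rfl) ?_ ?_
  swap
  · have : 60 * (K + 1) * ((sm K I).length + 1) + 60 =
      (K * (39 * (sm K I).length + 19)) + K * (21 * (sm K I).length + 41) + 60 * (sm K I).length + 120 := by ring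
    rw [this]
    omega
  intro t ht
  refine HT.seq (R := T6P K I s (K + 1)) (T1 := 39 * (sm K I).length + 19) (T2 := 15)
    (t6_piece hf he hl hq hT le_rfl (by omega) (by unfold sym; rw [if_pos rfl, he.r5]) ht) ?_ (by omega)
  clear ht t
  intro t ht
  have h15 : t.reg 15 = TA K I I.S := (t6_reg ht.app (by omega)).trans he.r15
  have h7 : t.reg 7 = I.n + K := (t6_reg ht.app (by omega)).trans he.r7
  have h18 : t.reg 18 = (t6L K I s (K + 1)).length := by
    rw [ht.app.cnt, t6_r18, List.length_map]
    ring
  refine HT.seq (R := fun s' => s' = updm t (TA K I I.S) (I.n + K + (K + 1))) (T1 := 5) (T2 := 10)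
    (HT.sto rfl (by decide) trivial rfl (show 2 ≤ 8 by norm_num) ?_ ?_ (show 5 ≤ 5 by norm_num)) ?_ (by omega)
  · refine ⟨trivial, hdw.1, ?_⟩
    simp only [E.val, h7]
    exact hdw.2
  · simp only [E.val, h15, h7]
  rintro _ rfl
  refine HT.seq (R := fun s' => s' = updm (updm t (TA K I I.S) (I.n + K + (K + 1))) (TA K I I.S + 1)
    (t6L K I s (K + 1)).length) (T1 := 5) (T2 := 5)
    (HT.sto rfl (by decide) ?_ rfl (by decide) trivial ?_ (show 5 ≤ 5 by norm_num)) ?_ (by omega)
  · refine ⟨trivial, ?_, ?_⟩
    · simp only [E.ok]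
      omega
    · simp only [E.val, updm_reg, h15]
      omega
  · simp only [E.val, updm_reg, h15, h18]
  rintro _ rfl
  refine HT.seq (T1 := 5) (T2 := 0) (R := fun s' => s' = updm (updm (updm t (TA K I I.S) (I.n + K + (K + 1)))
    (TA K I I.S + 1) (t6L K I s (K + 1)).length) (TA K I I.S + 2) 0)
    (HT.sto rfl (by decide) ?_ rfl (by decide) ?_ ?_ (show 5 ≤ 5 by norm_num)) ?_ (by omega)
  · refine ⟨trivial, ?_, ?_⟩
    · simp only [E.ok]
      omega
    · simp only [E.val, updm_reg, h15]
      omega
  · simp only [E.ok]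
    omega
  · simp only [E.val, updm_reg, h15]
  rintro _ rfl
  refine HT.skip ⟨⟨fun r hr => ?_, fun a ha => ?_⟩, ?_⟩
  · rw [updm_reg, updm_reg, updm_reg]
    exact t6_reg ht.app hr
  · rw [updm_ne _ _ (by omega), updm_ne _ _ (by omega), updm_ne _ _ (by omega)]
    exact t6_mem ht.app (by omega)
  · rw [updm_reg, updm_reg, updm_reg, h15]
    have hL : instE I.n K I.o (sz I.n K + K) I.R (gs s) (K + 1) = t6L K I s (K + 1) := rfl
    rw [hL]
    intro j hj
    rcases j with _ | _ | _ | j
    · rw [updm_ne _ _ (by omega), updm_ne _ _ (by omega)]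
      exact updm_self t (TA K I I.S) _
    · rw [updm_ne _ _ (by omega)]
      exact updm_self _ (TA K I I.S + 1) _
    · exact updm_self _ (TA K I I.S + 2) _
    · simp only [List.cons_append, List.nil_append, List.length_cons, List.length_map] at hj
      have hj' : j < (t6L K I s (K + 1)).length := by omega
      rw [updm_ne _ _ (by omega), updm_ne _ _ (by omega), updm_ne _ _ (by omega)]
      have hfl : ((t6L K I s (K + 1)).map fun A => [mask A]).flatten = (t6L K I s (K + 1)).map mask := by
        induction t6L K I s (K + 1) with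
        | nil => rfl
        | cons a L ih =>
          rw [List.map_cons, List.flatten_cons, ih]
          rfl
      have h1 := ht.app.new j (by rw [hfl, List.length_map]; exact hj')
      rw [hfl, t6_r17] at h1
      rw [show TA K I I.S + (j + 1 + 1 + 1) = TA K I I.S + 3 + j by ring, h1]
      simp only [List.cons_append, List.nil_append, List.getD_cons_succ]

end SCM
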