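import Pool.Agent.Lib.SCM.Progs
import Pool.Agent.Lib.SCN.MA

/-!
# Row T7: one guess
-/

set_option autoImplicit false

namespace SCM

open SCR SCN

lemma Env3.low {K D : ℕ} {I : MMInst} {s t : Data} (h : Env3 K D I s)
    (hr : ∀ r, 1 ≤ r → r < 17 → t.reg r = s.reg r) (hm : ∀ a < TA K I 0, t.mem a = s.mem a) :
    Env3 K D I t where
  r1 := (hr 1 (by omega) (by omega)).trans h.r1
  r3 := (hr 3 (by omega) (by omega)).trans h.r3
  r4 := (hr 4 (by omega) (by omega)).trans h.r4
  r5 := (hr 5 (by omega) (by omega)).trans h.r5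
  r6 := (hr 6 (by omega) (by omega)).trans h.r6
  r7 := (hr 7 (by omega) (by omega)).trans h.r7
  r8 := (hr 8 (by omega) (by omega)).trans h.r8
  r9 := (hr 9 (by omega) (by omega)).trans h.r9
  r10 := (hr 10 (by omega) (by omega)).trans h.r10
  r11 := (hr 11 (by omega) (by omega)).trans h.r11
  r12 := (hr 12 (by omega) (by omega)).trans h.r12
  r13 := (hr 13 (by omega) (by omega)).trans h.r13
  r14 := (hr 14 (by omega) (by omega)).trans h.r14
  r15 := (hr 15 (by omega) (by omega)).trans h.r15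
  r16 := (hr 16 (by omega) (by omega)).trans h.r16
  inp := fun t ht => by
    have h1 := h.inp t ht
    have h2 : 4 + 3 * t + 2 < TA K I 0 := by
      unfold TA RB LB
      omega
    rw [hm _ (by omega), hm _ (by omega), hm _ h2]
    exact h1
  row := fun z hz => by
    rw [hm _ (by unfold TA; omega)]
    exact h.row z hz

lemma EL3.low {K : ℕ} {I : MMInst} {s t : Data} (h : EL3 K I s)
    (hr : t.reg 19 = s.reg 19) (hm : ∀ a < TA K I 0, t.mem a = s.mem a)
    (hM : (sm K I).length ≤ 2 ^ (I.n + K)) : EL3 K I t where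
  r19 := hr.trans h.r19
  word := fun p hp => by
    rw [hm _ (by unfold TA RB; omega)]
    exact h.word p hp

/-- the words of an instance in the region of the subroutine -/
lemma regionMem_input {b w' : ℕ} {n' : ℕ} {L : List (Finset (Fin n'))} {t : Data}
    (h : Wr t b ([n', L.length, 0] ++ L.map mask)) (hn : n' < 2 ^ w') (hL : L.length + 3 ≤ 2 ^ w')
    (hw : n' ≤ w') :
    ∀ i (h : i < ([n', L.length, 0] ++ L.map mask).length),
      regionMem b w' t.mem i = ([n', L.length, 0] ++ L.map mask)[i] := by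
  intro i hi
  have hlen : ([n', L.length, 0] ++ L.map mask).length = 3 + L.length := by
    simp
    omega
  have h1 := h i hi
  rw [List.getD_eq_getElem _ _ hi] at h1
  unfold regionMem
  rw [hlen] at hi
  rw [if_pos (by omega), h1]
  refine Nat.mod_eq_of_lt ?_
  have hall : ∀ v ∈ ([n', L.length, 0] ++ L.map mask), v < 2 ^ w' := by
    intro v hv
    rw [List.mem_append] at hv
    rcases hv with hv | hv
    · simp only [List.mem_cons, List.not_mem_nil, or_false] at hv
      rcases hv with rfl | rfl | rfl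
      · exact hn
      · omega
      · omega
    · obtain ⟨A, -, rfl⟩ := List.mem_map.1 hv
      exact (maskLt n' A).trans_le (Nat.pow_le_pow_right (by norm_num) hw)
  exact hall _ (List.getElem_mem _)

theorem t7 : T7 := by
  classical
  intro hT2 hT4 hT5 hT6 hQ3 w K D W' T' P I s hK hF hE hEL hg h0 hP hmono hW'
  set Le := instE I.n K I.o (sz I.n K + K) I.R (gs s) (K + 1) with hLe
  have hM := hT2 K I
  obtain ⟨hnd, hlen, -⟩ := hQ3 I.n K I.o (sz I.n K + K) I.R (gs s)
  rw [← hLe] at hnd hlen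
  have hsm : smallL (I.n + K) (sz I.n K + K) = sm K I := rfl
  rw [hsm] at hlen
  unfold body3 blk
  refine HT.seq (hT4 w K D I s hK hF hE hEL hg)
    (T2 := 100 * I.S * (I.R.length + 1) * ((sm K I).length + 1) ^ 2 +
      ((60 * (K + 1) * ((sm K I).length + 1) + 60) + ((3 * T' ((K + 1) * (sm K I).length) + top P) + 10)))
    ?_ (by omega)
  rintro s1 ⟨f1, t1⟩
  have g1 : gs s1 = gs s := funext fun j => f1.reg _ (by omega)
  unfold blk
  refine HT.seq (hT5 w K D I s1 hK hF (hE.fr f1) (hEL.fr f1 hM) (by rw [g1]; exact hg)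
    (by rw [g1]; exact t1)) (T2 := (60 * (K + 1) * ((sm K I).length + 1) + 60) +
      ((3 * T' ((K + 1) * (sm K I).length) + top P) + 10)) ?_ (by omega)
  rintro s2 ⟨f2, t2⟩
  rw [g1] at t2
  have f2' := f1.trans f2
  have g2 : gs s2 = gs s := funext fun j => f2'.reg _ (by omega)
  unfold blk
  refine HT.seq (hT6 w K D I s2 hK hF (hE.fr f2') (hEL.fr f2' hM) (by rw [g2]; exact hg)
    (by rw [g2]; exact t2)) (T2 := (3 * T' ((K + 1) * (sm K I).length) + top P) + 10) ?_ (by omega)
  rintro s3 ⟨f3, t3⟩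
  rw [g2, ← hLe] at t3
  have f3' := f2'.trans f3
  have hE3 := hE.fr f3'
  have hEL3 := hEL.fr f3' hM
  unfold blk
  have hn' : I.n + K + (K + 1) < 2 ^ wi D I := by
    have h1 := hF.colour
    have h2 : wi D I < 2 ^ wi D I := Nat.lt_two_pow_self
    omega
  have hLlen : Le.length + 3 ≤ 2 ^ wi D I := by
    have h1 := hF.region
    have h2 : (K + 1) * (sm K I).length ≤ (K + 1) * 2 ^ (I.n + K) := Nat.mul_le_mul_left _ hM
    omega
  have hTA : TA K I 0 ≤ TA K I I.S := by
    unfold TA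
    omega
  have hTA' : TA K I I.S ≤ TA K I (I.S + 1) := by
    unfold TA
    rw [Nat.succ_mul]
    omega
  have hin := regionMem_input t3 hn' hLlen (by have := hF.colour; omega)
  have hout := hP Le hnd (wi D I) (regionMem (s3.reg 15) (wi D I) s3.mem) hW' (fun a => by
    unfold regionMem
    split_ifs
    · exact Nat.mod_lt _ (by positivity)
    · positivity) hin
  refine HT.seq (R := fun t => t.reg (50 + K) = (if Exact (I.n + K + (K + 1)) 0 Le then 1 else 0) ∧
      (∀ r, r < 40 ∨ (50 ≤ r ∧ r < 50 + K) → t.reg r = s3.reg r) ∧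
      (∀ a, a < s3.reg 15 → t.mem a = s3.mem a)) (T1 := 3 * T' ((K + 1) * (sm K I).length) + top P)
    (T2 := 10)
    (HT.call (w' := wi D I) (T := T' Le.length) (by omega) hF.lt.le ?_ hE3.r16 hout
      (fun t a1 a2 a3 => ⟨a1, a2, a3⟩) ?_) ?_ (by omega)
  · rw [hE3.r15]
    have := hF.addr
    omega
  · have := hmono hlen
    omega
  rintro s4 ⟨a1, a2, a3⟩
  have b1 : ∀ r, r < 17 ∨ r = 19 ∨ (50 ≤ r ∧ r < 50 + K) → s4.reg r = s.reg r := fun r hr =>
    (a2 r (by omega)).trans (f3'.reg r (by omega))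
  have b2 : ∀ a < TA K I 0, s4.mem a = s.mem a := fun a ha =>
    (a3 a (by rw [hE3.r15]; omega)).trans (f3'.mem a ha)
  have hfin : ∀ v : ℕ, v = (if s.reg 0 = 1 ∨ Exact (I.n + K + (K + 1)) 0 Le then 1 else 0) →
      ∀ t : Data, (∀ r, r ≠ 0 → t.reg r = s4.reg r) → t.reg 0 = v → t.mem = s4.mem →
      (Env3 K D I t ∧ EL3 K I t ∧ (∀ j < K, gs t j = gs s j) ∧
      t.reg 0 = if s.reg 0 = 1 ∨ Exact (I.n + K + (K + 1)) 0 Le then 1 else 0) := by
    rintro v rfl t c1 c2 c3
    refine ⟨hE.low (fun r h1 h2 => (c1 r (by omega)).trans (b1 r (by omega)))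
      (fun a ha => by rw [c3]; exact b2 a ha), hEL.low ((c1 19 (by omega)).trans (b1 19 (by omega)))
      (fun a ha => by rw [c3]; exact b2 a ha) hM, fun j hj => ?_, c2⟩
    exact (c1 (50 + j) (by omega)).trans (b1 (50 + j) (by omega))
  unfold blk
  have h1w : 1 < 2 ^ w := by
    have := hF.addr
    omega
  have b0 : s4.reg 0 = s.reg 0 := b1 0 (by omega)
  refine HT.seq (R := fun t => (∀ r, r ≠ 0 → t.reg r = s4.reg r) ∧ t.mem = s4.mem ∧
      t.reg 0 = if s.reg 0 = 1 ∨ Exact (I.n + K + (K + 1)) 0 Le then 1 else 0) (T1 := 5) (T2 := 0)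
    (HT.cond (T1 := 2) (by simp [E.wf]) (by simp [E.depth]) trivial (fun h => ?_) (fun h => ?_)
      (by simp [E.size])) (fun t ht => ?_) (by omega)
  · -- yes
    have hex : Exact (I.n + K + (K + 1)) 0 Le := by
      by_contra hc
      rw [if_neg hc] at a1
      exact h a1
    refine HT.set (by omega) rfl (by decide) h1w ⟨fun r hr => upd_ne _ _ hr, rfl, ?_⟩ (by simp [E.size])
    rw [upd_self, if_pos (Or.inr hex)]
    rfl
  · have hex : ¬ Exact (I.n + K + (K + 1)) 0 Le := by
      intro hc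
      rw [if_pos hc] at a1
      change s4.reg (50 + K) = 0 at h
      omega
    refine HT.skip ⟨fun r hr => rfl, rfl, ?_⟩
    rw [b0]
    rcases h0 with h0 | h0 <;> simp [h0, hex]
  · exact HT.skip (hfin _ rfl t ht.1 ht.2.2 ht.2.1)

end SCM
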