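import Pool.Agent.Lib.SCM.Progs

/-!
# Row T9: the word length
-/

set_option autoImplicit false

namespace SCM

open SCR SCN

theorem t9 : T9 := by
  intro K C hK
  set D := C * (4 * K + 5) + (K + 2) with hD
  refine ⟨D, 30 + 3 * 2 ^ K + 2 ^ (2 * K + 2) + 2 * D, fun I => ?_⟩
  set n := I.n with hn
  set m := I.S + I.R.length with hm
  set l := Nat.clog 2 (n + m + 2) with hl
  have hS : n < I.S := I.hn
  have hl2 : 2 ≤ l := by
    rw [hl]
    have h1 : Nat.clog 2 3 ≤ Nat.clog 2 (n + m + 2) := Nat.clog_mono_right 2 (by omega)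
    have h2 : Nat.clog 2 3 = 2 := by decide
    omega
  have hwi : wi D I = D * (n + l) := rfl
  have hXl : n + m + 2 ≤ 2 ^ l := Nat.le_pow_clog (by norm_num) _
  have hlX : 2 ^ l ≤ 2 * (n + m + 2) := by
    have h1 := Nat.pow_pred_clog_lt_self (b := 2) (by norm_num) (x := n + m + 2) (by omega)
    rw [← hl] at h1
    have h3 : l.pred + 1 = l := Nat.succ_pred_eq_of_pos (by omega)
    have h2 : 2 ^ l = 2 * 2 ^ l.pred := by
      rw [← pow_succ', h3]
    omega
  set Z := 2 ^ n * (n + m + 2) with hZ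
  have h2n : 1 ≤ 2 ^ n := Nat.one_le_two_pow
  have hZ2 : 2 ≤ Z := by
    rw [hZ]
    nlinarith
  have hXZ : n + m + 2 ≤ Z := by
    rw [hZ]
    exact Nat.le_mul_of_pos_left _ (by omega)
  have hnZ : 2 ^ n ≤ Z := by
    rw [hZ]
    exact Nat.le_mul_of_pos_right _ (by omega)
  have hup : 2 ^ wi D I ≤ Z ^ (2 * D) := by
    have h1 : 2 ^ wi D I = (2 ^ n * 2 ^ l) ^ D := by
      rw [hwi, ← pow_add, ← pow_mul, mul_comm]
    have h2 : 2 ^ n * 2 ^ l ≤ Z ^ 2 := by
      calc 2 ^ n * 2 ^ l ≤ 2 ^ n * (2 * (n + m + 2)) := Nat.mul_le_mul_left _ hlX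
        _ = 2 * Z := by rw [hZ]; ring
        _ ≤ Z ^ 2 := by rw [sq]; exact Nat.mul_le_mul_right _ hZ2
    rw [h1, pow_mul]
    exact Nat.pow_le_pow_left h2 D
  have hCD : C * (4 * K + 5) ≤ D := by omega
  have hKD : K + 2 ≤ D := by omega
  have hDn : D * n + D * 2 ≤ D * (n + l) := by
    rw [mul_add]
    exact Nat.add_le_add_left (Nat.mul_le_mul_left _ hl2) _
  have hcol : n + K + (K + 2) ≤ wi D I := by
    rw [hwi]
    have : n ≤ D * n := Nat.le_mul_of_pos_left _ (by omega)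
    omega
  have p1 : 0 < 2 ^ (2 * K + 2) := by positivity
  have p2 : 0 < 2 ^ K := by positivity
  refine ⟨?_, fun w hw => ?_⟩
  · set n' := n + K + (K + 1) with hn'
    have h1 : n' < 2 ^ n' := Nat.lt_two_pow_self
    have h2 : 2 ^ n' * (n' + 2 ^ n' + 2) ≤ 2 ^ (2 * n' + 2) := by
      calc 2 ^ n' * (n' + 2 ^ n' + 2) ≤ 2 ^ n' * (4 * 2 ^ n') := Nat.mul_le_mul_left _ (by omega)
        _ = 2 ^ (2 * n' + 2) := by rw [pow_add, two_mul, pow_add]; ring
    calc C * (2 ^ n' * (n' + 2 ^ n' + 2)) ^ C ≤ 2 ^ C * (2 ^ (2 * n' + 2)) ^ C :=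
          Nat.mul_le_mul Nat.lt_two_pow_self.le (Nat.pow_le_pow_left h2 C)
      _ = 2 ^ (C + (2 * n' + 2) * C) := by rw [← pow_mul, ← pow_add]
      _ ≤ 2 ^ wi D I := by
        refine Nat.pow_le_pow_right (by norm_num) ?_
        rw [hwi]
        refine le_trans ?_ hDn
        have e1 : C + (2 * n' + 2) * C = 2 * C * n + C * (4 * K + 5) := by
          rw [hn']
          ring
        have e2 : 2 * C * n ≤ D * n := by
          refine Nat.mul_le_mul_right _ ?_
          have : C * 5 ≤ C * (4 * K + 5) := Nat.mul_le_mul_left _ (by omega)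
          omega
        omega
  · set C' := 30 + 3 * 2 ^ K + 2 ^ (2 * K + 2) + 2 * D with hC'
    have hZC : Z ^ (2 * D + 1) ≤ Z ^ C' := Nat.pow_le_pow_right (by omega) (by omega)
    have hw1 : C' * Z ^ (2 * D + 1) ≤ 2 ^ w := (Nat.mul_le_mul_left _ hZC).trans hw
    have hP1 : Z ^ (2 * D) ≤ Z ^ (2 * D + 1) := Nat.pow_le_pow_right (by omega) (by omega)
    have hP2 : Z ≤ Z ^ (2 * D + 1) := by
      calc Z = Z ^ 1 := (pow_one Z).symm
        _ ≤ Z ^ (2 * D + 1) := Nat.pow_le_pow_right (by omega) (by omega)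
    set P := Z ^ (2 * D + 1) with hP
    have hPpos : 2 ≤ P := hZ2.trans hP2
    have hC'P : (30 + 3 * 2 ^ K + 2 ^ (2 * K + 2) + 2 * D) * P =
        30 * P + 3 * (2 ^ K * P) + 2 ^ (2 * K + 2) * P + 2 * (D * P) := by ring
    rw [hC', hC'P] at hw1
    have p3 : 0 < 2 ^ (2 * K + 2) * P := Nat.mul_pos p1 (by omega)
    have p4 : 0 < 2 ^ K * P := Nat.mul_pos p2 (by omega)
    have k1 : 2 ^ (n + K) ≤ 2 ^ K * P := by
      rw [pow_add, mul_comm]
      exact Nat.mul_le_mul_left _ (hnZ.trans hP2)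
    have k2 : (I.S + 1) * 2 ^ (n + K) ≤ 2 ^ K * P := by
      have : (I.S + 1) * 2 ^ (n + K) = 2 ^ K * (2 ^ n * (I.S + 1)) := by rw [pow_add]; ring
      rw [this]
      refine Nat.mul_le_mul_left _ (le_trans ?_ hP2)
      rw [hZ]
      exact Nat.mul_le_mul_left _ (by omega)
    have k3 : 2 ^ (n + K + (K + 2)) ≤ 2 ^ (2 * K + 2) * P := by
      have : n + K + (K + 2) = (2 * K + 2) + n := by ring
      rw [this, pow_add]
      exact Nat.mul_le_mul_left _ (hnZ.trans hP2)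
    have k4 : D ≤ D * P := Nat.le_mul_of_pos_right _ (by omega)
    have k5 : 2 ^ wi D I ≤ P := hup.trans hP1
    have k6 : n + m + 2 ≤ P := hXZ.trans hP2
    refine ⟨?_, ?_, ?_, hcol, ?_, ?_, ?_⟩
    · have : TA K I (I.S + 1) = 4 + 3 * I.R.length + 2 * 2 ^ (n + K) + I.S + (I.S + 1) * 2 ^ (n + K) := by
        simp only [TA, RB, LB]
        rfl
      rw [this]
      omega
    · show 2 ^ (n + K + (K + 2)) < 2 ^ w
      omega
    · have e1 : K + 1 ≤ 2 ^ K := Nat.lt_two_pow_self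
      calc 4 + (K + 1) * 2 ^ (n + K) ≤ 2 ^ 2 + 2 ^ K * 2 ^ (n + K) :=
            Nat.add_le_add (by norm_num) (Nat.mul_le_mul_right _ e1)
        _ = 2 ^ 2 + 2 ^ (n + 2 * K) := by
            rw [← pow_add]
            congr 2
            ring
        _ ≤ 2 ^ (n + 2 * K) + 2 ^ (n + 2 * K) :=
            Nat.add_le_add_right (Nat.pow_le_pow_right (by norm_num) (by omega)) _
        _ = 2 ^ (n + 2 * K + 1) := by rw [pow_succ]; ring
        _ ≤ 2 ^ wi D I := Nat.pow_le_pow_right (by norm_num) (by omega)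
    · omega
    · show 2 * (n + m + 2) < 2 ^ w
      omega
    · have : 2 ^ wi D I < 2 ^ w := by omega
      exact (Nat.pow_lt_pow_iff_right (by norm_num)).1 this

end SCM
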