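import Pool.Agent.Lib.SCM.F
import Pool.Agent.Lib.SCM.PW
import Pool.Agent.Lib.SCM.OK
import Pool.Agent.Lib.SCM.SP
import Pool.Agent.Lib.SCM.M1
import Pool.Agent.Lib.SCM.M2
import Pool.Agent.Lib.SCM.M4
import Pool.Agent.Lib.SCM.M5
import Pool.Agent.Lib.SCM.P1
import Pool.Agent.Lib.SCM.P2
import Pool.Agent.Lib.SCM.P4
import Pool.Agent.Lib.SCM.P5
import Pool.Agent.Lib.SCM.Q1
import Pool.Agent.Lib.SCM.Q2
import Pool.Agent.Lib.SCM.Q3
import Pool.Agent.Lib.SCM.T1
import Pool.Agent.Lib.SCM.T2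
import Pool.Agent.Lib.SCM.T4
import Pool.Agent.Lib.SCM.T5
import Pool.Agent.Lib.SCM.T6
import Pool.Agent.Lib.SCM.T7
import Pool.Agent.Lib.SCM.T9
import Pool.Agent.Lib.SCM.T10
import Pool.Agent.Lib.SCM.T12

/-!
# The completeness theorem
-/

set_option autoImplicit false

namespace SCM

open SCR SCN

theorem completeness : Completeness :=
  completenessOf powSet ok1 ok2 ok4 ok5 (m1 split split0) m2 m4 m5 p1 p2 p4 p5 q1 q2 q3 t1 t2 t2x t4 t5 t6 t7 nestSpec
    t9 t10 t12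

/-- Set Cover → Full Monomial -/
theorem cover_mm : Leq (setProblem Coverable) FullMonomial :=
  Leq.trans (Y := setProblem Exact)
    (fun β η h1 h2 h3 => (t12 Exact (β + η)).1 (transfer good_cover good_exact h1 h2 ((t12 Coverable β).2 h3)))
    (fun β η h1 h2 h3 => t11 (t8 powSet t1 t2 t2x t4 t5 t6 t7 q1 q2 q3 nestSpec) t9 t10 β (β + η) h1 (by linarith) h3)

end SCM
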