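import Pool.Agent.Lib.SCM.Progs2
import Pool.Agent.Lib.SCM.OK

/-!
# The bounds of the instances (Graph Motif)
-/

set_option autoImplicit false

namespace SCM

open SCR SCN

theorem ok6 : Ok6 := by
  intro n k L
  refine ⟨fun v hv => ?_, fun e he => ?_⟩
  · unfold col6
    split_ifs with h1 h2
    · omega
    · have h3 : (v - 1) / (L.length + 1) < k := (Nat.div_lt_iff_lt_mul (Nat.succ_pos _)).2 h2
      omega
    · have hn : 0 < n := by
        rcases Nat.eq_zero_or_pos n with rfl | h
        · rw [Nat.mul_zero] at hv
          omega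
        · exact h
      have := Nat.mod_lt (v - 1 - k * (L.length + 1)) hn
      omega
  · unfold edges6 at he
    simp only [List.mem_flatMap, List.mem_range, List.mem_append, List.mem_cons, List.not_mem_nil,
      or_false] at he
    obtain ⟨i, hi, he⟩ := he
    rcases he with ⟨S, hS, he⟩ | rfl
    · have h1 : i * (L.length + 1) + S < k * (L.length + 1) := OKx.mul_add_lt hi (by omega)
      rcases he with rfl | ⟨x, hx, he⟩
      · simp only
        omega
      · have h2 := OKx.mul_add_lt hS hx
        split_ifs at he
        · rw [List.mem_singleton] at he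
          subst he
          simp only
          omega
        · simp at he
    · have h1 : i * (L.length + 1) + L.length < k * (L.length + 1) := OKx.mul_add_lt hi (by omega)
      simp only
      omega

theorem ok7 : Ok7 := by
  intro n N col E hn hcol hE t ht
  unfold rules7 at ht
  simp only [List.mem_append, List.mem_map, List.mem_flatMap, List.mem_range] at ht
  rcases ht with ⟨v, hv, rfl⟩ | ⟨i, hi, ht⟩ | ⟨v, hv, rfl⟩
  · have h1 := hcol v hv
    have h2 : lv n N 0 v < lv n N n 0 := OKx.lv_lt hn hv
    refine ⟨by omega, ?_, ?_⟩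
    · simp only [lv]
      omega
    · simp only [lv]
      omega
  · unfold rules7i at ht
    simp only [List.mem_flatMap, List.mem_range, List.mem_cons, List.not_mem_nil, or_false] at ht
    obtain ⟨a, ha, e, he, ht⟩ := ht
    obtain ⟨h1, h2⟩ := hE e he
    rcases ht with rfl | rfl
    · have h3 : lv n N (i + 1) e.1 < lv n N n 0 := OKx.lv_lt (by omega) h1
      exact ⟨by omega, OKx.lv_lt (by omega) h1, OKx.lv_lt (by omega) h2⟩
    · have h3 : lv n N (i + 1) e.2 < lv n N n 0 := OKx.lv_lt (by omega) h2
      exact ⟨by omega, OKx.lv_lt (by omega) h2, OKx.lv_lt (by omega) h1⟩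
  · refine ⟨Nat.lt_succ_self _, OKx.lv_lt (by omega) hv, ?_⟩
    simp only [lv]
    omega

end SCM
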