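import Pool.Agent.Lib.SCM.Progs2
import Pool.Agent.Lib.SCM.P5

/-!
# Row P7: Graph Motif → Full Monomial, the program
-/

set_option autoImplicit false

namespace SCM

open SCR SCN

namespace P7x

open P5x

/-- the same data as an instance of Colourful Path (only the fields are used) -/
def cp (J : GMInst) : CPInst := ⟨J.n, J.N, J.col, J.E, J.pos, J.col_lt, J.lt⟩

/-- the words fit -/
def Big7 (I : CPInst) (w : ℕ) : Prop :=
  20 + 8 * I.N + 2 * I.E.length + 3 * (I.n * I.E.length) + I.n * I.N + 2 * I.n +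
    6 * (I.n * (I.n * I.E.length)) < 2 ^ w

lemma Big7.big {I : CPInst} {w : ℕ} (h : Big7 I w) : Big I w := by
  unfold Big7 at h
  unfold Big
  omega

/-- the rules from edge `k` -/
def g7r (I : CPInst) (i a k : ℕ) : List (List ℕ) :=
  [[lv I.n I.N (i + 1) (I.E.getD k (0, 0)).1, lv I.n I.N a (I.E.getD k (0, 0)).1,
    lv I.n I.N (i - a) (I.E.getD k (0, 0)).2],
   [lv I.n I.N (i + 1) (I.E.getD k (0, 0)).2, lv I.n I.N a (I.E.getD k (0, 0)).2,
    lv I.n I.N (i - a) (I.E.getD k (0, 0)).1]]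

lemma g7r_len (I : CPInst) (i a k : ℕ) : (g7r I i a k).length = 2 := rfl

lemma g7r_3 (I : CPInst) (i a k : ℕ) : ∀ l ∈ g7r I i a k, l.length = 3 := by
  intro l hl
  simp only [g7r, List.mem_cons, List.not_mem_nil, or_false] at hl
  rcases hl with rfl | rfl <;> rfl

lemma rangeLe (f : ℕ → List (List ℕ)) (c J : ℕ) (hf : ∀ j < J, (f j).length ≤ c) :
    ((List.range J).flatMap f).length ≤ J * c := by
  induction J with
  | zero => simp
  | succ J ih =>
    rw [List.range_succ, List.flatMap_append, List.length_append]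
    simp only [List.flatMap_cons, List.flatMap_nil, List.append_nil]
    have h1 := ih fun j hj => hf j (by omega)
    have h2 := hf J (by omega)
    have h3 : (J + 1) * c = J * c + c := by ring
    omega

/-- one pass of the innermost loop -/
lemma bodyE {I : CPInst} {w i a k b : ℕ} {t : Data} (F : F5 I t) (hk : k < I.E.length) (ha : a ≤ i)
    (h1 : I.n + 1 + (i * I.N + I.N) + I.N < 2 ^ w) (h2 : t.reg 17 + 6 < 2 ^ w) (h3 : t.reg 18 + 2 < 2 ^ w)
    (h4 : 5 + I.N + 2 * I.E.length < 2 ^ w)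
    (t9 : t.reg 9 = I.n + 1 + (i * I.N + I.N)) (t10 : t.reg 10 = I.n + 1 + a * I.N)
    (t11 : t.reg 11 = I.n + 1 + (i - a) * I.N)
    (t24 : t.reg 24 = 3 + I.N + 2 * k) (t25 : t.reg 25 = k) (t26 : t.reg 26 = b) :
    HT w (blk [
        set 27 (.ld (.r 24)), set 28 (.ld (.add (.r 24) (.c 1))),
        recd [.add (.r 9) (.r 27), .add (.r 10) (.r 27), .add (.r 11) (.r 28)],
        recd [.add (.r 9) (.r 28), .add (.r 10) (.r 28), .add (.r 11) (.r 27)],
        set 24 (.add (.r 24) (.c 2))]) t 90 (fun u => App [24, 25, 26, 27, 28] t u (g7r I i a k) ∧ u.reg 25 = k ∧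
        u.reg 26 = b ∧ u.reg 24 = 3 + I.N + 2 * (k + 1)) := by
  obtain ⟨l1, l2⟩ := getD_lt hk
  have m1 : a * I.N ≤ i * I.N := Nat.mul_le_mul_right _ ha
  have m2 : (i - a) * I.N ≤ i * I.N := Nat.mul_le_mul_right _ (Nat.sub_le _ _)
  refine seqSet 86 (by decide) rfl (by decide) trivial ?_ (by decide)
  have hv : (E.ld (.r 24)).val t = (I.E.getD k (0, 0)).1 := by
    simp only [E.val, t24]
    exact F.e1 k hk
  rw [hv]
  refine seqSet 80 (by decide) rfl (by decide) ?_ ?_ (by decide)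
  · refine ⟨trivial, by simp only [E.ok]; omega, ?_⟩
    simp only [E.val]
    rw [upd_ne _ _ (by decide), t24]
    omega
  have hv : (E.ld (.add (.r 24) (.c 1))).val (upd t 27 (I.E.getD k (0, 0)).1) = (I.E.getD k (0, 0)).2 := by
    simp only [E.val]
    rw [upd_ne _ _ (by decide), t24]
    exact F.e2 k hk
  rw [hv]
  have hA : App [24, 25, 26, 27, 28] t (upd (upd t 27 (I.E.getD k (0, 0)).1) 28 (I.E.getD k (0, 0)).2) [] :=
    ((App.refl _ t).upd _ (by decide) (by decide) (by decide)).upd _ (by decide) (by decide) (by decide)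
  have F' : F5 I (upd (upd t 27 (I.E.getD k (0, 0)).1) 28 (I.E.getD k (0, 0)).2) :=
    (F.upd (by decide)).upd (by decide)
  have u27 : (upd (upd t 27 (I.E.getD k (0, 0)).1) 28 (I.E.getD k (0, 0)).2).reg 27 = (I.E.getD k (0, 0)).1 := by
    rw [upd_ne _ _ (by decide), upd_self]
  have u28 : (upd (upd t 27 (I.E.getD k (0, 0)).1) 28 (I.E.getD k (0, 0)).2).reg 28 = (I.E.getD k (0, 0)).2 :=
    upd_self _ _ _
  have ur : ∀ r, r ≠ 27 → r ≠ 28 →
      (upd (upd t 27 (I.E.getD k (0, 0)).1) 28 (I.E.getD k (0, 0)).2).reg r = t.reg r := fun r h1 h2 => by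
    rw [upd_ne _ _ h2, upd_ne _ _ h1]
  generalize upd (upd t 27 (I.E.getD k (0, 0)).1) 28 (I.E.getD k (0, 0)).2 = u at hA F' u27 u28 ur ⊢
  have u9 := (ur 9 (by decide) (by decide)).trans t9
  have u10 := (ur 10 (by decide) (by decide)).trans t10
  have u11 := (ur 11 (by decide) (by decide)).trans t11
  have u17 := ur 17 (by decide) (by decide)
  have u18 := ur 18 (by decide) (by decide)
  refine seqRec3 40 (by decide) (by decide) (by decide) ⟨trivial, trivial, ?_⟩ ⟨trivial, trivial, ?_⟩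
    ⟨trivial, trivial, ?_⟩ (by rw [u17]; omega) (by rw [u18]; omega) ?_ (by decide)
  · simp only [E.val, u9, u27]
    omega
  · simp only [E.val, u10, u27]
    omega
  · simp only [E.val, u11, u28]
    omega
  intro v hv
  have vr : ∀ r, r ≠ 17 → r ≠ 18 → v.reg r = u.reg r := fun r h1 h2 => hv.reg r (by simp) h1 h2
  have v9 := (vr 9 (by decide) (by decide)).trans u9
  have v10 := (vr 10 (by decide) (by decide)).trans u10
  have v11 := (vr 11 (by decide) (by decide)).trans u11
  have v27 := (vr 27 (by decide) (by decide)).trans u27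
  have v28 := (vr 28 (by decide) (by decide)).trans u28
  have v17 := hv.ptr
  have v18 := hv.cnt
  simp only [List.flatten_cons, List.flatten_nil, List.append_nil, List.length_cons, List.length_nil] at v17 v18
  refine seqRec3 6 (by decide) (by decide) (by decide) ⟨trivial, trivial, ?_⟩ ⟨trivial, trivial, ?_⟩
    ⟨trivial, trivial, ?_⟩ (by rw [v17, u17]; omega) (by rw [v18, u18]; omega) ?_ (by decide)
  · simp only [E.val, v9, v28]
    omega
  · simp only [E.val, v10, v28]
    omega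
  · simp only [E.val, v11, v27]
    omega
  intro x hx
  have x24 : x.reg 24 = 3 + I.N + 2 * k := by
    rw [hx.reg 24 (by decide) (by decide) (by decide), vr 24 (by decide) (by decide), ur 24 (by decide) (by decide),
      t24]
  refine seqSet 1 (by decide) rfl (by decide) ⟨trivial, by simp only [E.ok]; omega, ?_⟩ (HT.skip ?_)
    (by decide)
  · simp only [E.val, x24]
    omega
  have h1 : App [24, 25, 26, 27, 28] t x (g7r I i a k) := by
    have h2 := (hA.trans (hv.wk (F' := [24, 25, 26, 27, 28]) (by simp))).trans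
      (hx.wk (F' := [24, 25, 26, 27, 28]) (by simp))
    have e1 : ∀ z, I.n + 1 + (i * I.N + I.N) + z = lv I.n I.N (i + 1) z := fun z => by
      unfold lv
      ring
    have e2 : ∀ z, I.n + 1 + a * I.N + z = lv I.n I.N a z := fun z => rfl
    have e3 : ∀ z, I.n + 1 + (i - a) * I.N + z = lv I.n I.N (i - a) z := fun z => rfl
    simp only [E.val, u9, u10, u27, u28, u11, v9, v10, v11, v27, v28, List.nil_append, e1, e2, e3,
      List.cons_append] at h2
    exact h2
  refine ⟨h1.upd _ (by decide) (by decide) (by decide), ?_, ?_, ?_⟩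
  · rw [upd_ne _ _ (by decide), hx.reg 25 (by decide) (by decide) (by decide), vr 25 (by decide) (by decide),
      ur 25 (by decide) (by decide), t25]
  · rw [upd_ne _ _ (by decide), hx.reg 26 (by decide) (by decide) (by decide), vr 26 (by decide) (by decide),
      ur 26 (by decide) (by decide), t26]
  · rw [upd_self]
    simp only [E.val, x24]
    ring

/-- the innermost loop -/
lemma loopE {I : CPInst} {w i a : ℕ} {s : Data} (hs : F5 I s) (ha : a ≤ i)
    (h1 : I.n + 1 + (i * I.N + I.N) + I.N < 2 ^ w) (h2 : s.reg 17 + 6 * I.E.length < 2 ^ w)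
    (h3 : s.reg 18 + 2 * I.E.length < 2 ^ w) (h4 : 5 + I.N + 2 * I.E.length < 2 ^ w)
    (h9 : s.reg 9 = I.n + 1 + (i * I.N + I.N)) (h10 : s.reg 10 = I.n + 1 + a * I.N)
    (h11 : s.reg 11 = I.n + 1 + (i - a) * I.N) (h24 : s.reg 24 = 3 + I.N) :
    HT w (forr 25 26 (.r 5) (blk [
        set 27 (.ld (.r 24)), set 28 (.ld (.add (.r 24) (.c 1))),
        recd [.add (.r 9) (.r 27), .add (.r 10) (.r 27), .add (.r 11) (.r 28)],
        recd [.add (.r 9) (.r 28), .add (.r 10) (.r 28), .add (.r 11) (.r 27)],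
        set 24 (.add (.r 24) (.c 2))])) s
      (I.E.length * 100 + 10)
      (fun t => App [24, 25, 26, 27, 28] s t ((List.range I.E.length).flatMap (g7r I i a))) := by
  refine HT.forApp I.E.length 90 [24, 25, 26, 27, 28] (g7r I i a) (fun k t => t.reg 24 = 3 + I.N + 2 * k)
    (by decide) (by decide) (by decide) (by decide) (by decide) (by decide) (by decide) (by decide) (by decide)
    rfl (by decide) trivial hs.r5 (by omega) ?_ ?_ (by simp only [E.size]; omega) (fun t ht _ => ht)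
  · rw [upd_ne _ _ (by decide), upd_ne _ _ (by decide), h24]
    rfl
  intro k hk t ht t24 t25 t26
  have F := hs.app ht (by decide) (range3 _ (g7r_3 I i a) k)
  have hc := ht.cnt
  have hp := ht.ptr
  rw [len3 _ (range3 _ (g7r_3 I i a) k)] at hp
  rw [rangeLen _ 2 (g7r_len I i a)] at hc hp
  refine (bodyE F hk ha h1 ?_ ?_ h4 ((ht.reg 9 (by decide) (by decide) (by decide)).trans h9)
    ((ht.reg 10 (by decide) (by decide) (by decide)).trans h10)
    ((ht.reg 11 (by decide) (by decide) (by decide)).trans h11) t24 t25 t26).mono le_rfl ?_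
  · clear t26
    omega
  · clear t26
    omega
  rintro u ⟨u1, u2, u3, u4⟩
  refine ⟨u1, u2, u3, ?_⟩
  rw [upd_ne _ _ (by decide), upd_ne _ _ (by decide), u4]

/-- one pass of the loop over `a` -/
lemma bodyA {I : CPInst} {w i a b : ℕ} {t : Data} (F : F5 I t) (ha : a ≤ i)
    (h1 : I.n + 1 + (i * I.N + I.N) + I.N < 2 ^ w) (h2 : t.reg 17 + 6 * I.E.length < 2 ^ w)
    (h3 : t.reg 18 + 2 * I.E.length < 2 ^ w) (h4 : 5 + I.N + 2 * I.E.length < 2 ^ w)
    (t9 : t.reg 9 = I.n + 1 + (i * I.N + I.N)) (t10 : t.reg 10 = I.n + 1 + a * I.N)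
    (t11 : t.reg 11 = I.n + 1 + (i - a) * I.N) (t22 : t.reg 22 = a) (t23 : t.reg 23 = b) :
    HT w (blk [
      set 24 (.add (.c 3) (.r 3)),
      forr 25 26 (.r 5) (blk [
        set 27 (.ld (.r 24)), set 28 (.ld (.add (.r 24) (.c 1))),
        recd [.add (.r 9) (.r 27), .add (.r 10) (.r 27), .add (.r 11) (.r 28)],
        recd [.add (.r 9) (.r 28), .add (.r 10) (.r 28), .add (.r 11) (.r 27)],
        set 24 (.add (.r 24) (.c 2))]),
      set 10 (.add (.r 10) (.r 3)), set 11 (.sub (.r 11) (.r 3))]) t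
      (I.E.length * 100 + 30)
      (fun u => App [10, 11, 22, 23, 24, 25, 26, 27, 28] t u ((List.range I.E.length).flatMap (g7r I i a)) ∧
        u.reg 22 = a ∧ u.reg 23 = b ∧ u.reg 10 = I.n + 1 + (a + 1) * I.N ∧
        u.reg 11 = I.n + 1 + (i - a) * I.N - I.N) := by
  have t3 := F.r3
  have m1 : a * I.N ≤ i * I.N := Nat.mul_le_mul_right _ ha
  refine seqSet (I.E.length * 100 + 20) (by decide) rfl (by decide) ⟨by simp only [E.ok]; omega, trivial, ?_⟩ ?_
    (by simp only [E.size]; omega)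
  · simp only [E.val, t3]
    omega
  have hv : (E.add (.c 3) (.r 3)).val t = 3 + I.N := by simp only [E.val, t3]
  rw [hv]
  have F' : F5 I (upd t 24 (3 + I.N)) := F.upd (by decide)
  have hA : App [10, 11, 22, 23, 24, 25, 26, 27, 28] t (upd t 24 (3 + I.N)) [] :=
    (App.refl _ t).upd _ (by decide) (by decide) (by decide)
  have u24 : (upd t 24 (3 + I.N)).reg 24 = 3 + I.N := upd_self _ _ _
  have ur : ∀ r, r ≠ 24 → (upd t 24 (3 + I.N)).reg r = t.reg r := fun r h1 => upd_ne _ _ h1
  generalize upd t 24 (3 + I.N) = u at F' hA u24 ur ⊢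
  have u9 := (ur 9 (by decide)).trans t9
  have u10 := (ur 10 (by decide)).trans t10
  have u11 := (ur 11 (by decide)).trans t11
  refine HT.seq (T1 := I.E.length * 100 + 10) (T2 := 10) (loopE F' ha h1 ((ur 17 (by decide)).symm ▸ h2)
    ((ur 18 (by decide)).symm ▸ h3) h4 u9 u10 u11 u24) ?_ (by omega)
  intro v hv
  have vr : ∀ r, r ∉ [24, 25, 26, 27, 28] → r ≠ 17 → r ≠ 18 → v.reg r = t.reg r := fun r h1 h2 h3 => by
    rw [hv.reg r h1 h2 h3, ur r (by rintro rfl; exact h1 (by decide))]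
  have v10 : v.reg 10 = I.n + 1 + a * I.N := by rw [vr 10 (by decide) (by decide) (by decide), t10]
  have v11 : v.reg 11 = I.n + 1 + (i - a) * I.N := by rw [vr 11 (by decide) (by decide) (by decide), t11]
  have v3 : v.reg 3 = I.N := by rw [vr 3 (by decide) (by decide) (by decide), t3]
  refine seqSet 6 (by decide) rfl (by decide) ⟨trivial, trivial, ?_⟩ ?_ (by decide)
  · simp only [E.val, v10, v3]
    omega
  have hv' : (E.add (.r 10) (.r 3)).val v = I.n + 1 + (a + 1) * I.N := by
    simp only [E.val, v10, v3]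
    ring
  rw [hv']
  refine seqSet 1 (by decide) rfl (by decide) ⟨trivial, trivial⟩ (HT.skip ?_) (by decide)
  refine ⟨?_, ?_, ?_, ?_, ?_⟩
  · have h2 := hA.trans (hv.wk (F' := [10, 11, 22, 23, 24, 25, 26, 27, 28]) (by simp))
    rw [List.nil_append] at h2
    exact (h2.upd _ (by decide) (by decide) (by decide)).upd _ (by decide) (by decide) (by decide)
  · rw [upd_ne _ _ (by decide), upd_ne _ _ (by decide), vr 22 (by decide) (by decide) (by decide), t22]
  · rw [upd_ne _ _ (by decide), upd_ne _ _ (by decide), vr 23 (by decide) (by decide) (by decide), t23]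
  · rw [upd_ne _ _ (by decide), upd_self]
  · rw [upd_self]
    simp only [E.val]
    rw [upd_ne _ _ (by decide), upd_ne _ _ (by decide), v11, v3]

/-- the loop over `a` -/
lemma loopA {I : CPInst} {w i : ℕ} {s : Data} (hs : F5 I s)
    (h0 : i + 1 < 2 ^ w) (h1 : I.n + 1 + (i * I.N + I.N) + I.N < 2 ^ w)
    (h2 : s.reg 17 + 6 * ((i + 1) * I.E.length) < 2 ^ w)
    (h3 : s.reg 18 + 2 * ((i + 1) * I.E.length) < 2 ^ w) (h4 : 5 + I.N + 2 * I.E.length < 2 ^ w)
    (h9 : s.reg 9 = I.n + 1 + (i * I.N + I.N)) (h10 : s.reg 10 = I.n + 1)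
    (h11 : s.reg 11 = I.n + 1 + i * I.N) (h20 : s.reg 20 = i) :
    HT w (forr 22 23 (.add (.r 20) (.c 1)) (blk [
      set 24 (.add (.c 3) (.r 3)),
      forr 25 26 (.r 5) (blk [
        set 27 (.ld (.r 24)), set 28 (.ld (.add (.r 24) (.c 1))),
        recd [.add (.r 9) (.r 27), .add (.r 10) (.r 27), .add (.r 11) (.r 28)],
        recd [.add (.r 9) (.r 28), .add (.r 10) (.r 28), .add (.r 11) (.r 27)],
        set 24 (.add (.r 24) (.c 2))]),
      set 10 (.add (.r 10) (.r 3)), set 11 (.sub (.r 11) (.r 3))])) s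
      ((i + 1) * (I.E.length * 100 + 40) + 10)
      (fun t => App [10, 11, 22, 23, 24, 25, 26, 27, 28] s t
        ((List.range (i + 1)).flatMap fun a => (List.range I.E.length).flatMap (g7r I i a))) := by
  refine HT.forApp (i + 1) (I.E.length * 100 + 30) [10, 11, 22, 23, 24, 25, 26, 27, 28]
    (fun a => (List.range I.E.length).flatMap (g7r I i a))
    (fun a t => t.reg 10 = I.n + 1 + a * I.N ∧ (a ≤ i → t.reg 11 = I.n + 1 + (i - a) * I.N))
    (by decide) (by decide) (by decide) (by decide) (by decide) (by decide) (by decide) (by decide) (by decide)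
    rfl (by decide) ⟨trivial, by simp only [E.ok]; omega, by simp only [E.val, h20]; omega⟩ ?_ (by omega) ?_ ?_ ?_
    (fun t ht _ => ht)
  · simp only [E.val, h20]
  · rw [upd_ne _ _ (by decide), upd_ne _ _ (by decide), upd_ne _ _ (by decide), upd_ne _ _ (by decide), h10, h11]
    exact ⟨by ring, fun _ => rfl⟩
  swap
  · simp only [E.size]
    rw [show I.E.length * 100 + 30 + 10 = I.E.length * 100 + 40 by ring]
    omega
  rintro a ha t ht ⟨t10, t11'⟩ t22 t23
  have hai : a ≤ i := by omega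
  have t11 := t11' hai
  have F := hs.app ht (by decide) (range3 _ (fun j => range3 _ (g7r_3 I i j) _) _)
  have hc := ht.cnt
  have hp := ht.ptr
  have e1 : ∀ j, ((List.range I.E.length).flatMap (g7r I i j)).length = I.E.length * 2 := fun j =>
    rangeLen _ 2 (g7r_len I i j) _
  rw [len3 _ (range3 _ (fun j => range3 _ (g7r_3 I i j) _) _)] at hp
  rw [rangeLen _ (I.E.length * 2) e1] at hc hp
  have hn : (a + 1) * I.E.length ≤ (i + 1) * I.E.length := Nat.mul_le_mul_right _ (by omega)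
  have hn' : a * (I.E.length * 2) + 2 * I.E.length = 2 * ((a + 1) * I.E.length) := by ring
  refine (bodyA F hai h1 ?_ ?_ h4 ((ht.reg 9 (by decide) (by decide) (by decide)).trans h9) t10 t11 t22
    t23).mono le_rfl ?_
  · rw [hp]
    clear t23 hp hc
    omega
  · rw [hc]
    clear t23 hp hc
    omega
  rintro u ⟨u1, u2, u3, u4, u5⟩
  refine ⟨u1, u2, u3, ?_, fun hle => ?_⟩
  · rw [upd_ne _ _ (by decide), upd_ne _ _ (by decide), u4]
  · rw [upd_ne _ _ (by decide), upd_ne _ _ (by decide), u5]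
    obtain ⟨d, rfl⟩ : ∃ d, i = a + 1 + d := ⟨i - (a + 1), by omega⟩
    have e2 : a + 1 + d - a = d + 1 := by omega
    have e3 : a + 1 + d - (a + 1) = d := by omega
    rw [e2, e3, show (d + 1) * I.N = d * I.N + I.N by ring]
    omega

/-- one level -/
lemma bodyI {I : CPInst} {w i b : ℕ} {t : Data} (F : F5 I t)
    (h0 : i + 1 < 2 ^ w) (h1 : I.n + 1 + (i * I.N + I.N) + I.N < 2 ^ w)
    (h2 : t.reg 17 + 6 * ((i + 1) * I.E.length) < 2 ^ w)
    (h3 : t.reg 18 + 2 * ((i + 1) * I.E.length) < 2 ^ w) (h4 : 5 + I.N + 2 * I.E.length < 2 ^ w)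
    (t9 : t.reg 9 = I.n + 1 + (i * I.N + I.N)) (t12 : t.reg 12 = I.n + 1 + i * I.N)
    (t20 : t.reg 20 = i) (t21 : t.reg 21 = b) :
    HT w (blk [
      set 10 (.r 8), set 11 (.r 12),
      forr 22 23 (.add (.r 20) (.c 1)) (blk [
        set 24 (.add (.c 3) (.r 3)),
        forr 25 26 (.r 5) (blk [
          set 27 (.ld (.r 24)), set 28 (.ld (.add (.r 24) (.c 1))),
          recd [.add (.r 9) (.r 27), .add (.r 10) (.r 27), .add (.r 11) (.r 28)],
          recd [.add (.r 9) (.r 28), .add (.r 10) (.r 28), .add (.r 11) (.r 27)],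
          set 24 (.add (.r 24) (.c 2))]),
        set 10 (.add (.r 10) (.r 3)), set 11 (.sub (.r 11) (.r 3))]),
      set 12 (.r 9), set 9 (.add (.r 9) (.r 3))]) t
      ((i + 1) * (I.E.length * 100 + 40) + 30)
      (fun u => App [9, 10, 11, 12, 20, 21, 22, 23, 24, 25, 26, 27, 28] t u
          ((List.range (i + 1)).flatMap fun a => (List.range I.E.length).flatMap (g7r I i a)) ∧
        u.reg 20 = i ∧ u.reg 21 = b ∧ u.reg 9 = I.n + 1 + ((i + 1) * I.N + I.N) ∧
        u.reg 12 = I.n + 1 + (i + 1) * I.N) := by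
  have t3 := F.r3
  have t8 := F.r8
  refine seqSet ((i + 1) * (I.E.length * 100 + 40) + 28) (by decide) rfl (by decide) trivial ?_
    (by simp only [E.size]; omega)
  have hv : (E.r 8).val t = I.n + 1 := t8
  rw [hv]
  refine seqSet ((i + 1) * (I.E.length * 100 + 40) + 26) (by decide) rfl (by decide) trivial ?_
    (by simp only [E.size]; omega)
  have hv : (E.r 12).val (upd t 10 (I.n + 1)) = I.n + 1 + i * I.N := by
    simp only [E.val]
    rw [upd_ne _ _ (by decide), t12]
  rw [hv]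
  have F' : F5 I (upd (upd t 10 (I.n + 1)) 11 (I.n + 1 + i * I.N)) := (F.upd (by decide)).upd (by decide)
  have hA : App [9, 10, 11, 12, 20, 21, 22, 23, 24, 25, 26, 27, 28] t
      (upd (upd t 10 (I.n + 1)) 11 (I.n + 1 + i * I.N)) [] :=
    ((App.refl _ t).upd _ (by decide) (by decide) (by decide)).upd _ (by decide) (by decide) (by decide)
  have u10 : (upd (upd t 10 (I.n + 1)) 11 (I.n + 1 + i * I.N)).reg 10 = I.n + 1 := by
    rw [upd_ne _ _ (by decide), upd_self]
  have u11 : (upd (upd t 10 (I.n + 1)) 11 (I.n + 1 + i * I.N)).reg 11 = I.n + 1 + i * I.N := upd_self _ _ _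
  have ur : ∀ r, r ≠ 10 → r ≠ 11 → (upd (upd t 10 (I.n + 1)) 11 (I.n + 1 + i * I.N)).reg r = t.reg r :=
    fun r h1 h2 => by rw [upd_ne _ _ h2, upd_ne _ _ h1]
  generalize upd (upd t 10 (I.n + 1)) 11 (I.n + 1 + i * I.N) = u at F' hA u10 u11 ur ⊢
  have u9 := (ur 9 (by decide) (by decide)).trans t9
  have u20 := (ur 20 (by decide) (by decide)).trans t20
  refine HT.seq (T1 := (i + 1) * (I.E.length * 100 + 40) + 10) (T2 := 12)
    (loopA F' h0 h1 ((ur 17 (by decide) (by decide)).symm ▸ h2) ((ur 18 (by decide) (by decide)).symm ▸ h3) h4 u9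
      u10 u11 u20) ?_ (by omega)
  intro v hv
  have vr : ∀ r, r ∉ [10, 11, 22, 23, 24, 25, 26, 27, 28] → r ≠ 17 → r ≠ 18 → v.reg r = t.reg r :=
    fun r h1 h2 h3 => by
      rw [hv.reg r h1 h2 h3, ur r (by rintro rfl; exact h1 (by decide)) (by rintro rfl; exact h1 (by decide))]
  have v9 : v.reg 9 = I.n + 1 + (i * I.N + I.N) := by rw [vr 9 (by decide) (by decide) (by decide), t9]
  have v3 : v.reg 3 = I.N := by rw [vr 3 (by decide) (by decide) (by decide), t3]
  refine seqSet 8 (by decide) rfl (by decide) trivial ?_ (by decide)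
  have hv' : (E.r 9).val v = I.n + 1 + (i * I.N + I.N) := v9
  rw [hv']
  refine seqSet 1 (by decide) rfl (by decide) ⟨trivial, trivial, ?_⟩ (HT.skip ?_) (by decide)
  · simp only [E.val]
    rw [upd_ne _ _ (by decide), upd_ne _ _ (by decide), v9, v3]
    exact h1
  refine ⟨?_, ?_, ?_, ?_, ?_⟩
  · have h2 := hA.trans (hv.wk (F' := [9, 10, 11, 12, 20, 21, 22, 23, 24, 25, 26, 27, 28]) (by simp))
    rw [List.nil_append] at h2
    exact (h2.upd _ (by decide) (by decide) (by decide)).upd _ (by decide) (by decide) (by decide)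
  · rw [upd_ne _ _ (by decide), upd_ne _ _ (by decide), vr 20 (by decide) (by decide) (by decide), t20]
  · rw [upd_ne _ _ (by decide), upd_ne _ _ (by decide), vr 21 (by decide) (by decide) (by decide), t21]
  · rw [upd_self]
    simp only [E.val]
    rw [upd_ne _ _ (by decide), upd_ne _ _ (by decide), v9, v3]
    ring
  · rw [upd_ne _ _ (by decide), upd_self]
    ring

/-- the rules of the levels -/
def g7i (I : CPInst) (i : ℕ) : List (List ℕ) :=
  (List.range (i + 1)).flatMap fun a => (List.range I.E.length).flatMap (g7r I i a)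

lemma g7i_3 (I : CPInst) (i : ℕ) : ∀ l ∈ g7i I i, l.length = 3 :=
  range3 _ (fun j => range3 _ (g7r_3 I i j) _) _

lemma g7i_len (I : CPInst) (i : ℕ) : (g7i I i).length = 2 * ((i + 1) * I.E.length) := by
  unfold g7i
  rw [rangeLen _ (I.E.length * 2) fun j => rangeLen _ 2 (g7r_len I i j) _]
  ring

lemma levLe (I : CPInst) {J : ℕ} (hJ : J + 1 ≤ I.n) :
    ((List.range J).flatMap (g7i I)).length + 2 * ((J + 1) * I.E.length) ≤ 2 * (I.n * (I.n * I.E.length)) := by
  have h1 : ((List.range J).flatMap (g7i I)).length ≤ J * (2 * (I.n * I.E.length)) := by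
    refine rangeLe _ _ _ fun j hj => ?_
    rw [g7i_len]
    exact Nat.mul_le_mul_left _ (Nat.mul_le_mul_right _ (by omega))
  have h2 : (J + 1) * I.E.length ≤ I.n * I.E.length := Nat.mul_le_mul_right _ hJ
  have h3 : (J + 1) * (2 * (I.n * I.E.length)) ≤ I.n * (2 * (I.n * I.E.length)) := Nat.mul_le_mul_right _ hJ
  have h4 : (J + 1) * (2 * (I.n * I.E.length)) = J * (2 * (I.n * I.E.length)) + 2 * (I.n * I.E.length) := by ring
  have h5 : I.n * (2 * (I.n * I.E.length)) = 2 * (I.n * (I.n * I.E.length)) := by ring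
  omega

/-- all the levels -/
lemma loopI {I : CPInst} {w : ℕ} {s : Data} (hb : Big7 I w) (hs : F5 I s)
    (h18 : s.reg 18 = I.N) (h9 : s.reg 9 = I.n + 1 + I.N) (h12 : s.reg 12 = I.n + 1) :
    HT w (forr 20 21 (.sub (.r 1) (.c 1)) (blk [
      set 10 (.r 8), set 11 (.r 12),
      forr 22 23 (.add (.r 20) (.c 1)) (blk [
        set 24 (.add (.c 3) (.r 3)),
        forr 25 26 (.r 5) (blk [
          set 27 (.ld (.r 24)), set 28 (.ld (.add (.r 24) (.c 1))),
          recd [.add (.r 9) (.r 27), .add (.r 10) (.r 27), .add (.r 11) (.r 28)],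
          recd [.add (.r 9) (.r 28), .add (.r 10) (.r 28), .add (.r 11) (.r 27)],
          set 24 (.add (.r 24) (.c 2))]),
        set 10 (.add (.r 10) (.r 3)), set 11 (.sub (.r 11) (.r 3))]),
      set 12 (.r 9), set 9 (.add (.r 9) (.r 3))])) s
      ((I.n - 1) * (I.n * (I.E.length * 100 + 40) + 40) + 10)
      (fun t => App [9, 10, 11, 12, 20, 21, 22, 23, 24, 25, 26, 27, 28] s t
          ((List.range (I.n - 1)).flatMap (g7i I)) ∧
        t.reg 9 = I.n + 1 + ((I.n - 1) * I.N + I.N) ∧ t.reg 12 = I.n + 1 + (I.n - 1) * I.N) := by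
  unfold Big7 at hb
  refine HT.forApp (I.n - 1) (I.n * (I.E.length * 100 + 40) + 30) [9, 10, 11, 12, 20, 21, 22, 23, 24, 25, 26, 27, 28]
    (g7i I) (fun i t => t.reg 9 = I.n + 1 + (i * I.N + I.N) ∧ t.reg 12 = I.n + 1 + i * I.N)
    (by decide) (by decide) (by decide) (by decide) (by decide) (by decide) (by decide) (by decide) (by decide)
    rfl (by decide) ⟨trivial, by simp only [E.ok]; omega⟩ ?_ (by omega) ?_ ?_ ?_ (fun t ht ht' => ⟨ht, ht'⟩)
  · simp only [E.val, hs.r1]
  · rw [upd_ne _ _ (by decide), upd_ne _ _ (by decide), upd_ne _ _ (by decide), upd_ne _ _ (by decide), h9, h12]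
    constructor
    · ring
    · ring
  swap
  · rw [show I.n * (I.E.length * 100 + 40) + 30 + 10 = I.n * (I.E.length * 100 + 40) + 40 by ring]
    simp only [E.size]
    omega
  rintro i hi t ht ⟨t9, t12⟩ t20 t21
  have hi' : i + 2 ≤ I.n := by omega
  have F := hs.app ht (by decide) (range3 _ (g7i_3 I) _)
  have hc := ht.cnt
  have hp := ht.ptr
  rw [len3 _ (range3 _ (g7i_3 I) _), hs.r17, h18] at hp
  rw [h18] at hc
  have hl := levLe I (J := i) (by omega)
  have hn' : (i + 2) * I.N ≤ I.n * I.N := Nat.mul_le_mul_right _ hi'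
  rw [Nat.add_mul] at hn'
  have hT : (i + 1) * (I.E.length * 100 + 40) ≤ I.n * (I.E.length * 100 + 40) := Nat.mul_le_mul_right _ (by omega)
  refine (bodyI F (by clear t21; omega) ?_ ?_ ?_ ?_ t9 t12 t20 t21).mono (by omega) ?_
  · clear t21 hi hp hc hl
    omega
  · rw [hp]
    clear t21 hi hp hc hn'
    omega
  · rw [hc]
    clear t21 hi hp hc hn'
    omega
  · omega
  rintro u ⟨u1, u2, u3, u4, u5⟩
  refine ⟨u1, u2, u3, ?_, ?_⟩
  · rw [upd_ne _ _ (by decide), upd_ne _ _ (by decide), u4]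
  · rw [upd_ne _ _ (by decide), upd_ne _ _ (by decide), u5]

lemma loop3' {I : CPInst} {w : ℕ} {s : Data} (hb : Big7 I w) (hs : F5 I s)
    (h18 : s.reg 18 ≤ I.N + 2 * (I.n * (I.n * I.E.length))) (h9 : s.reg 9 = I.n + 1 + I.n * I.N)
    (h12 : s.reg 12 = I.n + 1 + (I.n - 1) * I.N) :
    HT w (forr 20 21 (.r 3) (recd [.r 9, .add (.r 12) (.r 20), .r 1])) s
      (I.N * 60 + 10) (fun t => App [20, 21] s t ((List.range I.N).flatMap (g3r I))) := by
  unfold Big7 at hb
  have hn' : (I.n - 1) * I.N ≤ I.n * I.N := Nat.mul_le_mul_right _ (by omega)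
  refine HT.forApp I.N 50 [20, 21] (g3r I) (fun _ _ => True)
    (by decide) (by decide) (by decide) (by decide) (by decide) (by decide) (by decide) (by decide) (by decide)
    rfl (by decide) trivial hs.r3 (by omega) trivial ?_ (by simp only [E.size]; omega) (fun t ht _ => ht)
  intro j hj t ht _ t20 t21
  have hf : ∀ j, ∀ l ∈ g3r I j, l.length = 3 := by
    intro j l hl
    simp only [g3r, List.mem_singleton] at hl
    rw [hl]
    rfl
  have F := hs.app ht (by decide) (range3 _ hf j)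
  have hc := ht.cnt
  have hp := ht.ptr
  rw [len3 _ (range3 _ hf j)] at hp
  rw [rangeLen _ 1 (fun _ => rfl)] at hc
  rw [rangeLen _ 1 (fun _ => rfl), hs.r17] at hp
  have t9 : t.reg 9 = I.n + 1 + I.n * I.N := (ht.reg 9 (by decide) (by decide) (by decide)).trans h9
  have t12 : t.reg 12 = I.n + 1 + (I.n - 1) * I.N := (ht.reg 12 (by decide) (by decide) (by decide)).trans h12
  refine HT.recd ?_ (show t.reg 17 + 3 < 2 ^ w from ?_) ?_ ?_ (by decide)
  · intro e he
    simp only [List.mem_cons, List.not_mem_nil, or_false] at he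
    rcases he with rfl | rfl | rfl
    · exact ⟨by decide, by decide, by decide, trivial⟩
    · refine ⟨by decide, by decide, by decide, trivial, trivial, ?_⟩
      simp only [E.val, t12, t20]
      clear t21 hp hc h18 t9 t12
      omega
    · exact ⟨by decide, by decide, by decide, trivial⟩
  · rw [hp]
    clear t21 hp hc t9 t12 hn'
    omega
  · rw [hc]
    clear t21 hp hc t9 t12 hn'
    omega
  · intro u hu
    refine ⟨?_, ?_, ?_, trivial⟩
    · have e1 : I.n + 1 + (I.n - 1) * I.N + j = lv I.n I.N (I.n - 1) j := rfl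
      have e2 : I.n + 1 + I.n * I.N = lv I.n I.N I.n 0 := by
        unfold lv
        ring
      have h1 := hu.wk (F' := [20, 21]) (by simp)
      simp only [List.map_cons, List.map_nil, E.val, F.r1, t9, t12, t20, e1, e2] at h1
      exact h1
    · rw [hu.reg 20 (by decide) (by decide) (by decide)]
      exact t20
    · rw [hu.reg 21 (by decide) (by decide) (by decide)]
      exact t21

/-! ### The list -/

lemma list7i (I : CPInst) (i : ℕ) : g7i I i = (rules7i I.n I.N I.E i).map rc := by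
  unfold g7i rules7i
  rw [List.map_flatMap]
  refine congrArg (fun f => List.flatMap f (List.range (i + 1))) (funext fun a => ?_)
  rw [List.map_flatMap]
  unfold g7r
  rw [flatMap_range_getD I.E (0, 0) (fun e => [[lv I.n I.N (i + 1) e.1, lv I.n I.N a e.1, lv I.n I.N (i - a) e.2],
    [lv I.n I.N (i + 1) e.2, lv I.n I.N a e.2, lv I.n I.N (i - a) e.1]])]
  rfl

lemma list7 (I : CPInst) : (List.range I.N).flatMap (g1r I) ++
    ((List.range (I.n - 1)).flatMap (g7i I) ++ (List.range I.N).flatMap (g3r I)) =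
      (rules7 I.n I.N I.col I.E).map rc := by
  unfold rules7
  rw [List.map_append, List.map_append, List.map_map, List.map_map, List.map_flatMap]
  congr 1
  · unfold g1r
    rw [flatMap_one]
    refine List.map_congr_left fun v _ => ?_
    simp only [Function.comp, rc, lv]
    rw [Nat.zero_mul, Nat.add_zero]
  congr 1
  · exact congrArg (fun f => List.flatMap f (List.range (I.n - 1))) (funext fun i => list7i I i)
  · unfold g3r
    rw [flatMap_one]
    rfl

lemma len7 (I : CPInst) : (rules7 I.n I.N I.col I.E).length ≤ 2 * I.N + 2 * (I.n * (I.n * I.E.length)) := by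
  have h1 : ((rules7 I.n I.N I.col I.E).map rc).length = (rules7 I.n I.N I.col I.E).length := List.length_map _
  rw [← h1, ← list7, List.length_append, List.length_append, rangeLen (g1r I) 1 (fun _ => rfl),
    rangeLen (g3r I) 1 (fun _ => rfl)]
  have h2 := levLe I (J := I.n - 1) (by have := I.pos; omega)
  omega

/-- the time -/
def time (I : CPInst) : ℕ :=
  2 * (I.N * 60 + 10) + ((I.n - 1) * (I.n * (I.E.length * 100 + 40) + 40) + 10) + 200

lemma gen {I : CPInst} {w : ℕ} {mem : ℕ → ℕ} (hb : Big7 I w)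
    (hm : mem 0 = I.n ∧ mem 1 = I.N ∧ mem 2 = I.E.length ∧ (∀ v < I.N, mem (3 + v) = I.col v) ∧
      (∀ k < I.E.length, mem (3 + I.N + 2 * k) = (I.E.getD k (0, 0)).1) ∧
      (∀ k < I.E.length, mem (3 + I.N + 2 * k + 1) = (I.E.getD k (0, 0)).2)) :
    HT w g7 ⟨fun _ => 0, mem⟩ (time I) (fun t => t.reg 1 = I.n ∧ t.reg 2 = I.N + I.E.length ∧
      t.reg 15 = 3 + I.N + I.E.length + I.E.length ∧
      Wr t (t.reg 15) ([I.n, lv I.n I.N I.n 0 + 1, (rules7 I.n I.N I.col I.E).length, lv I.n I.N I.n 0] ++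
        (rules7 I.n I.N I.col I.E).flatMap rc)) := by
  have hb' := hb
  unfold Big7 at hb'
  have h1n := I.pos
  have k0 : 10 < 2 ^ w := by omega
  have k1 : 3 + I.N + I.E.length + I.E.length + 3 < 2 ^ w := by omega
  have k2 : I.n + 1 + I.n * I.N + 1 < 2 ^ w := by omega
  have k3 : I.n + 1 + I.N < 2 ^ w := by omega
  clear hb'
  have hnN : (I.n - 1) * I.N + I.N = I.n * I.N := by
    obtain ⟨k, hk⟩ : ∃ k, I.n = k + 1 := ⟨I.n - 1, by omega⟩
    rw [hk]
    simp only [Nat.add_sub_cancel]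
    ring
  unfold time
  refine (head (T := 2 * (I.N * 60 + 10) + ((I.n - 1) * (I.n * (I.E.length * 100 + 40) + 40) + 10) + 140) hb.big hm
    ?_).mono le_rfl (fun _ h => h)
  intro s F h18
  have h17 := F.r17
  have h15 := F.r15
  refine HT.seq (T1 := I.N * 60 + 10)
    (T2 := (I.N * 60 + 10) + ((I.n - 1) * (I.n * (I.E.length * 100 + 40) + 40) + 10) + 140)
    (loop1 hb.big F h18) ?_ (by omega)
  intro t ht
  have Ft := F.app ht (by decide) (range3 _ (by intro j l hl; simp only [g1r, List.mem_singleton] at hl; rw [hl]; rfl) _)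
  have t8 := Ft.r8
  have t3 := Ft.r3
  refine seqSet ((I.N * 60 + 10) + ((I.n - 1) * (I.n * (I.E.length * 100 + 40) + 40) + 10) + 130) (by decide) rfl
    (by decide) ⟨trivial, trivial, ?_⟩ ?_ (by simp only [E.size]; omega)
  · simp only [E.val, t8, t3]
    exact k3
  simp only [E.val, t8, t3]
  refine seqSet ((I.N * 60 + 10) + ((I.n - 1) * (I.n * (I.E.length * 100 + 40) + 40) + 10) + 120) (by decide) rfl
    (by decide) trivial ?_ (by simp only [E.size]; omega)
  have hv : (E.r 8).val (upd t 9 (I.n + 1 + I.N)) = I.n + 1 := by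
    simp only [E.val]
    rw [upd_ne _ _ (by decide), t8]
  rw [hv]
  have Fu : F5 I (upd (upd t 9 (I.n + 1 + I.N)) 12 (I.n + 1)) := (Ft.upd (by decide)).upd (by decide)
  have hu : App [9, 10, 11, 12, 20, 21, 22, 23, 24, 25, 26, 27, 28] s (upd (upd t 9 (I.n + 1 + I.N)) 12 (I.n + 1))
      ((List.range I.N).flatMap (g1r I)) :=
    ((ht.wk (F' := [9, 10, 11, 12, 20, 21, 22, 23, 24, 25, 26, 27, 28]) (by decide)).upd _ (by decide) (by decide)
      (by decide)).upd _ (by decide) (by decide) (by decide)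
  have u9 : (upd (upd t 9 (I.n + 1 + I.N)) 12 (I.n + 1)).reg 9 = I.n + 1 + I.N := by
    rw [upd_ne _ _ (by decide), upd_self]
  have u12 : (upd (upd t 9 (I.n + 1 + I.N)) 12 (I.n + 1)).reg 12 = I.n + 1 := upd_self _ _ _
  generalize upd (upd t 9 (I.n + 1 + I.N)) 12 (I.n + 1) = u at Fu hu u9 u12 ⊢
  have u18 : u.reg 18 = I.N := by
    rw [hu.cnt, h18, rangeLen _ 1 (fun _ => rfl)]
    omega
  refine HT.seq (T1 := (I.n - 1) * (I.n * (I.E.length * 100 + 40) + 40) + 10) (T2 := (I.N * 60 + 10) + 120)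
    (loopI hb Fu u18 u9 u12) ?_ (by omega)
  rintro v ⟨hv, v9, v12⟩
  have Fv := Fu.app hv (by decide) (range3 _ (g7i_3 I) _)
  rw [hnN] at v9
  have v18 : v.reg 18 ≤ I.N + 2 * (I.n * (I.n * I.E.length)) := by
    have h2 := levLe I (J := I.n - 1) (by omega)
    rw [hv.cnt, u18]
    omega
  refine HT.seq (T1 := I.N * 60 + 10) (T2 := 120) (loop3' hb Fv v18 v9 v12) ?_ (by omega)
  intro x hx
  have hfin : App [9, 10, 11, 12, 20, 21, 22, 23, 24, 25, 26, 27, 28] s x ((rules7 I.n I.N I.col I.E).map rc) := by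
    rw [← list7]
    exact hu.trans (hv.trans (hx.wk (by decide)))
  have x9 : x.reg 9 = I.n + 1 + I.n * I.N := (hx.reg 9 (by decide) (by decide) (by decide)).trans v9
  have x1 : x.reg 1 = I.n := (hfin.reg 1 (by decide) (by decide) (by decide)).trans F.r1
  have x2 : x.reg 2 = I.N + I.E.length := (hfin.reg 2 (by decide) (by decide) (by decide)).trans F.r2
  have x15 : x.reg 15 = 3 + I.N + I.E.length + I.E.length :=
    (hfin.reg 15 (by decide) (by decide) (by decide)).trans F.r15
  have x18 : x.reg 18 = (rules7 I.n I.N I.col I.E).length := by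
    rw [hfin.cnt, h18, List.length_map, Nat.zero_add]
  refine seqSto 110 rfl (by decide) trivial rfl (by decide) trivial ?_ (by decide)
  refine seqSto 100 rfl (by decide) ⟨trivial, lt_of_le_of_lt (by norm_num) k0, ?_⟩ rfl (by decide)
    ⟨trivial, lt_of_le_of_lt (by norm_num) k0, ?_⟩ ?_ (by decide)
  · simp only [E.val, updm_reg, x15]
    exact lt_of_le_of_lt (Nat.add_le_add_left (by norm_num) _) k1
  · simp only [E.val, updm_reg, x9]
    exact k2
  refine seqSto 90 rfl (by decide) ⟨trivial, lt_of_le_of_lt (by norm_num) k0, ?_⟩ rfl (by decide) trivial ?_ (by decide)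
  · simp only [E.val, updm_reg, x15]
    exact lt_of_le_of_lt (Nat.add_le_add_left (by norm_num) _) k1
  refine seqSto 80 rfl (by decide) ⟨trivial, lt_of_le_of_lt (by norm_num) k0, ?_⟩ rfl (by decide) trivial ?_ (by decide)
  · simp only [E.val, updm_reg, x15]
    exact k1
  refine HT.skip ⟨x1, x2, x15, ?_⟩
  simp only [E.val, updm_reg, x1, x9, x15, x18]
  have hl : lv I.n I.N I.n 0 = I.n + 1 + I.n * I.N := rfl
  rw [hl]
  refine wr (s := s) (by rw [h17, h18]; ring) fun i hi => ?_
  have h1 : ((rules7 I.n I.N I.col I.E).map rc).flatten = (rules7 I.n I.N I.col I.E).flatMap rc := rfl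
  rw [← h1] at hi ⊢
  exact hfin.new i hi

/-- all the words and the time are at most `B^12` -/
lemma arith {n N m : ℕ} (h1 : 1 ≤ n) :
    20 + 8 * N + 2 * m + 3 * (n * m) + n * N + 2 * n + 6 * (n * (n * m)) < (n + (N + m) + 2) ^ 12 ∧
    2 * (N * 60 + 10) + ((n - 1) * (n * (m * 100 + 40) + 40) + 10) + 200 ≤ (n + (N + m) + 2) ^ 12 ∧
    (n + 1 + n * N + 0 + 1) + (2 * N + 2 * (n * (n * m))) ≤ (n + (N + m) + 2) ^ 12 ∧
    4 + 3 * (2 * N + 2 * (n * (n * m))) ≤ (n + (N + m) + 2) ^ 12 := by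
  obtain ⟨B, hB⟩ : ∃ B, B = n + (N + m) + 2 := ⟨_, rfl⟩
  rw [← hB]
  have hB3 : 3 ≤ B := by omega
  have e1 : n * m ≤ B * B := Nat.mul_le_mul (by omega) (by omega)
  have e2 : n * N ≤ B * B := Nat.mul_le_mul (by omega) (by omega)
  have e0 : n * (n * m) ≤ B * (B * B) := Nat.mul_le_mul (by omega) e1
  have e8 : n * (m * 100 + 40) ≤ B * (B * 140) := Nat.mul_le_mul (by omega) (by omega)
  have e6 : 3 * B ≤ B * B := Nat.mul_le_mul_right _ hB3
  have e7 : B * (B * 140) = B * B * 140 := by ring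
  rw [e7] at e8
  have e3 : (n - 1) * (n * (m * 100 + 40) + 40) ≤ B * (B * B * 160) := Nat.mul_le_mul (by omega) (by omega)
  have e9 : 3 * (B * B) ≤ B * (B * B) := Nat.mul_le_mul_right _ hB3
  have e5 : B * (B * B) * 1000 ≤ B ^ 12 := by
    have h2 : 3 ^ 9 ≤ B ^ 9 := Nat.pow_le_pow_left hB3 9
    calc B * (B * B) * 1000 ≤ B * (B * B) * B ^ 9 := Nat.mul_le_mul_left _ (le_trans (by norm_num) h2)
      _ = B ^ 12 := by ring
  have e10 : B * (B * B * 160) = B * (B * B) * 160 := by ring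
  rw [e10] at e3
  refine ⟨?_, ?_, ?_, ?_⟩
  · omega
  · omega
  · omega
  · omega

end P7x

open P5x P7x in
/-- Row P7. -/
theorem p7 : P7 := by
  intro h hM
  have hpos : ∀ I : GMInst, 1 ≤ 2 ^ I.n := fun I => Nat.one_le_two_pow
  have hlen : ∀ I : GMInst, (rules7 I.n I.N I.col I.E).length ≤ 2 * I.N + 2 * (I.n * (I.n * I.E.length)) :=
    fun I => len7 (cp I)
  refine ⟨12, ⟨fun I => ?_, fun I => ?_, fun I => ?_, fun I v hv => ?_, fun I => hM h I, ?_⟩⟩
  · exact Nat.le_add_right _ _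
  · obtain ⟨-, -, a3, -⟩ := P7x.arith (n := GMInst.n I) (N := GMInst.N I) (m := (GMInst.E I).length) (GMInst.pos I)
    change (lv (GMInst.n I) (GMInst.N I) (GMInst.n I) 0 + 1) + (rules7 _ _ _ _).length ≤ _
    exact (Nat.add_le_add_left (hlen I) _).trans a3
  · obtain ⟨-, -, -, a4⟩ := P7x.arith (n := GMInst.n I) (N := GMInst.N I) (m := (GMInst.E I).length) (GMInst.pos I)
    change (_ ++ (rules7 (GMInst.n I) (GMInst.N I) (GMInst.col I) (GMInst.E I)).flatMap rc).length ≤ _
    rw [List.length_append, lenrc]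
    exact (Nat.add_le_add_left (Nat.mul_le_mul_left _ (hlen I)) _).trans a4
  · have h1 := hpos I
    obtain ⟨a1, -, a3, -⟩ := P7x.arith (n := GMInst.n I) (N := GMInst.N I) (m := (GMInst.E I).length) (GMInst.pos I)
    have h2 : (GMInst.n I + (GMInst.N I + (GMInst.E I).length) + 2) ^ 12 ≤
        (2 ^ GMInst.n I * (GMInst.n I + (GMInst.N I + (GMInst.E I).length) + 2)) ^ 12 :=
      Nat.pow_le_pow_left (Nat.le_mul_of_pos_left _ h1) 12
    refine lt_of_lt_of_le ?_ h2
    have hS : lv (GMInst.n I) (GMInst.N I) (GMInst.n I) 0 = GMInst.n I + 1 + GMInst.n I * GMInst.N I + 0 := rfl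
    change v ∈ ([GMInst.n I, lv (GMInst.n I) (GMInst.N I) (GMInst.n I) 0 + 1,
      (rules7 (GMInst.n I) (GMInst.N I) (GMInst.col I) (GMInst.E I)).length,
      lv (GMInst.n I) (GMInst.N I) (GMInst.n I) 0] ++
        (rules7 (GMInst.n I) (GMInst.N I) (GMInst.col I) (GMInst.E I)).flatMap rc) at hv
    rw [List.mem_append, List.mem_flatMap, hS] at hv
    have h3 := hlen I
    rcases hv with hv | ⟨t, ht, hv⟩
    · simp only [List.mem_cons, List.not_mem_nil, or_false] at hv
      rcases hv with rfl | rfl | rfl | rfl <;> omega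
    · have h5 := h _ _ _ _ (GMInst.pos I) (GMInst.col_lt I) (GMInst.lt I) t ht
      rw [hS] at h5
      simp only [rc, List.mem_cons, List.not_mem_nil, or_false] at hv
      rcases hv with rfl | rfl | rfl <;> omega
  · intro I w mem hw _ hm
    have h1 := hpos I
    obtain ⟨a1, a2, a3, -⟩ := P7x.arith (n := GMInst.n I) (N := GMInst.N I) (m := (GMInst.E I).length) (GMInst.pos I)
    have h2 : (GMInst.n I + (GMInst.N I + (GMInst.E I).length) + 2) ^ 12 ≤
        (2 ^ GMInst.n I * (GMInst.n I + (GMInst.N I + (GMInst.E I).length) + 2)) ^ 12 :=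
      Nat.pow_le_pow_left (Nat.le_mul_of_pos_left _ h1) 12
    refine (P7x.gen (I := cp I) (lt_of_lt_of_le a1 (h2.trans hw)) (init (cp I) mem hm)).mono a2 ?_
    rintro t ⟨t1, t2, t3, t4⟩
    refine ⟨t1, t2, ?_, t4⟩
    rw [t3]
    change 3 + GMInst.N I + (GMInst.E I).length + (GMInst.E I).length ≤
      (GMInst.n I + (GMInst.N I + (GMInst.E I).length) + 2) ^ 12
    omega

end SCM
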