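import Pool.Agent.Lib.SCM.Defs3

/-!
# `Mono` describes the multilinear monomials of the gates
-/

set_option autoImplicit false

namespace SCM

open SCR SCN MvPolynomial

namespace Polyx

/-- the monomial of a set -/
noncomputable def e (A : Finset ℕ) : ℕ →₀ ℕ := ∑ i ∈ A, Finsupp.single i 1

lemma e_apply (A : Finset ℕ) (a : ℕ) : e A a = if a ∈ A then 1 else 0 := by
  unfold e
  rw [Finsupp.finsetSum_apply]
  simp only [Finsupp.single_apply]
  rw [Finset.sum_ite_eq']

lemma e_inj {A B : Finset ℕ} (h : e A = e B) : A = B := by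
  ext a
  have h1 := DFunLike.congr_fun h a
  rw [e_apply, e_apply] at h1
  by_cases ha : a ∈ A <;> by_cases hb : a ∈ B <;> simp [ha, hb] at h1 ⊢

lemma e_union {B C : Finset ℕ} (h : Disjoint B C) : e B + e C = e (B ∪ C) := by
  unfold e
  rw [Finset.sum_union h]

lemma eq_e {u : ℕ →₀ ℕ} (h : ∀ a, u a ≤ 1) : u = e u.support := by
  ext a
  rw [e_apply]
  have h1 := h a
  by_cases ha : a ∈ u.support
  · rw [if_pos ha]
    have := Finsupp.mem_support_iff.1 ha
    omega
  · rw [if_neg ha]
    simpa using ha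

lemma split {A : Finset ℕ} {u v : ℕ →₀ ℕ} (h : u + v = e A) :
    ∃ B C : Finset ℕ, u = e B ∧ v = e C ∧ Disjoint B C ∧ B ∪ C = A := by
  have h1 : ∀ a, u a + v a ≤ 1 := fun a => by
    have h2 := DFunLike.congr_fun h a
    rw [Finsupp.add_apply, e_apply] at h2
    rw [h2]
    split_ifs <;> omega
  have hu := eq_e (u := u) fun a => by have := h1 a; omega
  have hv := eq_e (u := v) fun a => by have := h1 a; omega
  have hd : Disjoint u.support v.support := by
    rw [Finset.disjoint_left]
    intro a h3 h4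
    rw [Finsupp.mem_support_iff] at h3 h4
    have := h1 a
    omega
  refine ⟨u.support, v.support, hu, hv, hd, e_inj ?_⟩
  rw [← e_union hd, ← hu, ← hv, h]

lemma sum_ne_zero (l : List ℕ) : l.sum ≠ 0 ↔ ∃ a ∈ l, a ≠ 0 := by
  induction l with
  | nil => simp
  | cons b l ih =>
    rw [List.sum_cons]
    constructor
    · intro h
      by_cases hb : b = 0
      · obtain ⟨a, ha, h1⟩ := ih.1 (by omega)
        exact ⟨a, List.mem_cons_of_mem _ ha, h1⟩
      · exact ⟨b, List.mem_cons_self, hb⟩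
    · rintro ⟨a, ha, h1⟩
      rcases List.mem_cons.1 ha with rfl | ha
      · omega
      · have := ih.2 ⟨a, ha, h1⟩
        omega

lemma coeff_sum (m : ℕ →₀ ℕ) (l : List (MvPolynomial ℕ ℕ)) :
    coeff m l.sum = (l.map (coeff m)).sum := by
  induction l with
  | nil => simp
  | cons a l ih => rw [List.sum_cons, coeff_add, List.map_cons, List.sum_cons, ih]

lemma coeff_mul_ne {A : Finset ℕ} {p q : MvPolynomial ℕ ℕ} : coeff (e A) (p * q) ≠ 0 ↔
    ∃ B C : Finset ℕ, Disjoint B C ∧ B ∪ C = A ∧ coeff (e B) p ≠ 0 ∧ coeff (e C) q ≠ 0 := by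
  classical
  rw [coeff_mul]
  constructor
  · intro h
    obtain ⟨x, hx, h1⟩ := Finset.exists_ne_zero_of_sum_ne_zero h
    rw [Finset.HasAntidiagonal.mem_antidiagonal] at hx
    obtain ⟨B, C, hu, hv, hd, hA⟩ := split hx
    refine ⟨B, C, hd, hA, ?_, ?_⟩
    · rw [← hu]
      exact left_ne_zero_of_mul h1
    · rw [← hv]
      exact right_ne_zero_of_mul h1
  · rintro ⟨B, C, hd, rfl, hB, hC⟩ h
    have h1 := (Finset.sum_eq_zero_iff.1 h) (e B, e C) (Finset.HasAntidiagonal.mem_antidiagonal.2 (e_union hd))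
    rcases Nat.mul_eq_zero.1 h1 with h2 | h2
    · exact hB h2
    · exact hC h2

/-- inversion -/
lemma mono_iff {n : ℕ} {R : List (ℕ × ℕ × ℕ)} {q : ℕ} {A : Finset ℕ} : Mono n R q A ↔
    (q < n ∧ A = {q}) ∨ (q = n ∧ A = ∅) ∨ ∃ x y B C, (q, x, y) ∈ R ∧ Mono n R x B ∧ Mono n R y C ∧ Disjoint B C ∧
      B ∪ C = A := by
  constructor
  · intro h
    cases h with
    | var ha => exact Or.inl ⟨ha, rfl⟩
    | one => exact Or.inr (Or.inl ⟨rfl, rfl⟩)
    | mul hR hx hy hd => exact Or.inr (Or.inr ⟨_, _, _, _, hR, hx, hy, hd, rfl⟩)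
  · rintro (⟨h, rfl⟩ | ⟨rfl, rfl⟩ | ⟨x, y, B, C, hR, hx, hy, hd, rfl⟩)
    · exact .var h
    · exact .one
    · exact .mul hR hx hy hd

theorem main {n : ℕ} {R : List (ℕ × ℕ × ℕ)} (hR : ∀ t ∈ R, t.2.1 < t.1 ∧ t.2.2 < t.1) (q : ℕ) :
    ∀ A : Finset ℕ, coeff (e A) (gate n R q) ≠ 0 ↔ Mono n R q A := by
  induction q using Nat.strong_induction_on with
  | _ q ih =>
    intro A
    rw [gate, coeff_add, coeff_add, coeff_sum, mono_iff]
    have e1 : coeff (e A) (if q < n then X q else 0 : MvPolynomial ℕ ℕ) ≠ 0 ↔ q < n ∧ A = {q} := by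
      by_cases h : q < n
      · rw [if_pos h, coeff_X]
        have : (Finsupp.single q 1 : ℕ →₀ ℕ) = e {q} := by
          unfold e
          rw [Finset.sum_singleton]
        rw [this]
        constructor
        · intro h1
          refine ⟨h, ?_⟩
          by_contra h2
          exact h1 (if_neg fun h3 => h2 (e_inj h3).symm)
        · rintro ⟨-, rfl⟩
          rw [if_pos rfl]
          exact one_ne_zero
      · rw [if_neg h]
        simp [h]
    have e2 : coeff (e A) (if q = n then 1 else 0 : MvPolynomial ℕ ℕ) ≠ 0 ↔ q = n ∧ A = ∅ := by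
      by_cases h : q = n
      · rw [if_pos h, coeff_one]
        have : (0 : ℕ →₀ ℕ) = e ∅ := by
          unfold e
          rw [Finset.sum_empty]
        rw [this]
        constructor
        · intro h1
          refine ⟨h, ?_⟩
          by_contra h2
          exact h1 (if_neg fun h3 => h2 (e_inj h3).symm)
        · rintro ⟨-, rfl⟩
          rw [if_pos rfl]
          exact one_ne_zero
      · rw [if_neg h]
        simp [h]
    have e3 : (List.map (coeff (e A)) (List.map (fun t : ℕ × ℕ × ℕ =>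
        (if t.2.1 < q then gate n R t.2.1 else 0) * (if t.2.2 < q then gate n R t.2.2 else 0))
          (R.filter fun t => t.1 = q))).sum ≠ 0 ↔ ∃ x y B C, (q, x, y) ∈ R ∧ Mono n R x B ∧ Mono n R y C ∧
            Disjoint B C ∧ B ∪ C = A := by
      rw [sum_ne_zero]
      constructor
      · rintro ⟨a, ha, h1⟩
        rw [List.mem_map] at ha
        obtain ⟨p, hp, rfl⟩ := ha
        rw [List.mem_map] at hp
        obtain ⟨t, ht, rfl⟩ := hp
        rw [List.mem_filter] at ht
        obtain ⟨ht, htq⟩ := ht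
        have htq' : t.1 = q := by simpa using htq
        obtain ⟨h2, h3⟩ := hR t ht
        rw [htq'] at h2 h3
        rw [if_pos h2, if_pos h3] at h1
        obtain ⟨B, C, hd, hu, hB, hC⟩ := coeff_mul_ne.1 h1
        refine ⟨t.2.1, t.2.2, B, C, ?_, (ih _ h2 B).1 hB, (ih _ h3 C).1 hC, hd, hu⟩
        rw [← htq']
        exact ht
      · rintro ⟨x, y, B, C, ht, hx, hy, hd, hu⟩
        obtain ⟨h2, h3⟩ := hR _ ht
        refine ⟨coeff (e A) (gate n R x * gate n R y), ?_, coeff_mul_ne.2 ⟨B, C, hd, hu, (ih _ h2 B).2 hx, (ih _ h3 C).2 hy⟩⟩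
        rw [List.mem_map]
        refine ⟨_, List.mem_map.2 ⟨(q, x, y), List.mem_filter.2 ⟨ht, by simp⟩, rfl⟩, ?_⟩
        simp only [if_pos h2, if_pos h3]
    constructor
    · intro h
      by_cases h1 : coeff (e A) (if q < n then X q else 0 : MvPolynomial ℕ ℕ) = 0
      · by_cases h2 : coeff (e A) (if q = n then 1 else 0 : MvPolynomial ℕ ℕ) = 0
        · exact Or.inr (Or.inr (e3.1 (by omega)))
        · exact Or.inr (Or.inl (e2.1 h2))
      · exact Or.inl (e1.1 h1)
    · rintro (h | h | h)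
      · have := e1.2 h
        omega
      · have := e2.2 h
        omega
      · have := e3.2 h
        omega

end Polyx

theorem circuitMonomial_yes (I : MMInst) : CircuitMonomial.yes I ↔ FullMonomial.yes I :=
  Polyx.main (fun t ht => (I.hR t ht).2) I.o (Finset.range I.n)

theorem fastP_iff (β : ℝ) : FastL β CircuitMonomial ↔ FastL β FullMonomial := by
  have hp : ∀ I : MMInst, CircuitMonomial.yes I = FullMonomial.yes I := fun I => propext (circuitMonomial_yes I)
  constructor
  · rintro ⟨P, C, h⟩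
    refine ⟨P, C, fun I => ?_⟩
    rw [← hp I]
    exact h I
  · rintro ⟨P, C, h⟩
    refine ⟨P, C, fun I => ?_⟩
    rw [hp I]
    exact h I

theorem baseP : baseL CircuitMonomial = baseL FullMonomial := by
  unfold baseL
  simp only [fastP_iff]

end SCM
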