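import Pool.Agent.Lib.SCM.Main
import Pool.Agent.Lib.SCM.F2
import Pool.Agent.Lib.SCM.OK2
import Pool.Agent.Lib.SCM.M6
import Pool.Agent.Lib.SCM.M7
import Pool.Agent.Lib.SCM.P6
import Pool.Agent.Lib.SCM.P7
import Pool.Agent.Lib.SCM.G5
import Pool.Agent.Lib.SCM.Poly

/-!
# The completeness theorem with Graph Motif
-/

set_option autoImplicit false

namespace SCM

open SCR SCN

theorem completeness2 : Completeness2 :=
  completeness2Of powSet completeness cover_mm ok6 ok7 m6 m7 p6 p7 g5t t12

theorem completeness3 : baseL SteinerTree = base Coverable ∧ baseL GraphMotif = base Coverable ∧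
    baseL ColourfulPath = base Coverable ∧ baseL CircuitMonomial = base Coverable ∧
    baseL SetCoverNK = base Coverable := by
  obtain ⟨h1, h2, h3, h4, h5⟩ := completeness2
  exact ⟨h1, h2, h3, baseP.trans h4, h5⟩

end SCM
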