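import Pool.Agent.Lib.SCM.Defs
import Pool.Agent.Lib.SCN.Prog

/-!
# The mathematical rows
-/

namespace SCM

open SCR SCN

/-- `x ∈ A`, for a natural number `x` -/
def inn {n : ℕ} (A : Finset (Fin n)) (x : ℕ) : Prop := ∃ h : x < n, (⟨x, h⟩ : Fin n) ∈ A

/-- member number `i` of the list -/
def nth {n : ℕ} (L : List (Finset (Fin n))) (i : ℕ) : Finset (Fin n) := L.getD i ∅

/-! ### R1: Set Cover → Steiner Tree.
Vertices: the elements `0, …, n-1`, the root `n`, the sets `n + 1 + i`. -/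

open Classical in
noncomputable def edges1 {n : ℕ} (L : List (Finset (Fin n))) : List (ℕ × ℕ) :=
  (List.range L.length).flatMap fun i => (n, n + 1 + i) ::
    ((List.range n).flatMap fun x => if inn (nth L i) x then [(x, n + 1 + i)] else [])

/-- the bounds for the instance -/
def Ok1 : Prop := ∀ (n : ℕ) (L : List (Finset (Fin n))), ∀ e ∈ edges1 L,
  e.1 < n + 1 + L.length ∧ e.2 < n + 1 + L.length

noncomputable def f1 (h : Ok1) (I : (setProblem Coverable).Inst) : SteinerTree.Inst where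
  n := I.n + 1
  N := I.n + 1 + I.L.length
  j := I.n + (I.k - (I.k - I.n))
  E := edges1 I.L
  pos := Nat.succ_le_succ (Nat.zero_le _)
  le := Nat.le_add_right _ _
  lt := h I.n I.L

/-- M1 -/
def M1 : Prop := ∀ (h : Ok1) (I : (setProblem Coverable).Inst),
  SteinerTree.yes (f1 h I) ↔ (setProblem Coverable).yes I

/-- SPLIT: a set of edges is split at one of its edges (used for M1 and M2) -/
def Split : Prop := ∀ (F : Finset (ℕ × ℕ)) (v w : ℕ), ((v, w) ∈ F ∨ (w, v) ∈ F) →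
  ∃ FA FB : Finset (ℕ × ℕ), FA ⊆ F ∧ FB ⊆ F ∧ FA.card + FB.card + 1 ≤ F.card ∧
    ∀ t, Relation.EqvGen (fun a b => (a, b) ∈ F) v t →
      Relation.EqvGen (fun a b => (a, b) ∈ FA) v t ∨ Relation.EqvGen (fun a b => (a, b) ∈ FB) w t

/-- SPLIT0: no edge at `v` -/
def Split0 : Prop := ∀ (F : Finset (ℕ × ℕ)) (v : ℕ), (∀ w, (v, w) ∉ F ∧ (w, v) ∉ F) →
  ∀ t, Relation.EqvGen (fun a b => (a, b) ∈ F) v t → t = v

/-! ### R2: Steiner Tree → Full Monomial.
Gate `lv n N i v` stands for the vertex `v` and `i` edges. -/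

def lv (n N i v : ℕ) : ℕ := n + 1 + i * N + v

/-- the part of level `i + 1` -/
def rules2i (n N : ℕ) (E : List (ℕ × ℕ)) (i : ℕ) : List (ℕ × ℕ × ℕ) :=
  (List.range N).map (fun v => (lv n N (i + 1) v, lv n N i v, n)) ++
  (E.flatMap (fun e => [(lv n N (i + 1) e.1, lv n N i e.2, lv n N 0 e.1),
    (lv n N (i + 1) e.2, lv n N i e.1, lv n N 0 e.2)]) ++
  (List.range i).flatMap fun a => (List.range N).map fun v =>
    (lv n N (i + 1) v, lv n N (a + 1) v, lv n N (i - a) v))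

def rules2 (n N J : ℕ) (E : List (ℕ × ℕ)) : List (ℕ × ℕ × ℕ) :=
  (List.range n).map (fun v => (lv n N 0 v, v, n)) ++
  ((List.range N).map (fun v => (lv n N 0 v, n, n)) ++
  (List.range J).flatMap (rules2i n N E))

def Ok2 : Prop := ∀ (n N J : ℕ) (E : List (ℕ × ℕ)), n ≤ N → (∀ e ∈ E, e.1 < N ∧ e.2 < N) →
  ∀ t ∈ rules2 n N J E, t.1 < lv n N (J + 1) 0 ∧ t.2.1 < t.1 ∧ t.2.2 < t.1

/-- `min j |E|` -/
def bud (I : STInst) : ℕ := I.j - (I.j - I.E.length)

def f2 (h : Ok2) (I : SteinerTree.Inst) : FullMonomial.Inst where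
  n := STInst.n I
  S := lv (STInst.n I) (STInst.N I) (bud I + 1) 0
  o := lv (STInst.n I) (STInst.N I) (bud I) 0
  R := rules2 (STInst.n I) (STInst.N I) (bud I) (STInst.E I)
  hn := by unfold lv; omega
  ho := by
    have h1 := STInst.pos I
    have h2 := STInst.le I
    unfold lv
    rw [Nat.succ_mul]
    omega
  hR := h _ _ _ _ (STInst.le I) (STInst.lt I)

/-- M2 -/
def M2 : Prop := ∀ (h : Ok2) (I : SteinerTree.Inst), FullMonomial.yes (f2 h I) ↔ SteinerTree.yes I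

/-! ### R5: Colourful Path → Full Monomial.
Gate `lv n N i v`: paths of `i` edges which end in `v`. -/

def rules5 (n N : ℕ) (col : ℕ → ℕ) (E : List (ℕ × ℕ)) : List (ℕ × ℕ × ℕ) :=
  (List.range N).map (fun v => (lv n N 0 v, col v, n)) ++
  ((List.range (n - 1)).flatMap (fun i => E.map fun e => (lv n N (i + 1) e.2, lv n N i e.1, lv n N 0 e.2)) ++
  (List.range N).map (fun v => (lv n N n 0, lv n N (n - 1) v, n)))

def Ok5 : Prop := ∀ (n N : ℕ) (col : ℕ → ℕ) (E : List (ℕ × ℕ)), 1 ≤ n → (∀ v < N, col v < n) →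
  (∀ e ∈ E, e.1 < N ∧ e.2 < N) →
  ∀ t ∈ rules5 n N col E, t.1 < lv n N n 0 + 1 ∧ t.2.1 < t.1 ∧ t.2.2 < t.1

def f5 (h : Ok5) (I : ColourfulPath.Inst) : FullMonomial.Inst where
  n := CPInst.n I
  S := lv (CPInst.n I) (CPInst.N I) (CPInst.n I) 0 + 1
  o := lv (CPInst.n I) (CPInst.N I) (CPInst.n I) 0
  R := rules5 (CPInst.n I) (CPInst.N I) (CPInst.col I) (CPInst.E I)
  hn := by unfold lv; omega
  ho := Nat.lt_succ_self _
  hR := h _ _ _ _ (CPInst.pos I) (CPInst.col_lt I) (CPInst.lt I)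

/-- M5 -/
def M5 : Prop := ∀ (h : Ok5) (I : ColourfulPath.Inst), FullMonomial.yes (f5 h I) ↔ ColourfulPath.yes I

/-! ### R4: Exact Cover → Colourful Path.
Vertices: `i * n + x` (set number `i`, element `x`), the start `m * n`, the end `m * n + 1`. -/

def mn {n : ℕ} (A : Finset (Fin n)) (x : ℕ) : Prop := ∀ z < x, ¬ inn A z

def mx {n : ℕ} (A : Finset (Fin n)) (x : ℕ) : Prop := ∀ z, x < z → ¬ inn A z

def nx {n : ℕ} (A : Finset (Fin n)) (x y : ℕ) : Prop := x < y ∧ ∀ z, x < z → z < y → ¬ inn A z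

open Classical in
/-- the edges which leave `(i, x)` -/
noncomputable def edges4x {n : ℕ} (L : List (Finset (Fin n))) (i x : ℕ) : List (ℕ × ℕ) :=
  if inn (nth L i) x then
    (if mn (nth L i) x then [(L.length * n, i * n + x)] else []) ++
    ((if mx (nth L i) x then [(i * n + x, L.length * n + 1)] else []) ++
    (List.range L.length).flatMap fun i' => (List.range n).flatMap fun y =>
      if inn (nth L i') y ∧ ((mx (nth L i) x ∧ mn (nth L i') y) ∨ (i = i' ∧ nx (nth L i) x y)) then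
        [(i * n + x, i' * n + y)] else [])
  else []

noncomputable def edges4 {n : ℕ} (L : List (Finset (Fin n))) : List (ℕ × ℕ) :=
  (L.length * n, L.length * n + 1) ::
    (List.range L.length).flatMap fun i => (List.range n).flatMap fun x => edges4x L i x

/-- the colours -/
def col4 (n m v : ℕ) : ℕ := if v < m * n then v % n else if v = m * n then n else n + 1

def Ok4 : Prop := ∀ (n : ℕ) (L : List (Finset (Fin n))),
  (∀ v < L.length * n + 2, col4 n L.length v < n + 2) ∧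
  ∀ e ∈ edges4 L, e.1 < L.length * n + 2 ∧ e.2 < L.length * n + 2

noncomputable def f4 (h : Ok4) (I : (setProblem Exact).Inst) : ColourfulPath.Inst where
  n := SetInst.n I + 2
  N := (SetInst.L I).length * SetInst.n I + 2
  col := col4 (SetInst.n I) (SetInst.L I).length
  E := edges4 (SetInst.L I)
  pos := Nat.succ_le_succ (Nat.zero_le _)
  col_lt := (h _ _).1
  lt := (h _ _).2

/-- M4 -/
def M4 : Prop := ∀ (h : Ok4) (I : (setProblem Exact).Inst), ColourfulPath.yes (f4 h I) ↔ (setProblem Exact).yes I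

/-! ### R3: Full Monomial → Exact Cover -/

/-- Derivations with holes: the hole `j < K` is the letter `n + j`, and the gate `q j` derives it. -/
inductive MonoH (n K : ℕ) (q : ℕ → ℕ) (R : List (ℕ × ℕ × ℕ)) : ℕ → Finset ℕ → Prop
  | var {a : ℕ} : a < n → MonoH n K q R a {a}
  | one : MonoH n K q R n ∅
  | hole {j : ℕ} : j < K → MonoH n K q R (q j) {n + j}
  | mul {z x y : ℕ} {A B : Finset ℕ} : (z, x, y) ∈ R → MonoH n K q R x A → MonoH n K q R y B → Disjoint A B →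
      MonoH n K q R z (A ∪ B)

/-- the gate of piece `i` -/
def sym (K o : ℕ) (q : ℕ → ℕ) (i : ℕ) : ℕ := if i = K then o else q i

/-- The pieces: piece `i ≤ K` is a set of letters `< n + i`. -/
structure Pieces (n K o s : ℕ) (q : ℕ → ℕ) (R : List (ℕ × ℕ × ℕ)) (Y : ℕ → Finset ℕ) : Prop where
  lt : ∀ i ≤ K, ∀ x ∈ Y i, x < n + i
  card : ∀ i ≤ K, (Y i).card ≤ s
  mono : ∀ i ≤ K, MonoH n K q R (sym K o q i) (Y i)
  disj : ∀ i ≤ K, ∀ i' ≤ K, i ≠ i' → Disjoint (Y i) (Y i')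
  cover : ∀ x < n + K, ∃ i ≤ K, x ∈ Y i

/-- Q1 (cutting) -/
def Q1 : Prop := ∀ (n S o K s : ℕ) (R : List (ℕ × ℕ × ℕ)), n < S → o < S →
  (∀ t ∈ R, t.1 < S ∧ t.2.1 < t.1 ∧ t.2.2 < t.1) → 1 ≤ s → 2 * n ≤ K * s → Mono n R o (Finset.range n) →
  ∃ (q : ℕ → ℕ) (Y : ℕ → Finset ℕ), (∀ j < K, q j < S) ∧ Pieces n K o (s + K) q R Y

/-- Q2 (composition) -/
def Q2 : Prop := ∀ (n K o s : ℕ) (q : ℕ → ℕ) (R : List (ℕ × ℕ × ℕ)) (Y : ℕ → Finset ℕ),
  Pieces n K o s q R Y → Mono n R o (Finset.range n)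

/-- a set of `Fin n` as a set of natural numbers -/
def toN {n : ℕ} (Y : Finset (Fin n)) : Finset ℕ := Y.map Fin.valEmbedding

open Classical in
/-- the sets of piece `i`, with marker `n + K + i` -/
noncomputable def pieceL (n K o s : ℕ) (R : List (ℕ × ℕ × ℕ)) (q : ℕ → ℕ) (i : ℕ) :
    List (Finset (Fin (n + K + (K + 1)))) :=
  ((smallL (n + K) s).filter fun Y => mask Y < 2 ^ (n + i) ∧ MonoH n K q R (sym K o q i) (toN Y)).map
    (lift (K + 1) i)

/-- the instance of Exact Cover for the guess `q`, pieces `< i` -/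
noncomputable def instE (n K o s : ℕ) (R : List (ℕ × ℕ × ℕ)) (q : ℕ → ℕ) (i : ℕ) :
    List (Finset (Fin (n + K + (K + 1)))) :=
  (List.range i).flatMap (pieceL n K o s R q)

/-- Q3 (the instance) -/
def Q3 : Prop := ∀ (n K o s : ℕ) (R : List (ℕ × ℕ × ℕ)) (q : ℕ → ℕ),
  (instE n K o s R q (K + 1)).Nodup ∧
  (instE n K o s R q (K + 1)).length ≤ (K + 1) * (smallL (n + K) s).length ∧
  (Exact (n + K + (K + 1)) 0 (instE n K o s R q (K + 1)) ↔ ∃ Y, Pieces n K o s q R Y)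

end SCM
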