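import Pool.Agent.Lib.SCM.Gen
import Pool.Agent.Lib.SCM.Pure

/-!
# The programs and the machine rows
-/

namespace SCM

open SCR SCN

/-- a sequence of commands -/
def blk : List Stmt → Stmt
  | [] => .skip
  | p :: l => Stmt.seq p (blk l)

/-! ## The four reductions with one call
Registers: 1 `n`, 2 size, 15 address of the new instance, 17 pointer, 18 number of records. -/

/-- Set Cover → Steiner Tree -/
def g1 : Stmt := blk [
  set 1 (.ld (.c 0)), set 2 (.ld (.c 1)), set 3 (.ld (.c 2)),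
  set 15 (.add (.c 3) (.r 2)), set 17 (.add (.r 15) (.c 4)), set 18 (.c 0),
  forr 20 21 (.r 2) (blk [
    set 22 (.add (.add (.r 1) (.c 1)) (.r 20)),
    set 23 (.ld (.add (.c 3) (.r 20))),
    recd [.r 1, .r 22],
    set 24 (.c 1),
    forr 25 26 (.r 1) (blk [
      cond (.and (.r 23) (.r 24)) (recd [.r 25, .r 22]) .skip,
      set 24 (.add (.r 24) (.r 24))])]),
  sto (.r 15) (.add (.r 1) (.c 1)),
  sto (.add (.r 15) (.c 1)) (.add (.add (.r 1) (.c 1)) (.r 2)),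
  sto (.add (.r 15) (.c 2)) (.r 18),
  sto (.add (.r 15) (.c 3)) (.add (.r 1) (.sub (.r 3) (.sub (.r 3) (.r 1))))]

/-- Steiner Tree → Full Monomial; 3 `N`, 5 `|E|`, 6 `j`, 7 `min j |E|`, 8 `n + 1`, 9 and 10: levels `i + 1` and `i` -/
def g2 : Stmt := blk [
  set 1 (.ld (.c 0)), set 3 (.ld (.c 1)), set 5 (.ld (.c 2)), set 6 (.ld (.c 3)),
  set 2 (.add (.r 3) (.r 5)), set 7 (.sub (.r 6) (.sub (.r 6) (.r 5))),
  set 15 (.add (.add (.c 4) (.r 5)) (.r 5)), set 17 (.add (.r 15) (.c 4)), set 18 (.c 0),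
  set 8 (.add (.r 1) (.c 1)),
  forr 20 21 (.r 1) (recd [.add (.r 8) (.r 20), .r 20, .r 1]),
  forr 20 21 (.r 3) (recd [.add (.r 8) (.r 20), .r 1, .r 1]),
  set 9 (.add (.r 8) (.r 3)), set 10 (.r 8),
  forr 20 21 (.r 7) (blk [
    forr 22 23 (.r 3) (recd [.add (.r 9) (.r 22), .add (.r 10) (.r 22), .r 1]),
    set 24 (.c 4),
    forr 22 23 (.r 5) (blk [
      set 25 (.ld (.r 24)), set 26 (.ld (.add (.r 24) (.c 1))),
      recd [.add (.r 9) (.r 25), .add (.r 10) (.r 26), .add (.r 8) (.r 25)],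
      recd [.add (.r 9) (.r 26), .add (.r 10) (.r 25), .add (.r 8) (.r 26)],
      set 24 (.add (.r 24) (.c 2))]),
    set 27 (.add (.r 8) (.r 3)), set 28 (.r 10),
    forr 22 23 (.r 20) (blk [
      forr 29 30 (.r 3) (recd [.add (.r 9) (.r 29), .add (.r 27) (.r 29), .add (.r 28) (.r 29)]),
      set 27 (.add (.r 27) (.r 3)), set 28 (.sub (.r 28) (.r 3))]),
    set 10 (.r 9), set 9 (.add (.r 9) (.r 3))]),
  sto (.r 15) (.r 1), sto (.add (.r 15) (.c 1)) (.r 9), sto (.add (.r 15) (.c 2)) (.r 18),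
  sto (.add (.r 15) (.c 3)) (.r 10)]

/-- Colourful Path → Full Monomial -/
def g5 : Stmt := blk [
  set 1 (.ld (.c 0)), set 3 (.ld (.c 1)), set 5 (.ld (.c 2)), set 2 (.add (.r 3) (.r 5)),
  set 15 (.add (.add (.add (.c 3) (.r 3)) (.r 5)) (.r 5)), set 17 (.add (.r 15) (.c 4)), set 18 (.c 0),
  set 8 (.add (.r 1) (.c 1)),
  forr 20 21 (.r 3) (blk [set 22 (.ld (.add (.c 3) (.r 20))), recd [.add (.r 8) (.r 20), .r 22, .r 1]]),
  set 9 (.add (.r 8) (.r 3)), set 10 (.r 8),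
  forr 20 21 (.sub (.r 1) (.c 1)) (blk [
    set 24 (.add (.c 3) (.r 3)),
    forr 22 23 (.r 5) (blk [
      set 25 (.ld (.r 24)), set 26 (.ld (.add (.r 24) (.c 1))),
      recd [.add (.r 9) (.r 26), .add (.r 10) (.r 25), .add (.r 8) (.r 26)],
      set 24 (.add (.r 24) (.c 2))]),
    set 10 (.r 9), set 9 (.add (.r 9) (.r 3))]),
  forr 20 21 (.r 3) (recd [.r 9, .add (.r 10) (.r 20), .r 1]),
  sto (.r 15) (.r 1), sto (.add (.r 15) (.c 1)) (.add (.r 9) (.c 1)), sto (.add (.r 15) (.c 2)) (.r 18),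
  sto (.add (.r 15) (.c 3)) (.r 9)]

/-- the inner part of `g4`: the edges `(i, x) → (i', y)`; 9 and 10: word of `A_i` and `2^x`, 12 and 13: word of
`A_i'` and `2^y`, 20 `i`, 22 `x`, 24 vertex `(i, x)`, 25 `i'`, 27 `y`, 11 `i' n` -/
def g4in : Stmt := forr 25 26 (.r 2) (blk [
  set 12 (.ld (.add (.c 3) (.r 25))), set 13 (.c 1),
  forr 27 28 (.r 1) (blk [
    cond (.and (.r 12) (.r 13)) (
      cond (.add (.sub (.r 9) (.sub (.add (.r 10) (.r 10)) (.c 1))) (.and (.r 12) (.sub (.r 13) (.c 1))))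
        (cond (.add (.add (.sub (.r 20) (.r 25)) (.sub (.r 25) (.r 20)))
            (.add (.sub (.add (.r 22) (.c 1)) (.r 27)) (.and (.r 9) (.sub (.r 13) (.add (.r 10) (.r 10))))))
          .skip (recd [.r 24, .add (.r 11) (.r 27)]))
        (recd [.r 24, .add (.r 11) (.r 27)])) .skip,
    set 13 (.add (.r 13) (.r 13))]),
  set 11 (.add (.r 11) (.r 1))])

/-- Exact Cover → Colourful Path; 5 number of vertices, 6 and 7: start and end, 8 `i n` -/
def g4 : Stmt := blk [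
  set 1 (.ld (.c 0)), set 2 (.ld (.c 1)),
  set 15 (.add (.c 3) (.r 2)), set 17 (.add (.r 15) (.c 3)), set 18 (.c 0),
  forr 20 21 (.r 2) (forr 22 23 (.r 1) (recd [.r 22])),
  set 6 (.r 18), recd [.r 1], recd [.add (.r 1) (.c 1)], set 5 (.r 18), set 7 (.add (.r 6) (.c 1)), set 18 (.c 0),
  recd [.r 6, .r 7], set 8 (.c 0),
  forr 20 21 (.r 2) (blk [
    set 9 (.ld (.add (.c 3) (.r 20))), set 10 (.c 1),
    forr 22 23 (.r 1) (blk [
      cond (.and (.r 9) (.r 10)) (blk [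
        set 24 (.add (.r 8) (.r 22)),
        cond (.and (.r 9) (.sub (.r 10) (.c 1))) .skip (recd [.r 6, .r 24]),
        cond (.sub (.r 9) (.sub (.add (.r 10) (.r 10)) (.c 1))) .skip (recd [.r 24, .r 7]),
        set 11 (.c 0), g4in]) .skip,
      set 10 (.add (.r 10) (.r 10))]),
    set 8 (.add (.r 8) (.r 1))]),
  sto (.r 15) (.add (.r 1) (.c 2)), sto (.add (.r 15) (.c 1)) (.r 5), sto (.add (.r 15) (.c 2)) (.r 18)]

/-- P1 -/
def P1 : Prop := ∀ h : Ok1, M1 → ∃ c, Red (setProblem Coverable) SteinerTree g1 c (f1 h)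

/-- P2 -/
def P2 : Prop := ∀ h : Ok2, M2 → ∃ c, Red SteinerTree FullMonomial g2 c (f2 h)

/-- P4 -/
def P4 : Prop := ∀ h : Ok4, M4 → ∃ c, Red (setProblem Exact) ColourfulPath g4 c (f4 h)

/-- P5 -/
def P5 : Prop := ∀ h : Ok5, M5 → ∃ c, Red ColourfulPath FullMonomial g5 c (f5 h)

/-! ## Full Monomial → Exact Cover
Registers: 1 `n`, 2 size, 3 number of rules, 4 the constant 1, 5 `o`, 6 `S`, 7 `n + K`, 8 `2^(n+K)`, 9 `S - 1`,
10 `2^n`, 11 bound for the small sets, 12 address of the list of the small sets, 13 of the list of their sizes,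
14 of the list of the addresses of the rows of the table, 15 of the region of the subroutine, 16 `2^w' - 1`,
17 pointer, 18 count, 19 number of small sets, 20 - 39 temporary, `50, …, 50 + K - 1` the guess. -/

/-- the bound for the number of letters of a piece -/
def sz (n K : ℕ) : ℕ := (2 * n + K - 1) / K + 1

/-- the small sets -/
def sm (K : ℕ) (I : MMInst) : List (Finset (Fin (I.n + K))) := smallL (I.n + K) (sz I.n K + K)

def LB (I : MMInst) : ℕ := 4 + 3 * I.R.length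

def RB (K : ℕ) (I : MMInst) : ℕ := LB I + 2 * 2 ^ (I.n + K)

/-- address of row `x` of the table -/
def TA (K : ℕ) (I : MMInst) (x : ℕ) : ℕ := RB K I + I.S + x * 2 ^ (I.n + K)

/-- word length of the subroutine -/
def wi (D : ℕ) (I : MMInst) : ℕ := wl D I.n (I.S + I.R.length)

/-- the numbers that occur are words -/
structure Fits3 (w K D : ℕ) (I : MMInst) : Prop where
  addr : TA K I (I.S + 1) + 2 ^ wi D I + 10 < 2 ^ w
  big : 2 ^ (I.n + K + (K + 2)) < 2 ^ w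
  region : 4 + (K + 1) * 2 ^ (I.n + K) ≤ 2 ^ wi D I
  colour : I.n + K + (K + 2) ≤ wi D I
  dw : D < 2 ^ w
  nm : 2 * (I.n + (I.S + I.R.length) + 2) < 2 ^ w
  lt : wi D I < w

structure Env3 (K D : ℕ) (I : MMInst) (x : Data) : Prop where
  r1 : x.reg 1 = I.n
  r3 : x.reg 3 = I.R.length
  r4 : x.reg 4 = 1
  r5 : x.reg 5 = I.o
  r6 : x.reg 6 = I.S
  r7 : x.reg 7 = I.n + K
  r8 : x.reg 8 = 2 ^ (I.n + K)
  r9 : x.reg 9 = I.S - 1
  r10 : x.reg 10 = 2 ^ I.n
  r11 : x.reg 11 = sz I.n K + K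
  r12 : x.reg 12 = LB I
  r13 : x.reg 13 = LB I + 2 ^ (I.n + K)
  r14 : x.reg 14 = RB K I
  r15 : x.reg 15 = TA K I I.S
  r16 : x.reg 16 = 2 ^ wi D I - 1
  inp : ∀ t < I.R.length, x.mem (4 + 3 * t) = (I.R.getD t (0, 0, 0)).1 ∧
    x.mem (4 + 3 * t + 1) = (I.R.getD t (0, 0, 0)).2.1 ∧ x.mem (4 + 3 * t + 2) = (I.R.getD t (0, 0, 0)).2.2
  row : ∀ z < I.S, x.mem (RB K I + z) = TA K I z

/-- the list of the small sets -/
structure EL3 (K : ℕ) (I : MMInst) (x : Data) : Prop where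
  r19 : x.reg 19 = (sm K I).length
  word : ∀ p < (sm K I).length, x.mem (LB I + p) = mask ((sm K I).getD p ∅)

open Classical in
/-- the table -/
def Tab (K : ℕ) (I : MMInst) (V : ℕ → Finset ℕ → Prop) (x : Data) : Prop :=
  ∀ z < I.S, ∀ Y ∈ sm K I, x.mem (TA K I z + mask Y) = if V z (toN Y) then 1 else 0

/-- what stays the same -/
structure Fr (K : ℕ) (I : MMInst) (s t : Data) : Prop where
  reg : ∀ r, r < 17 ∨ r = 19 ∨ 50 ≤ r → t.reg r = s.reg r
  mem : ∀ a < TA K I 0, t.mem a = s.mem a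

lemma Fr.refl (K : ℕ) (I : MMInst) (s : Data) : Fr K I s s := ⟨fun _ _ => rfl, fun _ _ => rfl⟩

lemma Fr.trans {K : ℕ} {I : MMInst} {s t u : Data} (h : Fr K I s t) (h' : Fr K I t u) : Fr K I s u :=
  ⟨fun r hr => (h'.reg r hr).trans (h.reg r hr), fun a ha => (h'.mem a ha).trans (h.mem a ha)⟩

lemma Env3.fr {K D : ℕ} {I : MMInst} {s t : Data} (h : Env3 K D I s) (h' : Fr K I s t) : Env3 K D I t where
  r1 := (h'.reg 1 (by omega)).trans h.r1
  r3 := (h'.reg 3 (by omega)).trans h.r3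
  r4 := (h'.reg 4 (by omega)).trans h.r4
  r5 := (h'.reg 5 (by omega)).trans h.r5
  r6 := (h'.reg 6 (by omega)).trans h.r6
  r7 := (h'.reg 7 (by omega)).trans h.r7
  r8 := (h'.reg 8 (by omega)).trans h.r8
  r9 := (h'.reg 9 (by omega)).trans h.r9
  r10 := (h'.reg 10 (by omega)).trans h.r10
  r11 := (h'.reg 11 (by omega)).trans h.r11
  r12 := (h'.reg 12 (by omega)).trans h.r12
  r13 := (h'.reg 13 (by omega)).trans h.r13
  r14 := (h'.reg 14 (by omega)).trans h.r14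
  r15 := (h'.reg 15 (by omega)).trans h.r15
  r16 := (h'.reg 16 (by omega)).trans h.r16
  inp := fun t ht => by
    have h1 := h.inp t ht
    have h2 : 4 + 3 * t + 2 < TA K I 0 := by
      unfold TA RB LB
      omega
    rw [h'.mem _ (by omega), h'.mem _ (by omega), h'.mem _ h2]
    exact h1
  row := fun z hz => by
    rw [h'.mem _ (by unfold TA; omega)]
    exact h.row z hz

lemma EL3.fr {K : ℕ} {I : MMInst} {s t : Data} (h : EL3 K I s) (h' : Fr K I s t)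
    (hM : (sm K I).length ≤ 2 ^ (I.n + K)) : EL3 K I t where
  r19 := (h'.reg 19 (by omega)).trans h.r19
  word := fun p hp => by
    rw [h'.mem _ (by unfold TA RB; omega)]
    exact h.word p hp

/-! ### The programs -/

def setup3 (K D : ℕ) : Stmt := blk [
  set 1 (.ld (.c 0)), set 6 (.ld (.c 1)), set 3 (.ld (.c 2)), set 5 (.ld (.c 3)),
  set 2 (.add (.r 6) (.r 3)), set 4 (.c 1), set 9 (.sub (.r 6) (.c 1)), set 7 (.add (.r 1) (.c K)),
  pow 8 (.r 7), pow 10 (.r 1), set 11 (.c 0), set 20 (.c 0),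
  forr 21 22 (.add (.r 1) (.r 1)) (cond (.sub (.add (.r 1) (.r 1)) (.r 20))
    (blk [set 11 (.add (.r 11) (.c 1)), set 20 (.add (.r 20) (.c K))]) .skip),
  set 11 (.add (.r 11) (.c (K + 1))),
  set 12 (.add (.c 4) (.add (.r 3) (.add (.r 3) (.r 3)))),
  set 13 (.add (.r 12) (.r 8)), set 14 (.add (.r 13) (.r 8)), set 20 (.add (.r 14) (.r 6)),
  forr 21 22 (.r 6) (blk [sto (.add (.r 14) (.r 21)) (.r 20), set 20 (.add (.r 20) (.r 8))]),
  set 15 (.r 20), powset D]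

def elist3 : Stmt := blk [
  sto (.r 12) (.c 0), sto (.r 13) (.c 0), set 19 (.c 1), set 20 (.c 1),
  forr 21 22 (.r 7) (blk [
    forr 23 24 (.r 19) (cond (.sub (.r 11) (.ld (.add (.r 13) (.r 23)))) (blk [
      sto (.add (.r 12) (.r 19)) (.add (.ld (.add (.r 12) (.r 23))) (.r 20)),
      sto (.add (.r 13) (.r 19)) (.add (.ld (.add (.r 13) (.r 23))) (.c 1)),
      set 19 (.add (.r 19) (.c 1))]) .skip),
    set 20 (.add (.r 20) (.r 20))])]

def init3 : Stmt := forr 21 22 (.r 6) (forr 23 24 (.r 19)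
  (sto (.add (.ld (.add (.r 14) (.r 21))) (.ld (.add (.r 12) (.r 23)))) (.c 0)))

/-- the entries for the holes; 20 is `2^n`, `2^(n+1)`, … -/
def hole3 : ℕ → Stmt
  | 0 => .skip
  | j + 1 => Stmt.seq (hole3 j) (blk [sto (.add (.ld (.add (.r 14) (.r (50 + j)))) (.r 20)) (.c 1),
      set 20 (.add (.r 20) (.r 20))])

def base3 (K : ℕ) : Stmt := blk [
  sto (.ld (.add (.r 14) (.r 1))) (.c 1), set 20 (.c 1),
  forr 21 22 (.r 1) (blk [sto (.add (.ld (.add (.r 14) (.r 21))) (.r 20)) (.c 1), set 20 (.add (.r 20) (.r 20))]),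
  hole3 K]

/-- one rule: 26, 27, 28 are the rows of `z`, `x`, `y` -/
def rule3 : Stmt := forr 29 30 (.r 19) (blk [
  set 31 (.ld (.add (.r 12) (.r 29))),
  forr 32 33 (.r 19) (blk [
    set 34 (.ld (.add (.r 12) (.r 32))),
    cond (.sub (.r 34) (.and (.r 34) (.r 31))) .skip
      (sto (.add (.r 26) (.r 31)) (.or (.ld (.add (.r 26) (.r 31)))
        (.and (.ld (.add (.r 27) (.r 34))) (.ld (.add (.r 28) (.sub (.r 31) (.r 34)))))))])])

def fill3 : Stmt := forr 21 22 (.r 6) (blk [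
  set 25 (.c 4),
  forr 23 24 (.r 3) (blk [
    cond (.add (.sub (.ld (.r 25)) (.r 21)) (.sub (.r 21) (.ld (.r 25)))) .skip (blk [
      set 26 (.ld (.add (.r 14) (.r 21))),
      set 27 (.ld (.add (.r 14) (.ld (.add (.r 25) (.c 1))))),
      set 28 (.ld (.add (.r 14) (.ld (.add (.r 25) (.c 2))))),
      rule3]),
    set 25 (.add (.r 25) (.c 3))])])

/-- piece `i`, whose gate is in register `g` -/
def piece3 (g : ℕ) : Stmt := blk [
  set 22 (.ld (.add (.r 14) (.r g))),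
  forr 23 24 (.r 19) (blk [
    set 25 (.ld (.add (.r 12) (.r 23))),
    cond (.sub (.r 20) (.r 25)) (cond (.ld (.add (.r 22) (.r 25))) (recd [.add (.r 25) (.r 21)]) .skip) .skip]),
  set 20 (.add (.r 20) (.r 20)), set 21 (.add (.r 21) (.r 21))]

/-- pieces `0, …, i - 1`; 20 is `2^(n+i)`, 21 is `2^(n+K+i)` -/
def pieces3 : ℕ → Stmt
  | 0 => blk [set 17 (.add (.r 15) (.c 3)), set 18 (.c 0), set 20 (.r 10), set 21 (.r 8)]
  | i + 1 => Stmt.seq (pieces3 i) (piece3 (50 + i))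

def build3 (K : ℕ) : Stmt := blk [pieces3 K, piece3 5,
  sto (.r 15) (.add (.r 7) (.c (K + 1))), sto (.add (.r 15) (.c 1)) (.r 18), sto (.add (.r 15) (.c 2)) (.c 0)]

def body3 (K : ℕ) (P : List Instr) : Stmt := blk [blk [init3, base3 K], fill3, build3 K, call (50 + K) P,
  cond (.r (50 + K)) (set 0 (.c 1)) .skip]

def main3 (K D : ℕ) (P : List Instr) : Stmt := blk [setup3 K D, elist3, set 0 (.c 0), nest (body3 K P) K]

/-! ### The rows -/

/-- T1 (uses PowSet) -/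
def T1 : Prop := PowSet → ∀ (w K D : ℕ) (I : MMInst) (mem : ℕ → ℕ), 1 ≤ K → Fits3 w K D I → (∀ a, mem a < 2 ^ w) →
  (∀ i (h : i < (FullMonomial.enc I).length), mem i = (FullMonomial.enc I)[i]) →
  HT w (setup3 K D) ⟨fun _ => 0, mem⟩ (400 * (D + 1) * (K + 1) * (I.n + (I.S + I.R.length) + 3)) (Env3 K D I)

/-- T2 -/
def T2 : Prop := ∀ (w K D : ℕ) (I : MMInst) (s : Data), Fits3 w K D I → Env3 K D I s →
  HT w elist3 s (60 * (I.n + K + 1) * ((sm K I).length + 1)) (fun t => Env3 K D I t ∧ EL3 K I t ∧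
    (∀ r, 50 ≤ r → t.reg r = s.reg r))

/-- the number of small sets (easy, from ElistFacts) -/
def T2' : Prop := ∀ (K : ℕ) (I : MMInst), (sm K I).length ≤ 2 ^ (I.n + K)

/-- the entries known at the beginning -/
def Bas (n K : ℕ) (q : ℕ → ℕ) (z : ℕ) (A : Finset ℕ) : Prop :=
  (z < n ∧ A = {z}) ∨ (z = n ∧ A = ∅) ∨ ∃ j < K, z = q j ∧ A = {n + j}

/-- the guess -/
def gs (s : Data) (j : ℕ) : ℕ := s.reg (50 + j)

/-- T4 -/
def T4 : Prop := ∀ (w K D : ℕ) (I : MMInst) (s : Data), 1 ≤ K → Fits3 w K D I → Env3 K D I s → EL3 K I s →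
  (∀ j < K, gs s j < I.S) →
  HT w (blk [init3, base3 K]) s (60 * (I.S + K + 1) * ((sm K I).length + 1)) (fun t => Fr K I s t ∧
    Tab K I (Bas I.n K (gs s)) t)

/-- T5 -/
def T5 : Prop := ∀ (w K D : ℕ) (I : MMInst) (s : Data), 1 ≤ K → Fits3 w K D I → Env3 K D I s → EL3 K I s →
  (∀ j < K, gs s j < I.S) → Tab K I (Bas I.n K (gs s)) s →
  HT w fill3 s (100 * I.S * (I.R.length + 1) * ((sm K I).length + 1) ^ 2) (fun t => Fr K I s t ∧
    Tab K I (MonoH I.n K (gs s) I.R) t)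

/-- T6 -/
def T6 : Prop := ∀ (w K D : ℕ) (I : MMInst) (s : Data), 1 ≤ K → Fits3 w K D I → Env3 K D I s → EL3 K I s →
  (∀ j < K, gs s j < I.S) → Tab K I (MonoH I.n K (gs s) I.R) s →
  HT w (build3 K) s (60 * (K + 1) * ((sm K I).length + 1) + 60) (fun t => Fr K I s t ∧
    Wr t (t.reg 15) ([I.n + K + (K + 1), (instE I.n K I.o (sz I.n K + K) I.R (gs s) (K + 1)).length, 0] ++
      (instE I.n K I.o (sz I.n K + K) I.R (gs s) (K + 1)).map mask))

/-- the subroutine solves Exact Cover -/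
def Sub (P : List Instr) (n' : ℕ) (W' : ℕ) (T' : ℕ → ℕ) : Prop := ∀ L : List (Finset (Fin n')), L.Nodup →
  SolvesL P ([n', L.length, 0] ++ L.map mask) (Exact n' 0 L) W' (T' L.length)

open Classical in
/-- T7: one guess (uses T4, T5, T6, Q3) -/
def T7 : Prop := T2' → T4 → T5 → T6 → Q3 → ∀ (w K D W' : ℕ) (T' : ℕ → ℕ) (P : List Instr) (I : MMInst) (s : Data),
  1 ≤ K → Fits3 w K D I → Env3 K D I s → EL3 K I s → (∀ j < K, gs s j < I.S) → (s.reg 0 = 0 ∨ s.reg 0 = 1) →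
  Sub P (I.n + K + (K + 1)) W' T' → Monotone T' → W' ≤ 2 ^ wi D I →
  HT w (body3 K P) s (60 * (I.S + K + 1) * ((sm K I).length + 1) +
      100 * I.S * (I.R.length + 1) * ((sm K I).length + 1) ^ 2 + (60 * (K + 1) * ((sm K I).length + 1) + 60) +
      (3 * T' ((K + 1) * (sm K I).length) + top P) + 10)
    (fun t => Env3 K D I t ∧ EL3 K I t ∧ (∀ j < K, gs t j = gs s j) ∧
      t.reg 0 = if s.reg 0 = 1 ∨ Exact (I.n + K + (K + 1)) 0
        (instE I.n K I.o (sz I.n K + K) I.R (gs s) (K + 1)) then 1 else 0)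

/-- the time of the whole program; `M` small sets, `T'` time of the subroutine, `t = top P` -/
def time3 (n K D S r M T' t : ℕ) : ℕ :=
  400 * (D + 1) * (K + 1) * (n + (S + r) + 3) + 60 * (n + K + 1) * (M + 1) + 10 +
    S ^ K * (60 * (S + K + 1) * (M + 1) + 100 * S * (r + 1) * (M + 1) ^ 2 + (60 * (K + 1) * (M + 1) + 60) +
      (3 * T' + t) + 10 + 5 * K)

/-- T8: the whole program (uses T1, T2, T7, NestSpec, Q1, Q2, Q3) -/
def T8 : Prop := PowSet → T1 → T2 → T2' → T4 → T5 → T6 → T7 → Q1 → Q2 → Q3 → NestSpec → ∀ (K D W' : ℕ) (T' : ℕ → ℕ) (P : List Instr) (I : MMInst), 1 ≤ K →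
  Sub P (I.n + K + (K + 1)) W' T' → Monotone T' → W' ≤ 2 ^ wi D I →
  ∀ W : ℕ, (∀ w, W ≤ 2 ^ w → Fits3 w K D I) →
  SolvesL ((main3 K D P).compile 0) (FullMonomial.enc I) (FullMonomial.yes I) W
    (time3 I.n K D I.S I.R.length (sm K I).length (T' ((K + 1) * (sm K I).length)) (top P))

/-- T9: words: for every `K` and `C` some `D` is large enough -/
def T9 : Prop := ∀ K C : ℕ, 1 ≤ K → ∃ D C' : ℕ, ∀ I : MMInst,
  C * (2 ^ (I.n + K + (K + 1)) * (I.n + K + (K + 1) + 2 ^ (I.n + K + (K + 1)) + 2)) ^ C ≤ 2 ^ wi D I ∧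
  ∀ w, C' * (2 ^ I.n * (I.n + (I.S + I.R.length) + 2)) ^ C' ≤ 2 ^ w → Fits3 w K D I

/-- T10: time: for every base `β' > β` some `K` is large enough -/
def T10 : Prop := ∀ (β β' : ℝ) (C : ℕ), 1 ≤ β → β < β' → ∃ K : ℕ, 1 ≤ K ∧ ∀ D t : ℕ, ∃ C' : ℕ, ∀ I : MMInst,
  (time3 I.n K D I.S I.R.length (sm K I).length
    ⌊(C : ℝ) * β ^ (I.n + K + (K + 1)) * (((I.n + K + (K + 1) : ℕ) : ℝ) + ((K + 1) * (sm K I).length : ℕ) + 2) ^ C⌋₊
    t : ℝ) ≤ (C' : ℝ) * β' ^ I.n * ((I.n : ℝ) + (I.S + I.R.length : ℕ) + 2) ^ C'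

/-- T11: Full Monomial → Exact Cover (from T8, T9, T10) -/
def T11 : Prop := (∀ (K D W' : ℕ) (T' : ℕ → ℕ) (P : List Instr) (I : MMInst), 1 ≤ K →
    Sub P (I.n + K + (K + 1)) W' T' → Monotone T' → W' ≤ 2 ^ wi D I →
    ∀ W : ℕ, (∀ w, W ≤ 2 ^ w → Fits3 w K D I) →
    SolvesL ((main3 K D P).compile 0) (FullMonomial.enc I) (FullMonomial.yes I) W
      (time3 I.n K D I.S I.R.length (sm K I).length (T' ((K + 1) * (sm K I).length)) (top P))) → T9 → T10 →
  ∀ β β' : ℝ, 1 ≤ β → β < β' → FastL β (setProblem Exact) → FastL β' FullMonomial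

/-- T12: the bases of the hand-in on optimal bases -/
def T12 : Prop := ∀ (Y : ∀ n : ℕ, ℕ → List (Finset (Fin n)) → Prop) (β : ℝ), FastAt β Y ↔ FastL β (setProblem Y)

end SCM
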