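import Pool.Agent.Lib.SCM.Progs
import Pool.Agent.Lib.SCN.ND
import Pool.Agent.Lib.SCN.MA
import Pool.Agent.Lib.SCN.MB

/-!
# Row T2: the list of the small sets
-/

set_option autoImplicit false

namespace SCM

open SCR SCN

namespace T2x

lemma seqSet {w i : ℕ} {e : E} {s : Data} {q : Stmt} {T : ℕ} {Q : Data → Prop} (T2 : ℕ) (hi : i < 40 ∨ 50 ≤ i)
    (he : e.wf = true) (hd : e.depth ≤ 9) (ho : e.ok w s) (h2 : HT w q (upd s i (e.val s)) T2 Q)
    (hT : e.size + 1 + T2 ≤ T) : HT w (.seq (SCM.set i e) q) s T Q :=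
  HT.seq (R := fun s' => s' = upd s i (e.val s)) (T1 := e.size + 1) (T2 := T2)
    (HT.set hi he hd ho rfl le_rfl) (by rintro _ rfl; exact h2) hT

lemma seqSto {w : ℕ} {a e : E} {s : Data} {q : Stmt} {T : ℕ} {Q : Data → Prop} (T2 : ℕ)
    (ha : a.wf = true) (hda : a.depth ≤ 9) (hoa : a.ok w s)
    (he : e.wf = true) (hd : e.depth ≤ 8) (ho : e.ok w s) (h2 : HT w q (updm s (a.val s) (e.val s)) T2 Q)
    (hT : a.size + e.size + 1 + T2 ≤ T) : HT w (.seq (sto a e) q) s T Q :=
  HT.seq (R := fun s' => s' = updm s (a.val s) (e.val s)) (T1 := a.size + e.size + 1) (T2 := T2)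
    (HT.sto ha hda hoa he hd ho rfl le_rfl) (by rintro _ rfl; exact h2) hT

/-- The environment is kept. -/
lemma env_keep {K D : ℕ} {I : MMInst} {x y : Data} (h : Env3 K D I x) (hr : ∀ r, r < 17 → y.reg r = x.reg r)
    (hm : ∀ a, a < LB I ∨ RB K I ≤ a → y.mem a = x.mem a) : Env3 K D I y where
  r1 := (hr 1 (by omega)).trans h.r1
  r3 := (hr 3 (by omega)).trans h.r3
  r4 := (hr 4 (by omega)).trans h.r4
  r5 := (hr 5 (by omega)).trans h.r5
  r6 := (hr 6 (by omega)).trans h.r6
  r7 := (hr 7 (by omega)).trans h.r7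
  r8 := (hr 8 (by omega)).trans h.r8
  r9 := (hr 9 (by omega)).trans h.r9
  r10 := (hr 10 (by omega)).trans h.r10
  r11 := (hr 11 (by omega)).trans h.r11
  r12 := (hr 12 (by omega)).trans h.r12
  r13 := (hr 13 (by omega)).trans h.r13
  r14 := (hr 14 (by omega)).trans h.r14
  r15 := (hr 15 (by omega)).trans h.r15
  r16 := (hr 16 (by omega)).trans h.r16
  inp := fun t ht => by
    have h1 := h.inp t ht
    have h2 : 4 + 3 * t + 2 < LB I := by
      unfold LB
      omega
    rw [hm _ (Or.inl (by omega)), hm _ (Or.inl (by omega)), hm _ (Or.inl h2)]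
    exact h1
  row := fun z hz => by
    rw [hm _ (Or.inr (by omega))]
    exact h.row z hz

/-- The list `l` of sets with the list of their sizes. -/
structure EK {n : ℕ} (b : ℕ) (l : List (Finset (Fin n))) (x : Data) : Prop where
  len : x.reg 19 = l.length
  word : ∀ p (h : p < l.length), x.mem (b + p) = mask l[p]
  size : ∀ p (h : p < l.length), x.mem (b + 2 ^ n + p) = (l[p]).card

lemma ek_keep {n b : ℕ} {l : List (Finset (Fin n))} {x y : Data} (h : EK b l x)
    (h19 : y.reg 19 = x.reg 19) (hm : y.mem = x.mem) : EK b l y := by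
  constructor
  · rw [h19, h.len]
  · intro p hp
    rw [hm, h.word p hp]
  · intro p hp
    rw [hm, h.size p hp]

/-- One more set. -/
lemma ek_push {n b : ℕ} {l : List (Finset (Fin n))} {x y : Data} (z : Finset (Fin n)) (h : EK b l x)
    (hlen : l.length < 2 ^ n) (hr : y.reg 19 = l.length + 1)
    (hw : y.mem (b + l.length) = mask z)
    (hs : y.mem (b + 2 ^ n + l.length) = z.card)
    (hm : ∀ a, a ≠ b + l.length → a ≠ b + 2 ^ n + l.length → y.mem a = x.mem a) :
    EK b (l ++ [z]) y := by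
  constructor
  · rw [hr, List.length_append, List.length_singleton]
  · intro p hp
    rw [List.length_append, List.length_singleton] at hp
    by_cases hpl : p < l.length
    · rw [List.getElem_append_left hpl, hm _ (by omega) (by omega), h.word p hpl]
    · obtain rfl : p = l.length := by omega
      rw [hw]
      simp
  · intro p hp
    rw [List.length_append, List.length_singleton] at hp
    by_cases hpl : p < l.length
    · rw [List.getElem_append_left hpl, hm _ (by omega) (by omega), h.size p hpl]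
    · obtain rfl : p = l.length := by omega
      rw [hs]
      simp

/-- the inner command -/
def pin : Stmt := cond (.sub (.r 11) (.ld (.add (.r 13) (.r 23)))) (blk [
      sto (.add (.r 12) (.r 19)) (.add (.ld (.add (.r 12) (.r 23))) (.r 20)),
      sto (.add (.r 13) (.r 19)) (.add (.ld (.add (.r 13) (.r 23))) (.c 1)),
      set 19 (.add (.r 19) (.c 1))]) .skip

/-- one pass of the inner loop -/
lemma inner {w n s b e i : ℕ} {x : Data} (he : e < n) (hi : i < (elistL n s e).length)
    (hw : b + 2 * 2 ^ n < 2 ^ w) (hn1 : n + 1 < 2 ^ w)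
    (hx : EK b (ndL n s e he i) x) (x11 : x.reg 11 = s) (x12 : x.reg 12 = b) (x13 : x.reg 13 = b + 2 ^ n)
    (x20 : x.reg 20 = 2 ^ e) (x23 : x.reg 23 = i) :
    HT w pin x 34 (fun y => EK b (ndL n s e he (i + 1)) y ∧ (∀ r, r ≠ 19 → y.reg r = x.reg r) ∧
      ∀ a, a < b ∨ b + 2 * 2 ^ n ≤ a → y.mem a = x.mem a) := by
  have hlen := nd_len_le n s e
  have he2 : 2 ^ (e + 1) ≤ 2 ^ n := Nat.pow_le_pow_right (by omega) he
  rw [Nat.pow_succ] at he2
  have hLn : (ndL n s e he i).length ≤ 2 ^ n := ndL_le n s e he i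
  obtain ⟨S, hS⟩ : ∃ S, (elistL n s e)[i] = S := ⟨_, rfl⟩
  have hSm : S ∈ elistL n s e := hS ▸ List.getElem_mem hi
  obtain ⟨hSc, hSe⟩ := ((elistFacts n s e he.le).2 S).1 hSm
  obtain ⟨hm1, hm2⟩ := maskInsert n S e he hSe
  have hmlt := maskLt n (insert ⟨e, he⟩ S)
  have hcn : S.card ≤ n := by
    have := Finset.card_le_univ S
    rwa [Fintype.card_fin] at this
  have hi' : i < (ndL n s e he i).length := by
    simp only [ndL, List.length_append]
    omega
  have hget : (ndL n s e he i)[i] = S := by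
    simp only [ndL]
    rw [List.getElem_append_left hi, hS]
  have hword := hx.word i hi'
  have hsize := hx.size i hi'
  have x19 := hx.len
  rw [hget] at hword hsize
  have v1 : (E.ld (.add (.r 13) (.r 23))).val x = S.card := by
    simp only [E.val, x13, x23]
    exact hsize
  have v2 : (E.ld (.add (.r 12) (.r 23))).val x = mask S := by
    simp only [E.val, x12, x23]
    exact hword
  refine HT.cond (T1 := 24) rfl (by decide) ⟨trivial, trivial, trivial, ?_⟩ ?_ ?_ (by decide)
  · simp only [E.val, x13, x23]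
    omega
  · intro hne
    have hlt : S.card < s := by
      have h1 : (E.sub (.r 11) (.ld (.add (.r 13) (.r 23)))).val x = s - S.card := by
        rw [← v1, ← x11]
        rfl
      rw [h1] at hne
      omega
    have hlen1 : (ndL n s e he i).length < 2 ^ n := by
      have h1 := ndL_le n s e he (i + 1)
      rw [ndL_succ_pos n s e he i hi (by rw [hS]; exact hlt), List.length_append, List.length_singleton] at h1
      omega
    obtain ⟨m, hm⟩ : ∃ m, (ndL n s e he i).length = m := ⟨_, rfl⟩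
    rw [hm] at x19 hlen1 hLn hi'
    refine seqSto 14 rfl (by decide) ⟨trivial, trivial, ?_⟩ rfl (by decide) ⟨⟨trivial, trivial, ?_⟩, trivial, ?_⟩ ?_
      (by decide)
    · simp only [E.val, x12, x19]
      omega
    · simp only [E.val, x12, x23]
      omega
    · change (E.ld (.add (.r 12) (.r 23))).val x + x.reg 20 < 2 ^ w
      rw [v2, x20, ← hm1]
      omega
    have a1 : (E.add (.r 12) (.r 19)).val x = b + m := by simp only [E.val, x12, x19]
    have a2 : (E.add (.ld (.add (.r 12) (.r 23))) (.r 20)).val x = mask (insert ⟨e, he⟩ S) := by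
      rw [hm1, ← v2, ← x20]
      rfl
    rw [a1, a2]
    have v1' : (E.ld (.add (.r 13) (.r 23))).val (updm x (b + m) (mask (insert ⟨e, he⟩ S))) = S.card := by
      simp only [E.val, updm_reg, x13, x23]
      rw [updm_ne _ _ (by omega)]
      exact hsize
    refine seqSto 4 rfl (by decide) ⟨trivial, trivial, ?_⟩ rfl (by decide)
      ⟨⟨trivial, trivial, ?_⟩, by simp only [E.ok]; omega, ?_⟩ ?_ (by decide)
    · simp only [E.val, updm_reg, x13, x19]
      omega
    · simp only [E.val, updm_reg, x13, x23]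
      omega
    · change (E.ld (.add (.r 13) (.r 23))).val (updm x (b + m) (mask (insert ⟨e, he⟩ S))) + 1 < 2 ^ w
      rw [v1']
      omega
    have a3 : (E.add (.r 13) (.r 19)).val (updm x (b + m) (mask (insert ⟨e, he⟩ S))) = b + 2 ^ n + m := by
      simp only [E.val, updm_reg, x13, x19]
    have a4 : (E.add (.ld (.add (.r 13) (.r 23))) (.c 1)).val (updm x (b + m) (mask (insert ⟨e, he⟩ S))) =
        (insert (⟨e, he⟩ : Fin n) S).card := by
      rw [hm2, ← v1']
      rfl
    rw [a3, a4]
    refine seqSet 0 (by decide) rfl (by decide) ⟨trivial, by simp only [E.ok]; omega, ?_⟩ (HT.skip ?_) (by decide)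
    · simp only [E.val, updm_reg, x19]
      omega
    have a5 : (E.add (.r 19) (.c 1)).val (updm (updm x (b + m) (mask (insert ⟨e, he⟩ S))) (b + 2 ^ n + m)
        (insert (⟨e, he⟩ : Fin n) S).card) = m + 1 := by simp only [E.val, updm_reg, x19]
    rw [a5]
    refine ⟨?_, fun r hr => ?_, fun a ha => ?_⟩
    · rw [ndL_succ_pos n s e he i hi (by rw [hS]; exact hlt), hS]
      refine ek_push _ hx (by rw [hm]; exact hlen1) (by rw [upd_self, hm]) ?_ ?_ ?_
      · rw [hm]
        simp only [upd_mem, updm_mem]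
        rw [if_neg (by omega), if_pos trivial]
      · rw [hm]
        simp only [upd_mem, updm_mem]
        rw [if_pos trivial]
      · intro a h1 h2
        rw [hm] at h1 h2
        simp only [upd_mem, updm_mem]
        rw [if_neg h2, if_neg h1]
    · rw [upd_ne _ _ hr]
      rfl
    · simp only [upd_mem, updm_mem]
      rw [if_neg (by omega), if_neg (by omega)]
  · intro heq
    have hlt : ¬S.card < s := by
      have h1 : (E.sub (.r 11) (.ld (.add (.r 13) (.r 23)))).val x = s - S.card := by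
        rw [← v1, ← x11]
        rfl
      rw [h1] at heq
      omega
    refine HT.skip ⟨?_, fun _ _ => rfl, fun _ _ => rfl⟩
    rw [ndL_succ_neg n s e he i hi (by rw [hS]; exact hlt)]
    exact hx

/-- one pass of the outer loop -/
lemma outer {w n s b e c2 : ℕ} {x : Data} (he : e < n)
    (hw : b + 2 * 2 ^ n < 2 ^ w) (hn1 : n + 1 < 2 ^ w)
    (hx : EK b (elistL n s e) x) (x11 : x.reg 11 = s) (x12 : x.reg 12 = b) (x13 : x.reg 13 = b + 2 ^ n)
    (x20 : x.reg 20 = 2 ^ e) (x21 : x.reg 21 = e) (x22 : x.reg 22 = c2) :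
    HT w (blk [forr 23 24 (.r 19) pin, set 20 (.add (.r 20) (.r 20))]) x ((elistL n s e).length * 44 + 10) (fun y =>
      EK b (elistL n s (e + 1)) y ∧ y.reg 20 = 2 ^ (e + 1) ∧ y.reg 21 = e ∧ y.reg 22 = c2 ∧
      (∀ r, r < 17 ∨ 50 ≤ r → y.reg r = x.reg r) ∧
      ∀ a, a < b ∨ b + 2 * 2 ^ n ≤ a → y.mem a = x.mem a) := by
  have hlen := nd_len_le n s e
  have he2 : 2 ^ (e + 1) ≤ 2 ^ n := Nat.pow_le_pow_right (by omega) he
  rw [Nat.pow_succ] at he2
  refine HT.seq (T1 := (elistL n s e).length * 44 + 6) (T2 := 4) (R := fun y =>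
    EK b (elistL n s (e + 1)) y ∧ y.reg 20 = 2 ^ e ∧ y.reg 21 = e ∧ y.reg 22 = c2 ∧
      (∀ r, r < 17 ∨ 50 ≤ r → y.reg r = x.reg r) ∧
      ∀ a, a < b ∨ b + 2 * 2 ^ n ≤ a → y.mem a = x.mem a) ?_ ?_ le_rfl
  · refine HT.forr (elistL n s e).length 34 (fun i y => EK b (ndL n s e he i) y ∧
      (∀ r, r < 19 ∨ (19 < r ∧ r < 23) ∨ 24 < r → y.reg r = x.reg r) ∧
      ∀ a, a < b ∨ b + 2 * 2 ^ n ≤ a → y.mem a = x.mem a) (by decide) (by decide) (by decide) rfl (by decide)
      trivial hx.len (by omega) ?_ ?_ ?_ ?_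
    · refine ⟨?_, fun r hr => ?_, fun _ _ => rfl⟩
      · rw [ndL_zero]
        exact ek_keep hx (by rw [upd_ne _ _ (by decide), upd_ne _ _ (by decide)]) rfl
      · rw [upd_ne _ _ (by omega), upd_ne _ _ (by omega)]
    · rintro i hi y ⟨y1, y2, y3⟩ y23 y24
      refine (inner he hi hw hn1 y1 ((y2 11 (by decide)).trans x11) ((y2 12 (by decide)).trans x12)
        ((y2 13 (by decide)).trans x13) ((y2 20 (by decide)).trans x20) y23).mono le_rfl ?_
      rintro z ⟨z1, z2, z3⟩
      refine ⟨(z2 23 (by decide)).trans y23, (z2 24 (by decide)).trans y24, ?_, fun r hr => ?_, fun a ha => ?_⟩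
      · exact ek_keep z1 (by rw [upd_ne _ _ (by decide), upd_ne _ _ (by decide)]) rfl
      · rw [upd_ne _ _ (by omega), upd_ne _ _ (by omega), z2 r (by omega), y2 r hr]
      · exact (z3 a ha).trans (y3 a ha)
    · simp only [E.size]
      omega
    · rintro y ⟨y1, y2, y3⟩ - -
      rw [ndL_end] at y1
      refine ⟨y1, (y2 20 (by decide)).trans x20, (y2 21 (by decide)).trans x21, (y2 22 (by decide)).trans x22,
        fun r hr => y2 r (by omega), y3⟩
  · rintro y ⟨y1, y2, y3, y4, y5, y6⟩
    refine seqSet 0 (by decide) rfl (by decide) ⟨trivial, trivial, ?_⟩ (HT.skip ?_) (by decide)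
    · simp only [E.val, y2]
      omega
    have a5 : (E.add (.r 20) (.r 20)).val y = 2 ^ (e + 1) := by
      simp only [E.val, y2]
      rw [Nat.pow_succ]
      ring
    rw [a5]
    refine ⟨ek_keep y1 (by rw [upd_ne _ _ (by decide)]) rfl, upd_self _ _ _, ?_, ?_, fun r hr => ?_, y6⟩
    · rw [upd_ne _ _ (by decide), y3]
    · rw [upd_ne _ _ (by decide), y4]
    · rw [upd_ne _ _ (by omega), y5 r hr]

end T2x

open T2x in
/-- Row T2. -/
theorem t2 : T2 := by
  intro w K D I s hF hE
  obtain ⟨n, hn⟩ : ∃ n, I.n + K = n := ⟨_, rfl⟩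
  obtain ⟨b, hb⟩ : ∃ b, LB I = b := ⟨_, rfl⟩
  have hRB : RB K I = b + 2 * 2 ^ (I.n + K) := by rw [← hb]; rfl
  have haddr := hF.addr
  have hbig := hF.big
  have hw : b + 2 * 2 ^ (I.n + K) + 10 < 2 ^ w := by
    have h1 : 0 < 2 ^ wi D I := by positivity
    unfold TA at haddr
    rw [hRB] at haddr
    omega
  have hnw : I.n + K + 2 < 2 ^ w := by
    have h1 : I.n + K < 2 ^ (I.n + K) := Nat.lt_two_pow_self
    have h2 : 1 ≤ 2 ^ (I.n + K) := Nat.one_le_two_pow
    omega
  have h0 : 0 < 2 ^ (I.n + K) := by positivity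
  have e12 := hE.r12
  have e13 := hE.r13
  have e11 := hE.r11
  have e7 := hE.r7
  rw [hb] at e12 e13
  clear haddr hbig
  refine HT.mono (T := 16 + (I.n + K) * ((sm K I).length * 44 + 20)) ?_ ?_ (fun _ h => h)
  swap
  · calc 16 + (I.n + K) * ((sm K I).length * 44 + 20)
        ≤ 60 * ((sm K I).length + 1) + (I.n + K) * (60 * ((sm K I).length + 1)) := by
          refine Nat.add_le_add (by omega) (Nat.mul_le_mul_left _ (by omega))
      _ = 60 * (I.n + K + 1) * ((sm K I).length + 1) := by ring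
  refine seqSto (13 + (I.n + K) * ((sm K I).length * 44 + 20)) rfl (by decide) trivial rfl (by decide)
    (by simp only [E.ok]; omega) ?_ (by simp only [E.size]; omega)
  refine seqSto (10 + (I.n + K) * ((sm K I).length * 44 + 20)) rfl (by decide) trivial rfl (by decide)
    (by simp only [E.ok]; omega) ?_ (by simp only [E.size]; omega)
  refine seqSet (8 + (I.n + K) * ((sm K I).length * 44 + 20)) (by decide) rfl (by decide)
    (by simp only [E.ok]; omega) ?_ (by simp only [E.size]; omega)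
  refine seqSet (6 + (I.n + K) * ((sm K I).length * 44 + 20)) (by decide) rfl (by decide)
    (by simp only [E.ok]; omega) ?_ (by simp only [E.size]; omega)
  simp only [E.val, updm_reg, e12, e13]
  have hL0 : EK b (elistL (I.n + K) (sz I.n K + K) 0)
      (upd (upd (updm (updm s b 0) (b + 2 ^ (I.n + K)) 0) 19 1) 20 1) := by
    refine ⟨?_, fun p hp => ?_, fun p hp => ?_⟩
    · rw [upd_ne _ _ (by decide), upd_self]
      rfl
    · have hp0 : p = 0 := by
        simp only [elistL, List.length_singleton] at hp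
        omega
      subst hp0
      simp only [upd_mem, updm_mem, Nat.add_zero]
      rw [if_neg (by omega), if_pos trivial]
      simp [elistL, mask]
    · have hp0 : p = 0 := by
        simp only [elistL, List.length_singleton] at hp
        omega
      subst hp0
      simp only [upd_mem, updm_mem, Nat.add_zero]
      rw [if_pos trivial]
      simp [elistL]
  have hr0 : ∀ r, r < 17 ∨ 50 ≤ r →
      (upd (upd (updm (updm s b 0) (b + 2 ^ (I.n + K)) 0) 19 1) 20 1).reg r = s.reg r := by
    intro r hr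
    rw [upd_ne _ _ (by omega), upd_ne _ _ (by omega)]
    rfl
  have hm0 : ∀ a, a < b ∨ b + 2 * 2 ^ (I.n + K) ≤ a →
      (upd (upd (updm (updm s b 0) (b + 2 ^ (I.n + K)) 0) 19 1) 20 1).mem a = s.mem a := by
    intro a ha
    simp only [upd_mem, updm_mem]
    rw [if_neg (by omega), if_neg (by omega)]
  have h20 : (upd (upd (updm (updm s b 0) (b + 2 ^ (I.n + K)) 0) 19 1) 20 1).reg 20 = 1 := upd_self _ _ _
  generalize upd (upd (updm (updm s b 0) (b + 2 ^ (I.n + K)) 0) 19 1) 20 1 = x at hL0 hr0 hm0 h20 ⊢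
  refine HT.seq (T1 := 6 + (I.n + K) * ((sm K I).length * 44 + 20)) (T2 := 0)
    (R := fun t => Env3 K D I t ∧ EL3 K I t ∧ (∀ r, 50 ≤ r → t.reg r = s.reg r)) ?_ (fun t ht => HT.skip ht) le_rfl
  refine HT.forr (I.n + K) ((sm K I).length * 44 + 10) (fun e y => EK b (elistL (I.n + K) (sz I.n K + K) e) y ∧
      y.reg 20 = 2 ^ e ∧ (∀ r, r < 17 ∨ 50 ≤ r → y.reg r = s.reg r) ∧
      ∀ a, a < b ∨ b + 2 * 2 ^ (I.n + K) ≤ a → y.mem a = s.mem a) (by decide) (by decide) (by decide) rfl (by decide)
      trivial ((hr0 7 (by decide)).trans e7) (by omega) ?_ ?_ ?_ ?_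
  · refine ⟨ek_keep hL0 (by rw [upd_ne _ _ (by decide), upd_ne _ _ (by decide)]) rfl, ?_, fun r hr => ?_, hm0⟩
    · rw [upd_ne _ _ (by decide), upd_ne _ _ (by decide), h20]
      rfl
    · rw [upd_ne _ _ (by omega), upd_ne _ _ (by omega), hr0 r hr]
  · rintro e he y ⟨y1, y2, y3, y4⟩ y21 y22
    refine (outer he (by omega) (by omega) y1 ((y3 11 (by decide)).trans e11) ((y3 12 (by decide)).trans e12)
        ((y3 13 (by decide)).trans e13) y2 y21 y22).mono ?_ ?_
    · have h1 := nd_len_mono (I.n + K) (sz I.n K + K) he.le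
      have h2 : (elistL (I.n + K) (sz I.n K + K) e).length ≤ (sm K I).length := h1
      omega
    · rintro z ⟨z1, z2, z3, z4, z5, z6⟩
      refine ⟨z3, z4, ek_keep z1 (by rw [upd_ne _ _ (by decide), upd_ne _ _ (by decide)]) rfl, ?_, fun r hr => ?_,
        fun a ha => (z6 a ha).trans (y4 a ha)⟩
      · rw [upd_ne _ _ (by decide), upd_ne _ _ (by decide), z2]
      · rw [upd_ne _ _ (by omega), upd_ne _ _ (by omega), z5 r hr, y3 r hr]
  · rw [show (sm K I).length * 44 + 10 + 10 = (sm K I).length * 44 + 20 by ring]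
    simp only [E.size]
    omega
  · rintro y ⟨y1, y2, y3, y4⟩ - -
    refine ⟨env_keep hE (fun r hr => y3 r (by omega)) (fun a ha => y4 a ?_), ⟨y1.len, fun p hp => ?_⟩,
      fun r hr => y3 r (by omega)⟩
    · rw [hb, hRB] at ha
      exact ha
    · rw [hb, y1.word p hp, List.getD_eq_getElem _ _ hp]
      rfl

end SCM
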